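import Pool.Agent.VNQ.QGB

/-!
# Approximate units

* `Wt.exists_au`: for finitely many vectors `ξ_k` and `δ > 0` there is a self-adjoint contraction
  `e ∈ N` with `‖e ξ_k - ξ_k‖ < δ`.

  Proof. (i) The vectors `b† η` (`b ∈ N`, `η ∈ H`) span a dense subspace: if `ζ` is orthogonal to
  all
  of them then `b ζ = 0` for all `b ∈ N`, but by `semifinite` (one vector `ζ`) there are
  `b ∈ N` with `‖b ζ - ζ‖` arbitrarily small, so `ζ = 0`.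
  (ii) So there are finitely many `b_j ∈ N` and `η_{jk} ∈ H`, `j ∈ s`, with
  `‖ξ_k - ∑_{j∈s} b_j† η_{jk}‖ < δ/2` for all `k` (take the union of the families for the single
  `k`).
  Let `h = ∑_{j∈s} b_j† b_j`: `h ∈ M`, `h ≥ 0`, `h ∈ N` (`mul_mem`, `add_mem`). For `ε > 0` let
  `r = cfc (fun s => 1/(ε + s)) h` and `e = r h = cfc (fun s => s/(ε + s)) h` (`spectrum ℝ h ⊆
  [0,∞)`,
  the functions are continuous there; Mathlib's `cfc` for the self-adjoint `h`). `r` commutes with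
  everything that commutes with `h`, in particular with `M'`, so `r ∈ M` (`mem_of_comm`); hence
  `e = r ∘ h ∈ N` (`Wt.mul_mem`). `e` is self-adjoint, `0 ≤ s/(ε+s) ≤ 1`, so `‖e‖ ≤ 1`
  (`norm_cfc_le`).
  (iii) `(1 - e) h (1 - e) = cfc (fun s => ε² s/(ε+s)²) h`, and `ε² s/(ε+s)² ≤ ε/4` for `s ≥ 0`
  (`4 ε s ≤ (ε + s)²`). So `‖b_j (1 - e) x‖² ≤ ∑_j ‖b_j (1 - e) x‖² = ⟪(1-e) x, h (1-e) x⟫ ≤
  (ε/4) ‖x‖²`: `‖b_j (1 - e)‖ ≤ √ε / 2`, and by adjoints `‖(1 - e) b_j†‖ ≤ √ε / 2`. So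
  `‖(1 - e) ξ_k‖ ≤ ‖1 - e‖ δ/2 + (√ε/2) ∑_j ‖η_{jk}‖ < δ` for small `ε` (`‖1 - e‖ ≤ 1`).

* `Wt.exists_net`: an approximate unit as a filter. Take `κ` the set of self-adjoint
  contractions in `N` (a subtype of `H →L[ℂ] H`; it lives in `Type u`), `e` the inclusion and
  `l = ⨅ ξ, comap (fun e => e ξ) (𝓝 ξ)`, or the infimum of the principal filters of
  `{e : ∀ k ∈ F, ‖e k - k‖ < δ}` over all finite `F ⊆ H` and `δ > 0`; `NeBot` by `exists_au`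
  (`Filter.iInf_neBot_of_directed` or `Filter.HasBasis`).
-/

set_option autoImplicit false

noncomputable section

open scoped TensorProduct InnerProductSpace InnerProduct ENNReal
open Filter

namespace Pool.Agent.VNQ

universe u

variable {H G : Type u} [NormedAddCommGroup H] [InnerProductSpace ℂ H] [CompleteSpace H]
  [NormedAddCommGroup G] [InnerProductSpace ℂ G] [CompleteSpace G]

namespace Wt

variable {M : VonNeumannAlgebra H} (w : Wt M G)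

private theorem au_op {h : H →L[ℂ] H} (hN : h ∈ w.N)
    (hs : ∀ x y, ⟪h x, y⟫_ℂ = ⟪x, h y⟫_ℂ) (hp : ∀ x, 0 ≤ (⟪h x, x⟫_ℂ).re) {ε : ℝ} (hε : 0 < ε) :
    ∃ e ∈ w.N, (∀ x y, ⟪e x, y⟫_ℂ = ⟪x, e y⟫_ℂ) ∧ (∀ x, ‖e x‖ ≤ ‖x‖) ∧
      ∀ x, (⟪h (x - e x), x - e x⟫_ℂ).re ≤ ε / 2 * ‖x‖ ^ 2 := by
  let T : H →L[ℂ] H := (ε : ℂ) • ContinuousLinearMap.id ℂ H + h
  have hT : ∀ x, T x = (ε : ℂ) • x + h x := fun x => rfl
  have hTre : ∀ x, (⟪T x, x⟫_ℂ).re = ε * ‖x‖ ^ 2 + (⟪h x, x⟫_ℂ).re := by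
    intro x
    rw [hT, inner_add_left, inner_smul_left, Complex.add_re, inner_self_eq_norm_sq_to_K]
    congr 1
    rw [Complex.conj_ofReal, Complex.re_ofReal_mul]
    norm_cast
  have hU : IsUnit T := by
    refine ContinuousLinearMap.isUnit_of_forall_le_norm_inner_map T (c := ⟨ε, hε.le⟩) hε
      fun x => ?_
    calc ‖x‖ ^ 2 * ε ≤ (⟪T x, x⟫_ℂ).re := by
          rw [hTre]
          nlinarith [hp x]
      _ ≤ ‖⟪T x, x⟫_ℂ‖ := Complex.re_le_norm _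
  obtain ⟨r, hTr, hrT⟩ : ∃ r : H →L[ℂ] H, (∀ x, T (r x) = x) ∧ ∀ x, r (T x) = x := by
    obtain ⟨U, hU⟩ := hU
    refine ⟨↑U⁻¹, fun x => ?_, fun x => ?_⟩
    · have h1 : T * ↑U⁻¹ = 1 := by
        rw [← hU]
        exact U.mul_inv
      exact congrArg (fun f : H →L[ℂ] H => f x) h1
    · have h1 : ↑U⁻¹ * T = 1 := by
        rw [← hU]
        exact U.inv_mul
      exact congrArg (fun f : H →L[ℂ] H => f x) h1
  have hrM : r ∈ M := by
    refine mem_of_comm fun m hm ξ => ?_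
    have h1 : T (m (r ξ)) = m ξ := by
      rw [hT, (mem_comm_iff.1 hm) h hN.1, ← map_smul, ← map_add, ← hT, hTr]
    calc m (r ξ) = r (T (m (r ξ))) := (hrT _).symm
      _ = r (m ξ) := by rw [h1]
  have hTh : ∀ x, T (h x) = h (T x) := by
    intro x
    rw [hT, hT, map_add, map_smul]
  have her : ∀ x, r (h x) = h (r x) := by
    intro x
    calc r (h x) = r (h (T (r x))) := by rw [hTr]
      _ = r (T (h (r x))) := by rw [hTh]
      _ = h (r x) := hrT _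
  have hns : ∀ x, ‖x‖ ^ 2 = ε ^ 2 * ‖r x‖ ^ 2 + 2 * ε * (⟪h (r x), r x⟫_ℂ).re +
      ‖h (r x)‖ ^ 2 := by
    intro x
    have h1 : ‖x‖ ^ 2 = ‖(ε : ℂ) • r x + h (r x)‖ ^ 2 := by
      rw [← hT, hTr]
    have h3 : (⟪(ε : ℂ) • r x, h (r x)⟫_ℂ).re = ε * (⟪h (r x), r x⟫_ℂ).re := by
      rw [inner_smul_left, Complex.conj_ofReal, Complex.re_ofReal_mul, hs]
    have h4 : ‖(ε : ℂ) • r x‖ ^ 2 = ε ^ 2 * ‖r x‖ ^ 2 := by
      rw [norm_smul, mul_pow, Complex.norm_real, Real.norm_eq_abs, sq_abs]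
    have h5 := norm_add_sq (𝕜 := ℂ) ((ε : ℂ) • r x) (h (r x))
    rw [h1, h5, h4]
    have h6 : RCLike.re ⟪(ε : ℂ) • r x, h (r x)⟫_ℂ = (⟪(ε : ℂ) • r x, h (r x)⟫_ℂ).re := rfl
    rw [h6, h3]
    ring
  refine ⟨r ∘L h, w.mul_mem hrM hN, ?_, ?_, ?_⟩
  · intro x y
    have h1 : (r ∘L h) x = h (r x) := her x
    have h2 : (r ∘L h) y = h (r y) := her y
    rw [h1, h2]
    have h3 : ⟪h (r x), y⟫_ℂ = ⟪h (r x), (ε : ℂ) • r y + h (r y)⟫_ℂ := by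
      rw [← hT, hTr]
    have h4 : ⟪x, h (r y)⟫_ℂ = ⟪(ε : ℂ) • r x + h (r x), h (r y)⟫_ℂ := by
      rw [← hT, hTr]
    rw [h3, h4, inner_add_right, inner_add_left, inner_smul_right, inner_smul_left,
      Complex.conj_ofReal, hs (r x) (r y)]
  · intro x
    have h1 : (r ∘L h) x = h (r x) := her x
    rw [h1]
    have h2 := hns x
    have h3 := hp (r x)
    have h4 : ‖h (r x)‖ ^ 2 ≤ ‖x‖ ^ 2 := by
      have : 0 ≤ 2 * ε * (⟪h (r x), r x⟫_ℂ).re := by positivity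
      nlinarith [sq_nonneg (ε * ‖r x‖)]
    exact (pow_le_pow_iff_left₀ (norm_nonneg _) (norm_nonneg _) two_ne_zero).1 h4
  · intro x
    have h1 : x - (r ∘L h) x = (ε : ℂ) • r x := by
      have h2 : (r ∘L h) x = h (r x) := her x
      have h3 : x = (ε : ℂ) • r x + h (r x) := by
        rw [← hT, hTr]
      rw [h2]
      nth_rewrite 1 [h3]
      exact add_sub_cancel_right _ _
    rw [h1, map_smul, inner_smul_left, inner_smul_right, Complex.conj_ofReal,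
      Complex.re_ofReal_mul, Complex.re_ofReal_mul]
    have h2 := hns x
    nlinarith [sq_nonneg (ε * ‖r x‖), sq_nonneg ‖h (r x)‖]

private theorem au_dense : Dense ((Submodule.span ℂ {v : H | ∃ b ∈ w.N, ∃ η, v = (b†) η} :
    Submodule ℂ H) : Set H) := by
  rw [Submodule.dense_iff_topologicalClosure_eq_top, Submodule.topologicalClosure_eq_top_iff,
    Submodule.eq_bot_iff]
  intro ζ hζ
  have h1 : ∀ b ∈ w.N, b ζ = 0 := by
    intro b hb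
    refine ext_inner_left ℂ fun η => ?_
    rw [inner_zero_right, ← ContinuousLinearMap.adjoint_inner_left]
    exact (Submodule.mem_orthogonal _ _).1 hζ _ (Submodule.subset_span ⟨b, hb, η, rfl⟩)
  have h2 : ‖ζ‖ ≤ 0 := by
    refine le_of_forall_pos_le_add fun ε hε => ?_
    obtain ⟨a, ha, h3⟩ := w.semifinite 1 (fun _ => ζ) ε hε
    have h4 := h3 0
    rw [h1 a ha, zero_sub, norm_neg] at h4
    linarith
  exact norm_le_zero_iff.1 h2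

private theorem au_span {v : H}
    (hv : v ∈ Submodule.span ℂ {v : H | ∃ b ∈ w.N, ∃ η, v = (b†) η}) :
    ∃ s : Finset (H →L[ℂ] H), (∀ b ∈ s, b ∈ w.N) ∧
      v ∈ Submodule.span ℂ {v : H | ∃ b ∈ s, ∃ η, v = (b†) η} := by
  classical
  obtain ⟨T, hT, h1⟩ := Submodule.mem_span_finite_of_mem_span hv
  have h2 : ∀ t ∈ T, ∃ q : (H →L[ℂ] H) × H, q.1 ∈ w.N ∧ t = (q.1†) q.2 := by
    intro t ht
    obtain ⟨b, hb, η, h3⟩ := hT ht
    exact ⟨(b, η), hb, h3⟩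
  choose! f hf using h2
  refine ⟨T.image fun t => (f t).1, ?_, Submodule.span_mono ?_ h1⟩
  · intro b hb
    obtain ⟨t, ht, rfl⟩ := Finset.mem_image.1 hb
    exact (hf t ht).1
  · intro t ht
    exact ⟨(f t).1, Finset.mem_image_of_mem (fun t => (f t).1) ht, (f t).2, (hf t ht).2⟩

private theorem au_bd {s : Finset (H →L[ℂ] H)} {h : H →L[ℂ] H}
    (hb : ∀ b ∈ s, ∀ x, ‖b x‖ ^ 2 ≤ (⟪h x, x⟫_ℂ).re) {v : H}
    (hv : v ∈ Submodule.span ℂ {v : H | ∃ b ∈ s, ∃ η, v = (b†) η}) :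
    ∃ C : ℝ, 0 ≤ C ∧ ∀ ε : ℝ, 0 < ε → ∀ e : H →L[ℂ] H, (∀ x y, ⟪e x, y⟫_ℂ = ⟪x, e y⟫_ℂ) →
      (∀ x, (⟪h (x - e x), x - e x⟫_ℂ).re ≤ ε / 2 * ‖x‖ ^ 2) → ‖v - e v‖ ≤ C * √ε := by
  induction hv using Submodule.span_induction with
  | mem v hv =>
    obtain ⟨b, hbs, η, rfl⟩ := hv
    refine ⟨‖η‖, norm_nonneg _, fun ε hε e he1 he2 => ?_⟩
    obtain ⟨y, hy⟩ : ∃ y, y = (b†) η - e ((b†) η) := ⟨_, rfl⟩
    rw [← hy]
    have h1 : ‖b (y - e y)‖ ^ 2 ≤ ε / 2 * ‖y‖ ^ 2 := (hb b hbs _).trans (he2 y)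
    have h2 : ‖b (y - e y)‖ ≤ √ε * ‖y‖ := by
      have h3 : ‖b (y - e y)‖ ^ 2 ≤ (√ε * ‖y‖) ^ 2 := by
        rw [mul_pow, Real.sq_sqrt hε.le]
        nlinarith [sq_nonneg ‖y‖]
      exact (pow_le_pow_iff_left₀ (norm_nonneg _) (by positivity) two_ne_zero).1 h3
    have h3 : ⟪y, y⟫_ℂ = ⟪η, b (y - e y)⟫_ℂ := by
      rw [map_sub, inner_sub_right, ← ContinuousLinearMap.adjoint_inner_left,
        ← ContinuousLinearMap.adjoint_inner_left, ← he1, ← inner_sub_left, ← hy]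
    have h4 : ‖y‖ ^ 2 ≤ ‖η‖ * (√ε * ‖y‖) := by
      have h5 : ‖y‖ ^ 2 = ‖⟪y, y⟫_ℂ‖ := by
        rw [inner_self_eq_norm_sq_to_K]
        simp
      rw [h5, h3]
      exact (norm_inner_le_norm _ _).trans
        (mul_le_mul_of_nonneg_left h2 (norm_nonneg _))
    rcases (norm_nonneg y).eq_or_lt with h5 | h5
    · rw [← h5]
      positivity
    · have h6 : ‖y‖ * ‖y‖ ≤ (‖η‖ * √ε) * ‖y‖ := by
        calc ‖y‖ * ‖y‖ = ‖y‖ ^ 2 := by ring
          _ ≤ ‖η‖ * (√ε * ‖y‖) := h4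
          _ = (‖η‖ * √ε) * ‖y‖ := by ring
      exact le_of_mul_le_mul_right h6 h5
  | zero =>
    refine ⟨0, le_rfl, fun ε hε e he1 he2 => ?_⟩
    simp
  | add v v' _ _ ih ih' =>
    obtain ⟨C, hC, h1⟩ := ih
    obtain ⟨C', hC', h2⟩ := ih'
    refine ⟨C + C', by positivity, fun ε hε e he1 he2 => ?_⟩
    have h3 : v + v' - e (v + v') = (v - e v) + (v' - e v') := by
      rw [map_add]
      abel
    rw [h3, add_mul]
    exact (norm_add_le _ _).trans (add_le_add (h1 ε hε e he1 he2) (h2 ε hε e he1 he2))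
  | smul c v _ ih =>
    obtain ⟨C, hC, h1⟩ := ih
    refine ⟨‖c‖ * C, by positivity, fun ε hε e he1 he2 => ?_⟩
    have h3 : c • v - e (c • v) = c • (v - e v) := by
      rw [map_smul, smul_sub]
    rw [h3, norm_smul, mul_assoc]
    exact mul_le_mul_of_nonneg_left (h1 ε hε e he1 he2) (norm_nonneg _)

theorem exists_au (n : ℕ) (ξ : Fin n → H) (δ : ℝ) (hδ : 0 < δ) :
    ∃ e ∈ w.N, (∀ x y, ⟪e x, y⟫_ℂ = ⟪x, e y⟫_ℂ) ∧ (∀ x, ‖e x‖ ≤ ‖x‖) ∧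
      ∀ k, ‖e (ξ k) - ξ k‖ < δ := by
  classical
  have h1 : ∀ k, ∃ v ∈ Submodule.span ℂ {v : H | ∃ b ∈ w.N, ∃ η, v = (b†) η},
      ‖ξ k - v‖ < δ / 4 := by
    intro k
    obtain ⟨v, hv, h2⟩ := Metric.mem_closure_iff.1 (w.au_dense (ξ k)) (δ / 4) (by positivity)
    exact ⟨v, hv, by rwa [dist_eq_norm] at h2⟩
  choose v hv hv2 using h1
  choose s hs hvs using fun k => w.au_span (hv k)
  let S : Finset (H →L[ℂ] H) := Finset.univ.biUnion s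
  have hS : ∀ b ∈ S, b ∈ w.N := by
    intro b hb
    obtain ⟨k, -, hk⟩ := Finset.mem_biUnion.1 hb
    exact hs k b hk
  let h : H →L[ℂ] H := ∑ b ∈ S, (b†) ∘L b
  have hh : ∀ x, h x = ∑ b ∈ S, (b†) (b x) := by
    intro x
    rw [sum_apply]
    rfl
  have hN : h ∈ w.N := by
    refine w.Nsub.sum_mem fun b hb => ?_
    exact w.mul_mem (adj_mem (hS b hb).1) (hS b hb)
  have hsym : ∀ x y, ⟪h x, y⟫_ℂ = ⟪x, h y⟫_ℂ := by
    intro x y
    rw [hh, hh, sum_inner, inner_sum]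
    refine Finset.sum_congr rfl fun b _ => ?_
    rw [ContinuousLinearMap.adjoint_inner_left, ContinuousLinearMap.adjoint_inner_right]
  have hre : ∀ x, (⟪h x, x⟫_ℂ).re = ∑ b ∈ S, ‖b x‖ ^ 2 := by
    intro x
    rw [hh, sum_inner, Complex.re_sum]
    refine Finset.sum_congr rfl fun b _ => ?_
    rw [ContinuousLinearMap.adjoint_inner_left, inner_self_eq_norm_sq_to_K]
    norm_cast
  have hpos : ∀ x, 0 ≤ (⟪h x, x⟫_ℂ).re := by
    intro x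
    rw [hre]
    positivity
  have hb : ∀ b ∈ S, ∀ x, ‖b x‖ ^ 2 ≤ (⟪h x, x⟫_ℂ).re := by
    intro b hb x
    rw [hre]
    exact Finset.single_le_sum (f := fun b : H →L[ℂ] H => ‖b x‖ ^ 2)
      (fun _ _ => by positivity) hb
  have h2 : ∀ k, v k ∈ Submodule.span ℂ {v : H | ∃ b ∈ S, ∃ η, v = (b†) η} := by
    intro k
    refine Submodule.span_mono ?_ (hvs k)
    rintro _ ⟨b, hb, η, rfl⟩
    exact ⟨b, Finset.mem_biUnion.2 ⟨k, Finset.mem_univ _, hb⟩, η, rfl⟩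
  choose C hC hCb using fun k => au_bd hb (h2 k)
  obtain ⟨D, hD⟩ : ∃ D : ℝ, D = ∑ k, C k := ⟨_, rfl⟩
  have hD0 : 0 ≤ D := by
    rw [hD]
    exact Finset.sum_nonneg fun k _ => hC k
  have hCD : ∀ k, C k ≤ D := by
    intro k
    rw [hD]
    exact Finset.single_le_sum (f := C) (fun k _ => hC k) (Finset.mem_univ k)
  have hε : 0 < (δ / (4 * (D + 1))) ^ 2 := by positivity
  obtain ⟨e, heN, he1, he2, he3⟩ := w.au_op hN hsym hpos hε
  refine ⟨e, heN, he1, he2, fun k => ?_⟩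
  have h3 := hCb k _ hε e he1 he3
  rw [Real.sqrt_sq (by positivity)] at h3
  have h4 : C k * (δ / (4 * (D + 1))) ≤ δ / 4 := by
    have h5 : C k * (δ / (4 * (D + 1))) ≤ (D + 1) * (δ / (4 * (D + 1))) :=
      mul_le_mul_of_nonneg_right ((hCD k).trans (by linarith)) (by positivity)
    have h6 : (D + 1) * (δ / (4 * (D + 1))) = δ / 4 := by
      field_simp
    linarith
  have h5 : e (ξ k) - ξ k = e (ξ k - v k) - (v k - e (v k)) - (ξ k - v k) := by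
    rw [map_sub]
    abel
  have h6 := he2 (ξ k - v k)
  have h7 := hv2 k
  calc ‖e (ξ k) - ξ k‖ = ‖e (ξ k - v k) - (v k - e (v k)) - (ξ k - v k)‖ := by rw [h5]
    _ ≤ ‖e (ξ k - v k) - (v k - e (v k))‖ + ‖ξ k - v k‖ := norm_sub_le _ _
    _ ≤ ‖e (ξ k - v k)‖ + ‖v k - e (v k)‖ + ‖ξ k - v k‖ := by
        gcongr
        exact norm_sub_le _ _
    _ < δ := by linarith

theorem exists_net : ∃ (κ : Type u) (l : Filter κ) (_ : l.NeBot) (e : κ → H →L[ℂ] H),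
    (∀ k, e k ∈ w.N) ∧ (∀ k x y, ⟪e k x, y⟫_ℂ = ⟪x, e k y⟫_ℂ) ∧ (∀ k x, ‖e k x‖ ≤ ‖x‖) ∧
      ∀ ξ, Tendsto (fun k => e k ξ) l (nhds ξ) := by
  classical
  have h1 : ∀ q : Finset H × ℕ, ∃ e ∈ w.N, (∀ x y, ⟪e x, y⟫_ℂ = ⟪x, e y⟫_ℂ) ∧
      (∀ x, ‖e x‖ ≤ ‖x‖) ∧ ∀ ξ ∈ q.1, ‖e ξ - ξ‖ < 1 / ((q.2 : ℝ) + 1) := by
    intro q
    obtain ⟨e, h2, h3, h4, h5⟩ := w.exists_au q.1.card (fun k => (q.1.equivFin.symm k : H))
      (1 / ((q.2 : ℝ) + 1)) (by positivity)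
    refine ⟨e, h2, h3, h4, fun ξ hξ => ?_⟩
    have h6 := h5 (q.1.equivFin ⟨ξ, hξ⟩)
    rwa [Equiv.symm_apply_apply] at h6
  choose e h2 h3 h4 h5 using h1
  refine ⟨Finset H × ℕ, atTop, inferInstance, e, h2, h3, h4, fun ξ => ?_⟩
  rw [Metric.tendsto_atTop]
  intro ε hε
  obtain ⟨n, hn⟩ := exists_nat_one_div_lt hε
  refine ⟨({ξ}, n), fun q hq => ?_⟩
  have h6 : ξ ∈ q.1 := hq.1 (Finset.mem_singleton_self ξ)
  have h7 : (n : ℝ) ≤ q.2 := by exact_mod_cast hq.2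
  rw [dist_eq_norm]
  refine (h5 q ξ h6).trans (lt_of_le_of_lt ?_ hn)
  gcongr

end Wt

end Pool.Agent.VNQ
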