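import Pool.Agent.VNQ.AU

/-!
# Consequences of the approximate units

* `Wt.act_tendsto`: if `T_k, S ∈ M`, `‖T_k x‖ ≤ R ‖x‖` and `T_k ξ → S ξ` for all `ξ ∈ H` then
  `act(T_k) g → act(S) g` for all `g ∈ G`. Proof. `‖act(T_k) g - act(S) g‖²
  = ∑_i ‖Z_i (act(T_k) g - act(S) g)‖² = ∑_i ‖(T_k - S) (Z_i g)‖²` (`norm_Z`, `Z_act`); each term
  tends to `0` and is `≤ (R + ‖S‖)² ‖Z_i g‖²`, which is summable
  (`tendsto_tsum_of_dominated_convergence`).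
* `Wt.act_comp` etc. are not needed.
* `Wt.exists_sa_net`: for `a ∈ N` the operators `b_k = e_k a` (`e_k` from `exists_net`) satisfy
  `b_k ∈ N`, `b_k† = a† e_k ∈ N` (`mul_mem`; `e_k† = e_k`), `‖b_k x‖ ≤ ‖a‖ ‖x‖`, `b_k ξ → a ξ`,
  `Λ b_k = act(e_k) Λ a → Λ a` (`act_Λ`, `act_tendsto` with `S = 1`, `act 1 g = g` because
  `Z_i (act 1 g) = Z_i g`, `ext_Z`).
* `Wt.dense_sa`: `{Λ b : b, b† ∈ N}` is dense in `G`.
* `Wt.exists_star_net`: for `x ∈ M`: `b_k = e_k x e_k`: `b_k, b_k† ∈ N`, `‖b_k y‖ ≤ ‖x‖ ‖y‖`,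
  `b_k ξ → x ξ`, `b_k† ξ → x† ξ` (`e_k x e_k ξ - x ξ = e_k x (e_k ξ - ξ) + (e_k - 1) x ξ`).
-/

set_option autoImplicit false

noncomputable section

open scoped TensorProduct InnerProductSpace InnerProduct ENNReal
open Filter

namespace Pool.Agent.VNQ

universe u

variable {H G : Type u} [NormedAddCommGroup H] [InnerProductSpace ℂ H] [CompleteSpace H]
  [NormedAddCommGroup G] [InnerProductSpace ℂ G] [CompleteSpace G]

namespace Wt

variable {M : VonNeumannAlgebra H} (w : Wt M G)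

theorem act_one (g : G) : w.act (ContinuousLinearMap.id ℂ H) g = g :=
  w.ext_Z fun i => by
    rw [w.Z_act _ id_mem]
    rfl

theorem act_tendsto {κ : Type*} {l : Filter κ} (T : κ → H →L[ℂ] H) (hT : ∀ k, T k ∈ M)
    (S : H →L[ℂ] H) (hS : S ∈ M) (R : ℝ) (hR : ∀ k x, ‖T k x‖ ≤ R * ‖x‖)
    (h : ∀ ξ, Tendsto (fun k => T k ξ) l (nhds (S ξ))) (g : G) :
    Tendsto (fun k => w.act (T k) g) l (nhds (w.act S g)) := by
  rw [tendsto_iff_norm_sub_tendsto_zero]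
  have hn : ∀ k, ‖w.act (T k) g - w.act S g‖ ^ 2 =
      ∑' i, ‖T k (w.Z i g) - S (w.Z i g)‖ ^ 2 := by
    intro k
    have h1 := (w.norm_Z (w.act (T k) g - w.act S g)).tsum_eq
    rw [← h1]
    refine tsum_congr fun i => ?_
    rw [map_sub, w.Z_act _ (hT k), w.Z_act _ hS]
  have hs : Summable fun i => (R + ‖S‖) ^ 2 * ‖w.Z i g‖ ^ 2 :=
    (w.norm_Z g).summable.mul_left _
  have hlim : Tendsto (fun k => ∑' i, ‖T k (w.Z i g) - S (w.Z i g)‖ ^ 2) l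
      (nhds (∑' _ : w.ι, (0 : ℝ))) := by
    refine tendsto_tsum_of_dominated_convergence hs (fun i => ?_)
      (Filter.Eventually.of_forall fun k i => ?_)
    · have h2 := (tendsto_iff_norm_sub_tendsto_zero.1 (h (w.Z i g))).pow 2
      simpa using h2
    · have h3 : ‖T k (w.Z i g) - S (w.Z i g)‖ ≤ (R + ‖S‖) * ‖w.Z i g‖ := by
        calc ‖T k (w.Z i g) - S (w.Z i g)‖ ≤ ‖T k (w.Z i g)‖ + ‖S (w.Z i g)‖ := norm_sub_le _ _
          _ ≤ R * ‖w.Z i g‖ + ‖S‖ * ‖w.Z i g‖ := add_le_add (hR k _) (S.le_opNorm _)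
          _ = (R + ‖S‖) * ‖w.Z i g‖ := by ring
      rw [Real.norm_of_nonneg (by positivity), ← mul_pow]
      exact pow_le_pow_left₀ (norm_nonneg _) h3 2
  rw [tsum_zero] at hlim
  have h4 : Tendsto (fun k => ‖w.act (T k) g - w.act S g‖ ^ 2) l (nhds 0) := by
    simpa only [hn] using hlim
  have h5 := (Real.continuous_sqrt.tendsto 0).comp h4
  rw [Real.sqrt_zero] at h5
  refine h5.congr fun k => ?_
  simp only [Function.comp_apply]
  exact Real.sqrt_sq (norm_nonneg _)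

private theorem adj_eq_of_symm {e : H →L[ℂ] H} (he : ∀ x y, ⟪e x, y⟫_ℂ = ⟪x, e y⟫_ℂ) :
    e† = e := by
  symm
  rw [ContinuousLinearMap.eq_adjoint_iff]
  exact he

theorem exists_sa_net (a : H →L[ℂ] H) (ha : a ∈ w.N) :
    ∃ (κ : Type u) (l : Filter κ) (_ : l.NeBot) (b : κ → H →L[ℂ] H),
      (∀ k, b k ∈ w.N) ∧ (∀ k, (b k)† ∈ w.N) ∧ (∀ k x, ‖b k x‖ ≤ ‖a‖ * ‖x‖) ∧
      (∀ ξ, Tendsto (fun k => b k ξ) l (nhds (a ξ))) ∧
      Tendsto (fun k => w.Λ (b k)) l (nhds (w.Λ a)) := by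
  obtain ⟨κ, l, hl, e, heN, hes, hec, het⟩ := w.exists_net
  refine ⟨κ, l, hl, fun k => e k ∘L a, fun k => w.mul_mem (heN k).1 ha, fun k => ?_,
    fun k x => ?_, fun ξ => het (a ξ), ?_⟩
  · rw [ContinuousLinearMap.adjoint_comp, adj_eq_of_symm (hes k)]
    exact w.mul_mem (adj_mem ha.1) (heN k)
  · exact (hec k (a x)).trans (a.le_opNorm x)
  · have h1 := w.act_tendsto e (fun k => (heN k).1) (ContinuousLinearMap.id ℂ H) id_mem 1
      (fun k x => by simpa using hec k x) (fun ξ => het ξ) (w.Λ a)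
    rw [w.act_one] at h1
    exact h1.congr fun k => w.act_Λ (heN k).1 ha

theorem dense_sa : Dense {g : G | ∃ b ∈ w.N, b† ∈ w.N ∧ g = w.Λ b} := by
  rw [← dense_closure]
  refine w.dense.mono ?_
  rintro _ ⟨a, ha, rfl⟩
  obtain ⟨κ, l, hl, b, hb, hb', -, -, hΛ⟩ := w.exists_sa_net a ha
  exact mem_closure_of_tendsto hΛ (Filter.Eventually.of_forall fun k => ⟨b k, hb k, hb' k, rfl⟩)

private theorem tendsto_star {κ : Type*} {l : Filter κ} {e : κ → H →L[ℂ] H} (y : H →L[ℂ] H)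
    (hec : ∀ k x, ‖e k x‖ ≤ ‖x‖) (het : ∀ ξ, Tendsto (fun k => e k ξ) l (nhds ξ)) (ξ : H) :
    Tendsto (fun k => (e k ∘L (y ∘L e k)) ξ) l (nhds (y ξ)) := by
  have h1 : Tendsto (fun k => y (e k ξ - ξ)) l (nhds 0) := by
    have h2 := (y.continuous.tendsto (ξ - ξ)).comp ((het ξ).sub_const ξ)
    rw [sub_self, map_zero] at h2
    exact h2
  have h3 : Tendsto (fun k => e k (y (e k ξ - ξ))) l (nhds 0) :=
    squeeze_zero_norm (fun k => hec k _) (by simpa using h1.norm)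
  have h4 := h3.add (het (y ξ))
  rw [zero_add] at h4
  refine h4.congr fun k => ?_
  rw [← map_add, ← map_add, sub_add_cancel]
  rfl

theorem exists_star_net (x : H →L[ℂ] H) (hx : x ∈ M) :
    ∃ (κ : Type u) (l : Filter κ) (_ : l.NeBot) (b : κ → H →L[ℂ] H),
      (∀ k, b k ∈ w.N) ∧ (∀ k, (b k)† ∈ w.N) ∧ (∀ k y, ‖b k y‖ ≤ ‖x‖ * ‖y‖) ∧
      (∀ ξ, Tendsto (fun k => b k ξ) l (nhds (x ξ))) ∧
      ∀ ξ, Tendsto (fun k => ((b k)†) ξ) l (nhds ((x†) ξ)) := by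
  obtain ⟨κ, l, hl, e, heN, hes, hec, het⟩ := w.exists_net
  have hadj : ∀ k, (e k ∘L (x ∘L e k))† = e k ∘L (x† ∘L e k) := by
    intro k
    rw [ContinuousLinearMap.adjoint_comp, ContinuousLinearMap.adjoint_comp,
      adj_eq_of_symm (hes k)]
    rfl
  refine ⟨κ, l, hl, fun k => e k ∘L (x ∘L e k), fun k => w.mul_mem (heN k).1
    (w.mul_mem hx (heN k)), fun k => ?_, fun k y => ?_, fun ξ => ?_, fun ξ => ?_⟩
  · rw [hadj]
    exact w.mul_mem (heN k).1 (w.mul_mem (adj_mem hx) (heN k))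
  · calc ‖e k (x (e k y))‖ ≤ ‖x (e k y)‖ := hec k _
      _ ≤ ‖x‖ * ‖e k y‖ := x.le_opNorm _
      _ ≤ ‖x‖ * ‖y‖ := by gcongr; exact hec k y
  · exact tendsto_star x hec het ξ
  · simp only [hadj]
    exact tendsto_star (x†) hec het ξ

end Wt

end Pool.Agent.VNQ
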