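import Pool.Agent.VNQ.RepQ

/-!
# The transported coproduct is coassociative

`coassoc_K`. Let `m = inv y`, `X = Δ(m)`, `X_K = R.tr X`.

Proof. Both sides are conjugate linear and continuous in each of the vectors `α'`, `β'`, `η'`
separately: `η' ↦ sliceR η' η X_K ∈ π(M)` (`comm2_sliceR`, `tr_comm2`) is conjugate linear with
`‖sliceR η' η X_K‖ ≤ ‖η'‖ ‖X_K‖ ‖η‖` (`norm_sliceR_le`), and `inv`, `Δ`, `R.tr` are linear and
contractive on the relevant sets (`inv_add`, `inv_smul`, `norm_inv_le`; `map_add`, `map_smul`,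
`norm_Δ_le`; `tr_add`, `tr_smul`, `norm_tr_le`). The vectors `Z_i† κ` (`κ ∈ H`) span a dense subspace
of `K` (if `g ⊥ Z_i† κ` for all `i`, `κ` then `Z_i g = 0` for all `i`, so `g = 0` by `ext_Z`). So we may
assume `η' = T† κ`, `α' = T'† κ'`, `β' = T''† κ''` with intertwiners `T, T', T''`
(three successive closed-subspace inductions, `Submodule.span_induction` + closure). Then by `sliceR_tr`
`inv (sliceR (T† κ) η X_K) = sliceR κ (T η) X =: s`, and by `tr_spec` (`adjoint_mapT`)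
`⟪T'† κ' ⊗ T''† κ'', Δ(s)_K (α ⊗ β)⟫ = ⟪κ' ⊗ κ'', (T' ⊗ T'') Δ(s)_K (α ⊗ β)⟫
= ⟪κ' ⊗ κ'', Δ(s) (T' α ⊗ T'' β)⟫`. By `Q.coassoc m` (with `α' := κ'`, `α := T' α`, `β' := κ''`,
`β := T'' β`, `η' := κ`, `η := T η`) this is `⟪κ'' ⊗ κ, Δ(s') (T'' β ⊗ T η)⟫`,
`s' = sliceL κ' (T' α) X = inv (sliceL (T'† κ') α X_K)` (`sliceL_tr`), which is the right side, again
by `tr_spec`.
-/

set_option autoImplicit false

noncomputable section

open scoped TensorProduct InnerProductSpace InnerProduct ENNReal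

namespace Pool.Agent.VNQ

universe u

variable {H K : Type u} [NormedAddCommGroup H] [InnerProductSpace ℂ H] [CompleteSpace H]
  [NormedAddCommGroup K] [InnerProductSpace ℂ K] [CompleteSpace K]

private theorem coak_dense {M : VonNeumannAlgebra H} (R : Rep M K) {P : K → Prop}
    (hc : IsClosed {x | P x}) (h0 : P 0) (ha : ∀ x y, P x → P y → P (x + y))
    (hs : ∀ (c : ℂ) x, P x → P (c • x)) (hT : ∀ T, R.Int T → ∀ κ, P ((T†) κ)) (x : K) : P x := by
  have hd : Dense (Submodule.span ℂ {z : K | ∃ i κ, z = ((R.Z i)†) κ} : Set K) := by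
    rw [Submodule.dense_iff_topologicalClosure_eq_top, Submodule.topologicalClosure_eq_top_iff,
      Submodule.eq_bot_iff]
    intro z hz
    refine R.ext_Z fun i => ?_
    rw [map_zero]
    refine ext_inner_left ℂ fun κ => ?_
    rw [inner_zero_right, ← ContinuousLinearMap.adjoint_inner_left]
    exact (Submodule.mem_orthogonal _ _).1 hz _ (Submodule.subset_span ⟨i, κ, rfl⟩)
  have hsub : (Submodule.span ℂ {z : K | ∃ i κ, z = ((R.Z i)†) κ} : Set K) ⊆ {x | P x} := by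
    intro z hz
    have hz' : z ∈ Submodule.span ℂ {z : K | ∃ i κ, z = ((R.Z i)†) κ} := hz
    induction hz' using Submodule.span_induction with
    | mem u hu =>
      obtain ⟨i, κ, rfl⟩ := hu
      exact hT _ (R.int_Z i) κ
    | zero => exact h0
    | add u v hu hv h1 h2 => exact ha _ _ (h1 hu) (h2 hv)
    | smul c u hu h1 => exact hs _ _ (h1 hu)
  exact closure_minimal hsub hc (hd x)

/-- Additive maps with a bound are continuous. -/
private theorem coak_cont {F : K → ℂ} (h : ∀ x y, F (x + y) = F x + F y) (C : ℝ)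
    (hC : ∀ x, ‖F x‖ ≤ C * ‖x‖) : Continuous F :=
  AddMonoidHomClass.continuous_of_bound (AddMonoidHom.mk' F h) C hC

private theorem coak_sliceR_add (x y η : K) (X : HTen K K →L[ℂ] HTen K K) :
    sliceR (x + y) η X = sliceR x η X + sliceR y η X := by
  refine ContinuousLinearMap.ext fun z => ext_inner_left ℂ fun w => ?_
  rw [_root_.add_apply, inner_add_right, inner_sliceR, inner_sliceR, inner_sliceR, tmul_add,
    inner_add_left]

private theorem coak_sliceR_smul (c : ℂ) (x η : K) (X : HTen K K →L[ℂ] HTen K K) :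
    sliceR (c • x) η X = (starRingEnd ℂ c) • sliceR x η X := by
  refine ContinuousLinearMap.ext fun z => ext_inner_left ℂ fun w => ?_
  rw [_root_.smul_apply, inner_smul_right, inner_sliceR, inner_sliceR, tmul_smul,
    inner_smul_left]

private theorem coak_sliceL_add (x y η : K) (X : HTen K K →L[ℂ] HTen K K) :
    sliceL (x + y) η X = sliceL x η X + sliceL y η X := by
  refine ContinuousLinearMap.ext fun z => ext_inner_left ℂ fun w => ?_
  rw [_root_.add_apply, inner_add_right, inner_sliceL, inner_sliceL, inner_sliceL, add_tmul,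
    inner_add_left]

private theorem coak_sliceL_smul (c : ℂ) (x η : K) (X : HTen K K →L[ℂ] HTen K K) :
    sliceL (c • x) η X = (starRingEnd ℂ c) • sliceL x η X := by
  refine ContinuousLinearMap.ext fun z => ext_inner_left ℂ fun w => ?_
  rw [_root_.smul_apply, inner_smul_right, inner_sliceL, inner_sliceL, smul_tmul,
    inner_smul_left]

private theorem coak_tr {M : VonNeumannAlgebra H} (R : Rep M K) {X : HTen H H →L[ℂ] HTen H H}
    (hX : Comm2 M X) {T T' : K →L[ℂ] H} (hT : R.Int T) (hT' : R.Int T') (κ κ' : H) (α β : K) :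
    ⟪tmul ((T†) κ) ((T'†) κ'), R.tr X (tmul α β)⟫_ℂ = ⟪tmul κ κ', X (tmul (T α) (T' β))⟫_ℂ := by
  rw [← mapT_tmul (T†) (T'†), ← adjoint_mapT, ContinuousLinearMap.adjoint_inner_left,
    R.tr_spec hX hT hT', mapT_tmul]

namespace VNQGroup

variable (Q : VNQGroup H K) (R : Rep Q.M K)

private theorem dK_add {y y' : K →L[ℂ] K} (hy : y ∈ R.vn) (hy' : y' ∈ R.vn) :
    R.tr (Q.Δ (R.inv (y + y'))) = R.tr (Q.Δ (R.inv y)) + R.tr (Q.Δ (R.inv y')) := by
  rw [R.inv_add hy hy', Q.map_add _ (R.inv_mem hy) _ (R.inv_mem hy'),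
    R.tr_add (Q.Δ_comm2 (R.inv_mem hy)) (Q.Δ_comm2 (R.inv_mem hy'))]

private theorem dK_smul (c : ℂ) {y : K →L[ℂ] K} (hy : y ∈ R.vn) :
    R.tr (Q.Δ (R.inv (c • y))) = c • R.tr (Q.Δ (R.inv y)) := by
  rw [R.inv_smul c hy, Q.map_smul c _ (R.inv_mem hy), R.tr_smul c (Q.Δ_comm2 (R.inv_mem hy))]

private theorem dK_norm {y : K →L[ℂ] K} (hy : y ∈ R.vn) (θ : HTen K K) :
    ‖R.tr (Q.Δ (R.inv y)) θ‖ ≤ ‖y‖ * ‖θ‖ := by
  refine (R.norm_tr_le (Q.Δ_comm2 (R.inv_mem hy)) θ).trans ?_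
  exact mul_le_mul_of_nonneg_right ((Q.norm_Δ_le (R.inv_mem hy)).trans (R.norm_inv_le hy))
    (norm_nonneg _)

private theorem dK_core {m : H →L[ℂ] H} (hm : m ∈ Q.M) {T T' T'' : K →L[ℂ] H} (hT : R.Int T)
    (hT' : R.Int T') (hT'' : R.Int T'') (κ κ' κ'' : H) (α β η : K) :
    ⟪tmul ((T'†) κ') ((T''†) κ''),
      R.tr (Q.Δ (R.inv (sliceR ((T†) κ) η (R.tr (Q.Δ m))))) (tmul α β)⟫_ℂ =
    ⟪tmul ((T''†) κ'') ((T†) κ),
      R.tr (Q.Δ (R.inv (sliceL ((T'†) κ') α (R.tr (Q.Δ m))))) (tmul β η)⟫_ℂ := by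
  have hX := Q.Δ_comm2 hm
  have h1 : sliceR κ (T η) (Q.Δ m) ∈ Q.M := comm2_sliceR hX _ _
  have h2 : sliceL κ' (T' α) (Q.Δ m) ∈ Q.M := comm2_sliceL hX _ _
  rw [R.sliceR_tr hX hT, R.inv_π h1, R.sliceL_tr hX hT', R.inv_π h2,
    coak_tr R (Q.Δ_comm2 h1) hT' hT'', coak_tr R (Q.Δ_comm2 h2) hT'' hT]
  exact Q.coassoc m hm _ _ _ _ _ _

theorem coassoc_K {y : K →L[ℂ] K} (hy : y ∈ R.vn) (α' α β' β η' η : K) :
    ⟪tmul α' β', R.tr (Q.Δ (R.inv (sliceR η' η (R.tr (Q.Δ (R.inv y)))))) (tmul α β)⟫_ℂ =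
      ⟪tmul β' η', R.tr (Q.Δ (R.inv (sliceL α' α (R.tr (Q.Δ (R.inv y)))))) (tmul β η)⟫_ℂ := by
  have hm := R.inv_mem hy
  generalize R.inv y = m at hm
  have hXK := R.tr_comm2 (Q.Δ_comm2 hm)
  have hR : ∀ x, sliceR x η (R.tr (Q.Δ m)) ∈ R.vn := fun x => comm2_sliceR hXK x η
  have hL : ∀ x, sliceL x α (R.tr (Q.Δ m)) ∈ R.vn := fun x => comm2_sliceL hXK x α
  -- the vector `η'`
  refine coak_dense R (P := fun η' =>
    ⟪tmul α' β', R.tr (Q.Δ (R.inv (sliceR η' η (R.tr (Q.Δ m))))) (tmul α β)⟫_ℂ =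
      ⟪tmul β' η', R.tr (Q.Δ (R.inv (sliceL α' α (R.tr (Q.Δ m))))) (tmul β η)⟫_ℂ)
    ?_ ?_ ?_ ?_ ?_ η'
  · refine isClosed_eq (coak_cont (fun x z => ?_)
      (‖(tmul α' β' : HTen K K)‖ * (‖R.tr (Q.Δ m)‖ * ‖η‖ * ‖(tmul α β : HTen K K)‖))
      fun x => ?_) ?_
    · rw [coak_sliceR_add, dK_add Q R (hR x) (hR z), _root_.add_apply, inner_add_right]
    · refine (norm_inner_le_norm _ _).trans ?_
      have h1 := dK_norm Q R (hR x) (tmul α β)
      have h2 := norm_sliceR_le x η (R.tr (Q.Δ m))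
      have h3 := mul_le_mul_of_nonneg_right h2 (norm_nonneg (tmul α β : HTen K K))
      have h4 := mul_le_mul_of_nonneg_left (h1.trans h3) (norm_nonneg (tmul α' β' : HTen K K))
      refine h4.trans (le_of_eq ?_)
      ring
    · exact ((lT β').continuous).inner continuous_const
  · have h1 : sliceR 0 η (R.tr (Q.Δ m)) = 0 := by
      have h2 := coak_sliceR_smul 0 0 η (R.tr (Q.Δ m))
      rwa [zero_smul, map_zero, zero_smul] at h2
    have h3 : R.tr (Q.Δ (R.inv 0)) = 0 := by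
      have h2 := dK_smul Q R 0 (hR 0)
      rwa [zero_smul, zero_smul] at h2
    rw [h1, h3, tmul_zero, inner_zero_left, _root_.zero_apply, inner_zero_right]
  · intro x z hx hz
    rw [coak_sliceR_add, dK_add Q R (hR x) (hR z), _root_.add_apply, inner_add_right, hx, hz,
      tmul_add, inner_add_left]
  · intro c x hx
    rw [coak_sliceR_smul, dK_smul Q R _ (hR x), _root_.smul_apply, inner_smul_right, hx,
      tmul_smul, inner_smul_left]
  intro T hT κ
  -- the vector `α'`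
  refine coak_dense R (P := fun α' =>
    ⟪tmul α' β', R.tr (Q.Δ (R.inv (sliceR ((T†) κ) η (R.tr (Q.Δ m))))) (tmul α β)⟫_ℂ =
      ⟪tmul β' ((T†) κ), R.tr (Q.Δ (R.inv (sliceL α' α (R.tr (Q.Δ m))))) (tmul β η)⟫_ℂ)
    ?_ ?_ ?_ ?_ ?_ α'
  · refine isClosed_eq ?_ (coak_cont (fun x z => ?_)
      (‖(tmul β' ((T†) κ) : HTen K K)‖ * (‖R.tr (Q.Δ m)‖ * ‖α‖ * ‖(tmul β η : HTen K K)‖))
      fun x => ?_)
    · exact ((rT β').continuous).inner continuous_const
    · rw [coak_sliceL_add, dK_add Q R (hL x) (hL z), _root_.add_apply, inner_add_right]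
    · refine (norm_inner_le_norm _ _).trans ?_
      have h1 := dK_norm Q R (hL x) (tmul β η)
      have h2 := norm_sliceL_le x α (R.tr (Q.Δ m))
      have h3 := mul_le_mul_of_nonneg_right h2 (norm_nonneg (tmul β η : HTen K K))
      have h4 := mul_le_mul_of_nonneg_left (h1.trans h3)
        (norm_nonneg (tmul β' ((T†) κ) : HTen K K))
      refine h4.trans (le_of_eq ?_)
      ring
  · have h1 : sliceL 0 α (R.tr (Q.Δ m)) = 0 := by
      have h2 := coak_sliceL_smul 0 0 α (R.tr (Q.Δ m))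
      rwa [zero_smul, map_zero, zero_smul] at h2
    have h3 : R.tr (Q.Δ (R.inv 0)) = 0 := by
      have h2 := dK_smul Q R 0 (hL 0)
      rwa [zero_smul, zero_smul] at h2
    rw [h1, h3, zero_tmul, inner_zero_left, _root_.zero_apply, inner_zero_right]
  · intro x z hx hz
    rw [coak_sliceL_add, dK_add Q R (hL x) (hL z), _root_.add_apply, inner_add_right, ← hx, ← hz,
      add_tmul, inner_add_left]
  · intro c x hx
    rw [coak_sliceL_smul, dK_smul Q R _ (hL x), _root_.smul_apply, inner_smul_right, ← hx,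
      smul_tmul, inner_smul_left]
  intro T' hT' κ'
  -- the vector `β'`
  refine coak_dense R (P := fun β' =>
    ⟪tmul ((T'†) κ') β',
      R.tr (Q.Δ (R.inv (sliceR ((T†) κ) η (R.tr (Q.Δ m))))) (tmul α β)⟫_ℂ =
      ⟪tmul β' ((T†) κ),
        R.tr (Q.Δ (R.inv (sliceL ((T'†) κ') α (R.tr (Q.Δ m))))) (tmul β η)⟫_ℂ)
    ?_ ?_ ?_ ?_ ?_ β'
  · exact isClosed_eq (((lT ((T'†) κ')).continuous).inner continuous_const)
      (((rT ((T†) κ)).continuous).inner continuous_const)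
  · rw [tmul_zero, zero_tmul, inner_zero_left, inner_zero_left]
  · intro x z hx hz
    rw [tmul_add, add_tmul, inner_add_left, inner_add_left, hx, hz]
  · intro c x hx
    rw [tmul_smul, smul_tmul, inner_smul_left, inner_smul_left, hx]
  intro T'' hT'' κ''
  exact dK_core Q R hm hT hT' hT'' κ κ' κ'' α β η

end VNQGroup

end Pool.Agent.VNQ
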