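import Pool.Agent.VNQ.Tens

/-!
# Extension of bounded operators from dense ranges

* `exists_clm`: Let `Λ : E → F` be linear with dense range and `f : E → F'` linear with
  `‖f x‖ ≤ C ‖Λ x‖`. Then there is a bounded `T : F → F'` with `T (Λ x) = f x` and
  `‖T y‖ ≤ C ‖y‖`.

  Proof. `f` vanishes on `ker Λ`. (i) Well defined on `range Λ`: for `y ∈ range Λ` choose a
  preimage;
  this gives a linear map `g : range Λ → F'` (for instance by `LinearMap.range` and
  `(LinearMap.ker Λ).liftQ f` together with `LinearMap.quotKerEquivRange`, or by choosing preimages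
  and checking linearity with the bound), with `‖g y‖ ≤ C ‖y‖`, so `g` is a continuous linear map on
  the subspace `LinearMap.range Λ` (`LinearMap.mkContinuous`). Extend it to the closure with
  `ContinuousLinearMap.extend` (the inclusion of the subspace is a uniform inducing map with dense
  range). The bound passes to the limit (closed condition, `DenseRange.induction_on`). See
  `mapT` in the file `Tens` for a use of `ContinuousLinearMap.extend` and `extend_eq`. One may have
  to replace `C` by `max C 0` for `mkContinuous` (or note that `C < 0` forces `Λ = 0`, `f = 0`).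
  An alternative is to apply Mathlib's `LinearMap.extendOfNorm` if present.

* `exists_isometry_right`: Let `f : H → E → F` be bilinear with
  `⟪f ξ a, f ξ' a'⟫ = ⟪ξ, ξ'⟫ ⟪Λ a, Λ a'⟫`. Then there is an isometry `T : H ⊗ G → F` with
  `T (tmul ξ (Λ a)) = f ξ a`.

  Proof. Let `ι : H ⊗[ℂ] E → HTen H G` be the linear map `toHTen ∘ (id ⊗ Λ)`
  (`TensorProduct.map LinearMap.id Λ`, or `LinearMap.lTensor H Λ`) and
  `g := TensorProduct.lift f : H ⊗[ℂ] E → F`. For all `x y : H ⊗[ℂ] E`:
  `⟪g x, g y⟫ = ⟪ι x, ι y⟫` (two inductions with `TensorProduct.induction_on`; for elementary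
  tensors
  this is the hypothesis, `inner_tmul`). So `‖g x‖ = ‖ι x‖`. `ι` has dense range: the closure of its
  range is a closed subspace which contains all `tmul ξ (Λ a)`, hence (continuity of `lT ξ`, density
  of
  the range of `Λ`) all `tmul ξ η`, hence the range of `toHTen` (`TensorProduct.induction_on`),
  which
  is
  dense (`denseRange_toHTen`). Apply `exists_clm` with `C = 1`; `‖T θ‖ = ‖θ‖` holds on the dense
  range of `ι` and is a closed condition.

* `exists_isometry_left`: the same with the factors exchanged.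
-/

set_option autoImplicit false

noncomputable section

open scoped TensorProduct InnerProductSpace InnerProduct

namespace Pool.Agent.VNQ

universe u

/-- A bounded linear map given on a dense range extends. -/
theorem exists_clm {E F F' : Type*} [AddCommGroup E] [Module ℂ E] [NormedAddCommGroup F]
    [NormedSpace ℂ F] [NormedAddCommGroup F'] [NormedSpace ℂ F'] [CompleteSpace F']
    (Λ : E →ₗ[ℂ] F) (hΛ : DenseRange Λ) (f : E →ₗ[ℂ] F') (C : ℝ)
    (hf : ∀ x, ‖f x‖ ≤ C * ‖Λ x‖) :
    ∃ T : F →L[ℂ] F', (∀ x, T (Λ x) = f x) ∧ ∀ y, ‖T y‖ ≤ C * ‖y‖ :=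
  ⟨f.extendOfNorm Λ, fun x => LinearMap.extendOfNorm_eq hΛ ⟨C, hf⟩ x,
    fun y => LinearMap.norm_extendOfNorm_apply_le hΛ C hf y⟩

variable {H G F : Type u} [NormedAddCommGroup H] [InnerProductSpace ℂ H]
  [NormedAddCommGroup G] [InnerProductSpace ℂ G] [NormedAddCommGroup F] [InnerProductSpace ℂ F]
  [CompleteSpace F]

/-- An isometry given on a dense range. -/
private theorem exists_iso {A K : Type*} [AddCommGroup A] [Module ℂ A] [NormedAddCommGroup K]
    [InnerProductSpace ℂ K] (ι : A →ₗ[ℂ] K) (hι : DenseRange ι) (g : A →ₗ[ℂ] F)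
    (hg : ∀ x, ‖g x‖ = ‖ι x‖) :
    ∃ T : K →L[ℂ] F, (∀ x, T (ι x) = g x) ∧ ∀ θ, ‖T θ‖ = ‖θ‖ := by
  obtain ⟨T, hT, -⟩ := exists_clm ι hι g 1 fun x => by rw [hg, one_mul]
  refine ⟨T, hT, fun θ => ?_⟩
  refine DenseRange.induction_on hι θ (isClosed_eq (by fun_prop) (by fun_prop)) fun x => ?_
  rw [hT, hg]

private theorem norm_of_inner {A K : Type*} [NormedAddCommGroup A] [InnerProductSpace ℂ A]
    [NormedAddCommGroup K] [InnerProductSpace ℂ K] {x : A} {y : K} (h : ⟪x, x⟫_ℂ = ⟪y, y⟫_ℂ) :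
    ‖x‖ = ‖y‖ := by
  rw [norm_eq_sqrt_re_inner (𝕜 := ℂ) x, norm_eq_sqrt_re_inner (𝕜 := ℂ) y, h]

/-- A linear map to the tensor product has dense range if all elementary tensors are limits. -/
private theorem dense_of_tmul {A : Type*} [AddCommGroup A] [Module ℂ A] (ι : A →ₗ[ℂ] HTen H G)
    (h : ∀ ξ η, tmul ξ η ∈ closure (Set.range ι)) : DenseRange ι := by
  have hS : ∀ θ : HTen H G, θ ∈ (LinearMap.range ι).topologicalClosure := by
    intro θ
    refine DenseRange.induction_on (denseRange_toHTen (H := H) (K := G)) θ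
      (LinearMap.range ι).isClosed_topologicalClosure fun x => ?_
    induction x using TensorProduct.induction_on with
    | zero =>
      rw [map_zero]
      exact Submodule.zero_mem _
    | tmul ξ η => exact h ξ η
    | add x y hx hy =>
      rw [map_add]
      exact Submodule.add_mem _ hx hy
  intro θ
  exact hS θ

/-- An isometry given on the elementary tensors `tmul ξ (Λ a)`. -/
theorem exists_isometry_right {E : Type*} [AddCommGroup E] [Module ℂ E] (Λ : E →ₗ[ℂ] G)
    (hΛ : DenseRange Λ) (f : H →ₗ[ℂ] E →ₗ[ℂ] F)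
    (hf : ∀ ξ ξ' a a', ⟪f ξ a, f ξ' a'⟫_ℂ = ⟪ξ, ξ'⟫_ℂ * ⟪Λ a, Λ a'⟫_ℂ) :
    ∃ T : HTen H G →L[ℂ] F, (∀ ξ a, T (tmul ξ (Λ a)) = f ξ a) ∧ ∀ θ, ‖T θ‖ = ‖θ‖ := by
  set ι : H ⊗[ℂ] E →ₗ[ℂ] HTen H G :=
    (toHTen H G).toLinearMap ∘ₗ TensorProduct.map LinearMap.id Λ with hι
  have hι1 : ∀ ξ a, ι (ξ ⊗ₜ[ℂ] a) = tmul ξ (Λ a) := fun ξ a => rfl
  set g : H ⊗[ℂ] E →ₗ[ℂ] F := TensorProduct.lift f with hg
  have hg1 : ∀ ξ a, g (ξ ⊗ₜ[ℂ] a) = f ξ a := fun ξ a => by rw [hg, TensorProduct.lift.tmul]
  have hin : ∀ x y, ⟪g x, g y⟫_ℂ = ⟪ι x, ι y⟫_ℂ := by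
    intro x y
    induction x using TensorProduct.induction_on with
    | zero => rw [map_zero, map_zero, inner_zero_left, inner_zero_left]
    | add x x' hx hx' => rw [map_add, map_add, inner_add_left, inner_add_left, hx, hx']
    | tmul ξ a =>
      induction y using TensorProduct.induction_on with
      | zero => rw [map_zero, map_zero, inner_zero_right, inner_zero_right]
      | add y y' hy hy' => rw [map_add, map_add, inner_add_right, inner_add_right, hy, hy']
      | tmul ξ' a' => rw [hg1, hg1, hι1, hι1, hf, inner_tmul]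
  have hd : DenseRange ι := by
    refine dense_of_tmul ι fun ξ η => ?_
    refine DenseRange.induction_on hΛ η
      (isClosed_closure.preimage (lT ξ : G →L[ℂ] HTen H G).continuous) fun a => ?_
    exact subset_closure ⟨ξ ⊗ₜ[ℂ] a, hι1 ξ a⟩
  obtain ⟨T, hT, hT'⟩ := exists_iso ι hd g fun x => norm_of_inner (hin x x)
  exact ⟨T, fun ξ a => by rw [← hι1, hT, hg1], hT'⟩

/-- An isometry given on the elementary tensors `tmul (Λ a) η`. -/
theorem exists_isometry_left {E : Type*} [AddCommGroup E] [Module ℂ E] (Λ : E →ₗ[ℂ] G)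
    (hΛ : DenseRange Λ) (f : E →ₗ[ℂ] H →ₗ[ℂ] F)
    (hf : ∀ a a' η η', ⟪f a η, f a' η'⟫_ℂ = ⟪Λ a, Λ a'⟫_ℂ * ⟪η, η'⟫_ℂ) :
    ∃ T : HTen G H →L[ℂ] F, (∀ a η, T (tmul (Λ a) η) = f a η) ∧ ∀ θ, ‖T θ‖ = ‖θ‖ := by
  set ι : E ⊗[ℂ] H →ₗ[ℂ] HTen G H :=
    (toHTen G H).toLinearMap ∘ₗ TensorProduct.map Λ LinearMap.id with hι
  have hι1 : ∀ a η, ι (a ⊗ₜ[ℂ] η) = tmul (Λ a) η := fun a η => rfl
  set g : E ⊗[ℂ] H →ₗ[ℂ] F := TensorProduct.lift f with hg
  have hg1 : ∀ a η, g (a ⊗ₜ[ℂ] η) = f a η := fun a η => by rw [hg, TensorProduct.lift.tmul]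
  have hin : ∀ x y, ⟪g x, g y⟫_ℂ = ⟪ι x, ι y⟫_ℂ := by
    intro x y
    induction x using TensorProduct.induction_on with
    | zero => rw [map_zero, map_zero, inner_zero_left, inner_zero_left]
    | add x x' hx hx' => rw [map_add, map_add, inner_add_left, inner_add_left, hx, hx']
    | tmul a η =>
      induction y using TensorProduct.induction_on with
      | zero => rw [map_zero, map_zero, inner_zero_right, inner_zero_right]
      | add y y' hy hy' => rw [map_add, map_add, inner_add_right, inner_add_right, hy, hy']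
      | tmul a' η' => rw [hg1, hg1, hι1, hι1, hf, inner_tmul]
  have hd : DenseRange ι := by
    refine dense_of_tmul ι fun ξ η => ?_
    refine DenseRange.induction_on hΛ ξ
      (isClosed_closure.preimage (rT η : G →L[ℂ] HTen G H).continuous) fun a => ?_
    exact subset_closure ⟨a ⊗ₜ[ℂ] η, hι1 a η⟩
  obtain ⟨T, hT, hT'⟩ := exists_iso ι hd g fun x => norm_of_inner (hin x x)
  exact ⟨T, fun a η => by rw [← hι1, hT, hg1], hT'⟩

end Pool.Agent.VNQ
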