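import Pool.Agent.VNQ.QG
import Pool.Agent.VNQ.Ext

/-!
# The GNS construction of `ψ` on the given space

* `mem_NS_iff`: if `w x = ∑' i, ofReal (re ⟪ζ_i, x ζ_i⟫)` for all `0 ≤ x ∈ M` then
  `a ∈ NS M ζ ↔ a ∈ NL M w` and `ofReal (∑' ‖a ζ_i‖²) = w (star a * a)` for such `a`: for `a ∈ M`:
  `star a * a ∈ M` is `≥ 0` (`star_mul_self_nonneg`), `re ⟪ζ_i, (star a * a) ζ_i⟫ = ‖a ζ_i‖²`, so
  `w (star a * a) = ∑' i, ofReal (‖a ζ_i‖²)`, and this is `< ∞` iff `∑ ‖a ζ_i‖² < ∞`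
  (`ENNReal.ofReal_tsum_of_nonneg`, `ENNReal.tsum_coe_ne_top_iff_summable`).
* `exists_wt_of`: suppose that `Λ : (H →L[ℂ] H) → H` satisfies the five properties of
  `VNQG` (additive and homogeneous on `NL M w`, `ofReal (‖Λ a‖²) = w (star a * a)`,
  `Λ (x * a) = x (Λ a)`, dense range). Then there is `wt : Wt M H` with `wt.Λ = Λ`,
  `wt.act m = m` for all `m ∈ M` and `w x = ∑' i, ofReal (re ⟪z_i, x z_i⟫)` for `0 ≤ x ∈ M`.

  Proof. `ι`, `ζ` from `hw.normal`; `NL M w = NS M ζ` by `mem_NS_iff`. `‖a ζ_i‖² ≤ ∑ ‖a ζ_i‖² = ‖Λ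
  a‖²`,
  so by `exists_clm` (file `Ext`, with the subspace `NS M ζ` as `E`) there is `Z_i : H →L[ℂ] H` with
  `Z_i (Λ a) = a ζ_i`, `‖Z_i g‖ ≤ ‖g‖`. `norm_Z`: for `g = Λ a` it is
  `∑ ‖a ζ_i‖² = ‖Λ a‖²`. For general `g`: for every finite set `s`, `∑_{i∈s} ‖Z_i g‖² ≤ ‖g‖²`
  (closed
  condition in `g`), so `T : g ↦ (Z_i g)_i` is a bounded map into `lp (fun _ : ι => H) 2`
  with `‖T (Λ a)‖ = ‖Λ a‖`, hence isometric by density and continuity. [Or directly: given `ε`,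
  choose `a` with `‖g - Λ a‖ < ε` and compare the sums with the triangle inequality in `ℓ²`.]
  `Z_act` with `act := fun m => m`: `Z_i (m g) = m (Z_i g)` for `g = Λ a`:
  `Z_i (Λ (m * a)) = m (a ζ_i)`; density. `faithful`: if `a ζ_i = 0` for all `i` then
  `w (star a * a) = 0` so `a = 0` by `hw.faithful`. `semifinite`: `hw.semifinite 1`. `Λ_add`,
  `Λ_smul`,
  `dense` are the hypotheses.
-/

set_option autoImplicit false

noncomputable section

open scoped TensorProduct InnerProductSpace InnerProduct ENNReal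

namespace Pool.Agent.VNQ

universe u

variable {H : Type u} [NormedAddCommGroup H] [InnerProductSpace ℂ H] [CompleteSpace H]

private theorem re_star_mul (a : H →L[ℂ] H) (ζ : H) :
    RCLike.re ⟪ζ, (star a * a) ζ⟫_ℂ = ‖a ζ‖ ^ 2 := by
  have h1 : (star a * a) ζ = (a†) (a ζ) := rfl
  rw [h1, ContinuousLinearMap.adjoint_inner_right, inner_self_eq_norm_sq]

private theorem w_star_mul {M : VonNeumannAlgebra H} {w : (H →L[ℂ] H) → ℝ≥0∞} {ι : Type u}
    {ζ : ι → H} (h : ∀ x ∈ M, 0 ≤ x → w x = ∑' i, ENNReal.ofReal (RCLike.re ⟪ζ i, x (ζ i)⟫_ℂ))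
    {a : H →L[ℂ] H} (ha : a ∈ M) :
    w (star a * a) = ∑' i, ENNReal.ofReal (‖a (ζ i)‖ ^ 2) := by
  rw [h _ (mul_mem (star_mem ha) ha) (star_mul_self_nonneg a)]
  simp only [re_star_mul]

theorem mem_NS_iff {M : VonNeumannAlgebra H} {w : (H →L[ℂ] H) → ℝ≥0∞} {ι : Type u} {ζ : ι → H}
    (h : ∀ x ∈ M, 0 ≤ x → w x = ∑' i, ENNReal.ofReal (RCLike.re ⟪ζ i, x (ζ i)⟫_ℂ))
    {a : H →L[ℂ] H} (ha : a ∈ M) :
    (a ∈ NS M ζ ↔ a ∈ NL M w) ∧
      (a ∈ NS M ζ → ENNReal.ofReal (∑' i, ‖a (ζ i)‖ ^ 2) = w (star a * a)) := by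
  have h1 := w_star_mul h ha
  have h2 : a ∈ NS M ζ → ENNReal.ofReal (∑' i, ‖a (ζ i)‖ ^ 2) = w (star a * a) := by
    intro h3
    rw [h1, ENNReal.ofReal_tsum_of_nonneg (fun i => by positivity) h3.2]
  refine ⟨⟨fun h3 => ⟨ha, ?_⟩, fun h3 => ⟨ha, ?_⟩⟩, h2⟩
  · rw [← h2 h3]
    exact ENNReal.ofReal_lt_top
  · have h4 := h3.2
    rw [h1] at h4
    have h5 := ENNReal.summable_toReal h4.ne
    simpa [ENNReal.toReal_ofReal] using h5

private theorem mem_NS_smul {M : VonNeumannAlgebra H} (c : ℂ) {a : H →L[ℂ] H} (ha : a ∈ M) :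
    c • a ∈ M := M.toStarSubalgebra.smul_mem ha c

theorem exists_wt_of {M : VonNeumannAlgebra H} {w : (H →L[ℂ] H) → ℝ≥0∞} (hw : IsNSF M w)
    (Λ : (H →L[ℂ] H) → H)
    (Λ_add : ∀ a ∈ NL M w, ∀ b ∈ NL M w, Λ (a + b) = Λ a + Λ b)
    (Λ_smul : ∀ c : ℂ, ∀ a ∈ NL M w, Λ (c • a) = c • Λ a)
    (Λ_norm : ∀ a ∈ NL M w, ENNReal.ofReal (‖Λ a‖ ^ 2) = w (star a * a))
    (Λ_mul : ∀ x ∈ M, ∀ a ∈ NL M w, Λ (x * a) = x (Λ a))
    (Λ_dense : Dense (Λ '' NL M w)) :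
    ∃ wt : Wt M H, wt.Λ = Λ ∧ (∀ m ∈ M, wt.act m = m) ∧ ∀ x ∈ M, 0 ≤ x →
        w x = ∑' i, ENNReal.ofReal (RCLike.re ⟪wt.z i, x (wt.z i)⟫_ℂ) := by
  obtain ⟨ι, ζ, hζ⟩ := hw.normal
  have hN : NL M w = NS M ζ := by
    ext a
    constructor
    · intro h
      exact (mem_NS_iff hζ h.1).1.2 h
    · intro h
      exact (mem_NS_iff hζ h.1).1.1 h
  have hhs : ∀ a ∈ NS M ζ, HasSum (fun i => ‖a (ζ i)‖ ^ 2) (‖Λ a‖ ^ 2) := by
    intro a ha
    have h1 := (mem_NS_iff hζ ha.1).2 ha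
    rw [← Λ_norm a (hN ▸ ha), ENNReal.ofReal_eq_ofReal_iff (tsum_nonneg fun i => by positivity)
      (by positivity)] at h1
    rw [← h1]
    exact ha.2.hasSum
  let E : Submodule ℂ (H →L[ℂ] H) :=
    { carrier := NS M ζ
      add_mem' := by
        intro a b ha hb
        refine ⟨add_mem ha.1 hb.1, ?_⟩
        refine Summable.of_nonneg_of_le (fun i => by positivity) (fun i => ?_)
          ((ha.2.mul_left 2).add (hb.2.mul_left 2))
        have h1 : ‖(a + b) (ζ i)‖ ≤ ‖a (ζ i)‖ + ‖b (ζ i)‖ := norm_add_le _ _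
        have h2 := norm_nonneg ((a + b) (ζ i))
        nlinarith [sq_nonneg (‖a (ζ i)‖ - ‖b (ζ i)‖)]
      zero_mem' := by
        refine ⟨zero_mem M, ?_⟩
        simpa using summable_zero
      smul_mem' := by
        intro c a ha
        refine ⟨(mem_NS_smul c ha.1), ?_⟩
        have h1 : (fun i => ‖(c • a) (ζ i)‖ ^ 2) = fun i => ‖c‖ ^ 2 * ‖a (ζ i)‖ ^ 2 := by
          funext i
          rw [smul_apply, norm_smul, mul_pow]
        rw [h1]
        exact ha.2.mul_left _ }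
  let ΛE : E →ₗ[ℂ] H :=
    { toFun := fun a => Λ a.1
      map_add' := fun a b => Λ_add _ (hN ▸ a.2) _ (hN ▸ b.2)
      map_smul' := fun c a => Λ_smul c _ (hN ▸ a.2) }
  have hd : DenseRange ΛE := by
    rw [hN] at Λ_dense
    refine Λ_dense.mono ?_
    rintro _ ⟨a, ha, rfl⟩
    exact ⟨⟨a, ha⟩, rfl⟩
  have hmem : ∀ a : E, Memℓp (fun i => a.1 (ζ i)) 2 := by
    intro a
    refine memℓp_gen ?_
    have := a.2.2
    simpa using this
  let f : E →ₗ[ℂ] lp (fun _ : ι => H) 2 :=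
    { toFun := fun a => ⟨fun i => a.1 (ζ i), hmem a⟩
      map_add' := fun a b => by
        ext i
        rfl
      map_smul' := fun c a => by
        ext i
        rfl }
  have hsum : ∀ g : lp (fun _ : ι => H) 2, HasSum (fun i => ‖g i‖ ^ 2) (‖g‖ ^ 2) := by
    intro g
    have := lp.hasSum_norm (p := 2) (by norm_num) g
    simpa using this
  have hfn : ∀ a : E, ‖f a‖ = ‖ΛE a‖ := by
    intro a
    have h1 := (hsum (f a)).unique (hhs a.1 a.2)
    exact (sq_eq_sq₀ (norm_nonneg _) (norm_nonneg _)).1 h1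
  obtain ⟨T, hT, -⟩ := exists_clm ΛE hd f 1 fun x => by rw [hfn, one_mul]
  have hTn : ∀ g, ‖T g‖ = ‖g‖ := by
    intro g
    refine DenseRange.induction_on hd g (isClosed_eq (by fun_prop) (by fun_prop)) fun a => ?_
    rw [hT, hfn]
  let Z : ι → H →L[ℂ] H := fun i => (lp.evalCLM ℂ (fun _ : ι => H) 2 i) ∘L T
  have hZ : ∀ a ∈ NS M ζ, ∀ i, Z i (Λ a) = a (ζ i) := by
    intro a ha i
    have h1 : T (Λ a) = f ⟨a, ha⟩ := hT ⟨a, ha⟩
    change (T (Λ a)) i = _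
    rw [h1]
    rfl
  let wt : Wt M H :=
    { ι := ι
      z := ζ
      Λ := Λ
      Z := Z
      act := fun m => m
      faithful := by
        intro a ha h0
        refine hw.faithful a ha ?_
        rw [w_star_mul hζ ha]
        simp [h0]
      semifinite := by
        intro n ξ ε hε
        obtain ⟨a, ha, h1⟩ := hw.semifinite 1 (one_mem M) n ξ ε hε
        exact ⟨a, hN ▸ ha, h1⟩
      Λ_add := fun a ha b hb => Λ_add a (hN ▸ ha) b (hN ▸ hb)
      Λ_smul := fun c a ha => Λ_smul c a (hN ▸ ha)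
      dense := hN ▸ Λ_dense
      Z_Λ := hZ
      norm_Z := by
        intro g
        have h1 := hsum (T g)
        rw [hTn] at h1
        exact h1
      Z_act := by
        intro m hm i g
        refine DenseRange.induction_on hd g (isClosed_eq (by fun_prop) (by fun_prop)) fun a => ?_
        change Z i (m (Λ a.1)) = m (Z i (Λ a.1))
        rw [← Λ_mul m hm a.1 (hN ▸ a.2), hZ a.1 a.2, hZ _ ?_]
        · rfl
        · refine ⟨mul_mem hm a.2.1, ?_⟩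
          refine Summable.of_nonneg_of_le (fun i => by positivity) (fun i => ?_)
            (a.2.2.mul_left (‖m‖ ^ 2))
          have h := m.le_opNorm (a.1 (ζ i))
          calc ‖(m * a.1) (ζ i)‖ ^ 2 = ‖m (a.1 (ζ i))‖ ^ 2 := rfl
            _ ≤ (‖m‖ * ‖a.1 (ζ i)‖) ^ 2 := by gcongr
            _ = ‖m‖ ^ 2 * ‖a.1 (ζ i)‖ ^ 2 := by ring }
  exact ⟨wt, rfl, fun m _ => rfl, hζ⟩

end Pool.Agent.VNQ
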