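import Pool.Agent.VNQ.Trn

/-!
# Slices of transported operators

`Rep.vn` is the von Neumann algebra `π(M)` on `K` (`exists_vn`).

* `comm2_sliceR`, `comm2_sliceL`: if `X` commutes with `m ⊗ 1` and `1 ⊗ m` for `m ∈ M'` then its
  slices are in `M`: `R_{η'}† X R_η m = R_{η'}† X (m ⊗ 1) R_η = R_{η'}† (m ⊗ 1) X R_η
  = m R_{η'}† X R_η` (`rT_adj_mapT_left`, `mapT_rT`; `mem_of_comm`).
* `mem_vn_comm`, `int_comp`: `c ∈ π(M)'` iff `c` commutes with all `π(m)`; then `T c` is an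
  intertwiner for every intertwiner `T`.
* `inv_add`, ..., `norm_inv_le`: `inv` is a `*`-isomorphism `π(M) → M`, isometric.
* `tr_comm2`: `X_K` commutes with `c ⊗ 1` and `1 ⊗ c` for `c ∈ π(M)'`: by `ext_ZZ`:
  `(Z_i ⊗ Z_j) X_K (c ⊗ 1) θ = X (Z_i c ⊗ Z_j) θ = (Z_i c ⊗ Z_j) X_K θ = (Z_i ⊗ Z_j) (c ⊗ 1) X_K θ`
  (`tr_spec` for `Z_i, Z_j` and for the intertwiners `Z_i c`, `Z_j`; `mapT_comp_apply`).
* `sliceR_tr`: `R_{T†κ}† X_K R_η = π(R_κ† X R_{Tη})` for an intertwiner `T`: by `ext_Z` it is enough to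
  compare `Z_i` of both sides applied to `g`. `R_{T†κ} = (1 ⊗ T†) R_κ` (`mapT_rT`), so
  `Z_i R_{T†κ}† X_K (g ⊗ η) = R_κ† (Z_i ⊗ T) X_K (g ⊗ η) = R_κ† X (Z_i g ⊗ T η)
  = (R_κ† X R_{Tη}) Z_i g = Z_i π(R_κ† X R_{Tη}) g`
  [or test against `κ'`: `⟪κ', Z_i R_{T†κ}† θ⟫ = ⟪Z_i† κ' ⊗ T† κ, θ⟫ = ⟪κ' ⊗ κ, (Z_i ⊗ T) θ⟫`,
  `inner_rT_adjoint`, `adjoint_mapT`]. `sliceL_tr`: the same for the left slices.
* `hasSum_sliceR_tr`: `∑_j sliceR (Z_j η') (Z_j η) X = inv (sliceR η' η X_K)` in operator norm.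
  The sum converges absolutely: `‖sliceR (Z_j η') (Z_j η) X‖ ≤ ‖Z_j η'‖ ‖X‖ ‖Z_j η‖`
  (`norm_sliceR_le`), `∑ ‖Z_j η'‖ ‖Z_j η‖ < ∞`. Its sum `s` is in `M` (each term is, and `M` is norm
  closed; or use `mem_of_comm`). We show `π(s) = sliceR η' η X_K`, then apply `inv_π`. For `g ∈ K`,
  `κ ∈ H` and `i`: `⟪κ, Z_i sliceR η' η X_K g⟫ = ⟪Z_i† κ ⊗ η', X_K (g ⊗ η)⟫
  = ∑_j ⟪(1 ⊗ Z_j)(Z_i† κ ⊗ η'), (1 ⊗ Z_j) X_K (g ⊗ η)⟫` (`hasSum_inner_mapT_right`)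
  `= ∑_j ⟪κ ⊗ Z_j η', (Z_i ⊗ Z_j) X_K (g ⊗ η)⟫ = ∑_j ⟪κ ⊗ Z_j η', X (Z_i g ⊗ Z_j η)⟫
  = ∑_j ⟪κ, sliceR (Z_j η') (Z_j η) X Z_i g⟫ = ⟪κ, s Z_i g⟫ = ⟪κ, Z_i π(s) g⟫`; conclude by `ext_Z`.
  `hasSum_sliceL_tr`: the same for the left slices.
-/

set_option autoImplicit false

noncomputable section

open scoped TensorProduct InnerProductSpace InnerProduct ENNReal

namespace Pool.Agent.VNQ

universe u

variable {H K : Type u} [NormedAddCommGroup H] [InnerProductSpace ℂ H] [CompleteSpace H]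
  [NormedAddCommGroup K] [InnerProductSpace ℂ K] [CompleteSpace K]

private theorem sliceR_app (η' η : H) (X : HTen H H →L[ℂ] HTen H H) (ξ : H) :
    sliceR η' η X ξ = ((rT η')†) (X (tmul ξ η)) := rfl

private theorem sliceL_app (ξ' ξ : H) (X : HTen H H →L[ℂ] HTen H H) (η : H) :
    sliceL ξ' ξ X η = ((lT ξ')†) (X (tmul ξ η)) := rfl

theorem comm2_sliceR {M : VonNeumannAlgebra H} {X : HTen H H →L[ℂ] HTen H H} (hX : Comm2 M X)
    (η' η : H) : sliceR η' η X ∈ M := by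
  refine mem_of_comm fun m hm ξ => ?_
  have h1 := congrArg (fun f : HTen H H →L[ℂ] HTen H H => f (tmul ξ η)) (hX m hm).1
  simp only [ContinuousLinearMap.comp_apply, mapT_tmul, ContinuousLinearMap.id_apply] at h1
  rw [sliceR_app, sliceR_app, h1, QG.rT_adj_mapT_left]

theorem comm2_sliceL {M : VonNeumannAlgebra H} {X : HTen H H →L[ℂ] HTen H H} (hX : Comm2 M X)
    (ξ' ξ : H) : sliceL ξ' ξ X ∈ M := by
  refine mem_of_comm fun m hm η => ?_
  have h1 := congrArg (fun f : HTen H H →L[ℂ] HTen H H => f (tmul ξ η)) (hX m hm).2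
  simp only [ContinuousLinearMap.comp_apply, mapT_tmul, ContinuousLinearMap.id_apply] at h1
  rw [sliceL_app, sliceL_app, h1, QG.lT_adj_mapT_right]

namespace Rep

variable {M : VonNeumannAlgebra H} (R : Rep M K)

/-- The von Neumann algebra `π(M)`. -/
def vn : VonNeumannAlgebra K := Classical.choose R.exists_vn

theorem mem_vn {y : K →L[ℂ] K} : y ∈ R.vn ↔ ∃ m ∈ M, y = R.π m :=
  Classical.choose_spec R.exists_vn y

theorem π_mem {m : H →L[ℂ] H} (hm : m ∈ M) : R.π m ∈ R.vn := R.mem_vn.2 ⟨m, hm, rfl⟩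

theorem inv_mem {y : K →L[ℂ] K} (hy : y ∈ R.vn) : R.inv y ∈ M := by
  obtain ⟨m, hm, rfl⟩ := R.mem_vn.1 hy
  rwa [R.inv_π hm]

theorem π_inv {y : K →L[ℂ] K} (hy : y ∈ R.vn) : R.π (R.inv y) = y := by
  obtain ⟨m, hm, rfl⟩ := R.mem_vn.1 hy
  rw [R.inv_π hm]

theorem inv_unique {y : K →L[ℂ] K} (hy : y ∈ R.vn) {m : H →L[ℂ] H} (hm : m ∈ M)
    (h : R.π m = y) : R.inv y = m := by
  rw [← h, R.inv_π hm]

theorem mem_vn_comm {c : K →L[ℂ] K} :
    c ∈ R.vn.commutant ↔ ∀ m ∈ M, ∀ g, R.π m (c g) = c (R.π m g) := by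
  rw [mem_comm_iff]
  constructor
  · intro h m hm g
    exact h _ (R.π_mem hm) g
  · intro h x hx g
    obtain ⟨m, hm, rfl⟩ := R.mem_vn.1 hx
    exact h m hm g

theorem int_comp {T : K →L[ℂ] H} (hT : R.Int T) {c : K →L[ℂ] K} (hc : c ∈ R.vn.commutant) :
    R.Int (T ∘L c) := by
  intro m hm g
  show T (c (R.π m g)) = m (T (c g))
  rw [← (R.mem_vn_comm.1 hc) m hm g, hT m hm]

theorem inv_add {y y' : K →L[ℂ] K} (hy : y ∈ R.vn) (hy' : y' ∈ R.vn) :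
    R.inv (y + y') = R.inv y + R.inv y' := by
  obtain ⟨m, hm, rfl⟩ := R.mem_vn.1 hy
  obtain ⟨m', hm', rfl⟩ := R.mem_vn.1 hy'
  rw [← R.π_add hm hm', R.inv_π (VNQ.add_mem' hm hm'), R.inv_π hm, R.inv_π hm']

theorem inv_sub {y y' : K →L[ℂ] K} (hy : y ∈ R.vn) (hy' : y' ∈ R.vn) :
    R.inv (y - y') = R.inv y - R.inv y' := by
  obtain ⟨m, hm, rfl⟩ := R.mem_vn.1 hy
  obtain ⟨m', hm', rfl⟩ := R.mem_vn.1 hy'
  rw [← R.π_sub hm hm', R.inv_π (sub_mem' hm hm'), R.inv_π hm, R.inv_π hm']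

theorem inv_smul (c : ℂ) {y : K →L[ℂ] K} (hy : y ∈ R.vn) : R.inv (c • y) = c • R.inv y := by
  obtain ⟨m, hm, rfl⟩ := R.mem_vn.1 hy
  rw [← R.π_smul c hm, R.inv_π (smul_mem' c hm), R.inv_π hm]

theorem inv_comp {y y' : K →L[ℂ] K} (hy : y ∈ R.vn) (hy' : y' ∈ R.vn) :
    R.inv (y ∘L y') = R.inv y ∘L R.inv y' := by
  obtain ⟨m, hm, rfl⟩ := R.mem_vn.1 hy
  obtain ⟨m', hm', rfl⟩ := R.mem_vn.1 hy'
  rw [← R.π_comp hm hm', R.inv_π (comp_mem hm hm'), R.inv_π hm, R.inv_π hm']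

theorem inv_adj {y : K →L[ℂ] K} (hy : y ∈ R.vn) : R.inv (y†) = (R.inv y)† := by
  obtain ⟨m, hm, rfl⟩ := R.mem_vn.1 hy
  rw [← R.π_adj hm, R.inv_π (adj_mem hm), R.inv_π hm]

theorem inv_id : R.inv (ContinuousLinearMap.id ℂ K) = ContinuousLinearMap.id ℂ H := by
  have h := R.inv_π (id_mem (M := M))
  rwa [R.π_id] at h

theorem norm_inv_le {y : K →L[ℂ] K} (hy : y ∈ R.vn) : ‖R.inv y‖ ≤ ‖y‖ := by
  obtain ⟨m, hm, rfl⟩ := R.mem_vn.1 hy
  rw [R.inv_π hm]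
  exact ContinuousLinearMap.opNorm_le_bound _ (norm_nonneg _) (R.norm_le_norm_π hm)

theorem inv_nonneg {y : K →L[ℂ] K} (hy : y ∈ R.vn) : 0 ≤ R.inv y ↔ 0 ≤ y := by
  obtain ⟨m, hm, rfl⟩ := R.mem_vn.1 hy
  rw [R.inv_π hm]
  exact (R.π_nonneg hm).symm

theorem tr_comm2 {X : HTen H H →L[ℂ] HTen H H} (hX : Comm2 M X) : Comm2 R.vn (R.tr X) := by
  intro c hc
  constructor
  · ext θ
    refine R.ext_ZZ fun i j => ?_
    show mapT (R.Z i) (R.Z j) (R.tr X (mapT c (ContinuousLinearMap.id ℂ K) θ)) =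
      mapT (R.Z i) (R.Z j) (mapT c (ContinuousLinearMap.id ℂ K) (R.tr X θ))
    rw [R.tr_spec hX (R.int_Z i) (R.int_Z j), mapT_comp_apply, mapT_comp_apply,
      ContinuousLinearMap.comp_id, R.tr_spec hX (R.int_comp (R.int_Z i) hc) (R.int_Z j)]
  · ext θ
    refine R.ext_ZZ fun i j => ?_
    show mapT (R.Z i) (R.Z j) (R.tr X (mapT (ContinuousLinearMap.id ℂ K) c θ)) =
      mapT (R.Z i) (R.Z j) (mapT (ContinuousLinearMap.id ℂ K) c (R.tr X θ))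
    rw [R.tr_spec hX (R.int_Z i) (R.int_Z j), mapT_comp_apply, mapT_comp_apply,
      ContinuousLinearMap.comp_id, R.tr_spec hX (R.int_Z i) (R.int_comp (R.int_Z j) hc)]

private theorem trs_inner (A B : K →L[ℂ] H) (κ κ' : H) (θ : HTen K K) :
    ⟪tmul ((A†) κ') ((B†) κ), θ⟫_ℂ = ⟪tmul κ' κ, mapT A B θ⟫_ℂ := by
  rw [← mapT_tmul, ← adjoint_mapT, ContinuousLinearMap.adjoint_inner_left]

theorem sliceR_tr {X : HTen H H →L[ℂ] HTen H H} (hX : Comm2 M X) {T : K →L[ℂ] H}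
    (hT : R.Int T) (κ : H) (η : K) :
    sliceR ((T†) κ) η (R.tr X) = R.π (sliceR κ (T η) X) := by
  ext g
  refine R.ext_Z fun i => ?_
  rw [R.Z_π _ (comm2_sliceR hX κ (T η))]
  refine ext_inner_left ℂ fun κ' => ?_
  rw [inner_sliceR, ← ContinuousLinearMap.adjoint_inner_left, inner_sliceR, trs_inner,
    R.tr_spec hX (R.int_Z i) hT, mapT_tmul]

theorem sliceL_tr {X : HTen H H →L[ℂ] HTen H H} (hX : Comm2 M X) {T : K →L[ℂ] H}
    (hT : R.Int T) (κ : H) (η : K) :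
    sliceL ((T†) κ) η (R.tr X) = R.π (sliceL κ (T η) X) := by
  ext g
  refine R.ext_Z fun i => ?_
  rw [R.Z_π _ (comm2_sliceL hX κ (T η))]
  refine ext_inner_left ℂ fun κ' => ?_
  rw [inner_sliceL, ← ContinuousLinearMap.adjoint_inner_left, inner_sliceL, trs_inner,
    R.tr_spec hX hT (R.int_Z i), mapT_tmul]

private theorem trs_summable (η' η : K) :
    Summable fun j => ‖R.Z j η'‖ * ‖R.Z j η‖ := by
  have h1 := ((R.norm_Z η').add (R.norm_Z η)).summable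
  refine Summable.of_nonneg_of_le (fun j => by positivity) (fun j => ?_) h1
  nlinarith [sq_nonneg (‖R.Z j η'‖ - ‖R.Z j η‖), sq_nonneg ‖R.Z j η'‖, sq_nonneg ‖R.Z j η‖]

/-- the sum is determined by the values on the ranges of the intertwiners -/
private theorem trs_eq {s t : H →L[ℂ] H} (h : ∀ T, R.Int T → ∀ g κ, ⟪κ, s (T g)⟫_ℂ =
    ⟪κ, t (T g)⟫_ℂ) : s = t := by
  refine ContinuousLinearMap.ext_on R.dense ?_
  rintro _ ⟨T, hT, g, rfl⟩
  exact ext_inner_left ℂ fun κ => h T hT g κ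

private theorem trs_eval {ν : Type u} {f : ν → H →L[ℂ] H} {s : H →L[ℂ] H} (h : HasSum f s)
    (κ z : H) : HasSum (fun j => ⟪κ, f j z⟫_ℂ) ⟪κ, s z⟫_ℂ := by
  have h1 := ((innerSL ℂ κ) ∘L (ContinuousLinearMap.apply ℂ H z)).hasSum h
  exact h1

theorem hasSum_sliceR_tr {X : HTen H H →L[ℂ] HTen H H} (hX : Comm2 M X) (η' η : K) :
    HasSum (fun j => sliceR (R.Z j η') (R.Z j η) X) (R.inv (sliceR η' η (R.tr X))) := by
  have hy : sliceR η' η (R.tr X) ∈ R.vn := comm2_sliceR (R.tr_comm2 hX) η' η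
  have hs : Summable fun j => sliceR (R.Z j η') (R.Z j η) X := by
    refine Summable.of_norm_bounded ((R.trs_summable η' η).mul_left ‖X‖) fun j => ?_
    refine (norm_sliceR_le _ _ _).trans (le_of_eq ?_)
    ring
  obtain ⟨s, hs⟩ := hs
  have hst : s = R.inv (sliceR η' η (R.tr X)) := by
    refine R.trs_eq fun T hT g κ => ?_
    rw [← hT _ (R.inv_mem hy), R.π_inv hy, ← ContinuousLinearMap.adjoint_inner_left T,
      inner_sliceR]
    refine (trs_eval hs κ (T g)).unique ?_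
    have h1 := hasSum_inner_mapT_right R.Z R.norm_Z (tmul ((T†) κ) η') (R.tr X (tmul g η))
    have h2 : (fun j => ⟪κ, sliceR (R.Z j η') (R.Z j η) X (T g)⟫_ℂ) = fun j =>
        ⟪mapT (ContinuousLinearMap.id ℂ K) (R.Z j) (tmul ((T†) κ) η'),
          mapT (ContinuousLinearMap.id ℂ K) (R.Z j) (R.tr X (tmul g η))⟫_ℂ := by
      funext j
      have h3 : tmul ((T†) κ) (R.Z j η') =
          mapT (T†) (ContinuousLinearMap.id ℂ H) (tmul κ (R.Z j η')) := by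
        rw [mapT_tmul, ContinuousLinearMap.id_apply]
      rw [inner_sliceR, mapT_tmul, ContinuousLinearMap.id_apply, h3,
        ← ContinuousLinearMap.adjoint_inner_right, adjoint_mapT,
        ContinuousLinearMap.adjoint_adjoint, ContinuousLinearMap.adjoint_id, mapT_comp_apply,
        ContinuousLinearMap.comp_id, ContinuousLinearMap.id_comp,
        R.tr_spec hX hT (R.int_Z j), mapT_tmul]
    rw [h2]
    exact h1
  rw [← hst]
  exact hs

theorem hasSum_sliceL_tr {X : HTen H H →L[ℂ] HTen H H} (hX : Comm2 M X) (η' η : K) :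
    HasSum (fun j => sliceL (R.Z j η') (R.Z j η) X) (R.inv (sliceL η' η (R.tr X))) := by
  have hy : sliceL η' η (R.tr X) ∈ R.vn := comm2_sliceL (R.tr_comm2 hX) η' η
  have hs : Summable fun j => sliceL (R.Z j η') (R.Z j η) X := by
    refine Summable.of_norm_bounded ((R.trs_summable η' η).mul_left ‖X‖) fun j => ?_
    refine (norm_sliceL_le _ _ _).trans (le_of_eq ?_)
    ring
  obtain ⟨s, hs⟩ := hs
  have hst : s = R.inv (sliceL η' η (R.tr X)) := by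
    refine R.trs_eq fun T hT g κ => ?_
    rw [← hT _ (R.inv_mem hy), R.π_inv hy, ← ContinuousLinearMap.adjoint_inner_left T,
      inner_sliceL]
    refine (trs_eval hs κ (T g)).unique ?_
    have h1 := hasSum_inner_mapT_left R.Z R.norm_Z (tmul η' ((T†) κ)) (R.tr X (tmul η g))
    have h2 : (fun j => ⟪κ, sliceL (R.Z j η') (R.Z j η) X (T g)⟫_ℂ) = fun j =>
        ⟪mapT (R.Z j) (ContinuousLinearMap.id ℂ K) (tmul η' ((T†) κ)),
          mapT (R.Z j) (ContinuousLinearMap.id ℂ K) (R.tr X (tmul η g))⟫_ℂ := by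
      funext j
      have h3 : tmul (R.Z j η') ((T†) κ) =
          mapT (ContinuousLinearMap.id ℂ H) (T†) (tmul (R.Z j η') κ) := by
        rw [mapT_tmul, ContinuousLinearMap.id_apply]
      rw [inner_sliceL, mapT_tmul, ContinuousLinearMap.id_apply, h3,
        ← ContinuousLinearMap.adjoint_inner_right, adjoint_mapT,
        ContinuousLinearMap.adjoint_adjoint, ContinuousLinearMap.adjoint_id, mapT_comp_apply,
        ContinuousLinearMap.comp_id, ContinuousLinearMap.id_comp,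
        R.tr_spec hX (R.int_Z j) hT, mapT_tmul]
    rw [h2]
    exact h1
  rw [← hst]
  exact hs

end Rep

end Pool.Agent.VNQ
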