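import Pool.Agent.VNQ.SpecG
import Pool.Agent.VNQ.TrS
import Pool.Agent.VNQ.RedPsi
import Pool.Agent.VNQ.Ext

/-!
# The GNS representation is normal and faithful; elementary properties of `Δ`

`VNQGroup.exists_rep`: there is `R : Rep Q.M K` with `R.π = Q.π`; the operators `Z_i` satisfy
`Z_i (Λ a) = a ζ_i`, `ζ_i` vectors with `ψ x = ∑' i, ofReal (re ⟪ζ_i, x ζ_i⟫)` for `0 ≤ x ∈ M`.

Proof (as for `exists_wt_of` in the file `RedPsi`). `ι`, `ζ` from `Q.ψ_nsf.normal`;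
`NL M ψ = NS M ζ` by `mem_NS_iff`. By `exists_clm` (with the subspace `NL M ψ` as `E`) there is
`Z_i : K →L[ℂ] H` with `Z_i (Λ a) = a ζ_i`, `‖Z_i g‖ ≤ ‖g‖` (`‖a ζ_i‖² ≤ ψ(a* a) = ‖Λ a‖²`).
`norm_Z`: for `g = Λ a` it is `∑ ‖a ζ_i‖² = ‖Λ a‖²`; for general `g`: for every finite set `s`,
`∑_{i∈s} ‖Z_i g‖² ≤ ‖g‖²` (closed condition in `g`), so `T : g ↦ (Z_i g)_i` is a bounded map into
`lp (fun _ : ι => H) 2` with `‖T (Λ a)‖ = ‖Λ a‖`, hence isometric by density.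
[See the proof of `exists_wt_of`; private lemmas there can be copied.]
`Z_π`: `Z_i (π(m) Λ(a)) = Z_i Λ(m a) = m a ζ_i = m Z_i Λ(a)` (`π_Λ`, `m a ∈ N_ψ`); density.
`faithful`: if `π(m) = 0` then for `a ∈ N_ψ`: `Λ(m a) = π(m) Λ(a) = 0`, so `ψ((m a)* (m a)) = 0`
(`Λ_norm`) and `m a = 0` (`ψ_nsf.faithful`); by `ψ_nsf.semifinite` (for `x = 1` and one vector `ξ`)
`a ξ → ξ`, so `m ξ = 0`.

`Δ_add`, `Δ_sub`, `Δ_sum`, `Δ_adj`, `Δ_id`: the structure fields with `∘L`, `†`, `id` instead of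
`*`, `star`, `1` (`rfl`-variants). `norm_Δ_apply_le`: `‖Δ(x) θ‖ ≤ ‖x‖ ‖θ‖` for `x ∈ M`:
`‖Δ(x) θ‖² = ⟪θ, Δ(x* x) θ⟫ = ∑ ⟪α_n, x* x α_n⟫ = ∑ ‖x α_n‖² ≤ ‖x‖² ∑ ‖α_n‖²`, and
`∑ ‖α_n‖² = ⟪θ, Δ(1) θ⟫ = ‖θ‖²` (`map_normal`). `Δ_nonneg`: `0 ≤ x ∈ M → 0 ≤ Δ x`:
`⟪θ, Δ(x) θ⟫ = ∑ ⟪α_n, x α_n⟫ ≥ 0` and `Δ(x)` is self-adjoint.
`hasSum_Δ`: `∑_n ‖x α_n‖² = ‖Δ(x) θ‖²`. `lemN_const`: if `∑_k ‖A_k ξ‖² = C ‖ξ‖²` for all `ξ ∈ H` and
`A_k ∈ M` then `∑_k ‖Δ(A_k) θ‖² = C ‖θ‖²` (`∑_k ∑_n ‖A_k α_n‖² = ∑_n C ‖α_n‖²`; nonnegative terms;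
see `LemN.lean`).
-/

set_option autoImplicit false

noncomputable section

open scoped TensorProduct InnerProductSpace InnerProduct ENNReal

namespace Pool.Agent.VNQ

universe u

variable {H K : Type u} [NormedAddCommGroup H] [InnerProductSpace ℂ H] [CompleteSpace H]
  [NormedAddCommGroup K] [InnerProductSpace ℂ K] [CompleteSpace K]

private theorem repQ_re (a : H →L[ℂ] H) (ζ : H) :
    RCLike.re ⟪ζ, (star a * a) ζ⟫_ℂ = ‖a ζ‖ ^ 2 := by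
  have h1 : (star a * a) ζ = (a†) (a ζ) := rfl
  rw [h1, ContinuousLinearMap.adjoint_inner_right, inner_self_eq_norm_sq]

namespace VNQGroup

variable (Q : VNQGroup H K)

theorem exists_rep : ∃ (R : Rep Q.M K) (ζ : R.ι → H), R.π = Q.π ∧
    (∀ x ∈ Q.M, 0 ≤ x → Q.ψ x = ∑' i, ENNReal.ofReal (RCLike.re ⟪ζ i, x (ζ i)⟫_ℂ)) ∧
    ∀ a ∈ NL Q.M Q.ψ, ∀ i, R.Z i (Q.Λ a) = a (ζ i) := by
  obtain ⟨ι, ζ, hζ⟩ := Q.ψ_nsf.normal
  have hN : NL Q.M Q.ψ = NS Q.M ζ := by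
    ext a
    constructor
    · intro h
      exact (mem_NS_iff hζ h.1).1.2 h
    · intro h
      exact (mem_NS_iff hζ h.1).1.1 h
  have hhs : ∀ a ∈ NS Q.M ζ, HasSum (fun i => ‖a (ζ i)‖ ^ 2) (‖Q.Λ a‖ ^ 2) := by
    intro a ha
    have h1 := (mem_NS_iff hζ ha.1).2 ha
    rw [← Q.Λ_norm a (hN ▸ ha), ENNReal.ofReal_eq_ofReal_iff (tsum_nonneg fun i => by positivity)
      (by positivity)] at h1
    rw [← h1]
    exact ha.2.hasSum
  have hmul : ∀ m ∈ Q.M, ∀ a ∈ NS Q.M ζ, m * a ∈ NS Q.M ζ := by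
    intro m hm a ha
    refine ⟨mul_mem hm ha.1, ?_⟩
    refine Summable.of_nonneg_of_le (fun i => by positivity) (fun i => ?_)
      (ha.2.mul_left (‖m‖ ^ 2))
    have h := m.le_opNorm (a (ζ i))
    calc ‖(m * a) (ζ i)‖ ^ 2 = ‖m (a (ζ i))‖ ^ 2 := rfl
      _ ≤ (‖m‖ * ‖a (ζ i)‖) ^ 2 := by gcongr
      _ = ‖m‖ ^ 2 * ‖a (ζ i)‖ ^ 2 := by ring
  let E : Submodule ℂ (H →L[ℂ] H) :=
    { carrier := NS Q.M ζ
      add_mem' := by
        intro a b ha hb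
        refine ⟨add_mem ha.1 hb.1, ?_⟩
        refine Summable.of_nonneg_of_le (fun i => by positivity) (fun i => ?_)
          ((ha.2.mul_left 2).add (hb.2.mul_left 2))
        have h1 : ‖(a + b) (ζ i)‖ ≤ ‖a (ζ i)‖ + ‖b (ζ i)‖ := norm_add_le _ _
        have h2 := norm_nonneg ((a + b) (ζ i))
        nlinarith [sq_nonneg (‖a (ζ i)‖ - ‖b (ζ i)‖)]
      zero_mem' := by
        refine ⟨zero_mem Q.M, ?_⟩
        simp
      smul_mem' := by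
        intro c a ha
        refine ⟨smul_mem' c ha.1, ?_⟩
        have h1 : (fun i => ‖(c • a) (ζ i)‖ ^ 2) = fun i => ‖c‖ ^ 2 * ‖a (ζ i)‖ ^ 2 := by
          funext i
          rw [smul_apply, norm_smul, mul_pow]
        rw [h1]
        exact ha.2.mul_left _ }
  let ΛE : E →ₗ[ℂ] K :=
    { toFun := fun a => Q.Λ a.1
      map_add' := fun a b => Q.Λ_add _ (hN ▸ a.2) _ (hN ▸ b.2)
      map_smul' := fun c a => Q.Λ_smul c _ (hN ▸ a.2) }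
  have hd : DenseRange ΛE := by
    have hD := Q.Λ_dense
    rw [hN] at hD
    refine hD.mono ?_
    rintro _ ⟨a, ha, rfl⟩
    exact ⟨⟨a, ha⟩, rfl⟩
  have hmem : ∀ a : E, Memℓp (fun i => a.1 (ζ i)) 2 := by
    intro a
    refine memℓp_gen ?_
    have := a.2.2
    simpa using this
  let f : E →ₗ[ℂ] lp (fun _ : ι => H) 2 :=
    { toFun := fun a => ⟨fun i => a.1 (ζ i), hmem a⟩
      map_add' := fun a b => by
        ext i
        rfl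
      map_smul' := fun c a => by
        ext i
        rfl }
  have hsum : ∀ g : lp (fun _ : ι => H) 2, HasSum (fun i => ‖g i‖ ^ 2) (‖g‖ ^ 2) := by
    intro g
    have := lp.hasSum_norm (p := 2) (by norm_num) g
    simpa using this
  have hfn : ∀ a : E, ‖f a‖ = ‖ΛE a‖ := by
    intro a
    have h1 := (hsum (f a)).unique (hhs a.1 a.2)
    exact (sq_eq_sq₀ (norm_nonneg _) (norm_nonneg _)).1 h1
  obtain ⟨T, hT, -⟩ := exists_clm ΛE hd f 1 fun x => by rw [hfn, one_mul]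
  have hTn : ∀ g, ‖T g‖ = ‖g‖ := by
    intro g
    refine DenseRange.induction_on hd g (isClosed_eq (by fun_prop) (by fun_prop)) fun a => ?_
    rw [hT, hfn]
  let Z : ι → K →L[ℂ] H := fun i => (lp.evalCLM ℂ (fun _ : ι => H) 2 i) ∘L T
  have hZ : ∀ a ∈ NS Q.M ζ, ∀ i, Z i (Q.Λ a) = a (ζ i) := by
    intro a ha i
    have h1 : T (Q.Λ a) = f ⟨a, ha⟩ := hT ⟨a, ha⟩
    change (T (Q.Λ a)) i = _
    rw [h1]
    rfl
  let R : Rep Q.M K :=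
    { π := Q.π
      ι := ι
      Z := Z
      Z_π := by
        intro m hm i g
        refine DenseRange.induction_on hd g (isClosed_eq (by fun_prop) (by fun_prop)) fun a => ?_
        change Z i (Q.π m (Q.Λ a.1)) = m (Z i (Q.Λ a.1))
        rw [Q.π_Λ m hm a.1 (hN ▸ a.2), hZ a.1 a.2, hZ _ (hmul m hm _ a.2)]
        rfl
      norm_Z := by
        intro g
        have h1 := hsum (T g)
        rw [hTn] at h1
        exact h1
      faithful := by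
        intro m hm h0
        have h1 : ∀ a ∈ NL Q.M Q.ψ, m * a = 0 := by
          intro a ha
          have h2 : m * a ∈ NL Q.M Q.ψ := by
            rw [hN] at ha ⊢
            exact hmul m hm a ha
          have h3 : Q.Λ (m * a) = 0 := by
            rw [← Q.π_Λ m hm a ha, h0]
            rfl
          have h4 := Q.Λ_norm _ h2
          rw [h3] at h4
          refine Q.ψ_nsf.faithful _ h2.1 ?_
          rw [← h4]
          simp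
        ext ξ
        by_contra hne
        have hpos : 0 < ‖m ξ‖ := norm_pos_iff.2 hne
        have hm1 : 0 < ‖m‖ + 1 := by positivity
        obtain ⟨a, ha, h5⟩ := Q.ψ_nsf.semifinite 1 (one_mem Q.M) 1 (fun _ => ξ)
          (‖m ξ‖ / (‖m‖ + 1)) (div_pos hpos hm1)
        have h6 : ‖a ξ - ξ‖ < ‖m ξ‖ / (‖m‖ + 1) := h5 0
        have h7 : m (a ξ - ξ) = -m ξ := by
          have h8 : m (a ξ) = 0 := by
            have := h1 a ha
            exact congrArg (fun T : H →L[ℂ] H => T ξ) this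
          rw [map_sub, h8, zero_sub]
        have h9 := m.le_opNorm (a ξ - ξ)
        rw [h7, norm_neg] at h9
        rw [lt_div_iff₀ hm1] at h6
        have h10 := norm_nonneg (a ξ - ξ)
        nlinarith }
  exact ⟨R, ζ, rfl, hζ, fun a ha i => hZ a (hN ▸ ha) i⟩

theorem Δ_comm2 {x : H →L[ℂ] H} (hx : x ∈ Q.M) : Comm2 Q.M (Q.Δ x) :=
  comm2_of_tensorVN (Q.map_mem x hx)

theorem Δ_sub {x y : H →L[ℂ] H} (hx : x ∈ Q.M) (hy : y ∈ Q.M) :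
    Q.Δ (x - y) = Q.Δ x - Q.Δ y := by
  have h := Q.map_add x hx _ (smul_mem' (-1 : ℂ) hy)
  rw [Q.map_smul _ _ hy] at h
  rwa [neg_one_smul, neg_one_smul, ← sub_eq_add_neg, ← sub_eq_add_neg] at h

theorem Δ_sum {κ : Type*} (s : Finset κ) (f : κ → H →L[ℂ] H) (h : ∀ k ∈ s, f k ∈ Q.M) :
    Q.Δ (∑ k ∈ s, f k) = ∑ k ∈ s, Q.Δ (f k) := by
  classical
  induction s using Finset.induction_on with
  | empty =>
    have h0 := Q.map_smul 0 0 (ZeroMemClass.zero_mem Q.M)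
    rw [zero_smul, zero_smul] at h0
    simpa using h0
  | insert a s ha ih =>
    rw [Finset.sum_insert ha, Finset.sum_insert ha,
      Q.map_add _ (h a (Finset.mem_insert_self a s)) _
      (sum_mem' s f fun k hk => h k (Finset.mem_insert_of_mem hk)),
      ih fun k hk => h k (Finset.mem_insert_of_mem hk)]

theorem Δ_comp {x y : H →L[ℂ] H} (hx : x ∈ Q.M) (hy : y ∈ Q.M) :
    Q.Δ (x ∘L y) = Q.Δ x ∘L Q.Δ y := Q.map_mul x hx y hy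

theorem Δ_adj {x : H →L[ℂ] H} (hx : x ∈ Q.M) : Q.Δ (x†) = (Q.Δ x)† := Q.map_star x hx

theorem Δ_id : Q.Δ (ContinuousLinearMap.id ℂ H) = ContinuousLinearMap.id ℂ (HTen H H) :=
  Q.map_one

theorem exists_normal (θ : HTen H H) : ∃ α : ℕ → H,
    HasSum (fun n => ‖α n‖ ^ 2) (‖θ‖ ^ 2) ∧
    (∀ x ∈ Q.M, HasSum (fun n => ‖x (α n)‖ ^ 2) (‖Q.Δ x θ‖ ^ 2)) ∧
    ∀ x ∈ Q.M, HasSum (fun n => ⟪α n, x (α n)⟫_ℂ) ⟪θ, Q.Δ x θ⟫_ℂ := by
  obtain ⟨α, -, h⟩ := Q.map_normal θ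
  have h2 : ∀ x ∈ Q.M, HasSum (fun n => ‖x (α n)‖ ^ 2) (‖Q.Δ x θ‖ ^ 2) := by
    intro x hx
    have h3 := Complex.hasSum_re (h (star x * x) (mul_mem (star_mem hx) hx))
    have h4 : (⟪θ, Q.Δ (star x * x) θ⟫_ℂ).re = ‖Q.Δ x θ‖ ^ 2 := by
      rw [Q.map_mul _ (star_mem hx) _ hx, Q.map_star x hx]
      have h5 : (star (Q.Δ x) * Q.Δ x) θ = ((Q.Δ x)†) (Q.Δ x θ) := rfl
      rw [h5, ContinuousLinearMap.adjoint_inner_right]
      exact inner_self_eq_norm_sq (𝕜 := ℂ) (Q.Δ x θ)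
    have h6 : (fun n => (⟪α n, (star x * x) (α n)⟫_ℂ).re) = fun n => ‖x (α n)‖ ^ 2 :=
      funext fun n => repQ_re x (α n)
    rw [h4, h6] at h3
    exact h3
  refine ⟨α, ?_, h2, h⟩
  have h7 := h2 1 (one_mem Q.M)
  rw [Q.map_one] at h7
  exact h7

theorem norm_Δ_apply_le {x : H →L[ℂ] H} (hx : x ∈ Q.M) (θ : HTen H H) :
    ‖Q.Δ x θ‖ ≤ ‖x‖ * ‖θ‖ := by
  obtain ⟨α, h1, h2, -⟩ := Q.exists_normal θ
  have h3 : ‖Q.Δ x θ‖ ^ 2 ≤ ‖x‖ ^ 2 * ‖θ‖ ^ 2 := by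
    refine hasSum_le (fun n => ?_) (h2 x hx) (h1.mul_left (‖x‖ ^ 2))
    rw [← mul_pow]
    exact pow_le_pow_left₀ (norm_nonneg _) (x.le_opNorm (α n)) 2
  rw [← mul_pow] at h3
  exact (sq_le_sq₀ (norm_nonneg _) (by positivity)).1 h3

theorem norm_Δ_le {x : H →L[ℂ] H} (hx : x ∈ Q.M) : ‖Q.Δ x‖ ≤ ‖x‖ :=
  ContinuousLinearMap.opNorm_le_bound _ (norm_nonneg _) (Q.norm_Δ_apply_le hx)

theorem Δ_nonneg {x : H →L[ℂ] H} (hx : x ∈ Q.M) (h0 : 0 ≤ x) : 0 ≤ Q.Δ x := by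
  have hp : x.IsPositive := (ContinuousLinearMap.nonneg_iff_isPositive x).1 h0
  rw [ContinuousLinearMap.nonneg_iff_isPositive, ContinuousLinearMap.isPositive_def']
  constructor
  · have h1 : star x = x := hp.isSelfAdjoint
    have h2 := Q.map_star x hx
    rw [h1] at h2
    exact h2.symm
  · intro θ
    obtain ⟨α, -, -, h3⟩ := Q.exists_normal θ
    have h4 := Complex.hasSum_re (h3 x hx)
    have h5 : (Q.Δ x).reApplyInnerSelf θ = (⟪θ, Q.Δ x θ⟫_ℂ).re := by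
      rw [ContinuousLinearMap.reApplyInnerSelf_apply, inner_re_symm]
      rfl
    rw [h5, ← h4.tsum_eq]
    exact tsum_nonneg fun n => hp.re_inner_nonneg_right (α n)

theorem lemN_const {κ : Type*} (A : κ → H →L[ℂ] H) (hA : ∀ k, A k ∈ Q.M) (C : ℝ)
    (h : ∀ ξ, HasSum (fun k => ‖A k ξ‖ ^ 2) (C * ‖ξ‖ ^ 2)) (θ : HTen H H) :
    HasSum (fun k => ‖Q.Δ (A k) θ‖ ^ 2) (C * ‖θ‖ ^ 2) := by
  obtain ⟨α, h1, h2, -⟩ := Q.exists_normal θ
  have hC := h1.mul_left C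
  have h3 : ∀ n, HasSum (fun k => ‖A k (α n)‖ ^ 2) (C * ‖α n‖ ^ 2) := fun n => h (α n)
  have hs : Summable fun p : ℕ × κ => ‖A p.2 (α p.1)‖ ^ 2 := by
    rw [summable_prod_of_nonneg fun p => sq_nonneg _]
    refine ⟨fun n => (h3 n).summable, ?_⟩
    have h4 : (fun n => ∑' k, ‖A k (α n)‖ ^ 2) = fun n => C * ‖α n‖ ^ 2 :=
      funext fun n => (h3 n).tsum_eq
    show Summable fun n => ∑' k, ‖A k (α n)‖ ^ 2
    rw [h4]
    exact hC.summable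
  have h5 : HasSum (fun p : ℕ × κ => ‖A p.2 (α p.1)‖ ^ 2) (C * ‖θ‖ ^ 2) := by
    have h6 := hs.hasSum.prod_fiberwise h3
    rw [← h6.unique hC]
    exact hs.hasSum
  have h7 : HasSum (fun p : κ × ℕ => ‖A p.1 (α p.2)‖ ^ 2) (C * ‖θ‖ ^ 2) :=
    (Equiv.prodComm κ ℕ).hasSum_iff.2 h5
  exact h7.prod_fiberwise fun k => h2 (A k) (hA k)

end VNQGroup

end Pool.Agent.VNQ
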