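import Pool.Agent.VNQ.VecInt
import Pool.Agent.VNQ.RepQ

/-!
# From `DPair` on `H` to `DPair` on `K`

`condV`: let `Q₁` be the quantum group `π(M)` on `K` and suppose that every vector functional of the
GNS representation is dominated by a finite sum of vector functionals of `H`. Then
`Q.DPair x x₁` implies `Q₁.DPair (π x) (π x₁)`.

Proof. Let `ε > 0` and `ξ_k, η_k ∈ K` (`k < n`). By `hv` and `exists_sum` there are, for every `k`,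
finite families with `ξ_k = ∑_l S_{kl} κ_{kl}`, `η_k = ∑_j S'_{kj} κ'_{kj}`, `κ_{kl}, κ'_{kj} ∈ H`,
`S_{kl}†`, `S'_{kj}†` intertwiners. Let `C = 1 + ∑_{k,l,j} ‖S_{kl} ⊗ S'_{kj}‖` (norm of `mapT`). Apply
`Q.DPair x x₁` with `ε' = ε / C` to the finitely many pairs `(κ_{kl}, κ'_{kj})`, indexed by the finite
type of the triples `(k, l, j)` (a sigma type; re-index by `Fin N` with `Fintype.equivFin`): there
are `p_i, q_i ∈ M`. Take `π(p_i), π(q_i) ∈ Q₁.M`. Let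
`Y = x ⊗ 1 - ∑_i Δ(p_i) (1 ⊗ q_i†)` (`Comm2`: `comm2_mapT`, `Δ_comm2`, `comm2_comp`, `comm2_add`,
`comm2_smul`). By `tr_add`, `tr_smul`, `tr_comp`, `tr_mapT`, `π_adj`, `inv_π`:
`R.tr Y = π(x) ⊗ 1 - ∑_i Q₁.Δ(π(p_i)) (1 ⊗ π(q_i)†)`. By `tr_adj_comm` (with `T = S_{kl}†`,
`T' = S'_{kj}†`): `Y_K (S_{kl} ⊗ S'_{kj}) θ = (S_{kl} ⊗ S'_{kj}) Y θ`. So
`π(x) ξ_k ⊗ η_k - ∑_i Q₁.Δ(π(p_i)) (ξ_k ⊗ π(q_i)† η_k) = Y_K (ξ_k ⊗ η_k)
= ∑_{l,j} Y_K (S_{kl} κ_{kl} ⊗ S'_{kj} κ'_{kj}) = ∑_{l,j} (S_{kl} ⊗ S'_{kj}) Y (κ_{kl} ⊗ κ'_{kj})`,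
whose norm is `≤ ∑_{l,j} ‖S_{kl} ⊗ S'_{kj}‖ ε' < ε`. The second inequality is the same with
`x₁` and the roles of `p`, `q` exchanged.
-/

set_option autoImplicit false

noncomputable section

open scoped TensorProduct InnerProductSpace InnerProduct ENNReal

namespace Pool.Agent.VNQ

universe u

variable {H K : Type u} [NormedAddCommGroup H] [InnerProductSpace ℂ H] [CompleteSpace H]
  [NormedAddCommGroup K] [InnerProductSpace ℂ K] [CompleteSpace K]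

namespace VNQGroup

variable (Q : VNQGroup H K) (R : Rep Q.M K)

private theorem cv_comm2_zero {M : VonNeumannAlgebra H} :
    Comm2 M (0 : HTen H H →L[ℂ] HTen H H) := by
  intro m _
  constructor <;> rw [ContinuousLinearMap.zero_comp, ContinuousLinearMap.comp_zero]

private theorem cv_sum {M : VonNeumannAlgebra H} (R : Rep M K) {J : Type*} (s : Finset J)
    (X : J → HTen H H →L[ℂ] HTen H H) (hX : ∀ j, Comm2 M (X j)) :
    Comm2 M (∑ j ∈ s, X j) ∧ R.tr (∑ j ∈ s, X j) = ∑ j ∈ s, R.tr (X j) := by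
  classical
  induction s using Finset.induction_on with
  | empty =>
    refine ⟨cv_comm2_zero, ?_⟩
    have h := R.tr_smul 0 (cv_comm2_zero (M := M))
    rw [zero_smul, zero_smul] at h
    rw [Finset.sum_empty, Finset.sum_empty, h]
  | insert a s ha ih =>
    rw [Finset.sum_insert ha, Finset.sum_insert ha]
    exact ⟨comm2_add (hX a) ih.1, by rw [R.tr_add (hX a) ih.1, ih.2]⟩

/-- The operator `x ⊗ 1 - ∑ Δ(p_j) (1 ⊗ q_j†)`. -/
private def cvY {m : ℕ} (x : H →L[ℂ] H) (p q : Fin m → H →L[ℂ] H) :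
    HTen H H →L[ℂ] HTen H H :=
  mapT x (ContinuousLinearMap.id ℂ H) +
    (-1 : ℂ) • ∑ j, Q.Δ (p j) ∘L mapT (ContinuousLinearMap.id ℂ H) ((q j)†)

private theorem cvY_tmul {m : ℕ} (x : H →L[ℂ] H) (p q : Fin m → H →L[ℂ] H) (κ κ' : H) :
    cvY Q x p q (tmul κ κ') =
      tmul (x κ) κ' - ∑ j, Q.Δ (p j) (tmul κ ((star (q j)) κ')) := by
  unfold cvY
  rw [_root_.add_apply, _root_.smul_apply, neg_one_smul, ← sub_eq_add_neg, mapT_tmul,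
    ContinuousLinearMap.id_apply, sum_apply]
  congr 1
  refine Finset.sum_congr rfl fun j _ => ?_
  rw [ContinuousLinearMap.comp_apply, mapT_tmul, ContinuousLinearMap.id_apply]
  rfl

include R in
private theorem cvY_comm2 {m : ℕ} {x : H →L[ℂ] H} (hx : x ∈ Q.M) {p q : Fin m → H →L[ℂ] H}
    (hp : ∀ j, p j ∈ Q.M) (hq : ∀ j, q j ∈ Q.M) : Comm2 Q.M (cvY Q x p q) :=
  comm2_add (comm2_mapT hx id_mem) (comm2_smul (cv_sum R Finset.univ _ fun j =>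
    comm2_comp (Q.Δ_comm2 (hp j)) (comm2_mapT id_mem (adj_mem (hq j)))).1 _)

private theorem cvY_tr {m : ℕ} {x : H →L[ℂ] H} (hx : x ∈ Q.M) {p q : Fin m → H →L[ℂ] H}
    (hp : ∀ j, p j ∈ Q.M) (hq : ∀ j, q j ∈ Q.M) (ξ η : K) :
    R.tr (cvY Q x p q) (tmul ξ η) = tmul (R.π x ξ) η -
      ∑ j, R.tr (Q.Δ (p j)) (tmul ξ ((star (R.π (q j))) η)) := by
  have hc : ∀ j, Comm2 Q.M (Q.Δ (p j) ∘L mapT (ContinuousLinearMap.id ℂ H) ((q j)†)) :=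
    fun j => comm2_comp (Q.Δ_comm2 (hp j)) (comm2_mapT id_mem (adj_mem (hq j)))
  have h1 := cv_sum R Finset.univ _ hc
  unfold cvY
  rw [R.tr_add (comm2_mapT hx id_mem) (comm2_smul h1.1 _), R.tr_smul _ h1.1, h1.2,
    R.tr_mapT hx id_mem, R.π_id, _root_.add_apply, _root_.smul_apply, neg_one_smul,
    ← sub_eq_add_neg, mapT_tmul, ContinuousLinearMap.id_apply, sum_apply]
  congr 1
  refine Finset.sum_congr rfl fun j _ => ?_
  rw [R.tr_comp (Q.Δ_comm2 (hp j)) (comm2_mapT id_mem (adj_mem (hq j))),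
    ContinuousLinearMap.comp_apply, R.tr_mapT id_mem (adj_mem (hq j)), R.π_id, mapT_tmul,
    ContinuousLinearMap.id_apply, R.π_adj (hq j)]
  rfl

private theorem cv_bound {m N N' : ℕ} {x : H →L[ℂ] H} (hx : x ∈ Q.M)
    {p q : Fin m → H →L[ℂ] H} (hp : ∀ j, p j ∈ Q.M) (hq : ∀ j, q j ∈ Q.M)
    {S : Fin N → H →L[ℂ] K} {S' : Fin N' → H →L[ℂ] K} (hS : ∀ l, R.Int ((S l)†))
    (hS' : ∀ l, R.Int ((S' l)†)) {κ : Fin N → H} {κ' : Fin N' → H} {ξ η : K}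
    (hξ : ∑ l, S l (κ l) = ξ) (hη : ∑ l, S' l (κ' l) = η) (δ : ℝ)
    (hδ : ∀ l l', ‖tmul (x (κ l)) (κ' l') -
      ∑ j, Q.Δ (p j) (tmul (κ l) ((star (q j)) (κ' l')))‖ ≤ δ) :
    ‖tmul (R.π x ξ) η - ∑ j, R.tr (Q.Δ (p j)) (tmul ξ ((star (R.π (q j))) η))‖ ≤
      (∑ t : Fin N × Fin N', ‖mapT (S t.1) (S' t.2)‖) * δ := by
  rw [← cvY_tr Q R hx hp hq]
  have hY := cvY_comm2 Q R hx hp hq
  have h1 : tmul ξ η = ∑ t : Fin N × Fin N', mapT (S t.1) (S' t.2) (tmul (κ t.1) (κ' t.2)) := by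
    rw [Fintype.sum_prod_type, ← hξ, ← hη, sum_tmul]
    refine Finset.sum_congr rfl fun l _ => ?_
    rw [tmul_sum]
    refine Finset.sum_congr rfl fun l' _ => ?_
    rw [mapT_tmul]
  rw [h1, map_sum, Finset.sum_mul]
  refine (norm_sum_le _ _).trans (Finset.sum_le_sum fun t _ => ?_)
  have h2 := R.tr_adj_comm hY (hS t.1) (hS' t.2) (tmul (κ t.1) (κ' t.2))
  rw [ContinuousLinearMap.adjoint_adjoint, ContinuousLinearMap.adjoint_adjoint] at h2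
  rw [h2, cvY_tmul]
  exact ((mapT (S t.1) (S' t.2)).le_opNorm _).trans
    (mul_le_mul_of_nonneg_left (hδ t.1 t.2) (norm_nonneg _))

theorem condV (hR : R.π = Q.π) (Q₁ : VNQG K) (hM : Q₁.M = R.vn)
    (hΔ : Q₁.Δ = fun y => R.tr (Q.Δ (R.inv y))) (hv : Q.VectorFunctionals)
    {x x₁ : H →L[ℂ] H} (hx : x ∈ Q.M) (hx₁ : x₁ ∈ Q.M) (h : Q.DPair x x₁) :
    Q₁.DPair (R.π x) (R.π x₁) := by
  intro ε hε n ξ η
  have key : ∀ ζ : K, ∃ (N : ℕ) (κ : Fin N → H) (S : Fin N → H →L[ℂ] K),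
      (∀ l, R.Int ((S l)†)) ∧ ∑ l, S l (κ l) = ζ := by
    intro ζ
    obtain ⟨N, κ, hκ⟩ := hv ζ
    rw [← hR] at hκ
    obtain ⟨S, hS, hs⟩ := R.exists_sum ζ κ hκ
    exact ⟨N, κ, S, hS, hs⟩
  choose N κ S hS hs using key
  let I : Type := Σ k : Fin n, Fin (N (ξ k)) × Fin (N (η k))
  let A : I → ℝ := fun i => ‖mapT (S (ξ i.1) i.2.1) (S (η i.1) i.2.2)‖
  have hA : ∀ i, 0 ≤ A i := fun i => norm_nonneg _
  have hC : 0 < 1 + ∑ i, A i := by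
    have := Finset.sum_nonneg fun i (_ : i ∈ Finset.univ) => hA i
    linarith
  let e : I ≃ Fin (Fintype.card I) := Fintype.equivFin I
  obtain ⟨m, p, q, hp, hq, hpq⟩ := h (ε / (1 + ∑ i, A i)) (div_pos hε hC) (Fintype.card I)
    (fun t => κ (ξ (e.symm t).1) (e.symm t).2.1) (fun t => κ (η (e.symm t).1) (e.symm t).2.2)
  have hpq' : ∀ i : I,
      ‖tmul (x (κ (ξ i.1) i.2.1)) (κ (η i.1) i.2.2) - ∑ j, Q.Δ (p j)
        (tmul (κ (ξ i.1) i.2.1) ((star (q j)) (κ (η i.1) i.2.2)))‖ <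
          ε / (1 + ∑ i, A i) ∧
      ‖tmul (x₁ (κ (ξ i.1) i.2.1)) (κ (η i.1) i.2.2) - ∑ j, Q.Δ (q j)
        (tmul (κ (ξ i.1) i.2.1) ((star (p j)) (κ (η i.1) i.2.2)))‖ <
          ε / (1 + ∑ i, A i) := by
    intro i
    have h1 := hpq (e i)
    rw [Equiv.symm_apply_apply] at h1
    exact h1
  have hsum : ∀ k : Fin n, (∑ t : Fin (N (ξ k)) × Fin (N (η k)),
      ‖mapT (S (ξ k) t.1) (S (η k) t.2)‖) * (ε / (1 + ∑ i, A i)) < ε := by
    intro k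
    have h1 : ∑ t : Fin (N (ξ k)) × Fin (N (η k)), ‖mapT (S (ξ k) t.1) (S (η k) t.2)‖ ≤
        ∑ i, A i := by
      have h2 : ∑ i, A i = ∑ k, ∑ t : Fin (N (ξ k)) × Fin (N (η k)), A ⟨k, t⟩ :=
        Fintype.sum_sigma A
      rw [h2]
      exact Finset.single_le_sum (f := fun k => ∑ t : Fin (N (ξ k)) × Fin (N (η k)), A ⟨k, t⟩)
        (fun k _ => Finset.sum_nonneg fun t _ => hA ⟨k, t⟩) (Finset.mem_univ k)
    have h3 : 0 < ε / (1 + ∑ i, A i) := div_pos hε hC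
    calc _ ≤ (∑ i, A i) * (ε / (1 + ∑ i, A i)) := mul_le_mul_of_nonneg_right h1 h3.le
      _ < (1 + ∑ i, A i) * (ε / (1 + ∑ i, A i)) := mul_lt_mul_of_pos_right (by linarith) h3
      _ = ε := mul_div_cancel₀ ε hC.ne'
  have hΔ' : ∀ y ∈ Q.M, Q₁.Δ (R.π y) = R.tr (Q.Δ y) := by
    intro y hy
    rw [hΔ]
    simp only [R.inv_π hy]
  refine ⟨m, fun j => R.π (p j), fun j => R.π (q j), fun j => hM ▸ R.π_mem (hp j),
    fun j => hM ▸ R.π_mem (hq j), fun k => ⟨?_, ?_⟩⟩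
  · refine lt_of_le_of_lt ?_ (hsum k)
    have h1 := cv_bound Q R hx hp hq (hS (ξ k)) (hS (η k)) (hs (ξ k)) (hs (η k))
      (ε / (1 + ∑ i, A i)) fun l l' => (hpq' ⟨k, (l, l')⟩).1.le
    simpa only [hΔ' _ (hp _)] using h1
  · refine lt_of_le_of_lt ?_ (hsum k)
    have h1 := cv_bound Q R hx₁ hq hp (hS (ξ k)) (hS (η k)) (hs (ξ k)) (hs (η k))
      (ε / (1 + ∑ i, A i)) fun l l' => (hpq' ⟨k, (l, l')⟩).2.le
    simpa only [hΔ' _ (hq _)] using h1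

end VNQGroup

end Pool.Agent.VNQ
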