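import Pool.Agent.VNQ.Gauss

/-!
# The contour shift for Gaussian integrals

Let `F : ℂ → ℂ` be entire with `‖F z‖ ≤ M exp (c |im z|)`. Then for all `z ∈ ℂ`
`∫ exp (- n (t - z)²) F(t) dt = ∫ exp (- n t²) F(t + z) dt`.

Proof. Let `Φ z` be the left side, `Ψ z` the right side.
(i) `Φ` is entire: `gauss_differentiable` (`t ↦ F t` is continuous and bounded by `M` on `ℝ`;
`M ≥ 0` because `0 ≤ ‖F 0‖ ≤ M`).
(ii) `Ψ` is entire: for `z` in the unit ball around `z₀` the derivative in `z` of the integrand is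
`exp (- n t²) F'(t + z)`, and by the Cauchy estimate on the circle of radius `1`
(`Complex.norm_deriv_le_of_forall_mem_sphere_norm_le`) `‖F'(w)‖ ≤ M exp (|c| (|im w| + 1))`, so it
is
bounded by the integrable function `exp (- n t²) M exp (|c| (|im z₀| + 2))`. Use
`hasDerivAt_integral_of_dominated_loc_of_deriv_le`.
(iii) For real `z = x`: translation invariance of the Lebesgue measure (`t = s + x`,
`integral_add_right_eq_self`): `Φ x = ∫ exp (- n s²) F(s + x) ds = Ψ x`.
(iv) Identity theorem (`AnalyticOnNhd.eq_of_frequently_eq`, both functions are differentiable on `ℂ`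
hence analytic, `Differentiable.analyticAt`; they agree on the real axis, which accumulates at `0`):
`Φ = Ψ`.

`gauss_shift_im` is the special case used for `z = - i s`:
`∫ exp (- n (t + i s)²) F(t) dt = ∫ exp (- n t²) F(t - i s) dt`.
-/

set_option autoImplicit false

noncomputable section

open MeasureTheory

namespace Pool.Agent.VNQ

open Filter Topology Metric in
private theorem shift_diff {n M c : ℝ} (hn : 0 < n) {F : ℂ → ℂ} (hF : Differentiable ℂ F)
    (hM : ∀ z, ‖F z‖ ≤ M * Real.exp (c * |z.im|)) :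
    Differentiable ℂ fun z : ℂ => ∫ t : ℝ, Complex.exp (-n * (t : ℂ) ^ 2) * F (t + z) := by
  have hM0 : 0 ≤ M := by
    have h := (norm_nonneg _).trans (hM 0)
    simpa using h
  have hM' : ∀ z, ‖F z‖ ≤ M * Real.exp (|c| * |z.im|) := fun z =>
    (hM z).trans (mul_le_mul_of_nonneg_left (Real.exp_le_exp.mpr
      (mul_le_mul_of_nonneg_right (le_abs_self c) (abs_nonneg _))) hM0)
  have hne : ∀ t : ℝ, ‖Complex.exp (-n * (t : ℂ) ^ 2)‖ = Real.exp (-n * t ^ 2) := by
    intro t
    rw [Complex.norm_exp]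
    congr 1
    have : (-n * (t : ℂ) ^ 2) = ((-n * t ^ 2 : ℝ) : ℂ) := by push_cast; ring
    rw [this, Complex.ofReal_re]
  have hdF : Continuous (deriv F) := (hF.contDiff (n := 1)).continuous_deriv le_rfl
  have hcont : ∀ x : ℂ, Continuous fun t : ℝ => Complex.exp (-n * (t : ℂ) ^ 2) * F (t + x) := by
    intro x
    have := hF.continuous
    fun_prop
  intro z₀
  have key := hasDerivAt_integral_of_dominated_loc_of_deriv_le (μ := volume) (𝕜 := ℂ)
    (F := fun (z : ℂ) (t : ℝ) => Complex.exp (-n * (t : ℂ) ^ 2) * F (t + z))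
    (F' := fun (z : ℂ) (t : ℝ) => Complex.exp (-n * (t : ℂ) ^ 2) * deriv F (t + z))
    (x₀ := z₀) (s := ball z₀ 1)
    (bound := fun t : ℝ => Real.exp (-n * t ^ 2) * (M * Real.exp (|c| * (|z₀.im| + 2))))
    (ball_mem_nhds z₀ one_pos) (Eventually.of_forall fun x => (hcont x).aestronglyMeasurable)
    ?_ ?_ ?_ ?_ ?_
  · exact key.2.differentiableAt
  · refine Integrable.mono' ((integrable_exp_neg_mul_sq hn).mul_const
      (M * Real.exp (|c| * |z₀.im|))) (hcont z₀).aestronglyMeasurable
      (Eventually.of_forall fun t => ?_)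
    rw [norm_mul, hne]
    have h1 := hM' (t + z₀)
    have h2 : ((t : ℂ) + z₀).im = z₀.im := by simp
    rw [h2] at h1
    exact mul_le_mul_of_nonneg_left h1 (Real.exp_pos _).le
  · have : Continuous fun t : ℝ => Complex.exp (-n * (t : ℂ) ^ 2) * deriv F (t + z₀) := by
      fun_prop
    exact this.aestronglyMeasurable
  · refine Eventually.of_forall fun t x hx => ?_
    change ‖Complex.exp (-n * (t : ℂ) ^ 2) * deriv F (t + x)‖ ≤ _
    rw [norm_mul, hne]
    refine mul_le_mul_of_nonneg_left ?_ (Real.exp_pos _).le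
    have hx1 : |x.im| ≤ |z₀.im| + 1 := by
      have h1 : |x.im - z₀.im| ≤ 1 := by
        rw [← Complex.sub_im]
        exact (Complex.abs_im_le_norm _).trans (mem_ball_iff_norm.mp hx).le
      have h2 := abs_sub_abs_le_abs_sub x.im z₀.im
      linarith
    have h3 := Complex.norm_deriv_le_of_forall_mem_sphere_norm_le (c := (t : ℂ) + x) (R := 1)
      (C := M * Real.exp (|c| * (|z₀.im| + 2))) (f := F) one_pos hF.diffContOnCl (by
        intro w hw
        refine (hM' w).trans (mul_le_mul_of_nonneg_left (Real.exp_le_exp.mpr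
          (mul_le_mul_of_nonneg_left ?_ (abs_nonneg _))) hM0)
        have h4 : |w.im - x.im| ≤ 1 := by
          have h5 : (w - ((t : ℂ) + x)).im = w.im - x.im := by simp
          rw [← h5]
          exact (Complex.abs_im_le_norm _).trans (mem_sphere_iff_norm.mp hw).le
        have h6 := abs_sub_abs_le_abs_sub w.im x.im
        linarith)
    rwa [div_one] at h3
  · exact (integrable_exp_neg_mul_sq hn).mul_const _
  · refine Eventually.of_forall fun t x _ => ?_
    have h1 : HasDerivAt (fun z : ℂ => F (t + z)) (deriv F (t + x)) x :=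
      ((hF ((t : ℂ) + x)).hasDerivAt.comp_const_add (t : ℂ) x)
    exact h1.const_mul _

open Filter Topology in
private theorem real_freq : ∃ᶠ z : ℂ in 𝓝[≠] (0 : ℂ), ∃ x : ℝ, z = (x : ℂ) := by
  have ht : Tendsto (fun k : ℕ => ((1 / ((k : ℝ) + 1) : ℝ) : ℂ)) atTop (𝓝[≠] (0 : ℂ)) := by
    rw [tendsto_nhdsWithin_iff]
    refine ⟨?_, Eventually.of_forall fun k => ?_⟩
    · have h1 := (Complex.continuous_ofReal.tendsto 0).comp
        (tendsto_one_div_add_atTop_nhds_zero_nat (𝕜 := ℝ))
      exact h1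
    · have h2 : (1 / ((k : ℝ) + 1) : ℝ) ≠ 0 := by positivity
      exact Complex.ofReal_ne_zero.mpr h2
  exact ht.frequently (Frequently.of_forall fun k => ⟨_, rfl⟩)

theorem gauss_shift {n M c : ℝ} (hn : 0 < n) {F : ℂ → ℂ} (hF : Differentiable ℂ F)
    (hM : ∀ z, ‖F z‖ ≤ M * Real.exp (c * |z.im|)) (z : ℂ) :
    gaussT n (fun t => F t) z = ∫ t : ℝ, Complex.exp (-n * (t : ℂ) ^ 2) * F (t + z) := by
  have hbd : ∀ t : ℝ, ‖F t‖ ≤ M := by
    intro t
    have h := hM t
    simpa using h
  have h1 : Differentiable ℂ (gaussT n fun t => F t) :=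
    gauss_differentiable hn (hF.continuous.comp Complex.continuous_ofReal) hbd
  have h2 := shift_diff hn hF hM
  have h3 : gaussT n (fun t => F t) =
      fun z : ℂ => ∫ t : ℝ, Complex.exp (-n * (t : ℂ) ^ 2) * F (t + z) := by
    refine AnalyticOnNhd.eq_of_frequently_eq (z₀ := (0 : ℂ)) (fun z _ => h1.analyticAt z)
      (fun z _ => h2.analyticAt z) (real_freq.mono ?_)
    rintro _ ⟨x, rfl⟩
    unfold gaussT
    rw [← integral_add_right_eq_self
      (fun t : ℝ => Complex.exp (-n * ((t : ℂ) - (x : ℂ)) ^ 2) * F t) x]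
    refine integral_congr_ae (Filter.Eventually.of_forall fun t => ?_)
    change Complex.exp (-n * (((t + x : ℝ) : ℂ) - x) ^ 2) * F ((t + x : ℝ) : ℂ) =
      Complex.exp (-n * (t : ℂ) ^ 2) * F (t + x)
    rw [Complex.ofReal_add, add_sub_cancel_right]
  exact congrFun h3 z

theorem gauss_shift_im {n M c : ℝ} (hn : 0 < n) {F : ℂ → ℂ} (hF : Differentiable ℂ F)
    (hM : ∀ z, ‖F z‖ ≤ M * Real.exp (c * |z.im|)) (s : ℝ) :
    ∫ t : ℝ, Complex.exp (-n * ((t : ℂ) + s * Complex.I) ^ 2) * F t =
      ∫ t : ℝ, Complex.exp (-n * (t : ℂ) ^ 2) * F (t - s * Complex.I) := by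
  have h := gauss_shift hn hF hM (-(s * Complex.I))
  unfold gaussT at h
  simp only [sub_neg_eq_add, ← sub_eq_add_neg] at h
  exact h

end Pool.Agent.VNQ
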