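import Pool.Agent.VNQ.UGr
import Pool.Agent.VNQ.Shift

/-!
# The analytic lemma behind the core theorem

`MD.core_aux`: let `(ξ, ξ₁), (η, η₁) ∈ md.rel` with `⟪ξ, U_t η⟫ + ⟪U_t η₁, ξ₁⟫ = 0` for all real
`t`.
Then `⟪ξ, η⟫ = 0`.

Proof. Put `f(t) = ⟪ξ, U_t η⟫`, `f₁(t) = ⟪U_t η₁, ξ₁⟫`, both continuous and bounded
(`continuous_U`, `norm_U`), and for `m`: `B = md.B m`, `X = md.X m`,
`Φ(w) = ⟪ξ, exp(i w B) X η⟫` (entire, `‖Φ(w)‖ ≤ ‖ξ‖ exp(‖B‖ |im w|) ‖X η‖`: `exp_diff_inner`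
with `T = 1`, `norm_exp_le`). Let `f^m(t) = ⟪ξ, U_t X η⟫ = Φ(t)` (`U_X`), `f₁^m(t) = ⟪U_t X η₁,
ξ₁⟫`.

(a) `f₁^m(t) = Φ(t - i)`: put `γ = U_t X η₁`, `γ₁ = U_t exp(B) X η`. Then
`C γ = U_t X C η₁ = U_t X (η - A η) = U_t (X η - A X η) = U_t A exp(B) X η = A γ₁`
(`C_U`, `C_X`, `(η, η₁) ∈ md.rel`, `A_X`, `A_exp_X`, `U_A`), so by `adj_pair`:
`⟪γ, ξ₁⟫ = ⟪ξ, γ₁⟫ = ⟪ξ, exp(B) U_t X η⟫ = ⟪ξ, exp(B) exp(itB) X η⟫ = Φ(t - i)`
(`i (t - i) = i t + 1`, `exp_add_apply`, `U_exp_comm`).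
(b) For all `n > 0` and `z ∈ ℂ`: `gaussT n f₁^m z = gaussT n f^m (z - i)`: by `gauss_shift` for
`w ↦ Φ(w - i)` at `z` and for `Φ` at `z - i`, both sides are `∫ exp(-n t²) Φ(t + z - i) dt`.
(c) `m → ∞`: `f^m(t) → f(t)`, `f₁^m(t) → f₁(t)` (`X_tendsto`), `|f^m| ≤ ‖ξ‖ ‖η‖` (`norm_X_le`), and
`tendsto_integral_of_dominated_convergence` (bound `‖exp(-n(t-z)²)‖ ‖ξ‖ ‖η‖`, integrable by
`gauss_integrable` with `f = 1`) gives `gaussT n f₁ z = gaussT n f (z - i)`.
(d) By hypothesis `f₁ = - f`, so `g = gaussT n f` satisfies `g(z - i) = - g(z)`. `g` is entire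
(`gauss_differentiable`) and bounded on `0 ≤ im z ≤ 1` (`gauss_bound`), hence bounded
(`‖g‖` has period `i`: shift by `⌊im z⌋`), hence constant (Liouville,
`Differentiable.apply_eq_apply_of_bounded`), and `g = - g`, so `g = 0`. In particular
`∫ exp(-n t²) f(t) dt = gaussT n f 0 = 0` for all `n ≥ 1`, and `f 0 = 0` by `gauss_inversion`;
`f 0 = ⟪ξ, η⟫` (`U_zero`).
-/

set_option autoImplicit false

noncomputable section

open scoped InnerProductSpace InnerProduct
open Filter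

namespace Pool.Agent.VNQ

universe u

variable {E : Type u} [NormedAddCommGroup E] [InnerProductSpace ℂ E] [CompleteSpace E]

open MeasureTheory in
private theorem gauss_tendsto {n K : ℝ} (hn : 0 < n) {F : ℕ → ℝ → ℂ} {f : ℝ → ℂ}
    (hF : ∀ m, Continuous (F m)) (hK : ∀ m t, ‖F m t‖ ≤ K)
    (hf : ∀ t, Tendsto (fun m => F m t) atTop (nhds (f t))) (z : ℂ) :
    Tendsto (fun m => gaussT n (F m) z) atTop (nhds (gaussT n f z)) := by
  unfold gaussT
  refine tendsto_integral_of_dominated_convergence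
    (fun t : ℝ => ‖Complex.exp (-n * ((t : ℂ) - z) ^ 2) * 1‖ * K) (fun m => ?_) ?_ (fun m => ?_) ?_
  · exact (gauss_integrable hn (hF m) (hK m) z).aestronglyMeasurable
  · have h1 := gauss_integrable (f := fun _ => (1 : ℂ)) (M := 1) hn continuous_const
      (fun t => by simp) z
    exact h1.norm.mul_const K
  · refine Eventually.of_forall fun t => ?_
    rw [norm_mul, mul_one]
    exact mul_le_mul_of_nonneg_left (hK m t) (norm_nonneg _)
  · exact Eventually.of_forall fun t => (hf t).const_mul _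

private theorem anti_zero {n K : ℝ} (hn : 0 < n) {f : ℝ → ℂ} (hf : Continuous f)
    (hK : ∀ t, ‖f t‖ ≤ K) (h : ∀ z, gaussT n f (z - Complex.I) = -gaussT n f z) (z : ℂ) :
    gaussT n f z = 0 := by
  have hK0 : 0 ≤ K := (norm_nonneg _).trans (hK 0)
  have hnorm : ∀ z, ‖gaussT n f (z - Complex.I)‖ = ‖gaussT n f z‖ := fun z => by
    rw [h, norm_neg]
  have hnat : ∀ (k : ℕ) (z : ℂ), ‖gaussT n f (z - k * Complex.I)‖ = ‖gaussT n f z‖ := by
    intro k
    induction k with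
    | zero => intro z; simp
    | succ k ih =>
      intro z
      have e : z - ((k + 1 : ℕ) : ℂ) * Complex.I = (z - k * Complex.I) - Complex.I := by
        push_cast
        ring
      rw [e, hnorm, ih]
  have hint : ∀ (k : ℤ) (z : ℂ), ‖gaussT n f (z - k * Complex.I)‖ = ‖gaussT n f z‖ := by
    intro k z
    rcases Int.eq_nat_or_neg k with ⟨j, hj | hj⟩
    · rw [hj]
      exact_mod_cast hnat j z
    · have h1 := hnat j (z - k * Complex.I)
      rw [← h1, hj]
      congr 2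
      push_cast
      ring
  have hb : Bornology.IsBounded (Set.range (gaussT n f)) := by
    rw [isBounded_iff_forall_norm_le]
    refine ⟨K * (Real.exp n * Real.sqrt (Real.pi / n)), ?_⟩
    rintro _ ⟨w, rfl⟩
    rw [← hint ⌊w.im⌋ w]
    refine (gauss_bound hn hf hK _).trans ?_
    have him : (w - (⌊w.im⌋ : ℂ) * Complex.I).im = Int.fract w.im := by
      rw [Complex.sub_im, Complex.mul_im, Complex.I_re, Complex.I_im, Complex.intCast_re,
        Complex.intCast_im, mul_one, zero_mul, add_zero]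
      exact Int.self_sub_floor w.im
    rw [him]
    have h1 : Int.fract w.im ^ 2 ≤ 1 := by
      have h2 := Int.fract_nonneg w.im
      have h3 := (Int.fract_lt_one w.im).le
      nlinarith
    have h4 : Real.exp (n * Int.fract w.im ^ 2) ≤ Real.exp n := by
      refine Real.exp_le_exp.2 ?_
      nlinarith
    exact mul_le_mul_of_nonneg_left (mul_le_mul_of_nonneg_right h4 (Real.sqrt_nonneg _)) hK0
  have hd := gauss_differentiable hn hf hK
  have h1 := hd.apply_eq_apply_of_bounded hb (z - Complex.I) z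
  rw [h] at h1
  have h2 : (2 : ℂ) * gaussT n f z = 0 := by linear_combination -h1
  exact (mul_eq_zero.1 h2).resolve_left two_ne_zero

namespace MD

variable (md : MD E)

/-- the entire function `w ↦ ⟪ξ, exp(i w B) X η⟫` -/
private def Phi (m : ℕ) (ξ η : E) (w : ℂ) : ℂ :=
  ⟪ξ, NormedSpace.exp ((Complex.I * w) • md.B m) (md.X m η)⟫_ℂ

private theorem phi_diff (m : ℕ) (ξ η : E) : Differentiable ℂ (md.Phi m ξ η) := by
  have h := exp_diff_inner (md.B m) (1 : E →L[ℂ] E) Complex.I 0 ξ (md.X m η)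
  have h2 : (fun w : ℂ => ⟪ξ, NormedSpace.exp ((Complex.I * w) • md.B m)
      ((1 : E →L[ℂ] E) (NormedSpace.exp ((0 * w) • md.B m) (md.X m η)))⟫_ℂ) =
      md.Phi m ξ η := by
    funext w
    unfold Phi
    rw [zero_mul, zero_smul, NormedSpace.exp_zero]
    rfl
  rwa [h2] at h

private theorem phi_bound (m : ℕ) (ξ η : E) (w : ℂ) :
    ‖md.Phi m ξ η w‖ ≤ ‖ξ‖ * ‖md.X m η‖ * Real.exp (‖md.B m‖ * |w.im|) := by
  unfold Phi
  refine (norm_inner_le_norm _ _).trans ?_
  have h1 := norm_exp_le (md.B m) (md.B_symm m) (Complex.I * w) (md.X m η)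
  have h2 : |(Complex.I * w).re| = |w.im| := by simp
  rw [h2] at h1
  calc ‖ξ‖ * ‖NormedSpace.exp ((Complex.I * w) • md.B m) (md.X m η)‖
      ≤ ‖ξ‖ * (Real.exp (‖md.B m‖ * |w.im|) * ‖md.X m η‖) :=
        mul_le_mul_of_nonneg_left h1 (norm_nonneg _)
    _ = _ := by ring

private theorem phi_real (m : ℕ) (ξ η : E) (t : ℝ) :
    ⟪ξ, md.U t (md.X m η)⟫_ℂ = md.Phi m ξ η t := by
  unfold Phi
  rw [U_X, mul_comm Complex.I]

private theorem phi_shift {ξ ξ₁ η η₁ : E} (h : (ξ, ξ₁) ∈ md.rel) (h' : (η, η₁) ∈ md.rel)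
    (m : ℕ) (t : ℝ) :
    ⟪md.U t (md.X m η₁), ξ₁⟫_ℂ = md.Phi m ξ η ((t : ℂ) - Complex.I) := by
  have h1 : md.C (md.U t (md.X m η₁)) =
      md.A (md.U t (NormedSpace.exp (md.B m) (md.X m η))) := by
    rw [md.C_U, md.C_X, md.U_A, md.A_exp_X, md.A_X, ← map_sub (md.X m), (md.mem_rel).1 h']
  rw [md.adj_pair h h1]
  have h2 := md.U_exp_comm t m 1 (md.X m η)
  rw [one_smul] at h2
  rw [← h2, U_X]
  unfold Phi
  have h3 := exp_add_apply (md.B m) 1 ((t : ℂ) * Complex.I) (md.X m η)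
  rw [one_smul] at h3
  rw [← h3]
  congr 3
  have h4 : (1 : ℂ) + t * Complex.I = Complex.I * (t - Complex.I) := by
    rw [mul_sub, Complex.I_mul_I]
    ring
  rw [h4]

theorem core_aux {ξ ξ₁ η η₁ : E} (h : (ξ, ξ₁) ∈ md.rel) (h' : (η, η₁) ∈ md.rel)
    (h0 : ∀ t, ⟪ξ, md.U t η⟫_ℂ + ⟪md.U t η₁, ξ₁⟫_ℂ = 0) : ⟪ξ, η⟫_ℂ = 0 := by
  obtain ⟨f, hf⟩ : ∃ f : ℝ → ℂ, f = fun t => ⟪ξ, md.U t η⟫_ℂ := ⟨_, rfl⟩
  have hfc : Continuous f := by
    rw [hf]
    exact continuous_const.inner (md.continuous_U η)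
  have hfb : ∀ t, ‖f t‖ ≤ ‖ξ‖ * ‖η‖ := by
    intro t
    rw [hf]
    refine (norm_inner_le_norm _ _).trans ?_
    rw [md.norm_U]
  have hXle : ∀ (m : ℕ) (x : E), ‖md.X m x‖ ≤ ‖x‖ := fun m x => by
    refine ((md.X m).le_opNorm x).trans ?_
    exact (mul_le_mul_of_nonneg_right (md.norm_X_le m) (norm_nonneg x)).trans (one_mul _).le
  -- the two sequences
  have hlim : ∀ n : ℝ, 0 < n → ∀ z : ℂ, gaussT n f (z - Complex.I) = -gaussT n f z := by
    intro n hn z
    have e1 : Tendsto (fun m => gaussT n (fun t => ⟪ξ, md.U t (md.X m η)⟫_ℂ) (z - Complex.I))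
        atTop (nhds (gaussT n f (z - Complex.I))) := by
      refine gauss_tendsto (K := ‖ξ‖ * ‖η‖) hn (fun m => ?_) (fun m t => ?_) (fun t => ?_) _
      · exact continuous_const.inner (md.continuous_U _)
      · refine (norm_inner_le_norm _ _).trans ?_
        rw [md.norm_U]
        exact mul_le_mul_of_nonneg_left (hXle m η) (norm_nonneg _)
      · rw [hf]
        exact (tendsto_const_nhds.inner (((md.U t).continuous.tendsto η).comp (md.X_tendsto η)))
    have e2 : Tendsto (fun m => gaussT n (fun t => ⟪md.U t (md.X m η₁), ξ₁⟫_ℂ) z)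
        atTop (nhds (gaussT n (fun t => ⟪md.U t η₁, ξ₁⟫_ℂ) z)) := by
      refine gauss_tendsto (K := ‖η₁‖ * ‖ξ₁‖) hn (fun m => ?_) (fun m t => ?_) (fun t => ?_) _
      · exact (md.continuous_U _).inner continuous_const
      · refine (norm_inner_le_norm _ _).trans ?_
        rw [md.norm_U]
        exact mul_le_mul_of_nonneg_right (hXle m η₁) (norm_nonneg _)
      · exact ((((md.U t).continuous.tendsto η₁).comp (md.X_tendsto η₁)).inner
          tendsto_const_nhds)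
    have e3 : ∀ m, gaussT n (fun t => ⟪md.U t (md.X m η₁), ξ₁⟫_ℂ) z =
        gaussT n (fun t => ⟪ξ, md.U t (md.X m η)⟫_ℂ) (z - Complex.I) := by
      intro m
      have g1 : (fun t : ℝ => ⟪md.U t (md.X m η₁), ξ₁⟫_ℂ) =
          fun t : ℝ => (fun w => md.Phi m ξ η (w - Complex.I)) (t : ℂ) := by
        funext t
        exact md.phi_shift h h' m t
      have g2 : (fun t : ℝ => ⟪ξ, md.U t (md.X m η)⟫_ℂ) = fun t : ℝ => md.Phi m ξ η (t : ℂ) := by
        funext t
        exact md.phi_real m ξ η t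
      have hB0 : 0 ≤ ‖md.B m‖ := norm_nonneg _
      have hM0 : 0 ≤ ‖ξ‖ * ‖md.X m η‖ := by positivity
      have g3 := gauss_shift (n := n) (M := ‖ξ‖ * ‖md.X m η‖ * Real.exp ‖md.B m‖)
        (c := ‖md.B m‖) hn (F := fun w => md.Phi m ξ η (w - Complex.I))
        ((md.phi_diff m ξ η).comp (differentiable_id.sub_const _)) (fun w => by
          refine (md.phi_bound m ξ η _).trans ?_
          rw [mul_assoc, mul_assoc, mul_assoc, ← Real.exp_add]
          have g4 : |(w - Complex.I).im| ≤ 1 + |w.im| := by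
            rw [Complex.sub_im, Complex.I_im]
            calc |w.im - 1| ≤ |w.im| + |(1 : ℝ)| := abs_sub _ _
              _ = 1 + |w.im| := by rw [abs_one, add_comm]
          have g5 : ‖md.B m‖ * |(w - Complex.I).im| ≤ ‖md.B m‖ + ‖md.B m‖ * |w.im| := by
            calc ‖md.B m‖ * |(w - Complex.I).im| ≤ ‖md.B m‖ * (1 + |w.im|) :=
                  mul_le_mul_of_nonneg_left g4 hB0
              _ = _ := by ring
          exact mul_le_mul_of_nonneg_left (mul_le_mul_of_nonneg_left (Real.exp_le_exp.2 g5)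
            (norm_nonneg _)) (norm_nonneg _)) z
      have g6 := gauss_shift (n := n) (M := ‖ξ‖ * ‖md.X m η‖) (c := ‖md.B m‖) hn
        (md.phi_diff m ξ η) (md.phi_bound m ξ η) (z - Complex.I)
      rw [g1, g2, g3, g6]
      refine MeasureTheory.integral_congr_ae (Eventually.of_forall fun t => ?_)
      show _ * md.Phi m ξ η ((t : ℂ) + z - Complex.I) = _ * md.Phi m ξ η ((t : ℂ) + (z - Complex.I))
      rw [add_sub_assoc]
    have e4 : gaussT n f (z - Complex.I) = gaussT n (fun t => ⟪md.U t η₁, ξ₁⟫_ℂ) z := by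
      refine tendsto_nhds_unique e1 ?_
      have e5 : (fun m => gaussT n (fun t => ⟪ξ, md.U t (md.X m η)⟫_ℂ) (z - Complex.I)) =
          fun m => gaussT n (fun t => ⟪md.U t (md.X m η₁), ξ₁⟫_ℂ) z := by
        funext m
        exact (e3 m).symm
      rw [e5]
      exact e2
    rw [e4]
    have e6 : (fun t => ⟪md.U t η₁, ξ₁⟫_ℂ) = fun t => -f t := by
      funext t
      rw [hf]
      exact eq_neg_of_add_eq_zero_right (h0 t)
    rw [e6]
    unfold gaussT
    rw [← MeasureTheory.integral_neg]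
    refine MeasureTheory.integral_congr_ae (Eventually.of_forall fun t => ?_)
    show _ * -f t = -(_ * f t)
    ring
  have hfin : f 0 = 0 := by
    refine gauss_inversion hfc hfb fun n hn => ?_
    have hn' : (0 : ℝ) < n := by exact_mod_cast hn
    have h1 := anti_zero hn' hfc hfb (hlim n hn') 0
    unfold gaussT at h1
    simpa using h1
  have h2 : f 0 = ⟪ξ, η⟫_ℂ := by
    rw [hf]
    show ⟪ξ, md.U 0 η⟫_ℂ = _
    rw [md.U_zero]
  rw [← h2, hfin]

end MD

end Pool.Agent.VNQ
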