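import Pool.Agent.VNQ.Core

/-!
# The core theorem

`MD.core`: Let `Γ₀ ⊆ md.rel` be closed, additive, `(c, c̄)`-homogeneous, invariant under the modular
group, with a dense first projection. Then `Γ₀ = md.rel`.

Proof. `md.rel` and `Γ₀` are closed real subspaces of the real Hilbert space `E × E` (as
`WithLp 2 (E × E)` with the real inner product `re ⟪·,·⟫`; see `MDEx` for the same setting).
If `Γ₀ ≠ md.rel`, there is `(ξ, ξ₁) ∈ md.rel`, `≠ 0`, orthogonal to `Γ₀` (take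
`p ∈ md.rel \ Γ₀` and `p - P p`, `P` the orthogonal projection onto `Γ₀`; `P p ∈ Γ₀ ⊆ md.rel` and
`md.rel` is a subspace). For `(η, η₁) ∈ Γ₀` and `c ∈ ℂ`: `(c η, c̄ η₁) ∈ Γ₀`, so
`0 = re (⟪ξ, c η⟫ + ⟪ξ₁, c̄ η₁⟫) = re (c (⟪ξ, η⟫ + ⟪η₁, ξ₁⟫))` (`re (c̄ ⟪ξ₁, η₁⟫) = re (c ⟪η₁,
ξ₁⟫)`) for
all `c`, so `⟪ξ, η⟫ + ⟪η₁, ξ₁⟫ = 0`. Apply this to `(U_t η, U_t η₁) ∈ Γ₀`:
`⟪ξ, U_t η⟫ + ⟪U_t η₁, ξ₁⟫ = 0` for all `t`. By `core_aux` `⟪ξ, η⟫ = 0` for all `η` in the first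
projection of `Γ₀`, a dense set, so `ξ = 0`; then `(1 - A) 0 = C ξ₁`, and by symmetry
(`rel_symm`) `(1 - A) ξ₁ = C 0 = 0`, so `ξ₁ = 0` (`A_inj'`). Contradiction.

(`md.rel` is closed: both sides of `p.1 - A p.1 = C p.2` are continuous.)
-/

set_option autoImplicit false

noncomputable section

open scoped InnerProductSpace InnerProduct
open Filter

namespace Pool.Agent.VNQ

universe u

variable {E : Type u} [NormedAddCommGroup E] [InnerProductSpace ℂ E] [CompleteSpace E]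

namespace MD

variable (md : MD E)

/-- the orthogonal projection onto a closed real subspace -/
private theorem orth_aux {H : Type*} [NormedAddCommGroup H] [InnerProductSpace ℂ H]
    [CompleteSpace H] (S : Set H) (hc : IsClosed S) (h0 : (0 : H) ∈ S)
    (hadd : ∀ v ∈ S, ∀ w ∈ S, v + w ∈ S) (hsmul : ∀ r : ℝ, ∀ v ∈ S, (r : ℂ) • v ∈ S) (v : H) :
    ∃ q ∈ S, ∀ r ∈ S, (⟪v - q, r⟫_ℂ).re = 0 := by
  let : InnerProductSpace ℝ H := InnerProductSpace.rclikeToReal ℂ H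
  let K : Submodule ℝ H :=
    { carrier := S
      zero_mem' := h0
      add_mem' := fun {a b} ha hb => hadd _ ha _ hb
      smul_mem' := fun c v hv => hsmul c v hv }
  have hKc : IsComplete (K : Set H) := hc.isComplete
  have : CompleteSpace K := completeSpace_coe_iff_isComplete.2 hKc
  obtain ⟨q, hq, h⟩ : ∃ q ∈ K, ∀ r ∈ K, inner ℝ (v - q) r = 0 := by
    refine ⟨Submodule.starProjection K v, Submodule.starProjection_apply_mem K v, ?_⟩
    intro r hr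
    exact Submodule.starProjection_inner_eq_zero v r hr
  exact ⟨q, hq, fun r hr => h r hr⟩

/-- the orthogonal projection onto the closed real subspace -/
private theorem exists_orth (Γ₀ : Set (E × E)) (h_closed : IsClosed Γ₀)
    (h_ne : ((0 : E), (0 : E)) ∈ Γ₀) (h_add : ∀ p ∈ Γ₀, ∀ q ∈ Γ₀, p + q ∈ Γ₀)
    (h_smul : ∀ c : ℂ, ∀ p ∈ Γ₀, (c • p.1, (starRingEnd ℂ) c • p.2) ∈ Γ₀) (p : E × E) :
    ∃ q ∈ Γ₀, ∀ r ∈ Γ₀, (⟪(p - q).1, r.1⟫_ℂ).re + (⟪(p - q).2, r.2⟫_ℂ).re = 0 := by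
  obtain ⟨q, hq, h⟩ := orth_aux (H := WithLp 2 (E × E)) {v | WithLp.ofLp v ∈ Γ₀}
    (h_closed.preimage (WithLp.prod_continuous_ofLp 2 E E)) h_ne
    (fun v hv w hw => h_add _ hv _ hw) (fun r v hv => by
      have h1 := h_smul (r : ℂ) _ hv
      rw [Complex.conj_ofReal] at h1
      exact h1) (WithLp.toLp 2 p)
  refine ⟨WithLp.ofLp q, hq, fun r hr => ?_⟩
  have h2 := h (WithLp.toLp 2 r) hr
  rw [WithLp.prod_inner_apply, Complex.add_re] at h2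
  exact h2

theorem core (Γ₀ : Set (E × E)) (h_closed : IsClosed Γ₀) (h_ne : ((0 : E), (0 : E)) ∈ Γ₀)
    (h_add : ∀ p ∈ Γ₀, ∀ q ∈ Γ₀, p + q ∈ Γ₀)
    (h_smul : ∀ c : ℂ, ∀ p ∈ Γ₀, (c • p.1, (starRingEnd ℂ) c • p.2) ∈ Γ₀)
    (h_sub : Γ₀ ⊆ md.rel) (h_U : ∀ t, ∀ p ∈ Γ₀, (md.U t p.1, md.U t p.2) ∈ Γ₀)
    (h_dense : Dense {ξ | ∃ ξ₁, (ξ, ξ₁) ∈ Γ₀}) : Γ₀ = md.rel := by
  refine Set.Subset.antisymm h_sub fun p hp => ?_
  obtain ⟨q, hq, horth⟩ := exists_orth Γ₀ h_closed h_ne h_add h_smul p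
  have hq' := h_sub hq
  obtain ⟨p1, p2⟩ := p
  obtain ⟨q1, q2⟩ := q
  have hv : (p1 - q1, p2 - q2) ∈ md.rel := by
    rw [mem_rel] at hp hq' ⊢
    rw [map_sub, map_sub, ← hp, ← hq']
    abel
  have key : ∀ η η₁ : E, (η, η₁) ∈ Γ₀ → ⟪p1 - q1, η⟫_ℂ + ⟪η₁, p2 - q2⟫_ℂ = 0 := by
    intro η η₁ h
    have e1 := horth _ h
    have e2 := horth _ (h_smul Complex.I _ h)
    simp only [Prod.fst_sub, Prod.snd_sub] at e1 e2
    rw [inner_smul_right, inner_smul_right, Complex.conj_I] at e2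
    rw [← inner_conj_symm η₁ (p2 - q2)]
    apply Complex.ext
    · rw [Complex.add_re, Complex.conj_re, Complex.zero_re]
      exact e1
    · rw [Complex.add_im, Complex.conj_im, Complex.zero_im]
      simp only [Complex.mul_re, Complex.neg_re, Complex.I_re, Complex.I_im, Complex.neg_im]
        at e2
      linarith
  have h1 : ∀ η η₁ : E, (η, η₁) ∈ Γ₀ → ⟪p1 - q1, η⟫_ℂ = 0 := by
    intro η η₁ h
    exact md.core_aux hv (h_sub h) fun t => key _ _ (h_U t _ h)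
  have h2 : p1 - q1 = 0 := by
    have h3 : (fun η : E => ⟪p1 - q1, η⟫_ℂ) = fun _ => 0 := by
      refine Continuous.ext_on h_dense (by fun_prop) continuous_const ?_
      rintro η ⟨η₁, h⟩
      exact h1 η η₁ h
    have h4 := congrFun h3 (p1 - q1)
    exact inner_self_eq_zero.1 h4
  have h5 : p2 - q2 = 0 := by
    have h6 := md.rel_symm hv
    rw [mem_rel, h2, map_zero] at h6
    exact md.A_inj' _ (sub_eq_zero.1 h6).symm
  rw [sub_eq_zero.1 h2, sub_eq_zero.1 h5]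
  exact hq

end MD

end Pool.Agent.VNQ
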