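import Pool.Agent.VNQ.RelV
import Pool.Agent.VNQ.CoreT

/-!
# The slices form a core for the involution of `ψ`

`Q.Sp` is the span of all `Q.sr η' η x`, `x, x† ∈ N_ψ`, `η, η' ∈ H`.

* `Sp_mem`: for `y ∈ Q.Sp`: `y ∈ N_ψ`, `y† ∈ N_ψ`, `y† ∈ Q.Sp` (`Submodule.span_induction`;
`V_slice`,
  `adjoint_sr`, `add_mem`, `smul_mem`).
* `core_psi`: for `x, x† ∈ N_ψ` and `ε > 0` there is `y ∈ Q.Sp` with `‖Λ y - Λ x‖ < ε`,
  `‖Λ(y†) - Λ(x†)‖ < ε`.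

  Proof. `d = Q.ψ.md`, `Γ₀` = closure of `{(Λ y, Λ(y†)) : y ∈ Q.Sp}`. We show `Γ₀ = d.rel` with
  `MD.core`; then `(Λ x, Λ(x†)) ∈ d.rel = Γ₀` (`mem_md_rel`) is the claim
  (`Metric.mem_closure_iff`, the distance on a product is the maximum).
  `h_closed`, `h_ne` (`y = 0`), `h_add`, `h_smul`: the set before the closure has these
  properties (`Λ_add`, `Λ_smul`), continuity (`map_mem_closure₂`, `map_mem_closure`). `h_sub`: each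
  `(Λ y, Λ(y†)) ∈ d.rel` (`mem_md_rel`), and `d.rel = Q.ψ.Gam` is closed (`isRel_Gam.closed`,
  `md_rel`).
  (a) For `(ξ, ξ₁) ∈ d.rel` and `η, η'`: `(R_{η'}† V (ξ ⊠ η), R_η† V (ξ₁ ⊠ η')) ∈ Γ₀`: for
  `(ξ, ξ₁) = (Λ x', Λ(x'†))` it is `(Λ s, Λ(s†))` with `s = Q.sr η' η x' ∈ Q.Sp`
  (`V_slice`, `adjoint_sr`); `Γ₀` is closed and the expression is continuous in `(ξ, ξ₁)`.
  `h_U`: it is enough to show `(U_t Λ y, U_t Λ(y†)) ∈ Γ₀` for `y ∈ Q.Sp` (continuity of `U_t`), and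
  by
  `Submodule.span_induction` (with `h_add`, `h_smul`, `(c y)† = c̄ y†`) for
  `y = Q.sr η' η x'`: by `V_U_slice`
  `(U_t Λ y, U_t Λ(y†)) = (U_t R_{η'}† V (Λ x' ⊠ η), U_t R_η† V (Λ(x'†) ⊠ η'))`
  `= (R_{U'η'}† V (U_t Λ x' ⊠ U'η), R_{U'η}† V (U_t Λ(x'†) ⊠ U'η'))` with `U' = U^k_{-t}`, which is
  in `Γ₀` by (a), since `(U_t Λ x', U_t Λ(x'†)) ∈ d.rel` (`rel_U`).
  `h_dense`: the first projection `D` of `Γ₀` is a subspace containing `R_{η'}† V (ξ ⊠ η)` for `ξ`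
  in
  the (dense) domain of `d.rel` by (a) (domain dense: `isRel_Gam.dense`), so its closure contains
  `R_{η'}† V (ξ ⊠ η)` for all `ξ, η, η'`. If `g` is orthogonal to it, then
  `⟪V†(g ⊠ η'), ξ ⊠ η⟫ = ⟪g ⊠ η', V (ξ ⊠ η)⟫ = ⟪g, R_{η'}† V (ξ ⊠ η)⟫ = 0`, so `V† (g ⊠ η') = 0`,
  `g ⊠ η' = V V† (g ⊠ η') = 0` (`VV_adj`); `η' = g` gives `g = 0`.
-/

set_option autoImplicit false

noncomputable section

open scoped TensorProduct InnerProductSpace InnerProduct ENNReal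
open Filter

namespace Pool.Agent.VNQ

universe u

variable {H G : Type u} [NormedAddCommGroup H] [InnerProductSpace ℂ H] [CompleteSpace H]
  [NormedAddCommGroup G] [InnerProductSpace ℂ G] [CompleteSpace G]

namespace QG

variable (Q : QG H G)

/-- The span of the right slices of `Δ(x)`, `x, x† ∈ N_ψ`. -/
def Sp : Submodule ℂ (H →L[ℂ] H) :=
  Submodule.span ℂ {y | ∃ x ∈ Q.ψ.N, x† ∈ Q.ψ.N ∧ ∃ η' η, y = Q.sr η' η x}

theorem Sp_mem {y : H →L[ℂ] H} (hy : y ∈ Q.Sp) : y ∈ Q.ψ.N ∧ y† ∈ Q.ψ.N ∧ y† ∈ Q.Sp := by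
  induction hy using Submodule.span_induction with
  | mem y hy =>
    obtain ⟨x, hx, hx', η', η, rfl⟩ := hy
    have h1 : (Q.sr η' η x)† = Q.sr η η' (x†) := Q.adjoint_sr η' η hx.1
    rw [h1]
    refine ⟨(Q.V_slice hx η' η).1, (Q.V_slice hx' η η').1, Submodule.subset_span
      ⟨x†, hx', ?_, η, η', rfl⟩⟩
    rw [ContinuousLinearMap.adjoint_adjoint]
    exact hx
  | zero =>
    have h1 : (0 : H →L[ℂ] H)† = 0 := map_zero _
    rw [h1]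
    exact ⟨Q.ψ.zero_mem, Q.ψ.zero_mem, Submodule.zero_mem _⟩
  | add a b _ _ ha hb =>
    have h1 : (a + b)† = a† + b† := map_add _ _ _
    rw [h1]
    exact ⟨Q.ψ.add_mem ha.1 hb.1, Q.ψ.add_mem ha.2.1 hb.2.1,
      Submodule.add_mem _ ha.2.2 hb.2.2⟩
  | smul c a _ ha =>
    have h1 : (c • a)† = (starRingEnd ℂ) c • a† := map_smulₛₗ _ _ _
    rw [h1]
    exact ⟨Q.ψ.smul_mem _ ha.1, Q.ψ.smul_mem _ ha.2.1, Submodule.smul_mem _ _ ha.2.2⟩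

/-- the pairs before the closure -/
private def S0 : Set (H × H) := {p | ∃ y ∈ Q.Sp, p = (Q.ψ.Λ y, Q.ψ.Λ (y†))}

private theorem Λ_zero : Q.ψ.Λ 0 = 0 := map_zero Q.ψ.Λl

private theorem S0_zero : ((0 : H), (0 : H)) ∈ Q.S0 := by
  refine ⟨0, Submodule.zero_mem _, ?_⟩
  have h1 : (0 : H →L[ℂ] H)† = 0 := map_zero _
  rw [h1, Q.Λ_zero]

private theorem S0_add {p q : H × H} (hp : p ∈ Q.S0) (hq : q ∈ Q.S0) : p + q ∈ Q.S0 := by
  obtain ⟨a, ha, rfl⟩ := hp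
  obtain ⟨b, hb, rfl⟩ := hq
  refine ⟨a + b, Submodule.add_mem _ ha hb, ?_⟩
  have h1 : (a + b)† = a† + b† := map_add _ _ _
  rw [h1, Q.ψ.Λ_add a (Q.Sp_mem ha).1 b (Q.Sp_mem hb).1,
    Q.ψ.Λ_add _ (Q.Sp_mem ha).2.1 _ (Q.Sp_mem hb).2.1]
  rfl

private theorem S0_smul (c : ℂ) {p : H × H} (hp : p ∈ Q.S0) :
    (c • p.1, (starRingEnd ℂ) c • p.2) ∈ Q.S0 := by
  obtain ⟨a, ha, rfl⟩ := hp
  refine ⟨c • a, Submodule.smul_mem _ _ ha, ?_⟩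
  have h1 : (c • a)† = (starRingEnd ℂ) c • a† := map_smulₛₗ _ _ _
  rw [h1, Q.ψ.Λ_smul c a (Q.Sp_mem ha).1, Q.ψ.Λ_smul _ _ (Q.Sp_mem ha).2.1]

private theorem cl_zero : ((0 : H), (0 : H)) ∈ closure Q.S0 := subset_closure Q.S0_zero

private theorem cl_add (p : H × H) (hp : p ∈ closure Q.S0) (q : H × H)
    (hq : q ∈ closure Q.S0) : p + q ∈ closure Q.S0 :=
  map_mem_closure₂ continuous_add hp hq fun _ ha _ hb => Q.S0_add ha hb

private theorem cl_smul (c : ℂ) (p : H × H) (hp : p ∈ closure Q.S0) :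
    (c • p.1, (starRingEnd ℂ) c • p.2) ∈ closure Q.S0 := by
  have hcont : Continuous fun p : H × H => (c • p.1, (starRingEnd ℂ) c • p.2) := by fun_prop
  exact map_mem_closure (f := fun p : H × H => (c • p.1, (starRingEnd ℂ) c • p.2))
    hcont hp fun _ ha => Q.S0_smul c ha

/-- the slice map -/
private def slm (η' η : H) : H × H → H × H :=
  fun p => (((rT η')†) (Q.V (tmul p.1 η)), ((rT η)†) (Q.V (tmul p.2 η')))

private theorem slm_cont (η' η : H) : Continuous (Q.slm η' η) := by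
  have h1 : Continuous fun p : H × H => tmul p.1 η :=
    continuous_tmul.comp (continuous_fst.prodMk continuous_const)
  have h2 : Continuous fun p : H × H => tmul p.2 η' :=
    continuous_tmul.comp (continuous_snd.prodMk continuous_const)
  exact ((((rT η')†).continuous.comp (Q.V.continuous.comp h1))).prodMk
    ((((rT η)†).continuous.comp (Q.V.continuous.comp h2)))

private theorem slm_mem (η' η : H) {b : H →L[ℂ] H} (hb : b ∈ Q.ψ.N) (hb' : b† ∈ Q.ψ.N) :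
    Q.slm η' η (Q.ψ.Λ b, Q.ψ.Λ (b†)) ∈ Q.S0 := by
  refine ⟨Q.sr η' η b, Submodule.subset_span ⟨b, hb, hb', η', η, rfl⟩, ?_⟩
  have h1 : (Q.sr η' η b)† = Q.sr η η' (b†) := Q.adjoint_sr η' η hb.1
  rw [h1, ← (Q.V_slice hb η' η).2, ← (Q.V_slice hb' η η').2, slm]

private theorem cl_slice {ξ ξ₁ : H} (h : (ξ, ξ₁) ∈ Q.ψ.md.rel) (η' η : H) :
    (((rT η')†) (Q.V (tmul ξ η)), ((rT η)†) (Q.V (tmul ξ₁ η'))) ∈ closure Q.S0 := by
  rw [Q.ψ.md_rel, Wt.Gam] at h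
  have h2 : Q.slm η' η (ξ, ξ₁) ∈ closure Q.S0 := by
    refine map_mem_closure (Q.slm_cont η' η) h ?_
    rintro _ ⟨b, hb, hb', rfl⟩
    exact Q.slm_mem η' η hb hb'
  rw [slm] at h2
  exact h2

private theorem cl_U (t : ℝ) (p : H × H) (hp : p ∈ closure Q.S0) :
    (Q.ψ.md.U t p.1, Q.ψ.md.U t p.2) ∈ closure Q.S0 := by
  have hcont : Continuous fun p : H × H => (Q.ψ.md.U t p.1, Q.ψ.md.U t p.2) := by fun_prop
  rw [← closure_closure]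
  refine map_mem_closure (f := fun p : H × H => (Q.ψ.md.U t p.1, Q.ψ.md.U t p.2)) hcont hp ?_
  rintro _ ⟨y, hy, rfl⟩
  change (Q.ψ.md.U t (Q.ψ.Λ y), Q.ψ.md.U t (Q.ψ.Λ (y†))) ∈ closure Q.S0
  induction hy using Submodule.span_induction with
  | mem y hy =>
    obtain ⟨x, hx, hx', η', η, rfl⟩ := hy
    have h1 : (Q.sr η' η x)† = Q.sr η η' (x†) := Q.adjoint_sr η' η hx.1
    rw [h1, ← (Q.V_slice hx η' η).2, ← (Q.V_slice hx' η η').2, Q.V_U_slice, Q.V_U_slice]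
    exact Q.cl_slice (Q.ψ.md.rel_U (Q.ψ.mem_md_rel hx hx') t) _ _
  | zero =>
    have h1 : (0 : H →L[ℂ] H)† = 0 := map_zero _
    rw [h1, Q.Λ_zero, map_zero]
    exact Q.cl_zero
  | add a b ha hb ih1 ih2 =>
    have ha' : a ∈ Q.Sp := ha
    have hb' : b ∈ Q.Sp := hb
    have h1 : (a + b)† = a† + b† := map_add _ _ _
    rw [h1, Q.ψ.Λ_add a (Q.Sp_mem ha').1 b (Q.Sp_mem hb').1,
      Q.ψ.Λ_add _ (Q.Sp_mem ha').2.1 _ (Q.Sp_mem hb').2.1, map_add, map_add]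
    exact Q.cl_add _ ih1 _ ih2
  | smul c a ha ih =>
    have ha' : a ∈ Q.Sp := ha
    have h1 : (c • a)† = (starRingEnd ℂ) c • a† := map_smulₛₗ _ _ _
    rw [h1, Q.ψ.Λ_smul c a (Q.Sp_mem ha').1, Q.ψ.Λ_smul _ _ (Q.Sp_mem ha').2.1, map_smul,
      map_smul]
    exact Q.cl_smul c _ ih

private theorem cl_sub : closure Q.S0 ⊆ Q.ψ.md.rel := by
  refine closure_minimal ?_ ?_
  · rintro _ ⟨y, hy, rfl⟩
    exact Q.ψ.mem_md_rel (Q.Sp_mem hy).1 (Q.Sp_mem hy).2.1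
  · rw [Q.ψ.md_rel]
    exact Q.ψ.isRel_Gam.closed

private theorem cl_dense : Dense {ξ | ∃ ξ₁, (ξ, ξ₁) ∈ closure Q.S0} := by
  let D : Submodule ℂ H :=
    { carrier := {ξ | ∃ ξ₁, (ξ, ξ₁) ∈ closure Q.S0}
      zero_mem' := ⟨0, Q.cl_zero⟩
      add_mem' := by
        rintro a b ⟨a₁, ha⟩ ⟨b₁, hb⟩
        exact ⟨a₁ + b₁, Q.cl_add _ ha _ hb⟩
      smul_mem' := by
        rintro c a ⟨a₁, ha⟩
        exact ⟨_, Q.cl_smul c _ ha⟩ }
  change Dense (D : Set H)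
  rw [Submodule.dense_iff_topologicalClosure_eq_top, Submodule.topologicalClosure_eq_top_iff,
    Submodule.eq_bot_iff]
  intro g hg
  rw [Submodule.mem_orthogonal] at hg
  have hd : Dense {ξ | ∃ ξ₁, (ξ, ξ₁) ∈ Q.ψ.md.rel} := by
    rw [Q.ψ.md_rel]
    exact Q.ψ.isRel_Gam.dense
  have h1 : ∀ η' η ξ : H, ⟪((rT η')†) (Q.V (tmul ξ η)), g⟫_ℂ = 0 := by
    intro η' η
    have h2 : (fun ξ : H => ⟪((rT η')†) (Q.V (rT η ξ)), g⟫_ℂ) = fun _ => 0 := by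
      refine Continuous.ext_on hd (by fun_prop) continuous_const ?_
      rintro ξ ⟨ξ₁, h⟩
      exact hg _ ⟨_, Q.cl_slice h η' η⟩
    intro ξ
    exact congrFun h2 ξ
  have h3 : ((Q.V)†) (tmul g g) = 0 := by
    refine ext_inner_left' fun ξ η => ?_
    rw [ContinuousLinearMap.adjoint_inner_right, inner_zero_right]
    have h4 := h1 g η ξ
    rw [ContinuousLinearMap.adjoint_inner_left, rT_apply] at h4
    exact h4
  have h5 : tmul g g = 0 := by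
    rw [← Q.VV_adj (tmul g g), h3, map_zero]
  have h6 : ‖g‖ * ‖g‖ = 0 := by
    rw [← norm_tmul, h5, norm_zero]
  exact norm_eq_zero.1 (mul_self_eq_zero.1 h6)

theorem core_psi {x : H →L[ℂ] H} (hx : x ∈ Q.ψ.N) (hx' : x† ∈ Q.ψ.N) (ε : ℝ) (hε : 0 < ε) :
    ∃ y ∈ Q.Sp, ‖Q.ψ.Λ y - Q.ψ.Λ x‖ < ε ∧ ‖Q.ψ.Λ (y†) - Q.ψ.Λ (x†)‖ < ε := by
  have h1 : closure Q.S0 = Q.ψ.md.rel := Q.ψ.md.core (closure Q.S0) isClosed_closure Q.cl_zero
    Q.cl_add Q.cl_smul Q.cl_sub Q.cl_U Q.cl_dense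
  have h2 := Q.ψ.mem_md_rel hx hx'
  rw [← h1, Metric.mem_closure_iff] at h2
  obtain ⟨_, ⟨y, hy, rfl⟩, h3⟩ := h2 ε hε
  rw [Prod.dist_eq, max_lt_iff, dist_comm, dist_comm (Q.ψ.Λ (x†)), dist_eq_norm,
    dist_eq_norm] at h3
  exact ⟨y, hy, h3.1, h3.2⟩

end QG

end Pool.Agent.VNQ
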