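import Mathlib

/-!
# The cut-off logarithm (scalar functions)

`ell m s = log (max (1 - s) δ) - log (max s δ)`, `δ = 1 / (m + 2)`; `chi m` is a continuous function
with values in `[0,1]`, zero unless `s > δ` and `1 - s > δ`.

* continuity: `Real.continuousOn_log`/`Continuous.log` (the argument is `≥ δ > 0`), `min`, `max`.
* `chi_ne_zero`: if `s ≤ δ` then `(m + 2) s - 1 ≤ 0` and the first factor is `max 0 (min 1 _) = 0`.
* `ell_of_chi_ne_zero`: `s > 1/(m+2) ≥ 1/(k+2)`, so `max s (1/(k+2)) = s`, and the same for `1 - s`.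
* `chi_sub_one_le`: `|(chi m s - 1) (s (1 - s))| ≤ 2/(m+2)` on `[0,1]`: if
  `(m+2) s ≥ 2` and `(m+2)(1-s) ≥ 2` then `chi m s = 1`; otherwise `s < 2/(m+2)` or
  `1 - s < 2/(m+2)`, so `s (1 - s) ≤ 2/(m+2)`, and `|chi - 1| ≤ 1`.
* `continuous_chi_div`: `s ↦ chi m s / s` is continuous: near `s = 0` it is zero (for `s < δ`), and
  for `s > δ/2` it is a quotient of continuous functions. (For instance it equals
  `chi m s / max s δ`: check both cases.)
* `continuous_chi_div'`: the same for `chi m s / (1 - s)` and `chi m s / √(s (1 - s))`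
  (equal to `chi m s / max (1 - s) δ` and `chi m s / √(max s δ * max (1 - s) δ)`).
-/

set_option autoImplicit false

noncomputable section

namespace Pool.Agent.VNQ

/-- the cut-off logarithm of `(1 - s) / s` -/
def ell (m : ℕ) (s : ℝ) : ℝ :=
  Real.log (max (1 - s) (1 / ((m : ℝ) + 2))) - Real.log (max s (1 / ((m : ℝ) + 2)))

/-- the cut-off function -/
def chi (m : ℕ) (s : ℝ) : ℝ :=
  max 0 (min 1 (((m : ℝ) + 2) * s - 1)) * max 0 (min 1 (((m : ℝ) + 2) * (1 - s) - 1))

private theorem delta_pos (m : ℕ) : (0 : ℝ) < 1 / ((m : ℝ) + 2) := by positivity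

private theorem aux {c s d : ℝ} (h0 : 0 ≤ c) (h1 : c ≤ 1) (hs0 : 0 ≤ s) (hs1 : s ≤ 1)
    (h : s ≤ d ∨ 1 - s ≤ d) : |(c - 1) * (s * (1 - s))| ≤ d := by
  have h2 : |c - 1| ≤ 1 := abs_le.2 ⟨by linarith, by linarith⟩
  have h3 : 0 ≤ s * (1 - s) := mul_nonneg hs0 (by linarith)
  have h4 : s * (1 - s) ≤ d := by
    rcases h with h | h
    · nlinarith
    · nlinarith
  rw [abs_mul, abs_of_nonneg h3]
  calc |c - 1| * (s * (1 - s)) ≤ 1 * (s * (1 - s)) := mul_le_mul_of_nonneg_right h2 h3
    _ ≤ d := by linarith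

theorem continuous_ell (m : ℕ) : Continuous (ell m) := by
  have hδ := delta_pos m
  unfold ell
  refine Continuous.sub (Continuous.log (by fun_prop) fun s => ?_)
    (Continuous.log (by fun_prop) fun s => ?_)
  · exact (hδ.trans_le (le_max_right _ _)).ne'
  · exact (hδ.trans_le (le_max_right _ _)).ne'

theorem continuous_chi (m : ℕ) : Continuous (chi m) := by
  unfold chi
  fun_prop

theorem ell_symm (m : ℕ) (s : ℝ) : ell m (1 - s) = -ell m s := by
  rw [ell, ell, sub_sub_cancel]
  ring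

theorem chi_symm (m : ℕ) (s : ℝ) : chi m (1 - s) = chi m s := by
  rw [chi, chi, sub_sub_cancel, mul_comm]

theorem chi_nonneg (m : ℕ) (s : ℝ) : 0 ≤ chi m s := mul_nonneg (le_max_left _ _) (le_max_left _ _)

theorem chi_le_one (m : ℕ) (s : ℝ) : chi m s ≤ 1 :=
  mul_le_one₀ (max_le zero_le_one (min_le_left _ _)) (le_max_left _ _)
    (max_le zero_le_one (min_le_left _ _))

/-- the support of `chi m` -/
theorem chi_ne_zero {m : ℕ} {s : ℝ} (h : chi m s ≠ 0) :
    1 / ((m : ℝ) + 2) < s ∧ 1 / ((m : ℝ) + 2) < 1 - s := by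
  have hm : (0 : ℝ) < (m : ℝ) + 2 := by positivity
  have h1 := left_ne_zero_of_mul h
  have h2 := right_ne_zero_of_mul h
  constructor
  · by_contra hc
    apply h1
    rw [not_lt, le_div_iff₀ hm] at hc
    apply max_eq_left
    exact (min_le_right _ _).trans (by linarith)
  · by_contra hc
    apply h2
    rw [not_lt, le_div_iff₀ hm] at hc
    apply max_eq_left
    exact (min_le_right _ _).trans (by linarith)

theorem ell_of_chi_ne_zero {m k : ℕ} (hmk : m ≤ k) {s : ℝ} (h : chi m s ≠ 0) :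
    ell k s = Real.log (1 - s) - Real.log s := by
  obtain ⟨h1, h2⟩ := chi_ne_zero h
  have hle : 1 / ((k : ℝ) + 2) ≤ 1 / ((m : ℝ) + 2) := by
    apply one_div_le_one_div_of_le (by positivity)
    have : (m : ℝ) ≤ k := by exact_mod_cast hmk
    linarith
  rw [ell, max_eq_left (hle.trans h2.le), max_eq_left (hle.trans h1.le)]

theorem chi_sub_one_le (m : ℕ) (s : ℝ) (hs : s ∈ Set.Icc (0 : ℝ) 1) :
    |(chi m s - 1) * (s * (1 - s))| ≤ 2 / ((m : ℝ) + 2) := by
  have hm : (0 : ℝ) < (m : ℝ) + 2 := by positivity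
  obtain ⟨hs0, hs1⟩ := hs
  have hδ : 0 ≤ 2 / ((m : ℝ) + 2) := by positivity
  by_cases h1 : 2 ≤ ((m : ℝ) + 2) * s
  · by_cases h2 : 2 ≤ ((m : ℝ) + 2) * (1 - s)
    · have : chi m s = 1 := by
        rw [chi, min_eq_left (by linarith), min_eq_left (by linarith)]
        norm_num
      rw [this]
      simpa using hδ
    · rw [not_le] at h2
      have h3 : 1 - s ≤ 2 / ((m : ℝ) + 2) := by
        rw [le_div_iff₀ hm]
        linarith
      exact aux (chi_nonneg m s) (chi_le_one m s) hs0 hs1 (Or.inr h3)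
  · rw [not_le] at h1
    have h3 : s ≤ 2 / ((m : ℝ) + 2) := by
      rw [le_div_iff₀ hm]
      linarith
    exact aux (chi_nonneg m s) (chi_le_one m s) hs0 hs1 (Or.inl h3)

theorem continuous_chi_div (m : ℕ) : Continuous fun s => chi m s / s := by
  have h : (fun s => chi m s / s) = fun s => chi m s / max s (1 / ((m : ℝ) + 2)) := by
    funext s
    by_cases h0 : chi m s = 0
    · rw [h0, zero_div, zero_div]
    · rw [max_eq_left (chi_ne_zero h0).1.le]
  rw [h]
  exact (continuous_chi m).div (by fun_prop) fun s =>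
    ((delta_pos m).trans_le (le_max_right _ _)).ne'

theorem continuous_chi_div_one_sub (m : ℕ) : Continuous fun s => chi m s / (1 - s) := by
  have h : (fun s => chi m s / (1 - s)) = fun s => chi m s / max (1 - s) (1 / ((m : ℝ) + 2)) := by
    funext s
    by_cases h0 : chi m s = 0
    · rw [h0, zero_div, zero_div]
    · rw [max_eq_left (chi_ne_zero h0).2.le]
  rw [h]
  exact (continuous_chi m).div (by fun_prop) fun s =>
    ((delta_pos m).trans_le (le_max_right _ _)).ne'

theorem continuous_chi_div_sqrt (m : ℕ) : Continuous fun s => chi m s / √(s * (1 - s)) := by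
  have h : (fun s => chi m s / √(s * (1 - s))) = fun s => chi m s /
      √(max s (1 / ((m : ℝ) + 2)) * max (1 - s) (1 / ((m : ℝ) + 2))) := by
    funext s
    by_cases h0 : chi m s = 0
    · rw [h0, zero_div, zero_div]
    · rw [max_eq_left (chi_ne_zero h0).1.le, max_eq_left (chi_ne_zero h0).2.le]
  rw [h]
  refine (continuous_chi m).div (by fun_prop) fun s => ?_
  have h1 := (delta_pos m).trans_le (le_max_right s _)
  have h2 := (delta_pos m).trans_le (le_max_right (1 - s) _)
  exact (Real.sqrt_pos.2 (mul_pos h1 h2)).ne'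

end Pool.Agent.VNQ
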