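import Pool.Agent.VNQ.FCJ
import Pool.Agent.VNQ.CutS

/-!
# The cut-off logarithm

`ell m s = log (max (1 - s) δ) - log (max s δ)`, `δ = 1 / (m + 2)`; `chi m` is a continuous function
with values in `[0,1]`, zero unless `s > δ` and `1 - s > δ`, with `chi m s = 1` if
`s ≥ 2δ` and `1 - s ≥ 2δ`, and `chi m (1 - s) = chi m s`, `ell m (1 - s) = - ell m s`.
`B m = ell m (A)`, `X m = chi m (A)`.

Facts (all elementary; use the files `FC`, `FCJ`, `CutS`):
* `norm_X_le`; `X_symm`, `B_symm` (self-adjoint, `F_symm`).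
* `X_tendsto`: `X_m x → x`. For `x = A (y - A y)`: `(X_m - 1) A (1 - A) = g(A)` with
  `g(s) = (chi m s - 1) s (1 - s)`, and `|g| ≤ 2/(m+2)` on `[0,1]` (if `chi m s ≠ 1` then `s < 2δ`
  or
  `1 - s < 2δ`). These `x` are dense (`A` and `1 - A` have dense range: `dense_range_A`,
  `dense_range_one_sub`, `A` is continuous) and `‖X_m‖ ≤ 1`.
* `A_exp_X`: `A exp(B_m) X_m = X_m - A X_m`: on the support of `chi m`,
  `s exp(log(1-s) - log s) = 1 - s` (`F_exp`, `F_mul`, `F_congr`).
* `BX_eq`: `B_k X_m = B_m X_m` for `m ≤ k` (`F_mul`, `F_congr`: `ell k = ell m` where `chi m ≠ 0`).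
* `exp_X_eq`: `exp(z B_k) X_m = exp(z B_m) X_m` for `m ≤ k`, `z ∈ ℂ`: let `D = B_k - B_m`, `D X_m =
0`,
  `B_k` and `B_m` commute, `exp(z B_k) = exp(z B_m) exp(z D)` (`NormedSpace.exp_add_of_commute`) and
  `exp(z D) X_m = X_m`: (all terms of the exponential series except the first vanish:
  `NormedSpace.exp_eq_tsum`, `(z D)^j X_m = 0` for `j ≥ 1`).
* `B_comm`, `X_comm`: everything commutes (`F_mul` and commutativity of `ℝ`), and with a `T` which
  commutes with `A` (`F_comm`).
* `C_B`: `C (B_m x) = - B_m (C x)`, `C_X`: `C (X_m x) = X_m (C x)` (`C_F`).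
* `W m = w(A)`, `w(s) = chi m s / s` if `chi m s ≠ 0` (division by zero gives zero: `w` is
continuous
  on `ℝ` because `chi m s = 0` for `s ≤ δ`): `A (W_m x) = X_m x`.
-/

set_option autoImplicit false

noncomputable section

open scoped InnerProductSpace InnerProduct
open Filter

namespace Pool.Agent.VNQ

universe u

variable {E : Type u} [NormedAddCommGroup E] [InnerProductSpace ℂ E] [CompleteSpace E]

namespace MD

variable (md : MD E)

/-- the cut-off logarithm -/
def B (m : ℕ) : E →L[ℂ] E := md.F (ell m)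

/-- the cut-off operator -/
def X (m : ℕ) : E →L[ℂ] E := md.F (chi m)

/-- `chi m (A) / A` -/
def W (m : ℕ) : E →L[ℂ] E := md.F fun s => chi m s / s

private theorem cell (m : ℕ) : ContinuousOn (ell m) (Set.Icc 0 1) :=
  (continuous_ell m).continuousOn

private theorem cchi (m : ℕ) : ContinuousOn (chi m) (Set.Icc 0 1) :=
  (continuous_chi m).continuousOn

private theorem cdiv (m : ℕ) : ContinuousOn (fun s => chi m s / s) (Set.Icc 0 1) :=
  (continuous_chi_div m).continuousOn

private theorem FF {f g : ℝ → ℝ} (hf : ContinuousOn f (Set.Icc 0 1))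
    (hg : ContinuousOn g (Set.Icc 0 1)) (x : E) :
    md.F f (md.F g x) = md.F (fun s => f s * g s) x := by
  rw [md.F_mul hf hg]
  rfl

private theorem FF_comm {f g : ℝ → ℝ} (hf : ContinuousOn f (Set.Icc 0 1))
    (hg : ContinuousOn g (Set.Icc 0 1)) (x : E) :
    md.F f (md.F g x) = md.F g (md.F f x) := by
  rw [FF md hf hg, FF md hg hf]
  simp only [mul_comm]

private theorem A_eq (x : E) : md.A x = md.F (fun s => s) x := by rw [md.F_id]

private theorem AF_comm {g : ℝ → ℝ} (hg : ContinuousOn g (Set.Icc 0 1)) (x : E) :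
    md.A (md.F g x) = md.F g (md.A x) := by
  rw [A_eq, A_eq]
  exact FF_comm md continuousOn_id hg x

/-- the exponential fixes the kernel -/
private theorem exp_fix (T : E →L[ℂ] E) (y : E) (h : T y = 0) : NormedSpace.exp T y = y := by
  have h1 := NormedSpace.exp_series_hasSum_exp' (𝕂 := ℂ) T
  have h2 := (ContinuousLinearMap.apply ℂ E y).hasSum h1
  have h3 : HasSum (fun n : ℕ => (ContinuousLinearMap.apply ℂ E y)
      (((n.factorial : ℂ)⁻¹) • T ^ n)) y := by
    have h4 := hasSum_single (f := fun n : ℕ => (ContinuousLinearMap.apply ℂ E y)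
      (((n.factorial : ℂ)⁻¹) • T ^ n)) 0 (by
        intro n hn
        obtain ⟨k, rfl⟩ := Nat.exists_eq_succ_of_ne_zero hn
        simp [pow_succ, h])
    simpa using h4
  exact h2.unique h3

theorem norm_X_le (m : ℕ) : ‖md.X m‖ ≤ 1 := by
  refine md.norm_F_le (cchi m) zero_le_one fun s _ => ?_
  rw [abs_of_nonneg (chi_nonneg m s)]
  exact chi_le_one m s

private theorem X_sub (m : ℕ) (y : E) :
    md.X m (md.A (y - md.A y)) - md.A (y - md.A y) =
      md.F (fun s => (chi m s - 1) * (s * (1 - s))) y := by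
  have c1 : ContinuousOn (fun s : ℝ => chi m s - 1) (Set.Icc 0 1) :=
    (cchi m).sub continuousOn_const
  have c2 : ContinuousOn (fun s : ℝ => s) (Set.Icc 0 1) := continuousOn_id
  have c3 : ContinuousOn (fun s : ℝ => 1 - s) (Set.Icc 0 1) :=
    continuousOn_const.sub continuousOn_id
  have c5 : ContinuousOn (fun s : ℝ => s * (1 - s)) (Set.Icc 0 1) := c2.mul c3
  rw [← FF md c1 c5, ← FF md c2 c3, md.F_id, md.F_one_sub]
  have e1 : md.F (fun s => chi m s - 1) = md.X m - ContinuousLinearMap.id ℂ E := by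
    have e2 : (fun s => chi m s - 1) = fun s => chi m s + (-1) * 1 := by
      funext s
      ring
    rw [e2, md.F_add (cchi m) continuousOn_const,
      md.F_smul (f := fun _ => 1) continuousOn_const (-1), md.F_one]
    simp only [Complex.ofReal_neg, Complex.ofReal_one, neg_smul, one_smul]
    rw [← sub_eq_add_neg]
    rfl
  rw [e1]
  simp

theorem X_tendsto (x : E) : Tendsto (fun m => md.X m x) atTop (nhds x) := by
  have hd : DenseRange (md.A ∘ fun x => x - md.A x) :=
    md.dense_range_A.comp md.dense_range_one_sub md.A.continuous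
  have hz : ∀ y : E, Tendsto (fun m => md.X m (md.A (y - md.A y))) atTop
      (nhds (md.A (y - md.A y))) := by
    intro y
    rw [tendsto_iff_norm_sub_tendsto_zero]
    have h1 : Tendsto (fun m : ℕ => 2 / ((m : ℝ) + 2) * ‖y‖) atTop (nhds 0) := by
      have h2 : Tendsto (fun m : ℕ => 2 / ((m : ℝ) + 2)) atTop (nhds 0) :=
        tendsto_const_nhds.div_atTop
          (tendsto_atTop_add_const_right _ _ tendsto_natCast_atTop_atTop)
      simpa using h2.mul_const ‖y‖
    refine squeeze_zero (fun m => norm_nonneg _) (fun m => ?_) h1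
    rw [X_sub]
    refine (ContinuousLinearMap.le_opNorm _ _).trans ?_
    refine mul_le_mul_of_nonneg_right ?_ (norm_nonneg _)
    refine md.norm_F_le ?_ (by positivity) fun s hs => chi_sub_one_le m s hs
    exact ((cchi m).sub continuousOn_const).mul
      (continuousOn_id.mul (continuousOn_const.sub continuousOn_id))
  rw [Metric.tendsto_atTop]
  intro ε hε
  obtain ⟨y, hy⟩ := hd.exists_dist_lt x (by positivity : (0 : ℝ) < ε / 3)
  simp only [Function.comp] at hy
  obtain ⟨N, hN⟩ := (Metric.tendsto_atTop.1 (hz y)) (ε / 3) (by positivity)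
  refine ⟨N, fun m hm => ?_⟩
  have h1 : dist (md.X m x) (md.X m (md.A (y - md.A y))) ≤ dist x (md.A (y - md.A y)) := by
    rw [dist_eq_norm, dist_eq_norm, ← map_sub]
    refine (ContinuousLinearMap.le_opNorm _ _).trans ?_
    have := mul_le_mul_of_nonneg_right (md.norm_X_le m) (norm_nonneg (x - md.A (y - md.A y)))
    rwa [one_mul] at this
  calc dist (md.X m x) x
      ≤ dist (md.X m x) (md.X m (md.A (y - md.A y))) +
        dist (md.X m (md.A (y - md.A y))) (md.A (y - md.A y)) +
        dist (md.A (y - md.A y)) x := dist_triangle4 _ _ _ _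
    _ < ε / 3 + ε / 3 + ε / 3 := by
        have h2 := hN m hm
        rw [dist_comm (md.A (y - md.A y)) x]
        linarith
    _ = ε := by ring

theorem X_symm (m : ℕ) (x y : E) : ⟪md.X m x, y⟫_ℂ = ⟪x, md.X m y⟫_ℂ := md.F_symm _ x y

theorem B_symm (m : ℕ) (x y : E) : ⟪md.B m x, y⟫_ℂ = ⟪x, md.B m y⟫_ℂ := md.F_symm _ x y

theorem A_exp_X (m : ℕ) (x : E) :
    md.A (NormedSpace.exp (md.B m) (md.X m x)) = md.X m x - md.A (md.X m x) := by
  have c2 : ContinuousOn (fun s : ℝ => s) (Set.Icc 0 1) := continuousOn_id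
  have c3 : ContinuousOn (fun s : ℝ => 1 - s) (Set.Icc 0 1) :=
    continuousOn_const.sub continuousOn_id
  have c4 : ContinuousOn (fun s : ℝ => Real.exp (ell m s)) (Set.Icc 0 1) :=
    Real.continuous_exp.comp_continuousOn (cell m)
  have e1 : NormedSpace.exp (md.B m) = md.F (fun s => Real.exp (ell m s)) :=
    (md.F_exp (cell m)).symm
  have e2 : md.X m x - md.A (md.X m x) = md.F (fun s => 1 - s) (md.F (chi m) x) := by
    rw [md.F_one_sub]
    rfl
  rw [e1, e2, A_eq]
  unfold X
  have c5 : ContinuousOn (fun s : ℝ => Real.exp (ell m s) * chi m s) (Set.Icc 0 1) :=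
    c4.mul (cchi m)
  rw [FF md c4 (cchi m), FF md c2 c5, FF md c3 (cchi m)]
  congr 1
  apply md.F_congr
  intro s _
  show s * (Real.exp (ell m s) * chi m s) = (1 - s) * chi m s
  by_cases h : chi m s = 0
  · rw [h, mul_zero, mul_zero, mul_zero]
  · obtain ⟨h1, h2⟩ := chi_ne_zero h
    have hp : (0 : ℝ) < 1 / ((m : ℝ) + 2) := by positivity
    have s0 : 0 < s := hp.trans h1
    have s1 : 0 < 1 - s := hp.trans h2
    rw [ell_of_chi_ne_zero le_rfl h, Real.exp_sub, Real.exp_log s1, Real.exp_log s0]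
    field_simp

theorem exp_X_eq {m k : ℕ} (hmk : m ≤ k) (z : ℂ) (x : E) :
    NormedSpace.exp (z • md.B k) (md.X m x) = NormedSpace.exp (z • md.B m) (md.X m x) := by
  have hBX : md.B k (md.X m x) = md.B m (md.X m x) := by
    unfold B X
    rw [FF md (cell k) (cchi m), FF md (cell m) (cchi m)]
    congr 1
    apply md.F_congr
    intro s _
    show ell k s * chi m s = ell m s * chi m s
    by_cases h : chi m s = 0
    · rw [h, mul_zero, mul_zero]
    · rw [ell_of_chi_ne_zero hmk h, ell_of_chi_ne_zero le_rfl h]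
  have hcomm : Commute (md.B m) (md.B k) := by
    ext y
    exact FF_comm md (cell m) (cell k) y
  have hsplit : z • md.B k = z • md.B m + z • (md.B k - md.B m) := by
    rw [← smul_add, add_sub_cancel]
  have hc2 : Commute (z • md.B m) (z • (md.B k - md.B m)) :=
    ((hcomm.sub_right (Commute.refl _)).smul_left z).smul_right z
  let _ : NormedAlgebra ℚ (E →L[ℂ] E) := NormedAlgebra.restrictScalars ℚ ℂ _
  rw [hsplit, NormedSpace.exp_add_of_commute hc2]
  rw [mul_apply_eq_comp, exp_fix (z • (md.B k - md.B m))]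
  simp [hBX]

theorem X_X (m k : ℕ) (x : E) : md.X m (md.X k x) = md.X k (md.X m x) :=
  FF_comm md (cchi m) (cchi k) x

theorem X_B (m k : ℕ) (x : E) : md.X m (md.B k x) = md.B k (md.X m x) :=
  FF_comm md (cchi m) (cell k) x

theorem A_X (m : ℕ) (x : E) : md.A (md.X m x) = md.X m (md.A x) :=
  AF_comm md (cchi m) x

theorem A_B (m : ℕ) (x : E) : md.A (md.B m x) = md.B m (md.A x) :=
  AF_comm md (cell m) x

theorem C_B (m : ℕ) (x : E) : md.C (md.B m x) = -md.B m (md.C x) := by
  unfold B
  rw [md.C_F (cell m)]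
  have e : (fun s => ell m (1 - s)) = fun s => (-1) * ell m s := by
    funext s
    rw [ell_symm]
    ring
  rw [e, md.F_smul (cell m)]
  simp

theorem C_X (m : ℕ) (x : E) : md.C (md.X m x) = md.X m (md.C x) := by
  unfold X
  rw [md.C_F (cchi m)]
  simp only [chi_symm]

private theorem chi_div_mul (m : ℕ) (s : ℝ) : s * (chi m s / s) = chi m s := by
  by_cases h : s = 0
  · have h1 : chi m s = 0 := by
      by_contra h2
      have h3 := (chi_ne_zero h2).1
      have hp : (0 : ℝ) < 1 / ((m : ℝ) + 2) := by positivity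
      rw [h] at h3
      linarith
    rw [h1, h]
    simp
  · field_simp

theorem A_W (m : ℕ) (x : E) : md.A (md.W m x) = md.X m x := by
  unfold W X
  have c2 : ContinuousOn (fun s : ℝ => s) (Set.Icc 0 1) := continuousOn_id
  rw [A_eq, FF md c2 (cdiv m)]
  simp only [chi_div_mul]

theorem W_A (m : ℕ) (x : E) : md.W m (md.A x) = md.X m x := by
  rw [← md.A_W]
  exact (AF_comm md (cdiv m) x).symm

theorem W_X (m k : ℕ) (x : E) : md.W m (md.X k x) = md.X k (md.W m x) :=
  FF_comm md (cdiv m) (cchi k) x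

theorem W_B (m k : ℕ) (x : E) : md.W m (md.B k x) = md.B k (md.W m x) :=
  FF_comm md (cdiv m) (cell k) x

/-- `chi m (A) → 1`: everything is determined on the ranges of the `X m`. -/
theorem ext_X {F' : Type*} [NormedAddCommGroup F'] {f g : E → F'} (hf : Continuous f)
    (hg : Continuous g) (h : ∀ m x, f (md.X m x) = g (md.X m x)) (x : E) : f x = g x := by
  have h1 := (hf.tendsto x).comp (md.X_tendsto x)
  have h2 := (hg.tendsto x).comp (md.X_tendsto x)
  refine tendsto_nhds_unique h1 ?_
  have h3 : f ∘ (fun m => md.X m x) = g ∘ fun m => md.X m x := by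
    funext m
    exact h m x
  rw [h3]
  exact h2

end MD

end Pool.Agent.VNQ
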