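import Pool.Agent.VNQ.Pairs

/-!
# Basic properties of the relation `DP`

* `DP_smul`: from families `p_j, q_j` for `(x, x₁)` (with `ε / (‖c‖ + 1)`) take `c p_j, q_j`:
  `Δ(c p_j)(tmul ξ (q_j† η)) = c Δ(p_j)(tmul ξ (q_j† η))` (`Q.smul`) and
  `Δ(q_j)(tmul ξ ((c p_j)† η)) = c̄ Δ(q_j)(tmul ξ (p_j† η))` (`tmul_smul`).
* `DP_add`: concatenate the families (`Fin.append`, `Fin.sum_univ_add`, or reindex
  `Fin m ⊕ Fin m'`), with `ε/2`.
* `DP_closed`: if for every `δ > 0` there is `(x', x₁')` with `DP x' x₁'`, `‖x - x'‖ < δ`,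
  `‖x₁ - x₁'‖ < δ` then `DP x x₁`: `‖tmul (x ξ_k) η_k - tmul (x' ξ_k) η_k‖ ≤ ‖x - x'‖ ‖ξ_k‖ ‖η_k‖`.
* `DP_of_hasSum`: if `p_k, q_k ∈ M` (`k ∈ κ`, any index type) with
  `∑_k Δ(p_k)(tmul ξ (q_k† η)) = tmul (x ξ) η` and `∑_k Δ(q_k)(tmul ξ (p_k† η)) = tmul (x₁ ξ) η`
  (unconditional sums)
  for
  all `ξ, η ∈ H` then `DP x x₁`: for the finitely many pairs `(ξ_k, η_k)` choose a finite set of
  indices good for all (`HasSum` is convergence along the finite sets, `Filter.Eventually.and`,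
  `eventually_all`), and reindex it by `Fin m` (`Finset.equivFin`, `Finset.sum_equiv`).
* `Fin`-reindexing lemma: for a finite set `s : Finset κ` and families `p, q` on `κ`:
  `∃ m (p' q' : Fin m → _), (∀ j, ∃ k, p' j = p k ∧ q' j = q k) ∧ ∀ F, ∑ j, F (p' j) (q' j) =
  ∑ k ∈ s, F (p k) (q k)`.
* `DP_of_finset`: to prove `DP x x₁` one may use finite families indexed by a finite set of any
type.
-/

set_option autoImplicit false

noncomputable section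

open scoped TensorProduct InnerProductSpace InnerProduct ENNReal
open Filter

namespace Pool.Agent.VNQ

universe u

variable {H G : Type u} [NormedAddCommGroup H] [InnerProductSpace ℂ H] [CompleteSpace H]
  [NormedAddCommGroup G] [InnerProductSpace ℂ G] [CompleteSpace G]

namespace QG

variable (Q : QG H G)

theorem DP_smul {x x₁ : H →L[ℂ] H} (h : Q.DP x x₁) (c : ℂ) :
    Q.DP (c • x) ((starRingEnd ℂ) c • x₁) := by
  intro ε hε n ξ η
  have hc : 0 < ‖c‖ + 1 := by positivity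
  obtain ⟨m, p, q, hp, hq, hk⟩ := h (ε / (‖c‖ + 1)) (div_pos hε hc) n ξ η
  have key : ∀ (d : ℂ), ‖d‖ = ‖c‖ → ∀ v : HTen H H, ‖v‖ < ε / (‖c‖ + 1) → ‖d • v‖ < ε := by
    intro d hd v hv
    rw [norm_smul, hd]
    have h1 : ‖c‖ * ‖v‖ ≤ ‖c‖ * (ε / (‖c‖ + 1)) :=
      mul_le_mul_of_nonneg_left hv.le (norm_nonneg c)
    have h2 : ‖c‖ * (ε / (‖c‖ + 1)) < ε := by
      rw [mul_div_assoc', div_lt_iff₀ hc]
      nlinarith [norm_nonneg c]
    exact h1.trans_lt h2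
  refine ⟨m, fun j => c • p j, q, fun j => smul_mem' c (hp j), hq, fun k => ⟨?_, ?_⟩⟩
  · have h1 : tmul ((c • x) (ξ k)) (η k) - ∑ j, Q.Δ (c • p j) (tmul (ξ k) (((q j)†) (η k))) =
        c • (tmul (x (ξ k)) (η k) - ∑ j, Q.Δ (p j) (tmul (ξ k) (((q j)†) (η k)))) := by
      rw [smul_sub, Finset.smul_sum, _root_.smul_apply, smul_tmul]
      congr 1
      refine Finset.sum_congr rfl fun j _ => ?_
      rw [Q.smul c _ (hp j)]
      rfl
    rw [h1]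
    exact key c rfl _ (hk k).1
  · have h1 : tmul (((starRingEnd ℂ) c • x₁) (ξ k)) (η k) -
        ∑ j, Q.Δ (q j) (tmul (ξ k) (((c • p j)†) (η k))) =
        (starRingEnd ℂ) c • (tmul (x₁ (ξ k)) (η k) - ∑ j, Q.Δ (q j) (tmul (ξ k) (((p j)†) (η k)))) := by
      rw [smul_sub, Finset.smul_sum, _root_.smul_apply, smul_tmul]
      congr 1
      refine Finset.sum_congr rfl fun j _ => ?_
      have h2 : (c • p j)† = (starRingEnd ℂ) c • (p j)† :=
        ContinuousLinearMap.adjoint.map_smulₛₗ c (p j)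
      rw [h2, _root_.smul_apply, tmul_smul, map_smul]
    rw [h1]
    exact key _ (RCLike.norm_conj c) _ (hk k).2

theorem DP_add {x x₁ y y₁ : H →L[ℂ] H} (h : Q.DP x x₁) (h' : Q.DP y y₁) :
    Q.DP (x + y) (x₁ + y₁) := by
  intro ε hε n ξ η
  obtain ⟨m, p, q, hp, hq, hk⟩ := h (ε / 2) (half_pos hε) n ξ η
  obtain ⟨m', p', q', hp', hq', hk'⟩ := h' (ε / 2) (half_pos hε) n ξ η
  refine ⟨m + m', Fin.append p p', Fin.append q q', ?_, ?_, fun k => ⟨?_, ?_⟩⟩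
  · intro j
    refine Fin.addCases (fun i => ?_) (fun i => ?_) j
    · rw [Fin.append_left]; exact hp i
    · rw [Fin.append_right]; exact hp' i
  · intro j
    refine Fin.addCases (fun i => ?_) (fun i => ?_) j
    · rw [Fin.append_left]; exact hq i
    · rw [Fin.append_right]; exact hq' i
  · rw [Fin.sum_univ_add]
    simp only [Fin.append_left, Fin.append_right]
    have h1 : tmul ((x + y) (ξ k)) (η k) - (∑ i, Q.Δ (p i) (tmul (ξ k) (((q i)†) (η k))) +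
        ∑ i, Q.Δ (p' i) (tmul (ξ k) (((q' i)†) (η k)))) =
        (tmul (x (ξ k)) (η k) - ∑ i, Q.Δ (p i) (tmul (ξ k) (((q i)†) (η k)))) +
        (tmul (y (ξ k)) (η k) - ∑ i, Q.Δ (p' i) (tmul (ξ k) (((q' i)†) (η k)))) := by
      rw [_root_.add_apply, add_tmul]
      abel
    rw [h1]
    refine (norm_add_le _ _).trans_lt ?_
    linarith [(hk k).1, (hk' k).1]
  · rw [Fin.sum_univ_add]
    simp only [Fin.append_left, Fin.append_right]
    have h1 : tmul ((x₁ + y₁) (ξ k)) (η k) - (∑ i, Q.Δ (q i) (tmul (ξ k) (((p i)†) (η k))) +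
        ∑ i, Q.Δ (q' i) (tmul (ξ k) (((p' i)†) (η k)))) =
        (tmul (x₁ (ξ k)) (η k) - ∑ i, Q.Δ (q i) (tmul (ξ k) (((p i)†) (η k)))) +
        (tmul (y₁ (ξ k)) (η k) - ∑ i, Q.Δ (q' i) (tmul (ξ k) (((p' i)†) (η k)))) := by
      rw [_root_.add_apply, add_tmul]
      abel
    rw [h1]
    refine (norm_add_le _ _).trans_lt ?_
    linarith [(hk k).2, (hk' k).2]

theorem DP_closed {x x₁ : H →L[ℂ] H}
    (h : ∀ δ > 0, ∃ x' x₁' : H →L[ℂ] H, Q.DP x' x₁' ∧ ‖x - x'‖ < δ ∧ ‖x₁ - x₁'‖ < δ) :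
    Q.DP x x₁ := by
  intro ε hε n ξ η
  obtain ⟨C, hC⟩ : ∃ C : ℝ, C = ∑ k, ‖ξ k‖ * ‖η k‖ := ⟨_, rfl⟩
  have hC0 : 0 ≤ C := by rw [hC]; positivity
  have hCk : ∀ k, ‖ξ k‖ * ‖η k‖ ≤ C := by
    intro k
    rw [hC]
    exact Finset.single_le_sum (f := fun k => ‖ξ k‖ * ‖η k‖) (fun i _ => by positivity)
      (Finset.mem_univ k)
  obtain ⟨x', x₁', hD, hx, hx₁⟩ := h (ε / (2 * (C + 1))) (by positivity)
  obtain ⟨m, p, q, hp, hq, hk⟩ := hD (ε / 2) (half_pos hε) n ξ η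
  have key : ∀ (y y' : H →L[ℂ] H) (k : Fin n) (v : HTen H H), ‖y - y'‖ < ε / (2 * (C + 1)) →
      ‖tmul (y' (ξ k)) (η k) - v‖ < ε / 2 → ‖tmul (y (ξ k)) (η k) - v‖ < ε := by
    intro y y' k v hy hv
    have h1 : tmul (y (ξ k)) (η k) - v = tmul ((y - y') (ξ k)) (η k) + (tmul (y' (ξ k)) (η k) - v) := by
      rw [_root_.sub_apply, sub_tmul]
      abel
    have h2 : ‖tmul ((y - y') (ξ k)) (η k)‖ ≤ ε / 2 := by
      rw [norm_tmul]
      have h3 : ‖(y - y') (ξ k)‖ ≤ ‖y - y'‖ * ‖ξ k‖ := (y - y').le_opNorm _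
      calc ‖(y - y') (ξ k)‖ * ‖η k‖ ≤ (‖y - y'‖ * ‖ξ k‖) * ‖η k‖ :=
            mul_le_mul_of_nonneg_right h3 (norm_nonneg _)
        _ = ‖y - y'‖ * (‖ξ k‖ * ‖η k‖) := by ring
        _ ≤ (ε / (2 * (C + 1))) * C := by
            refine mul_le_mul hy.le (hCk k) (by positivity) (by positivity)
        _ ≤ ε / 2 := by
            rw [div_mul_eq_mul_div, div_le_div_iff₀ (by positivity) (by norm_num)]
            nlinarith
    rw [h1]
    refine (norm_add_le _ _).trans_lt ?_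
    linarith
  exact ⟨m, p, q, hp, hq, fun k => ⟨key x x' k _ hx (hk k).1, key x₁ x₁' k _ hx₁ (hk k).2⟩⟩

theorem DP_of_hasSum {κ : Type*} (p q : κ → H →L[ℂ] H) (hp : ∀ k, p k ∈ Q.M)
    (hq : ∀ k, q k ∈ Q.M) (x x₁ : H →L[ℂ] H)
    (h : ∀ ξ η, HasSum (fun k => Q.Δ (p k) (tmul ξ (((q k)†) η))) (tmul (x ξ) η))
    (h₁ : ∀ ξ η, HasSum (fun k => Q.Δ (q k) (tmul ξ (((p k)†) η))) (tmul (x₁ ξ) η)) : Q.DP x x₁ := by
  classical
  intro ε hε n ξ η
  have key : ∀ {f : κ → HTen H H} {a : HTen H H}, HasSum f a →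
      ∀ᶠ s : Finset κ in atTop, ‖a - ∑ k ∈ s, f k‖ < ε := by
    intro f a hf
    have h1 := (Metric.tendsto_nhds.1 hf) ε hε
    refine h1.mono fun s hs => ?_
    rw [dist_eq_norm] at hs
    rw [norm_sub_rev]
    exact hs
  have h2 : ∀ᶠ s : Finset κ in atTop, ∀ k : Fin n,
      ‖tmul (x (ξ k)) (η k) - ∑ j ∈ s, Q.Δ (p j) (tmul (ξ k) (((q j)†) (η k)))‖ < ε ∧
      ‖tmul (x₁ (ξ k)) (η k) - ∑ j ∈ s, Q.Δ (q j) (tmul (ξ k) (((p j)†) (η k)))‖ < ε := by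
    rw [eventually_all]
    exact fun k => (key (h (ξ k) (η k))).and (key (h₁ (ξ k) (η k)))
  obtain ⟨s, hs⟩ := h2.exists
  have hre : ∀ f : κ → HTen H H, ∑ j : Fin s.card, f (s.equivFin.symm j : κ) = ∑ k ∈ s, f k := by
    intro f
    rw [Equiv.sum_comp s.equivFin.symm fun x : s => f x]
    exact Finset.sum_coe_sort s f
  refine ⟨s.card, fun j => p (s.equivFin.symm j : κ), fun j => q (s.equivFin.symm j : κ),
    fun j => hp _, fun j => hq _, fun k => ⟨?_, ?_⟩⟩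
  · rw [hre fun j => Q.Δ (p j) (tmul (ξ k) (((q j)†) (η k)))]
    exact (hs k).1
  · rw [hre fun j => Q.Δ (q j) (tmul (ξ k) (((p j)†) (η k)))]
    exact (hs k).2

end QG

end Pool.Agent.VNQ
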