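import Pool.Agent.VNQ.RepQ
import Pool.Agent.VNQ.DPB

/-!
# Basic properties of the relation `DPair` on `H`

The same statements and proofs as in the file `DPB` (`DP_smul`, `DP_add`, `DP_closed`,
`DP_of_hasSum` for `QG`), here for `VNQGroup` and `DPair` (`star` is `†` by definition). Copy the
proofs from `DPB.lean`. `DPair_zero`: take `m = 0`.
-/

set_option autoImplicit false

noncomputable section

open scoped TensorProduct InnerProductSpace InnerProduct ENNReal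
open Filter

namespace Pool.Agent.VNQ

universe u

variable {H K : Type u} [NormedAddCommGroup H] [InnerProductSpace ℂ H] [CompleteSpace H]
  [NormedAddCommGroup K] [InnerProductSpace ℂ K] [CompleteSpace K]

namespace VNQGroup

variable (Q : VNQGroup H K)

private def DPG_DP (x x₁ : H →L[ℂ] H) : Prop :=
  ∀ ε > 0, ∀ (n : ℕ) (ξ η : Fin n → H), ∃ (m : ℕ) (p q : Fin m → H →L[ℂ] H),
    (∀ j, p j ∈ Q.M) ∧ (∀ j, q j ∈ Q.M) ∧ ∀ k,
      ‖tmul (x (ξ k)) (η k) - ∑ j, Q.Δ (p j) (tmul (ξ k) (((q j)†) (η k)))‖ < ε ∧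
      ‖tmul (x₁ (ξ k)) (η k) - ∑ j, Q.Δ (q j) (tmul (ξ k) (((p j)†) (η k)))‖ < ε

private theorem DPG_smul {x x₁ : H →L[ℂ] H} (h : DPG_DP Q x x₁) (c : ℂ) :
    DPG_DP Q (c • x) ((starRingEnd ℂ) c • x₁) := by
  intro ε hε n ξ η
  have hc : 0 < ‖c‖ + 1 := by positivity
  obtain ⟨m, p, q, hp, hq, hk⟩ := h (ε / (‖c‖ + 1)) (div_pos hε hc) n ξ η
  have key : ∀ (d : ℂ), ‖d‖ = ‖c‖ → ∀ v : HTen H H, ‖v‖ < ε / (‖c‖ + 1) → ‖d • v‖ < ε := by
    intro d hd v hv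
    rw [norm_smul, hd]
    have h1 : ‖c‖ * ‖v‖ ≤ ‖c‖ * (ε / (‖c‖ + 1)) :=
      mul_le_mul_of_nonneg_left hv.le (norm_nonneg c)
    have h2 : ‖c‖ * (ε / (‖c‖ + 1)) < ε := by
      rw [mul_div_assoc', div_lt_iff₀ hc]
      nlinarith [norm_nonneg c]
    exact h1.trans_lt h2
  refine ⟨m, fun j => c • p j, q, fun j => smul_mem' c (hp j), hq, fun k => ⟨?_, ?_⟩⟩
  · have h1 : tmul ((c • x) (ξ k)) (η k) - ∑ j, Q.Δ (c • p j) (tmul (ξ k) (((q j)†) (η k))) =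
        c • (tmul (x (ξ k)) (η k) - ∑ j, Q.Δ (p j) (tmul (ξ k) (((q j)†) (η k)))) := by
      rw [smul_sub, Finset.smul_sum, _root_.smul_apply, smul_tmul]
      congr 1
      refine Finset.sum_congr rfl fun j _ => ?_
      rw [Q.map_smul c _ (hp j)]
      rfl
    rw [h1]
    exact key c rfl _ (hk k).1
  · have h1 : tmul (((starRingEnd ℂ) c • x₁) (ξ k)) (η k) -
        ∑ j, Q.Δ (q j) (tmul (ξ k) (((c • p j)†) (η k))) =
        (starRingEnd ℂ) c • (tmul (x₁ (ξ k)) (η k) - ∑ j, Q.Δ (q j) (tmul (ξ k) (((p j)†) (η k)))) := by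
      rw [smul_sub, Finset.smul_sum, _root_.smul_apply, smul_tmul]
      congr 1
      refine Finset.sum_congr rfl fun j _ => ?_
      have h2 : (c • p j)† = (starRingEnd ℂ) c • (p j)† :=
        ContinuousLinearMap.adjoint.map_smulₛₗ c (p j)
      rw [h2, _root_.smul_apply, tmul_smul, _root_.map_smul]
    rw [h1]
    exact key _ (RCLike.norm_conj c) _ (hk k).2

private theorem DPG_add {x x₁ y y₁ : H →L[ℂ] H} (h : DPG_DP Q x x₁) (h' : DPG_DP Q y y₁) :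
    DPG_DP Q (x + y) (x₁ + y₁) := by
  intro ε hε n ξ η
  obtain ⟨m, p, q, hp, hq, hk⟩ := h (ε / 2) (half_pos hε) n ξ η
  obtain ⟨m', p', q', hp', hq', hk'⟩ := h' (ε / 2) (half_pos hε) n ξ η
  refine ⟨m + m', Fin.append p p', Fin.append q q', ?_, ?_, fun k => ⟨?_, ?_⟩⟩
  · intro j
    refine Fin.addCases (fun i => ?_) (fun i => ?_) j
    · rw [Fin.append_left]; exact hp i
    · rw [Fin.append_right]; exact hp' i
  · intro j
    refine Fin.addCases (fun i => ?_) (fun i => ?_) j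
    · rw [Fin.append_left]; exact hq i
    · rw [Fin.append_right]; exact hq' i
  · rw [Fin.sum_univ_add]
    simp only [Fin.append_left, Fin.append_right]
    have h1 : tmul ((x + y) (ξ k)) (η k) - (∑ i, Q.Δ (p i) (tmul (ξ k) (((q i)†) (η k))) +
        ∑ i, Q.Δ (p' i) (tmul (ξ k) (((q' i)†) (η k)))) =
        (tmul (x (ξ k)) (η k) - ∑ i, Q.Δ (p i) (tmul (ξ k) (((q i)†) (η k)))) +
        (tmul (y (ξ k)) (η k) - ∑ i, Q.Δ (p' i) (tmul (ξ k) (((q' i)†) (η k)))) := by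
      rw [_root_.add_apply, add_tmul]
      abel
    rw [h1]
    refine (norm_add_le _ _).trans_lt ?_
    linarith [(hk k).1, (hk' k).1]
  · rw [Fin.sum_univ_add]
    simp only [Fin.append_left, Fin.append_right]
    have h1 : tmul ((x₁ + y₁) (ξ k)) (η k) - (∑ i, Q.Δ (q i) (tmul (ξ k) (((p i)†) (η k))) +
        ∑ i, Q.Δ (q' i) (tmul (ξ k) (((p' i)†) (η k)))) =
        (tmul (x₁ (ξ k)) (η k) - ∑ i, Q.Δ (q i) (tmul (ξ k) (((p i)†) (η k)))) +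
        (tmul (y₁ (ξ k)) (η k) - ∑ i, Q.Δ (q' i) (tmul (ξ k) (((p' i)†) (η k)))) := by
      rw [_root_.add_apply, add_tmul]
      abel
    rw [h1]
    refine (norm_add_le _ _).trans_lt ?_
    linarith [(hk k).2, (hk' k).2]

private theorem DPG_closed {x x₁ : H →L[ℂ] H}
    (h : ∀ δ > 0, ∃ x' x₁' : H →L[ℂ] H, DPG_DP Q x' x₁' ∧ ‖x - x'‖ < δ ∧ ‖x₁ - x₁'‖ < δ) :
    DPG_DP Q x x₁ := by
  intro ε hε n ξ η
  obtain ⟨C, hC⟩ : ∃ C : ℝ, C = ∑ k, ‖ξ k‖ * ‖η k‖ := ⟨_, rfl⟩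
  have hC0 : 0 ≤ C := by rw [hC]; positivity
  have hCk : ∀ k, ‖ξ k‖ * ‖η k‖ ≤ C := by
    intro k
    rw [hC]
    exact Finset.single_le_sum (f := fun k => ‖ξ k‖ * ‖η k‖) (fun i _ => by positivity)
      (Finset.mem_univ k)
  obtain ⟨x', x₁', hD, hx, hx₁⟩ := h (ε / (2 * (C + 1))) (by positivity)
  obtain ⟨m, p, q, hp, hq, hk⟩ := hD (ε / 2) (half_pos hε) n ξ η
  have key : ∀ (y y' : H →L[ℂ] H) (k : Fin n) (v : HTen H H), ‖y - y'‖ < ε / (2 * (C + 1)) →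
      ‖tmul (y' (ξ k)) (η k) - v‖ < ε / 2 → ‖tmul (y (ξ k)) (η k) - v‖ < ε := by
    intro y y' k v hy hv
    have h1 : tmul (y (ξ k)) (η k) - v = tmul ((y - y') (ξ k)) (η k) + (tmul (y' (ξ k)) (η k) - v) := by
      rw [_root_.sub_apply, sub_tmul]
      abel
    have h2 : ‖tmul ((y - y') (ξ k)) (η k)‖ ≤ ε / 2 := by
      rw [norm_tmul]
      have h3 : ‖(y - y') (ξ k)‖ ≤ ‖y - y'‖ * ‖ξ k‖ := (y - y').le_opNorm _
      calc ‖(y - y') (ξ k)‖ * ‖η k‖ ≤ (‖y - y'‖ * ‖ξ k‖) * ‖η k‖ :=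
            mul_le_mul_of_nonneg_right h3 (norm_nonneg _)
        _ = ‖y - y'‖ * (‖ξ k‖ * ‖η k‖) := by ring
        _ ≤ (ε / (2 * (C + 1))) * C := by
            refine mul_le_mul hy.le (hCk k) (by positivity) (by positivity)
        _ ≤ ε / 2 := by
            rw [div_mul_eq_mul_div, div_le_div_iff₀ (by positivity) (by norm_num)]
            nlinarith
    rw [h1]
    refine (norm_add_le _ _).trans_lt ?_
    linarith
  exact ⟨m, p, q, hp, hq, fun k => ⟨key x x' k _ hx (hk k).1, key x₁ x₁' k _ hx₁ (hk k).2⟩⟩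

private theorem DPG_of_hasSum {κ : Type*} (p q : κ → H →L[ℂ] H) (hp : ∀ k, p k ∈ Q.M)
    (hq : ∀ k, q k ∈ Q.M) (x x₁ : H →L[ℂ] H)
    (h : ∀ ξ η, HasSum (fun k => Q.Δ (p k) (tmul ξ (((q k)†) η))) (tmul (x ξ) η))
    (h₁ : ∀ ξ η, HasSum (fun k => Q.Δ (q k) (tmul ξ (((p k)†) η))) (tmul (x₁ ξ) η)) : DPG_DP Q x x₁ := by
  classical
  intro ε hε n ξ η
  have key : ∀ {f : κ → HTen H H} {a : HTen H H}, HasSum f a →
      ∀ᶠ s : Finset κ in atTop, ‖a - ∑ k ∈ s, f k‖ < ε := by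
    intro f a hf
    have h1 := (Metric.tendsto_nhds.1 hf) ε hε
    refine h1.mono fun s hs => ?_
    rw [dist_eq_norm] at hs
    rw [norm_sub_rev]
    exact hs
  have h2 : ∀ᶠ s : Finset κ in atTop, ∀ k : Fin n,
      ‖tmul (x (ξ k)) (η k) - ∑ j ∈ s, Q.Δ (p j) (tmul (ξ k) (((q j)†) (η k)))‖ < ε ∧
      ‖tmul (x₁ (ξ k)) (η k) - ∑ j ∈ s, Q.Δ (q j) (tmul (ξ k) (((p j)†) (η k)))‖ < ε := by
    rw [eventually_all]
    exact fun k => (key (h (ξ k) (η k))).and (key (h₁ (ξ k) (η k)))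
  obtain ⟨s, hs⟩ := h2.exists
  have hre : ∀ f : κ → HTen H H, ∑ j : Fin s.card, f (s.equivFin.symm j : κ) = ∑ k ∈ s, f k := by
    intro f
    rw [Equiv.sum_comp s.equivFin.symm fun x : s => f x]
    exact Finset.sum_coe_sort s f
  refine ⟨s.card, fun j => p (s.equivFin.symm j : κ), fun j => q (s.equivFin.symm j : κ),
    fun j => hp _, fun j => hq _, fun k => ⟨?_, ?_⟩⟩
  · rw [hre fun j => Q.Δ (p j) (tmul (ξ k) (((q j)†) (η k)))]
    exact (hs k).1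
  · rw [hre fun j => Q.Δ (q j) (tmul (ξ k) (((p j)†) (η k)))]
    exact (hs k).2

theorem DPair_zero : Q.DPair 0 0 := by
  intro ε hε n ξ η
  refine ⟨0, fun _ => 0, fun _ => 0, fun j => j.elim0, fun j => j.elim0, fun k => ?_⟩
  have h1 : tmul ((0 : H →L[ℂ] H) (ξ k)) (η k) = 0 := by
    rw [← norm_eq_zero, norm_tmul, _root_.zero_apply, norm_zero, zero_mul]
  simp only [h1, Finset.univ_eq_empty, Finset.sum_empty, sub_zero, norm_zero]
  exact ⟨hε, hε⟩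

theorem DPair_smul {x x₁ : H →L[ℂ] H} (h : Q.DPair x x₁) (c : ℂ) :
    Q.DPair (c • x) ((starRingEnd ℂ) c • x₁) :=
  DPG_smul Q (x := x) (x₁ := x₁) h c

theorem DPair_add {x x₁ y y₁ : H →L[ℂ] H} (h : Q.DPair x x₁) (h' : Q.DPair y y₁) :
    Q.DPair (x + y) (x₁ + y₁) :=
  DPG_add Q (x := x) (x₁ := x₁) (y := y) (y₁ := y₁) h h'

theorem DPair_closed {x x₁ : H →L[ℂ] H}
    (h : ∀ δ > 0, ∃ x' x₁' : H →L[ℂ] H, Q.DPair x' x₁' ∧ ‖x - x'‖ < δ ∧ ‖x₁ - x₁'‖ < δ) :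
    Q.DPair x x₁ :=
  DPG_closed Q (x := x) (x₁ := x₁) h

theorem DPair_of_hasSum {κ : Type*} (p q : κ → H →L[ℂ] H) (hp : ∀ k, p k ∈ Q.M)
    (hq : ∀ k, q k ∈ Q.M) (x x₁ : H →L[ℂ] H)
    (h : ∀ ξ η, HasSum (fun k => Q.Δ (p k) (tmul ξ (((q k)†) η))) (tmul (x ξ) η))
    (h₁ : ∀ ξ η, HasSum (fun k => Q.Δ (q k) (tmul ξ (((p k)†) η))) (tmul (x₁ ξ) η)) :
    Q.DPair x x₁ :=
  DPG_of_hasSum Q p q hp hq x x₁ h h₁

end VNQGroup

end Pool.Agent.VNQ
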