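import Pool.Agent.VNQ.StepCa
import Pool.Agent.VNQ.DPB

/-!
# The pairs `(x_{u,v}, x_{v,u})`

`QG.DP_x`: `DP (x_{u,v}) (x_{v,u})` for all `u, v ∈ G`.

Proof. (i) For `u = Λ_φ a`, `v = Λ_φ b`: choose a Hilbert basis `f` of `H` and use `DP_of_hasSum`
with
`p_k = s_k(a)†`, `q_k = s_k(b)†` (`κ = l × Q.φ.ι`; `sr_mem`, `adj_mem`): the first sum is `stepC`
for
`(a, b)` (`q_k† = s_k(b)`, `ContinuousLinearMap.adjoint_adjoint`), the second is `stepC` for `(b,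
a)`.
(ii) General `u, v`: `DP_closed`: given `δ`, choose `a, b ∈ N_φ` with `Λ_φ a`, `Λ_φ b` close to `u`,
`v`
(`denseRange_Λl` or `induction_Λ`), and
`‖x_{u,v} - x_{u',v'}‖ ≤ ‖x_{u - u', v}‖ + ‖x_{u', v - v'}‖ ≤ ‖u - u'‖ ‖v‖ + ‖u'‖ ‖v - v'‖`
(`x_sub_left`, `x_sub_right`, `norm_x_le`).
-/

set_option autoImplicit false

noncomputable section

open scoped TensorProduct InnerProductSpace InnerProduct ENNReal
open Filter

namespace Pool.Agent.VNQ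

universe u

variable {H G : Type u} [NormedAddCommGroup H] [InnerProductSpace ℂ H] [CompleteSpace H]
  [NormedAddCommGroup G] [InnerProductSpace ℂ G] [CompleteSpace G]

namespace QG

variable (Q : QG H G)

private theorem DP_x_Λ {a b : H →L[ℂ] H} (ha : a ∈ Q.φ.N) (hb : b ∈ Q.φ.N) :
    Q.DP (Q.x (Q.φ.Λ a) (Q.φ.Λ b)) (Q.x (Q.φ.Λ b) (Q.φ.Λ a)) := by
  obtain ⟨l, f, _⟩ := exists_hilbertBasis ℂ H
  refine Q.DP_of_hasSum (κ := l × Q.φ.ι) (fun k => (Q.sr (f k.1) (Q.φ.z k.2) a)†)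
    (fun k => (Q.sr (f k.1) (Q.φ.z k.2) b)†) (fun k => adj_mem (Q.sr_mem _ _ ha.1))
    (fun k => adj_mem (Q.sr_mem _ _ hb.1)) _ _ (fun ξ η => ?_) (fun ξ η => ?_)
  · simpa only [ContinuousLinearMap.adjoint_adjoint] using Q.stepC f ha hb ξ η
  · simpa only [ContinuousLinearMap.adjoint_adjoint] using Q.stepC f hb ha ξ η

private theorem x_close {u v u' v' : G} {r δ : ℝ} (hr1 : r ≤ 1)
    (hu : ‖u - u'‖ < r) (hv : ‖v - v'‖ < r) (h : r * (‖u‖ + ‖v‖ + 1) < δ) :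
    ‖Q.x u v - Q.x u' v'‖ < δ := by
  have e : Q.x u v - Q.x u' v' = Q.x (u - u') v + Q.x u' (v - v') := by
    rw [Q.x_sub_left, Q.x_sub_right]
    abel
  have h1 : ‖Q.x (u - u') v‖ ≤ r * ‖v‖ :=
    (Q.norm_x_le _ _).trans (mul_le_mul_of_nonneg_right hu.le (norm_nonneg _))
  have h2 : ‖u'‖ ≤ ‖u‖ + 1 := by
    have h3 : ‖u'‖ ≤ ‖u‖ + ‖u - u'‖ := by
      have h4 := norm_sub_norm_le u' u
      rw [norm_sub_rev] at h4
      linarith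
    linarith
  have h3 : ‖Q.x u' (v - v')‖ ≤ (‖u‖ + 1) * r :=
    (Q.norm_x_le _ _).trans (mul_le_mul h2 hv.le (norm_nonneg _) (by positivity))
  rw [e]
  calc ‖Q.x (u - u') v + Q.x u' (v - v')‖ ≤ r * ‖v‖ + (‖u‖ + 1) * r :=
        (norm_add_le _ _).trans (add_le_add h1 h3)
    _ = r * (‖u‖ + ‖v‖ + 1) := by ring
    _ < δ := h

theorem DP_x (u v : G) : Q.DP (Q.x u v) (Q.x v u) := by
  refine Q.DP_closed fun δ hδ => ?_
  have hC : 0 < ‖u‖ + ‖v‖ + 1 := by positivity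
  have hr : 0 < min 1 (δ / (2 * (‖u‖ + ‖v‖ + 1))) :=
    lt_min one_pos (div_pos hδ (by positivity))
  set r := min 1 (δ / (2 * (‖u‖ + ‖v‖ + 1))) with hrd
  have hr1 : r ≤ 1 := min_le_left _ _
  have hrC : r * (‖u‖ + ‖v‖ + 1) < δ := by
    have h1 : r ≤ δ / (2 * (‖u‖ + ‖v‖ + 1)) := min_le_right _ _
    rw [le_div_iff₀ (by positivity)] at h1
    linarith
  have happ : ∀ g : G, ∃ a ∈ Q.φ.N, ‖g - Q.φ.Λ a‖ < r := by
    intro g
    obtain ⟨a, ha⟩ := Metric.denseRange_iff.1 Q.φ.denseRange_Λl g r hr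
    refine ⟨a, a.2, ?_⟩
    rw [← dist_eq_norm]
    exact ha
  obtain ⟨a, ha, hau⟩ := happ u
  obtain ⟨b, hb, hbv⟩ := happ v
  refine ⟨_, _, Q.DP_x_Λ ha hb, Q.x_close hr1 hau hbv hrC, Q.x_close hr1 hbv hau ?_⟩
  rw [add_comm ‖v‖ ‖u‖]
  exact hrC

end QG

end Pool.Agent.VNQ
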