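import Pool.Agent.VNQ.DPG
import Pool.Agent.VNQ.StepCb

/-!
# The pairs `(x_{u,v}, x_{v,u})` on `H`

Let `Q' : QG K G` be the internal form of the quantum group `π(M)` on `K`: `Q'.M = π(M)`,
`Q'.Δ(π(m)) = Δ(m)_K`. Then `Q.DPair (inv x_{u,v}) (inv x_{v,u})` for all `u, v ∈ G`.

Proof. (i) `u = Λ_φ a`, `v = Λ_φ b`, `a, b ∈ Q'.φ.N`. Let `f` be a Hilbert basis of `K` and
`s_k(a) = Q'.sr (f l) (z_j) a ∈ π(M)` (`sr_mem`), `k = (l, j)`, `t_k(a) = inv s_k(a) ∈ M`. Let `S_n : H → K`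
be as in `exists_S`. For `ξ ∈ H`: `∑_k ‖t_k(a) ξ‖² = ∑_k ∑_n ‖S_n t_k(a) ξ‖²
= ∑_n ∑_k ‖s_k(a) S_n ξ‖² = ∑_n ‖Λ_φ a‖² ‖S_n ξ‖² = ‖Λ_φ a‖² ‖ξ‖²` (`S_π`, `π_inv`, `hasSum_s`;
nonnegative terms). By `Q.lemN_const`: `∑_k ‖Δ(t_k(a)) β‖² = ‖Λ_φ a‖² ‖β‖²` for `β ∈ H ⊗ H`.
Hence (`summable_adjoint` with `A_k = Δ(t_k(a))`, `A_k† = Δ(t_k(a)†)` (`Δ_adj`), `C = ‖Λ_φ a‖²`,
`v_k = ξ ⊗ t_k(b) η`, `∑ ‖v_k‖² = ‖ξ‖² ‖Λ_φ b‖² ‖η‖²`) the sum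
`σ = ∑_k Δ(t_k(a)†) (ξ ⊗ t_k(b) η)` converges in `H ⊗ H`. For indices `n, n'`:
`(S_n ⊗ S_{n'}) Δ(m) θ = Δ(m)_K (S_n ⊗ S_{n'}) θ = Q'.Δ(π(m)) (S_n ⊗ S_{n'}) θ` (`tr_adj_comm` with
`T = S_n†`, `T' = S_{n'}†`, `ContinuousLinearMap.adjoint_adjoint`), so
`(S_n ⊗ S_{n'}) σ = ∑_k Q'.Δ(s_k(a)†) (S_n ξ ⊗ s_k(b) S_{n'} η) = x_{u,v} S_n ξ ⊗ S_{n'} η`
(`stepC`; `π(t_k(a)†) = s_k(a)†` by `π_adj`, `S_{n'} t_k(b) = s_k(b) S_{n'}` by `S_π`)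
`= (S_n ⊗ S_{n'}) (inv(x_{u,v}) ξ ⊗ η)`. The operators `S_n ⊗ S_{n'}` are jointly injective
(`S_n ⊗ S_{n'} = (1 ⊗ S_{n'}) (S_n ⊗ 1)`, `ext_mapT_left`, `ext_mapT_right`), so
`σ = inv(x_{u,v}) ξ ⊗ η`. Now apply `DPair_of_hasSum` with `p_k = t_k(a)†`, `q_k = t_k(b)†` (for the
second sum exchange `a` and `b`).
(ii) General `u, v`: `DPair_closed`: choose `a, b` with `Λ_φ a`, `Λ_φ b` close to `u`, `v`
(`Q'.φ.denseRange_Λl`), `‖inv x_{u,v} - inv x_{u',v'}‖ ≤ ‖x_{u,v} - x_{u',v'}‖` (`inv_sub`,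
`norm_inv_le`) and the estimate `x_close` in `StepCb.lean` (private there; copy it):
`‖x_{u,v} - x_{u',v'}‖ ≤ ‖u - u'‖ ‖v‖ + ‖u'‖ ‖v - v'‖`.
-/

set_option autoImplicit false

noncomputable section

open scoped TensorProduct InnerProductSpace InnerProduct ENNReal
open Filter

namespace Pool.Agent.VNQ

universe u

variable {H K G : Type u} [NormedAddCommGroup H] [InnerProductSpace ℂ H] [CompleteSpace H]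
  [NormedAddCommGroup K] [InnerProductSpace ℂ K] [CompleteSpace K]
  [NormedAddCommGroup G] [InnerProductSpace ℂ G] [CompleteSpace G]

private theorem dph_swap {α β : Type*} {F : α → β → ℝ} (hF : ∀ a b, 0 ≤ F a b)
    {g : α → ℝ} {g' : β → ℝ} {c : ℝ} (h1 : ∀ a, HasSum (F a) (g a)) (h2 : HasSum g c)
    (h3 : ∀ b, HasSum (fun a => F a b) (g' b)) : HasSum g' c := by
  have hs : Summable (fun p : α × β => F p.1 p.2) := by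
    refine (summable_prod_of_nonneg (fun p => hF p.1 p.2)).mpr ⟨fun k => (h1 k).summable, ?_⟩
    have : (fun k => ∑' i, F k i) = g := funext fun k => (h1 k).tsum_eq
    rw [show (fun x => ∑' y, F (x, y).1 (x, y).2) = g from this]
    exact h2.summable
  obtain ⟨S, hS⟩ := hs
  have h4 : HasSum g S := hS.prod_fiberwise h1
  have h5 : HasSum (fun x : β × α => F x.2 x.1) S := (Equiv.prodComm β α).hasSum_iff.2 hS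
  have h6 : HasSum g' S := h5.prod_fiberwise h3
  rwa [h4.unique h2] at h6

private theorem dph_close (Q : QG K G) {u v u' v' : G} {r δ : ℝ} (hr1 : r ≤ 1)
    (hu : ‖u - u'‖ < r) (hv : ‖v - v'‖ < r) (h : r * (‖u‖ + ‖v‖ + 1) < δ) :
    ‖Q.x u v - Q.x u' v'‖ < δ := by
  have e : Q.x u v - Q.x u' v' = Q.x (u - u') v + Q.x u' (v - v') := by
    rw [Q.x_sub_left, Q.x_sub_right]
    abel
  have h1 : ‖Q.x (u - u') v‖ ≤ r * ‖v‖ :=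
    (Q.norm_x_le _ _).trans (mul_le_mul_of_nonneg_right hu.le (norm_nonneg _))
  have h2 : ‖u'‖ ≤ ‖u‖ + 1 := by
    have h3 : ‖u'‖ ≤ ‖u‖ + ‖u - u'‖ := by
      have h4 := norm_sub_norm_le u' u
      rw [norm_sub_rev] at h4
      linarith
    linarith
  have h3 : ‖Q.x u' (v - v')‖ ≤ (‖u‖ + 1) * r :=
    (Q.norm_x_le _ _).trans (mul_le_mul h2 hv.le (norm_nonneg _) (by positivity))
  rw [e]
  calc ‖Q.x (u - u') v + Q.x u' (v - v')‖ ≤ r * ‖v‖ + (‖u‖ + 1) * r :=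
        (norm_add_le _ _).trans (add_le_add h1 h3)
    _ = r * (‖u‖ + ‖v‖ + 1) := by ring
    _ < δ := h

namespace VNQGroup

variable (Q : VNQGroup H K) (R : Rep Q.M K)

private theorem dph_t (Q' : QG K G) (hM : Q'.M = R.vn) {l : Type*} (f : HilbertBasis l ℂ K)
    {a : K →L[ℂ] K} (ha : a ∈ Q'.φ.N) (ξ : H) :
    HasSum (fun k : l × Q'.φ.ι => ‖R.inv (Q'.sr (f k.1) (Q'.φ.z k.2) a) ξ‖ ^ 2)
      (‖Q'.φ.Λ a‖ ^ 2 * ‖ξ‖ ^ 2) := by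
  obtain ⟨ν, S, hSi, hS⟩ := R.exists_S
  have hvn : ∀ k : l × Q'.φ.ι, Q'.sr (f k.1) (Q'.φ.z k.2) a ∈ R.vn := fun k =>
    hM ▸ Q'.sr_mem _ _ ha.1
  refine dph_swap (F := fun (n : ν) (k : l × Q'.φ.ι) =>
    ‖Q'.sr (f k.1) (Q'.φ.z k.2) a (S n ξ)‖ ^ 2) (fun _ _ => sq_nonneg _)
    (fun n => Q'.hasSum_s f ha (S n ξ)) ((hS ξ).mul_left _) fun k => ?_
  have h := hS (R.inv (Q'.sr (f k.1) (Q'.φ.z k.2) a) ξ)
  have e : (fun n => ‖S n (R.inv (Q'.sr (f k.1) (Q'.φ.z k.2) a) ξ)‖ ^ 2) =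
      fun n => ‖Q'.sr (f k.1) (Q'.φ.z k.2) a (S n ξ)‖ ^ 2 := funext fun n => by
    rw [R.S_π (hSi n) (R.inv_mem (hvn k)), R.π_inv (hvn k)]
  rwa [e] at h

private theorem dph_Δ (Q' : QG K G) (hΔ : ∀ m ∈ Q.M, Q'.Δ (R.π m) = R.tr (Q.Δ m))
    {S S' : H →L[ℂ] K} (hS : R.Int (S†)) (hS' : R.Int (S'†)) {m : H →L[ℂ] H} (hm : m ∈ Q.M)
    (θ : HTen H H) : mapT S S' (Q.Δ m θ) = Q'.Δ (R.π m) (mapT S S' θ) := by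
  have h := R.tr_adj_comm (Q.Δ_comm2 hm) hS hS' θ
  rw [ContinuousLinearMap.adjoint_adjoint, ContinuousLinearMap.adjoint_adjoint] at h
  rw [hΔ m hm, h]

private theorem dph_sum (Q' : QG K G) (hM : Q'.M = R.vn)
    (hΔ : ∀ m ∈ Q.M, Q'.Δ (R.π m) = R.tr (Q.Δ m)) {l : Type*} (f : HilbertBasis l ℂ K)
    {a b : K →L[ℂ] K} (ha : a ∈ Q'.φ.N) (hb : b ∈ Q'.φ.N) (ξ η : H) :
    HasSum (fun k : l × Q'.φ.ι => Q.Δ ((R.inv (Q'.sr (f k.1) (Q'.φ.z k.2) a))†)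
        (tmul ξ (R.inv (Q'.sr (f k.1) (Q'.φ.z k.2) b) η)))
      (tmul (R.inv (Q'.x (Q'.φ.Λ a) (Q'.φ.Λ b)) ξ) η) := by
  have hva : ∀ k : l × Q'.φ.ι, Q'.sr (f k.1) (Q'.φ.z k.2) a ∈ R.vn := fun k =>
    hM ▸ Q'.sr_mem _ _ ha.1
  have hvb : ∀ k : l × Q'.φ.ι, Q'.sr (f k.1) (Q'.φ.z k.2) b ∈ R.vn := fun k =>
    hM ▸ Q'.sr_mem _ _ hb.1
  have hvx : Q'.x (Q'.φ.Λ a) (Q'.φ.Λ b) ∈ R.vn := hM ▸ Q'.x_mem _ _
  have hta : ∀ k : l × Q'.φ.ι, R.inv (Q'.sr (f k.1) (Q'.φ.z k.2) a) ∈ Q.M := fun k =>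
    R.inv_mem (hva k)
  have hA : ∀ β, ∀ t : Finset (l × Q'.φ.ι),
      ∑ k ∈ t, ‖Q.Δ (R.inv (Q'.sr (f k.1) (Q'.φ.z k.2) a)) β‖ ^ 2 ≤
        ‖Q'.φ.Λ a‖ ^ 2 * ‖β‖ ^ 2 :=
    fun β t => sum_le_hasSum t (fun _ _ => sq_nonneg _)
      (Q.lemN_const _ hta _ (fun ξ' => dph_t Q R Q' hM f ha ξ') β)
  have hv : Summable fun k : l × Q'.φ.ι =>
      ‖tmul ξ (R.inv (Q'.sr (f k.1) (Q'.φ.z k.2) b) η)‖ ^ 2 := by
    have h := (dph_t Q R Q' hM f hb η).summable.mul_left (‖ξ‖ ^ 2)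
    refine h.congr fun k => ?_
    rw [norm_tmul, mul_pow]
  obtain ⟨σ, hσ, -, -⟩ := summable_adjoint
    (fun k : l × Q'.φ.ι => Q.Δ (R.inv (Q'.sr (f k.1) (Q'.φ.z k.2) a))) (‖Q'.φ.Λ a‖ ^ 2)
    (sq_nonneg _) hA
    (fun k : l × Q'.φ.ι => tmul ξ (R.inv (Q'.sr (f k.1) (Q'.φ.z k.2) b) η)) hv
  have hadj : ∀ k : l × Q'.φ.ι, (Q.Δ (R.inv (Q'.sr (f k.1) (Q'.φ.z k.2) a)))† =
      Q.Δ ((R.inv (Q'.sr (f k.1) (Q'.φ.z k.2) a))†) := fun k => (Q.Δ_adj (hta k)).symm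
  simp only [hadj] at hσ
  suffices hs : σ = tmul (R.inv (Q'.x (Q'.φ.Λ a) (Q'.φ.Λ b)) ξ) η by
    rw [← hs]
    exact hσ
  obtain ⟨ν, S, hSi, hS⟩ := R.exists_S
  refine ext_mapT_left S hS fun n => ext_mapT_right S hS fun n' => ?_
  rw [mapT_comp_apply, mapT_comp_apply, ContinuousLinearMap.id_comp, ContinuousLinearMap.comp_id]
  have h1 := (mapT (S n) (S n')).hasSum hσ
  have h2 := Q'.stepC f ha hb (S n ξ) (S n' η)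
  have e : (fun k : l × Q'.φ.ι => mapT (S n) (S n')
      (Q.Δ ((R.inv (Q'.sr (f k.1) (Q'.φ.z k.2) a))†)
        (tmul ξ (R.inv (Q'.sr (f k.1) (Q'.φ.z k.2) b) η)))) =
      fun k : l × Q'.φ.ι => Q'.Δ ((Q'.sr (f k.1) (Q'.φ.z k.2) a)†)
        (tmul (S n ξ) (Q'.sr (f k.1) (Q'.φ.z k.2) b (S n' η))) := funext fun k => by
    rw [dph_Δ Q R Q' hΔ (hSi n) (hSi n') (adj_mem (hta k)), R.π_adj (hta k), R.π_inv (hva k),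
      mapT_tmul, R.S_π (hSi n') (R.inv_mem (hvb k)), R.π_inv (hvb k)]
  rw [e] at h1
  rw [h1.unique h2, mapT_tmul, R.S_π (hSi n) (R.inv_mem hvx), R.π_inv hvx]

private theorem dph_Λ (Q' : QG K G) (hM : Q'.M = R.vn)
    (hΔ : ∀ m ∈ Q.M, Q'.Δ (R.π m) = R.tr (Q.Δ m)) {a b : K →L[ℂ] K} (ha : a ∈ Q'.φ.N)
    (hb : b ∈ Q'.φ.N) : Q.DPair (R.inv (Q'.x (Q'.φ.Λ a) (Q'.φ.Λ b)))
      (R.inv (Q'.x (Q'.φ.Λ b) (Q'.φ.Λ a))) := by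
  obtain ⟨l, f, _⟩ := exists_hilbertBasis ℂ K
  refine Q.DPair_of_hasSum (κ := l × Q'.φ.ι)
    (fun k => (R.inv (Q'.sr (f k.1) (Q'.φ.z k.2) a))†)
    (fun k => (R.inv (Q'.sr (f k.1) (Q'.φ.z k.2) b))†)
    (fun k => adj_mem (R.inv_mem (hM ▸ Q'.sr_mem _ _ ha.1)))
    (fun k => adj_mem (R.inv_mem (hM ▸ Q'.sr_mem _ _ hb.1))) _ _ (fun ξ η => ?_) (fun ξ η => ?_)
  · simpa only [ContinuousLinearMap.adjoint_adjoint] using dph_sum Q R Q' hM hΔ f ha hb ξ η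
  · simpa only [ContinuousLinearMap.adjoint_adjoint] using dph_sum Q R Q' hM hΔ f hb ha ξ η

theorem dpH (Q' : QG K G) (hM : Q'.M = R.vn)
    (hΔ : ∀ m ∈ Q.M, Q'.Δ (R.π m) = R.tr (Q.Δ m)) (u v : G) :
    Q.DPair (R.inv (Q'.x u v)) (R.inv (Q'.x v u)) := by
  refine Q.DPair_closed fun δ hδ => ?_
  have hC : 0 < ‖u‖ + ‖v‖ + 1 := by positivity
  have hr : 0 < min 1 (δ / (2 * (‖u‖ + ‖v‖ + 1))) :=
    lt_min one_pos (div_pos hδ (by positivity))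
  set r := min 1 (δ / (2 * (‖u‖ + ‖v‖ + 1))) with hrd
  have hr1 : r ≤ 1 := min_le_left _ _
  have hrC : r * (‖u‖ + ‖v‖ + 1) < δ := by
    have h1 : r ≤ δ / (2 * (‖u‖ + ‖v‖ + 1)) := min_le_right _ _
    rw [le_div_iff₀ (by positivity)] at h1
    linarith
  have happ : ∀ g : G, ∃ a ∈ Q'.φ.N, ‖g - Q'.φ.Λ a‖ < r := by
    intro g
    obtain ⟨a, ha⟩ := Metric.denseRange_iff.1 Q'.φ.denseRange_Λl g r hr
    refine ⟨a, a.2, ?_⟩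
    rw [← dist_eq_norm]
    exact ha
  have hx : ∀ w w' : G, Q'.x w w' ∈ R.vn := fun w w' => hM ▸ Q'.x_mem _ _
  have hinv : ∀ {w w' z z' : G}, ‖Q'.x w w' - Q'.x z z'‖ < δ →
      ‖R.inv (Q'.x w w') - R.inv (Q'.x z z')‖ < δ := by
    intro w w' z z' h
    rw [← R.inv_sub (hx _ _) (hx _ _)]
    exact (R.norm_inv_le (sub_mem' (hx _ _) (hx _ _))).trans_lt h
  obtain ⟨a, ha, hau⟩ := happ u
  obtain ⟨b, hb, hbv⟩ := happ v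
  refine ⟨_, _, dph_Λ Q R Q' hM hΔ ha hb, hinv (dph_close Q' hr1 hau hbv hrC),
    hinv (dph_close Q' hr1 hbv hau ?_)⟩
  rw [add_comm ‖v‖ ‖u‖]
  exact hrC

end VNQGroup

end Pool.Agent.VNQ
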