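import Pool.Agent.VNQ.Pairs

/-!
# Elements of `𝒟` act on the graph of `K`

`QG.DP_KR`: `DP x x₁` and `KR ξ ξ₁` imply `KR (x ξ) (x₁ ξ₁)`.

Proof. Let `ε > 0` and `η_1, ..., η_n` be given. Apply `DP x x₁` with `ε/2` to the `2n` pairs
`(ξ, η_k)`, `(ξ₁, η_k)`: there are `a_i, b_i ∈ M` (`i < r`) with
`‖tmul (x ξ) η_k - ∑_i Δ(a_i)(tmul ξ (b_i† η_k))‖ < ε/2` and
`‖tmul (x₁ ξ₁) η_k - ∑_i Δ(b_i)(tmul ξ₁ (a_i† η_k))‖ < ε/2`. Apply `KR ξ ξ₁` with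
`ε' = ε / (2 (1 + ∑_i (‖a_i‖ + ‖b_i‖)))` to the vectors `b_i† η_k`, `a_i† η_k`: there are
`p_j, q_j ∈ N_ψ` with `‖tmul ξ (b_i† η_k) - V (∑tmul (_j Λ p_j) (q_j† b_i† η_k))‖ < ε'` and
`‖tmul ξ₁ (a_i† η_k) - V (∑tmul (_j Λ q_j) (p_j† a_i† η_k))‖ < ε'`. Since `Δ(a) V = V (a ⊗ 1)`
(`Δ_V`),
`Δ(a_i) V (∑tmul (_j Λ p_j) (q_j† b_i† η_k)) = V (∑tmul (_j a_i Λ p_j) ((b_i q_j)† η_k))
= V (∑_j Λtmul (a_i p_j) ((b_i q_j)† η_k))` (`ψ_act_Λ`), and similarly with the roles exchanged. So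
the
families `a_i p_j`, `b_i q_j` (index `(i, j)`, reindexed by `Fin (r m)`, `finProdFinEquiv`) are in
`N_ψ` (`Wt.mul_mem`) and satisfy
`‖tmul (x ξ) η_k - V (∑_{ij} Λtmul (a_i p_j) ((b_i q_j)† η_k))‖ < ε/2 + ∑_i ‖a_i‖ ε' ≤ ε`
(`norm_Δ_apply_le`), and similarly the other inequality.
-/

set_option autoImplicit false

noncomputable section

open scoped TensorProduct InnerProductSpace InnerProduct ENNReal
open Filter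

namespace Pool.Agent.VNQ

universe u

variable {H G : Type u} [NormedAddCommGroup H] [InnerProductSpace ℂ H] [CompleteSpace H]
  [NormedAddCommGroup G] [InnerProductSpace ℂ G] [CompleteSpace G]

namespace QG

variable (Q : QG H G)

private theorem KR_ft {ξ ξ₁ : H} (h : Q.KR ξ ξ₁) {ε : ℝ} (hε : 0 < ε) {κ : Type} [Fintype κ]
    (η : κ → H) : ∃ (m : ℕ) (p q : Fin m → H →L[ℂ] H),
      (∀ j, p j ∈ Q.ψ.N) ∧ (∀ j, q j ∈ Q.ψ.N) ∧ ∀ k,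
        ‖tmul ξ (η k) - Q.V (∑ j, tmul (Q.ψ.Λ (p j)) (((q j)†) (η k)))‖ < ε ∧
        ‖tmul ξ₁ (η k) - Q.V (∑ j, tmul (Q.ψ.Λ (q j)) (((p j)†) (η k)))‖ < ε := by
  obtain ⟨m, p, q, hp, hq, hk⟩ := h ε hε (Fintype.card κ) (fun i => η ((Fintype.equivFin κ).symm i))
  refine ⟨m, p, q, hp, hq, fun k => ?_⟩
  have := hk (Fintype.equivFin κ k)
  simpa only [Equiv.symm_apply_apply] using this

private theorem DP_ft {x x₁ : H →L[ℂ] H} (h : Q.DP x x₁) {ε : ℝ} (hε : 0 < ε) {κ : Type}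
    [Fintype κ] (ξ η : κ → H) : ∃ (m : ℕ) (p q : Fin m → H →L[ℂ] H),
      (∀ j, p j ∈ Q.M) ∧ (∀ j, q j ∈ Q.M) ∧ ∀ k,
        ‖tmul (x (ξ k)) (η k) - ∑ j, Q.Δ (p j) (tmul (ξ k) (((q j)†) (η k)))‖ < ε ∧
        ‖tmul (x₁ (ξ k)) (η k) - ∑ j, Q.Δ (q j) (tmul (ξ k) (((p j)†) (η k)))‖ < ε := by
  obtain ⟨m, p, q, hp, hq, hk⟩ := h ε hε (Fintype.card κ)
    (fun i => ξ ((Fintype.equivFin κ).symm i)) (fun i => η ((Fintype.equivFin κ).symm i))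
  refine ⟨m, p, q, hp, hq, fun k => ?_⟩
  have := hk (Fintype.equivFin κ k)
  simpa only [Equiv.symm_apply_apply] using this

private theorem one_side {r m : ℕ} {a b : Fin r → H →L[ℂ] H} {p q : Fin m → H →L[ℂ] H}
    (ha : ∀ i, a i ∈ Q.M) (hp : ∀ j, p j ∈ Q.ψ.N) {θ : HTen H H} {ξ η : H} {δ ε' : ℝ}
    (h1 : ‖θ - ∑ i, Q.Δ (a i) (tmul ξ (((b i)†) η))‖ < δ)
    (h2 : ∀ i, ‖tmul ξ (((b i)†) η) - Q.V (∑ j, tmul (Q.ψ.Λ (p j)) (((q j)†) (((b i)†) η)))‖ < ε')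
    (h3 : (∑ i, ‖a i‖) * ε' ≤ δ) :
    ‖θ - Q.V (∑ s : Fin (r * m), tmul (Q.ψ.Λ (a (finProdFinEquiv.symm s).1 ∘L
      p (finProdFinEquiv.symm s).2)) (((b (finProdFinEquiv.symm s).1 ∘L
        q (finProdFinEquiv.symm s).2)†) η))‖ < δ + δ := by
  have hV : Q.V (∑ s : Fin (r * m), tmul (Q.ψ.Λ (a (finProdFinEquiv.symm s).1 ∘L
      p (finProdFinEquiv.symm s).2)) (((b (finProdFinEquiv.symm s).1 ∘L
        q (finProdFinEquiv.symm s).2)†) η)) =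
      ∑ i, Q.Δ (a i) (Q.V (∑ j, tmul (Q.ψ.Λ (p j)) (((q j)†) (((b i)†) η)))) := by
    have e1 : ∑ s : Fin (r * m), tmul (Q.ψ.Λ (a (finProdFinEquiv.symm s).1 ∘L
        p (finProdFinEquiv.symm s).2)) (((b (finProdFinEquiv.symm s).1 ∘L
          q (finProdFinEquiv.symm s).2)†) η) =
        ∑ t : Fin r × Fin m, tmul (Q.ψ.Λ (a t.1 ∘L p t.2)) (((b t.1 ∘L q t.2)†) η) :=
      Equiv.sum_comp finProdFinEquiv.symm
        (fun t : Fin r × Fin m => tmul (Q.ψ.Λ (a t.1 ∘L p t.2)) (((b t.1 ∘L q t.2)†) η))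
    rw [e1, Fintype.sum_prod_type, map_sum]
    refine Finset.sum_congr rfl fun i _ => ?_
    rw [Q.Δ_V (ha i), map_sum (mapT (a i) (ContinuousLinearMap.id ℂ H))]
    refine congrArg Q.V (Finset.sum_congr rfl fun j _ => ?_)
    rw [mapT_tmul, ContinuousLinearMap.id_apply, Q.ψ_act_Λ (ha i) (hp j),
      ContinuousLinearMap.adjoint_comp]
    rfl
  rw [hV]
  have h4 : ‖∑ i, Q.Δ (a i) (tmul ξ (((b i)†) η)) -
      ∑ i, Q.Δ (a i) (Q.V (∑ j, tmul (Q.ψ.Λ (p j)) (((q j)†) (((b i)†) η))))‖ ≤ δ := by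
    rw [← Finset.sum_sub_distrib]
    refine (norm_sum_le _ _).trans (le_trans ?_ h3)
    rw [Finset.sum_mul]
    refine Finset.sum_le_sum fun i _ => ?_
    rw [← map_sub]
    exact (Q.norm_Δ_apply_le (ha i) _).trans
      (mul_le_mul_of_nonneg_left (h2 i).le (norm_nonneg _))
  calc ‖θ - ∑ i, Q.Δ (a i) (Q.V (∑ j, tmul (Q.ψ.Λ (p j)) (((q j)†) (((b i)†) η))))‖
      ≤ ‖θ - ∑ i, Q.Δ (a i) (tmul ξ (((b i)†) η))‖ + ‖∑ i, Q.Δ (a i) (tmul ξ (((b i)†) η)) -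
        ∑ i, Q.Δ (a i) (Q.V (∑ j, tmul (Q.ψ.Λ (p j)) (((q j)†) (((b i)†) η))))‖ :=
        norm_sub_le_norm_sub_add_norm_sub _ _ _
    _ < δ + δ := add_lt_add_of_lt_of_le h1 h4

theorem DP_KR {x x₁ : H →L[ℂ] H} (h : Q.DP x x₁) {ξ ξ₁ : H} (h' : Q.KR ξ ξ₁) :
    Q.KR (x ξ) (x₁ ξ₁) := by
  intro ε hε n η
  have hε2 : 0 < ε / 2 := half_pos hε
  obtain ⟨r, a, b, ha, hb, h1⟩ := Q.DP_ft h hε2 (κ := Fin n ⊕ Fin n)
    (Sum.elim (fun _ => ξ) fun _ => ξ₁) (Sum.elim η η)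
  have hC : 0 < 1 + (∑ i, ‖a i‖ + ∑ i, ‖b i‖) := by positivity
  have hε' : 0 < ε / 2 / (1 + (∑ i, ‖a i‖ + ∑ i, ‖b i‖)) := div_pos hε2 hC
  have hA : (∑ i, ‖a i‖) * (ε / 2 / (1 + (∑ i, ‖a i‖ + ∑ i, ‖b i‖))) ≤ ε / 2 := by
    rw [mul_div_assoc', div_le_iff₀ hC, mul_comm]
    refine mul_le_mul_of_nonneg_left ?_ hε2.le
    have : 0 ≤ ∑ i, ‖b i‖ := by positivity
    linarith
  have hB : (∑ i, ‖b i‖) * (ε / 2 / (1 + (∑ i, ‖a i‖ + ∑ i, ‖b i‖))) ≤ ε / 2 := by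
    rw [mul_div_assoc', div_le_iff₀ hC, mul_comm]
    refine mul_le_mul_of_nonneg_left ?_ hε2.le
    have : 0 ≤ ∑ i, ‖a i‖ := by positivity
    linarith
  obtain ⟨m, p, q, hp, hq, h2⟩ := Q.KR_ft h' hε' (κ := (Fin r × Fin n) ⊕ (Fin r × Fin n))
    (Sum.elim (fun t => ((b t.1)†) (η t.2)) fun t => ((a t.1)†) (η t.2))
  refine ⟨r * m, fun s => a (finProdFinEquiv.symm s).1 ∘L p (finProdFinEquiv.symm s).2,
    fun s => b (finProdFinEquiv.symm s).1 ∘L q (finProdFinEquiv.symm s).2,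
    fun s => Q.ψ.mul_mem (ha _) (hp _), fun s => Q.ψ.mul_mem (hb _) (hq _), fun k => ⟨?_, ?_⟩⟩
  · have h5 := Q.one_side (a := a) (b := b) (p := p) (q := q) ha hp (h1 (Sum.inl k)).1
      (fun i => (h2 (Sum.inl (i, k))).1) hA
    rw [add_halves] at h5
    exact h5
  · have h5 := Q.one_side (a := b) (b := a) (p := q) (q := p) hb hq (h1 (Sum.inr k)).2
      (fun i => (h2 (Sum.inr (i, k))).2) hB
    rw [add_halves] at h5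
    exact h5

end QG

end Pool.Agent.VNQ
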