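import Pool.Agent.VNQ.GamK
import Pool.Agent.VNQ.KDP

/-!
# The relation (DS)
-/

set_option autoImplicit false

noncomputable section

open scoped TensorProduct InnerProductSpace InnerProduct ENNReal

namespace Pool.Agent.VNQ

universe u

variable {H G : Type u} [NormedAddCommGroup H] [InnerProductSpace ℂ H] [CompleteSpace H]
  [NormedAddCommGroup G] [InnerProductSpace ℂ G] [CompleteSpace G]

namespace QG

variable (Q : QG H G)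

/-- If `(x, y)` maps the graph of `K` into itself then `(x, y)` satisfies (DS). -/
theorem ds_rel {x y : H →L[ℂ] H} (h : ∀ ξ ξ₁, Q.KR ξ ξ₁ → Q.KR (x ξ) (y ξ₁)) (ξ γ : H) :
    ⟪y (Q.mdK.C ξ), γ - Q.mdK.A γ⟫_ℂ = ⟪Q.mdK.C γ, x (Q.mdK.A ξ)⟫_ℂ := by
  have h1 := h _ _ (Q.mem_mdK_rel.1 (Q.mdK.AC_mem_rel ξ))
  have h2 := Q.mdK.adj_pair (Q.mem_mdK_rel.2 h1) (Q.mdK.dual_pair γ)
  rw [← inner_conj_symm, h2, inner_conj_symm]

theorem ds_rel_DP {x y : H →L[ℂ] H} (h : Q.DP x y) (ξ γ : H) :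
    ⟪y (Q.mdK.C ξ), γ - Q.mdK.A γ⟫_ℂ = ⟪Q.mdK.C γ, x (Q.mdK.A ξ)⟫_ℂ :=
  Q.ds_rel (fun _ _ h' => Q.DP_KR h h') ξ γ

end QG

end Pool.Agent.VNQ
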