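import Mathlib

/-!
# Exponentials of bounded self-adjoint operators

`B` is a bounded self-adjoint operator (`⟪B x, y⟫ = ⟪x, B y⟫`), `e(z) = exp(z B)`.

* `exp_add_apply`: `e(z + w) x = e(z) (e(w) x)` (`NormedSpace.exp_add_of_commute`).
* `exp_adj`: `⟪e(z) x, y⟫ = ⟪x, e(z̄) y⟫`: `(exp T)† = exp (T†)` (`NormedSpace.star_exp` with
  `ContinuousLinearMap.star_eq_adjoint`), `(z B)† = z̄ B`.
* `norm_exp_I`: `‖e(i t) x‖ = ‖x‖`: `‖e(it) x‖² = ⟪e(it) x, e(it) x⟫ = ⟪x, e(-it) e(it) x⟫ = ⟪x,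
x⟫`.
* `norm_exp_le`: `‖e(z) x‖ ≤ exp(|re z| ‖B‖) ‖x‖`: `e(z) = e(i im z) e(re z)` and
  `‖exp(T)‖ ≤ exp ‖T‖` (`NormedSpace.norm_exp_le` or from the series; `E` may be trivial, then there
  is
  nothing to prove).
* `exp_comm`: if `T` is linear, bounded and `T B = B T` then `T e(z) = e(z) T`
  (`Commute.exp_right`).
* `exp_semi`: if `J` is conjugate linear, bounded and `J B = - B J` then `J (e(z) x) = e(-z̄) (J
x)`:
  `(exp T) x = ∑ (1/j!) T^j x` (`NormedSpace.exp_eq_tsum`, apply the continuous linear map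
  evaluation at `x`), `J ((z B)^j x) = (-z̄ B)^j (J x)` by induction on `j`, and `J` is continuous
  and additive, with `J (r y) = r J y` for real `r = 1/j!` (`HasSum.map`).
* `exp_differentiable`: `z ↦ e(z)` is differentiable (`hasDerivAt_exp_smul_const` or
  `NormedSpace.exp_analytic` and composition); `exp_diff_inner`: `w ↦ ⟪x, e(c w) T (e(c' w) y)⟫` is
  entire.
-/

set_option autoImplicit false

noncomputable section

open scoped InnerProductSpace InnerProduct

namespace Pool.Agent.VNQ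

universe u

variable {E : Type u} [NormedAddCommGroup E] [InnerProductSpace ℂ E] [CompleteSpace E]

private theorem star_smul_sa (B : E →L[ℂ] E) (hB : ∀ x y, ⟪B x, y⟫_ℂ = ⟪x, B y⟫_ℂ) (z : ℂ) :
    star (z • B) = (starRingEnd ℂ) z • B := by
  have h1 : star B = B := by
    rw [ContinuousLinearMap.star_eq_adjoint]
    exact ((ContinuousLinearMap.eq_adjoint_iff B B).2 hB).symm
  rw [star_smul, h1]
  rfl

private theorem hasSum_exp_apply (T : E →L[ℂ] E) (x : E) :
    HasSum (fun n : ℕ => ((n.factorial : ℝ)⁻¹) • (T ^ n) x) (NormedSpace.exp T x) := by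
  have h1 := NormedSpace.exp_series_hasSum_exp' (𝕂 := ℝ) T
  have h2 := h1.mapL ((ContinuousLinearMap.apply ℂ E x : (E →L[ℂ] E) →L[ℂ] E).restrictScalars ℝ)
  exact h2

private theorem norm_exp_apply_le (T : E →L[ℂ] E) (x : E) :
    ‖NormedSpace.exp T x‖ ≤ Real.exp ‖T‖ * ‖x‖ := by
  have h1 := hasSum_exp_apply T x
  have h2 : HasSum (fun n : ℕ => ((n.factorial : ℝ)⁻¹) * ‖T‖ ^ n) (Real.exp ‖T‖) := by
    have h3 := NormedSpace.exp_series_hasSum_exp' (𝕂 := ℝ) (‖T‖ : ℝ)
    rw [← Real.exp_eq_exp_ℝ] at h3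
    exact h3
  have h3 := h2.mul_right ‖x‖
  rw [← h1.tsum_eq]
  refine tsum_of_norm_bounded h3 fun n => ?_
  rw [norm_smul, Real.norm_of_nonneg (by positivity), mul_assoc]
  refine mul_le_mul_of_nonneg_left ?_ (by positivity)
  refine ((T ^ n).le_opNorm x).trans ?_
  refine mul_le_mul_of_nonneg_right ?_ (norm_nonneg x)
  rcases Nat.eq_zero_or_pos n with rfl | hn
  · rw [pow_zero, pow_zero]
    exact ContinuousLinearMap.norm_id_le
  · exact norm_pow_le' T hn

theorem exp_add_apply (B : E →L[ℂ] E) (z w : ℂ) (x : E) :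
    NormedSpace.exp ((z + w) • B) x = NormedSpace.exp (z • B) (NormedSpace.exp (w • B) x) := by
  let +nondep : NormedAlgebra ℚ (E →L[ℂ] E) := .restrictScalars ℚ ℂ _
  have h1 : Commute (z • B) (w • B) := ((Commute.refl B).smul_left z).smul_right w
  rw [add_smul, NormedSpace.exp_add_of_commute h1]
  rfl

theorem exp_adj (B : E →L[ℂ] E) (hB : ∀ x y, ⟪B x, y⟫_ℂ = ⟪x, B y⟫_ℂ) (z : ℂ) (x y : E) :
    ⟪NormedSpace.exp (z • B) x, y⟫_ℂ = ⟪x, NormedSpace.exp ((starRingEnd ℂ) z • B) y⟫_ℂ := by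
  rw [← star_smul_sa B hB z, ← NormedSpace.star_exp, ContinuousLinearMap.star_eq_adjoint,
    ContinuousLinearMap.adjoint_inner_right]

theorem norm_exp_I (B : E →L[ℂ] E) (hB : ∀ x y, ⟪B x, y⟫_ℂ = ⟪x, B y⟫_ℂ) (t : ℝ) (x : E) :
    ‖NormedSpace.exp (((t : ℂ) * Complex.I) • B) x‖ = ‖x‖ := by
  let +nondep : NormedAlgebra ℚ (E →L[ℂ] E) := .restrictScalars ℚ ℂ _
  apply ContinuousLinearMap.norm_map_of_mem_unitary
  apply NormedSpace.exp_mem_unitary_of_mem_skewAdjoint
  rw [skewAdjoint.mem_iff, star_smul_sa B hB, ← neg_smul]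
  congr 1
  simp

theorem norm_exp_le (B : E →L[ℂ] E) (hB : ∀ x y, ⟪B x, y⟫_ℂ = ⟪x, B y⟫_ℂ) (z : ℂ) (x : E) :
    ‖NormedSpace.exp (z • B) x‖ ≤ Real.exp (‖B‖ * |z.re|) * ‖x‖ := by
  have h1 : z = (z.im : ℂ) * Complex.I + (z.re : ℂ) := by
    rw [add_comm]
    exact (Complex.re_add_im z).symm
  have h2 : NormedSpace.exp (z • B) x =
      NormedSpace.exp (((z.im : ℂ) * Complex.I) • B) (NormedSpace.exp ((z.re : ℂ) • B) x) := by
    rw [← exp_add_apply, ← h1]
  rw [h2, norm_exp_I B hB]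
  refine (norm_exp_apply_le _ x).trans ?_
  refine mul_le_mul_of_nonneg_right (Real.exp_le_exp.2 ?_) (norm_nonneg x)
  rw [norm_smul, mul_comm, Complex.norm_real, Real.norm_eq_abs]

theorem exp_comm (B T : E →L[ℂ] E) (h : ∀ x, T (B x) = B (T x)) (z : ℂ) (x : E) :
    T (NormedSpace.exp (z • B) x) = NormedSpace.exp (z • B) (T x) := by
  let +nondep : NormedAlgebra ℚ (E →L[ℂ] E) := .restrictScalars ℚ ℂ _
  have h1 : Commute T (z • B) := by
    refine Commute.smul_right ?_ z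
    exact ContinuousLinearMap.ext h
  have h2 := (SemiconjBy.exp_right (x := T) (a := z • B) (b := z • B) h1)
  exact congrArg (fun A : E →L[ℂ] E => A x) h2.eq

theorem exp_semi (B : E →L[ℂ] E) (J : E →L⋆[ℂ] E) (h : ∀ x, J (B x) = -B (J x)) (z : ℂ) (x : E) :
    J (NormedSpace.exp (z • B) x) = NormedSpace.exp ((-(starRingEnd ℂ) z) • B) (J x) := by
  have h1 := hasSum_exp_apply (z • B) x
  have h2 := hasSum_exp_apply ((-(starRingEnd ℂ) z) • B) (J x)
  have h3 := h1.map (J : E →+ E) J.continuous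
  have h4 : ∀ (n : ℕ) (y : E), J (((z • B) ^ n) y) = (((-(starRingEnd ℂ) z) • B) ^ n) (J y) := by
    intro n
    induction n with
    | zero =>
      intro y
      rfl
    | succ n ih =>
      intro y
      rw [pow_succ, pow_succ]
      change J (((z • B) ^ n) ((z • B) y)) = (((-(starRingEnd ℂ) z) • B) ^ n)
        (((-(starRingEnd ℂ) z) • B) (J y))
      rw [ih]
      congr 1
      change J (z • B y) = (-(starRingEnd ℂ) z) • B (J y)
      rw [map_smulₛₗ, h, smul_neg, neg_smul]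
  refine h3.unique ?_
  convert h2 using 1
  funext n
  change J (((n.factorial : ℝ)⁻¹) • ((z • B) ^ n) x) = _
  rw [← h4 n x, RCLike.real_smul_eq_coe_smul (K := ℂ), map_smulₛₗ,
    RCLike.real_smul_eq_coe_smul (K := ℂ)]
  congr 1
  exact Complex.conj_ofReal _

theorem exp_differentiable (B : E →L[ℂ] E) :
    Differentiable ℂ fun z : ℂ => (NormedSpace.exp (z • B) : E →L[ℂ] E) :=
  differentiable_exp_smul_const ℂ B

theorem exp_diff_inner (B T : E →L[ℂ] E) (c c' : ℂ) (x y : E) :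
    Differentiable ℂ fun w : ℂ =>
      ⟪x, NormedSpace.exp ((c * w) • B) (T (NormedSpace.exp ((c' * w) • B) y))⟫_ℂ := by
  have h1 : ∀ c : ℂ, Differentiable ℂ fun w : ℂ =>
      (NormedSpace.exp ((c * w) • B) : E →L[ℂ] E) := fun c =>
    (exp_differentiable B).comp (differentiable_id.const_mul c)
  have h2 : Differentiable ℂ fun w : ℂ => T (NormedSpace.exp ((c' * w) • B) y) :=
    T.differentiable.comp ((h1 c').clm_apply (differentiable_const y))
  have h3 := (h1 c).clm_apply h2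
  exact (innerSL ℂ x).differentiable.comp h3

end Pool.Agent.VNQ
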