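import Pool.Agent.VNQ.MD

/-!
# Functional calculus of the modular data

`md.F f = f(A)` for `f : ℝ → ℝ` continuous on `[0,1]`, by Mathlib's continuous functional calculus
`cfc f md.A` (`md.A` is self-adjoint, `md.isSelfAdjoint_A`).

* `md.spec`: `spectrum ℝ md.A ⊆ [0,1]`: `0 ≤ A` and `A ≤ 1` in the Loewner order
  (`ContinuousLinearMap.nonneg_iff_isPositive`, `ContinuousLinearMap.le_def`, `A_nonneg`, `A_le`),
  then
  `spectrum_nonneg_of_nonneg` and, for the upper bound, the same for `1 - A`, or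
  `SpectrumRestricts`/`cfc_le_one_iff`/`le_one` lemmas.
* `F_congr` (`cfc_congr`), `F_mul` (`cfc_mul`), `F_add`, `F_id` (`cfc_id`), `F_one` (`cfc_one`),
  `F_smul`.
* `norm_F_le`: `‖F f‖ ≤ c` if `|f s| ≤ c` on `[0,1]` (`norm_cfc_le`).
* `F_symm`: `F f` is self-adjoint (`cfc_predicate` or `IsSelfAdjoint.cfc`).
* `F_comm`: if a bounded operator `T` commutes with `A` then it commutes with `F f`
  (`Commute.cfc` or `Commute.cfc_real`).
* `F_exp`: `F (exp ∘ f) = exp (F f)` (`cfc_comp` and `CFC.real_exp_eq_normedSpace_exp`).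
-/

set_option autoImplicit false

noncomputable section

open scoped InnerProductSpace InnerProduct

namespace Pool.Agent.VNQ

universe u

variable {E : Type u} [NormedAddCommGroup E] [InnerProductSpace ℂ E] [CompleteSpace E]

namespace MD

variable (md : MD E)

/-- `f(A)` -/
def F (f : ℝ → ℝ) : E →L[ℂ] E := cfc f md.A

theorem spec : spectrum ℝ md.A ⊆ Set.Icc 0 1 := by
  intro x hx
  constructor
  · have h0 : (0 : E →L[ℂ] E) ≤ md.A := by
      rw [ContinuousLinearMap.nonneg_iff_isPositive]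
      refine ⟨md.A_symm, fun y => ?_⟩
      have h := md.A_nonneg y
      rw [← md.A_symm] at h
      exact h
    exact spectrum_nonneg_of_nonneg h0 hx
  · have h0 : (0 : E →L[ℂ] E) ≤ 1 - md.A := by
      rw [ContinuousLinearMap.nonneg_iff_isPositive]
      refine ⟨fun y z => ?_, fun y => ?_⟩
      · change ⟪(1 - md.A) y, z⟫_ℂ = ⟪y, (1 - md.A) z⟫_ℂ
        simp only [sub_apply, one_apply_eq_self, inner_sub_left, inner_sub_right, md.A_symm]
      · have h := md.A_le y
        rw [← inner_conj_symm] at h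
        have h2 : (⟪y, y⟫_ℂ).re = ‖y‖ ^ 2 := inner_self_eq_norm_sq (𝕜 := ℂ) y
        simp only [ContinuousLinearMap.reApplyInnerSelf, sub_apply, one_apply_eq_self,
          inner_sub_left, map_sub]
        simp only [Complex.conj_re] at h
        have h3 : RCLike.re ⟪y, y⟫_ℂ = ‖y‖ ^ 2 := h2
        rw [h3]
        have h4 : RCLike.re ⟪md.A y, y⟫_ℂ = (⟪md.A y, y⟫_ℂ).re := rfl
        rw [h4]
        linarith
    have h1 : (1 : ℝ) - x ∈ spectrum ℝ (1 - md.A) := by
      have := spectrum.singleton_sub_eq md.A (1 : ℝ)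
      rw [show (1 : E →L[ℂ] E) = algebraMap ℝ (E →L[ℂ] E) 1 from (map_one _).symm, ← this]
      exact Set.sub_mem_sub rfl hx
    have := spectrum_nonneg_of_nonneg h0 h1
    linarith

theorem F_congr {f g : ℝ → ℝ} (h : Set.EqOn f g (Set.Icc 0 1)) : md.F f = md.F g := by
  exact cfc_congr (fun x hx => h (md.spec hx))

theorem F_mul {f g : ℝ → ℝ} (hf : ContinuousOn f (Set.Icc 0 1))
    (hg : ContinuousOn g (Set.Icc 0 1)) : md.F (fun s => f s * g s) = md.F f ∘L md.F g := by
  exact cfc_mul f g md.A (hf.mono md.spec) (hg.mono md.spec)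

theorem F_add {f g : ℝ → ℝ} (hf : ContinuousOn f (Set.Icc 0 1))
    (hg : ContinuousOn g (Set.Icc 0 1)) : md.F (fun s => f s + g s) = md.F f + md.F g := by
  exact cfc_add md.A f g (hf.mono md.spec) (hg.mono md.spec)

theorem F_smul {f : ℝ → ℝ} (hf : ContinuousOn f (Set.Icc 0 1)) (c : ℝ) :
    md.F (fun s => c * f s) = (c : ℂ) • md.F f := by
  have h := cfc_smul (R := ℝ) c f md.A (hf.mono md.spec)
  simp only [smul_eq_mul] at h
  rw [F, h, F]
  exact (Complex.coe_smul c (cfc f md.A)).symm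

theorem F_id : md.F (fun s => s) = md.A := by
  exact cfc_id' ℝ md.A (ha := md.isSelfAdjoint_A)

theorem F_one : md.F (fun _ => 1) = ContinuousLinearMap.id ℂ E := by
  exact cfc_const_one ℝ md.A (ha := md.isSelfAdjoint_A)

theorem F_one_sub : md.F (fun s => 1 - s) = ContinuousLinearMap.id ℂ E - md.A := by
  have h := cfc_sub (fun _ : ℝ => (1 : ℝ)) (fun s => s) md.A (by fun_prop) (by fun_prop)
  rw [F, h]
  have h1 := md.F_one
  have h2 := md.F_id
  rw [F] at h1 h2
  rw [h1, h2]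

theorem norm_F_le {f : ℝ → ℝ} (hf : ContinuousOn f (Set.Icc 0 1)) {c : ℝ} (hc : 0 ≤ c)
    (h : ∀ s ∈ Set.Icc (0 : ℝ) 1, |f s| ≤ c) : ‖md.F f‖ ≤ c := by
  exact norm_cfc_le hc fun x hx => h x (md.spec hx)

theorem F_symm (f : ℝ → ℝ) (x y : E) : ⟪md.F f x, y⟫_ℂ = ⟪x, md.F f y⟫_ℂ := by
  have h : IsSelfAdjoint (md.F f) := cfc_predicate f md.A
  exact (ContinuousLinearMap.isSelfAdjoint_iff_isSymmetric.1 h) x y

theorem F_comm (f : ℝ → ℝ) (T : E →L[ℂ] E) (hT : ∀ x, T (md.A x) = md.A (T x)) (x : E) :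
    T (md.F f x) = md.F f (T x) := by
  have h1 : Commute md.A T := by
    ext y
    exact (hT y).symm
  have h2 := (h1.cfc_real f).eq
  exact (DFunLike.congr_fun h2 x).symm

theorem F_exp {f : ℝ → ℝ} (hf : ContinuousOn f (Set.Icc 0 1)) :
    md.F (fun s => Real.exp (f s)) = NormedSpace.exp (md.F f) := by
  have h := cfc_comp' Real.exp f md.A Real.continuous_exp.continuousOn (hf.mono md.spec)
    md.isSelfAdjoint_A
  rw [F, h]
  exact CFC.real_exp_eq_normedSpace_exp (cfc_predicate f md.A)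

end MD

end Pool.Agent.VNQ
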