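import Pool.Agent.VNQ.FC

/-!
# Functional calculus and conjugate-linear operators

* `C_F`: `C (f(A) x) = f̌(A) (C x)` with `f̌(s) = f(1 - s)`. Proof: for a real polynomial `p`:
  `C (p(A) x) = p(1 - A) (C x)` (`Polynomial.induction_on`: `C` is conjugate linear, the
  coefficients
  are real, `C A = (1 - A) C`), and `p(A) = cfc p.eval A` (`cfc_polynomial`, `cfc_eval_X` or so),
  `p(1 - A) = cfc (fun s => p.eval (1 - s)) A`. For a continuous `f` choose
  polynomials with `|p(s) - f(s)| < ε` on `[0,1]` (`exists_polynomial_near_of_continuousOn`);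
  then `‖p(A) - f(A)‖ ≤ ε`, `‖p̌(A) - f̌(A)‖ ≤ ε` (`norm_F_le` for the difference), and `C` is
  bounded.
* `J_F`: the same for an additive, conjugate-linear continuous `J` (like the antiunitary `I`) with
  `J (A x) = J x - A (J x)`; prove this general version first.
-/

set_option autoImplicit false

noncomputable section

open scoped InnerProductSpace InnerProduct

namespace Pool.Agent.VNQ

universe u

variable {E : Type u} [NormedAddCommGroup E] [InnerProductSpace ℂ E] [CompleteSpace E]

namespace MD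

variable (md : MD E)

private theorem fcj_near {f p : ℝ → ℝ} (hf : ContinuousOn f (Set.Icc 0 1))
    (hp : ContinuousOn p (Set.Icc 0 1)) {ε : ℝ} (hε : 0 ≤ ε)
    (h : ∀ s ∈ Set.Icc (0 : ℝ) 1, |p s - f s| ≤ ε) (x : E) :
    ∃ y : E, md.F f x = md.F p x + y ∧ ‖y‖ ≤ ε * ‖x‖ := by
  refine ⟨md.F (fun s => f s - p s) x, ?_, ?_⟩
  · have h1 : md.F (fun s => p s + (f s - p s)) = md.F p + md.F (fun s => f s - p s) :=
      md.F_add hp (hf.sub hp)
    have h2 : md.F (fun s => p s + (f s - p s)) = md.F f := by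
      congr 1
      funext s
      ring
    rw [← h2, h1]
    rfl
  · refine (md.F fun s => f s - p s).le_of_opNorm_le (md.norm_F_le (hf.sub hp) hε ?_) x
    intro s hs
    have h3 := h s hs
    rw [abs_sub_comm] at h3
    exact h3

private theorem fcj_poly (J : E →L⋆[ℂ] E)
    (hJ : ∀ x, J (md.A x) = J x - md.A (J x)) (p : Polynomial ℝ) : ∀ x,
    J (md.F (fun s => p.eval s) x) = md.F (fun s => p.eval (1 - s)) (J x) := by
  have hc : ∀ q : Polynomial ℝ, ContinuousOn (fun s => q.eval s) (Set.Icc (0 : ℝ) 1) :=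
    fun q => q.continuous.continuousOn
  have hc' : ∀ q : Polynomial ℝ, ContinuousOn (fun s => q.eval (1 - s)) (Set.Icc (0 : ℝ) 1) :=
    fun q => (q.continuous.comp (continuous_const.sub continuous_id)).continuousOn
  have hid : ∀ x, J (md.F (fun s => s) x) = md.F (fun s => 1 - s) (J x) := by
    intro x
    rw [md.F_id, md.F_one_sub, hJ]
    rfl
  have hconst : ∀ (a : ℝ) (y : E), md.F (fun _ => a) y = (a : ℂ) • y := by
    intro a y
    have h1 : md.F (fun s => a * (fun _ : ℝ => (1 : ℝ)) s) = (a : ℂ) • md.F (fun _ => 1) :=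
      md.F_smul continuousOn_const a
    have h2 : (fun s : ℝ => a * (fun _ : ℝ => (1 : ℝ)) s) = fun _ => a := by
      funext s
      ring
    rw [h2] at h1
    rw [h1, md.F_one]
    rfl
  have hmul : ∀ (f g : ℝ → ℝ), ContinuousOn f (Set.Icc 0 1) → ContinuousOn g (Set.Icc 0 1) →
      ∀ y, md.F (fun s => f s * g s) y = md.F f (md.F g y) := by
    intro f g hf hg y
    rw [md.F_mul hf hg]
    rfl
  induction p using Polynomial.induction_on with
  | C a =>
    intro x
    simp only [Polynomial.eval_C]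
    rw [hconst, hconst, map_smulₛₗ]
    simp
  | add p q hp hq =>
    intro x
    simp only [Polynomial.eval_add]
    rw [md.F_add (hc p) (hc q), md.F_add (hc' p) (hc' q)]
    simp only [add_apply, map_add]
    rw [hp, hq]
  | monomial n a h =>
    intro x
    have e1 : (fun s : ℝ => (Polynomial.C a * Polynomial.X ^ (n + 1)).eval s) =
        fun s => (Polynomial.C a * Polynomial.X ^ n).eval s * (fun s => s) s := by
      funext s
      simp [pow_succ, mul_assoc]
    have e2 : (fun s : ℝ => (Polynomial.C a * Polynomial.X ^ (n + 1)).eval (1 - s)) =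
        fun s => (fun s => (Polynomial.C a * Polynomial.X ^ n).eval (1 - s)) s *
          (fun s => 1 - s) s := by
      funext s
      simp [pow_succ, mul_assoc]
    have hi1 : ContinuousOn (fun s : ℝ => s) (Set.Icc 0 1) := continuousOn_id
    have hi2 : ContinuousOn (fun s : ℝ => 1 - s) (Set.Icc 0 1) :=
      (continuous_const.sub continuous_id).continuousOn
    have e3 := hmul (fun s => (Polynomial.C a * Polynomial.X ^ n).eval s) (fun s => s) (hc _) hi1 x
    have e4 := hmul (fun s => (Polynomial.C a * Polynomial.X ^ n).eval (1 - s)) (fun s => 1 - s)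
      (hc' _) hi2 (J x)
    rw [e1, e2]
    rw [e3, e4, h, hid]

theorem J_F {f : ℝ → ℝ} (hf : ContinuousOn f (Set.Icc 0 1)) (J : E →L⋆[ℂ] E)
    (hJ : ∀ x, J (md.A x) = J x - md.A (J x)) (x : E) :
    J (md.F f x) = md.F (fun s => f (1 - s)) (J x) := by
  have hf' : ContinuousOn (fun s => f (1 - s)) (Set.Icc 0 1) := by
    refine hf.comp (continuous_const.sub continuous_id).continuousOn fun s hs => ?_
    exact ⟨by linarith [hs.2], by linarith [hs.1]⟩
  rw [← sub_eq_zero, ← norm_eq_zero]
  refine le_antisymm (le_of_forall_pos_le_add fun δ hδ => ?_) (norm_nonneg _)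
  rw [zero_add]
  obtain ⟨ε, hε, hεδ⟩ : ∃ ε : ℝ, 0 < ε ∧ ε * (‖J‖ * ‖x‖ + ‖J x‖) ≤ δ := by
    have h0 : 0 ≤ ‖J‖ * ‖x‖ + ‖J x‖ := by positivity
    refine ⟨δ / (‖J‖ * ‖x‖ + ‖J x‖ + 1), by positivity, ?_⟩
    rw [div_mul_eq_mul_div, div_le_iff₀ (by positivity)]
    nlinarith
  obtain ⟨p, hp⟩ := exists_polynomial_near_of_continuousOn 0 1 f hf ε hε
  have hpc : ContinuousOn (fun s => p.eval s) (Set.Icc (0 : ℝ) 1) := p.continuous.continuousOn
  have hpc' : ContinuousOn (fun s => p.eval (1 - s)) (Set.Icc (0 : ℝ) 1) :=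
    (p.continuous.comp (continuous_const.sub continuous_id)).continuousOn
  obtain ⟨y, hy, hyn⟩ := fcj_near md hf hpc hε.le (fun s hs => (hp s hs).le) x
  obtain ⟨z, hz, hzn⟩ := fcj_near md hf' hpc' hε.le
    (fun s hs => (hp (1 - s) ⟨by linarith [hs.2], by linarith [hs.1]⟩).le) (J x)
  rw [hy, hz, map_add, fcj_poly md J hJ p x, add_sub_add_left_eq_sub]
  refine (norm_sub_le _ _).trans (le_trans ?_ hεδ)
  have h1 : ‖J y‖ ≤ ‖J‖ * (ε * ‖x‖) :=
    (J.le_opNorm y).trans (mul_le_mul_of_nonneg_left hyn (norm_nonneg _))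
  nlinarith

theorem C_F {f : ℝ → ℝ} (hf : ContinuousOn f (Set.Icc 0 1)) (x : E) :
    md.C (md.F f x) = md.F (fun s => f (1 - s)) (md.C x) := by
  exact md.J_F hf md.C md.CA x

end MD

end Pool.Agent.VNQ
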