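import Pool.Agent.VNQ.Nrm

/-!
# Integrals of vector functionals are normal

* `nrm_int`: Let `W : ℝ → B(H)` be strongly continuous with `‖W t x‖ ≤ ‖x‖`, `h₁, h₂ : ℝ → ℂ`
  continuous and square integrable. Then `θ(X) = ∫ conj(h₁ t) h₂(t) ⟪W t α, X (W t β)⟫ dt` is
  normal.

  Proof. `L = Lp H 2 (volume : Measure ℝ)` (a Hilbert space in `Type u`: `H : Type u`, `ℝ : Type`),
  `π(X) = X.compLpL 2 volume` (pointwise application of `X`). The vectors: `α̃(t) = h₁(t) W t α`,
  `β̃(t) = h₂(t) W t β`; these are continuous functions bounded in norm by `‖h₁(t)‖ ‖α‖`, hence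
  `MemLp _ 2` (`MemLp.of_le_mul` or `MemLp.mono`), take `MemLp.toLp`. Then
  `⟪α̃, π(X) β̃⟫ = ∫ ⟪h₁(t) W t α, X (h₂(t) W t β)⟫ dt` (`MeasureTheory.L2.inner_def`,
  `integral_congr_ae` with `MemLp.coeFn_toLp`, `ContinuousLinearMap.coeFn_compLpL`)
  `= ∫ conj(h₁ t) h₂(t) ⟪W t α, X (W t β)⟫ dt`.
  `IsAmp π`: `add`, `smul`, `mul` hold almost everywhere pointwise
  (`ContinuousLinearMap.add_compLpL`,
  `smul_compLpL`, or `Lp.ext`); `adj`: `⟪π(X†) u, v⟫ = ∫ ⟪X† u(t), v(t)⟫ = ∫ ⟪u(t), X v(t)⟫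
  = ⟪u, π(X) v⟫` (`ContinuousLinearMap.eq_adjoint_iff`); `norm_le`:
  `ContinuousLinearMap.norm_compLpL_le`; `total`: for a square integrable
  `g : ℝ → ℂ`, `T_g x = g(·) x` (for instance `g` the indicator function of a measurable set of
  finite measure; `T_g x = indicatorConstLp 2 hs hμs x`) is an intertwiner; the span of the
  `indicatorConstLp 2 hs hμs x` is dense (`MeasureTheory.Lp.induction`, or
  density of simple functions `MeasureTheory.Lp.simpleFunc.denseRange`). To see that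
  `x ↦ indicatorConstLp 2 hs hμs x` is continuous linear: Mathlib has `indicatorConstLp` linear in
  `x` (`MeasureTheory.indicatorConstLp_add` or similar), norm `norm_indicatorConstLp`; an
  alternative
  is `ContinuousLinearMap.smulRight`-like: `(ContinuousLinearMap.toSpanSingleton ...)`.
* `nrm_gauss`: for `n > 0`, `s ∈ ℝ`:
  `θ(X) = ∫ exp (- n (t + i s)²) ⟪W t α, X (W t β)⟫ dt` is normal: apply `nrm_int` with
  `h₁(t) = exp (- n t² / 2)` (real) and `h₂(t) = exp (- n (t + i s)²) exp (n t² / 2)`, whose norm is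
  `exp (- n t² / 2) exp (n s²)`.
-/

set_option autoImplicit false

noncomputable section

open scoped InnerProductSpace InnerProduct
open MeasureTheory

namespace Pool.Agent.VNQ

universe u

variable {H : Type u} [NormedAddCommGroup H] [InnerProductSpace ℂ H] [CompleteSpace H]

/-- Pointwise application of an operator. -/
private def ampI (X : H →L[ℂ] H) :
    Lp H 2 (volume : Measure ℝ) →L[ℂ] Lp H 2 (volume : Measure ℝ) :=
  X.compLpL 2 volume

omit [CompleteSpace H] in
private theorem ampI_ae (X : H →L[ℂ] H) (u : Lp H 2 (volume : Measure ℝ)) :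
    ∀ᵐ t ∂(volume : Measure ℝ), (ampI X u : ℝ → H) t = X (u t) :=
  X.coeFn_compLpL u

/-- The intertwiner defined by an indicator function. -/
private def indT (H : Type u) [NormedAddCommGroup H] [InnerProductSpace ℂ H] {s : Set ℝ}
    (hs : MeasurableSet s) (hμs : (volume : Measure ℝ) s ≠ ⊤) :
    H →L[ℂ] Lp H 2 (volume : Measure ℝ) :=
  LinearMap.mkContinuous
    { toFun := fun x => indicatorConstLp 2 hs hμs x
      map_add' := fun x y => indicatorConstLp_add.symm
      map_smul' := fun c x => by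
        apply Lp.ext
        filter_upwards [indicatorConstLp_coeFn (p := 2) (hs := hs) (hμs := hμs) (c := c • x),
          indicatorConstLp_coeFn (p := 2) (hs := hs) (hμs := hμs) (c := x),
          Lp.coeFn_smul c (indicatorConstLp 2 hs hμs x)] with t h1 h2 h3
        rw [RingHom.id_apply, h1, h3, Pi.smul_apply, h2]
        by_cases h : t ∈ s
        · rw [Set.indicator_of_mem h, Set.indicator_of_mem h]
        · rw [Set.indicator_of_notMem h, Set.indicator_of_notMem h, smul_zero] }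
    ((volume : Measure ℝ).real s ^ (1 / (2 : ENNReal).toReal)) fun x => by
      show ‖indicatorConstLp 2 hs hμs x‖ ≤ _
      rw [mul_comm]
      exact norm_indicatorConstLp_le

omit [CompleteSpace H] in
private theorem indT_apply {s : Set ℝ} (hs : MeasurableSet s)
    (hμs : (volume : Measure ℝ) s ≠ ⊤) (x : H) :
    indT H hs hμs x = indicatorConstLp 2 hs hμs x := rfl

private theorem isAmp_ampI : IsAmp (ampI (H := H)) where
  add X Y := X.add_compLpL Y
  smul c X := ContinuousLinearMap.smul_compLpL c X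
  mul X Y := by
    ext1 u
    apply Lp.ext
    filter_upwards [ampI_ae (X ∘L Y) u, ampI_ae X (ampI Y u), ampI_ae Y u] with t h1 h2 h3
    show (ampI (X ∘L Y) u) t = (ampI X (ampI Y u)) t
    rw [h1, h2, h3]
    rfl
  adj X := by
    rw [ContinuousLinearMap.eq_adjoint_iff]
    intro u v
    rw [L2.inner_def, L2.inner_def]
    refine integral_congr_ae ?_
    filter_upwards [ampI_ae (X†) u, ampI_ae X v] with t h1 h2
    rw [h1, h2, ContinuousLinearMap.adjoint_inner_left]
  norm_le X := X.norm_compLpL_le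
  total := by
    intro f
    have h : f ∈ (Submodule.span ℂ {y : Lp H 2 (volume : Measure ℝ) |
        ∃ T : H →L[ℂ] Lp H 2 (volume : Measure ℝ),
          (∀ X, ampI X ∘L T = T ∘L X) ∧ ∃ x, y = T x}).topologicalClosure := by
      refine Lp.induction (by norm_num) (motive := fun f => f ∈ (Submodule.span ℂ
        {y : Lp H 2 (volume : Measure ℝ) | ∃ T : H →L[ℂ] Lp H 2 (volume : Measure ℝ),
          (∀ X, ampI X ∘L T = T ∘L X) ∧ ∃ x, y = T x}).topologicalClosure) ?_ ?_ ?_ f
      · intro c s hs hμs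
        refine Submodule.le_topologicalClosure _ (Submodule.subset_span ?_)
        refine ⟨indT H hs hμs.ne, fun X => ?_, c, ?_⟩
        · ext1 x
          apply Lp.ext
          filter_upwards [ampI_ae X (indT H hs hμs.ne x),
            indicatorConstLp_coeFn (p := 2) (hs := hs) (hμs := hμs.ne) (c := x),
            indicatorConstLp_coeFn (p := 2) (hs := hs) (hμs := hμs.ne) (c := X x)] with t h1 h2 h3
          show (ampI X (indT H hs hμs.ne x)) t = (indT H hs hμs.ne (X x)) t
          rw [h1, indT_apply, indT_apply, h2, h3]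
          by_cases h : t ∈ s
          · rw [Set.indicator_of_mem h, Set.indicator_of_mem h]
          · rw [Set.indicator_of_notMem h, Set.indicator_of_notMem h, map_zero]
        · rw [Lp.simpleFunc.coe_indicatorConst, indT_apply]
      · intro f g hf hg _ h1 h2
        exact Submodule.add_mem _ h1 h2
      · exact Submodule.isClosed_topologicalClosure _
    exact h

theorem nrm_int (W : ℝ → H →L[ℂ] H) (hW : ∀ x, Continuous fun t => W t x)
    (hW1 : ∀ t x, ‖W t x‖ ≤ ‖x‖) (h₁ h₂ : ℝ → ℂ) (c₁ : Continuous h₁) (c₂ : Continuous h₂)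
    (m₁ : MemLp h₁ 2 (volume : Measure ℝ)) (m₂ : MemLp h₂ 2 (volume : Measure ℝ)) (α β : H) :
    IsNrm fun X : H →L[ℂ] H =>
      ∫ t : ℝ, (starRingEnd ℂ) (h₁ t) * h₂ t * ⟪W t α, X (W t β)⟫_ℂ := by
  have a1 : MemLp (fun t => h₁ t • W t α) 2 (volume : Measure ℝ) := by
    refine MemLp.of_le_mul (c := ‖α‖) m₁ (c₁.smul (hW α)).aestronglyMeasurable
      (Filter.Eventually.of_forall fun t => ?_)
    rw [norm_smul, mul_comm]
    exact mul_le_mul_of_nonneg_right (hW1 t α) (norm_nonneg _)
  have a2 : MemLp (fun t => h₂ t • W t β) 2 (volume : Measure ℝ) := by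
    refine MemLp.of_le_mul (c := ‖β‖) m₂ (c₂.smul (hW β)).aestronglyMeasurable
      (Filter.Eventually.of_forall fun t => ?_)
    rw [norm_smul, mul_comm]
    exact mul_le_mul_of_nonneg_right (hW1 t β) (norm_nonneg _)
  refine ⟨Lp H 2 (volume : Measure ℝ), inferInstance, inferInstance, inferInstance, ampI,
    a1.toLp _, a2.toLp _, isAmp_ampI, fun X => ?_⟩
  rw [L2.inner_def]
  refine integral_congr_ae ?_
  filter_upwards [a1.coeFn_toLp, a2.coeFn_toLp, ampI_ae X (a2.toLp _)] with t e1 e2 e3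
  rw [e1, e3, e2, map_smul, inner_smul_left, inner_smul_right]
  ring

theorem nrm_gauss (W : ℝ → H →L[ℂ] H) (hW : ∀ x, Continuous fun t => W t x)
    (hW1 : ∀ t x, ‖W t x‖ ≤ ‖x‖) (n : ℝ) (hn : 0 < n) (s : ℝ) (α β : H) :
    IsNrm fun X : H →L[ℂ] H =>
      ∫ t : ℝ, Complex.exp (-n * ((t : ℂ) + s * Complex.I) ^ 2) * ⟪W t α, X (W t β)⟫_ℂ := by
  have c₁ : Continuous fun t : ℝ => Complex.exp ((-(n / 2) * t ^ 2 : ℝ) : ℂ) := by fun_prop
  have c₂ : Continuous fun t : ℝ =>
      Complex.exp (-n * ((t : ℂ) + s * Complex.I) ^ 2 + n / 2 * (t : ℂ) ^ 2) := by fun_prop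
  have m₁ : MemLp (fun t : ℝ => Complex.exp ((-(n / 2) * t ^ 2 : ℝ) : ℂ)) 2
      (volume : Measure ℝ) := by
    rw [memLp_two_iff_integrable_sq_norm c₁.aestronglyMeasurable]
    refine (integrable_exp_neg_mul_sq hn).congr (Filter.Eventually.of_forall fun t => ?_)
    show Real.exp (-n * t ^ 2) = ‖Complex.exp ((-(n / 2) * t ^ 2 : ℝ) : ℂ)‖ ^ 2
    rw [Complex.norm_exp, Complex.ofReal_re, ← Real.exp_nat_mul]
    congr 1
    push_cast
    ring
  have m₂ : MemLp (fun t : ℝ =>
      Complex.exp (-n * ((t : ℂ) + s * Complex.I) ^ 2 + n / 2 * (t : ℂ) ^ 2)) 2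
      (volume : Measure ℝ) := by
    refine MemLp.of_le_mul (c := Real.exp (n * s ^ 2)) m₁ c₂.aestronglyMeasurable
      (Filter.Eventually.of_forall fun t => ?_)
    rw [Complex.norm_exp, Complex.norm_exp, Complex.ofReal_re, ← Real.exp_add]
    refine le_of_eq (congrArg Real.exp ?_)
    have h1 : (-n * ((t : ℂ) + s * Complex.I) ^ 2 + n / 2 * (t : ℂ) ^ 2) =
        ((n * s ^ 2 + -(n / 2) * t ^ 2 : ℝ) : ℂ) + ((-(2 * n * t * s) : ℝ) : ℂ) * Complex.I := by
      push_cast
      linear_combination (-(n : ℂ) * (s : ℂ) ^ 2) * Complex.I_sq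
    rw [h1, Complex.add_re, Complex.ofReal_re, Complex.re_ofReal_mul, Complex.I_re, mul_zero,
      add_zero]
  have h := nrm_int W hW hW1 _ _ c₁ c₂ m₁ m₂ α β
  refine Eq.mp (congrArg IsNrm (funext fun X => ?_)) h
  refine integral_congr_ae (Filter.Eventually.of_forall fun t => ?_)
  show (starRingEnd ℂ) (Complex.exp ((-(n / 2) * t ^ 2 : ℝ) : ℂ)) *
    Complex.exp (-n * ((t : ℂ) + s * Complex.I) ^ 2 + n / 2 * (t : ℂ) ^ 2) *
      ⟪W t α, X (W t β)⟫_ℂ = _
  rw [← Complex.exp_conj, Complex.conj_ofReal, ← Complex.exp_add]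
  congr 2
  push_cast
  ring

end Pool.Agent.VNQ
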