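import Pool.Agent.VNQ.Nrm

/-!
# Sums of normal functionals

* `IsNrm.add`: the sum of two normal functionals is normal.
  Proof. Let `θ(X) = ⟪α, π(X) β⟫` on `L` and `θ'(X) = ⟪α', π'(X) β'⟫` on `L'`. Use the Hilbert space
  `WithLp 2 (L × L')` (in `Type u`) and `π ⊕ π'`: `(π ⊕ π')(X) (y, y') = (π(X) y, π'(X) y')` as a
  continuous linear map (conjugate `ContinuousLinearMap.prodMap` with
  `WithLp.prodContinuousLinearEquiv`
  or use `WithLp.linearEquiv`; inner product `WithLp.prod_inner_apply`). Norm: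
  `‖π(X) y‖² + ‖π'(X) y'‖² ≤ ‖X‖² (‖y‖² + ‖y'‖²)`. Adjoint: check
  `⟪(π ⊕ π')(X†) y, z⟫ = ⟪y, (π ⊕ π')(X) z⟫` (`ContinuousLinearMap.eq_adjoint_iff`). Total: the
  intertwiners `y ↦ (T y, 0)` and `y ↦ (0, T' y)`; the closure of the span contains `(y, 0)` for
  `y ∈ L` (continuity of `y ↦ (y, 0)`) and `(0, y')`, hence everything. Vectors `(α, α')`,
  `(β, β')`.
* `IsNrm.sum`: induction (`nrm_zero`: `θ = 0` is normal, e.g. `nrm_vec 0 0`).
-/

set_option autoImplicit false

noncomputable section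

open scoped InnerProductSpace InnerProduct

namespace Pool.Agent.VNQ

universe u

variable {H : Type u} [NormedAddCommGroup H] [InnerProductSpace ℂ H] [CompleteSpace H]

section Helpers

variable {L L' : Type u} [NormedAddCommGroup L] [InnerProductSpace ℂ L] [CompleteSpace L]
  [NormedAddCommGroup L'] [InnerProductSpace ℂ L'] [CompleteSpace L']

/-- The direct sum of two operators. -/
private def dsum (A : L →L[ℂ] L) (B : L' →L[ℂ] L') : WithLp 2 (L × L') →L[ℂ] WithLp 2 (L × L') :=
  ((WithLp.prodContinuousLinearEquiv 2 ℂ L L').symm : (L × L') →L[ℂ] WithLp 2 (L × L')) ∘L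
    (A.prodMap B) ∘L ((WithLp.prodContinuousLinearEquiv 2 ℂ L L') :
      WithLp 2 (L × L') →L[ℂ] (L × L'))

omit [CompleteSpace L] [CompleteSpace L'] in
private theorem dsum_apply (A : L →L[ℂ] L) (B : L' →L[ℂ] L') (y : WithLp 2 (L × L')) :
    dsum A B y = WithLp.toLp 2 (A y.fst, B y.snd) := rfl

omit [CompleteSpace L] [CompleteSpace L'] in
private theorem dsum_fst (A : L →L[ℂ] L) (B : L' →L[ℂ] L') (y : WithLp 2 (L × L')) :
    (dsum A B y).fst = A y.fst := rfl

omit [CompleteSpace L] [CompleteSpace L'] in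
private theorem dsum_snd (A : L →L[ℂ] L) (B : L' →L[ℂ] L') (y : WithLp 2 (L × L')) :
    (dsum A B y).snd = B y.snd := rfl

private def inlL : L →L[ℂ] WithLp 2 (L × L') :=
  ((WithLp.prodContinuousLinearEquiv 2 ℂ L L').symm : (L × L') →L[ℂ] WithLp 2 (L × L')) ∘L
    ContinuousLinearMap.inl ℂ L L'

private def inrL : L' →L[ℂ] WithLp 2 (L × L') :=
  ((WithLp.prodContinuousLinearEquiv 2 ℂ L L').symm : (L × L') →L[ℂ] WithLp 2 (L × L')) ∘L
    ContinuousLinearMap.inr ℂ L L'

omit [CompleteSpace L] [CompleteSpace L'] in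
private theorem inlL_apply (y : L) :
    (inlL y : WithLp 2 (L × L')) = WithLp.toLp 2 (y, 0) := rfl

omit [CompleteSpace L] [CompleteSpace L'] in
private theorem inrL_apply (y : L') :
    (inrL y : WithLp 2 (L × L')) = WithLp.toLp 2 (0, y) := rfl

omit [NormedAddCommGroup L] [InnerProductSpace ℂ L] [CompleteSpace L] [NormedAddCommGroup L']
  [InnerProductSpace ℂ L'] [CompleteSpace L'] in
private theorem lp_ext {y z : WithLp 2 (L × L')} (h1 : y.fst = z.fst) (h2 : y.snd = z.snd) :
    y = z := by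
  apply (WithLp.ofLp_injective 2)
  exact Prod.ext h1 h2

omit [CompleteSpace L] [CompleteSpace L'] in
private theorem inlL_inrL (y : WithLp 2 (L × L')) : inlL y.fst + inrL y.snd = y := by
  apply lp_ext
  · show y.fst + 0 = y.fst
    rw [add_zero]
  · show 0 + y.snd = y.snd
    rw [zero_add]

private theorem isAmp_dsum {π : (H →L[ℂ] H) → (L →L[ℂ] L)} {π' : (H →L[ℂ] H) → (L' →L[ℂ] L')}
    (h : IsAmp π) (h' : IsAmp π') : IsAmp fun X => dsum (π X) (π' X) where
  add X Y := by
    ext1 y
    apply lp_ext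
    · show π (X + Y) y.fst = π X y.fst + π Y y.fst
      rw [h.add]
      rfl
    · show π' (X + Y) y.snd = π' X y.snd + π' Y y.snd
      rw [h'.add]
      rfl
  smul c X := by
    ext1 y
    apply lp_ext
    · show π (c • X) y.fst = c • π X y.fst
      rw [h.smul]
      rfl
    · show π' (c • X) y.snd = c • π' X y.snd
      rw [h'.smul]
      rfl
  mul X Y := by
    ext1 y
    apply lp_ext
    · show π (X ∘L Y) y.fst = π X (π Y y.fst)
      rw [h.mul]
      rfl
    · show π' (X ∘L Y) y.snd = π' X (π' Y y.snd)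
      rw [h'.mul]
      rfl
  adj X := by
    rw [ContinuousLinearMap.eq_adjoint_iff]
    intro y z
    rw [WithLp.prod_inner_apply, WithLp.prod_inner_apply]
    show ⟪(π (X†)) y.fst, z.fst⟫_ℂ + ⟪(π' (X†)) y.snd, z.snd⟫_ℂ =
      ⟪y.fst, π X z.fst⟫_ℂ + ⟪y.snd, π' X z.snd⟫_ℂ
    rw [h.adj, h'.adj, ContinuousLinearMap.adjoint_inner_left,
      ContinuousLinearMap.adjoint_inner_left]
  norm_le X := by
    refine ContinuousLinearMap.opNorm_le_bound _ (norm_nonneg _) fun y => ?_
    refine le_of_sq_le_sq ?_ (by positivity)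
    rw [WithLp.prod_norm_sq_eq_of_L2, dsum_fst, dsum_snd, mul_pow, WithLp.prod_norm_sq_eq_of_L2,
      mul_add, ← mul_pow, ← mul_pow]
    have h1 : ‖π X y.fst‖ ≤ ‖X‖ * ‖y.fst‖ :=
      ((π X).le_opNorm _).trans (by gcongr; exact h.norm_le X)
    have h2 : ‖π' X y.snd‖ ≤ ‖X‖ * ‖y.snd‖ :=
      ((π' X).le_opNorm _).trans (by gcongr; exact h'.norm_le X)
    gcongr
  total := by
    set S : Submodule ℂ (WithLp 2 (L × L')) := Submodule.span ℂ
      {y : WithLp 2 (L × L') | ∃ T : H →L[ℂ] WithLp 2 (L × L'),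
        (∀ X, dsum (π X) (π' X) ∘L T = T ∘L X) ∧ ∃ x, y = T x} with hS
    have hl : ∀ y : L, (inlL y : WithLp 2 (L × L')) ∈ S.topologicalClosure := by
      intro y
      have hy : y ∈ closure (Submodule.span ℂ {y : L | ∃ T : H →L[ℂ] L,
          (∀ X, π X ∘L T = T ∘L X) ∧ ∃ x, y = T x} : Set L) := h.total y
      have hc : Continuous (inlL : L → WithLp 2 (L × L')) := (inlL (L := L) (L' := L')).continuous
      have := map_mem_closure hc hy (t := (S : Set (WithLp 2 (L × L')))) ?_
      · exact this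
      · intro z hz
        have hle : Submodule.span ℂ {y : L | ∃ T : H →L[ℂ] L,
            (∀ X, π X ∘L T = T ∘L X) ∧ ∃ x, y = T x} ≤
            S.comap (inlL (L := L) (L' := L') : L →ₗ[ℂ] WithLp 2 (L × L')) := by
          rw [Submodule.span_le]
          rintro w ⟨T, hT, x, rfl⟩
          refine Submodule.subset_span ⟨inlL ∘L T, fun X => ?_, x, rfl⟩
          ext1 v
          apply lp_ext
          · show π X (T v) = T (X v)
            exact DFunLike.congr_fun (hT X) v
          · show π' X 0 = 0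
            rw [_root_.map_zero]
        exact hle hz
    have hr : ∀ y : L', (inrL y : WithLp 2 (L × L')) ∈ S.topologicalClosure := by
      intro y
      have hy : y ∈ closure (Submodule.span ℂ {y : L' | ∃ T : H →L[ℂ] L',
          (∀ X, π' X ∘L T = T ∘L X) ∧ ∃ x, y = T x} : Set L') := h'.total y
      have hc : Continuous (inrL : L' → WithLp 2 (L × L')) := (inrL (L := L) (L' := L')).continuous
      have := map_mem_closure hc hy (t := (S : Set (WithLp 2 (L × L')))) ?_
      · exact this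
      · intro z hz
        have hle : Submodule.span ℂ {y : L' | ∃ T : H →L[ℂ] L',
            (∀ X, π' X ∘L T = T ∘L X) ∧ ∃ x, y = T x} ≤
            S.comap (inrL (L := L) (L' := L') : L' →ₗ[ℂ] WithLp 2 (L × L')) := by
          rw [Submodule.span_le]
          rintro w ⟨T, hT, x, rfl⟩
          refine Submodule.subset_span ⟨inrL ∘L T, fun X => ?_, x, rfl⟩
          ext1 v
          apply lp_ext
          · show π X 0 = 0
            rw [_root_.map_zero]
          · show π' X (T v) = T (X v)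
            exact DFunLike.congr_fun (hT X) v
        exact hle hz
    intro y
    have := S.topologicalClosure.add_mem (hl y.fst) (hr y.snd)
    rw [inlL_inrL] at this
    exact this

end Helpers

theorem IsNrm.add {θ θ' : (H →L[ℂ] H) → ℂ} (h : IsNrm θ) (h' : IsNrm θ') :
    IsNrm fun X => θ X + θ' X := by
  obtain ⟨L, i1, i2, i3, π, α, β, hπ, hθ⟩ := h
  obtain ⟨L', j1, j2, j3, π', α', β', hπ', hθ'⟩ := h'
  refine ⟨WithLp 2 (L × L'), inferInstance, inferInstance, inferInstance,
    fun X => dsum (π X) (π' X), WithLp.toLp 2 (α, α'), WithLp.toLp 2 (β, β'),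
    isAmp_dsum hπ hπ', fun X => ?_⟩
  show θ X + θ' X = _
  rw [WithLp.prod_inner_apply, hθ, hθ']
  rfl

theorem IsNrm.sum {ι : Type*} (s : Finset ι) (θ : ι → (H →L[ℂ] H) → ℂ)
    (h : ∀ i ∈ s, IsNrm (θ i)) : IsNrm fun X => ∑ i ∈ s, θ i X := by
  classical
  induction s using Finset.induction_on with
  | empty =>
    have h0 := nrm_vec (0 : H) (0 : H)
    have e : (fun X : H →L[ℂ] H => ∑ i ∈ (∅ : Finset ι), θ i X) =
        fun X : H →L[ℂ] H => ⟪(0 : H), X 0⟫_ℂ := by
      funext X
      rw [Finset.sum_empty, inner_zero_left]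
    rw [e]
    exact h0
  | insert a s ha ih =>
    have h1 := h a (Finset.mem_insert_self a s)
    have h2 := ih fun i hi => h i (Finset.mem_insert_of_mem hi)
    have e : (fun X : H →L[ℂ] H => ∑ i ∈ insert a s, θ i X) =
        fun X => θ a X + ∑ i ∈ s, θ i X := by
      funext X
      rw [Finset.sum_insert ha]
    rw [e]
    exact h1.add h2

end Pool.Agent.VNQ
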