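import Pool.Agent.VNQ.QGB

/-!
# Two total sets

* `Wt.total_H`: the vectors `m (z_i)`, `m ∈ M'`, span a dense subspace of `H`. Proof. Let `p` be the
  orthogonal projection onto the closure `L` of their span. `M' L ⊆ L` and `M'` is closed under
  adjoints, so `p` commutes with `M'`, hence `p ∈ M` (`mem_of_comm`) and `1 - p ∈ M`
  (`sub_mem'`, `id_mem`). `(1 - p) z_i = 0` for all `i` (`m = 1`), so `1 - p = 0` by `faithful`.
* `Wt.total_G`: the vectors `Z_l† m z_p`, `m ∈ M'`, span a dense subspace of `G`. Proof. If `g` is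
  orthogonal to all of them then `⟪m z_p, Z_l g⟫ = 0` for all `m`, `p`, so `Z_l g = 0` for all `l`
  by
  `total_H`, so `g = 0` (`ext_Z`).
* `Wt.inner_sigma`: for `b ∈ N` with `b† ∈ N`, `m ∈ M'`:
  `⟪Λ (b†), Z_l† m z_p⟫ = ⟪b† z_l, m z_p⟫ = ⟪z_l, b m z_p⟫ = ⟪z_l, m b z_p⟫ = ⟪m† z_l, b z_p⟫
  = ⟪Z_p† m† z_l, Λ b⟫` (`Z_Λ`, `mem_comm_iff`).
-/

set_option autoImplicit false

noncomputable section

open scoped TensorProduct InnerProductSpace InnerProduct ENNReal
open Filter

namespace Pool.Agent.VNQ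

universe u

variable {H G : Type u} [NormedAddCommGroup H] [InnerProductSpace ℂ H] [CompleteSpace H]
  [NormedAddCommGroup G] [InnerProductSpace ℂ G] [CompleteSpace G]

namespace Wt

variable {M : VonNeumannAlgebra H} (w : Wt M G)

theorem total_H : Dense (Submodule.span ℂ {ξ : H | ∃ m ∈ M.commutant, ∃ i, ξ = m (w.z i)} :
    Set H) := by
  set S : Submodule ℂ H := Submodule.span ℂ {ξ : H | ∃ m ∈ M.commutant, ∃ i, ξ = m (w.z i)}
    with hS
  have hmS : ∀ m ∈ M.commutant, ∀ ξ ∈ S, m ξ ∈ S := by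
    intro m hm ξ hξ
    rw [hS] at hξ
    induction hξ using Submodule.span_induction with
    | mem x hx =>
      obtain ⟨m', hm', i, rfl⟩ := hx
      exact Submodule.subset_span ⟨m ∘L m', comp_mem hm hm', i, rfl⟩
    | zero => simp
    | add x y _ _ hx hy =>
      rw [map_add]
      exact S.add_mem hx hy
    | smul c x _ hx =>
      rw [map_smul]
      exact S.smul_mem c hx
  have hmL : ∀ m ∈ M.commutant, ∀ ξ ∈ S.topologicalClosure, m ξ ∈ S.topologicalClosure := by
    intro m hm ξ hξ
    have h1 : ξ ∈ closure (S : Set H) := hξ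
    have h2 : Set.MapsTo m (closure (S : Set H)) (closure (S : Set H)) :=
      Set.MapsTo.closure (fun x hx => hmS m hm x hx) m.continuous
    exact h2 h1
  have hmO : ∀ m ∈ M.commutant, ∀ ξ ∈ S.topologicalClosureᗮ, m ξ ∈ S.topologicalClosureᗮ := by
    intro m hm ξ hξ
    rw [Submodule.mem_orthogonal] at hξ ⊢
    intro u hu
    rw [← ContinuousLinearMap.adjoint_inner_left]
    exact hξ _ (hmL _ (adj_mem hm) u hu)
  set p : H →L[ℂ] H := S.topologicalClosure.starProjection with hp
  have hpM : p ∈ M := by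
    refine mem_of_comm fun m hm ξ => ?_
    symm
    refine Submodule.eq_starProjection_of_mem_orthogonal ?_ ?_
    · exact hmL m hm _ (Submodule.starProjection_apply_mem _ ξ)
    · rw [← map_sub]
      exact hmO m hm _ (Submodule.sub_starProjection_mem_orthogonal ξ)
  have hz : ∀ i, w.z i ∈ S.topologicalClosure := by
    intro i
    refine S.le_topologicalClosure (Submodule.subset_span ⟨ContinuousLinearMap.id ℂ H, id_mem, i,
      rfl⟩)
  have h0 := w.faithful (ContinuousLinearMap.id ℂ H - p) (sub_mem' id_mem hpM) (fun i => by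
    have h1 : p (w.z i) = w.z i := Submodule.starProjection_eq_self_iff.2 (hz i)
    show w.z i - p (w.z i) = 0
    rw [h1, sub_self])
  rw [Submodule.dense_iff_topologicalClosure_eq_top, eq_top_iff]
  intro ξ _
  have h1 : ξ = p ξ := by
    have h2 := congrArg (fun f : H →L[ℂ] H => f ξ) h0
    exact sub_eq_zero.1 h2
  rw [h1]
  exact Submodule.starProjection_apply_mem _ ξ

theorem total_G : Dense (Submodule.span ℂ {g : G | ∃ m ∈ M.commutant, ∃ l p,
    g = ((w.Z l)†) (m (w.z p))} : Set G) := by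
  rw [Submodule.dense_iff_topologicalClosure_eq_top, Submodule.topologicalClosure_eq_top_iff,
    Submodule.eq_bot_iff]
  intro g hg
  rw [Submodule.mem_orthogonal] at hg
  refine w.ext_Z fun l => ?_
  rw [map_zero]
  refine Dense.eq_zero_of_inner_right (𝕜 := ℂ) w.total_H ?_
  intro v hv
  induction hv using Submodule.span_induction with
  | mem x hx =>
    obtain ⟨m, hm, i, rfl⟩ := hx
    rw [← ContinuousLinearMap.adjoint_inner_left]
    exact hg _ (Submodule.subset_span ⟨m, hm, l, i, rfl⟩)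
  | zero => simp
  | add x y _ _ hx hy => rw [inner_add_left, hx, hy, add_zero]
  | smul c x _ hx => rw [inner_smul_left, hx, mul_zero]

theorem inner_sigma {b m : H →L[ℂ] H} (hb : b ∈ w.N) (hb' : b† ∈ w.N) (hm : m ∈ M.commutant)
    (l p : w.ι) : ⟪w.Λ (b†), ((w.Z l)†) (m (w.z p))⟫_ℂ =
      ⟪((w.Z p)†) ((m†) (w.z l)), w.Λ b⟫_ℂ := by
  rw [ContinuousLinearMap.adjoint_inner_right, w.Z_Λ _ hb', ContinuousLinearMap.adjoint_inner_left,
    ContinuousLinearMap.adjoint_inner_left, w.Z_Λ _ hb, ContinuousLinearMap.adjoint_inner_left,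
    mem_comm_iff.1 hm b hb.1]

end Wt

end Pool.Agent.VNQ
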