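import Pool.Agent.VNQ.Pairs
import Pool.Agent.VNQ.Tot

/-!
# `K` is well defined

`QG.KR_zero`: `KR 0 ξ₁` implies `ξ₁ = 0`.

Proof. Fix an index `i`, a vector `η'`, `ζ = Z_i† η'`, and let `Y₀ = L_ζ† V† L_{ξ₁} : H → H`.
`Y₀ ∈ M`: it commutes with `m ∈ M'` (`V_adj_comm`, `lT_adj_mapT_right`, `L_{ξ₁} m η = (1 ⊗ m) L_{ξ₁}
η`).
Claim: `⟪Y₀ η, ζ_{i'}⟫ = 0` for all `η ∈ H` and all `i'` (`ζ_{i'} = Q.ψ.z i'`). Given `ε > 0` apply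
`KR 0 ξ₁` to the two vectors `η, η'`: there are `p_j, q_j ∈ N_ψ` with
`‖V (∑ tmul (Λ p_j) (q_j† η'))‖ < ε` and `‖tmul ξ₁ η - V (∑ tmul (Λ q_j) (p_j† η))‖ < ε`. Put
`y = ∑_j ⟪ζ, Λ q_j⟫ p_j†` so that `L_ζ† (∑ tmul (Λ q_j) (p_j† η)) = y η` (`lT_adjoint_tmul`). Then
`y† = ∑_j ⟪Λ q_j, ζ⟫ p_j ∈ N_ψ`, and, since `⟪Λ q_j, Z_i† η'⟫ = ⟪q_j ζ_i, η'⟫ = ⟪ζ_i, q_j† η'⟫`
(`Z_Λ`), `Λ(y†) = ∑_j ⟪ζ_i, q_j† η'⟫ Λ p_j = R_{ζ_i}† (∑tmul (_j Λ p_j) (q_j† η'))`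
(`rT_adjoint_tmul`), so
`‖Λ(y†)‖ ≤ ‖ζ_i‖ ‖∑ tmul (Λ p_j) (q_j† η')‖ = ‖ζ_i‖ ‖V (∑ tmul (Λ p_j) (q_j† η'))‖ ≤ ‖ζ_i‖ ε`
(`norm_V`). Hence
`|⟪y η, ζ_{i'}⟫| = |⟪η, y† ζ_{i'}⟫| ≤ ‖η‖ ‖y† ζ_{i'}‖ ≤ ‖η‖ ‖Λ(y†)‖ ≤ ‖η‖ ‖ζ_i‖ ε`
(`y† ζ_{i'} = Z_{i'} Λ(y†)`, `‖Z_{i'} g‖² ≤ ‖g‖²` by `norm_Z`). Also (`V_adj_V`)
`‖V†(tmul ξ₁ η) - ∑ tmul (Λ q_j) (p_j† η)‖ = ‖V†(tmul ξ₁ η - V(∑ tmul (Λ q_j) (p_j† η)))‖ ≤ ε`, so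
`‖Y₀ η - y η‖ ≤ ‖ζ‖ ε`. So `|⟪Y₀ η, ζ_{i'}⟫| ≤ ε (‖ζ‖ ‖ζ_{i'}‖ + ‖η‖ ‖ζ_i‖)` for all `ε > 0`.
The claim says `Y₀† ζ_{i'} = 0` for all `i'`, and `Y₀† ∈ M`, so `Y₀† = 0` by `Q.ψ.faithful`, and `Y₀
= 0`.
So `L_ζ† V† (tmul ξ₁ η) = 0` for all `ζ = Z_i† η'` and `η ∈ H`. These `ζ` span a dense subspace of
`H`
(if `g ⊥ Z_i† η'` for all `i`, `η'` then `Z_i g = 0` for all `i` and `g = 0` by `ext_Z`), so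
`V† (tmul ξ₁ η) = 0` (test with `tmul ζ κ`, `ext_inner_left'`).
Finally `tmul ξ₁ η` is a limit of vectors `V θ_n` (second half of `KR 0 ξ₁`), and
`V V† V θ_n = V θ_n`, so `tmul ξ₁ η = V V† (tmul ξ₁ η) = 0` for all `η`. Take `η = ξ₁`:
`‖ξ₁‖² = ‖tmul ξ₁ ξ₁‖ = 0`.
-/

set_option autoImplicit false

noncomputable section

open scoped TensorProduct InnerProductSpace InnerProduct ENNReal
open Filter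

namespace Pool.Agent.VNQ

universe u

variable {H G : Type u} [NormedAddCommGroup H] [InnerProductSpace ℂ H] [CompleteSpace H]
  [NormedAddCommGroup G] [InnerProductSpace ℂ G] [CompleteSpace G]

namespace QG

variable (Q : QG H G)

private theorem norm_V_adj_le (x : HTen H H) : ‖((Q.V)†) x‖ ≤ ‖x‖ := by
  have h1 : ‖((Q.V)†)‖ ≤ 1 := by
    rw [LinearIsometryEquiv.norm_map]
    exact ContinuousLinearMap.opNorm_le_bound _ zero_le_one fun θ => by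
      rw [Q.norm_V, one_mul]
  calc ‖((Q.V)†) x‖ ≤ ‖((Q.V)†)‖ * ‖x‖ := ContinuousLinearMap.le_opNorm _ _
    _ ≤ 1 * ‖x‖ := by gcongr
    _ = ‖x‖ := one_mul _

private theorem norm_Z_le (i : Q.ψ.ι) (g : H) : ‖Q.ψ.Z i g‖ ≤ ‖g‖ := by
  have h1 : ‖Q.ψ.Z i g‖ ^ 2 ≤ ‖g‖ ^ 2 :=
    le_hasSum (Q.ψ.norm_Z g) i fun j _ => by positivity
  exact (pow_le_pow_iff_left₀ (norm_nonneg _) (norm_nonneg _) two_ne_zero).1 h1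

private theorem norm_lT_adj_le (ζ : H) (x : HTen H H) : ‖((lT ζ)†) x‖ ≤ ‖ζ‖ * ‖x‖ := by
  have h1 : ‖((lT ζ : H →L[ℂ] HTen H H)†)‖ ≤ ‖ζ‖ := by
    rw [LinearIsometryEquiv.norm_map]
    exact norm_lT_le ζ
  exact (ContinuousLinearMap.le_opNorm _ _).trans (by gcongr)

private theorem norm_rT_adj_le (ζ : H) (x : HTen H H) : ‖((rT ζ)†) x‖ ≤ ‖ζ‖ * ‖x‖ := by
  have h1 : ‖((rT ζ : H →L[ℂ] HTen H H)†)‖ ≤ ‖ζ‖ := by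
    rw [LinearIsometryEquiv.norm_map]
    exact norm_rT_le ζ
  exact (ContinuousLinearMap.le_opNorm _ _).trans (by gcongr)

private theorem comb_mem {m : ℕ} (c : Fin m → ℂ) (p : Fin m → H →L[ℂ] H)
    (hp : ∀ j, p j ∈ Q.ψ.N) : ∑ j, c j • p j ∈ Q.ψ.N ∧
      Q.ψ.Λ (∑ j, c j • p j) = ∑ j, c j • Q.ψ.Λ (p j) := by
  constructor
  · have h1 : ∑ j, c j • p j ∈ Q.ψ.Nsub :=
      Submodule.sum_mem _ fun j _ => Submodule.smul_mem _ _ (hp j)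
    exact h1
  · rw [Q.ψ.Λ_sum _ _ fun j _ => Q.ψ.smul_mem (c j) (hp j)]
    exact Finset.sum_congr rfl fun j _ => Q.ψ.Λ_smul (c j) (p j) (hp j)

private theorem bound {ξ₁ : H} (h : Q.KR 0 ξ₁) (i i' : Q.ψ.ι) (η η' : H) {ε : ℝ} (hε : 0 < ε) :
    ‖⟪((lT (((Q.ψ.Z i)†) η'))†) (((Q.V)†) (tmul ξ₁ η)), Q.ψ.z i'⟫_ℂ‖ ≤
      ε * (‖((Q.ψ.Z i)†) η'‖ * ‖Q.ψ.z i'‖ + ‖η‖ * ‖Q.ψ.z i‖) := by
  obtain ⟨m, p, q, hp, hq, hk⟩ := h ε hε 2 ![η, η']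
  have k0 := (hk 0).2
  have k1 := (hk 1).1
  simp only [Matrix.cons_val_zero, Matrix.cons_val_one] at k0 k1
  rw [zero_tmul, zero_sub, norm_neg, Q.norm_V] at k1
  set ζ : H := ((Q.ψ.Z i)†) η' with hζ
  set θ : HTen H H := ∑ j, tmul (Q.ψ.Λ (q j)) (((p j)†) η) with hθ
  obtain ⟨hb, hΛ⟩ := Q.comb_mem (fun j => ⟪Q.ψ.Λ (q j), ζ⟫_ℂ) p hp
  set b : H →L[ℂ] H := ∑ j, ⟪Q.ψ.Λ (q j), ζ⟫_ℂ • p j with hbdef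
  have e1 : Q.ψ.Λ b = ((rT (Q.ψ.z i))†) (∑ j, tmul (Q.ψ.Λ (p j)) (((q j)†) η')) := by
    rw [hΛ, map_sum]
    refine Finset.sum_congr rfl fun j _ => ?_
    rw [rT_adjoint_tmul, hζ, ContinuousLinearMap.adjoint_inner_right, Q.ψ.Z_Λ _ (hq j),
      ContinuousLinearMap.adjoint_inner_right]
  have e2 : ‖b (Q.ψ.z i')‖ ≤ ‖Q.ψ.z i‖ * ε := by
    rw [← Q.ψ.Z_Λ b hb i']
    refine (Q.norm_Z_le i' _).trans ?_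
    rw [e1]
    refine (norm_rT_adj_le _ _).trans ?_
    gcongr
  have e3 : ⟪((lT ζ)†) θ, Q.ψ.z i'⟫_ℂ = ⟪η, b (Q.ψ.z i')⟫_ℂ := by
    have hbz : b (Q.ψ.z i') = ∑ j, ⟪Q.ψ.Λ (q j), ζ⟫_ℂ • p j (Q.ψ.z i') := by
      rw [hbdef, _root_.sum_apply]
      rfl
    rw [hbz, hθ, map_sum, sum_inner, inner_sum]
    refine Finset.sum_congr rfl fun j _ => ?_
    rw [lT_adjoint_tmul, inner_smul_left, inner_smul_right, inner_conj_symm,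
      ContinuousLinearMap.adjoint_inner_left]
  have e4 : ‖((lT ζ)†) (((Q.V)†) (tmul ξ₁ η)) - ((lT ζ)†) θ‖ ≤ ‖ζ‖ * ε := by
    rw [← map_sub]
    refine (norm_lT_adj_le _ _).trans ?_
    have h1 : ((Q.V)†) (tmul ξ₁ η) - θ = ((Q.V)†) (tmul ξ₁ η - Q.V θ) := by
      rw [map_sub, Q.V_adj_V]
    rw [h1]
    have h2 := (Q.norm_V_adj_le (tmul ξ₁ η - Q.V θ)).trans k0.le
    gcongr
  have e5 : ⟪((lT ζ)†) (((Q.V)†) (tmul ξ₁ η)), Q.ψ.z i'⟫_ℂ =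
      ⟪((lT ζ)†) (((Q.V)†) (tmul ξ₁ η)) - ((lT ζ)†) θ, Q.ψ.z i'⟫_ℂ + ⟪η, b (Q.ψ.z i')⟫_ℂ := by
    rw [← e3, ← inner_add_left, sub_add_cancel]
  rw [e5]
  refine (norm_add_le _ _).trans ?_
  have f1 : ‖⟪((lT ζ)†) (((Q.V)†) (tmul ξ₁ η)) - ((lT ζ)†) θ, Q.ψ.z i'⟫_ℂ‖ ≤
      ‖ζ‖ * ε * ‖Q.ψ.z i'‖ := (norm_inner_le_norm _ _).trans (by gcongr)
  have f2 : ‖⟪η, b (Q.ψ.z i')⟫_ℂ‖ ≤ ‖η‖ * (‖Q.ψ.z i‖ * ε) :=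
    (norm_inner_le_norm _ _).trans (by gcongr)
  calc _ ≤ ‖ζ‖ * ε * ‖Q.ψ.z i'‖ + ‖η‖ * (‖Q.ψ.z i‖ * ε) := add_le_add f1 f2
    _ = ε * (‖ζ‖ * ‖Q.ψ.z i'‖ + ‖η‖ * ‖Q.ψ.z i‖) := by ring

private theorem eq_zero_of_le {x : ℝ} {c : ℝ} (hx : 0 ≤ x) (h : ∀ ε > 0, x ≤ ε * c) : x = 0 := by
  refine le_antisymm ?_ hx
  by_contra hpos
  rw [not_le] at hpos
  have hc : 0 < c := by
    have := h 1 one_pos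
    linarith
  have h2 := h (x / (2 * c)) (by positivity)
  have h3 : x / (2 * c) * c = x / 2 := by
    field_simp
  rw [h3] at h2
  linarith

private theorem Y_zero {ξ₁ : H} (h : Q.KR 0 ξ₁) (i : Q.ψ.ι) (η' : H) :
    (lT (((Q.ψ.Z i)†) η'))† ∘L (Q.V)† ∘L lT ξ₁ = (0 : H →L[ℂ] H) := by
  set Y : H →L[ℂ] H := (lT (((Q.ψ.Z i)†) η'))† ∘L (Q.V)† ∘L lT ξ₁ with hY
  have hmem : Y ∈ Q.M := by
    refine mem_of_comm fun m hm ξ => ?_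
    show m (((lT (((Q.ψ.Z i)†) η'))†) (((Q.V)†) (tmul ξ₁ ξ))) =
      ((lT (((Q.ψ.Z i)†) η'))†) (((Q.V)†) (tmul ξ₁ (m ξ)))
    rw [← lT_adj_mapT_right, ← Q.V_adj_comm hm, mapT_tmul, ContinuousLinearMap.id_apply]
  have h1 : Y† = 0 := by
    refine Q.ψ.faithful _ (adj_mem hmem) fun i' => ?_
    refine ext_inner_left ℂ fun η => ?_
    rw [ContinuousLinearMap.adjoint_inner_right, inner_zero_right]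
    have h2 : ‖⟪Y η, Q.ψ.z i'⟫_ℂ‖ = 0 :=
      eq_zero_of_le (norm_nonneg _) fun ε hε => Q.bound h i i' η η' hε
    exact norm_eq_zero.1 h2
  calc Y = (Y†)† := (ContinuousLinearMap.adjoint_adjoint Y).symm
    _ = 0 := by rw [h1, map_zero]

private theorem V_adj_zero {ξ₁ : H} (h : Q.KR 0 ξ₁) (η : H) : ((Q.V)†) (tmul ξ₁ η) = 0 := by
  refine ext_mapT_left Q.ψ.Z Q.ψ.norm_Z fun i => ?_
  rw [map_zero]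
  refine ext_inner_left' fun η' κ => ?_
  have e : ⟪tmul η' κ, mapT (Q.ψ.Z i) (ContinuousLinearMap.id ℂ H) (((Q.V)†) (tmul ξ₁ η))⟫_ℂ =
      ⟪κ, ((lT (((Q.ψ.Z i)†) η'))†) (((Q.V)†) (tmul ξ₁ η))⟫_ℂ := by
    rw [inner_lT_adjoint, ← ContinuousLinearMap.adjoint_inner_left, adjoint_mapT, mapT_tmul,
      ContinuousLinearMap.adjoint_id, ContinuousLinearMap.id_apply]
  have e2 : ((lT (((Q.ψ.Z i)†) η'))†) (((Q.V)†) (tmul ξ₁ η)) = 0 :=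
    congrArg (fun f : H →L[ℂ] H => f η) (Q.Y_zero h i η')
  rw [e, e2, inner_zero_right, inner_zero_right]

theorem KR_zero {ξ₁ : H} (h : Q.KR 0 ξ₁) : ξ₁ = 0 := by
  have h1 : ‖tmul ξ₁ ξ₁‖ = 0 := by
    refine eq_zero_of_le (c := 2) (norm_nonneg _) fun ε hε => ?_
    obtain ⟨m, p, q, hp, hq, hk⟩ := h ε hε 1 ![ξ₁]
    have k0 := (hk 0).2
    simp only [Matrix.cons_val_fin_one] at k0
    set θ : HTen H H := ∑ j, tmul (Q.ψ.Λ (q j)) (((p j)†) ξ₁) with hθ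
    have h2 : θ = ((Q.V)†) (Q.V θ - tmul ξ₁ ξ₁) := by
      rw [map_sub, Q.V_adj_V, Q.V_adj_zero h, sub_zero]
    have h3 : ‖θ‖ ≤ ε := by
      rw [h2]
      refine (Q.norm_V_adj_le _).trans ?_
      rw [norm_sub_rev]
      exact k0.le
    calc ‖tmul ξ₁ ξ₁‖ = ‖(tmul ξ₁ ξ₁ - Q.V θ) + Q.V θ‖ := by rw [sub_add_cancel]
      _ ≤ ‖tmul ξ₁ ξ₁ - Q.V θ‖ + ‖Q.V θ‖ := norm_add_le _ _
      _ ≤ ε + ε := by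
          rw [Q.norm_V]
          exact add_le_add k0.le h3
      _ = ε * 2 := by ring
  rw [norm_tmul] at h1
  exact norm_eq_zero.1 (mul_self_eq_zero.1 h1)

end QG

end Pool.Agent.VNQ
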