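import Pool.Agent.VNQ.MD

/-!
# Existence of the modular data

`IsRel.exists_md`: a closed densely defined conjugate-linear involution with graph `Γ` has modular
data `md` with `md.rel = Γ`.

Proof. Consider `E × E` (as `WithLp 2 (E × E)`) as a REAL Hilbert space (inner product
`re ⟪·,·⟫`; `InnerProductSpace.rclikeToReal ℂ E` or `InnerProductSpace.complexToReal`). `Γ` is a
closed real subspace (`closed`, `add`, `smul` for real `c`). For `x ∈ E` let `(A x, C x)` be the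
orthogonal projection of `(x, 0)` onto `Γ`. (One can also avoid `WithLp`: minimize
`‖x - ξ‖² + ‖ξ₁‖²` over `(ξ, ξ₁) ∈ Γ`.)

(1) `(A x, C x) ∈ Γ` and for all `(ξ, ξ₁) ∈ Γ`: `re ⟪ξ, x - A x⟫ - re ⟪ξ₁, C x⟫ = 0`. Use this for
`(ξ, ξ₁)` and `(i ξ, - i ξ₁) ∈ Γ`: since `⟪i ξ, y⟫ = - i ⟪ξ, y⟫`, `⟪-i ξ₁, y⟫ = i ⟪ξ₁, y⟫`, the
second says `im ⟪ξ, x - A x⟫ + im ⟪ξ₁, C x⟫ = 0`. Together:
(*) `⟪ξ, x - A x⟫ = ⟪C x, ξ₁⟫` for all `(ξ, ξ₁) ∈ Γ`.
(2) Uniqueness: if `(a, c) ∈ Γ` and `⟪ξ, x - a⟫ = ⟪c, ξ₁⟫` for all `(ξ, ξ₁) ∈ Γ` then `a = A x`,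
`c = C x`: with `(ξ, ξ₁) = (a - A x, c - C x) ∈ Γ`: `-‖a - A x‖² = ‖c - C x‖²`.
(3) By (2): `A (x + y) = A x + A y`, `C (x + y) = C x + C y`, `A (z x) = z A x`,
`C (z x) = z̄ C x` (`(z A x, z̄ C x) ∈ Γ`, `⟪ξ, z x - z A x⟫ = z ⟪C x, ξ₁⟫ = ⟪z̄ C x, ξ₁⟫`).
(4) (*) with `(ξ, ξ₁) = (A x, C x)`: `⟪A x, x⟫ = ‖A x‖² + ‖C x‖²`; so `‖A x‖ ≤ ‖x‖`,
`‖C x‖ ≤ ‖x‖` (`‖C x‖² ≤ ‖A x‖ ‖x‖ ≤ ‖x‖²`): `A`, `C` are bounded; `A_nonneg`, `A_le` follow.
(5) `A_symm`: (*) for `x` and `(A y, C y)`: `⟪A y, x - A x⟫ = ⟪C x, C y⟫`; (*) for `y` and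
`(A x, C x)`, conjugated: `⟪y - A y, A x⟫ = ⟪C x, C y⟫`. So `⟪A y, x⟫ = ⟪y, A x⟫`.
(6) `C_symm`: (*) for `x` and `(C y, A y) ∈ Γ` (`symm`): `⟪C y, x⟫ = ⟪C y, A x⟫ + ⟪C x, A y⟫`, which
is
symmetric in `x, y`.
(7) `CC`: `⟪C (C y), x⟫ = ⟪C x, C y⟫ = ⟪A y, x - A x⟫ = ⟪A y - A (A y), x⟫` for all `x`.
(8) `CA`: `⟪C (A y), x⟫ = ⟪C x, A y⟫ = ⟪C y, x - A x⟫ = ⟪C y - A (C y), x⟫` (the middle equality is
(*) for `x` and `(C y, A y)`).
(9) `A_inj`: `A x = 0` ⟹ `(0, C x) ∈ Γ` ⟹ `C x = 0` (`single`) ⟹ (*) `⟪ξ, x⟫ = 0` for all `ξ` in the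
dense domain ⟹ `x = 0`. `A_inj'`: `A x = x` ⟹ by (4) `C x = 0`, so `(x, 0) ∈ Γ`, `(0, x) ∈ Γ`,
`x = 0`.
(10) `Γ ⊆ md.rel`: for `(ξ, ξ₁) ∈ Γ` and all `x`: `⟪ξ, x - A x⟫ = ⟪C x, ξ₁⟫ = ⟪C ξ₁, x⟫`
(`C_symm` and conjugation: `⟪C x, ξ₁⟫ = ⟪C ξ₁, x⟫`), so `⟪ξ - A ξ, x⟫ = ⟪C ξ₁, x⟫`.
(11) `md.rel ⊆ Γ`: let `(1 - A) ξ = C ξ₁`; by `md.rel_symm` also `(1 - A) ξ₁ = C ξ`. So
`(ξ, ξ₁) = (A ξ, C ξ) + (C ξ₁, A ξ₁)`, and both are in `Γ` (`symm`).
-/

set_option autoImplicit false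

noncomputable section

open scoped InnerProductSpace InnerProduct

namespace Pool.Agent.VNQ

universe u

variable {E : Type u} [NormedAddCommGroup E] [InnerProductSpace ℂ E] [CompleteSpace E]

private theorem ex_proj {Γ : Set (E × E)} (h : IsRel Γ) (x : E) : ∃ a c : E, (a, c) ∈ Γ ∧
    ∀ ξ ξ₁, (ξ, ξ₁) ∈ Γ → (⟪ξ, x - a⟫_ℂ).re - (⟪ξ₁, c⟫_ℂ).re = 0 := by
  let : InnerProductSpace ℝ E := InnerProductSpace.complexToReal
  let K : Submodule ℝ (WithLp 2 (E × E)) :=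
    { carrier := {p | (p.fst, p.snd) ∈ Γ}
      add_mem' := by
        intro p q hp hq
        exact h.add _ hp _ hq
      zero_mem' := by
        have h1 := h.dense.nonempty
        obtain ⟨ξ, ξ₁, h2⟩ := h1
        have h3 := h.smul 0 _ h2
        simp only [zero_smul, map_zero] at h3
        exact h3
      smul_mem' := by
        intro r p hp
        have h3 := h.smul (r : ℂ) _ hp
        rw [Complex.conj_ofReal] at h3
        exact h3 }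
  have hK : IsClosed (K : Set (WithLp 2 (E × E))) :=
    h.closed.preimage (WithLp.prod_continuous_ofLp 2 E E)
  have : CompleteSpace K := hK.completeSpace_coe
  obtain ⟨y, hy, z, hz, hyz⟩ := K.exists_add_mem_mem_orthogonal (WithLp.toLp 2 (x, 0))
  refine ⟨y.fst, y.snd, hy, fun ξ ξ₁ hξ => ?_⟩
  have h1 := (Submodule.mem_orthogonal K z).1 hz (WithLp.toLp 2 (ξ, ξ₁)) hξ
  rw [WithLp.prod_inner_apply] at h1
  have h2 : z.fst = x - y.fst := by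
    have h3 := congrArg WithLp.fst hyz
    rw [WithLp.add_fst] at h3
    rw [eq_sub_iff_add_eq, add_comm]
    exact h3.symm
  have h3 : z.snd = - y.snd := by
    have h3 := congrArg WithLp.snd hyz
    rw [WithLp.add_snd] at h3
    rw [eq_neg_iff_add_eq_zero, add_comm]
    exact h3.symm
  have h4 : (⟪ξ, z.fst⟫_ℂ).re + (⟪ξ₁, z.snd⟫_ℂ).re = 0 := h1
  rw [h2, h3, inner_neg_right, Complex.neg_re] at h4
  linarith

/-- the orthogonal projection of `(x, 0)`, complex form -/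
private theorem ex_star {Γ : Set (E × E)} (h : IsRel Γ) (x : E) : ∃ a c : E, (a, c) ∈ Γ ∧
    ∀ ξ ξ₁, (ξ, ξ₁) ∈ Γ → ⟪ξ, x - a⟫_ℂ = ⟪c, ξ₁⟫_ℂ := by
  obtain ⟨a, c, hac, H⟩ := ex_proj h x
  refine ⟨a, c, hac, fun ξ ξ₁ hξ => ?_⟩
  have h1 := H ξ ξ₁ hξ
  have h2 := H _ _ (h.smul Complex.I _ hξ)
  simp only [Complex.conj_I, inner_smul_left, map_neg] at h2
  have h3 : (⟪ξ₁, c⟫_ℂ).re = (⟪c, ξ₁⟫_ℂ).re := by
    rw [← inner_conj_symm, Complex.conj_re]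
  have h4 : (⟪ξ₁, c⟫_ℂ).im = -(⟪c, ξ₁⟫_ℂ).im := by
    rw [← inner_conj_symm, Complex.conj_im]
  simp only [neg_mul, neg_neg, Complex.neg_re, Complex.mul_re, Complex.I_re, Complex.I_im,
    zero_mul, one_mul, zero_sub] at h2
  apply Complex.ext
  · linarith
  · linarith

theorem IsRel.exists_md {Γ : Set (E × E)} (h : IsRel Γ) : ∃ md : MD E, md.rel = Γ := by
  choose A C hAC H using ex_star h
  have hneg : ∀ p ∈ Γ, (-p.1, -p.2) ∈ Γ := by
    intro p hp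
    have h1 := h.smul (-1) p hp
    simp only [neg_smul, one_smul, map_neg, map_one] at h1
    exact h1
  -- uniqueness
  have huniq : ∀ x a c : E, (a, c) ∈ Γ → (∀ ξ ξ₁, (ξ, ξ₁) ∈ Γ → ⟪ξ, x - a⟫_ℂ = ⟪c, ξ₁⟫_ℂ) →
      a = A x ∧ c = C x := by
    intro x a c hac h1
    have h2 : (a - A x, c - C x) ∈ Γ := by
      have h3 := h.add _ hac _ (hneg _ (hAC x))
      simp only [Prod.mk_add_mk, ← sub_eq_add_neg] at h3
      exact h3
    have h3 := h1 _ _ h2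
    have h4 := H x _ _ h2
    have h5 : ⟪a - A x, a - A x⟫_ℂ + ⟪c - C x, c - C x⟫_ℂ = 0 := by
      have e1 : ⟪a - A x, a - A x⟫_ℂ = ⟪a - A x, x - A x⟫_ℂ - ⟪a - A x, x - a⟫_ℂ := by
        rw [← inner_sub_right]
        congr 1
        abel
      rw [e1, h3, h4, inner_sub_left c (C x)]
      ring
    have h6 := congrArg Complex.re h5
    rw [inner_self_eq_norm_sq_to_K, inner_self_eq_norm_sq_to_K] at h6
    have h7 : ‖a - A x‖ ^ 2 + ‖c - C x‖ ^ 2 = 0 := by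
      have : ((‖a - A x‖ ^ 2 + ‖c - C x‖ ^ 2 : ℝ) : ℂ).re = 0 := by
        push_cast
        exact h6
      rwa [Complex.ofReal_re] at this
    have h8 : ‖a - A x‖ = 0 := by
      have := sq_nonneg ‖a - A x‖
      have := sq_nonneg ‖c - C x‖
      exact pow_eq_zero_iff two_ne_zero |>.1 (by linarith)
    have h9 : ‖c - C x‖ = 0 := by
      have := sq_nonneg ‖a - A x‖
      have := sq_nonneg ‖c - C x‖
      exact pow_eq_zero_iff two_ne_zero |>.1 (by linarith)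
    exact ⟨sub_eq_zero.1 (norm_eq_zero.1 h8), sub_eq_zero.1 (norm_eq_zero.1 h9)⟩
  have hadd : ∀ x y, A (x + y) = A x + A y ∧ C (x + y) = C x + C y := by
    intro x y
    obtain ⟨h1, h2⟩ := huniq (x + y) (A x + A y) (C x + C y) (h.add _ (hAC x) _ (hAC y))
      (fun ξ ξ₁ hξ => by
        have e1 : x + y - (A x + A y) = (x - A x) + (y - A y) := by abel
        rw [e1, inner_add_right, inner_add_left, H x _ _ hξ, H y _ _ hξ])
    exact ⟨h1.symm, h2.symm⟩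
  have hsmul : ∀ (z : ℂ) (x : E), A (z • x) = z • A x ∧
      C (z • x) = (starRingEnd ℂ) z • C x := by
    intro z x
    obtain ⟨h1, h2⟩ := huniq (z • x) (z • A x) ((starRingEnd ℂ) z • C x)
      (h.smul z _ (hAC x))
      (fun ξ ξ₁ hξ => by
        rw [← smul_sub, inner_smul_right, inner_smul_left, H x _ _ hξ, Complex.conj_conj])
    exact ⟨h1.symm, h2.symm⟩
  -- (4)
  have hnorm : ∀ x, (⟪A x, x⟫_ℂ).re = ‖A x‖ ^ 2 + ‖C x‖ ^ 2 := by
    intro x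
    have h1 := H x _ _ (hAC x)
    rw [inner_sub_right, sub_eq_iff_eq_add, inner_self_eq_norm_sq_to_K,
      inner_self_eq_norm_sq_to_K] at h1
    have h2 : ⟪A x, x⟫_ℂ = ((‖A x‖ ^ 2 + ‖C x‖ ^ 2 : ℝ) : ℂ) := by
      rw [h1]
      push_cast
      exact add_comm _ _
    rw [h2, Complex.ofReal_re]
  have hre : ∀ x, (⟪A x, x⟫_ℂ).re ≤ ‖A x‖ * ‖x‖ := fun x =>
    (Complex.re_le_norm _).trans (norm_inner_le_norm _ _)
  have hA1 : ∀ x, ‖A x‖ ≤ 1 * ‖x‖ := by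
    intro x
    rw [one_mul]
    have h1 := hnorm x
    have h2 := hre x
    by_contra hcon
    push Not at hcon
    have h3 := norm_nonneg x
    nlinarith [sq_nonneg ‖C x‖]
  have hC1 : ∀ x, ‖C x‖ ≤ 1 * ‖x‖ := by
    intro x
    rw [one_mul]
    have h1 := hnorm x
    have h2 := hre x
    have h3 := hA1 x
    rw [one_mul] at h3
    have h4 := norm_nonneg x
    refine abs_le_of_sq_le_sq' ?_ h4 |>.2
    nlinarith [sq_nonneg ‖A x‖]
  let A' : E →L[ℂ] E := LinearMap.mkContinuous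
    { toFun := A
      map_add' := fun x y => (hadd x y).1
      map_smul' := fun z x => (hsmul z x).1 } 1 hA1
  let C' : E →L⋆[ℂ] E := LinearMap.mkContinuous
    { toFun := C
      map_add' := fun x y => (hadd x y).2
      map_smul' := fun z x => (hsmul z x).2 } 1 hC1
  have hA' : ∀ x, A' x = A x := fun x => rfl
  have hC' : ∀ x, C' x = C x := fun x => rfl
  have hAsub : ∀ x y, A (x - y) = A x - A y := fun x y => map_sub A' x y
  -- (5)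
  have e5 : ∀ x y, ⟪A y, x - A x⟫_ℂ = ⟪C x, C y⟫_ℂ := fun x y => H x _ _ (hAC y)
  have Asymm : ∀ x y, ⟪A x, y⟫_ℂ = ⟪x, A y⟫_ℂ := by
    intro y x
    have h1 := e5 x y
    have h2 : ⟪y - A y, A x⟫_ℂ = ⟪C x, C y⟫_ℂ := by
      rw [← inner_conj_symm, e5 y x, inner_conj_symm]
    rw [← h2, inner_sub_right, inner_sub_left] at h1
    linear_combination h1
  -- (6)
  have e6 : ∀ x y, ⟪C y, x - A x⟫_ℂ = ⟪C x, A y⟫_ℂ := fun x y => H x _ _ (h.symm _ (hAC y))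
  have Csymm : ∀ x y, ⟪C x, y⟫_ℂ = ⟪C y, x⟫_ℂ := by
    intro x y
    have h1 := e6 x y
    have h2 := e6 y x
    rw [inner_sub_right] at h1 h2
    linear_combination h2 - h1
  -- (7)
  have CC : ∀ x, C (C x) = A (x - A x) := by
    intro y
    refine ext_inner_right ℂ fun x => ?_
    rw [Csymm, ← e5 x y, hAsub, inner_sub_right, inner_sub_left, Asymm (A y) x]
  -- (8)
  have CA : ∀ x, C (A x) = C x - A (C x) := by
    intro y
    refine ext_inner_right ℂ fun x => ?_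
    rw [Csymm, ← e6 x y, inner_sub_right, inner_sub_left, Asymm (C y) x]
  -- (9)
  have Ainj : ∀ x, A x = 0 → x = 0 := by
    intro x hx
    have h1 : C x = 0 := by
      refine h.single (C x) ?_
      have h2 := hAC x
      rwa [hx] at h2
    have h2 : ∀ ξ ∈ {ξ | ∃ ξ₁, (ξ, ξ₁) ∈ Γ}, ⟪ξ, x⟫_ℂ = 0 := by
      rintro ξ ⟨ξ₁, hξ⟩
      have h3 := H x _ _ hξ
      rwa [hx, sub_zero, h1, inner_zero_left] at h3
    have h3 : ∀ ξ, ⟪ξ, x⟫_ℂ = 0 := by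
      have h4 : (fun ξ : E => ⟪ξ, x⟫_ℂ) = fun _ => 0 :=
        Continuous.ext_on h.dense (continuous_id.inner continuous_const) continuous_const h2
      exact fun ξ => congrFun h4 ξ
    exact inner_self_eq_zero.1 (h3 x)
  have Ainj' : ∀ x, A x = x → x = 0 := by
    intro x hx
    have h1 := hnorm x
    rw [hx] at h1
    have h2 : (⟪x, x⟫_ℂ).re = ‖x‖ ^ 2 := by
      rw [inner_self_eq_norm_sq_to_K]
      norm_cast
    rw [h2] at h1
    have h3 : C x = 0 := norm_eq_zero.1 (pow_eq_zero_iff two_ne_zero |>.1 (by linarith))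
    have h4 := hAC x
    rw [hx, h3] at h4
    exact h.single x (h.symm _ h4)
  let md : MD E :=
    { A := A'
      C := C'
      A_symm := Asymm
      C_symm := Csymm
      CC := CC
      CA := CA
      A_nonneg := fun x => by
        rw [hA', ← Asymm, hnorm]
        positivity
      A_le := fun x => by
        rw [hA', ← Asymm]
        refine (hre x).trans ?_
        have h1 := hA1 x
        rw [one_mul] at h1
        nlinarith [norm_nonneg x]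
      A_inj := Ainj
      A_inj' := Ainj' }
  refine ⟨md, Set.ext fun p => ?_⟩
  obtain ⟨ξ, ξ₁⟩ := p
  constructor
  · intro hp
    have h1 : ξ - A ξ = C ξ₁ := hp
    have h2 : ξ₁ - A ξ₁ = C ξ := md.rel_symm hp
    have h3 : (ξ, ξ₁) = (A ξ, C ξ) + (C ξ₁, A ξ₁) := by
      rw [Prod.mk_add_mk, ← h1, ← h2]
      congr 1 <;> abel
    rw [h3]
    exact h.add _ (hAC ξ) _ (h.symm _ (hAC ξ₁))
  · intro hp
    change ξ - A ξ = C ξ₁
    refine ext_inner_right ℂ fun x => ?_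
    have h1 := H x _ _ hp
    have h2 : ⟪C x, ξ₁⟫_ℂ = ⟪C ξ₁, x⟫_ℂ := Csymm x ξ₁
    rw [← h2, ← h1, inner_sub_left, inner_sub_right, Asymm]

end Pool.Agent.VNQ
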