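import Pool.Agent.VNQ.XThree
import Pool.Agent.VNQ.KUniq
import Pool.Agent.VNQ.MDEx

/-!
# The modular data of `K`

* `KR_dense`: the domain of `K` is dense: `𝒟 = {ξ : ∃ ξ₁, KR ξ ξ₁}` is a subspace (`KR_add`,
`KR_smul`;
  it contains `0`: `KR_smul` with `c = 0` or `KR_of_hasSum` with the empty family). It contains
  `Λ(x_{Λ_φ a, Λ_φ b})` for `a = c₁† c₂`, `b = d₁† d₂` (`KR_x`). For fixed `c₁, c₂` let `A` be as in
  `exists_A`. The vectors `Λ_φ(d₁† d₂)` are dense in `G`: for `d₂ ∈ N_φ` and `d₁ = e_k` from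
  `Q.ψ.exists_net` (self-adjoint, so `e_k† = e_k`): `Λ_φ(e_k d₂) = act(e_k) Λ_φ(d₂) → Λ_φ(d₂)`
  (`act_Λ`, `Wt.act_tendsto` for `Q.φ` with `S = 1`, `act_one`), and the `Λ_φ(d₂)` are dense. So the
  closure of `𝒟` contains `A(v)` for all `v ∈ G` (continuity of `A`), hence by `total_A` everything.
* `isRel_GamK`: `GamK = {(ξ, ξ₁) : KR ξ ξ₁}` is an `IsRel`: `KR_closed`, `KR_add`, `KR_smul`,
  `KR_symm`, `KR_zero`, `KR_dense`.
-/

set_option autoImplicit false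

noncomputable section

open scoped TensorProduct InnerProductSpace InnerProduct ENNReal
open Filter

namespace Pool.Agent.VNQ

universe u

variable {H G : Type u} [NormedAddCommGroup H] [InnerProductSpace ℂ H] [CompleteSpace H]
  [NormedAddCommGroup G] [InnerProductSpace ℂ G] [CompleteSpace G]

namespace QG

variable (Q : QG H G)

/-- The domain of `K` as a subspace. -/
private def D0 : Submodule ℂ H where
  carrier := {ξ : H | ∃ ξ₁, Q.KR ξ ξ₁}
  add_mem' := by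
    rintro ξ η ⟨ξ₁, h⟩ ⟨η₁, h'⟩
    exact ⟨_, Q.KR_add h h'⟩
  zero_mem' := by
    refine ⟨0, Q.KR_of_hasSum (κ := Empty) (fun k => k.elim) (fun k => k.elim)
      (fun k => k.elim) (fun k => k.elim) 0 0 (fun η => ?_) (fun η => ?_)⟩
    · rw [zero_tmul]
      exact hasSum_empty
    · rw [zero_tmul]
      exact hasSum_empty
  smul_mem' := by
    rintro c ξ ⟨ξ₁, h⟩
    exact ⟨_, Q.KR_smul h c⟩

theorem KR_dense : Dense {ξ : H | ∃ ξ₁, Q.KR ξ ξ₁} := by
  have hcl : IsClosed (Q.D0.topologicalClosure : Set H) :=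
    Q.D0.isClosed_topologicalClosure
  have hgen : {g : H | ∃ c₁ ∈ Q.ψ.N, ∃ c₂ ∈ Q.φ.N, ∃ v,
      g = Q.ψ.Λ (Q.x (Q.φ.Λ ((c₁†) ∘L c₂)) v)} ⊆ (Q.D0.topologicalClosure : Set H) := by
    rintro g ⟨c₁, h₁, c₂, h₂, v, rfl⟩
    obtain ⟨A, hA⟩ := Q.exists_A h₁ h₂
    rw [← hA]
    have hclA : IsClosed {v : G | A v ∈ (Q.D0.topologicalClosure : Set H)} :=
      hcl.preimage A.continuous
    refine Q.φ.induction_Λ (p := fun v => A v ∈ (Q.D0.topologicalClosure : Set H)) v hclA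
      fun d₂ h₄ => ?_
    obtain ⟨κ, l, hl, e, heN, hes, hec, het⟩ := Q.ψ.exists_net
    have h5 := Q.φ.act_tendsto e (fun k => (heN k).1) (ContinuousLinearMap.id ℂ H) id_mem 1
      (fun k x => by
        rw [one_mul]
        exact hec k x) (fun ξ => het ξ) (Q.φ.Λ d₂)
    rw [Q.φ.act_one] at h5
    refine hclA.mem_of_tendsto h5 (Filter.Eventually.of_forall fun k => ?_)
    change A (Q.φ.act (e k) (Q.φ.Λ d₂)) ∈ (Q.D0.topologicalClosure : Set H)
    refine Q.D0.le_topologicalClosure ?_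
    have h6 : (e k)† = e k := ((ContinuousLinearMap.eq_adjoint_iff (e k) (e k)).2 (hes k)).symm
    have h7 := Q.KR_x h₁ h₂ (heN k) h₄
    rw [h6] at h7
    rw [Q.φ.act_Λ (heN k).1 h₄, hA]
    exact ⟨_, h7⟩
  have hspan : (Submodule.span ℂ {g : H | ∃ c₁ ∈ Q.ψ.N, ∃ c₂ ∈ Q.φ.N, ∃ v,
      g = Q.ψ.Λ (Q.x (Q.φ.Λ ((c₁†) ∘L c₂)) v)} : Set H) ⊆
      (Q.D0.topologicalClosure : Set H) := Submodule.span_le.2 hgen
  have h1 : ∀ ξ : H, ξ ∈ (Q.D0.topologicalClosure : Set H) := fun ξ =>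
    closure_minimal hspan hcl (Q.total_A ξ)
  intro ξ
  exact h1 ξ

/-- The graph of `K`. -/
def GamK : Set (H × H) := {p | Q.KR p.1 p.2}

theorem isRel_GamK : IsRel Q.GamK where
  closed := Q.KR_closed
  add p hp q hq := Q.KR_add hp hq
  smul c p hp := Q.KR_smul hp c
  symm p hp := Q.KR_symm hp
  single ξ₁ h := Q.KR_zero h
  dense := Q.KR_dense

/-- The modular data of `K`. -/
def mdK : MD H := Classical.choose Q.isRel_GamK.exists_md

theorem mdK_rel : Q.mdK.rel = Q.GamK := Classical.choose_spec Q.isRel_GamK.exists_md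

theorem mem_mdK_rel {ξ ξ₁ : H} : (ξ, ξ₁) ∈ Q.mdK.rel ↔ Q.KR ξ ξ₁ := by
  rw [mdK_rel]
  exact Iff.rfl

end QG

end Pool.Agent.VNQ
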