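import Mathlib

/-!
# A Liouville argument

Let `e : ℂ → B(K)` be entire (differentiable), `e(z + w) = e(z) e(w)`, `e(0) = 1`, and bounded on
the
strip `|re z| ≤ 2`. Let `X` commute with all `e(z)`, and `X e(1) Y X = X Y e(1) X`. Then
`X e(-z) Y e(z) X = X Y X` for all `z`.

Proof. `F(z) = X e(-z) Y e(z) X` is entire. It has period `1`:
`F(z+1) = X e(-z) e(-1) Y e(1) e(z) X = e(-z) e(-1) (X Y e(1) X) e(z)
= e(-z) e(-1) (X e(1) Y X) e(z) = e(-z) (X Y X) e(z) = F(z)` (`X` commutes with the `e(w)`,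
`e(-1) e(1) = 1`). For `|re z| ≤ 1`: `‖F(z)‖ ≤ ‖X‖² ‖Y‖ M²`; by periodicity (subtract
`⌊re z⌋`, an integer; periodicity by integers by induction, `Function.Periodic.int_mul` or
`Function.Periodic.sub_int_mul_eq`) this holds for all `z`. By Liouville's theorem
(`Differentiable.apply_eq_apply_of_bounded`) `F` is constant, `F(z) = F(0) = X Y X`.
-/

set_option autoImplicit false

noncomputable section

namespace Pool.Agent.VNQ

theorem liouville_comm {K : Type*} [NormedAddCommGroup K] [NormedSpace ℂ K] [CompleteSpace K]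
    (e : ℂ → K →L[ℂ] K) (he : Differentiable ℂ e) (hadd : ∀ z w, e (z + w) = e z ∘L e w)
    (h0 : e 0 = ContinuousLinearMap.id ℂ K) (M : ℝ) (hM : ∀ z : ℂ, |z.re| ≤ 2 → ‖e z‖ ≤ M)
    (X Y : K →L[ℂ] K) (hX : ∀ z, X ∘L e z = e z ∘L X)
    (h : X ∘L e 1 ∘L Y ∘L X = X ∘L Y ∘L e 1 ∘L X) (z : ℂ) :
    X ∘L e (-z) ∘L Y ∘L e z ∘L X = X ∘L Y ∘L X := by
  simp only [← ContinuousLinearMap.mul_def] at hadd hX h ⊢
  rw [← ContinuousLinearMap.one_def] at h0
  let F : ℂ → K →L[ℂ] K := fun z => X * (e (-z) * (Y * (e z * X)))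
  have hF : Differentiable ℂ F := by
    have h1 : Differentiable ℂ fun z => e (-z) := he.comp differentiable_neg
    exact (differentiable_const X).mul
      (h1.mul ((differentiable_const Y).mul (he.mul (differentiable_const X))))
  have hinv : e (-1) * e 1 = 1 := by rw [← hadd, neg_add_cancel, h0]
  have hper : Function.Periodic F 1 := by
    intro z
    have e1 : e (-(z + 1)) = e (-z) * e (-1) := by rw [neg_add, hadd]
    have e2 : e (z + 1) = e 1 * e z := by rw [add_comm, hadd]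
    show X * (e (-(z + 1)) * (Y * (e (z + 1) * X))) = X * (e (-z) * (Y * (e z * X)))
    rw [e1, e2]
    calc X * (e (-z) * e (-1) * (Y * (e 1 * e z * X)))
        = (X * e (-z)) * e (-1) * Y * e 1 * (e z * X) := by simp only [mul_assoc]
      _ = e (-z) * (X * e (-1)) * Y * e 1 * (X * e z) := by
          rw [hX (-z), ← hX z]
          simp only [mul_assoc]
      _ = e (-z) * e (-1) * (X * (Y * (e 1 * X))) * e z := by
          rw [hX (-1)]
          simp only [mul_assoc]
      _ = e (-z) * e (-1) * ((X * e 1) * (Y * X)) * e z := by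
          rw [← h]
          simp only [mul_assoc]
      _ = e (-z) * (e (-1) * e 1) * (X * (Y * X)) * e z := by
          rw [hX 1]
          simp only [mul_assoc]
      _ = (e (-z) * X) * Y * (X * e z) := by
          rw [hinv, mul_one]
          simp only [mul_assoc]
      _ = X * (e (-z) * (Y * (e z * X))) := by
          rw [← hX (-z), hX z]
          simp only [mul_assoc]
  have hM0 : 0 ≤ M := (norm_nonneg _).trans (hM 0 (by simp))
  have hb : ∀ z : ℂ, ‖F z‖ ≤ ‖X‖ * (M * (‖Y‖ * (M * ‖X‖))) := by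
    intro z
    have h1 : F (z - (⌊z.re⌋ : ℤ) * 1) = F z := hper.sub_int_mul_eq ⌊z.re⌋
    rw [← h1, mul_one]
    obtain ⟨w, hw⟩ : ∃ w : ℂ, w = z - (⌊z.re⌋ : ℤ) := ⟨_, rfl⟩
    rw [← hw]
    have hre : w.re = Int.fract z.re := by
      rw [hw, Complex.sub_re, Complex.intCast_re]
      rfl
    have h2 : |w.re| ≤ 2 := by
      rw [hre, abs_of_nonneg (Int.fract_nonneg _)]
      linarith [Int.fract_lt_one z.re]
    have h3 : |(-w).re| ≤ 2 := by rwa [Complex.neg_re, abs_neg]
    have g1 : ‖e w * X‖ ≤ M * ‖X‖ :=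
      (norm_mul_le _ _).trans (mul_le_mul_of_nonneg_right (hM w h2) (norm_nonneg _))
    have g2 : ‖Y * (e w * X)‖ ≤ ‖Y‖ * (M * ‖X‖) :=
      (norm_mul_le _ _).trans (mul_le_mul_of_nonneg_left g1 (norm_nonneg _))
    have g3 : ‖e (-w) * (Y * (e w * X))‖ ≤ M * (‖Y‖ * (M * ‖X‖)) :=
      (norm_mul_le _ _).trans (mul_le_mul (hM _ h3) g2 (norm_nonneg _) hM0)
    exact (norm_mul_le _ _).trans (mul_le_mul_of_nonneg_left g3 (norm_nonneg _))
  have hbd : Bornology.IsBounded (Set.range F) := by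
    rw [isBounded_iff_forall_norm_le]
    refine ⟨‖X‖ * (M * (‖Y‖ * (M * ‖X‖))), ?_⟩
    rintro _ ⟨z, rfl⟩
    exact hb z
  have hfin := hF.apply_eq_apply_of_bounded hbd z 0
  have h4 : F 0 = X * (Y * X) := by
    show X * (e (-0) * (Y * (e 0 * X))) = _
    rw [neg_zero, h0, one_mul, one_mul]
  rw [h4] at hfin
  exact hfin

end Pool.Agent.VNQ
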