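import Pool.Agent.VNQ.Pars

/-!
# Norm and strong continuity of `A ⊗ B`

* `norm_mapT_left_le`: `‖T ⊗ 1‖ ≤ ‖T‖`: for a Hilbert basis `f` of `K` (`exists_hilbertBasis`),
  `‖(T ⊗ 1) θ‖² = ∑ ‖R_{f_l}† (T ⊗ 1) θ‖² = ∑ ‖T (R_{f_l}† θ)‖² ≤ ‖T‖² ∑ ‖R_{f_l}† θ‖² = ‖T‖² ‖θ‖²`
  (`hasSum_sq_right`, `rT_adjoint_mapT`).
* `norm_mapT_right_le`: the same with `hasSum_sq_left`, `lT_adjoint_mapT`.
* `norm_mapT_le`: `A ⊗ B = (A ⊗ 1) (1 ⊗ B)` (`mapT_comp`).
* `tendsto_mapT`: let `A_k → A` and `B_k → B` strongly, `‖A_k‖ ≤ R`, `‖B_k‖ ≤ R`. Then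
  `(A_k ⊗ B_k) θ → (A ⊗ B) θ`. True for elementary tensors (`continuous_tmul`), hence for finite
  sums;
  the norms are bounded by `R²` (`norm_mapT_le`), so true for all `θ` (density, `denseRange_toHTen`,
  `ε/3` argument).
-/

set_option autoImplicit false

noncomputable section

open scoped TensorProduct InnerProductSpace InnerProduct
open Filter

namespace Pool.Agent.VNQ

universe u

variable {H K H' K' : Type u} [NormedAddCommGroup H] [InnerProductSpace ℂ H] [CompleteSpace H]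
  [NormedAddCommGroup K] [InnerProductSpace ℂ K] [CompleteSpace K]
  [NormedAddCommGroup H'] [InnerProductSpace ℂ H'] [CompleteSpace H']
  [NormedAddCommGroup K'] [InnerProductSpace ℂ K'] [CompleteSpace K']

private theorem adj_id {E : Type u} [NormedAddCommGroup E] [InnerProductSpace ℂ E]
    [CompleteSpace E] : (ContinuousLinearMap.id ℂ E)† = ContinuousLinearMap.id ℂ E := by
  ext x
  refine ext_inner_left ℂ fun y => ?_
  rw [ContinuousLinearMap.adjoint_inner_right]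
  rfl

theorem norm_mapT_left_le (T : H →L[ℂ] H') :
    ‖(mapT T (ContinuousLinearMap.id ℂ K) : HTen H K →L[ℂ] HTen H' K)‖ ≤ ‖T‖ := by
  refine ContinuousLinearMap.opNorm_le_bound _ (norm_nonneg _) fun θ => ?_
  obtain ⟨w, f, -⟩ := exists_hilbertBasis ℂ K
  have h1 := hasSum_sq_right f (mapT T (ContinuousLinearMap.id ℂ K) θ)
  have h2 := (hasSum_sq_right f θ).mul_left (‖T‖ ^ 2)
  have h3 : ∀ l, ((rT (f l) : H' →L[ℂ] HTen H' K)†) (mapT T (ContinuousLinearMap.id ℂ K) θ) =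
      T (((rT (f l))†) θ) := by
    intro l
    have h4 := congrArg (fun A : HTen H K →L[ℂ] H' => A θ)
      (rT_adjoint_mapT T (ContinuousLinearMap.id ℂ K) (f l))
    rw [adj_id] at h4
    exact h4
  have h5 : ‖mapT T (ContinuousLinearMap.id ℂ K) θ‖ ^ 2 ≤ ‖T‖ ^ 2 * ‖θ‖ ^ 2 := by
    refine hasSum_le (fun l => ?_) h1 h2
    rw [h3 l, ← mul_pow]
    exact pow_le_pow_left₀ (norm_nonneg _) (T.le_opNorm _) 2
  rw [← mul_pow] at h5
  exact le_of_sq_le_sq h5 (by positivity)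

theorem norm_mapT_right_le (T : K →L[ℂ] K') :
    ‖(mapT (ContinuousLinearMap.id ℂ H) T : HTen H K →L[ℂ] HTen H K')‖ ≤ ‖T‖ := by
  refine ContinuousLinearMap.opNorm_le_bound _ (norm_nonneg _) fun θ => ?_
  obtain ⟨w, f, -⟩ := exists_hilbertBasis ℂ H
  have h1 := hasSum_sq_left f (mapT (ContinuousLinearMap.id ℂ H) T θ)
  have h2 := (hasSum_sq_left f θ).mul_left (‖T‖ ^ 2)
  have h3 : ∀ l, ((lT (f l) : K' →L[ℂ] HTen H K')†) (mapT (ContinuousLinearMap.id ℂ H) T θ) =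
      T (((lT (f l))†) θ) := by
    intro l
    have h4 := congrArg (fun A : HTen H K →L[ℂ] K' => A θ)
      (lT_adjoint_mapT (ContinuousLinearMap.id ℂ H) T (f l))
    rw [adj_id] at h4
    exact h4
  have h5 : ‖mapT (ContinuousLinearMap.id ℂ H) T θ‖ ^ 2 ≤ ‖T‖ ^ 2 * ‖θ‖ ^ 2 := by
    refine hasSum_le (fun l => ?_) h1 h2
    rw [h3 l, ← mul_pow]
    exact pow_le_pow_left₀ (norm_nonneg _) (T.le_opNorm _) 2
  rw [← mul_pow] at h5
  exact le_of_sq_le_sq h5 (by positivity)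

theorem norm_mapT_le (A : H →L[ℂ] H') (B : K →L[ℂ] K') : ‖mapT A B‖ ≤ ‖A‖ * ‖B‖ := by
  have h1 : mapT A B = mapT A (ContinuousLinearMap.id ℂ K') ∘L
      mapT (ContinuousLinearMap.id ℂ H) B := by
    rw [mapT_comp, ContinuousLinearMap.comp_id, ContinuousLinearMap.id_comp]
  rw [h1]
  exact (ContinuousLinearMap.opNorm_comp_le _ _).trans
    (mul_le_mul (norm_mapT_left_le A) (norm_mapT_right_le B) (norm_nonneg _) (norm_nonneg _))

omit [CompleteSpace H] [CompleteSpace K] in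
private theorem tendsto_tmul {κ : Type*} {l : Filter κ} (f : κ → H) (g : κ → K) (ξ : H) (η : K)
    (hf : Tendsto f l (nhds ξ)) (hg : Tendsto g l (nhds η)) :
    Tendsto (fun k => tmul (f k) (g k)) l (nhds (tmul ξ η)) := by
  have h := (continuous_tmul (H := H) (K := K)).continuousAt (x := (ξ, η))
  exact Tendsto.comp (f := fun k => (f k, g k)) h (hf.prodMk_nhds hg)

omit [CompleteSpace H] [CompleteSpace K] [CompleteSpace H'] [CompleteSpace K'] in
private theorem tendsto_alg {κ : Type*} {l : Filter κ} (A : κ → H →L[ℂ] H') (A₀ : H →L[ℂ] H')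
    (B : κ → K →L[ℂ] K') (B₀ : K →L[ℂ] K')
    (hA' : ∀ ξ, Tendsto (fun k => A k ξ) l (nhds (A₀ ξ)))
    (hB' : ∀ η, Tendsto (fun k => B k η) l (nhds (B₀ η))) (x : H ⊗[ℂ] K) :
    Tendsto (fun k => mapT (A k) (B k) (toHTen H K x)) l
      (nhds (mapT A₀ B₀ (toHTen H K x))) := by
  induction x using TensorProduct.induction_on with
  | zero =>
    rw [map_zero, map_zero]
    refine tendsto_const_nhds.congr fun k => ?_
    rw [map_zero]
  | tmul ξ η =>
    have h1 : ∀ k, mapT (A k) (B k) (toHTen H K (ξ ⊗ₜ[ℂ] η)) = tmul (A k ξ) (B k η) := fun k =>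
      mapT_tmul (A k) (B k) ξ η
    have h2 : mapT A₀ B₀ (toHTen H K (ξ ⊗ₜ[ℂ] η)) = tmul (A₀ ξ) (B₀ η) := mapT_tmul A₀ B₀ ξ η
    rw [h2]
    exact (tendsto_tmul _ _ _ _ (hA' ξ) (hB' η)).congr fun k => (h1 k).symm
  | add x y hx hy =>
    rw [map_add, map_add]
    refine (hx.add hy).congr fun k => ?_
    rw [map_add]

theorem tendsto_mapT {κ : Type*} {l : Filter κ} (A : κ → H →L[ℂ] H') (A₀ : H →L[ℂ] H')
    (B : κ → K →L[ℂ] K') (B₀ : K →L[ℂ] K') (R : ℝ) (hA : ∀ k, ‖A k‖ ≤ R) (hB : ∀ k, ‖B k‖ ≤ R)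
    (hA' : ∀ ξ, Tendsto (fun k => A k ξ) l (nhds (A₀ ξ)))
    (hB' : ∀ η, Tendsto (fun k => B k η) l (nhds (B₀ η))) (θ : HTen H K) :
    Tendsto (fun k => mapT (A k) (B k) θ) l (nhds (mapT A₀ B₀ θ)) := by
  have halg := tendsto_alg A A₀ B B₀ hA' hB'
  have hbound : ∀ k, ‖mapT (A k) (B k)‖ ≤ R * R := fun k =>
    (norm_mapT_le (A k) (B k)).trans
      (mul_le_mul (hA k) (hB k) (norm_nonneg _) ((norm_nonneg _).trans (hA k)))
  rw [Metric.tendsto_nhds]
  intro ε hε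
  set C : ℝ := R * R + ‖mapT A₀ B₀‖ + 1 with hC
  have hRR : 0 ≤ R * R := mul_self_nonneg R
  have hC0 : 0 < C := by
    have := norm_nonneg (mapT A₀ B₀)
    linarith
  obtain ⟨x, hx⟩ := (denseRange_toHTen (H := H) (K := K)).exists_dist_lt θ
    (show 0 < ε / (3 * C) by positivity)
  have hx' : ‖θ - toHTen H K x‖ < ε / (3 * C) := by rwa [← dist_eq_norm]
  have hCx : C * ‖θ - toHTen H K x‖ < ε / 3 := by
    have h1 := mul_lt_mul_of_pos_left hx' hC0
    have h2 : C * (ε / (3 * C)) = ε / 3 := by field_simp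
    linarith
  have hn := norm_nonneg (θ - toHTen H K x)
  filter_upwards [(Metric.tendsto_nhds.1 (halg x)) (ε / 3) (by positivity)] with k hk
  rw [dist_eq_norm] at hk ⊢
  have h3 : ‖mapT (A k) (B k) (θ - toHTen H K x)‖ ≤ C * ‖θ - toHTen H K x‖ := by
    refine ((mapT (A k) (B k)).le_opNorm _).trans (mul_le_mul_of_nonneg_right ?_ hn)
    have := norm_nonneg (mapT A₀ B₀)
    linarith [hbound k]
  have h4 : ‖mapT A₀ B₀ (θ - toHTen H K x)‖ ≤ C * ‖θ - toHTen H K x‖ := by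
    refine ((mapT A₀ B₀).le_opNorm _).trans (mul_le_mul_of_nonneg_right ?_ hn)
    linarith
  have h5 : mapT (A k) (B k) θ - mapT A₀ B₀ θ =
      mapT (A k) (B k) (θ - toHTen H K x) +
        (mapT (A k) (B k) (toHTen H K x) - mapT A₀ B₀ (toHTen H K x)) -
        mapT A₀ B₀ (θ - toHTen H K x) := by
    rw [map_sub, map_sub]
    abel
  rw [h5]
  have h6 := norm_sub_le (mapT (A k) (B k) (θ - toHTen H K x) +
        (mapT (A k) (B k) (toHTen H K x) - mapT A₀ B₀ (toHTen H K x)))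
        (mapT A₀ B₀ (θ - toHTen H K x))
  have h7 := norm_add_le (mapT (A k) (B k) (θ - toHTen H K x))
        (mapT (A k) (B k) (toHTen H K x) - mapT A₀ B₀ (toHTen H K x))
  linarith

end Pool.Agent.VNQ
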