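import Pool.Agent.VNQ.UEx

/-!
# Properties of the modular group

All properties follow from `U_X`, `norm_U` and density (`ext_X`: two continuous maps which agree
on all `X_m x` are equal).

* `U_comm`: if `T` is bounded and commutes with `A` then `T U_t = U_t T`. For `x = X_m x'`:
  `T U_t X_m x' = T exp(itB_m) X_m x' = exp(itB_m) X_m T x' = U_t X_m T x' = U_t T X_m x'`
  (`F_comm` for `B_m`, `X_m`, `exp_comm`). In particular `U_A`, `U_X_comm`, `U_B_comm`, and
  `U_exp_comm` (`U_t exp(z B_m) = exp(z B_m) U_t`, since `exp(z B_m)` commutes with `A`).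
* `U_add`: for `x = X_m x'`: `U_s (U_t X_m x') = U_s (exp(itB_m) X_m x') = U_s (X_m exp(itB_m) x')
  = exp(isB_m) X_m exp(itB_m) x' = exp(i(s+t)B_m) X_m x'` (`exp_add_apply`).
* `U_zero`: for `x = X_m x'` by `exp 0 = 1`.
* `continuous_U`: `t ↦ U_t (X_m x)` is continuous (`exp_differentiable`), and
  `‖U_t x - U_t X_m x‖ = ‖x - X_m x‖ → 0` uniformly in `t`
  (`TendstoUniformly.continuous` or an `ε/3` argument).
* `U_inner`: `⟪U_t x, U_t y⟫ = ⟪x, y⟫` (isometry; polarization, `LinearIsometry.inner_map_map`);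
  `U_adj`: `⟪U_t x, y⟫ = ⟪x, U_{-t} y⟫`: `y = U_t (U_{-t} y)`.
* `C_U`: `C (U_t x) = U_t (C x)`: for `x = X_m x'`, `exp_semi` with `z = i t`, `- z̄ = i t`,
  `C_B`, `C_X`. `J_U`: the same for any `J` with `J A = (1 - A) J` (use `J_F`, as in `C_B`, `C_X`:
  `J (B_m x) = - B_m (J x)` by `ell_symm` and `J (X_m x) = X_m (J x)` by `chi_symm`).
* `dual_B`: `md.dual.B m = - md.B m` and `dual_X`: `md.dual.X m = md.X m`: for the
  self-adjoint `1 - A`: `cfc f (1 - A) = cfc (fun s => f (1 - s)) A` (`cfc_comp` with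
  `F_one_sub`), `ell_symm`, `chi_symm`. `dual_U`: `md.dual.U t x = md.U (-t) x` by density.
* `rel_U`: if `(ξ, ξ₁) ∈ md.rel` then `(U_t ξ, U_t ξ₁) ∈ md.rel`:
  `U_t ξ - A U_t ξ = U_t (ξ - A ξ) = U_t C ξ₁ = C U_t ξ₁`.
-/

set_option autoImplicit false

noncomputable section

open scoped InnerProductSpace InnerProduct
open Filter

namespace Pool.Agent.VNQ

universe u

variable {E : Type u} [NormedAddCommGroup E] [InnerProductSpace ℂ E] [CompleteSpace E]

namespace MD

variable (md : MD E)

theorem U_comm (t : ℝ) (T : E →L[ℂ] E) (hT : ∀ x, T (md.A x) = md.A (T x)) (x : E) :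
    T (md.U t x) = md.U t (T x) := by
  refine md.ext_X (f := fun x => T (md.U t x)) (g := fun x => md.U t (T x))
    (T.continuous.comp (md.U t).continuous) ((md.U t).continuous.comp T.continuous)
    (fun m x' => ?_) x
  change T (md.U t (md.X m x')) = md.U t (T (md.X m x'))
  have hB : ∀ x, T (md.B m x) = md.B m (T x) := md.F_comm _ T hT
  have hX : ∀ x, T (md.X m x) = md.X m (T x) := md.F_comm _ T hT
  rw [md.U_X, exp_comm (md.B m) T hB, hX, md.U_X]

theorem U_A (t : ℝ) (x : E) : md.A (md.U t x) = md.U t (md.A x) := md.U_comm t md.A (fun _ => rfl) x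

theorem U_X_comm (t : ℝ) (m : ℕ) (x : E) : md.X m (md.U t x) = md.U t (md.X m x) := by
  exact md.U_comm t (md.X m) (fun x => (md.A_X m x).symm) x

theorem U_exp_comm (t : ℝ) (m : ℕ) (z : ℂ) (x : E) :
    NormedSpace.exp (z • md.B m) (md.U t x) = md.U t (NormedSpace.exp (z • md.B m) x) := by
  exact md.U_comm t (NormedSpace.exp (z • md.B m))
    (fun x => (exp_comm (md.B m) md.A (md.A_B m) z x).symm) x

theorem U_add (s t : ℝ) (x : E) : md.U (s + t) x = md.U s (md.U t x) := by
  refine md.ext_X (f := fun x => md.U (s + t) x) (g := fun x => md.U s (md.U t x))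
    (md.U (s + t)).continuous ((md.U s).continuous.comp (md.U t).continuous)
    (fun m x' => ?_) x
  change md.U (s + t) (md.X m x') = md.U s (md.U t (md.X m x'))
  rw [md.U_X, md.U_X, ← exp_comm (md.B m) (md.X m) (md.X_B m m) ((t : ℂ) * Complex.I) x', md.U_X,
    exp_comm (md.B m) (md.X m) (md.X_B m m) ((t : ℂ) * Complex.I) x', ← exp_add_apply,
    Complex.ofReal_add, add_mul]

theorem U_zero (x : E) : md.U 0 x = x := by
  refine md.ext_X (f := fun x => md.U 0 x) (g := fun x => x)
    (md.U 0).continuous continuous_id (fun m x' => ?_) x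
  change md.U 0 (md.X m x') = md.X m x'
  rw [md.U_X, Complex.ofReal_zero, zero_mul, zero_smul, NormedSpace.exp_zero]
  rfl

theorem continuous_U (x : E) : Continuous fun t => md.U t x := by
  have h1 : TendstoUniformly (fun (n : ℕ) (t : ℝ) => md.U t (md.X n x)) (fun t => md.U t x)
      atTop := by
    rw [Metric.tendstoUniformly_iff]
    intro ε hε
    filter_upwards [Metric.tendsto_nhds.1 (md.X_tendsto x) ε hε] with n hn t
    rw [dist_eq_norm, ← map_sub, md.norm_U, ← dist_eq_norm, dist_comm]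
    exact hn
  refine h1.continuous (Filter.Frequently.of_forall fun n => ?_)
  have h2 : (fun t : ℝ => md.U t (md.X n x)) = fun t : ℝ =>
      (NormedSpace.exp (((t : ℂ) * Complex.I) • md.B n) : E →L[ℂ] E) (md.X n x) := by
    funext t
    rw [md.U_X]
  rw [h2]
  have h3 : Continuous fun t : ℝ =>
      (NormedSpace.exp (((t : ℂ) * Complex.I) • md.B n) : E →L[ℂ] E) :=
    (exp_differentiable (md.B n)).continuous.comp
      (Complex.continuous_ofReal.mul continuous_const)
  exact h3.clm_apply continuous_const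

theorem U_inner (t : ℝ) (x y : E) : ⟪md.U t x, md.U t y⟫_ℂ = ⟪x, y⟫_ℂ := by
  exact LinearIsometry.inner_map_map (⟨(md.U t : E →ₗ[ℂ] E), md.norm_U t⟩ : E →ₗᵢ[ℂ] E) x y

theorem U_adj (t : ℝ) (x y : E) : ⟪md.U t x, y⟫_ℂ = ⟪x, md.U (-t) y⟫_ℂ := by
  have h : md.U t (md.U (-t) y) = y := by
    rw [← md.U_add, add_neg_cancel, md.U_zero]
  conv_lhs => rw [← h]
  exact md.U_inner t x _

theorem J_U (J : E →L⋆[ℂ] E) (hJ : ∀ x, J (md.A x) = J x - md.A (J x)) (t : ℝ) (x : E) :
    J (md.U t x) = md.U t (J x) := by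
  refine md.ext_X (f := fun x => J (md.U t x)) (g := fun x => md.U t (J x))
    (J.continuous.comp (md.U t).continuous) ((md.U t).continuous.comp J.continuous)
    (fun m x' => ?_) x
  change J (md.U t (md.X m x')) = md.U t (J (md.X m x'))
  have hB : ∀ x, J (md.B m x) = -md.B m (J x) := by
    intro x
    have h1 := md.J_F (continuous_ell m).continuousOn J hJ x
    have h2 : (fun s => ell m (1 - s)) = fun s => (-1 : ℝ) * ell m s := by
      funext s
      rw [ell_symm]
      ring
    rw [h2, md.F_smul (continuous_ell m).continuousOn] at h1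
    rw [B, h1]
    simp
  have hX : ∀ x, J (md.X m x) = md.X m (J x) := by
    intro x
    have h1 := md.J_F (continuous_chi m).continuousOn J hJ x
    have h2 : (fun s => chi m (1 - s)) = chi m := by
      funext s
      rw [chi_symm]
    rw [h2] at h1
    exact h1
  have hc : -(starRingEnd ℂ) ((t : ℂ) * Complex.I) = (t : ℂ) * Complex.I := by
    rw [map_mul, Complex.conj_ofReal, Complex.conj_I]
    ring
  rw [md.U_X, exp_semi (md.B m) J hB, hX, md.U_X, hc]

theorem C_U (t : ℝ) (x : E) : md.C (md.U t x) = md.U t (md.C x) := md.J_U md.C md.CA t x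

theorem dual_U (t : ℝ) (x : E) : md.dual.U t x = md.U (-t) x := by
  have hA : md.dual.A = cfc (fun s : ℝ => 1 - s) md.A := by
    have h1 := md.F_one_sub
    rw [F] at h1
    rw [h1]
    rfl
  have hF : ∀ f : ℝ → ℝ, Continuous f → md.dual.F f = md.F fun s => f (1 - s) := by
    intro f hf
    have h2 := cfc_comp (R := ℝ) f (fun s : ℝ => 1 - s) md.A md.isSelfAdjoint_A
      hf.continuousOn (by fun_prop)
    rw [F, F, hA, ← h2]
    rfl
  have hB : ∀ m, md.dual.B m = -md.B m := by
    intro m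
    have h2 : (fun s => ell m (1 - s)) = fun s => (-1 : ℝ) * ell m s := by
      funext s
      rw [ell_symm]
      ring
    rw [B, hF _ (continuous_ell m), h2, md.F_smul (continuous_ell m).continuousOn, B]
    simp
  have hX : ∀ m, md.dual.X m = md.X m := by
    intro m
    have h2 : (fun s => chi m (1 - s)) = chi m := by
      funext s
      rw [chi_symm]
    rw [X, hF _ (continuous_chi m), h2, X]
  refine md.ext_X (f := fun x => md.dual.U t x) (g := fun x => md.U (-t) x)
    (md.dual.U t).continuous (md.U (-t)).continuous (fun m x' => ?_) x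
  change md.dual.U t (md.X m x') = md.U (-t) (md.X m x')
  rw [md.U_X, ← hX, md.dual.U_X, hB, hX]
  congr 2
  rw [smul_neg, ← neg_smul]
  congr 1
  push_cast
  ring

theorem rel_U {ξ ξ₁ : E} (h : (ξ, ξ₁) ∈ md.rel) (t : ℝ) : (md.U t ξ, md.U t ξ₁) ∈ md.rel := by
  rw [mem_rel] at h ⊢
  rw [md.U_A, ← map_sub, h, md.C_U]

end MD

end Pool.Agent.VNQ
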