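import Pool.Agent.VNQ.LemMa
import Pool.Agent.VNQ.UGr
import Pool.Agent.VNQ.Liou
import Pool.Agent.VNQ.MapN

/-!
# The commutation lemma, analytic part

If `𝔸' Y 𝔸 = 𝔸 Y 𝔸'` (`𝔸 = A₁ ⊗ A₂`, `𝔸' = (1 - A₁) ⊗ (1 - A₂)`) then `Y` commutes with
`𝕌_t = U₁(t) ⊗ U₂(t)`.

Proof. Fix `m`, `𝕏 = X₁ ⊗ X₂`, `𝕎 = W₁ ⊗ W₂` (`X_i = d_i.X m`, `W_i = d_i.W m`),
`e(z) = exp(z B₁) ⊗ exp(z B₂)` (`B_i = d_i.B m`). All these operators and `𝔸`, `𝔸'` commute
(`mapT_comp`; `A_B`, `A_X`, `X_B`, `W_X`, `W_B`, `exp_comm`), `𝕎 𝔸 = 𝔸 𝕎 = 𝕏` (`A_W`, `W_A`),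
`𝔸' 𝕏 = 𝔸 e(1) 𝕏` (`A_exp_X`). Multiply `𝔸' Y 𝔸 = 𝔸 Y 𝔸'` by `𝕎 𝕏` from the left and by `𝕏 𝕎`
from the right: `𝕎 𝕏 𝔸' = 𝕎 𝔸 e(1) 𝕏 = e(1) 𝕏²`, `𝔸 𝕏 𝕎 = 𝕏²`, `𝕎 𝕏 𝔸 = 𝕏²`,
`𝔸' 𝕏 𝕎 = e(1) 𝕏²`. So with `X' = 𝕏²`: `X' e(1) Y X' = X' Y e(1) X'` (`e(1)` commutes with `X'`).
`e` is differentiable (`mapT` is a bounded bilinear map: or write
`e(z) = (exp(zB₁) ⊗ 1)(1 ⊗ exp(zB₂))`, where `T ↦ T ⊗ 1` is linear (`mapT_add_left`) and bounded:
`‖T ⊗ 1‖ ≤ ‖T‖`, `norm_mapT_left_le`; `exp_differentiable`), `e(z+w) = e(z) e(w)`, `e(0) = 1`,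
`‖e(z)‖ ≤ exp(2 ‖B₁‖ + 2 ‖B₂‖)` for `|re z| ≤ 2` (`norm_exp_le`). By `liouville_comm` with
`z = i t`: `X' e(-it) Y e(it) X' = X' Y X'`. Now `e(it) 𝕏 = 𝕌_t 𝕏`, `𝕏 e(-it) = 𝕏 𝕌_{-t}`
(`U_X`, `U_X_comm`, `mapT_comp`), so `X' 𝕌_{-t} Y 𝕌_t X' = X' Y X'` for all `m`. As `m → ∞`,
`X' → 1` strongly (`tendsto_mapT`, `X_tendsto`, `norm_X_le`), so for all `θ`, `θ'`:
`⟪θ', 𝕌_{-t} Y 𝕌_t θ⟫ = ⟪θ', Y θ⟫` (it is enough to take elementary tensors `θ`, `θ'`: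
`⟪X' θ', 𝕌_{-t} Y 𝕌_t X' θ⟫ = ⟪X' θ', Y X' θ⟫` since `X'` is self-adjoint, `adjoint_mapT`). So
`𝕌_{-t} Y 𝕌_t = Y` and `Y 𝕌_t = 𝕌_t Y` (`𝕌_t 𝕌_{-t} = 1`, `U_add`, `U_zero`).
-/

set_option autoImplicit false

noncomputable section

open scoped InnerProductSpace InnerProduct

namespace Pool.Agent.VNQ

universe u

variable {E₁ E₂ : Type u} [NormedAddCommGroup E₁] [InnerProductSpace ℂ E₁] [CompleteSpace E₁]
  [NormedAddCommGroup E₂] [InnerProductSpace ℂ E₂] [CompleteSpace E₂]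

namespace MD

private lemma exp_one_smul {E : Type u} [NormedAddCommGroup E] [InnerProductSpace ℂ E]
    (B : E →L[ℂ] E) : NormedSpace.exp ((1 : ℂ) • B) = NormedSpace.exp B := by
  rw [one_smul]

/-- `X exp(B) X` in four ways -/
private lemma wxa (d : MD E₁) (m : ℕ) (x : E₁) :
    d.W m (d.X m (x - d.A x)) = d.X m (d.X m (NormedSpace.exp ((1 : ℂ) • d.B m) x)) := by
  have h1 : d.X m (x - d.A x) = d.A (NormedSpace.exp (d.B m) (d.X m x)) := by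
    rw [d.A_exp_X, map_sub, d.A_X]
  rw [h1, d.W_A, ← exp_one_smul, ← exp_comm (d.B m) (d.X m) (fun x => d.X_B m m x)]

private lemma axw (d : MD E₁) (m : ℕ) (x : E₁) :
    d.A (d.X m (d.W m x)) = d.X m (d.X m x) := by
  rw [d.A_X, d.A_W]

private lemma wxa' (d : MD E₁) (m : ℕ) (x : E₁) :
    d.W m (d.X m (d.A x)) = d.X m (d.X m x) := by
  rw [← d.A_X, d.W_A]

private lemma axw' (d : MD E₁) (m : ℕ) (x : E₁) :
    d.X m (d.W m x) - d.A (d.X m (d.W m x)) =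
      NormedSpace.exp ((1 : ℂ) • d.B m) (d.X m (d.X m x)) := by
  rw [← d.A_exp_X, ← d.W_X, ← exp_one_smul,
    ← exp_comm (d.B m) (d.W m) (fun x => d.W_B m m x), d.A_W,
    exp_comm (d.B m) (d.X m) (fun x => d.X_B m m x)]

private lemma norm_exp_le' {E : Type u} [NormedAddCommGroup E] [InnerProductSpace ℂ E]
    [CompleteSpace E] (B : E →L[ℂ] E) (hB : ∀ x y, ⟪B x, y⟫_ℂ = ⟪x, B y⟫_ℂ) {z : ℂ}
    (hz : |z.re| ≤ 2) : ‖(NormedSpace.exp (z • B) : E →L[ℂ] E)‖ ≤ Real.exp (‖B‖ * 2) := by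
  refine ContinuousLinearMap.opNorm_le_bound _ (Real.exp_pos _).le fun x => ?_
  refine (norm_exp_le B hB z x).trans ?_
  refine mul_le_mul_of_nonneg_right (Real.exp_le_exp.2 ?_) (norm_nonneg _)
  exact mul_le_mul_of_nonneg_left hz (norm_nonneg _)

private def leftT : (E₁ →L[ℂ] E₁) →L[ℂ] (HTen E₁ E₂ →L[ℂ] HTen E₁ E₂) :=
  LinearMap.mkContinuous
    { toFun := fun T => mapT T (ContinuousLinearMap.id ℂ E₂)
      map_add' := fun T T' => mapT_add_left T T' _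
      map_smul' := fun c T => clm_ext fun ξ η => by simp [smul_tmul] } 1
    (fun T => by
      rw [one_mul]
      exact norm_mapT_left_le T)

private lemma leftT_apply (T : E₁ →L[ℂ] E₁) :
    leftT (E₂ := E₂) T = mapT T (ContinuousLinearMap.id ℂ E₂) := rfl

private def rightT : (E₂ →L[ℂ] E₂) →L[ℂ] (HTen E₁ E₂ →L[ℂ] HTen E₁ E₂) :=
  LinearMap.mkContinuous
    { toFun := fun T => mapT (ContinuousLinearMap.id ℂ E₁) T
      map_add' := fun T T' => mapT_add_right _ T T'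
      map_smul' := fun c T => clm_ext fun ξ η => by simp [tmul_smul] } 1
    (fun T => by
      rw [one_mul]
      exact norm_mapT_right_le T)

private lemma rightT_apply (T : E₂ →L[ℂ] E₂) :
    rightT (E₁ := E₁) T = mapT (ContinuousLinearMap.id ℂ E₁) T := rfl

private lemma ee_diff (B₁ : E₁ →L[ℂ] E₁) (B₂ : E₂ →L[ℂ] E₂) : Differentiable ℂ fun z : ℂ =>
    (mapT (NormedSpace.exp (z • B₁)) (NormedSpace.exp (z • B₂)) :
      HTen E₁ E₂ →L[ℂ] HTen E₁ E₂) := by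
  have hl : Differentiable ℂ fun T : E₁ →L[ℂ] E₁ => leftT (E₂ := E₂) T :=
    (leftT (E₁ := E₁) (E₂ := E₂)).differentiable
  have hr : Differentiable ℂ fun T : E₂ →L[ℂ] E₂ => rightT (E₁ := E₁) T :=
    (rightT (E₁ := E₁) (E₂ := E₂)).differentiable
  have h1 : Differentiable ℂ fun z : ℂ => leftT (E₂ := E₂) (NormedSpace.exp (z • B₁)) :=
    fun z => (hl _).comp z (exp_differentiable B₁ z)
  have h2 : Differentiable ℂ fun z : ℂ => rightT (E₁ := E₁) (NormedSpace.exp (z • B₂)) :=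
    fun z => (hr _).comp z (exp_differentiable B₂ z)
  have h3 := h1.clm_comp h2
  have h4 : (fun z : ℂ => (mapT (NormedSpace.exp (z • B₁)) (NormedSpace.exp (z • B₂)) :
      HTen E₁ E₂ →L[ℂ] HTen E₁ E₂)) = fun z : ℂ =>
      (leftT (E₂ := E₂) (NormedSpace.exp (z • B₁))).comp
        (rightT (E₁ := E₁) (NormedSpace.exp (z • B₂))) := by
    funext z
    rw [leftT_apply, rightT_apply, mapT_comp]
    rfl
  rw [h4]
  exact h3

private lemma XX_norm (d : MD E₁) (m : ℕ) : ‖d.X m ∘L d.X m‖ ≤ 1 := by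
  refine (ContinuousLinearMap.opNorm_comp_le _ _).trans ?_
  have h := d.norm_X_le m
  have h0 := norm_nonneg (d.X m)
  nlinarith

private lemma XX_tendsto (d : MD E₁) (x : E₁) :
    Filter.Tendsto (fun m => (d.X m ∘L d.X m) x) Filter.atTop (nhds x) := by
  have h1 := d.X_tendsto x
  rw [tendsto_iff_norm_sub_tendsto_zero] at h1 ⊢
  have h2 := h1.const_mul 2
  rw [mul_zero] at h2
  refine squeeze_zero (fun m => norm_nonneg _) (fun m => ?_) h2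
  have h3 : (d.X m ∘L d.X m) x - x = d.X m (d.X m x - x) + (d.X m x - x) := by
    rw [map_sub]
    simp
  rw [h3]
  refine (norm_add_le _ _).trans ?_
  have h4 : ‖d.X m (d.X m x - x)‖ ≤ ‖d.X m x - x‖ := by
    refine ((d.X m).le_opNorm _).trans ?_
    exact mul_le_of_le_one_left (norm_nonneg _) (d.norm_X_le m)
  linarith

private lemma XX_adj (d : MD E₁) (m : ℕ) : (d.X m ∘L d.X m)† = d.X m ∘L d.X m := by
  symm
  rw [ContinuousLinearMap.eq_adjoint_iff]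
  intro x y
  rw [ContinuousLinearMap.comp_apply, ContinuousLinearMap.comp_apply, d.X_symm, d.X_symm]

theorem lemM_comm (d₁ : MD E₁) (d₂ : MD E₂) (Y : HTen E₁ E₂ →L[ℂ] HTen E₁ E₂)
    (h : mapT (ContinuousLinearMap.id ℂ E₁ - d₁.A) (ContinuousLinearMap.id ℂ E₂ - d₂.A) ∘L Y ∘L
        mapT d₁.A d₂.A =
      mapT d₁.A d₂.A ∘L Y ∘L
        mapT (ContinuousLinearMap.id ℂ E₁ - d₁.A) (ContinuousLinearMap.id ℂ E₂ - d₂.A)) (t : ℝ) :
    Y ∘L mapT (d₁.U t) (d₂.U t) = mapT (d₁.U t) (d₂.U t) ∘L Y := by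
  set 𝕌 : HTen E₁ E₂ →L[ℂ] HTen E₁ E₂ := mapT (d₁.U t) (d₂.U t) with hU
  set 𝕌' : HTen E₁ E₂ →L[ℂ] HTen E₁ E₂ := mapT (d₁.U (-t)) (d₂.U (-t)) with hU'
  -- the cut-off identity
  have key : ∀ m : ℕ, ∀ θ, mapT (d₁.X m ∘L d₁.X m) (d₂.X m ∘L d₂.X m) (𝕌' (Y (𝕌
      (mapT (d₁.X m ∘L d₁.X m) (d₂.X m ∘L d₂.X m) θ)))) =
      mapT (d₁.X m ∘L d₁.X m) (d₂.X m ∘L d₂.X m) (Y
        (mapT (d₁.X m ∘L d₁.X m) (d₂.X m ∘L d₂.X m) θ)) := by
    intro m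
    set X' : HTen E₁ E₂ →L[ℂ] HTen E₁ E₂ := mapT (d₁.X m ∘L d₁.X m) (d₂.X m ∘L d₂.X m) with hX'
    set e : ℂ → HTen E₁ E₂ →L[ℂ] HTen E₁ E₂ := fun z =>
      mapT (NormedSpace.exp (z • d₁.B m)) (NormedSpace.exp (z • d₂.B m)) with he
    have hXe : ∀ z, X' ∘L e z = e z ∘L X' := by
      intro z
      refine clm_ext fun ξ η => ?_
      simp only [hX', he, ContinuousLinearMap.comp_apply, mapT_tmul]
      rw [exp_comm (d₁.B m) (d₁.X m) (fun x => d₁.X_B m m x),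
        exp_comm (d₁.B m) (d₁.X m) (fun x => d₁.X_B m m x),
        exp_comm (d₂.B m) (d₂.X m) (fun x => d₂.X_B m m x),
        exp_comm (d₂.B m) (d₂.X m) (fun x => d₂.X_B m m x)]
    have hrel : X' ∘L e 1 ∘L Y ∘L X' = X' ∘L Y ∘L e 1 ∘L X' := by
      have h1 := congrArg (fun T => mapT (d₁.W m ∘L d₁.X m) (d₂.W m ∘L d₂.X m) ∘L T ∘L
        mapT (d₁.X m ∘L d₁.W m) (d₂.X m ∘L d₂.W m)) h
      have a1 : (mapT (d₁.W m ∘L d₁.X m) (d₂.W m ∘L d₂.X m) : HTen E₁ E₂ →L[ℂ] HTen E₁ E₂) ∘L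
          mapT (ContinuousLinearMap.id ℂ E₁ - d₁.A) (ContinuousLinearMap.id ℂ E₂ - d₂.A) =
          X' ∘L e 1 := by
        refine clm_ext fun ξ η => ?_
        simp only [hX', he, ContinuousLinearMap.comp_apply, mapT_tmul, sub_apply,
          ContinuousLinearMap.id_apply]
        rw [wxa, wxa]
      have a2 : (mapT d₁.A d₂.A : HTen E₁ E₂ →L[ℂ] HTen E₁ E₂) ∘L
          mapT (d₁.X m ∘L d₁.W m) (d₂.X m ∘L d₂.W m) = X' := by
        refine clm_ext fun ξ η => ?_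
        simp only [hX', ContinuousLinearMap.comp_apply, mapT_tmul]
        rw [axw, axw]
      have a3 : (mapT (d₁.W m ∘L d₁.X m) (d₂.W m ∘L d₂.X m) : HTen E₁ E₂ →L[ℂ] HTen E₁ E₂) ∘L
          mapT d₁.A d₂.A = X' := by
        refine clm_ext fun ξ η => ?_
        simp only [hX', ContinuousLinearMap.comp_apply, mapT_tmul]
        rw [wxa', wxa']
      have a4 : (mapT (ContinuousLinearMap.id ℂ E₁ - d₁.A) (ContinuousLinearMap.id ℂ E₂ - d₂.A) :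
          HTen E₁ E₂ →L[ℂ] HTen E₁ E₂) ∘L
          mapT (d₁.X m ∘L d₁.W m) (d₂.X m ∘L d₂.W m) = e 1 ∘L X' := by
        refine clm_ext fun ξ η => ?_
        simp only [hX', he, ContinuousLinearMap.comp_apply, mapT_tmul, sub_apply,
          ContinuousLinearMap.id_apply]
        rw [axw', axw']
      ext θ
      have h2 := congrArg (fun T => T θ) h1
      have b1 := fun θ => congrArg (fun T => T θ) a1
      have b2 := fun θ => congrArg (fun T => T θ) a2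
      have b3 := fun θ => congrArg (fun T => T θ) a3
      have b4 := fun θ => congrArg (fun T => T θ) a4
      simp only [ContinuousLinearMap.comp_apply] at h2 b1 b2 b3 b4 ⊢
      rw [b1, b2, b3, b4] at h2
      exact h2
    have hadd : ∀ z w, e (z + w) = e z ∘L e w := by
      intro z w
      refine clm_ext fun ξ η => ?_
      simp only [he, ContinuousLinearMap.comp_apply, mapT_tmul]
      rw [exp_add_apply, exp_add_apply]
    have h0 : e 0 = ContinuousLinearMap.id ℂ _ := by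
      simp only [he, zero_smul, NormedSpace.exp_zero]
      exact mapT_id
    have hM : ∀ z : ℂ, |z.re| ≤ 2 →
        ‖e z‖ ≤ Real.exp (‖d₁.B m‖ * 2) * Real.exp (‖d₂.B m‖ * 2) := by
      intro z hz
      refine (norm_mapT_le _ _).trans ?_
      exact mul_le_mul (norm_exp_le' _ (d₁.B_symm m) hz) (norm_exp_le' _ (d₂.B_symm m) hz)
        (norm_nonneg _) (Real.exp_pos _).le
    have hL := liouville_comm e (ee_diff (d₁.B m) (d₂.B m)) hadd h0 _ hM X' Y hXe hrel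
      ((t : ℂ) * Complex.I)
    have hu : e ((t : ℂ) * Complex.I) ∘L X' = 𝕌 ∘L X' := by
      refine clm_ext fun ξ η => ?_
      simp only [hX', he, hU, ContinuousLinearMap.comp_apply, mapT_tmul]
      rw [d₁.U_X, d₂.U_X]
    have hu' : X' ∘L e (-((t : ℂ) * Complex.I)) = X' ∘L 𝕌' := by
      have h3 : -((t : ℂ) * Complex.I) = (((-t : ℝ) : ℂ)) * Complex.I := by
        push_cast
        ring
      rw [hXe, h3]
      refine clm_ext fun ξ η => ?_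
      simp only [hX', he, hU', ContinuousLinearMap.comp_apply, mapT_tmul]
      rw [← d₁.U_X, ← d₂.U_X, ← d₁.U_X_comm, ← d₂.U_X_comm, ← d₁.U_X_comm, ← d₂.U_X_comm]
    intro θ
    have h4 := congrArg (fun T => T θ) hL
    have c1 := fun θ => congrArg (fun T => T θ) hu
    have c2 := fun θ => congrArg (fun T => T θ) hu'
    simp only [ContinuousLinearMap.comp_apply] at h4 c1 c2
    rw [c1, c2] at h4
    exact h4
  -- the limit
  have htend : ∀ θ : HTen E₁ E₂, Filter.Tendsto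
      (fun m => mapT (d₁.X m ∘L d₁.X m) (d₂.X m ∘L d₂.X m) θ) Filter.atTop (nhds θ) := by
    intro θ
    have h1 := tendsto_mapT (fun m => d₁.X m ∘L d₁.X m) (ContinuousLinearMap.id ℂ E₁)
      (fun m => d₂.X m ∘L d₂.X m) (ContinuousLinearMap.id ℂ E₂) 1 (XX_norm d₁) (XX_norm d₂)
      (XX_tendsto d₁) (XX_tendsto d₂) θ
    rwa [mapT_id, ContinuousLinearMap.id_apply] at h1
  have hZ : ∀ θ, 𝕌' (Y (𝕌 θ)) = Y θ := by
    intro θ
    refine ext_inner_left ℂ fun θ' => ?_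
    have h1 := (htend θ').inner (((𝕌'.continuous.comp (Y.continuous.comp
      𝕌.continuous)).tendsto θ).comp (htend θ)) (𝕜 := ℂ)
    have h2 := (htend θ').inner ((Y.continuous.tendsto θ).comp (htend θ)) (𝕜 := ℂ)
    refine tendsto_nhds_unique h1 (h2.congr fun m => ?_)
    have h3 : ∀ x y : HTen E₁ E₂,
        ⟪mapT (d₁.X m ∘L d₁.X m) (d₂.X m ∘L d₂.X m) x, y⟫_ℂ =
          ⟪x, mapT (d₁.X m ∘L d₁.X m) (d₂.X m ∘L d₂.X m) y⟫_ℂ := by
      intro x y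
      have h4 : (mapT (d₁.X m ∘L d₁.X m) (d₂.X m ∘L d₂.X m) : HTen E₁ E₂ →L[ℂ] HTen E₁ E₂)† =
          mapT (d₁.X m ∘L d₁.X m) (d₂.X m ∘L d₂.X m) := by
        rw [adjoint_mapT, XX_adj, XX_adj]
      rw [← h4, ContinuousLinearMap.adjoint_inner_left, h4]
    simp only [Function.comp_apply]
    rw [h3, h3, key m θ]
  ext θ
  have h5 : 𝕌 (𝕌' (Y (𝕌 θ))) = Y (𝕌 θ) := by
    have h6 : 𝕌 ∘L 𝕌' = ContinuousLinearMap.id ℂ _ := by
      refine clm_ext fun ξ η => ?_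
      simp only [hU, hU', ContinuousLinearMap.comp_apply, mapT_tmul, ContinuousLinearMap.id_apply]
      rw [← d₁.U_add, ← d₂.U_add, add_neg_cancel, d₁.U_zero, d₂.U_zero]
    exact congrArg (fun T => T (Y (𝕌 θ))) h6
  change Y (𝕌 θ) = 𝕌 (Y θ)
  rw [← h5, hZ]

/-- (M*) implies that `Y` commutes with `U₁(t) ⊗ U₂(t)`. -/
theorem lemM (d₁ : MD E₁) (d₂ : MD E₂) (Y : HTen E₁ E₂ →L[ℂ] HTen E₁ E₂)
    (h : ∀ x u y v, ⟪tmul (d₁.C u) (d₂.C v), Y (tmul (d₁.A x) (d₂.A y))⟫_ℂ =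
      ⟪tmul (d₁.C x) (d₂.C y), Y (tmul (u - d₁.A u) (v - d₂.A v))⟫_ℂ) (t : ℝ) :
    Y ∘L mapT (d₁.U t) (d₂.U t) = mapT (d₁.U t) (d₂.U t) ∘L Y :=
  lemM_comm d₁ d₂ Y (lemM_alg d₁ d₂ Y h) t

end MD

end Pool.Agent.VNQ
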