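import Pool.Agent.VNQ.SInt
import Pool.Agent.VNQ.StepCb
import Pool.Agent.VNQ.KDP
import Pool.Agent.VNQ.GamK
import Pool.Agent.VNQ.LemMb

/-!
# `Y` commutes with the modular groups

`k = Q.mdK`, `d = Q.φ.md`. `QG.Y_U`: `Y (U^k_t ⊗ U^d_t) = (U^k_t ⊗ U^d_t) Y`.

Proof. By `MD.lemM` it is enough to check (M*): for `x₀, u ∈ H`, `y, v ∈ G`
`⟪C_k u ⊠ C_d v, Y (A_k x₀ ⊠ A_d y)⟫ = ⟪C_k x₀ ⊠ C_d y, Y ((u - A_k u) ⊠ (v - A_d v))⟫`.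
Let `β₁ = C_d y`, `δ = v - A_d v`. By `sint_Y` the left side is `⟪C_k u, x_{β₁,δ} (A_k x₀)⟫`.
By `DP_x` (`DP x_{β₁,δ} x_{δ,β₁}`) and `DP_KR`, and `(A_k x₀, C_k x₀) ∈ k.rel` (`AC_mem_rel`,
`mem_mdK_rel`): `(x_{β₁,δ} A_k x₀, x_{δ,β₁} C_k x₀) ∈ k.rel`. By `adj_pair` with
`γ = u - A_k u`, `γ₁ = C_k u` (`dual_pair`): `⟪γ, x_{δ,β₁} C_k x₀⟫ = ⟪x_{β₁,δ} A_k x₀, γ₁⟫`;
conjugate:
`⟪C_k u, x_{β₁,δ} A_k x₀⟫ = ⟪x_{δ,β₁} C_k x₀, u - A_k u⟫`. Finally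
`⟪x_{δ,β₁} C_k x₀, u - A_k u⟫ = conj ⟪u - A_k u, x_{δ,β₁} C_k x₀⟫
= conj ⟪Y ((u - A_k u) ⊠ δ), C_k x₀ ⊠ β₁⟫ = ⟪C_k x₀ ⊠ β₁, Y ((u - A_k u) ⊠ δ)⟫` (`inner_x`), which
is
the right side.

`QG.x_U`: `U^k_t (x_{u,v} ξ) = x_{U^d_t u, U^d_t v} (U^k_t ξ)`: test with `ξ' = U^k_t ξ''`
(`U^k_t` is bijective: `U_add`, `U_zero`): `⟪U^k_t ξ'', U^k_t x_{u,v} ξ⟫ = ⟪ξ'', x_{u,v} ξ⟫
= ⟪Y (ξ'' ⊠ u), ξ ⊠ v⟫` and `⟪U^k_t ξ'', x_{U^d_t u, U^d_t v} (U^k_t ξ)⟫ =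
⟪Y (U^k_t ξ'' ⊠ U^d_t u), U^k_t ξ ⊠ U^d_t v⟫ = ⟪(U^k_t ⊗ U^d_t) Y (ξ'' ⊠ u), (U^k_t ⊗ U^d_t)(ξ ⊠ v)⟫
= ⟪Y (ξ'' ⊠ u), ξ ⊠ v⟫` (`adjoint_mapT`, `U_adj`, `U_inner`: `(U_t)† U_t = 1`, `mapT_comp_apply`).
-/

set_option autoImplicit false

noncomputable section

open scoped TensorProduct InnerProductSpace InnerProduct ENNReal
open Filter

namespace Pool.Agent.VNQ

universe u

variable {H G : Type u} [NormedAddCommGroup H] [InnerProductSpace ℂ H] [CompleteSpace H]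
  [NormedAddCommGroup G] [InnerProductSpace ℂ G] [CompleteSpace G]

namespace QG

variable (Q : QG H G)

theorem Y_U (t : ℝ) : Q.Y ∘L mapT (Q.mdK.U t) (Q.φ.md.U t) =
    mapT (Q.mdK.U t) (Q.φ.md.U t) ∘L Q.Y := by
  refine MD.lemM Q.mdK Q.φ.md Q.Y (fun x₀ u y v => ?_) t
  have h1 : (Q.x (Q.φ.md.C y) (v - Q.φ.md.A v) (Q.mdK.A x₀),
      Q.x (v - Q.φ.md.A v) (Q.φ.md.C y) (Q.mdK.C x₀)) ∈ Q.mdK.rel :=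
    Q.mem_mdK_rel.2 (Q.DP_KR (Q.DP_x _ _) (Q.mem_mdK_rel.1 (Q.mdK.AC_mem_rel x₀)))
  have h2 := Q.mdK.adj_pair h1 (Q.mdK.dual_pair u)
  rw [Q.sint_Y, ← inner_conj_symm, ← h2, Q.inner_x, inner_conj_symm]

theorem x_U (t : ℝ) (u v : G) (ξ : H) : Q.mdK.U t (Q.x u v ξ) =
    Q.x (Q.φ.md.U t u) (Q.φ.md.U t v) (Q.mdK.U t ξ) := by
  refine ext_inner_left ℂ fun ξ' => ?_
  obtain ⟨ξ'', rfl⟩ : ∃ ξ'', Q.mdK.U t ξ'' = ξ' :=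
    ⟨Q.mdK.U (-t) ξ', by rw [← Q.mdK.U_add, add_neg_cancel, Q.mdK.U_zero]⟩
  have hUU : ∀ θ θ' : HTen H G, ⟪mapT (Q.mdK.U t) (Q.φ.md.U t) θ,
      mapT (Q.mdK.U t) (Q.φ.md.U t) θ'⟫_ℂ = ⟪θ, θ'⟫_ℂ := by
    intro θ θ'
    have h1 : (mapT (Q.mdK.U t) (Q.φ.md.U t))† ∘L mapT (Q.mdK.U t) (Q.φ.md.U t) =
        ContinuousLinearMap.id ℂ (HTen H G) := by
      have a1 : ∀ x, ((Q.mdK.U t)†) (Q.mdK.U t x) = x := by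
        intro x
        refine ext_inner_right ℂ fun y => ?_
        rw [ContinuousLinearMap.adjoint_inner_left, Q.mdK.U_inner]
      have a2 : ∀ x, ((Q.φ.md.U t)†) (Q.φ.md.U t x) = x := by
        intro x
        refine ext_inner_right ℂ fun y => ?_
        rw [ContinuousLinearMap.adjoint_inner_left, Q.φ.md.U_inner]
      refine clm_ext fun a b => ?_
      rw [adjoint_mapT, ContinuousLinearMap.comp_apply, mapT_tmul, mapT_tmul, a1, a2,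
        ContinuousLinearMap.id_apply]
    rw [← ContinuousLinearMap.adjoint_inner_right, ← ContinuousLinearMap.comp_apply, h1,
      ContinuousLinearMap.id_apply]
  have h3 : Q.Y (mapT (Q.mdK.U t) (Q.φ.md.U t) (tmul ξ'' u)) =
      mapT (Q.mdK.U t) (Q.φ.md.U t) (Q.Y (tmul ξ'' u)) :=
    congrArg (fun T => T (tmul ξ'' u)) (Q.Y_U t)
  rw [Q.mdK.U_inner, Q.inner_x, Q.inner_x, ← mapT_tmul, ← mapT_tmul, h3, hUU]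

end QG

end Pool.Agent.VNQ
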