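import Pool.Agent.VNQ.CorePsi
import Pool.Agent.VNQ.Tot
import Pool.Agent.VNQ.AUb

/-!
# The commutant of the slices

`QG.legs`: if `y ∈ B(H)` commutes with all `Q.sr η' η x` (`x ∈ M`, `η, η' ∈ H`) then `y ∈ M'`.

Proof. (i) `y` commutes with every element of `Q.Sp` (`Submodule.span_induction`). (ii) Let
`x, x† ∈ N_ψ`. Choose `a_n ∈ Q.Sp` with `Λ a_n → Λ x`, `Λ(a_n†) → Λ(x†)` (`core_psi` with
`ε = 1/(n+1)`). For `n' ∈ M'` and indices `i, i'` let `R = Z_{i'}† n' Z_i` and `ρ = Z_{i'}† n' ζ_i`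
(`ζ_i = Q.ψ.z i`). For `a ∈ N_ψ`: `R (Λ a) = Z_{i'}† n' a ζ_i = a Z_{i'}† n' ζ_i = a ρ` (`Z_Λ`;
`n'` and `Z_{i'}†` commute with `a ∈ M`: `Z_mem`, `adj_mem`, `mem_comm_iff`). So
`a_n ρ = R Λ a_n → R Λ x = x ρ` and `a_n† ρ → x† ρ`, for all such `ρ`. For two such vectors
`ρ, ρ'`: `⟪ρ', y x ρ⟫ = lim ⟪ρ', y a_n ρ⟫ = lim ⟪ρ', a_n y ρ⟫ = lim ⟪a_n† ρ', y ρ⟫ = ⟪x† ρ', y ρ⟫ =
⟪ρ', x y ρ⟫`. The vectors `ρ` span a dense subspace (`Q.ψ.total_G`, here `G = H`), so `y x = x y`.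
(iii) For `x ∈ M`: `exists_star_net` for `Q.ψ` gives `b_k → x` strongly, `b_k, b_k† ∈ N_ψ`, and
`y b_k ξ = b_k y ξ`, so `y x ξ = x y ξ` (the filter is `NeBot`, `tendsto_nhds_unique`). So `y ∈ M'`
(`mem_comm_iff`).
-/

set_option autoImplicit false

noncomputable section

open scoped TensorProduct InnerProductSpace InnerProduct ENNReal
open Filter

namespace Pool.Agent.VNQ

universe u

variable {H G : Type u} [NormedAddCommGroup H] [InnerProductSpace ℂ H] [CompleteSpace H]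
  [NormedAddCommGroup G] [InnerProductSpace ℂ G] [CompleteSpace G]

namespace QG

variable (Q : QG H G)

private theorem legs_span {y : H →L[ℂ] H}
    (hy : ∀ x ∈ Q.M, ∀ η' η ξ, y (Q.sr η' η x ξ) = Q.sr η' η x (y ξ)) {a : H →L[ℂ] H}
    (ha : a ∈ Q.Sp) : ∀ ξ, y (a ξ) = a (y ξ) := by
  unfold Sp at ha
  induction ha using Submodule.span_induction with
  | mem b hb =>
    obtain ⟨x, hx, -, η', η, rfl⟩ := hb
    exact hy x hx.1 η' η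
  | zero =>
    intro ξ
    simp
  | add b c _ _ hb hc =>
    intro ξ
    rw [add_apply, map_add, hb, hc, add_apply]
  | smul c b _ hb =>
    intro ξ
    rw [smul_apply, map_smul, hb, smul_apply]

private theorem legs_rho {n' a : H →L[ℂ] H} (hn : n' ∈ Q.M.commutant) (ha : a ∈ Q.ψ.N)
    (l p : Q.ψ.ι) : ((Q.ψ.Z l)†) (n' (Q.ψ.Z p (Q.ψ.Λ a))) =
      a (((Q.ψ.Z l)†) (n' (Q.ψ.z p))) := by
  rw [Q.ψ.Z_Λ a ha p, mem_comm_iff.1 (adj_mem (Q.Z_mem l)) a ha.1,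
    mem_comm_iff.1 hn a ha.1]

private theorem legs_lim {a : ℕ → H →L[ℂ] H} {x n' : H →L[ℂ] H} (hn : n' ∈ Q.M.commutant)
    (ha : ∀ n, a n ∈ Q.ψ.N) (hx : x ∈ Q.ψ.N)
    (h : ∀ n : ℕ, ‖Q.ψ.Λ (a n) - Q.ψ.Λ x‖ < 1 / ((n : ℝ) + 1)) (l p : Q.ψ.ι) :
    Tendsto (fun n => a n (((Q.ψ.Z l)†) (n' (Q.ψ.z p)))) atTop
      (nhds (x (((Q.ψ.Z l)†) (n' (Q.ψ.z p))))) := by
  have h1 : Tendsto (fun n => Q.ψ.Λ (a n)) atTop (nhds (Q.ψ.Λ x)) := by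
    rw [tendsto_iff_norm_sub_tendsto_zero]
    exact squeeze_zero (fun n => norm_nonneg _) (fun n => (h n).le)
      tendsto_one_div_add_atTop_nhds_zero_nat
  have h2 : Continuous fun g : H => ((Q.ψ.Z l)†) (n' (Q.ψ.Z p g)) := by fun_prop
  have h3 := (h2.tendsto (Q.ψ.Λ x)).comp h1
  rw [Q.legs_rho hn hx] at h3
  refine h3.congr fun n => ?_
  exact Q.legs_rho hn (ha n) l p

private theorem legs_N {y : H →L[ℂ] H}
    (hy : ∀ x ∈ Q.M, ∀ η' η ξ, y (Q.sr η' η x ξ) = Q.sr η' η x (y ξ)) {x : H →L[ℂ] H}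
    (hx : x ∈ Q.ψ.N) (hx' : x† ∈ Q.ψ.N) (ξ : H) : y (x ξ) = x (y ξ) := by
  have hc : ∀ n : ℕ, ∃ a ∈ Q.Sp, ‖Q.ψ.Λ a - Q.ψ.Λ x‖ < 1 / ((n : ℝ) + 1) ∧
      ‖Q.ψ.Λ (a†) - Q.ψ.Λ (x†)‖ < 1 / ((n : ℝ) + 1) :=
    fun n => Q.core_psi hx hx' _ (by positivity)
  choose a ha h1 h2 using hc
  have haN : ∀ n, a n ∈ Q.ψ.N := fun n => (Q.Sp_mem (ha n)).1
  have haN' : ∀ n, (a n)† ∈ Q.ψ.N := fun n => (Q.Sp_mem (ha n)).2.1
  have key : y ∘L x = x ∘L y := by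
    refine ContinuousLinearMap.ext_on Q.ψ.total_G ?_
    rintro _ ⟨n', hn', l, p, rfl⟩
    obtain ⟨ρ, hρ⟩ : ∃ ρ, ρ = ((Q.ψ.Z l)†) (n' (Q.ψ.z p)) := ⟨_, rfl⟩
    have e1 := Q.legs_lim hn' haN hx h1 l p
    rw [← hρ] at e1 ⊢
    change y (x ρ) = x (y ρ)
    rw [← sub_eq_zero]
    refine Dense.eq_zero_of_inner_right (𝕜 := ℂ) Q.ψ.total_G ?_
    intro v hv
    induction hv using Submodule.span_induction with
    | mem v hv =>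
      obtain ⟨m, hm, l', p', rfl⟩ := hv
      have e2 := Q.legs_lim hm haN' hx' h2 l' p'
      obtain ⟨σ, hσ⟩ : ∃ σ, σ = ((Q.ψ.Z l')†) (m (Q.ψ.z p')) := ⟨_, rfl⟩
      rw [← hσ] at e2 ⊢
      have e3 : Tendsto (fun n => ⟪σ, y (a n ρ)⟫_ℂ) atTop (nhds ⟪σ, y (x ρ)⟫_ℂ) :=
        tendsto_const_nhds.inner ((y.continuous.tendsto _).comp e1)
      have e4 : Tendsto (fun n => ⟪((a n)†) σ, y ρ⟫_ℂ) atTop (nhds ⟪(x†) σ, y ρ⟫_ℂ) :=
        e2.inner tendsto_const_nhds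
      have e5 : ∀ n, ⟪((a n)†) σ, y ρ⟫_ℂ = ⟪σ, y (a n ρ)⟫_ℂ := by
        intro n
        rw [ContinuousLinearMap.adjoint_inner_left, Q.legs_span hy (ha n)]
      have e6 := tendsto_nhds_unique e3 (e4.congr e5)
      rw [inner_sub_right, e6, ContinuousLinearMap.adjoint_inner_left, sub_self]
    | zero => simp
    | add u v _ _ hu hv => rw [inner_add_left, hu, hv, add_zero]
    | smul c u _ hu => rw [inner_smul_left, hu, mul_zero]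
  exact congrArg (fun f : H →L[ℂ] H => f ξ) key

theorem legs (y : H →L[ℂ] H)
    (hy : ∀ x ∈ Q.M, ∀ η' η ξ, y (Q.sr η' η x ξ) = Q.sr η' η x (y ξ)) : y ∈ Q.M.commutant := by
  refine mem_comm_iff.2 fun x hx ξ => ?_
  obtain ⟨κ, l, hl, b, hb, hb', -, hlim, -⟩ := Q.ψ.exists_star_net x hx
  have h1 : Tendsto (fun k => y (b k ξ)) l (nhds (y (x ξ))) :=
    (y.continuous.tendsto _).comp (hlim ξ)
  have h2 : Tendsto (fun k => y (b k ξ)) l (nhds (x (y ξ))) :=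
    (hlim (y ξ)).congr fun k => (Q.legs_N hy (hb k) (hb' k) ξ).symm
  exact tendsto_nhds_unique h2 h1

end QG

end Pool.Agent.VNQ
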