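import Pool.Agent.VNQ.SNc
import Pool.Agent.VNQ.Legs

/-!
# Normal functionals which vanish on the `x_{u,v}` vanish on `M`

`QG.sn`: let `θ` be normal with `θ(x_{u,v}) = 0` for all `u, v ∈ G`. Then `θ(x) = 0` for all `x ∈
M`.

Proof. Call a normal `θ'` good if `θ'(Q.sr κ η x) = 0` for all `x ∈ M`, `κ, η ∈ H`. By `sna` `θ` is
good,
and if `θ'` is good and `s` is a slice then `θ'(s ∘ ·)` is good (`snc`, `IsNrm.comp_left`). Let
`S = {Q.sr κ η x : x ∈ M, κ, η ∈ H}` and `𝒜 = Algebra.adjoin ℂ S` (as a set). Every good `θ'`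
vanishes on the submonoid generated by `S`, by induction (`Submonoid.closure_induction_left`, the
statement for all good `θ'` at once): `θ'(s X) = (θ'(s ∘ ·))(X) = 0`, and `θ'(1) = 0`: if `H = 0`
then `1 = 0` (`IsNrm.map_zero`); otherwise take `κ` with `‖κ‖ = 1`, `Q.sr κ κ 1 = 1`
(`Q.one`: `⟪ξ', Q.sr κ κ 1 ξ⟫ = ⟪ξ' ⊠ κ, ξ ⊠ κ⟫ = ⟪ξ', ξ⟫`). By linearity `θ' = 0` on `𝒜`
(`Algebra.adjoin_eq_span`, `Submodule.span_induction`). `𝒜` is closed under adjoints:
`S† ⊆ S` (`adjoint_sr`), `Algebra.adjoin_induction` (`(X Y)† = Y† X†`, `(X + Y)† = X† + Y†`,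
`algebraMap ℂ _ c = c • 1`). Now apply `IsNrm.eq_zero_of_comm`: if `y` commutes with all
elements of `𝒜 ⊇ S` then `y ∈ M'` (`legs`), so `x ∈ M` commutes with `y` (`mem_comm_iff`).
-/

set_option autoImplicit false

noncomputable section

open scoped TensorProduct InnerProductSpace InnerProduct ENNReal
open Filter

namespace Pool.Agent.VNQ

universe u

variable {H G : Type u} [NormedAddCommGroup H] [InnerProductSpace ℂ H] [CompleteSpace H]
  [NormedAddCommGroup G] [InnerProductSpace ℂ G] [CompleteSpace G]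

namespace QG

variable (Q : QG H G)

/-- The right slices. -/
private def snS : Set (H →L[ℂ] H) := {s | ∃ x ∈ Q.M, ∃ κ η, s = Q.sr κ η x}

/-- The operators on which all normal functionals vanish that vanish on the right slices. -/
private def snZ : Set (H →L[ℂ] H) := {Y | ∀ θ : (H →L[ℂ] H) → ℂ, IsNrm θ →
  (∀ x ∈ Q.M, ∀ κ η, θ (Q.sr κ η x) = 0) → θ Y = 0}

private theorem one_mem_snZ : ContinuousLinearMap.id ℂ H ∈ Q.snZ := by
  intro θ hθ h
  by_cases hH : ∃ κ : H, κ ≠ 0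
  · obtain ⟨κ, hκ⟩ := hH
    have hn : (‖κ‖ : ℂ) ≠ 0 := by
      rw [Ne, Complex.ofReal_eq_zero, norm_eq_zero]
      exact hκ
    have h1 : Q.sr κ κ (ContinuousLinearMap.id ℂ H) =
        ((‖κ‖ : ℂ) ^ 2) • ContinuousLinearMap.id ℂ H := by
      ext ξ
      refine ext_inner_left ℂ fun ξ' => ?_
      rw [Q.inner_sr, Q.one]
      simp only [ContinuousLinearMap.coe_id', id_eq, ContinuousLinearMap.smul_apply, inner_tmul,
        inner_smul_right, inner_self_eq_norm_sq_to_K]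
      rw [mul_comm]
      rfl
    have h2 := h _ id_mem κ κ
    rw [h1, hθ.map_smul] at h2
    exact (mul_eq_zero.1 h2).resolve_left (pow_ne_zero 2 hn)
  · push Not at hH
    have h1 : ContinuousLinearMap.id ℂ H = 0 := by
      ext ξ
      rw [hH ξ, map_zero, map_zero]
    rw [h1]
    exact hθ.map_zero

private theorem mul_mem_snZ {X : H →L[ℂ] H} (hX : X ∈ Algebra.adjoin ℂ Q.snS) :
    ∀ Y ∈ Q.snZ, X * Y ∈ Q.snZ := by
  induction hX using Algebra.adjoin_induction with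
  | mem s hs =>
    obtain ⟨x, hx, κ, η, rfl⟩ := hs
    intro Y hY θ hθ h
    exact hY _ (hθ.comp_left (Q.sr κ η x)) fun y hy κ' η' => Q.snc hθ h hx hy κ η κ' η'
  | algebraMap c =>
    intro Y hY θ hθ h
    rw [Algebra.algebraMap_eq_smul_one, smul_mul_assoc, one_mul, hθ.map_smul, hY θ hθ h,
      mul_zero]
  | add X X' _ _ hX hX' =>
    intro Y hY θ hθ h
    rw [add_mul, hθ.map_add, hX Y hY θ hθ h, hX' Y hY θ hθ h, add_zero]
  | mul X X' _ _ hX hX' =>
    intro Y hY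
    rw [mul_assoc]
    exact hX _ (hX' Y hY)

private theorem adjoint_mem_snA {X : H →L[ℂ] H} (hX : X ∈ Algebra.adjoin ℂ Q.snS) :
    X† ∈ Algebra.adjoin ℂ Q.snS := by
  induction hX using Algebra.adjoin_induction with
  | mem s hs =>
    obtain ⟨x, hx, κ, η, rfl⟩ := hs
    exact Algebra.subset_adjoin ⟨x†, adj_mem hx, η, κ, Q.adjoint_sr κ η hx⟩
  | algebraMap c =>
    have h1 : (algebraMap ℂ (H →L[ℂ] H) c)† = algebraMap ℂ (H →L[ℂ] H) (starRingEnd ℂ c) := by
      rw [Algebra.algebraMap_eq_smul_one, Algebra.algebraMap_eq_smul_one, map_smulₛₗ]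
      congr 1
      exact ContinuousLinearMap.adjoint_id
    rw [h1]
    exact Subalgebra.algebraMap_mem _ _
  | add X X' _ _ hX hX' =>
    rw [map_add]
    exact Subalgebra.add_mem _ hX hX'
  | mul X X' _ _ hX hX' =>
    have h1 : (X * X')† = X'† * X† := ContinuousLinearMap.adjoint_comp X X'
    rw [h1]
    exact Subalgebra.mul_mem _ hX' hX

theorem sn {θ : (H →L[ℂ] H) → ℂ} (hθ : IsNrm θ) (h : ∀ u v, θ (Q.x u v) = 0)
    {x : H →L[ℂ] H} (hx : x ∈ Q.M) : θ x = 0 := by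
  have h0 := Q.sna hθ h
  refine hθ.eq_zero_of_comm (Algebra.adjoin ℂ Q.snS : Set (H →L[ℂ] H))
    (Subalgebra.one_mem _) (fun a ha b hb => Subalgebra.add_mem _ ha hb)
    (fun c a ha => Subalgebra.smul_mem _ ha c) (fun a ha b hb => Subalgebra.mul_mem _ ha hb)
    (fun a ha => Q.adjoint_mem_snA ha) (fun a ha => ?_) x ?_
  · have h1 := Q.mul_mem_snZ ha _ Q.one_mem_snZ θ hθ h0
    exact h1
  · intro y hy
    have h1 : y ∈ Q.M.commutant := Q.legs y fun x' hx' η' η ξ => by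
      have h2 := hy (Q.sr η' η x') (Algebra.subset_adjoin ⟨x', hx', η', η, rfl⟩)
      exact congrArg (fun f : H →L[ℂ] H => f ξ) h2
    ext ξ
    exact mem_comm_iff.1 h1 x hx ξ

end QG

end Pool.Agent.VNQ
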