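import Pool.Agent.VNQ.StarA
import Pool.Agent.VNQ.Shift

/-!
# The integrated relation

Let `x, y ∈ B(E)` satisfy (DS): `⟪y (C ξ), γ - A γ⟫ = ⟪C γ, x (A ξ)⟫` for all `ξ, γ`. Then for all
`n > 0` and all `γ, γ' ∈ E`:
`∫ exp(-n t²) ⟪y U_{-t} γ', U_{-t} γ⟫ dt = ∫ exp(-n (t + i/2)²) ⟪U_{-t} J γ, x U_{-t} J γ'⟫ dt`.

Proof. Fix `m`, `B = md.B m`, `X = md.X m`, `a = X J γ`, `b = X J γ'`, and
`Φ(w) = ⟪a, exp(i w B) x exp(-i w B) b⟫`: entire (`exp_diff_inner`) and
`‖Φ(w)‖ ≤ ‖a‖ ‖x‖ ‖b‖ exp(2 ‖B‖ |im w|)` (`norm_exp_le`).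
For real `t`: `Φ(t) = ⟪U_{-t} a, x U_{-t} b⟫` (`exp_adj`: `⟪a, exp(itB) v⟫ = ⟪exp(-itB) a, v⟫`,
`U_X` for `-t`). And `Φ(t - i/2) = ⟪a, exp(itB) exp(B/2) x exp(-itB) exp(-B/2) b⟫
= ⟪exp(B/2) U_{-t} a, x exp(-B/2) U_{-t} b⟫` (`exp_add_apply`, `exp_adj`; the exponentials
commute, `U_exp_comm`), which is, by `starA` for `U_{-t} γ`, `U_{-t} γ'`
(`J U_t = U_t J`, `J_U'`, `U_X_comm`), equal to `⟪y X U_{-t} γ', X U_{-t} γ⟫`.
`gauss_shift_im` with `s = 1/2`:
`∫ exp(-n (t + i/2)²) Φ(t) dt = ∫ exp(-n t²) Φ(t - i/2) dt`, that is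
`∫ exp(-n (t + i/2)²) ⟪U_{-t} X J γ, x U_{-t} X J γ'⟫ dt
 = ∫ exp(-n t²) ⟪y U_{-t} X γ', U_{-t} X γ⟫ dt`.
Let `m → ∞` (dominated convergence, `tendsto_integral_of_dominated_convergence`; `X_tendsto`,
`norm_X_le`, `norm_U`, `norm_J`; the bounds are `‖exp(-n(t+i/2)²)‖ ‖x‖ ‖γ‖ ‖γ'‖` and
`exp(-n t²) ‖y‖ ‖γ‖ ‖γ'‖`, integrable: `gauss_integrable` with `f = 1`, `z = - i/2` and `z = 0`;
measurability of the integrands: they are continuous in `t`, `continuous_U`).
-/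

set_option autoImplicit false

noncomputable section

open scoped InnerProductSpace InnerProduct
open Filter MeasureTheory

namespace Pool.Agent.VNQ

universe u

variable {E : Type u} [NormedAddCommGroup E] [InnerProductSpace ℂ E] [CompleteSpace E]

namespace MD

variable (md : MD E)

private theorem star_norm_X (m : ℕ) (v : E) : ‖md.X m v‖ ≤ ‖v‖ := by
  refine ((md.X m).le_opNorm v).trans ?_
  have := md.norm_X_le m
  nlinarith [norm_nonneg v]

/-- the relation between the boundary values, for a fixed cut-off -/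
private theorem star_step (x y : E →L[ℂ] E)
    (h : ∀ ξ γ, ⟪y (md.C ξ), γ - md.A γ⟫_ℂ = ⟪md.C γ, x (md.A ξ)⟫_ℂ) (n : ℝ) (hn : 0 < n)
    (γ γ' : E) (m : ℕ) :
    ∫ t : ℝ, Complex.exp (-n * (t : ℂ) ^ 2) *
        ⟪y (md.X m (md.U (-t) γ')), md.X m (md.U (-t) γ)⟫_ℂ =
      ∫ t : ℝ, Complex.exp (-n * ((t : ℂ) + (1 / 2 : ℝ) * Complex.I) ^ 2) *
        ⟪md.X m (md.U (-t) (md.J γ)), x (md.X m (md.U (-t) (md.J γ')))⟫_ℂ := by
  set a : E := md.X m (md.J γ) with ha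
  set b : E := md.X m (md.J γ') with hb
  set Φ : ℂ → ℂ := fun w => ⟪a, NormedSpace.exp ((Complex.I * w) • md.B m)
    (x (NormedSpace.exp ((-Complex.I * w) • md.B m) b))⟫_ℂ with hΦ
  have hd : Differentiable ℂ Φ := exp_diff_inner (md.B m) x Complex.I (-Complex.I) a b
  have hM : ∀ z, ‖Φ z‖ ≤ (‖a‖ * (‖x‖ * ‖b‖)) * Real.exp ((2 * ‖md.B m‖) * |z.im|) := by
    intro z
    have e1 : |(Complex.I * z).re| = |z.im| := by
      simp
    have e2 : |(-Complex.I * z).re| = |z.im| := by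
      simp
    have h1 := norm_exp_le (md.B m) (md.B_symm m) (Complex.I * z)
      (x (NormedSpace.exp ((-Complex.I * z) • md.B m) b))
    have h2 := norm_exp_le (md.B m) (md.B_symm m) (-Complex.I * z) b
    rw [e1] at h1
    rw [e2] at h2
    have h3 : ‖x (NormedSpace.exp ((-Complex.I * z) • md.B m) b)‖ ≤
        ‖x‖ * (Real.exp (‖md.B m‖ * |z.im|) * ‖b‖) :=
      (x.le_opNorm _).trans (mul_le_mul_of_nonneg_left h2 (norm_nonneg _))
    have h4 : ‖Φ z‖ ≤ ‖a‖ * (Real.exp (‖md.B m‖ * |z.im|) *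
        (‖x‖ * (Real.exp (‖md.B m‖ * |z.im|) * ‖b‖))) := by
      refine (norm_inner_le_norm _ _).trans (mul_le_mul_of_nonneg_left ?_ (norm_nonneg _))
      exact h1.trans (mul_le_mul_of_nonneg_left h3 (Real.exp_pos _).le)
    refine h4.trans (le_of_eq ?_)
    have h5 : Real.exp ((2 * ‖md.B m‖) * |z.im|) =
        Real.exp (‖md.B m‖ * |z.im|) * Real.exp (‖md.B m‖ * |z.im|) := by
      rw [← Real.exp_add]
      congr 1
      ring
    rw [h5]
    ring
  have hexp : ∀ (t : ℝ) (v : E), NormedSpace.exp ((-Complex.I * t) • md.B m) (md.X m v) =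
      md.X m (md.U (-t) v) := by
    intro t v
    rw [md.U_X_comm, md.U_X]
    congr 3
    push_cast
    ring
  have key := gauss_shift_im hn hd hM (1 / 2)
  have h1 : ∀ t : ℝ, Φ t = ⟪md.X m (md.U (-t) (md.J γ)), x (md.X m (md.U (-t) (md.J γ')))⟫_ℂ := by
    intro t
    rw [← hexp, ← hexp, exp_adj (md.B m) (md.B_symm m)]
    simp only [hΦ]
    congr 3
    simp
  have h2 : ∀ t : ℝ, Φ (t - (1 / 2 : ℝ) * Complex.I) =
      ⟪y (md.X m (md.U (-t) γ')), md.X m (md.U (-t) γ)⟫_ℂ := by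
    intro t
    rw [md.starA x y h, md.J_U', md.J_U', ← hexp, ← hexp, ← exp_add_apply, ← exp_add_apply,
      exp_adj (md.B m) (md.B_symm m)]
    simp only [hΦ]
    have e1 : Complex.I * ((t : ℂ) - ((1 / 2 : ℝ) : ℂ) * Complex.I) =
        (starRingEnd ℂ) (1 / 2 + -Complex.I * t) := by
      apply Complex.ext <;> simp
    have e2 : -Complex.I * ((t : ℂ) - ((1 / 2 : ℝ) : ℂ) * Complex.I) =
        -1 / 2 + -Complex.I * t := by
      apply Complex.ext <;> simp <;> norm_num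
    rw [e1, e2]
  rw [← integral_congr_ae (Eventually.of_forall fun t => by
    change Complex.exp (-n * (t : ℂ) ^ 2) * Φ (t - (1 / 2 : ℝ) * Complex.I) =
      Complex.exp (-n * (t : ℂ) ^ 2) * ⟪y (md.X m (md.U (-t) γ')), md.X m (md.U (-t) γ)⟫_ℂ
    rw [h2]), ← key]
  exact integral_congr_ae (Eventually.of_forall fun t => by
    change Complex.exp (-n * ((t : ℂ) + (1 / 2 : ℝ) * Complex.I) ^ 2) * Φ t = _
    rw [h1])

theorem star_int (x y : E →L[ℂ] E)
    (h : ∀ ξ γ, ⟪y (md.C ξ), γ - md.A γ⟫_ℂ = ⟪md.C γ, x (md.A ξ)⟫_ℂ) (n : ℝ) (hn : 0 < n)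
    (γ γ' : E) :
    ∫ t : ℝ, Complex.exp (-n * (t : ℂ) ^ 2) *
        ⟪y (md.U (-t) γ'), md.U (-t) γ⟫_ℂ =
      ∫ t : ℝ, Complex.exp (-n * ((t : ℂ) + (1 / 2 : ℝ) * Complex.I) ^ 2) *
        ⟪md.U (-t) (md.J γ), x (md.U (-t) (md.J γ'))⟫_ℂ := by
  have hcU : ∀ v : E, Continuous fun t : ℝ => md.U (-t) v := fun v =>
    (md.continuous_U v).comp continuous_neg
  have hL : Tendsto (fun m : ℕ => ∫ t : ℝ, Complex.exp (-n * (t : ℂ) ^ 2) *
      ⟪y (md.X m (md.U (-t) γ')), md.X m (md.U (-t) γ)⟫_ℂ) atTop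
      (nhds (∫ t : ℝ, Complex.exp (-n * (t : ℂ) ^ 2) * ⟪y (md.U (-t) γ'), md.U (-t) γ⟫_ℂ)) := by
    have hint := (gauss_integrable (f := fun _ => (1 : ℂ)) (M := 1) hn continuous_const
      (fun _ => by simp) 0).norm.mul_const (‖y‖ * ‖γ'‖ * ‖γ‖)
    refine tendsto_integral_of_dominated_convergence _ ?_ hint ?_ ?_
    · intro m
      refine Continuous.aestronglyMeasurable ?_
      have c1 : Continuous fun t : ℝ => Complex.exp (-n * (t : ℂ) ^ 2) := by fun_prop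
      exact c1.mul ((y.continuous.comp ((md.X m).continuous.comp (hcU γ'))).inner
        ((md.X m).continuous.comp (hcU γ)))
    · intro m
      refine Eventually.of_forall fun t => ?_
      rw [norm_mul, mul_one, sub_zero]
      refine mul_le_mul_of_nonneg_left ?_ (norm_nonneg _)
      refine (norm_inner_le_norm _ _).trans ?_
      refine mul_le_mul ?_ ?_ (norm_nonneg _) (by positivity)
      · refine (y.le_opNorm _).trans (mul_le_mul_of_nonneg_left ?_ (norm_nonneg _))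
        exact (md.star_norm_X m _).trans (md.norm_U _ _).le
      · exact (md.star_norm_X m _).trans (md.norm_U _ _).le
    · refine Eventually.of_forall fun t => ?_
      exact (((y.continuous.tendsto _).comp (md.X_tendsto _)).inner
        (md.X_tendsto _)).const_mul _
  have hR : Tendsto (fun m : ℕ => ∫ t : ℝ,
      Complex.exp (-n * ((t : ℂ) + (1 / 2 : ℝ) * Complex.I) ^ 2) *
        ⟪md.X m (md.U (-t) (md.J γ)), x (md.X m (md.U (-t) (md.J γ')))⟫_ℂ) atTop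
      (nhds (∫ t : ℝ, Complex.exp (-n * ((t : ℂ) + (1 / 2 : ℝ) * Complex.I) ^ 2) *
        ⟪md.U (-t) (md.J γ), x (md.U (-t) (md.J γ'))⟫_ℂ)) := by
    have hint := (gauss_integrable (f := fun _ => (1 : ℂ)) (M := 1) hn continuous_const
      (fun _ => by simp) (-((1 / 2 : ℝ) * Complex.I))).norm.mul_const (‖γ‖ * (‖x‖ * ‖γ'‖))
    refine tendsto_integral_of_dominated_convergence _ ?_ hint ?_ ?_
    · intro m
      refine Continuous.aestronglyMeasurable ?_
      have c1 : Continuous fun t : ℝ =>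
          Complex.exp (-n * ((t : ℂ) + (1 / 2 : ℝ) * Complex.I) ^ 2) := by fun_prop
      exact c1.mul (((md.X m).continuous.comp (hcU _)).inner
        (x.continuous.comp ((md.X m).continuous.comp (hcU _))))
    · intro m
      refine Eventually.of_forall fun t => ?_
      rw [norm_mul, mul_one, sub_neg_eq_add]
      refine mul_le_mul_of_nonneg_left ?_ (norm_nonneg _)
      refine (norm_inner_le_norm _ _).trans ?_
      refine mul_le_mul ?_ ?_ (norm_nonneg _) (norm_nonneg _)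
      · exact (md.star_norm_X m _).trans ((md.norm_U _ _).le.trans (md.norm_J _).le)
      · refine (x.le_opNorm _).trans (mul_le_mul_of_nonneg_left ?_ (norm_nonneg _))
        exact (md.star_norm_X m _).trans ((md.norm_U _ _).le.trans (md.norm_J _).le)
    · refine Eventually.of_forall fun t => ?_
      exact ((md.X_tendsto _).inner ((x.continuous.tendsto _).comp (md.X_tendsto _))).const_mul _
  refine tendsto_nhds_unique hL ?_
  have heq : (fun m : ℕ => ∫ t : ℝ, Complex.exp (-n * (t : ℂ) ^ 2) *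
      ⟪y (md.X m (md.U (-t) γ')), md.X m (md.U (-t) γ)⟫_ℂ) = fun m : ℕ => ∫ t : ℝ,
      Complex.exp (-n * ((t : ℂ) + (1 / 2 : ℝ) * Complex.I) ^ 2) *
        ⟪md.X m (md.U (-t) (md.J γ)), x (md.X m (md.U (-t) (md.J γ')))⟫_ℂ := by
    funext m
    exact md.star_step x y h n hn γ γ' m
  rw [heq]
  exact hR

end MD

end Pool.Agent.VNQ
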