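import Pool.Agent.VNQ.DSr
import Pool.Agent.VNQ.RelY
import Pool.Agent.VNQ.SN
import Pool.Agent.VNQ.Star
import Pool.Agent.VNQ.NrmSum
import Pool.Agent.VNQ.NrmInt

/-!
# The annihilator of the pairs `(x_{u,v}, x_{v,u})`

`QG.finA`: let `α_k, α'_k, ξ_k ∈ H` (`k < n`) with
(H) `∑_k ⟪α_k, x_{u,v} ξ_k⟫ + conj ∑_k ⟪α'_k, x_{v,u} ξ_k⟫ = 0` for all `u, v ∈ G`.
Let `x ∈ M` and `y ∈ B(H)` satisfy (DS): `⟪y (C ξ), γ - A γ⟫ = ⟪C γ, x (A ξ)⟫` for all `ξ, γ`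
(`A, C` of `Q.mdK`). Then `∑_k ⟪α_k, x ξ_k⟫ + conj ∑_k ⟪α'_k, y ξ_k⟫ = 0`.

Proof. Write `U_t = Q.mdK.U t`, `J = Q.mdK.J`. For `N ≥ 1` let
`Ψ_N(X) = ∑_k ∫ exp(-N t²) ⟪U_{-t} α_k, X U_{-t} ξ_k⟫ dt
  + ∑_k ∫ exp(-N (t + i/2)²) ⟪U_{-t} J α'_k, X U_{-t} J ξ_k⟫ dt`.
It is normal: `nrm_gauss` with `W t = U_{-t}` (strongly continuous: `continuous_U` composed with
`t ↦ -t`; `norm_U`), `s = 0` (rewrite `(t + 0 i)` as `t`) and `s = 1/2`, `IsNrm.sum`, `IsNrm.add`.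

(a) Let `(X, X₁)` satisfy (DS) (`x := X`, `y := X₁`). By `MD.star_int` with `γ := α'_k`, `γ' :=
ξ_k`:
`∫ exp(-N (t + i/2)²) ⟪U_{-t} J α'_k, X U_{-t} J ξ_k⟫ dt = ∫ exp(-N t²) ⟪X₁ U_{-t} ξ_k, U_{-t} α'_k⟫
dt`.
So `Ψ_N(X) = ∫ exp(-N t²) F(t) dt`,
`F(t) = ∑_k ⟪U_{-t} α_k, X U_{-t} ξ_k⟫ + ∑_k ⟪X₁ U_{-t} ξ_k, U_{-t} α'_k⟫`
(`integral_finset_sum`, `integral_add`; integrability: `gauss_integrable` with `z = 0`, the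
functions
are continuous and bounded).
(b) `X = x_{u,v}`, `X₁ = x_{v,u}`: (DS) holds by `ds_rel_DP` and `DP_x`. By `U_adj`
`⟪U_{-t} α_k, X U_{-t} ξ_k⟫ = ⟪α_k, U_t x_{u,v} U_{-t} ξ_k⟫ = ⟪α_k, x_{u',v'} ξ_k⟫` with
`u' = U^φ_t u`, `v' = U^φ_t v` (`x_U`, `U_add`, `U_zero`), and
`⟪X₁ U_{-t} ξ_k, U_{-t} α'_k⟫ = ⟪U_t x_{v,u} U_{-t} ξ_k, α'_k⟫ = conj ⟪α'_k, x_{v',u'} ξ_k⟫`. So
`F(t) = 0` by (H), and `Ψ_N(x_{u,v}) = 0`.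
(c) By `sn`: `Ψ_N(x) = 0` for `x ∈ M`. By (a) for the given pair `(x, y)`:
`∫ exp(-N t²) F(t) dt = 0` for all natural `N ≥ 1`, where `F` is continuous and bounded. By
`gauss_inversion` `F(0) = 0`, and `F(0) = ∑_k ⟪α_k, x ξ_k⟫ + ∑_k ⟪y ξ_k, α'_k⟫` (`U_zero`), which is
the
claim (`⟪y ξ_k, α'_k⟫ = conj ⟪α'_k, y ξ_k⟫`).
-/

set_option autoImplicit false

noncomputable section

open scoped TensorProduct InnerProductSpace InnerProduct ENNReal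
open Filter

namespace Pool.Agent.VNQ

universe u

variable {H G : Type u} [NormedAddCommGroup H] [InnerProductSpace ℂ H] [CompleteSpace H]
  [NormedAddCommGroup G] [InnerProductSpace ℂ G] [CompleteSpace G]

namespace QG

variable (Q : QG H G)

/-- the sum of the vector functionals along the modular group -/
private def Ff (Q : QG H G) {n : ℕ} (α α' ξ : Fin n → H) (X X₁ : H →L[ℂ] H) (t : ℝ) : ℂ :=
  ∑ k, ⟪Q.mdK.U (-t) (α k), X (Q.mdK.U (-t) (ξ k))⟫_ℂ +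
    ∑ k, ⟪X₁ (Q.mdK.U (-t) (ξ k)), Q.mdK.U (-t) (α' k)⟫_ℂ

private theorem cU (v : H) : Continuous fun t : ℝ => Q.mdK.U (-t) v :=
  (Q.mdK.continuous_U v).comp continuous_neg

private theorem c1 (X : H →L[ℂ] H) (a b : H) :
    Continuous fun t : ℝ => ⟪Q.mdK.U (-t) a, X (Q.mdK.U (-t) b)⟫_ℂ :=
  (Q.cU a).inner (X.continuous.comp (Q.cU b))

private theorem c2 (X : H →L[ℂ] H) (a b : H) :
    Continuous fun t : ℝ => ⟪X (Q.mdK.U (-t) b), Q.mdK.U (-t) a⟫_ℂ :=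
  (X.continuous.comp (Q.cU b)).inner (Q.cU a)

private theorem b1 (X : H →L[ℂ] H) (a b : H) (t : ℝ) :
    ‖⟪Q.mdK.U (-t) a, X (Q.mdK.U (-t) b)⟫_ℂ‖ ≤ ‖a‖ * (‖X‖ * ‖b‖) := by
  refine (norm_inner_le_norm _ _).trans ?_
  rw [Q.mdK.norm_U]
  refine mul_le_mul_of_nonneg_left ((X.le_opNorm _).trans ?_) (norm_nonneg _)
  rw [Q.mdK.norm_U]

private theorem b2 (X : H →L[ℂ] H) (a b : H) (t : ℝ) :
    ‖⟪X (Q.mdK.U (-t) b), Q.mdK.U (-t) a⟫_ℂ‖ ≤ ‖a‖ * (‖X‖ * ‖b‖) := by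
  rw [norm_inner_symm]
  exact Q.b1 X a b t

private theorem Ff_cont {n : ℕ} (α α' ξ : Fin n → H) (X X₁ : H →L[ℂ] H) :
    Continuous (Ff Q α α' ξ X X₁) :=
  (continuous_finsetSum _ fun k _ => Q.c1 X (α k) (ξ k)).add
    (continuous_finsetSum _ fun k _ => Q.c2 X₁ (α' k) (ξ k))

private theorem Ff_bd {n : ℕ} (α α' ξ : Fin n → H) (X X₁ : H →L[ℂ] H) (t : ℝ) :
    ‖Ff Q α α' ξ X X₁ t‖ ≤ ∑ k, ‖α k‖ * (‖X‖ * ‖ξ k‖) + ∑ k, ‖α' k‖ * (‖X₁‖ * ‖ξ k‖) := by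
  unfold Ff
  refine (norm_add_le _ _).trans (add_le_add ?_ ?_)
  · exact (norm_sum_le _ _).trans (Finset.sum_le_sum fun k _ => Q.b1 X (α k) (ξ k) t)
  · exact (norm_sum_le _ _).trans (Finset.sum_le_sum fun k _ => Q.b2 X₁ (α' k) (ξ k) t)

/-- the normal functional -/
private def Psi (Q : QG H G) {n : ℕ} (α α' ξ : Fin n → H) (N : ℝ) (X : H →L[ℂ] H) : ℂ :=
  (∑ k, ∫ t : ℝ, Complex.exp (-N * (t : ℂ) ^ 2) *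
      ⟪Q.mdK.U (-t) (α k), X (Q.mdK.U (-t) (ξ k))⟫_ℂ) +
    ∑ k, ∫ t : ℝ, Complex.exp (-N * ((t : ℂ) + (1 / 2 : ℝ) * Complex.I) ^ 2) *
      ⟪Q.mdK.U (-t) (Q.mdK.J (α' k)), X (Q.mdK.U (-t) (Q.mdK.J (ξ k)))⟫_ℂ

private theorem Psi_nrm {n : ℕ} (α α' ξ : Fin n → H) {N : ℝ} (hN : 0 < N) :
    IsNrm (Psi Q α α' ξ N) := by
  refine IsNrm.add (IsNrm.sum Finset.univ _ fun k _ => ?_)
    (IsNrm.sum Finset.univ _ fun k _ => ?_)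
  · have h := nrm_gauss (fun t => Q.mdK.U (-t)) Q.cU (fun t x => (Q.mdK.norm_U (-t) x).le) N hN 0
      (α k) (ξ k)
    simp only [Complex.ofReal_zero, zero_mul, add_zero] at h
    exact h
  · exact nrm_gauss (fun t => Q.mdK.U (-t)) Q.cU (fun t x => (Q.mdK.norm_U (-t) x).le) N hN
      (1 / 2) (Q.mdK.J (α' k)) (Q.mdK.J (ξ k))

private theorem Psi_eq {n : ℕ} (α α' ξ : Fin n → H) {N : ℝ} (hN : 0 < N) {X X₁ : H →L[ℂ] H}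
    (hX : ∀ ξ γ, ⟪X₁ (Q.mdK.C ξ), γ - Q.mdK.A γ⟫_ℂ = ⟪Q.mdK.C γ, X (Q.mdK.A ξ)⟫_ℂ) :
    Psi Q α α' ξ N X =
      ∫ t : ℝ, Complex.exp (-N * (t : ℂ) ^ 2) * Ff Q α α' ξ X X₁ t := by
  have i1 : ∀ k : Fin n, MeasureTheory.Integrable fun t : ℝ =>
      Complex.exp (-N * (t : ℂ) ^ 2) * ⟪Q.mdK.U (-t) (α k), X (Q.mdK.U (-t) (ξ k))⟫_ℂ := by
    intro k
    have h := gauss_integrable hN (Q.c1 X (α k) (ξ k)) (Q.b1 X (α k) (ξ k)) 0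
    simp only [sub_zero] at h
    exact h
  have i2 : ∀ k : Fin n, MeasureTheory.Integrable fun t : ℝ =>
      Complex.exp (-N * (t : ℂ) ^ 2) * ⟪X₁ (Q.mdK.U (-t) (ξ k)), Q.mdK.U (-t) (α' k)⟫_ℂ := by
    intro k
    have h := gauss_integrable hN (Q.c2 X₁ (α' k) (ξ k)) (Q.b2 X₁ (α' k) (ξ k)) 0
    simp only [sub_zero] at h
    exact h
  have h2 : Psi Q α α' ξ N X =
      (∑ k, ∫ t : ℝ, Complex.exp (-N * (t : ℂ) ^ 2) *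
        ⟪Q.mdK.U (-t) (α k), X (Q.mdK.U (-t) (ξ k))⟫_ℂ) +
      ∑ k, ∫ t : ℝ, Complex.exp (-N * (t : ℂ) ^ 2) *
        ⟪X₁ (Q.mdK.U (-t) (ξ k)), Q.mdK.U (-t) (α' k)⟫_ℂ := by
    unfold Psi
    congr 1
    exact Finset.sum_congr rfl fun k _ => (Q.mdK.star_int X X₁ hX N hN (α' k) (ξ k)).symm
  rw [h2, ← MeasureTheory.integral_finsetSum _ fun k _ => i1 k,
    ← MeasureTheory.integral_finsetSum _ fun k _ => i2 k,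
    ← MeasureTheory.integral_add (MeasureTheory.integrable_finsetSum _ fun k _ => i1 k)
      (MeasureTheory.integrable_finsetSum _ fun k _ => i2 k)]
  refine congrArg _ (funext fun t => ?_)
  unfold Ff
  rw [mul_add, Finset.mul_sum, Finset.mul_sum]

private theorem Ff_x {n : ℕ} (α α' ξ : Fin n → H)
    (h : ∀ u v : G, ∑ k, ⟪α k, Q.x u v (ξ k)⟫_ℂ +
      (starRingEnd ℂ) (∑ k, ⟪α' k, Q.x v u (ξ k)⟫_ℂ) = 0) (u v : G) (t : ℝ) :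
    Ff Q α α' ξ (Q.x u v) (Q.x v u) t = 0 := by
  have h0 : ∀ z : H, Q.mdK.U t (Q.mdK.U (-t) z) = z := fun z => by
    rw [← Q.mdK.U_add, add_neg_cancel, Q.mdK.U_zero]
  have h1 : ∀ (u v : G) (a b : H), ⟪Q.mdK.U (-t) a, Q.x u v (Q.mdK.U (-t) b)⟫_ℂ =
      ⟪a, Q.x (Q.φ.md.U t u) (Q.φ.md.U t v) b⟫_ℂ := by
    intro u v a b
    rw [Q.mdK.U_adj, neg_neg, Q.x_U, h0]
  have h2 := h (Q.φ.md.U t u) (Q.φ.md.U t v)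
  unfold Ff
  rw [← h2, map_sum]
  congr 1
  · exact Finset.sum_congr rfl fun k _ => h1 _ _ _ _
  · refine Finset.sum_congr rfl fun k _ => ?_
    rw [← h1 v u, inner_conj_symm]

theorem finA {n : ℕ} (α α' ξ : Fin n → H)
    (h : ∀ u v : G, ∑ k, ⟪α k, Q.x u v (ξ k)⟫_ℂ +
      (starRingEnd ℂ) (∑ k, ⟪α' k, Q.x v u (ξ k)⟫_ℂ) = 0)
    {x y : H →L[ℂ] H} (hx : x ∈ Q.M)
    (hxy : ∀ ξ γ, ⟪y (Q.mdK.C ξ), γ - Q.mdK.A γ⟫_ℂ = ⟪Q.mdK.C γ, x (Q.mdK.A ξ)⟫_ℂ) :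
    ∑ k, ⟪α k, x (ξ k)⟫_ℂ + (starRingEnd ℂ) (∑ k, ⟪α' k, y (ξ k)⟫_ℂ) = 0 := by
  have hz : ∀ N : ℕ, 0 < N → ∫ t : ℝ, Complex.exp (-(N : ℝ) * (t : ℂ) ^ 2) *
      Ff Q α α' ξ x y t = 0 := by
    intro N hN
    have hN' : (0 : ℝ) < N := Nat.cast_pos.2 hN
    rw [← Q.Psi_eq α α' ξ hN' hxy]
    refine Q.sn (Q.Psi_nrm α α' ξ hN') (fun u v => ?_) hx
    rw [Q.Psi_eq α α' ξ hN' (Q.ds_rel_DP (Q.DP_x u v))]
    simp only [Q.Ff_x α α' ξ h, mul_zero, MeasureTheory.integral_zero]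
  have h0 := gauss_inversion (Q.Ff_cont α α' ξ x y) (Q.Ff_bd α α' ξ x y) hz
  unfold Ff at h0
  simp only [neg_zero, Q.mdK.U_zero] at h0
  rw [← h0, map_sum]
  congr 1
  exact Finset.sum_congr rfl fun k _ => inner_conj_symm _ _

end QG

end Pool.Agent.VNQ
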