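import Pool.Agent.VNQ.Nrm

/-!
# The amplification on `ℓ²(ℕ; H)`

`diagL X` is the operator `(f_n) ↦ (X f_n)` on `lp (fun _ : ℕ => H) 2`.

* `exists_diag`: existence of `diagL X` for bounded `X` (`Memℓp` by comparison
  `‖X (f n)‖ ≤ ‖X‖ ‖f n‖`, `LinearMap.mkContinuous`, norm: `‖(X f_n)‖² = ∑ ‖X f_n‖² ≤ ‖X‖² ‖f‖²`,
  `lp.norm_sq_eq_of_L2` or `lp.norm_rpow_eq_tsum`).
* `inner_diagL`: `⟪f, diagL X g⟫ = ∑_n ⟪f n, X (g n)⟫` (`lp.hasSum_inner`).
* `isAmp_diagL`: `add`, `smul`, `mul`: componentwise (`lp.ext`); `adj`: `inner_diagL`-type computation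
  (`ContinuousLinearMap.eq_adjoint_iff`); `norm_le`: `opNorm_le_bound`; `total`: the maps
  `T_n x = lp.single 2 n x` (continuous linear: `lp.norm_single`) satisfy `diagL X T_n = T_n X`, and
  the finite sums `∑_{n∈s} lp.single 2 n (f n)` converge to `f` (`lp.hasSum_single`).
* `IsNrm.comp_amp`: if `θ` is normal on `B(L₁)` and `π₁ : B(H) → B(L₁)` is an amplification then
  `X ↦ θ (π₁ X)` is normal on `B(H)`: let `θ(Y) = ⟪α, π(Y) β⟫`, `π` an amplification on `L`. Then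
  `π ∘ π₁` is an amplification: `total`: for intertwiners `T : L₁ → L` of `π` and `T₁ : H → L₁` of
  `π₁`, `T T₁` is an intertwiner of `π ∘ π₁`; the closed span of the ranges of the `T T₁` contains
  `T y` for all `y ∈ L₁` (`total` of `π₁` and continuity of `T`), hence everything.
* `memL2`, `toL2`: a square summable family `α : ℕ → H` is an element of `lp (fun _ : ℕ => H) 2`
  (`memℓp_gen`), `toL2 α h n = α n`, `‖toL2 α h‖² = ∑' ‖α n‖²`.
-/

set_option autoImplicit false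

noncomputable section

open scoped InnerProductSpace InnerProduct ENNReal

namespace Pool.Agent.VNQ

universe u

variable {H : Type u} [NormedAddCommGroup H] [InnerProductSpace ℂ H] [CompleteSpace H]

/-- The Hilbert space `ℓ²(ℕ; H)`. -/
abbrev LN (H : Type u) [NormedAddCommGroup H] [InnerProductSpace ℂ H] : Type u :=
  lp (fun _ : ℕ => H) 2

omit [CompleteSpace H] in
private theorem nrmAmp_summable (f : LN H) : Summable fun n => ‖(f : ℕ → H) n‖ ^ 2 := by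
  have h := (memℓp_gen_iff (by norm_num)).1 (lp.memℓp f)
  simpa using h

omit [InnerProductSpace ℂ H] [CompleteSpace H] in
private theorem nrmAmp_mem {α : ℕ → H} (hα : Summable fun n => ‖α n‖ ^ 2) :
    Memℓp (E := fun _ : ℕ => H) α 2 := by
  refine memℓp_gen ?_
  simpa using hα

omit [CompleteSpace H] in
private theorem nrmAmp_norm_sq (f : LN H) : ‖f‖ ^ 2 = ∑' n, ‖(f : ℕ → H) n‖ ^ 2 := by
  have h := lp.norm_rpow_eq_tsum (by norm_num) f
  simpa using h

omit [CompleteSpace H] in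
private theorem nrmAmp_le (X : H →L[ℂ] H) (x : H) : ‖X x‖ ^ 2 ≤ ‖X‖ ^ 2 * ‖x‖ ^ 2 := by
  rw [← mul_pow]
  exact pow_le_pow_left₀ (norm_nonneg _) (X.le_opNorm x) 2

theorem exists_diag (X : H →L[ℂ] H) : ∃ Y : LN H →L[ℂ] LN H, (∀ f n, (Y f : ℕ → H) n = X (f n)) ∧
    ‖Y‖ ≤ ‖X‖ := by
  have hsum : ∀ f : LN H, Summable fun n => ‖X ((f : ℕ → H) n)‖ ^ 2 := fun f =>
    Summable.of_nonneg_of_le (fun n => by positivity) (fun n => nrmAmp_le X _)
      ((nrmAmp_summable f).mul_left (‖X‖ ^ 2))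
  let D : LN H →ₗ[ℂ] LN H :=
    { toFun := fun f => ⟨fun n => X ((f : ℕ → H) n), nrmAmp_mem (hsum f)⟩
      map_add' := fun f g => lp.ext (funext fun n => X.map_add _ _)
      map_smul' := fun c f => lp.ext (funext fun n => X.map_smul c _) }
  have hD : ∀ f : LN H, ‖D f‖ ≤ ‖X‖ * ‖f‖ := by
    intro f
    refine (sq_le_sq₀ (norm_nonneg _) (by positivity)).1 ?_
    rw [nrmAmp_norm_sq, mul_pow, nrmAmp_norm_sq, ← tsum_mul_left]
    exact (hsum f).tsum_le_tsum (fun n => nrmAmp_le X _) ((nrmAmp_summable f).mul_left _)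
  exact ⟨D.mkContinuous ‖X‖ hD, fun f n => rfl,
    D.mkContinuous_norm_le (norm_nonneg _) hD⟩

/-- The diagonal operator. -/
def diagL (X : H →L[ℂ] H) : LN H →L[ℂ] LN H := Classical.choose (exists_diag X)

theorem diagL_apply (X : H →L[ℂ] H) (f : LN H) (n : ℕ) : (diagL X f : ℕ → H) n = X (f n) :=
  (Classical.choose_spec (exists_diag X)).1 f n

theorem norm_diagL_le (X : H →L[ℂ] H) : ‖diagL X‖ ≤ ‖X‖ :=
  (Classical.choose_spec (exists_diag X)).2

theorem norm_diagL_apply_le {X : H →L[ℂ] H} (hX : ∀ x, ‖X x‖ ≤ ‖x‖) (f : LN H) :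
    ‖diagL X f‖ ≤ ‖f‖ := by
  have h1 : ‖X‖ ≤ 1 := X.opNorm_le_bound zero_le_one fun x => by rw [one_mul]; exact hX x
  calc ‖diagL X f‖ ≤ ‖diagL X‖ * ‖f‖ := (diagL X).le_opNorm f
    _ ≤ 1 * ‖f‖ := by gcongr; exact (norm_diagL_le X).trans h1
    _ = ‖f‖ := one_mul _

theorem hasSum_inner_diagL (X : H →L[ℂ] H) (f g : LN H) :
    HasSum (fun n => ⟪f n, X (g n)⟫_ℂ) ⟪f, diagL X g⟫_ℂ := by
  have h := lp.hasSum_inner (𝕜 := ℂ) f (diagL X g)
  simp only [diagL_apply] at h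
  exact h

theorem isAmp_diagL : IsAmp (diagL (H := H)) := by
  refine ⟨fun X Y => ?_, fun c X => ?_, fun X Y => ?_, fun X => ?_, norm_diagL_le, ?_⟩
  · refine ContinuousLinearMap.ext fun f => lp.ext (funext fun n => ?_)
    rw [diagL_apply]
    change _ = ((diagL X f : LN H) : ℕ → H) n + ((diagL Y f : LN H) : ℕ → H) n
    rw [diagL_apply, diagL_apply]
    rfl
  · refine ContinuousLinearMap.ext fun f => lp.ext (funext fun n => ?_)
    rw [diagL_apply]
    change _ = c • ((diagL X f : LN H) : ℕ → H) n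
    rw [diagL_apply]
    rfl
  · refine ContinuousLinearMap.ext fun f => lp.ext (funext fun n => ?_)
    rw [diagL_apply]
    change _ = ((diagL X (diagL Y f) : LN H) : ℕ → H) n
    rw [diagL_apply, diagL_apply]
    rfl
  · rw [ContinuousLinearMap.eq_adjoint_iff]
    intro f g
    have h1 := lp.hasSum_inner (𝕜 := ℂ) (diagL (X†) f) g
    simp only [diagL_apply, ContinuousLinearMap.adjoint_inner_left] at h1
    exact h1.unique (hasSum_inner_diagL X f g)
  · intro f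
    have h1 := lp.hasSum_single (p := 2) ENNReal.ofNat_ne_top f
    refine mem_closure_of_tendsto h1 (Filter.Eventually.of_forall fun s => ?_)
    refine Submodule.sum_mem _ fun n _ => Submodule.subset_span ?_
    refine ⟨lp.singleContinuousLinearMap ℂ (fun _ : ℕ => H) 2 n, fun X => ?_, f n, rfl⟩
    refine ContinuousLinearMap.ext fun x => lp.ext (funext fun m => ?_)
    change ((diagL X (lp.single 2 n x) : LN H) : ℕ → H) m =
      ((lp.single 2 n (X x) : LN H) : ℕ → H) m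
    rw [diagL_apply]
    by_cases hm : m = n
    · subst hm
      rw [lp.single_apply_self, lp.single_apply_self]
    · rw [lp.single_apply_ne _ _ _ hm, lp.single_apply_ne _ _ _ hm, map_zero]

theorem exists_toL2 (α : ℕ → H) (hα : Summable fun n => ‖α n‖ ^ 2) :
    ∃ f : LN H, (∀ n, (f : ℕ → H) n = α n) ∧ ‖f‖ ^ 2 = ∑' n, ‖α n‖ ^ 2 := by
  refine ⟨⟨α, nrmAmp_mem hα⟩, fun n => rfl, ?_⟩
  rw [nrmAmp_norm_sq]

theorem summable_LN (f : LN H) : Summable fun n => ‖(f : ℕ → H) n‖ ^ 2 := by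
  exact nrmAmp_summable f

theorem IsNrm.comp_amp {L₁ : Type u} [NormedAddCommGroup L₁] [InnerProductSpace ℂ L₁]
    [CompleteSpace L₁] {π₁ : (H →L[ℂ] H) → (L₁ →L[ℂ] L₁)} (h₁ : IsAmp π₁)
    {θ : (L₁ →L[ℂ] L₁) → ℂ} (h : IsNrm θ) : IsNrm fun X => θ (π₁ X) := by
  obtain ⟨L, i1, i2, i3, π, α, β, hπ, hθ⟩ := h
  refine ⟨L, i1, i2, i3, fun X => π (π₁ X), α, β, ⟨fun X Y => ?_, fun c X => ?_, fun X Y => ?_,
    fun X => ?_, fun X => (hπ.norm_le _).trans (h₁.norm_le X), ?_⟩, fun X => hθ (π₁ X)⟩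
  · rw [h₁.add, hπ.add]
  · rw [h₁.smul, hπ.smul]
  · rw [h₁.mul, hπ.mul]
  · rw [h₁.adj, hπ.adj]
  · obtain ⟨S, hS⟩ : ∃ S : Submodule ℂ L, S = Submodule.span ℂ {y : L | ∃ T : H →L[ℂ] L,
      (∀ X, π (π₁ X) ∘L T = T ∘L X) ∧ ∃ x, y = T x} := ⟨_, rfl⟩
    have h2 : ∀ T₂ : L₁ →L[ℂ] L, (∀ Y, π Y ∘L T₂ = T₂ ∘L Y) →
        ∀ y, T₂ y ∈ closure (S : Set L) := by
      intro T₂ hT₂ y
      have h3 : Submodule.span ℂ {y : L₁ | ∃ T : H →L[ℂ] L₁, (∀ X, π₁ X ∘L T = T ∘L X) ∧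
          ∃ x, y = T x} ≤ S.comap (T₂ : L₁ →ₗ[ℂ] L) := by
        rw [Submodule.span_le]
        rintro _ ⟨T₁, hT₁, x, rfl⟩
        change T₂ (T₁ x) ∈ S
        rw [hS]
        refine Submodule.subset_span ⟨T₂ ∘L T₁, fun X => ?_, x, rfl⟩
        rw [← ContinuousLinearMap.comp_assoc, hT₂, ContinuousLinearMap.comp_assoc, hT₁,
          ContinuousLinearMap.comp_assoc]
      exact map_mem_closure T₂.continuous (h₁.total y) fun z hz => h3 hz
    have h5 : Submodule.span ℂ {y : L | ∃ T : L₁ →L[ℂ] L, (∀ X, π X ∘L T = T ∘L X) ∧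
        ∃ x, y = T x} ≤ S.topologicalClosure := by
      rw [Submodule.span_le]
      rintro _ ⟨T₂, hT₂, y, rfl⟩
      exact h2 T₂ hT₂ y
    intro z
    have h6 : closure (Submodule.span ℂ {y : L | ∃ T : L₁ →L[ℂ] L, (∀ X, π X ∘L T = T ∘L X) ∧
        ∃ x, y = T x} : Set L) ⊆ closure (S : Set L) := closure_minimal h5 isClosed_closure
    have h7 := h6 (hπ.total z)
    rw [hS] at h7
    exact h7

end Pool.Agent.VNQ
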