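import Pool.Agent.VNQ.FinA
import Pool.Agent.VNQ.NrmAmp

/-!
# The annihilator of the pairs `(x_{u,v}, x_{v,u})`: infinite families

`QG.finAG`: the same statement as `QG.finA` (file `FinA`), with infinite square summable families
`α, α', ξ : ℕ → H` instead of finite ones.

Proof: the proof of `finA` (read `FinA.lean` first), on `L = ℓ²(ℕ; H)`. Write `U_t = Q.mdK.U t`,
`J = Q.mdK.J`, `W_t = diagL (U_{-t})`, and let `a, a', z ∈ L` be the elements with components `α_n`,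
`J α'_n` (`‖J x‖ = ‖x‖`), `ξ_n`, and `z' ∈ L` with components `J ξ_n` (`exists_toL2`). Let
`Ψ_N(X) = ∫ exp(-N t²) ⟪W_t a, diagL X W_t z⟫ dt
  + ∫ exp(-N (t + i/2)²) ⟪W_t a', diagL X W_t z'⟫ dt`.
It is normal: `nrm_gauss` on `L` (`t ↦ W_t f` is continuous: `‖W_t f - W_s f‖² =
∑_n ‖U_{-t} f_n - U_{-s} f_n‖²`, dominated by `4 ‖f_n‖²`, `tendsto_tsum_of_dominated_convergence`;
`‖W_t f‖ ≤ ‖f‖`: `norm_diagL_apply_le`), composed with `isAmp_diagL` (`IsNrm.comp_amp`), and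
`IsNrm.add`.

(a) Let `(X, X₁)` satisfy (DS). By `hasSum_inner_diagL` and exchange of sum and integral
(`MeasureTheory.hasSum_integral_of_summable_integral_norm`, the integrals of the norms are bounded
by `C ‖X‖ ‖α'_n‖ ‖ξ_n‖`, which is summable, `C = ∫ |exp(-N (t + i/2)²)| dt`) the second term is
`∑_n ∫ exp(-N (t + i/2)²) ⟪U_{-t} J α'_n, X U_{-t} J ξ_n⟫ dt`, and by `MD.star_int`
(`γ := α'_n`, `γ' := ξ_n`) this is `∑_n ∫ exp(-N t²) ⟪X₁ U_{-t} ξ_n, U_{-t} α'_n⟫ dt`. So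
`Ψ_N(X) = ∫ exp(-N t²) F(t) dt` with
`F(t) = ∑'_n ⟪U_{-t} α_n, X U_{-t} ξ_n⟫ + ∑'_n ⟪X₁ U_{-t} ξ_n, U_{-t} α'_n⟫` (exchange the sum and
the integral again). `F` is continuous (`F(t) = ⟪W_t a, diagL X W_t z⟫ + ⟪diagL X₁ W_t z, W_t a''⟫`,
`a''` with components `α'_n`) and bounded.
(b) `X = x_{u,v}`, `X₁ = x_{v,u}`: (DS) holds by `ds_rel_DP` and `DP_x`, and termwise
`⟪U_{-t} α_n, x_{u,v} U_{-t} ξ_n⟫ = ⟪α_n, x_{u',v'} ξ_n⟫`,
`⟪x_{v,u} U_{-t} ξ_n, U_{-t} α'_n⟫ = conj ⟪α'_n, x_{v',u'} ξ_n⟫` with `u' = U^φ_t u`, `v' = U^φ_t v`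
(see `Ff_x` in `FinA.lean`), so `F(t) = 0` by hypothesis (`tsum` commutes with `conj`:
`Complex.conj_tsum`/`RCLike.conj_tsum`), and `Ψ_N(x_{u,v}) = 0`.
(c) By `sn`: `Ψ_N(x) = 0` for `x ∈ M`. By (a) for the given pair `(x, y)`:
`∫ exp(-N t²) F(t) dt = 0` for all natural `N ≥ 1`. By `gauss_inversion` `F(0) = 0`, which is the
claim (`U_zero`).
-/

set_option autoImplicit false

noncomputable section

open scoped TensorProduct InnerProductSpace InnerProduct ENNReal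
open Filter

namespace Pool.Agent.VNQ

universe u

variable {H G : Type u} [NormedAddCommGroup H] [InnerProductSpace ℂ H] [CompleteSpace H]
  [NormedAddCommGroup G] [InnerProductSpace ℂ G] [CompleteSpace G]

open MeasureTheory in
/-- Exchange of the sum and the integral. -/
private theorem fg_tsum_int {e : ℝ → ℂ} (he : Integrable e) (hec : Continuous e)
    {p : ℕ → ℝ → ℂ} (hp : ∀ n, Continuous (p n)) {c : ℕ → ℝ} (hc : Summable c)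
    (hpc : ∀ n t, ‖p n t‖ ≤ c n) :
    ∑' n, ∫ t, e t * p n t = ∫ t, e t * ∑' n, p n t := by
  have i1 : ∀ n, Integrable fun t => e t * p n t := by
    intro n
    refine (he.norm.mul_const (c n)).mono' (hec.mul (hp n)).aestronglyMeasurable
      (Filter.Eventually.of_forall fun t => ?_)
    rw [norm_mul]
    exact mul_le_mul_of_nonneg_left (hpc n t) (norm_nonneg _)
  have i2 : Summable fun n => ∫ t, ‖e t * p n t‖ := by
    refine Summable.of_nonneg_of_le (fun n => integral_nonneg fun t => norm_nonneg _)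
      (fun n => ?_) (hc.mul_left (∫ t, ‖e t‖))
    rw [← integral_mul_const]
    refine integral_mono (i1 n).norm (he.norm.mul_const (c n)) fun t => ?_
    change ‖e t * p n t‖ ≤ ‖e t‖ * c n
    rw [norm_mul]
    exact mul_le_mul_of_nonneg_left (hpc n t) (norm_nonneg _)
  have h := hasSum_integral_of_summable_integral_norm i1 i2
  rw [h.tsum_eq]
  refine congrArg _ (funext fun t => ?_)
  exact tsum_mul_left

omit [CompleteSpace H] in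
private theorem fg_sq (f : LN H) : ‖f‖ ^ 2 = ∑' n, ‖(f : ℕ → H) n‖ ^ 2 := by
  have h := lp.norm_rpow_eq_tsum (p := 2) (by norm_num) f
  simpa using h

private theorem fg_cont (V : ℝ → H →L[ℂ] H) (hV : ∀ x, Continuous fun t => V t x)
    (hV1 : ∀ t x, ‖V t x‖ ≤ ‖x‖) (f : LN H) : Continuous fun t => diagL (V t) f := by
  rw [continuous_iff_continuousAt]
  intro s
  rw [ContinuousAt, tendsto_iff_norm_sub_tendsto_zero]
  have h1 : ∀ t, ‖diagL (V t) f - diagL (V s) f‖ ^ 2 =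
      ∑' n, ‖V t ((f : ℕ → H) n) - V s ((f : ℕ → H) n)‖ ^ 2 := by
    intro t
    rw [fg_sq]
    refine tsum_congr fun n => ?_
    rw [lp.coeFn_sub, Pi.sub_apply, diagL_apply, diagL_apply]
  have h2 : Tendsto (fun t => ∑' n, ‖V t ((f : ℕ → H) n) - V s ((f : ℕ → H) n)‖ ^ 2) (nhds s)
      (nhds (∑' _ : ℕ, (0 : ℝ))) := by
    refine tendsto_tsum_of_dominated_convergence (bound := fun n => 4 * ‖(f : ℕ → H) n‖ ^ 2)
      ((summable_LN f).mul_left 4) (fun n => ?_) (Filter.Eventually.of_forall fun t n => ?_)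
    · have h3 : Tendsto (fun t => V t ((f : ℕ → H) n) - V s ((f : ℕ → H) n)) (nhds s)
          (nhds 0) := by
        have h4 := ((hV ((f : ℕ → H) n)).tendsto s).sub_const (V s ((f : ℕ → H) n))
        rwa [sub_self] at h4
      have h5 := h3.norm.pow 2
      rwa [norm_zero, zero_pow two_ne_zero] at h5
    · rw [Real.norm_of_nonneg (sq_nonneg _)]
      have h3 := norm_sub_le (V t ((f : ℕ → H) n)) (V s ((f : ℕ → H) n))
      have h4 := hV1 t ((f : ℕ → H) n)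
      have h5 := hV1 s ((f : ℕ → H) n)
      have h6 : ‖V t ((f : ℕ → H) n) - V s ((f : ℕ → H) n)‖ ≤ 2 * ‖(f : ℕ → H) n‖ := by linarith
      calc ‖V t ((f : ℕ → H) n) - V s ((f : ℕ → H) n)‖ ^ 2
          ≤ (2 * ‖(f : ℕ → H) n‖) ^ 2 := pow_le_pow_left₀ (norm_nonneg _) h6 2
        _ = 4 * ‖(f : ℕ → H) n‖ ^ 2 := by ring
  rw [tsum_zero] at h2
  have h3 := (Real.continuous_sqrt.tendsto 0).comp h2
  rw [Real.sqrt_zero] at h3
  refine h3.congr fun t => ?_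
  rw [Function.comp_apply, ← h1, Real.sqrt_sq (norm_nonneg _)]

omit [InnerProductSpace ℂ H] [CompleteSpace H] in
private theorem fg_summ {α ξ : ℕ → H} (hα : Summable fun n => ‖α n‖ ^ 2)
    (hξ : Summable fun n => ‖ξ n‖ ^ 2) {K : ℝ} (hK : 0 ≤ K) :
    Summable fun n => ‖α n‖ * (K * ‖ξ n‖) := by
  refine Summable.of_nonneg_of_le (fun n => by positivity) (fun n => ?_)
    ((hα.add hξ).mul_left K)
  have h1 := sq_nonneg (‖α n‖ - ‖ξ n‖)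
  have h2 : ‖α n‖ * ‖ξ n‖ ≤ ‖α n‖ ^ 2 + ‖ξ n‖ ^ 2 := by
    nlinarith [mul_nonneg (norm_nonneg (α n)) (norm_nonneg (ξ n))]
  calc ‖α n‖ * (K * ‖ξ n‖) = K * (‖α n‖ * ‖ξ n‖) := by ring
    _ ≤ K * (‖α n‖ ^ 2 + ‖ξ n‖ ^ 2) := mul_le_mul_of_nonneg_left h2 hK

namespace QG

variable (Q : QG H G)

private theorem fgU (v : H) : Continuous fun t : ℝ => Q.mdK.U (-t) v :=
  (Q.mdK.continuous_U v).comp continuous_neg

private theorem fgU1 (t : ℝ) (x : H) : ‖Q.mdK.U (-t) x‖ ≤ ‖x‖ := (Q.mdK.norm_U (-t) x).le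

private theorem fgW (f : LN H) : Continuous fun t : ℝ => diagL (Q.mdK.U (-t)) f :=
  fg_cont (fun t => Q.mdK.U (-t)) Q.fgU Q.fgU1 f

private theorem fgW1 (t : ℝ) (f : LN H) : ‖diagL (Q.mdK.U (-t)) f‖ ≤ ‖f‖ :=
  norm_diagL_apply_le (Q.fgU1 t) f

private theorem fgc1 (X : H →L[ℂ] H) (a b : H) :
    Continuous fun t : ℝ => ⟪Q.mdK.U (-t) a, X (Q.mdK.U (-t) b)⟫_ℂ :=
  (Q.fgU a).inner (X.continuous.comp (Q.fgU b))

private theorem fgc2 (X : H →L[ℂ] H) (a b : H) :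
    Continuous fun t : ℝ => ⟪X (Q.mdK.U (-t) b), Q.mdK.U (-t) a⟫_ℂ :=
  (X.continuous.comp (Q.fgU b)).inner (Q.fgU a)

private theorem fgb1 (X : H →L[ℂ] H) (a b : H) (t : ℝ) :
    ‖⟪Q.mdK.U (-t) a, X (Q.mdK.U (-t) b)⟫_ℂ‖ ≤ ‖a‖ * (‖X‖ * ‖b‖) := by
  refine (norm_inner_le_norm _ _).trans ?_
  rw [Q.mdK.norm_U]
  refine mul_le_mul_of_nonneg_left ((X.le_opNorm _).trans ?_) (norm_nonneg _)
  rw [Q.mdK.norm_U]

private theorem fgb2 (X : H →L[ℂ] H) (a b : H) (t : ℝ) :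
    ‖⟪X (Q.mdK.U (-t) b), Q.mdK.U (-t) a⟫_ℂ‖ ≤ ‖a‖ * (‖X‖ * ‖b‖) := by
  rw [norm_inner_symm]
  exact Q.fgb1 X a b t

private theorem fgC1 (X : H →L[ℂ] H) (a b : LN H) :
    Continuous fun t : ℝ => ⟪diagL (Q.mdK.U (-t)) a, diagL X (diagL (Q.mdK.U (-t)) b)⟫_ℂ :=
  (Q.fgW a).inner ((diagL X).continuous.comp (Q.fgW b))

private theorem fgC2 (X : H →L[ℂ] H) (a b : LN H) :
    Continuous fun t : ℝ => ⟪diagL X (diagL (Q.mdK.U (-t)) b), diagL (Q.mdK.U (-t)) a⟫_ℂ :=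
  ((diagL X).continuous.comp (Q.fgW b)).inner (Q.fgW a)

private theorem fgB1 (X : H →L[ℂ] H) (a b : LN H) (t : ℝ) :
    ‖⟪diagL (Q.mdK.U (-t)) a, diagL X (diagL (Q.mdK.U (-t)) b)⟫_ℂ‖ ≤
      ‖a‖ * (‖diagL X‖ * ‖b‖) := by
  refine (norm_inner_le_norm _ _).trans ?_
  refine mul_le_mul (Q.fgW1 t a) (((diagL X).le_opNorm _).trans ?_) (norm_nonneg _)
    (norm_nonneg _)
  exact mul_le_mul_of_nonneg_left (Q.fgW1 t b) (norm_nonneg _)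

private theorem fgB2 (X : H →L[ℂ] H) (a b : LN H) (t : ℝ) :
    ‖⟪diagL X (diagL (Q.mdK.U (-t)) b), diagL (Q.mdK.U (-t)) a⟫_ℂ‖ ≤
      ‖a‖ * (‖diagL X‖ * ‖b‖) := by
  rw [norm_inner_symm]
  exact Q.fgB1 X a b t

private theorem fg_e1 (X : H →L[ℂ] H) {p q : ℕ → H} {a b : LN H}
    (ha : ∀ n, (a : ℕ → H) n = p n) (hb : ∀ n, (b : ℕ → H) n = q n) (t : ℝ) :
    ⟪diagL (Q.mdK.U (-t)) a, diagL X (diagL (Q.mdK.U (-t)) b)⟫_ℂ =
      ∑' n, ⟪Q.mdK.U (-t) (p n), X (Q.mdK.U (-t) (q n))⟫_ℂ := by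
  rw [← (hasSum_inner_diagL X _ _).tsum_eq]
  refine tsum_congr fun n => ?_
  rw [diagL_apply, diagL_apply, ha, hb]

private theorem fg_e2 (X : H →L[ℂ] H) {p q : ℕ → H} {a b : LN H}
    (ha : ∀ n, (a : ℕ → H) n = p n) (hb : ∀ n, (b : ℕ → H) n = q n) (t : ℝ) :
    ⟪diagL X (diagL (Q.mdK.U (-t)) b), diagL (Q.mdK.U (-t)) a⟫_ℂ =
      ∑' n, ⟪X (Q.mdK.U (-t) (q n)), Q.mdK.U (-t) (p n)⟫_ℂ := by
  rw [← (lp.hasSum_inner _ _).tsum_eq]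
  refine tsum_congr fun n => ?_
  rw [diagL_apply, diagL_apply, diagL_apply, ha, hb]

private theorem fg_star {α' ξ : ℕ → H} (hα' : Summable fun n => ‖α' n‖ ^ 2)
    (hξ : Summable fun n => ‖ξ n‖ ^ 2) {a' a'' z z' : LN H}
    (ha' : ∀ n, (a' : ℕ → H) n = Q.mdK.J (α' n)) (ha'' : ∀ n, (a'' : ℕ → H) n = α' n)
    (hz : ∀ n, (z : ℕ → H) n = ξ n) (hz' : ∀ n, (z' : ℕ → H) n = Q.mdK.J (ξ n))
    {N : ℝ} (hN : 0 < N) {X X₁ : H →L[ℂ] H}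
    (hX : ∀ ξ γ, ⟪X₁ (Q.mdK.C ξ), γ - Q.mdK.A γ⟫_ℂ = ⟪Q.mdK.C γ, X (Q.mdK.A ξ)⟫_ℂ) :
    ∫ t : ℝ, Complex.exp (-N * ((t : ℂ) + (1 / 2 : ℝ) * Complex.I) ^ 2) *
        ⟪diagL (Q.mdK.U (-t)) a', diagL X (diagL (Q.mdK.U (-t)) z')⟫_ℂ =
      ∫ t : ℝ, Complex.exp (-N * (t : ℂ) ^ 2) *
        ⟪diagL X₁ (diagL (Q.mdK.U (-t)) z), diagL (Q.mdK.U (-t)) a''⟫_ℂ := by
  have k1 : MeasureTheory.Integrable fun t : ℝ =>
      Complex.exp (-N * ((t : ℂ) + (1 / 2 : ℝ) * Complex.I) ^ 2) := by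
    have h := gauss_integrable (f := fun _ => (1 : ℂ)) (M := 1) hN continuous_const
      (fun t => by simp) (-((1 / 2 : ℝ) * Complex.I))
    simp only [sub_neg_eq_add, mul_one] at h
    exact h
  have k2 : MeasureTheory.Integrable fun t : ℝ => Complex.exp (-N * (t : ℂ) ^ 2) := by
    have h := gauss_integrable (f := fun _ => (1 : ℂ)) (M := 1) hN continuous_const
      (fun t => by simp) 0
    simp only [sub_zero, mul_one] at h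
    exact h
  simp only [Q.fg_e1 X ha' hz', Q.fg_e2 X₁ ha'' hz]
  have s1 := fg_summ hα' hξ (norm_nonneg X)
  have s2 := fg_summ hα' hξ (norm_nonneg X₁)
  rw [← fg_tsum_int k1 (by fun_prop) (fun n => Q.fgc1 X (Q.mdK.J (α' n)) (Q.mdK.J (ξ n))) s1
      (fun n t => by
        have h := Q.fgb1 X (Q.mdK.J (α' n)) (Q.mdK.J (ξ n)) t
        rwa [Q.mdK.norm_J, Q.mdK.norm_J] at h),
    ← fg_tsum_int k2 (by fun_prop) (fun n => Q.fgc2 X₁ (α' n) (ξ n)) s2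
      (fun n t => Q.fgb2 X₁ (α' n) (ξ n) t)]
  exact tsum_congr fun n => (Q.mdK.star_int X X₁ hX N hN (α' n) (ξ n)).symm

/-- the sum of the vector functionals along the modular group -/
private def fgF (Q : QG H G) (a a'' z : LN H) (X X₁ : H →L[ℂ] H) (t : ℝ) : ℂ :=
  ⟪diagL (Q.mdK.U (-t)) a, diagL X (diagL (Q.mdK.U (-t)) z)⟫_ℂ +
    ⟪diagL X₁ (diagL (Q.mdK.U (-t)) z), diagL (Q.mdK.U (-t)) a''⟫_ℂ

/-- the normal functional -/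
private def fgPsi (Q : QG H G) (a a' z z' : LN H) (N : ℝ) (X : H →L[ℂ] H) : ℂ :=
  (∫ t : ℝ, Complex.exp (-N * (t : ℂ) ^ 2) *
      ⟪diagL (Q.mdK.U (-t)) a, diagL X (diagL (Q.mdK.U (-t)) z)⟫_ℂ) +
    ∫ t : ℝ, Complex.exp (-N * ((t : ℂ) + (1 / 2 : ℝ) * Complex.I) ^ 2) *
      ⟪diagL (Q.mdK.U (-t)) a', diagL X (diagL (Q.mdK.U (-t)) z')⟫_ℂ

private theorem fgPsi_nrm (a a' z z' : LN H) {N : ℝ} (hN : 0 < N) :
    IsNrm (fgPsi Q a a' z z' N) := by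
  refine IsNrm.add ?_ ?_
  · have h := nrm_gauss (fun t => diagL (Q.mdK.U (-t))) Q.fgW Q.fgW1 N hN 0 a z
    simp only [Complex.ofReal_zero, zero_mul, add_zero] at h
    exact IsNrm.comp_amp isAmp_diagL h
  · have h := nrm_gauss (fun t => diagL (Q.mdK.U (-t))) Q.fgW Q.fgW1 N hN (1 / 2) a' z'
    exact IsNrm.comp_amp isAmp_diagL h

private theorem fgPsi_eq {α' ξ : ℕ → H} (hα' : Summable fun n => ‖α' n‖ ^ 2)
    (hξ : Summable fun n => ‖ξ n‖ ^ 2) {a a' a'' z z' : LN H}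
    (ha' : ∀ n, (a' : ℕ → H) n = Q.mdK.J (α' n)) (ha'' : ∀ n, (a'' : ℕ → H) n = α' n)
    (hz : ∀ n, (z : ℕ → H) n = ξ n) (hz' : ∀ n, (z' : ℕ → H) n = Q.mdK.J (ξ n))
    {N : ℝ} (hN : 0 < N) {X X₁ : H →L[ℂ] H}
    (hX : ∀ ξ γ, ⟪X₁ (Q.mdK.C ξ), γ - Q.mdK.A γ⟫_ℂ = ⟪Q.mdK.C γ, X (Q.mdK.A ξ)⟫_ℂ) :
    fgPsi Q a a' z z' N X = ∫ t : ℝ, Complex.exp (-N * (t : ℂ) ^ 2) * fgF Q a a'' z X X₁ t := by
  have i1 := gauss_integrable hN (Q.fgC1 X a z) (Q.fgB1 X a z) 0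
  have i2 := gauss_integrable hN (Q.fgC2 X₁ a'' z) (Q.fgB2 X₁ a'' z) 0
  simp only [sub_zero] at i1 i2
  unfold fgPsi
  rw [Q.fg_star hα' hξ ha' ha'' hz hz' hN hX, ← MeasureTheory.integral_add i1 i2]
  refine congrArg _ (funext fun t => ?_)
  unfold fgF
  rw [mul_add]

private theorem fgF_x {α α' ξ : ℕ → H}
    (h : ∀ u v : G, ∑' n, ⟪α n, Q.x u v (ξ n)⟫_ℂ +
      (starRingEnd ℂ) (∑' n, ⟪α' n, Q.x v u (ξ n)⟫_ℂ) = 0)
    {a a'' z : LN H} (ha : ∀ n, (a : ℕ → H) n = α n) (ha'' : ∀ n, (a'' : ℕ → H) n = α' n)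
    (hz : ∀ n, (z : ℕ → H) n = ξ n) (u v : G) (t : ℝ) :
    fgF Q a a'' z (Q.x u v) (Q.x v u) t = 0 := by
  have h0 : ∀ z : H, Q.mdK.U t (Q.mdK.U (-t) z) = z := fun z => by
    rw [← Q.mdK.U_add, add_neg_cancel, Q.mdK.U_zero]
  have h1 : ∀ (u v : G) (a b : H), ⟪Q.mdK.U (-t) a, Q.x u v (Q.mdK.U (-t) b)⟫_ℂ =
      ⟪a, Q.x (Q.φ.md.U t u) (Q.φ.md.U t v) b⟫_ℂ := by
    intro u v a b
    rw [Q.mdK.U_adj, neg_neg, Q.x_U, h0]
  have h2 := h (Q.φ.md.U t u) (Q.φ.md.U t v)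
  unfold fgF
  rw [Q.fg_e1 _ ha hz, Q.fg_e2 _ ha'' hz, ← h2, Complex.conj_tsum]
  congr 1
  · exact tsum_congr fun k => h1 _ _ _ _
  · refine tsum_congr fun k => ?_
    rw [← h1 v u, inner_conj_symm]

theorem finAG (α α' ξ : ℕ → H) (hα : Summable fun n => ‖α n‖ ^ 2)
    (hα' : Summable fun n => ‖α' n‖ ^ 2) (hξ : Summable fun n => ‖ξ n‖ ^ 2)
    (h : ∀ u v : G, ∑' n, ⟪α n, Q.x u v (ξ n)⟫_ℂ +
      (starRingEnd ℂ) (∑' n, ⟪α' n, Q.x v u (ξ n)⟫_ℂ) = 0)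
    {x y : H →L[ℂ] H} (hx : x ∈ Q.M)
    (hxy : ∀ ξ γ, ⟪y (Q.mdK.C ξ), γ - Q.mdK.A γ⟫_ℂ = ⟪Q.mdK.C γ, x (Q.mdK.A ξ)⟫_ℂ) :
    ∑' n, ⟪α n, x (ξ n)⟫_ℂ + (starRingEnd ℂ) (∑' n, ⟪α' n, y (ξ n)⟫_ℂ) = 0 := by
  have hJα' : Summable fun n => ‖Q.mdK.J (α' n)‖ ^ 2 := by
    simpa only [Q.mdK.norm_J] using hα'
  have hJξ : Summable fun n => ‖Q.mdK.J (ξ n)‖ ^ 2 := by
    simpa only [Q.mdK.norm_J] using hξ
  obtain ⟨a, ha, -⟩ := exists_toL2 α hα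
  obtain ⟨a', ha', -⟩ := exists_toL2 _ hJα'
  obtain ⟨a'', ha'', -⟩ := exists_toL2 α' hα'
  obtain ⟨z, hz, -⟩ := exists_toL2 ξ hξ
  obtain ⟨z', hz', -⟩ := exists_toL2 _ hJξ
  have hi : ∀ N : ℕ, 0 < N → ∫ t : ℝ, Complex.exp (-(N : ℝ) * (t : ℂ) ^ 2) *
      fgF Q a a'' z x y t = 0 := by
    intro N hN
    have hN' : (0 : ℝ) < N := Nat.cast_pos.2 hN
    rw [← Q.fgPsi_eq hα' hξ (a := a) ha' ha'' hz hz' hN' hxy]
    refine Q.sn (Q.fgPsi_nrm a a' z z' hN') (fun u v => ?_) hx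
    rw [Q.fgPsi_eq hα' hξ (a := a) ha' ha'' hz hz' hN' (Q.ds_rel_DP (Q.DP_x u v))]
    simp only [Q.fgF_x h ha ha'' hz, mul_zero, MeasureTheory.integral_zero]
  have hc : Continuous (fgF Q a a'' z x y) := (Q.fgC1 x a z).add (Q.fgC2 y a'' z)
  have hb : ∀ t, ‖fgF Q a a'' z x y t‖ ≤
      ‖a‖ * (‖diagL x‖ * ‖z‖) + ‖a''‖ * (‖diagL y‖ * ‖z‖) := fun t =>
    (norm_add_le _ _).trans (add_le_add (Q.fgB1 x a z t) (Q.fgB2 y a'' z t))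
  have h0 := gauss_inversion hc hb hi
  unfold fgF at h0
  rw [Q.fg_e1 _ ha hz, Q.fg_e2 _ ha'' hz] at h0
  simp only [neg_zero, Q.mdK.U_zero] at h0
  rw [← h0, Complex.conj_tsum]
  congr 1
  exact tsum_congr fun k => inner_conj_symm _ _

end QG

end Pool.Agent.VNQ
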