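import Pool.Agent.VNQ.FinA
import Pool.Agent.VNQ.DPB

/-!
# From (DS) to the approximation property

`QG.finB`: let `x ∈ M`, `y ∈ B(H)` satisfy (DS): `⟪y (C ξ), γ - A γ⟫ = ⟪C γ, x (A ξ)⟫` for all `ξ,
γ`.
Then `DP x y`.

Proof. Let `ε > 0` and `ξ_k, η_k` (`k < n`) be given. Consider the real Hilbert space
`𝓛 = PiLp 2 (fun _ : Fin n ⊕ Fin n => HTen H H)` (or `EuclideanSpace`-like; real inner
product `re ⟪·,·⟫`), and for operators `a, b` the vector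
`p(a, b) = ((a ξ_k ⊠ η_k)_k, (b ξ_k ⊠ η_k)_k) ∈ 𝓛`. Let `𝓥 = {p(w, w₁) : DP w w₁}`; it is a
real subspace (`DP_add`, `DP_smul` with real `c`; `0`: `DP_smul` with `c = 0` for the pair
`DP_x 0 0`). Claim: `p(x, y)` is in the closure of `𝓥`. Otherwise there is `q = ((a_k), (a'_k))`,
orthogonal to `𝓥` for the real inner product, with `⟪q, p(x,y)⟫_ℝ ≠ 0` (the component of `p(x, y)`
orthogonal to the closure of `𝓥`; `Submodule.exists_norm_eq_iInf_of_complete_subspace`,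
`Submodule.orthogonal` of the topological closure). For `DP w w₁` and `c ∈ ℂ` (`DP_smul`):
`0 = re (∑ ⟪a_k, c w ξ_k ⊠ η_k⟫ + ∑ ⟪a'_k, c̄ w₁ ξ_k ⊠ η_k⟫)
= re (c (∑ ⟪a_k, w ξ_k ⊠ η_k⟫ + conj ∑ ⟪a'_k, w₁ ξ_k ⊠ η_k⟫))`, so
`∑ ⟪a_k, w ξ_k ⊠ η_k⟫ + conj ∑ ⟪a'_k, w₁ ξ_k ⊠ η_k⟫ = 0`. Put `α_k = R_{η_k}† a_k`,
`α'_k = R_{η_k}† a'_k` (`⟪a_k, w ξ_k ⊠ η_k⟫ = ⟪α_k, w ξ_k⟫`). With `w = x_{u,v}`, `w₁ = x_{v,u}`
(`DP_x`) this is the hypothesis of `finA`, whose conclusion says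
`∑ ⟪a_k, x ξ_k ⊠ η_k⟫ + conj ∑ ⟪a'_k, y ξ_k ⊠ η_k⟫ = 0`, so (real part) `⟪q, p(x,y)⟫_ℝ = 0`, a
contradiction. So there is `DP w w₁` with `‖(x - w) ξ_k ⊠ η_k‖ < ε/2`,
`‖(y - w₁) ξ_k ⊠ η_k‖ < ε/2` for all `k` (components are bounded by the norm of `𝓛`), and `DP w w₁`
for
`ε/2` and the same vectors gives the required families.
-/

set_option autoImplicit false

noncomputable section

open scoped TensorProduct InnerProductSpace InnerProduct ENNReal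
open Filter

namespace Pool.Agent.VNQ

universe u

variable {H G : Type u} [NormedAddCommGroup H] [InnerProductSpace ℂ H] [CompleteSpace H]
  [NormedAddCommGroup G] [InnerProductSpace ℂ G] [CompleteSpace G]

namespace QG

variable (Q : QG H G)

private local instance instReal : InnerProductSpace ℝ (HTen H H) :=
  InnerProductSpace.complexToReal

/-- The vector of the pair `(w, w₁)`. -/
private def PP {n : ℕ} (ξ η : Fin n → H) (w w₁ : H →L[ℂ] H) :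
    PiLp 2 (fun _ : Fin n ⊕ Fin n => HTen H H) :=
  WithLp.toLp 2 (Sum.elim (fun k => tmul (w (ξ k)) (η k)) fun k => tmul (w₁ (ξ k)) (η k))

private theorem PP_inl {n : ℕ} (ξ η : Fin n → H) (w w₁ : H →L[ℂ] H) (k : Fin n) :
    PP ξ η w w₁ (Sum.inl k) = tmul (w (ξ k)) (η k) := rfl

private theorem PP_inr {n : ℕ} (ξ η : Fin n → H) (w w₁ : H →L[ℂ] H) (k : Fin n) :
    PP ξ η w w₁ (Sum.inr k) = tmul (w₁ (ξ k)) (η k) := rfl

private theorem real_smul_eq (c : ℝ) (θ : HTen H H) : c • θ = (c : ℂ) • θ :=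
  (Complex.coe_smul c θ).symm

/-- The real subspace of the vectors of the pairs in `DP`. -/
private def VV {n : ℕ} (ξ η : Fin n → H) :
    Submodule ℝ (PiLp 2 (fun _ : Fin n ⊕ Fin n => HTen H H)) where
  carrier := {v | ∃ w w₁ : H →L[ℂ] H, Q.DP w w₁ ∧ v = PP ξ η w w₁}
  add_mem' := by
    rintro _ _ ⟨w, w₁, h, rfl⟩ ⟨w', w₁', h', rfl⟩
    refine ⟨w + w', w₁ + w₁', Q.DP_add h h', ?_⟩
    ext i
    rcases i with k | k
    · exact (add_tmul _ _ _).symm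
    · exact (add_tmul _ _ _).symm
  zero_mem' := by
    refine ⟨0, 0, ?_, ?_⟩
    · have h := Q.DP_smul (Q.DP_x 0 0) 0
      rwa [zero_smul, map_zero, zero_smul] at h
    · ext i
      rcases i with k | k
      · exact (map_zero (rT (H := H) (η k))).symm
      · exact (map_zero (rT (H := H) (η k))).symm
  smul_mem' := by
    rintro c _ ⟨w, w₁, h, rfl⟩
    refine ⟨(c : ℂ) • w, (starRingEnd ℂ) (c : ℂ) • w₁, Q.DP_smul h c, ?_⟩
    rw [Complex.conj_ofReal]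
    ext i
    rcases i with k | k
    · exact (real_smul_eq c _).trans (smul_tmul _ _ _).symm
    · exact (real_smul_eq c _).trans (smul_tmul _ _ _).symm

private theorem real_inner_PP {n : ℕ} (ξ η : Fin n → H) (w w₁ : H →L[ℂ] H)
    (q : PiLp 2 (fun _ : Fin n ⊕ Fin n => HTen H H)) : ⟪q, PP ξ η w w₁⟫_ℝ =
      (∑ k, ⟪((rT (η k))†) (q (Sum.inl k)), w (ξ k)⟫_ℂ).re +
        (∑ k, ⟪((rT (η k))†) (q (Sum.inr k)), w₁ (ξ k)⟫_ℂ).re := by
  rw [PiLp.inner_apply, Fintype.sum_sum_type, Complex.re_sum, Complex.re_sum]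
  congr 1
  · refine Finset.sum_congr rfl fun k _ => ?_
    rw [ContinuousLinearMap.adjoint_inner_left]
    rfl
  · refine Finset.sum_congr rfl fun k _ => ?_
    rw [ContinuousLinearMap.adjoint_inner_left]
    rfl

private theorem PP_mem_closure {x y : H →L[ℂ] H} (hx : x ∈ Q.M)
    (hxy : ∀ ξ γ, ⟪y (Q.mdK.C ξ), γ - Q.mdK.A γ⟫_ℂ = ⟪Q.mdK.C γ, x (Q.mdK.A ξ)⟫_ℂ)
    {n : ℕ} (ξ η : Fin n → H) : PP ξ η x y ∈ closure (Q.VV ξ η :
      Set (PiLp 2 (fun _ : Fin n ⊕ Fin n => HTen H H))) := by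
  rw [← Submodule.topologicalClosure_coe, ← Submodule.orthogonal_orthogonal_eq_closure,
    SetLike.mem_coe, Submodule.mem_orthogonal]
  intro q hq
  have hq' : ∀ w w₁ : H →L[ℂ] H, Q.DP w w₁ → ⟪q, PP ξ η w w₁⟫_ℝ = 0 := fun w w₁ h =>
    (Submodule.mem_orthogonal' _ _).1 hq _ ⟨w, w₁, h, rfl⟩
  have h0 : ∀ w w₁ : H →L[ℂ] H, Q.DP w w₁ →
      ∑ k, ⟪((rT (η k))†) (q (Sum.inl k)), w (ξ k)⟫_ℂ +
        (starRingEnd ℂ) (∑ k, ⟪((rT (η k))†) (q (Sum.inr k)), w₁ (ξ k)⟫_ℂ) = 0 := by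
    intro w w₁ h
    have h1 := hq' w w₁ h
    have h2 := hq' _ _ (Q.DP_smul h Complex.I)
    rw [real_inner_PP] at h1 h2
    have e1 : ∑ k, ⟪((rT (η k))†) (q (Sum.inl k)), (Complex.I • w) (ξ k)⟫_ℂ =
        Complex.I * ∑ k, ⟪((rT (η k))†) (q (Sum.inl k)), w (ξ k)⟫_ℂ := by
      rw [Finset.mul_sum]
      exact Finset.sum_congr rfl fun k _ => inner_smul_right _ _ _
    have e2 : ∑ k, ⟪((rT (η k))†) (q (Sum.inr k)),
          ((starRingEnd ℂ) Complex.I • w₁) (ξ k)⟫_ℂ =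
        (starRingEnd ℂ) Complex.I * ∑ k, ⟪((rT (η k))†) (q (Sum.inr k)), w₁ (ξ k)⟫_ℂ := by
      rw [Finset.mul_sum]
      exact Finset.sum_congr rfl fun k _ => inner_smul_right _ _ _
    rw [e1, e2] at h2
    generalize (∑ k, ⟪((rT (η k))†) (q (Sum.inl k)), w (ξ k)⟫_ℂ) = S at h1 h2 ⊢
    generalize (∑ k, ⟪((rT (η k))†) (q (Sum.inr k)), w₁ (ξ k)⟫_ℂ) = S' at h1 h2 ⊢
    simp only [Complex.mul_re, Complex.I_re, Complex.I_im, Complex.conj_re,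
      Complex.conj_im] at h2
    refine Complex.ext ?_ ?_
    · rw [Complex.add_re, Complex.conj_re, Complex.zero_re]
      exact h1
    · rw [Complex.add_im, Complex.conj_im, Complex.zero_im]
      linarith
  have h1 := Q.finA (fun k => ((rT (η k))†) (q (Sum.inl k)))
    (fun k => ((rT (η k))†) (q (Sum.inr k))) ξ (fun u v => h0 _ _ (Q.DP_x u v)) hx hxy
  rw [real_inner_PP]
  have h2 := congrArg Complex.re h1
  rw [Complex.add_re, Complex.conj_re, Complex.zero_re] at h2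
  exact h2

theorem finB {x y : H →L[ℂ] H} (hx : x ∈ Q.M)
    (hxy : ∀ ξ γ, ⟪y (Q.mdK.C ξ), γ - Q.mdK.A γ⟫_ℂ = ⟪Q.mdK.C γ, x (Q.mdK.A ξ)⟫_ℂ) :
    Q.DP x y := by
  intro ε hε n ξ η
  obtain ⟨_, ⟨w, w₁, h, rfl⟩, hd⟩ :=
    Metric.mem_closure_iff.1 (Q.PP_mem_closure hx hxy ξ η) (ε / 2) (half_pos hε)
  obtain ⟨m, p, q, hp, hq, hk⟩ := h (ε / 2) (half_pos hε) n ξ η
  rw [dist_eq_norm] at hd
  refine ⟨m, p, q, hp, hq, fun k => ⟨?_, ?_⟩⟩
  · have h1 : ‖tmul (x (ξ k)) (η k) - tmul (w (ξ k)) (η k)‖ < ε / 2 :=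
      (PiLp.norm_apply_le (PP ξ η x y - PP ξ η w w₁) (Sum.inl k)).trans_lt hd
    have h2 := norm_sub_le_norm_sub_add_norm_sub (tmul (x (ξ k)) (η k)) (tmul (w (ξ k)) (η k))
      (∑ j, Q.Δ (p j) (tmul (ξ k) (((q j)†) (η k))))
    have h3 := (hk k).1
    linarith
  · have h1 : ‖tmul (y (ξ k)) (η k) - tmul (w₁ (ξ k)) (η k)‖ < ε / 2 :=
      (PiLp.norm_apply_le (PP ξ η x y - PP ξ η w w₁) (Sum.inr k)).trans_lt hd
    have h2 := norm_sub_le_norm_sub_add_norm_sub (tmul (y (ξ k)) (η k)) (tmul (w₁ (ξ k)) (η k))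
      (∑ j, Q.Δ (q j) (tmul (ξ k) (((p j)†) (η k))))
    have h3 := (hk k).2
    linarith

end QG

end Pool.Agent.VNQ
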