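import Mathlib

/-!
# Square summable families indexed by the natural numbers

`exists_nat_family`: let `α : ν → G` be a family with `∑ ‖α n‖² < ∞`. There is `β : ℕ → G` with
`∑ ‖β n‖² < ∞` and such that for every `F : G → E` with `F 0 = 0`: if `∑_n F (α n) = s`
(unconditionally) then `∑_n F (β n) = s`.

Proof. The support `N₀` of `n ↦ ‖α n‖²` is countable (`Summable.countable_support`), and `α n = 0`
for `n ∉ N₀`. Let `e : N₀ → ℕ` be injective (`Encodable.encode`, or
`Set.Countable.exists_injOn`/`countable_iff_exists_injective`) and `β = Function.extend e (α ∘ (↑)) 0`.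
Then `F ∘ β = Function.extend e (F ∘ α ∘ (↑)) 0` and `hasSum_extend_zero` (or
`Function.Injective.hasSum_iff`) reduces the sum over `ℕ` to the sum over `N₀`, which is the sum over
`ν` (`hasSum_subtype_iff_of_support_subset`). The summability of `‖β n‖²` is the case `F g = ‖g‖²`.

`exists_nat_triple`: the same for three families `α, α', ξ : ν → G` at the same time, for functions
`F : G → G → E` applied to `(α, ξ)` or `(α', ξ)`. (Apply the first statement to the family
`(α n, α' n, ξ n) ∈ G × G × G`, `‖(a, b, c)‖² ≤ ‖a‖² + ‖b‖² + ‖c‖²`.)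
-/

set_option autoImplicit false

noncomputable section

namespace Pool.Agent.VNQ

theorem exists_nat_family {ν : Type*} {G : Type*} [NormedAddCommGroup G] (α : ν → G)
    (hα : Summable fun n => ‖α n‖ ^ 2) :
    ∃ β : ℕ → G, Summable (fun n => ‖β n‖ ^ 2) ∧
      (∀ (F : G → ℂ) (s : ℂ), F 0 = 0 → HasSum (fun n => F (α n)) s →
        HasSum (fun n => F (β n)) s) ∧
      ∀ (F : G → ℝ) (s : ℝ), F 0 = 0 → HasSum (fun n => F (α n)) s →
        HasSum (fun n => F (β n)) s := by
  classical
  have hN : (Function.support fun n => ‖α n‖ ^ 2).Countable := hα.countable_support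
  haveI : Countable (Function.support fun n => ‖α n‖ ^ 2) := hN.to_subtype
  obtain ⟨e, he⟩ := exists_injective_nat (Function.support fun n => ‖α n‖ ^ 2)
  have hz : ∀ n, n ∉ (Function.support fun n => ‖α n‖ ^ 2) → α n = 0 := by
    intro n hn
    have h := Function.notMem_support.1 hn
    simpa using h
  have key : ∀ {E : Type} [AddCommMonoid E] [TopologicalSpace E] (F : G → E) (s : E), F 0 = 0 →
      HasSum (fun n => F (α n)) s →
      HasSum (fun k : ℕ => F (Function.extend e
        (fun n : (Function.support fun n => ‖α n‖ ^ 2) => α n) 0 k)) s := by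
    intro E _ _ F s hF hs
    have h1 : HasSum ((fun n => F (α n)) ∘
        ((↑) : (Function.support fun n => ‖α n‖ ^ 2) → ν)) s := by
      refine (hasSum_subtype_iff_of_support_subset ?_).2 hs
      intro n hn
      by_contra h
      exact hn (by simp [hz n h, hF])
    refine (Function.Injective.hasSum_iff he ?_).1 ?_
    · intro k hk
      have hk' : ¬ ∃ a, e a = k := by
        simpa [Set.mem_range] using hk
      rw [Function.extend_apply' _ _ _ hk']
      simpa using hF
    · have h2 : ((fun k : ℕ => F (Function.extend e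
        (fun n : (Function.support fun n => ‖α n‖ ^ 2) => α n) 0 k)) ∘ e)
          = ((fun n => F (α n)) ∘ ((↑) : (Function.support fun n => ‖α n‖ ^ 2) → ν)) := by
        funext n
        simp only [Function.comp_apply]
        rw [he.extend_apply]
      rw [h2]
      exact h1
  refine ⟨Function.extend e (fun n : (Function.support fun n => ‖α n‖ ^ 2) => α n) 0, ?_, ?_, ?_⟩
  · exact (key (fun g => ‖g‖ ^ 2) _ (by simp) hα.hasSum).summable
  · intro F s hF hs
    exact key F s hF hs
  · intro F s hF hs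
    exact key F s hF hs

theorem exists_nat_triple {ν : Type*} {G : Type*} [NormedAddCommGroup G] (α α' ξ : ν → G)
    (hα : Summable fun n => ‖α n‖ ^ 2) (hα' : Summable fun n => ‖α' n‖ ^ 2)
    (hξ : Summable fun n => ‖ξ n‖ ^ 2) :
    ∃ β β' ζ : ℕ → G, Summable (fun n => ‖β n‖ ^ 2) ∧ Summable (fun n => ‖β' n‖ ^ 2) ∧
      Summable (fun n => ‖ζ n‖ ^ 2) ∧ ∀ (F : G → G → ℂ) (s : ℂ), F 0 0 = 0 →
        (HasSum (fun n => F (α n) (ξ n)) s → HasSum (fun n => F (β n) (ζ n)) s) ∧
        (HasSum (fun n => F (α' n) (ξ n)) s → HasSum (fun n => F (β' n) (ζ n)) s) := by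
  have hs : Summable fun n => ‖((α n, α' n, ξ n) : G × G × G)‖ ^ 2 := by
    refine Summable.of_nonneg_of_le (fun n => by positivity) (fun n => ?_)
      ((hα.add hα').add hξ)
    have h1 : ‖((α n, α' n, ξ n) : G × G × G)‖ = max ‖α n‖ (max ‖α' n‖ ‖ξ n‖) := by
      simp [Prod.norm_def]
    rw [h1]
    have a1 := sq_nonneg ‖α n‖
    have a2 := sq_nonneg ‖α' n‖
    have a3 := sq_nonneg ‖ξ n‖
    rcases max_choice ‖α n‖ (max ‖α' n‖ ‖ξ n‖) with h | h
    · rw [h]; linarith
    · rw [h]
      rcases max_choice ‖α' n‖ ‖ξ n‖ with h' | h'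
      · rw [h']; linarith
      · rw [h']; linarith
  obtain ⟨β, hβ, hC, -⟩ := exists_nat_family (fun n => ((α n, α' n, ξ n) : G × G × G)) hs
  have b1 : ∀ n, ‖(β n).1‖ ≤ ‖β n‖ := fun n => norm_fst_le _
  have b2 : ∀ n, ‖(β n).2.1‖ ≤ ‖β n‖ := fun n => (norm_fst_le _).trans (norm_snd_le _)
  have b3 : ∀ n, ‖(β n).2.2‖ ≤ ‖β n‖ := fun n => (norm_snd_le _).trans (norm_snd_le _)
  refine ⟨fun n => (β n).1, fun n => (β n).2.1, fun n => (β n).2.2, ?_, ?_, ?_, ?_⟩
  · exact Summable.of_nonneg_of_le (fun n => by positivity)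
      (fun n => pow_le_pow_left₀ (norm_nonneg _) (b1 n) 2) hβ
  · exact Summable.of_nonneg_of_le (fun n => by positivity)
      (fun n => pow_le_pow_left₀ (norm_nonneg _) (b2 n) 2) hβ
  · exact Summable.of_nonneg_of_le (fun n => by positivity)
      (fun n => pow_le_pow_left₀ (norm_nonneg _) (b3 n) 2) hβ
  · intro F s hF
    constructor
    · intro h
      exact hC (fun g => F g.1 g.2.2) s (by simpa using hF) h
    · intro h
      exact hC (fun g => F g.2.1 g.2.2) s (by simpa using hF) h

end Pool.Agent.VNQ
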