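import Pool.Agent.VNQ.DPH
import Pool.Agent.VNQ.FinAG
import Pool.Agent.VNQ.Ridx
import Pool.Agent.VNQ.FinB

/-!
# From (DS) to the approximation property on `H`

`finBG`: let `Q' : QG K G` be the internal form of the quantum group `π(M)` on `K`, and let
`x, y ∈ M` be such that `(π(x), π(y))` satisfies (DS). Then `Q.DPair x y`.

Proof: the proof of `finB` (read `FinB.lean` first), on `H`. Let `ε > 0` and `ξ_k, η_k ∈ H` (`k < n`)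
be given; `𝓛 = PiLp 2 (fun _ : Fin n ⊕ Fin n => HTen H H)` with its real inner product,
`p(a, b) = ((a ξ_k ⊗ η_k)_k, (b ξ_k ⊗ η_k)_k) ∈ 𝓛`, `𝓥 = {p(w, w₁) : Q.DPair w w₁}`, a real subspace
(`DPair_add`, `DPair_smul`, `DPair_zero`). Claim: `p(x, y)` is in the closure of `𝓥`. Let
`q = ((a_k), (a'_k))` be orthogonal to `𝓥` (real inner product). As in `FinB`:
`∑_k ⟪α_k, w ξ_k⟫ + conj ∑_k ⟪α'_k, w₁ ξ_k⟫ = 0` for all `Q.DPair w w₁`, with `α_k = R_{η_k}† a_k`,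
`α'_k = R_{η_k}† a'_k`. Take `w = inv x_{u,v}`, `w₁ = inv x_{v,u}` (`dpH`). Let `S_j : H → K` be as
in `exists_S`; for `m ∈ M`: `⟪α, m ξ⟫ = ∑_j ⟪S_j α, S_j m ξ⟫ = ∑_j ⟪S_j α, π(m) S_j ξ⟫`
(`hasSum_inner_of_norm`, `S_π`). So, with the families indexed by `(k, j)`:
`∑_{(k,j)} ⟪S_j α_k, π(m) S_j ξ_k⟫ = ∑_k ⟪α_k, m ξ_k⟫` (absolutely convergent; a finite sum over `k`
of convergent sums), and for `m = inv x_{u,v}`, `π(m) = x_{u,v}` (`π_inv`, `x_mem`). Re-index by `ℕ`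
with `exists_nat_triple` (`F g g' = ⟪g, X g'⟫`): the hypothesis of `Q'.finAG` holds, its conclusion
for `(π(x), π(y))` says `∑_k ⟪α_k, x ξ_k⟫ + conj ∑_k ⟪α'_k, y ξ_k⟫ = 0`, so `⟪q, p(x, y)⟫_ℝ = 0`.
Conclude as in `FinB`: `p(x, y)` is in the closure of `𝓥`, and the families of a pair
`Q.DPair w w₁` with `p(w, w₁)` close to `p(x, y)` are good for `(x, y)`.
-/

set_option autoImplicit false

noncomputable section

open scoped TensorProduct InnerProductSpace InnerProduct ENNReal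
open Filter

namespace Pool.Agent.VNQ

universe u

variable {H K G : Type u} [NormedAddCommGroup H] [InnerProductSpace ℂ H] [CompleteSpace H]
  [NormedAddCommGroup K] [InnerProductSpace ℂ K] [CompleteSpace K]
  [NormedAddCommGroup G] [InnerProductSpace ℂ G] [CompleteSpace G]

namespace VNQGroup

variable (Q : VNQGroup H K) (R : Rep Q.M K)

private local instance instRealG : InnerProductSpace ℝ (HTen H H) :=
  InnerProductSpace.complexToReal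

/-- The vector of the pair `(w, w₁)`. -/
private def PP {n : ℕ} (ξ η : Fin n → H) (w w₁ : H →L[ℂ] H) :
    PiLp 2 (fun _ : Fin n ⊕ Fin n => HTen H H) :=
  WithLp.toLp 2 (Sum.elim (fun k => tmul (w (ξ k)) (η k)) fun k => tmul (w₁ (ξ k)) (η k))

private theorem real_smul_eq (c : ℝ) (θ : HTen H H) : c • θ = (c : ℂ) • θ :=
  (Complex.coe_smul c θ).symm

/-- The real subspace of the vectors of the pairs in `DPair`. -/
private def VV {n : ℕ} (ξ η : Fin n → H) :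
    Submodule ℝ (PiLp 2 (fun _ : Fin n ⊕ Fin n => HTen H H)) where
  carrier := {v | ∃ w w₁ : H →L[ℂ] H, Q.DPair w w₁ ∧ v = PP ξ η w w₁}
  add_mem' := by
    rintro _ _ ⟨w, w₁, h, rfl⟩ ⟨w', w₁', h', rfl⟩
    refine ⟨w + w', w₁ + w₁', Q.DPair_add h h', ?_⟩
    ext i
    rcases i with k | k
    · exact (add_tmul _ _ _).symm
    · exact (add_tmul _ _ _).symm
  zero_mem' := by
    refine ⟨0, 0, Q.DPair_zero, ?_⟩
    ext i
    rcases i with k | k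
    · exact (map_zero (rT (H := H) (η k))).symm
    · exact (map_zero (rT (H := H) (η k))).symm
  smul_mem' := by
    rintro c _ ⟨w, w₁, h, rfl⟩
    refine ⟨(c : ℂ) • w, (starRingEnd ℂ) (c : ℂ) • w₁, Q.DPair_smul h c, ?_⟩
    rw [Complex.conj_ofReal]
    ext i
    rcases i with k | k
    · exact (real_smul_eq c _).trans (smul_tmul _ _ _).symm
    · exact (real_smul_eq c _).trans (smul_tmul _ _ _).symm

private theorem real_inner_PP {n : ℕ} (ξ η : Fin n → H) (w w₁ : H →L[ℂ] H)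
    (q : PiLp 2 (fun _ : Fin n ⊕ Fin n => HTen H H)) : ⟪q, PP ξ η w w₁⟫_ℝ =
      (∑ k, ⟪((rT (η k))†) (q (Sum.inl k)), w (ξ k)⟫_ℂ).re +
        (∑ k, ⟪((rT (η k))†) (q (Sum.inr k)), w₁ (ξ k)⟫_ℂ).re := by
  rw [PiLp.inner_apply, Fintype.sum_sum_type, Complex.re_sum, Complex.re_sum]
  congr 1
  · refine Finset.sum_congr rfl fun k _ => ?_
    rw [ContinuousLinearMap.adjoint_inner_left]
    rfl
  · refine Finset.sum_congr rfl fun k _ => ?_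
    rw [ContinuousLinearMap.adjoint_inner_left]
    rfl

/-- The conclusion of `finAG` on `H`. -/
private theorem annih (Q' : QG K G) (hM : Q'.M = R.vn)
    (hΔ : ∀ m ∈ Q.M, Q'.Δ (R.π m) = R.tr (Q.Δ m)) {x y : H →L[ℂ] H} (hx : x ∈ Q.M)
    (hy : y ∈ Q.M) (hxy : ∀ ξ γ, ⟪R.π y (Q'.mdK.C ξ), γ - Q'.mdK.A γ⟫_ℂ =
      ⟪Q'.mdK.C γ, R.π x (Q'.mdK.A ξ)⟫_ℂ) {n : ℕ} (α α' ξ : Fin n → H)
    (h0 : ∀ w w₁ : H →L[ℂ] H, Q.DPair w w₁ →
      ∑ k, ⟪α k, w (ξ k)⟫_ℂ + (starRingEnd ℂ) (∑ k, ⟪α' k, w₁ (ξ k)⟫_ℂ) = 0) :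
    ∑ k, ⟪α k, x (ξ k)⟫_ℂ + (starRingEnd ℂ) (∑ k, ⟪α' k, y (ξ k)⟫_ℂ) = 0 := by
  obtain ⟨ν, S, hSi, hS⟩ := R.exists_S
  have sm : ∀ a : Fin n → H, Summable fun p : Fin n × ν => ‖S p.2 (a p.1)‖ ^ 2 := by
    intro a
    refine (summable_prod_of_nonneg fun p => sq_nonneg _).2 ⟨fun k => (hS (a k)).summable, ?_⟩
    exact (hasSum_fintype _).summable
  have hs : ∀ (a : Fin n → H) (m : H →L[ℂ] H), m ∈ Q.M →
      HasSum (fun p : Fin n × ν => ⟪S p.2 (a p.1), R.π m (S p.2 (ξ p.1))⟫_ℂ)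
        (∑ k, ⟪a k, m (ξ k)⟫_ℂ) := by
    intro a m hm
    have hf : Summable fun p : Fin n × ν => ⟪S p.2 (a p.1), R.π m (S p.2 (ξ p.1))⟫_ℂ := by
      refine Summable.of_norm_bounded ((sm a).add ((sm ξ).mul_left (‖R.π m‖ ^ 2))) fun p => ?_
      have h1 := norm_inner_le_norm (𝕜 := ℂ) (S p.2 (a p.1)) (R.π m (S p.2 (ξ p.1)))
      have h2 := (R.π m).le_opNorm (S p.2 (ξ p.1))
      have h3 := mul_le_mul_of_nonneg_left h2 (norm_nonneg (S p.2 (a p.1)))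
      nlinarith [sq_nonneg (‖S p.2 (a p.1)‖ - ‖R.π m‖ * ‖S p.2 (ξ p.1)‖),
        sq_nonneg ‖S p.2 (a p.1)‖, sq_nonneg (‖R.π m‖ * ‖S p.2 (ξ p.1)‖)]
    have h1 := hf.hasSum.prod_fiberwise (g := fun k => ⟪a k, m (ξ k)⟫_ℂ) fun k => by
      have h2 := hasSum_inner_of_norm (fun j => ((S j : H →L[ℂ] K) : H →ₗ[ℂ] K))
        (LinearMap.id : H →ₗ[ℂ] H) hS (a k) (m (ξ k))
      have h3 : (fun j => ⟪S j (a k), R.π m (S j (ξ k))⟫_ℂ) =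
          fun j => ⟪S j (a k), S j (m (ξ k))⟫_ℂ := by
        funext j
        rw [R.S_π (hSi j) hm]
      show HasSum (fun j => ⟪S j (a k), R.π m (S j (ξ k))⟫_ℂ) _
      rw [h3]
      exact h2
    rw [← h1.unique (hasSum_fintype _)]
    exact hf.hasSum
  obtain ⟨β, β', ζ, hβ, hβ', hζ, hF⟩ := exists_nat_triple
    (fun p : Fin n × ν => S p.2 (α p.1)) (fun p : Fin n × ν => S p.2 (α' p.1))
    (fun p : Fin n × ν => S p.2 (ξ p.1)) (sm α) (sm α') (sm ξ)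
  have e1 : ∀ m ∈ Q.M, ∑' i, ⟪β i, R.π m (ζ i)⟫_ℂ = ∑ k, ⟪α k, m (ξ k)⟫_ℂ := fun m hm =>
    ((hF (fun g g' => ⟪g, R.π m g'⟫_ℂ) _ (by simp)).1 (hs α m hm)).tsum_eq
  have e2 : ∀ m ∈ Q.M, ∑' i, ⟪β' i, R.π m (ζ i)⟫_ℂ = ∑ k, ⟪α' k, m (ξ k)⟫_ℂ := fun m hm =>
    ((hF (fun g g' => ⟪g, R.π m g'⟫_ℂ) _ (by simp)).2 (hs α' m hm)).tsum_eq
  have h1 := Q'.finAG β β' ζ hβ hβ' hζ (fun u v => by
    have m1 : Q'.x u v ∈ R.vn := hM ▸ Q'.x_mem u v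
    have m2 : Q'.x v u ∈ R.vn := hM ▸ Q'.x_mem v u
    have h2 := h0 _ _ (Q.dpH R Q' hM hΔ u v)
    rw [← e1 _ (R.inv_mem m1), ← e2 _ (R.inv_mem m2), R.π_inv m1, R.π_inv m2] at h2
    exact h2) (x := R.π x) (y := R.π y) (hM ▸ R.π_mem hx) hxy
  rwa [e1 x hx, e2 y hy] at h1

private theorem PP_mem_closure (Q' : QG K G) (hM : Q'.M = R.vn)
    (hΔ : ∀ m ∈ Q.M, Q'.Δ (R.π m) = R.tr (Q.Δ m)) {x y : H →L[ℂ] H} (hx : x ∈ Q.M)
    (hy : y ∈ Q.M) (hxy : ∀ ξ γ, ⟪R.π y (Q'.mdK.C ξ), γ - Q'.mdK.A γ⟫_ℂ =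
      ⟪Q'.mdK.C γ, R.π x (Q'.mdK.A ξ)⟫_ℂ)
    {n : ℕ} (ξ η : Fin n → H) : PP ξ η x y ∈ closure (Q.VV ξ η :
      Set (PiLp 2 (fun _ : Fin n ⊕ Fin n => HTen H H))) := by
  rw [← Submodule.topologicalClosure_coe, ← Submodule.orthogonal_orthogonal_eq_closure,
    SetLike.mem_coe, Submodule.mem_orthogonal]
  intro q hq
  have hq' : ∀ w w₁ : H →L[ℂ] H, Q.DPair w w₁ → ⟪q, PP ξ η w w₁⟫_ℝ = 0 := fun w w₁ h =>
    (Submodule.mem_orthogonal' _ _).1 hq _ ⟨w, w₁, h, rfl⟩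
  have h0 : ∀ w w₁ : H →L[ℂ] H, Q.DPair w w₁ →
      ∑ k, ⟪((rT (η k))†) (q (Sum.inl k)), w (ξ k)⟫_ℂ +
        (starRingEnd ℂ) (∑ k, ⟪((rT (η k))†) (q (Sum.inr k)), w₁ (ξ k)⟫_ℂ) = 0 := by
    intro w w₁ h
    have h1 := hq' w w₁ h
    have h2 := hq' _ _ (Q.DPair_smul h Complex.I)
    rw [real_inner_PP] at h1 h2
    have e1 : ∑ k, ⟪((rT (η k))†) (q (Sum.inl k)), (Complex.I • w) (ξ k)⟫_ℂ =
        Complex.I * ∑ k, ⟪((rT (η k))†) (q (Sum.inl k)), w (ξ k)⟫_ℂ := by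
      rw [Finset.mul_sum]
      exact Finset.sum_congr rfl fun k _ => inner_smul_right _ _ _
    have e2 : ∑ k, ⟪((rT (η k))†) (q (Sum.inr k)),
          ((starRingEnd ℂ) Complex.I • w₁) (ξ k)⟫_ℂ =
        (starRingEnd ℂ) Complex.I * ∑ k, ⟪((rT (η k))†) (q (Sum.inr k)), w₁ (ξ k)⟫_ℂ := by
      rw [Finset.mul_sum]
      exact Finset.sum_congr rfl fun k _ => inner_smul_right _ _ _
    rw [e1, e2] at h2
    generalize (∑ k, ⟪((rT (η k))†) (q (Sum.inl k)), w (ξ k)⟫_ℂ) = S at h1 h2 ⊢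
    generalize (∑ k, ⟪((rT (η k))†) (q (Sum.inr k)), w₁ (ξ k)⟫_ℂ) = S' at h1 h2 ⊢
    simp only [Complex.mul_re, Complex.I_re, Complex.I_im, Complex.conj_re,
      Complex.conj_im] at h2
    refine Complex.ext ?_ ?_
    · rw [Complex.add_re, Complex.conj_re, Complex.zero_re]
      exact h1
    · rw [Complex.add_im, Complex.conj_im, Complex.zero_im]
      linarith
  have h1 := Q.annih R Q' hM hΔ hx hy hxy (fun k => ((rT (η k))†) (q (Sum.inl k)))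
    (fun k => ((rT (η k))†) (q (Sum.inr k))) ξ h0
  rw [real_inner_PP]
  have h2 := congrArg Complex.re h1
  rw [Complex.add_re, Complex.conj_re, Complex.zero_re] at h2
  exact h2
theorem finBG (Q' : QG K G) (hM : Q'.M = R.vn)
    (hΔ : ∀ m ∈ Q.M, Q'.Δ (R.π m) = R.tr (Q.Δ m)) {x y : H →L[ℂ] H} (hx : x ∈ Q.M)
    (hy : y ∈ Q.M) (hxy : ∀ ξ γ, ⟪R.π y (Q'.mdK.C ξ), γ - Q'.mdK.A γ⟫_ℂ =
      ⟪Q'.mdK.C γ, R.π x (Q'.mdK.A ξ)⟫_ℂ) : Q.DPair x y := by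
  intro ε hε n ξ η
  obtain ⟨_, ⟨w, w₁, h, rfl⟩, hd⟩ :=
    Metric.mem_closure_iff.1 (Q.PP_mem_closure R Q' hM hΔ hx hy hxy ξ η) (ε / 2) (half_pos hε)
  obtain ⟨m, p, q, hp, hq, hk⟩ := h (ε / 2) (half_pos hε) n ξ η
  rw [dist_eq_norm] at hd
  refine ⟨m, p, q, hp, hq, fun k => ⟨?_, ?_⟩⟩
  · have h1 : ‖tmul (x (ξ k)) (η k) - tmul (w (ξ k)) (η k)‖ < ε / 2 :=
      (PiLp.norm_apply_le (PP ξ η x y - PP ξ η w w₁) (Sum.inl k)).trans_lt hd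
    have h2 := norm_sub_le_norm_sub_add_norm_sub (tmul (x (ξ k)) (η k)) (tmul (w (ξ k)) (η k))
      (∑ j, Q.Δ (p j) (tmul (ξ k) ((star (q j)) (η k))))
    have h3 := (hk k).1
    linarith
  · have h1 : ‖tmul (y (ξ k)) (η k) - tmul (w₁ (ξ k)) (η k)‖ < ε / 2 :=
      (PiLp.norm_apply_le (PP ξ η x y - PP ξ η w w₁) (Sum.inr k)).trans_lt hd
    have h2 := norm_sub_le_norm_sub_add_norm_sub (tmul (y (ξ k)) (η k)) (tmul (w₁ (ξ k)) (η k))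
      (∑ j, Q.Δ (q j) (tmul (ξ k) ((star (p j)) (η k))))
    have h3 := (hk k).2
    linarith

end VNQGroup

end Pool.Agent.VNQ
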