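import Pool.Agent.VNQ.AUb
import Pool.Agent.VNQ.Tot
import Pool.Agent.VNQ.MDEx

/-!
# The involution of a weight

`w.Gam` = closure of `{(Λ b, Λ b†) : b, b† ∈ N}`, the graph of the conjugate-linear involution
`S : Λ b ↦ Λ b†`.

`Wt.isRel_Gam`: it is an `IsRel`. `add`, `smul`, `symm`: the set `Γ₀ = {(Λ b, Λ b†)}` is closed
under
`+`, `(c, c̄)` and the exchange (`Λ_add`, `Λ_smul`, `add_mem`, `smul_mem`, `(b + b')† = b† + b'†`,
`(c b)† = c̄ b†`, `b†† = b`), these operations are continuous, so they pass to the closure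
(`map_mem_closure`, `map_mem_closure₂`). `dense`: `dense_sa`. `single`: for
`σ = Z_l† m z_p`, `σ₁ = Z_p† m† z_l` one has `⟪ξ₁, σ⟫ = ⟪σ₁, ξ⟫` for all `(ξ, ξ₁) ∈ Γ₀`
(`inner_sigma`),
hence by continuity for all `(ξ, ξ₁)` in the closure. If `(0, ξ₁)` is in the closure, then `ξ₁` is
orthogonal to all `σ`, so `ξ₁ = 0` by `total_G`.
-/

set_option autoImplicit false

noncomputable section

open scoped TensorProduct InnerProductSpace InnerProduct ENNReal
open Filter

namespace Pool.Agent.VNQ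

universe u

variable {H G : Type u} [NormedAddCommGroup H] [InnerProductSpace ℂ H] [CompleteSpace H]
  [NormedAddCommGroup G] [InnerProductSpace ℂ G] [CompleteSpace G]

namespace Wt

variable {M : VonNeumannAlgebra H} (w : Wt M G)

/-- The graph of `Λ b ↦ Λ b†`. -/
def Gam : Set (G × G) := closure {p | ∃ b ∈ w.N, b† ∈ w.N ∧ p = (w.Λ b, w.Λ (b†))}

theorem isRel_Gam : IsRel w.Gam := by
  refine ⟨isClosed_closure, ?_, ?_, ?_, ?_, ?_⟩
  · intro p hp q hq
    refine map_mem_closure₂ continuous_add hp hq ?_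
    rintro _ ⟨b, hb, hb', rfl⟩ _ ⟨c, hc, hc', rfl⟩
    have h1 : (b + c)† = b† + c† := map_add _ _ _
    refine ⟨b + c, w.add_mem hb hc, ?_, ?_⟩
    · rw [h1]
      exact w.add_mem hb' hc'
    · rw [h1, w.Λ_add b hb c hc, w.Λ_add _ hb' _ hc']
      rfl
  · intro c p hp
    have hcont : Continuous fun p : G × G => (c • p.1, (starRingEnd ℂ) c • p.2) := by fun_prop
    refine map_mem_closure (f := fun p : G × G => (c • p.1, (starRingEnd ℂ) c • p.2))
      hcont hp ?_
    rintro _ ⟨b, hb, hb', rfl⟩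
    have h1 : (c • b)† = (starRingEnd ℂ) c • b† := map_smulₛₗ _ _ _
    refine ⟨c • b, w.smul_mem c hb, ?_, ?_⟩
    · rw [h1]
      exact w.smul_mem _ hb'
    · rw [h1, w.Λ_smul c b hb, w.Λ_smul _ _ hb']
  · intro p hp
    refine map_mem_closure (f := Prod.swap) continuous_swap hp ?_
    rintro _ ⟨b, hb, hb', rfl⟩
    refine ⟨b†, hb', ?_, ?_⟩
    · rw [ContinuousLinearMap.adjoint_adjoint]
      exact hb
    · rw [ContinuousLinearMap.adjoint_adjoint]
      rfl
  · intro ξ₁ hξ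
    have hσ : ∀ m ∈ M.commutant, ∀ l p, ⟪ξ₁, ((w.Z l)†) (m (w.z p))⟫_ℂ = 0 := by
      intro m hm l p
      have hcl : IsClosed {q : G × G | ⟪q.2, ((w.Z l)†) (m (w.z p))⟫_ℂ =
          ⟪((w.Z p)†) ((m†) (w.z l)), q.1⟫_ℂ} :=
        isClosed_eq (by fun_prop) (by fun_prop)
      have hsub : closure {p : G × G | ∃ b ∈ w.N, b† ∈ w.N ∧ p = (w.Λ b, w.Λ (b†))} ⊆
          {q : G × G | ⟪q.2, ((w.Z l)†) (m (w.z p))⟫_ℂ =
          ⟪((w.Z p)†) ((m†) (w.z l)), q.1⟫_ℂ} := by
        refine closure_minimal ?_ hcl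
        rintro _ ⟨b, hb, hb', rfl⟩
        exact w.inner_sigma hb hb' hm l p
      have h1 := hsub hξ
      exact h1.trans (inner_zero_right _)
    refine Dense.eq_zero_of_inner_left ℂ w.total_G ?_
    intro v hv
    induction hv using Submodule.span_induction with
    | mem x hx =>
      obtain ⟨m, hm, l, p, rfl⟩ := hx
      exact hσ m hm l p
    | zero => exact inner_zero_right _
    | add x y _ _ hx hy => rw [inner_add_right, hx, hy, add_zero]
    | smul c x _ hx => rw [inner_smul_right, hx, mul_zero]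
  · refine w.dense_sa.mono ?_
    rintro g ⟨b, hb, hb', rfl⟩
    exact ⟨w.Λ (b†), subset_closure ⟨b, hb, hb', rfl⟩⟩

/-- The modular data of the weight. -/
def md : MD G := Classical.choose w.isRel_Gam.exists_md

theorem md_rel : w.md.rel = w.Gam := Classical.choose_spec w.isRel_Gam.exists_md

theorem mem_md_rel {b : H →L[ℂ] H} (hb : b ∈ w.N) (hb' : b† ∈ w.N) :
    (w.Λ b, w.Λ (b†)) ∈ w.md.rel := by
  rw [w.md_rel]
  exact subset_closure ⟨b, hb, hb', rfl⟩

end Wt

end Pool.Agent.VNQ
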