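import Mathlib

/-!
# The Gaussian transform of a bounded continuous function

For `f : ℝ → ℂ` continuous with `‖f t‖ ≤ M`, `n > 0`:
`gaussT n f z = ∫ exp (- n (t - z)²) f(t) dt`.

* `gauss_integrable`: `‖exp (- n (t - z)²)‖ = exp (- n (t - re z)² + n (im z)²)`
  (`Complex.norm_exp`), and `exp (- n t²)` is integrable (`integrable_exp_neg_mul_sq`), translate
  (`Integrable.comp_sub_right`); `f` bounded and continuous (`Integrable.bdd_mul` or
  `Integrable.mono'`).
* `gauss_bound`: `∫ exp (- n (t - x)²) dt = √(π / n)` (`integral_gaussian`, translation invariance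
  `integral_sub_right_eq_self`), `norm_integral_le_of_norm_le`.
* `gauss_differentiable`: the derivative of the integrand in `z` is
  `2 n (t - z) exp (- n (t - z)²) f(t)`. For `z` in the unit ball around `z₀` it is bounded by
  `2 n M (|t - z₀| + 1) exp (- n (|t - re z₀| - 1)² + n (|im z₀| + 1)²)` if `|t - re z₀| ≥ 1` and by
  a
  constant otherwise; simplest: for `|z - z₀| < 1`,
  `re (-(t - z)²) = - (t - re z)² + (im z)² ≤ - (t - re z₀)² / 2 + 1 + (|im z₀| + 1)²`
  (use `(t - re z)² ≥ (t - re z₀)² / 2 - (re z - re z₀)²`), so the derivative is bounded by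
  `2 n M (|t - re z₀| + |im z₀| + 2) exp (- n (t - re z₀)² / 2) exp (n (1 + (|im z₀| + 1)²))`, which
  is integrable (`integrable_exp_neg_mul_sq`, `integrable_mul_exp_neg_mul_sq` and absolute values).
  Use `hasDerivAt_integral_of_dominated_loc_of_deriv_le`.
  (Alternative: first show continuity and use Morera, or expand; any proof is fine.)
* `gauss_inversion`: if `∫ exp (- n t²) f(t) dt = 0` for all natural `n ≥ 1` then `f 0 = 0`.
  Substitute `t = s / √n` (`integral_comp_mul_left`, or `Measure.integral_comp_div`):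
  `∫ exp (- s²) f(s / √n) ds = 0`. As `n → ∞`, dominated convergence
  (`tendsto_integral_of_dominated_convergence`, bound `M exp (-s²)`) gives
  `f(0) ∫ exp (- s²) ds = 0`, and `∫ exp (- s²) ds = √π ≠ 0`.
-/

set_option autoImplicit false

noncomputable section

open MeasureTheory

namespace Pool.Agent.VNQ

/-- `∫ exp (- n (t - z)²) f(t) dt` -/
def gaussT (n : ℝ) (f : ℝ → ℂ) (z : ℂ) : ℂ := ∫ t : ℝ, Complex.exp (-n * ((t : ℂ) - z) ^ 2) * f t

variable {n M : ℝ} {f : ℝ → ℂ}

private theorem norm_gk (n t : ℝ) (z : ℂ) : ‖Complex.exp (-n * ((t : ℂ) - z) ^ 2)‖ =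
    Real.exp (n * z.im ^ 2) * Real.exp (-n * (t - z.re) ^ 2) := by
  rw [Complex.norm_exp, ← Real.exp_add]
  congr 1
  rw [pow_two ((t : ℂ) - z), ← Complex.ofReal_neg, Complex.re_ofReal_mul, Complex.mul_re,
    Complex.sub_re, Complex.sub_im, Complex.ofReal_re, Complex.ofReal_im]
  ring

private theorem cont_gk (n : ℝ) (z : ℂ) :
    Continuous fun t : ℝ => Complex.exp (-n * ((t : ℂ) - z) ^ 2) := by
  fun_prop

private theorem gk_bd (hM : ∀ t, ‖f t‖ ≤ M) (n t : ℝ) (z : ℂ) :
    ‖Complex.exp (-n * ((t : ℂ) - z) ^ 2) * f t‖ ≤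
      M * Real.exp (n * z.im ^ 2) * Real.exp (-n * (t - z.re) ^ 2) := by
  rw [norm_mul, norm_gk]
  have h1 : 0 ≤ Real.exp (n * z.im ^ 2) * Real.exp (-n * (t - z.re) ^ 2) := by positivity
  calc _ ≤ Real.exp (n * z.im ^ 2) * Real.exp (-n * (t - z.re) ^ 2) * M :=
        mul_le_mul_of_nonneg_left (hM t) h1
    _ = _ := by ring

private theorem gk_int (hn : 0 < n) (K x : ℝ) :
    Integrable fun t : ℝ => K * Real.exp (-n * (t - x) ^ 2) :=
  ((integrable_exp_neg_mul_sq hn).comp_sub_right x).const_mul K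

theorem gauss_integrable (hn : 0 < n) (hf : Continuous f) (hM : ∀ t, ‖f t‖ ≤ M) (z : ℂ) :
    Integrable fun t : ℝ => Complex.exp (-n * ((t : ℂ) - z) ^ 2) * f t :=
  (gk_int hn (M * Real.exp (n * z.im ^ 2)) z.re).mono'
    ((cont_gk n z).mul hf).aestronglyMeasurable (Filter.Eventually.of_forall fun t =>
      gk_bd hM n t z)

theorem gauss_bound (hn : 0 < n) (hf : Continuous f) (hM : ∀ t, ‖f t‖ ≤ M) (z : ℂ) :
    ‖gaussT n f z‖ ≤ M * (Real.exp (n * z.im ^ 2) * Real.sqrt (Real.pi / n)) := by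
  have _ := hf
  unfold gaussT
  refine (norm_integral_le_of_norm_le (gk_int hn (M * Real.exp (n * z.im ^ 2)) z.re)
    (Filter.Eventually.of_forall fun t => gk_bd hM n t z)).trans ?_
  rw [integral_const_mul, integral_sub_right_eq_self (fun t : ℝ => Real.exp (-n * t ^ 2)) z.re,
    integral_gaussian, mul_assoc]

theorem gauss_differentiable (hn : 0 < n) (hf : Continuous f) (hM : ∀ t, ‖f t‖ ≤ M) :
    Differentiable ℂ (gaussT n f) := by
  intro z₀
  have hM0 : 0 ≤ M := (norm_nonneg _).trans (hM 0)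
  have hn2 : 0 < n / 2 := by positivity
  -- the bound
  have hb1 : Integrable fun u : ℝ => |u| * Real.exp (-(n / 2) * u ^ 2) := by
    refine (integrable_mul_exp_neg_mul_sq hn2).abs.congr (Filter.Eventually.of_forall fun u => ?_)
    change |u * Real.exp (-(n / 2) * u ^ 2)| = _
    rw [abs_mul, abs_of_pos (Real.exp_pos _)]
  set c : ℝ := |z₀.im| + 2 with hc
  set K : ℝ := 2 * n * M * Real.exp (n * (1 + (|z₀.im| + 1) ^ 2)) with hK
  have hb2 : Integrable fun u : ℝ => K * (|u| * Real.exp (-(n / 2) * u ^ 2) +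
      c * Real.exp (-(n / 2) * u ^ 2)) :=
    (hb1.add ((integrable_exp_neg_mul_sq hn2).const_mul c)).const_mul K
  have hb3 := hb2.comp_sub_right z₀.re
  have key := hasDerivAt_integral_of_dominated_loc_of_deriv_le (𝕜 := ℂ) (μ := volume)
    (F := fun (z : ℂ) (t : ℝ) => Complex.exp (-n * ((t : ℂ) - z) ^ 2) * f t)
    (F' := fun (z : ℂ) (t : ℝ) =>
      Complex.exp (-n * ((t : ℂ) - z) ^ 2) * (2 * n * ((t : ℂ) - z)) * f t)
    (x₀ := z₀) (s := Metric.ball z₀ 1)
    (bound := fun t : ℝ => K * (|t - z₀.re| * Real.exp (-(n / 2) * (t - z₀.re) ^ 2) +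
      c * Real.exp (-(n / 2) * (t - z₀.re) ^ 2)))
    (Metric.ball_mem_nhds z₀ one_pos)
    (Filter.Eventually.of_forall fun z => ((cont_gk n z).mul hf).aestronglyMeasurable)
    (gauss_integrable hn hf hM z₀)
    (((cont_gk n z₀).mul (by fun_prop)).mul hf).aestronglyMeasurable
    (Filter.Eventually.of_forall fun t z hz => ?_) hb3
    (Filter.Eventually.of_forall fun t z _ => ?_)
  · exact key.2.differentiableAt
  · -- the estimate
    rw [Metric.mem_ball, Complex.dist_eq] at hz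
    have hre : |z.re - z₀.re| ≤ 1 := by
      have h1 := (Complex.abs_re_le_norm (z - z₀)).trans hz.le
      rwa [Complex.sub_re] at h1
    have him : |z.im - z₀.im| ≤ 1 := by
      have h1 := (Complex.abs_im_le_norm (z - z₀)).trans hz.le
      rwa [Complex.sub_im] at h1
    have him2 : |z.im| ≤ |z₀.im| + 1 := by
      have h1 := abs_add_le (z.im - z₀.im) z₀.im
      rw [sub_add_cancel] at h1
      linarith
    have h1 : ‖(t : ℂ) - z‖ ≤ |t - z₀.re| + c := by
      have h2 := Complex.norm_le_abs_re_add_abs_im ((t : ℂ) - z)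
      rw [Complex.sub_re, Complex.sub_im, Complex.ofReal_re, Complex.ofReal_im, zero_sub,
        abs_neg] at h2
      have h3 : |t - z.re| ≤ |t - z₀.re| + 1 := by
        have h4 := abs_add_le (t - z₀.re) (z₀.re - z.re)
        rw [sub_add_sub_cancel, abs_sub_comm z₀.re z.re] at h4
        linarith
      rw [hc]
      linarith
    have h2 : ‖Complex.exp (-n * ((t : ℂ) - z) ^ 2)‖ ≤
        Real.exp (n * (1 + (|z₀.im| + 1) ^ 2)) * Real.exp (-(n / 2) * (t - z₀.re) ^ 2) := by
      rw [norm_gk, ← Real.exp_add, ← Real.exp_add]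
      apply Real.exp_le_exp.2
      have h3 : z.im ^ 2 ≤ (|z₀.im| + 1) ^ 2 := by
        rw [← sq_abs z.im]
        exact pow_le_pow_left₀ (abs_nonneg _) him2 2
      have h4 : (z.re - z₀.re) ^ 2 ≤ 1 := by
        rw [← sq_abs]
        exact pow_le_one₀ (abs_nonneg _) hre
      have h5 : (t - z₀.re) ^ 2 / 2 - 1 ≤ (t - z.re) ^ 2 := by
        nlinarith [sq_nonneg (t - z.re - (z.re - z₀.re))]
      nlinarith
    rw [norm_mul, norm_mul, norm_mul, norm_mul]
    have h3 : ‖(2 : ℂ)‖ * ‖(n : ℂ)‖ = 2 * n := by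
      rw [Complex.norm_real, Real.norm_eq_abs, abs_of_pos hn]
      norm_num
    rw [h3]
    have h6 : 0 ≤ |t - z₀.re| + c := by
      rw [hc]
      positivity
    calc _ ≤ Real.exp (n * (1 + (|z₀.im| + 1) ^ 2)) * Real.exp (-(n / 2) * (t - z₀.re) ^ 2) *
          (2 * n * (|t - z₀.re| + c)) * M := by
          gcongr
          exact hM t
      _ = _ := by
          rw [hK]
          ring
  · have h1 : HasDerivAt (fun z : ℂ => -n * ((t : ℂ) - z) ^ 2) (2 * n * ((t : ℂ) - z)) z := by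
      have h2 : HasDerivAt (fun z : ℂ => (t : ℂ) - z) (-1) z := (hasDerivAt_id z).const_sub _
      have h3 := (h2.pow 2).const_mul (-n : ℂ)
      refine h3.congr_deriv ?_
      push_cast
      ring
    exact (h1.cexp).mul_const _

theorem gauss_inversion (hf : Continuous f) (hM : ∀ t, ‖f t‖ ≤ M)
    (h : ∀ n : ℕ, 0 < n → ∫ t : ℝ, Complex.exp (-(n : ℝ) * (t : ℂ) ^ 2) * f t = 0) :
    f 0 = 0 := by
  have h1 : ∀ n : ℕ, ∫ s : ℝ, Complex.exp (-(1 : ℝ) * (s : ℂ) ^ 2) *
      f ((Real.sqrt ((n : ℝ) + 1))⁻¹ * s) = 0 := by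
    intro n
    have hn : 0 < Real.sqrt ((n : ℝ) + 1) := Real.sqrt_pos.2 (by positivity)
    have h2 := Measure.integral_comp_mul_left
      (fun t : ℝ => Complex.exp (-((n + 1 : ℕ) : ℝ) * (t : ℂ) ^ 2) * f t)
      (Real.sqrt ((n : ℝ) + 1))⁻¹
    rw [h (n + 1) n.succ_pos, smul_zero] at h2
    rw [← h2]
    congr 1
    funext s
    congr 2
    have h3 : ((Real.sqrt ((n : ℝ) + 1) : ℝ) : ℂ) ^ 2 = (n : ℂ) + 1 := by
      rw [← Complex.ofReal_pow, Real.sq_sqrt (by positivity)]
      push_cast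
      ring
    have h4 : ((Real.sqrt ((n : ℝ) + 1) : ℝ) : ℂ) ≠ 0 := by
      exact_mod_cast hn.ne'
    push_cast
    rw [mul_pow, inv_pow, h3]
    have h5 : (n : ℂ) + 1 ≠ 0 := by
      rw [← h3]
      exact pow_ne_zero 2 h4
    field_simp
  have h2 : Filter.Tendsto (fun n : ℕ => ∫ s : ℝ, Complex.exp (-(1 : ℝ) * (s : ℂ) ^ 2) *
      f ((Real.sqrt ((n : ℝ) + 1))⁻¹ * s)) Filter.atTop
      (nhds (∫ s : ℝ, Complex.exp (-(1 : ℝ) * (s : ℂ) ^ 2) * f 0)) := by
    have hg : ∀ s : ℝ, ‖Complex.exp (-(1 : ℝ) * (s : ℂ) ^ 2)‖ = Real.exp (-1 * s ^ 2) := by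
      intro s
      have h3 := norm_gk 1 s 0
      rw [sub_zero] at h3
      rw [h3]
      simp
    refine tendsto_integral_of_dominated_convergence (fun s => Real.exp (-1 * s ^ 2) * M) ?_
      ((integrable_exp_neg_mul_sq one_pos).mul_const M) ?_ ?_
    · intro n
      exact ((by fun_prop : Continuous fun s : ℝ => Complex.exp (-(1 : ℝ) * (s : ℂ) ^ 2)).mul
        (hf.comp (by fun_prop))).aestronglyMeasurable
    · intro n
      refine Filter.Eventually.of_forall fun s => ?_
      rw [norm_mul, hg]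
      exact mul_le_mul_of_nonneg_left (hM _) (Real.exp_pos _).le
    · refine Filter.Eventually.of_forall fun s => ?_
      have h3 : Filter.Tendsto (fun n : ℕ => (Real.sqrt ((n : ℝ) + 1))⁻¹ * s) Filter.atTop
          (nhds 0) := by
        have h4 : Filter.Tendsto (fun n : ℕ => (Real.sqrt ((n : ℝ) + 1))⁻¹) Filter.atTop
            (nhds 0) :=
          tendsto_inv_atTop_zero.comp (Real.tendsto_sqrt_atTop.comp
            (Filter.tendsto_atTop_add_const_right _ _ tendsto_natCast_atTop_atTop))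
        have h5 := h4.mul_const s
        rwa [zero_mul] at h5
      exact ((hf.tendsto 0).comp h3).const_mul _
  have h3 : ∫ s : ℝ, Complex.exp (-(1 : ℝ) * (s : ℂ) ^ 2) * f 0 = 0 := by
    refine tendsto_nhds_unique h2 ?_
    simp only [h1]
    exact tendsto_const_nhds
  rw [integral_mul_const] at h3
  rcases mul_eq_zero.1 h3 with h4 | h4
  · exfalso
    have h5 : ∫ s : ℝ, Complex.exp (-(1 : ℝ) * (s : ℂ) ^ 2) =
        ((∫ s : ℝ, Real.exp (-1 * s ^ 2) : ℝ) : ℂ) := by
      rw [← integral_complex_ofReal]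
      congr 1
      funext s
      push_cast
      rfl
    rw [h5, integral_gaussian] at h4
    have h6 : Real.sqrt (Real.pi / 1) = 0 := by exact_mod_cast h4
    rw [div_one, Real.sqrt_eq_zero Real.pi_pos.le] at h6
    exact Real.pi_ne_zero h6
  · exact h4

end Pool.Agent.VNQ
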