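import Pool.Agent.VNQ.UGr

/-!
# The antiunitary involution of the polar decomposition

`R = (A (1 - A))^{1/2} = F (√(s (1 - s)))`, and `J` with `J (R x) = C x`.

* `exists_J`: `‖C x‖² = ⟪C x, C x⟫ = ⟪C (C x), x⟫ = ⟪A (1 - A) x, x⟫ = ⟪R R x, x⟫ = ‖R x‖²`
  (`C_symm`, `F_mul`, `F_symm`). The range of `R` is dense: `R` is self-adjoint and injective
  (`R x = 0` ⟹ `A (1 - A) x = R (R x) = 0` ⟹ `x = 0` by `A_inj`, `A_inj'`), as in `dense_range_A`.
  So
  `R x ↦ C x` extends to an isometric conjugate linear map `J` (additive, isometric, conjugate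
  linear on a dense subspace; completeness of `E`). [For instance define `J y` as the limit of
  `C x_k` for `R x_k → y`; or use `DenseRange`/`IsDenseInducing.extend` and check the algebraic
  identities by density; or apply `LinearMap.extend` type results to the conjugate space or to the
  real linear structure.]
* `R_J`: `R (J x) = C x`: on the dense range of `R`: `R (J (R x)) = R (C x) = C (R x)` (`C_F`,
  `√(s(1-s))` is symmetric).
* `J_J`: `J (J x) = x`: for `x = R (R y)`: `J (R (R y)) = C (R y) = R (C y)`, `J (R (C y)) = C (C y)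
  = A (1 - A) y = R (R y)`. The range of `R ∘ R` is dense.
* `J_inner`: `⟪J x, J y⟫ = ⟪y, x⟫`: for `x = R a`, `y = R b`: `⟪C a, C b⟫ = ⟪C (C b), a⟫
  = ⟪R (R b), a⟫ = ⟪R b, R a⟫`; density.
* `J_A`: `J (A x) = J x - A (J x)`: for `x = R y`: `J (A (R y)) = J (R (A y)) = C (A y)
  = C y - A (C y) = J (R y) - A (J (R y))`.
-/

set_option autoImplicit false

noncomputable section

open scoped InnerProductSpace InnerProduct
open Filter

namespace Pool.Agent.VNQ

universe u

variable {E : Type u} [NormedAddCommGroup E] [InnerProductSpace ℂ E] [CompleteSpace E]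

namespace MD

variable (md : MD E)

/-- `(A (1 - A))^{1/2}` -/
def R : E →L[ℂ] E := md.F fun s => √(s * (1 - s))

private theorem cont_R : ContinuousOn (fun s : ℝ => √(s * (1 - s))) (Set.Icc 0 1) := by
  fun_prop

private theorem R_R (x : E) : md.R (md.R x) = md.A (x - md.A x) := by
  have h1 : md.F (fun s => √(s * (1 - s)) * √(s * (1 - s))) = md.R ∘L md.R :=
    md.F_mul cont_R cont_R
  have h2 : md.F (fun s => √(s * (1 - s)) * √(s * (1 - s))) = md.F (fun s => s * (1 - s)) := by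
    refine md.F_congr fun s hs => ?_
    exact Real.mul_self_sqrt (mul_nonneg hs.1 (sub_nonneg.2 hs.2))
  have h3 : md.F (fun s => s * (1 - s)) = md.F (fun s => s) ∘L md.F (fun s => 1 - s) :=
    md.F_mul (by fun_prop) (by fun_prop)
  rw [md.F_id, md.F_one_sub] at h3
  have h4 := congrArg (fun T : E →L[ℂ] E => T x) ((h1.symm.trans h2).trans h3)
  simpa using h4

private theorem R_symm (x y : E) : ⟪md.R x, y⟫_ℂ = ⟪x, md.R y⟫_ℂ := md.F_symm _ x y

private theorem R_inj (x : E) (h : md.R x = 0) : x = 0 := by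
  have h1 := md.R_R x
  rw [h, map_zero] at h1
  have h2 := md.A_inj _ h1.symm
  exact md.A_inj' x (sub_eq_zero.1 h2).symm

private theorem dense_range_R : DenseRange md.R := by
  have h1 : (LinearMap.range (md.R : E →ₗ[ℂ] E)).topologicalClosure = ⊤ := by
    rw [Submodule.topologicalClosure_eq_top_iff, eq_bot_iff]
    intro x hx
    rw [Submodule.mem_orthogonal] at hx
    have h2 : md.R x = 0 := by
      refine ext_inner_left ℂ fun y => ?_
      rw [inner_zero_right, ← md.R_symm]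
      exact hx _ ⟨y, rfl⟩
    exact md.R_inj x h2
  exact (Submodule.dense_iff_topologicalClosure_eq_top).2 h1

private theorem C_C_inner (x y : E) : ⟪md.C x, md.C y⟫_ℂ = ⟪md.R y, md.R x⟫_ℂ := by
  rw [md.C_symm, md.CC, ← md.R_R, md.R_symm]

private theorem norm_C_eq (x : E) : ‖md.C x‖ = ‖md.R x‖ := by
  have h1 := md.C_C_inner x x
  rw [inner_self_eq_norm_sq_to_K, inner_self_eq_norm_sq_to_K] at h1
  have h2 : ‖md.C x‖ ^ 2 = ‖md.R x‖ ^ 2 := by exact_mod_cast h1
  exact (sq_eq_sq₀ (norm_nonneg _) (norm_nonneg _)).1 h2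

theorem exists_J : ∃ J : E →L⋆[ℂ] E, (∀ x, J (md.R x) = md.C x) ∧ ∀ x, ‖J x‖ = ‖x‖ := by
  have hn : ∀ x, ‖(md.C : E →ₛₗ[starRingEnd ℂ] E) x‖ ≤ 1 * ‖(md.R : E →ₗ[ℂ] E) x‖ := fun x => by
    rw [one_mul]
    exact (md.norm_C_eq x).le
  have hJ : ∀ x, LinearMap.extendOfNorm (md.C : E →ₛₗ[starRingEnd ℂ] E) (md.R : E →ₗ[ℂ] E)
      (md.R x) = md.C x := fun x =>
    LinearMap.extendOfNorm_eq (f := (md.C : E →ₛₗ[starRingEnd ℂ] E))
      (e := (md.R : E →ₗ[ℂ] E)) md.dense_range_R ⟨1, hn⟩ x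
  refine ⟨LinearMap.extendOfNorm (md.C : E →ₛₗ[starRingEnd ℂ] E) (md.R : E →ₗ[ℂ] E), hJ, ?_⟩
  refine md.dense_range_R.induction ?_ (isClosed_eq (by fun_prop) (by fun_prop))
  rintro _ ⟨x, rfl⟩
  rw [hJ, md.norm_C_eq]

/-- The antiunitary involution. -/
def J : E →L⋆[ℂ] E := Classical.choose md.exists_J

theorem J_R (x : E) : md.J (md.R x) = md.C x := (Classical.choose_spec md.exists_J).1 x

theorem norm_J (x : E) : ‖md.J x‖ = ‖x‖ := (Classical.choose_spec md.exists_J).2 x

private theorem R_C (x : E) : md.R (md.C x) = md.C (md.R x) := by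
  have h1 : md.C (md.R x) = md.F (fun s => √((1 - s) * (1 - (1 - s)))) (md.C x) :=
    md.C_F cont_R x
  have h2 : (fun s : ℝ => √((1 - s) * (1 - (1 - s)))) = fun s => √(s * (1 - s)) := by
    funext s
    congr 1
    ring
  rw [h1, h2]
  rfl

theorem R_J (x : E) : md.R (md.J x) = md.C x := by
  refine md.dense_range_R.induction_on (p := fun x => md.R (md.J x) = md.C x) x
    (isClosed_eq (by fun_prop) (by fun_prop)) fun x => ?_
  rw [md.J_R, md.R_C]

theorem J_J (x : E) : md.J (md.J x) = x := by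
  refine (md.dense_range_R.comp md.dense_range_R md.R.continuous).induction_on
    (p := fun x => md.J (md.J x) = x) x (isClosed_eq (by fun_prop) (by fun_prop)) fun x => ?_
  show md.J (md.J (md.R (md.R x))) = md.R (md.R x)
  rw [md.J_R, ← md.R_C, md.J_R, md.CC, md.R_R]

theorem J_inner (x y : E) : ⟪md.J x, md.J y⟫_ℂ = ⟪y, x⟫_ℂ := by
  refine md.dense_range_R.induction_on (p := fun x => ⟪md.J x, md.J y⟫_ℂ = ⟪y, x⟫_ℂ) x
    (isClosed_eq (by fun_prop) (by fun_prop)) fun a => ?_
  refine md.dense_range_R.induction_on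
    (p := fun y => ⟪md.J (md.R a), md.J y⟫_ℂ = ⟪y, md.R a⟫_ℂ) y
    (isClosed_eq (by fun_prop) (by fun_prop)) fun b => ?_
  rw [md.J_R, md.J_R, md.C_C_inner]

theorem J_A (x : E) : md.J (md.A x) = md.J x - md.A (md.J x) := by
  refine md.dense_range_R.induction_on
    (p := fun x => md.J (md.A x) = md.J x - md.A (md.J x)) x
    (isClosed_eq (by fun_prop) (by fun_prop)) fun y => ?_
  have h1 : md.A (md.R y) = md.R (md.A y) := md.F_comm _ md.A (fun _ => rfl) y
  rw [h1, md.J_R, md.J_R, md.CA]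

theorem J_U' (t : ℝ) (x : E) : md.J (md.U t x) = md.U t (md.J x) := md.J_U md.J md.J_A t x

end MD

end Pool.Agent.VNQ
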