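import Pool.Agent.VNQ.RepQ

/-!
# Transport of the invariance of the weights

`right_inv_K`: for `0 ≤ y ∈ π(M)`, `m = inv y`, `ψ(m) < ∞`, `η ∈ K`:
`ψ (inv (sliceR η η (Δ(m)_K))) = ‖η‖² ψ(m)`.

Proof. Let `ψ x = ∑' i, ofReal (re ⟪ζ_i, x ζ_i⟫)` for `0 ≤ x ∈ M` (`ψ_nsf.normal`). Put
`s_j = sliceR (Z_j η) (Z_j η) (Δ m)`; `s_j ∈ M` (`comm2_sliceR`), `s_j ≥ 0` (`0 ≤ m`: `inv_nonneg`;
`0 ≤ Δ m`: `Δ_nonneg`; `⟪z, s_j z⟫ = ⟪z ⊗ Z_j η, Δ(m) (z ⊗ Z_j η)⟫ ≥ 0`, self-adjoint by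
`adjoint_sliceR`). By `hasSum_sliceR_tr` `s = inv (sliceR η η (Δ(m)_K)) = ∑_j s_j` in norm, so
`⟪ζ_i, s ζ_i⟫ = ∑_j ⟪ζ_i, s_j ζ_i⟫` with terms `≥ 0`, `s ∈ M`, `s ≥ 0`, and
`ψ(s) = ∑' i, ∑' j, ofReal (re ⟪ζ_i, s_j ζ_i⟫) = ∑' j, ψ(s_j)` (`ENNReal.ofReal_tsum_of_nonneg`,
`ENNReal.tsum_comm`). By `Q.right_inv` `ψ(s_j) = ofReal (‖Z_j η‖²) ψ(m)`, and
`∑' j, ofReal (‖Z_j η‖²) = ofReal (‖η‖²)` (`norm_Z`; `ENNReal.tsum_mul_right`).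

`left_inv_K`: the same with `φ`, the left slices and `Q.left_inv`.
-/

set_option autoImplicit false

noncomputable section

open scoped TensorProduct InnerProductSpace InnerProduct ENNReal

namespace Pool.Agent.VNQ

universe u

variable {H K : Type u} [NormedAddCommGroup H] [InnerProductSpace ℂ H] [CompleteSpace H]
  [NormedAddCommGroup K] [InnerProductSpace ℂ K] [CompleteSpace K]

/-- A norm convergent sum of positive operators is positive. -/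
private theorem invk_nonneg {κ : Type*} {s : κ → H →L[ℂ] H} {t : H →L[ℂ] H} (hs : HasSum s t)
    (h0 : ∀ j, 0 ≤ s j) : 0 ≤ t := by
  rw [ContinuousLinearMap.nonneg_iff_isPositive, ContinuousLinearMap.isPositive_iff_complex]
  intro x
  have h1 : HasSum (fun j => ⟪s j x, x⟫_ℂ) ⟪t x, x⟫_ℂ := by
    have h2 : HasSum (fun j => s j x) (t x) :=
      (ContinuousLinearMap.apply ℂ H x).hasSum hs
    have h3 := (innerSL ℂ x).hasSum h2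
    have h4 := h3.mapL (Complex.conjCLE : ℂ →L[ℝ] ℂ)
    simpa using h4
  have hp : ∀ j, (RCLike.re ⟪s j x, x⟫_ℂ : ℂ) = ⟪s j x, x⟫_ℂ ∧ 0 ≤ RCLike.re ⟪s j x, x⟫_ℂ :=
    fun j => (ContinuousLinearMap.isPositive_iff_complex _).1
      ((ContinuousLinearMap.nonneg_iff_isPositive _).1 (h0 j)) x
  have h5 : HasSum (fun j => RCLike.re ⟪s j x, x⟫_ℂ) (RCLike.re ⟪t x, x⟫_ℂ) :=
    (Complex.reCLM).hasSum h1
  have h6 : HasSum (fun j => ((RCLike.re ⟪s j x, x⟫_ℂ : ℝ) : ℂ)) ((RCLike.re ⟪t x, x⟫_ℂ : ℝ) : ℂ) :=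
    (Complex.ofRealCLM).hasSum h5
  refine ⟨?_, h5.nonneg fun j => (hp j).2⟩
  refine h6.unique ?_
  have h7 : (fun j => ((RCLike.re ⟪s j x, x⟫_ℂ : ℝ) : ℂ)) = fun j => ⟪s j x, x⟫_ℂ :=
    funext fun j => (hp j).1
  rw [h7]
  exact h1

/-- Normality for norm convergent sums. -/
private theorem invk_sum {M : VonNeumannAlgebra H} {w : (H →L[ℂ] H) → ℝ≥0∞} {ι : Type u}
    {ζ : ι → H} (hw : ∀ x ∈ M, 0 ≤ x → w x = ∑' i, ENNReal.ofReal (RCLike.re ⟪ζ i, x (ζ i)⟫_ℂ))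
    {κ : Type*} {s : κ → H →L[ℂ] H} {t : H →L[ℂ] H} (hs : HasSum s t) (h0 : ∀ j, 0 ≤ s j)
    (hM : ∀ j, s j ∈ M) (ht : t ∈ M) : w t = ∑' j, w (s j) := by
  have h1 : ∀ i, HasSum (fun j => RCLike.re ⟪ζ i, s j (ζ i)⟫_ℂ) (RCLike.re ⟪ζ i, t (ζ i)⟫_ℂ) := by
    intro i
    have h2 : HasSum (fun j => s j (ζ i)) (t (ζ i)) :=
      (ContinuousLinearMap.apply ℂ H (ζ i)).hasSum hs
    have h3 : HasSum (fun j => ⟪ζ i, s j (ζ i)⟫_ℂ) ⟪ζ i, t (ζ i)⟫_ℂ := (innerSL ℂ (ζ i)).hasSum h2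
    exact (Complex.reCLM).hasSum h3
  have h2 : ∀ i j, 0 ≤ RCLike.re ⟪ζ i, s j (ζ i)⟫_ℂ := fun i j =>
    ((ContinuousLinearMap.nonneg_iff_isPositive _).1 (h0 j)).re_inner_nonneg_right (ζ i)
  rw [hw t ht (invk_nonneg hs h0)]
  have h3 : ∀ i, ENNReal.ofReal (RCLike.re ⟪ζ i, t (ζ i)⟫_ℂ) =
      ∑' j, ENNReal.ofReal (RCLike.re ⟪ζ i, s j (ζ i)⟫_ℂ) := by
    intro i
    rw [← (h1 i).tsum_eq]
    exact ENNReal.ofReal_tsum_of_nonneg (h2 i) (h1 i).summable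
  simp only [h3]
  rw [ENNReal.tsum_comm]
  exact tsum_congr fun j => (hw (s j) (hM j) (h0 j)).symm

private theorem invk_Z {M : VonNeumannAlgebra H} (R : Rep M K) (η : K) (c : ℝ≥0∞) :
    ∑' j, ENNReal.ofReal (‖R.Z j η‖ ^ 2) * c = ENNReal.ofReal (‖η‖ ^ 2) * c := by
  rw [ENNReal.tsum_mul_right, ← (R.norm_Z η).tsum_eq,
    ENNReal.ofReal_tsum_of_nonneg (fun j => sq_nonneg _) (R.norm_Z η).summable]

namespace VNQGroup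

variable (Q : VNQGroup H K) (R : Rep Q.M K)

theorem right_inv_K {y : K →L[ℂ] K} (hy : y ∈ R.vn) (h0 : 0 ≤ y) (hf : Q.ψ (R.inv y) < ∞)
    (η : K) : Q.ψ (R.inv (sliceR η η (R.tr (Q.Δ (R.inv y))))) =
      ENNReal.ofReal (‖η‖ ^ 2) * Q.ψ (R.inv y) := by
  have hm := R.inv_mem hy
  have hm0 : 0 ≤ R.inv y := (R.inv_nonneg hy).2 h0
  have hX := Q.Δ_comm2 hm
  obtain ⟨ι, ζ, hw⟩ := Q.ψ_nsf.normal
  rw [invk_sum hw (R.hasSum_sliceR_tr hX η η) (fun j => ?_) (fun j => comm2_sliceR hX _ _)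
    (R.inv_mem (comm2_sliceR (R.tr_comm2 hX) _ _)), ← invk_Z R η]
  · exact tsum_congr fun j => Q.right_inv _ hm hm0 hf _
  · exact (ContinuousLinearMap.nonneg_iff_isPositive _).2
      (((ContinuousLinearMap.nonneg_iff_isPositive _).1 (Q.Δ_nonneg hm hm0)).adjoint_conj
        (rT (R.Z j η)))

theorem left_inv_K {y : K →L[ℂ] K} (hy : y ∈ R.vn) (h0 : 0 ≤ y) (hf : Q.φ (R.inv y) < ∞)
    (ξ : K) : Q.φ (R.inv (sliceL ξ ξ (R.tr (Q.Δ (R.inv y))))) =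
      ENNReal.ofReal (‖ξ‖ ^ 2) * Q.φ (R.inv y) := by
  have hm := R.inv_mem hy
  have hm0 : 0 ≤ R.inv y := (R.inv_nonneg hy).2 h0
  have hX := Q.Δ_comm2 hm
  obtain ⟨ι, ζ, hw⟩ := Q.φ_nsf.normal
  rw [invk_sum hw (R.hasSum_sliceL_tr hX ξ ξ) (fun j => ?_) (fun j => comm2_sliceL hX _ _)
    (R.inv_mem (comm2_sliceL (R.tr_comm2 hX) _ _)), ← invk_Z R ξ]
  · exact tsum_congr fun j => Q.left_inv _ hm hm0 hf _
  · exact (ContinuousLinearMap.nonneg_iff_isPositive _).2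
      (((ContinuousLinearMap.nonneg_iff_isPositive _).1 (Q.Δ_nonneg hm hm0)).adjoint_conj
        (lT (R.Z j ξ)))

end VNQGroup

end Pool.Agent.VNQ
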