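import Pool.Agent.VNQ.Pars

/-!
# Amplification of isometric families

Let `T_i : H → H'` with `∑ ‖T_i g‖² = ‖g‖²` for all `g`. Then `∑ ‖(T_i ⊗ 1) θ‖² = ‖θ‖²` and
`∑ ⟪(T_i ⊗ 1) θ, (T_i ⊗ 1) θ'⟫ = ⟪θ, θ'⟫`; the same on the other side.

Proof of `hasSum_mapT_left`. Choose a Hilbert basis `f` of `K`
(`exists_hilbertBasis ℂ K : ∃ w b, ⇑b = ...`). By `hasSum_sq_right`,
`‖(T_i ⊗ 1) θ‖² = ∑_l ‖R_{f_l}† (T_i ⊗ 1) θ‖² = ∑_l ‖T_i (R_{f_l}† θ)‖²` (`rT_adjoint_mapT`) and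
`‖θ‖² = ∑_l ‖R_{f_l}† θ‖² = ∑_l ∑_i ‖T_i (R_{f_l}† θ)‖²`. All terms are nonnegative, so the
summation order can be exchanged (for instance: work with `ENNReal.ofReal` or `NNReal`,
`ENNReal.tsum_comm`; or `HasSum.prod_fiberwise`/`summable_prod_of_nonneg`: the double family
`(l, i) ↦ ‖T_i (R_{f_l}† θ)‖²` is summable with sum `‖θ‖²`, then swap).
`hasSum_inner_mapT_left`: `hasSum_inner_of_norm` (file `Polar`) with `W = id`.
`ext_mapT_left`: if `(T_i ⊗ 1) θ = (T_i ⊗ 1) θ'` for all `i` then `‖θ - θ'‖² = ∑ 0 = 0`.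
The right versions use `hasSum_sq_left` and `lT_adjoint_mapT`.
-/

set_option autoImplicit false

noncomputable section

open scoped TensorProduct InnerProductSpace InnerProduct

namespace Pool.Agent.VNQ

universe u

variable {H K H' K' : Type u} [NormedAddCommGroup H] [InnerProductSpace ℂ H] [CompleteSpace H]
  [NormedAddCommGroup K] [InnerProductSpace ℂ K] [CompleteSpace K]
  [NormedAddCommGroup H'] [InnerProductSpace ℂ H'] [CompleteSpace H']
  [NormedAddCommGroup K'] [InnerProductSpace ℂ K'] [CompleteSpace K']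

private theorem hasSum_swap {κ ι : Type*} {F : κ → ι → ℝ} (hF : ∀ k i, 0 ≤ F k i) {a : κ → ℝ}
    {b : ι → ℝ} {A : ℝ} (h1 : ∀ k, HasSum (F k) (a k)) (h2 : HasSum a A)
    (h3 : ∀ i, HasSum (fun k => F k i) (b i)) : HasSum b A := by
  have hs : Summable (fun p : κ × ι => F p.1 p.2) := by
    refine (summable_prod_of_nonneg (fun p => hF p.1 p.2)).mpr ⟨fun k => (h1 k).summable, ?_⟩
    have : (fun k => ∑' i, F k i) = a := funext fun k => (h1 k).tsum_eq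
    rw [show (fun x => ∑' y, F (x, y).1 (x, y).2) = a from this]
    exact h2.summable
  obtain ⟨S, hS⟩ := hs
  have h4 := hS.prod_fiberwise (g := a) fun k => h1 k
  have h5 : S = A := h4.unique h2
  rw [h5] at hS
  have h6 : HasSum (fun p : ι × κ => F p.2 p.1) A :=
    (Equiv.prodComm ι κ).hasSum_iff.mpr hS
  exact h6.prod_fiberwise (g := b) fun i => h3 i

theorem hasSum_mapT_left {ι : Type*} (T : ι → H →L[ℂ] H')
    (hT : ∀ g, HasSum (fun i => ‖T i g‖ ^ 2) (‖g‖ ^ 2)) (θ : HTen H K) :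
    HasSum (fun i => ‖mapT (T i) (ContinuousLinearMap.id ℂ K) θ‖ ^ 2) (‖θ‖ ^ 2) := by
  obtain ⟨w, f, -⟩ := exists_hilbertBasis ℂ K
  refine hasSum_swap (F := fun k i => ‖T i (((rT (f k) : H →L[ℂ] HTen H K)†) θ)‖ ^ 2)
    (fun k i => by positivity) (fun k => hT _) (hasSum_sq_right f θ) (fun i => ?_)
  have h1 := hasSum_sq_right f (mapT (T i) (ContinuousLinearMap.id ℂ K) θ)
  have e : ∀ k, ((rT (f k))†) (mapT (T i) (ContinuousLinearMap.id ℂ K) θ) =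
      T i (((rT (f k) : H →L[ℂ] HTen H K)†) θ) := by
    intro k
    have h2 := congrArg (fun A : HTen H K →L[ℂ] H' => A θ)
      (rT_adjoint_mapT (T i) (ContinuousLinearMap.id ℂ K) (f k))
    simpa only [ContinuousLinearMap.comp_apply, ContinuousLinearMap.adjoint_id,
      ContinuousLinearMap.id_apply] using h2
  simpa only [e] using h1

theorem hasSum_inner_mapT_left {ι : Type*} (T : ι → H →L[ℂ] H')
    (hT : ∀ g, HasSum (fun i => ‖T i g‖ ^ 2) (‖g‖ ^ 2)) (θ θ' : HTen H K) :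
    HasSum (fun i => ⟪mapT (T i) (ContinuousLinearMap.id ℂ K) θ,
      mapT (T i) (ContinuousLinearMap.id ℂ K) θ'⟫_ℂ) ⟪θ, θ'⟫_ℂ := by
  have h := hasSum_inner_of_norm
    (fun i => ((mapT (T i) (ContinuousLinearMap.id ℂ K) : HTen H K →L[ℂ] HTen H' K) :
      HTen H K →ₗ[ℂ] HTen H' K)) (LinearMap.id : HTen H K →ₗ[ℂ] HTen H K)
    (fun g => hasSum_mapT_left T hT g) θ θ'
  exact h

theorem ext_mapT_left {ι : Type*} (T : ι → H →L[ℂ] H')
    (hT : ∀ g, HasSum (fun i => ‖T i g‖ ^ 2) (‖g‖ ^ 2)) {θ θ' : HTen H K}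
    (h : ∀ i, mapT (T i) (ContinuousLinearMap.id ℂ K) θ =
      mapT (T i) (ContinuousLinearMap.id ℂ K) θ') : θ = θ' := by
  have h1 := hasSum_mapT_left T hT (θ - θ')
  have h2 : (fun i => ‖mapT (T i) (ContinuousLinearMap.id ℂ K) (θ - θ')‖ ^ 2) = fun _ => 0 := by
    funext i
    rw [map_sub, h i, sub_self, norm_zero]
    norm_num
  rw [h2] at h1
  have h3 : ‖θ - θ'‖ ^ 2 = 0 := h1.unique hasSum_zero
  have h4 : ‖θ - θ'‖ = 0 := by simpa using h3
  exact sub_eq_zero.mp (norm_eq_zero.mp h4)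

theorem hasSum_mapT_right {ι : Type*} (T : ι → K →L[ℂ] K')
    (hT : ∀ g, HasSum (fun i => ‖T i g‖ ^ 2) (‖g‖ ^ 2)) (θ : HTen H K) :
    HasSum (fun i => ‖mapT (ContinuousLinearMap.id ℂ H) (T i) θ‖ ^ 2) (‖θ‖ ^ 2) := by
  obtain ⟨w, f, -⟩ := exists_hilbertBasis ℂ H
  refine hasSum_swap (F := fun k i => ‖T i (((lT (f k) : K →L[ℂ] HTen H K)†) θ)‖ ^ 2)
    (fun k i => by positivity) (fun k => hT _) (hasSum_sq_left f θ) (fun i => ?_)
  have h1 := hasSum_sq_left f (mapT (ContinuousLinearMap.id ℂ H) (T i) θ)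
  have e : ∀ k, ((lT (f k))†) (mapT (ContinuousLinearMap.id ℂ H) (T i) θ) =
      T i (((lT (f k) : K →L[ℂ] HTen H K)†) θ) := by
    intro k
    have h2 := congrArg (fun A : HTen H K →L[ℂ] K' => A θ)
      (lT_adjoint_mapT (ContinuousLinearMap.id ℂ H) (T i) (f k))
    simpa only [ContinuousLinearMap.comp_apply, ContinuousLinearMap.adjoint_id,
      ContinuousLinearMap.id_apply] using h2
  simpa only [e] using h1

theorem hasSum_inner_mapT_right {ι : Type*} (T : ι → K →L[ℂ] K')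
    (hT : ∀ g, HasSum (fun i => ‖T i g‖ ^ 2) (‖g‖ ^ 2)) (θ θ' : HTen H K) :
    HasSum (fun i => ⟪mapT (ContinuousLinearMap.id ℂ H) (T i) θ,
      mapT (ContinuousLinearMap.id ℂ H) (T i) θ'⟫_ℂ) ⟪θ, θ'⟫_ℂ := by
  have h := hasSum_inner_of_norm
    (fun i => ((mapT (ContinuousLinearMap.id ℂ H) (T i) : HTen H K →L[ℂ] HTen H K') :
      HTen H K →ₗ[ℂ] HTen H K')) (LinearMap.id : HTen H K →ₗ[ℂ] HTen H K)
    (fun g => hasSum_mapT_right T hT g) θ θ'
  exact h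

theorem ext_mapT_right {ι : Type*} (T : ι → K →L[ℂ] K')
    (hT : ∀ g, HasSum (fun i => ‖T i g‖ ^ 2) (‖g‖ ^ 2)) {θ θ' : HTen H K}
    (h : ∀ i, mapT (ContinuousLinearMap.id ℂ H) (T i) θ =
      mapT (ContinuousLinearMap.id ℂ H) (T i) θ') : θ = θ' := by
  have h1 := hasSum_mapT_right T hT (θ - θ')
  have h2 : (fun i => ‖mapT (ContinuousLinearMap.id ℂ H) (T i) (θ - θ')‖ ^ 2) = fun _ => 0 := by
    funext i
    rw [map_sub, h i, sub_self, norm_zero]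
    norm_num
  rw [h2] at h1
  have h3 : ‖θ - θ'‖ ^ 2 = 0 := h1.unique hasSum_zero
  have h4 : ‖θ - θ'‖ = 0 := by simpa using h3
  exact sub_eq_zero.mp (norm_eq_zero.mp h4)

end Pool.Agent.VNQ
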