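import Pool.Agent.VNQ.Pairs

/-!
# Basic properties of the relation `KR`

* `KR_smul`: from families `p_j, q_j` for `(ξ, ξ₁)` (with `ε / (‖c‖ + 1)`) take `c p_j, q_j`:
  `Λ(c p_j) = c Λ(p_j)` (`Λ_smul`, `smul_mem`), `Λtmul (q_j) ((c p_j)† η) = c̄ (Λtmul (q_j) (p_j†
  η))`.
* `KR_add`: concatenate the families (`Fin.append`, `Fin.sum_univ_add`, or reindex), with `ε/2`.
* `KR_closed`: `{(ξ, ξ₁) : KR ξ ξ₁}` is closed: `‖tmul ξ η_k - tmul ξ' η_k‖ = ‖ξ - ξ'‖ ‖η_k‖`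
  (`isClosed_of_closure_subset`, `Metric.mem_closure_iff`).
* `KR_of_hasSum`: if `p_k, q_k ∈ N_ψ` (`k ∈ κ`, any index type) with
  `∑_k V (Λtmul (p_k) (q_k† η)) = tmul ξ η` and `∑_k V (Λtmul (q_k) (p_k† η)) = tmul ξ₁ η`
  (unconditional sums) for
  all `η ∈ H` then `KR ξ ξ₁`: for the finitely many `η_k` choose a finite set of
  indices good for all (`HasSum` is convergence along the finite sets; `map_sum` for `V`), and
  reindex it by `Fin m` (`Finset.equivFin`).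
-/

set_option autoImplicit false

noncomputable section

open scoped TensorProduct InnerProductSpace InnerProduct ENNReal
open Filter

namespace Pool.Agent.VNQ

universe u

variable {H G : Type u} [NormedAddCommGroup H] [InnerProductSpace ℂ H] [CompleteSpace H]
  [NormedAddCommGroup G] [InnerProductSpace ℂ G] [CompleteSpace G]

namespace QG

variable (Q : QG H G)

private theorem kb_reindex {ι : Type*} [Fintype ι] (p q : ι → H →L[ℂ] H)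
    (hp : ∀ j, p j ∈ Q.ψ.N) (hq : ∀ j, q j ∈ Q.ψ.N) :
    ∃ (m : ℕ) (p' q' : Fin m → H →L[ℂ] H), (∀ j, p' j ∈ Q.ψ.N) ∧ (∀ j, q' j ∈ Q.ψ.N) ∧
      ∀ η : H, ∑ j, tmul (Q.ψ.Λ (p' j)) (((q' j)†) η) = ∑ j, tmul (Q.ψ.Λ (p j)) (((q j)†) η) ∧
        ∑ j, tmul (Q.ψ.Λ (q' j)) (((p' j)†) η) = ∑ j, tmul (Q.ψ.Λ (q j)) (((p j)†) η) := by
  let e := Fintype.equivFin ι
  refine ⟨Fintype.card ι, fun j => p (e.symm j), fun j => q (e.symm j), fun j => hp _,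
    fun j => hq _, fun η => ⟨?_, ?_⟩⟩
  · exact e.symm.sum_comp fun j => tmul (Q.ψ.Λ (p j)) (((q j)†) η)
  · exact e.symm.sum_comp fun j => tmul (Q.ψ.Λ (q j)) (((p j)†) η)

theorem KR_smul {ξ ξ₁ : H} (h : Q.KR ξ ξ₁) (c : ℂ) : Q.KR (c • ξ) ((starRingEnd ℂ) c • ξ₁) := by
  intro ε hε n η
  have hc : 0 < ‖c‖ + 1 := by positivity
  obtain ⟨m, p, q, hp, hq, hk⟩ := h (ε / (‖c‖ + 1)) (by positivity) n η
  have key : ∀ (d : ℂ) (θ : HTen H H), ‖d‖ = ‖c‖ → ‖θ‖ < ε / (‖c‖ + 1) → ‖d • θ‖ < ε := by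
    intro d θ hd hθ
    rw [norm_smul, hd]
    have h1 : ‖c‖ * ‖θ‖ ≤ ‖c‖ * (ε / (‖c‖ + 1)) :=
      mul_le_mul_of_nonneg_left hθ.le (norm_nonneg _)
    have h2 : ‖c‖ * (ε / (‖c‖ + 1)) < ε := by
      rw [mul_div_assoc', div_lt_iff₀ hc]
      nlinarith [norm_nonneg c]
    exact h1.trans_lt h2
  refine ⟨m, fun j => c • p j, q, fun j => Q.ψ.smul_mem c (hp j), hq, fun k => ⟨?_, ?_⟩⟩
  · have h1 : tmul (c • ξ) (η k) - Q.V (∑ j, tmul (Q.ψ.Λ (c • p j)) (((q j)†) (η k))) =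
        c • (tmul ξ (η k) - Q.V (∑ j, tmul (Q.ψ.Λ (p j)) (((q j)†) (η k)))) := by
      rw [smul_sub, ← map_smul, Finset.smul_sum, smul_tmul]
      congr 3
      funext j
      rw [Q.ψ.Λ_smul c (p j) (hp j), smul_tmul]
    rw [h1]
    exact key c _ rfl (hk k).1
  · have h1 : tmul ((starRingEnd ℂ) c • ξ₁) (η k) -
        Q.V (∑ j, tmul (Q.ψ.Λ (q j)) (((c • p j)†) (η k))) =
        (starRingEnd ℂ) c • (tmul ξ₁ (η k) - Q.V (∑ j, tmul (Q.ψ.Λ (q j)) (((p j)†) (η k)))) := by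
      rw [smul_sub, ← map_smul, Finset.smul_sum, smul_tmul]
      congr 3
      funext j
      rw [map_smulₛₗ, smul_apply, tmul_smul]
    rw [h1]
    exact key _ _ (RCLike.norm_conj c) (hk k).2

theorem KR_add {ξ ξ₁ η η₁ : H} (h : Q.KR ξ ξ₁) (h' : Q.KR η η₁) : Q.KR (ξ + η) (ξ₁ + η₁) := by
  intro ε hε n ζ
  obtain ⟨m, p, q, hp, hq, hk⟩ := h (ε / 2) (by positivity) n ζ
  obtain ⟨m', p', q', hp', hq', hk'⟩ := h' (ε / 2) (by positivity) n ζ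
  obtain ⟨M, P, R, hP, hR, hPR⟩ := Q.kb_reindex (Sum.elim p p') (Sum.elim q q')
    (by rintro (j | j); exacts [hp j, hp' j]) (by rintro (j | j); exacts [hq j, hq' j])
  refine ⟨M, P, R, hP, hR, fun k => ⟨?_, ?_⟩⟩
  · rw [(hPR (ζ k)).1, Fintype.sum_sum_type]
    simp only [Sum.elim_inl, Sum.elim_inr]
    rw [map_add, add_tmul, add_sub_add_comm]
    exact (norm_add_le _ _).trans_lt (by linarith [(hk k).1, (hk' k).1])
  · rw [(hPR (ζ k)).2, Fintype.sum_sum_type]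
    simp only [Sum.elim_inl, Sum.elim_inr]
    rw [map_add, add_tmul, add_sub_add_comm]
    exact (norm_add_le _ _).trans_lt (by linarith [(hk k).2, (hk' k).2])

theorem KR_closed : IsClosed {p : H × H | Q.KR p.1 p.2} := by
  refine isClosed_of_closure_subset ?_
  rintro ⟨ξ, ξ₁⟩ h
  rw [Metric.mem_closure_iff] at h
  intro ε hε n η
  have hS : 0 < ∑ k, ‖η k‖ + 1 := by positivity
  obtain ⟨⟨ξ', ξ₁'⟩, hK, hd⟩ := h (ε / 2 / (∑ k, ‖η k‖ + 1)) (by positivity)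
  rw [Prod.dist_eq, max_lt_iff] at hd
  simp only [dist_eq_norm] at hd
  obtain ⟨m, p, q, hp, hq, hk⟩ := hK (ε / 2) (by positivity) n η
  have key : ∀ (a a' : H) (θ : HTen H H) (k : Fin n), ‖a - a'‖ < ε / 2 / (∑ k, ‖η k‖ + 1) →
      ‖tmul a' (η k) - θ‖ < ε / 2 → ‖tmul a (η k) - θ‖ < ε := by
    intro a a' θ k h1 h2
    have h3 : tmul a (η k) - θ = tmul (a - a') (η k) + (tmul a' (η k) - θ) := by
      rw [sub_tmul]
      abel
    rw [h3]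
    refine (norm_add_le _ _).trans_lt ?_
    rw [norm_tmul]
    have h4 : ‖η k‖ ≤ ∑ k, ‖η k‖ + 1 := by
      have := Finset.single_le_sum (f := fun k => ‖η k‖) (fun k _ => norm_nonneg _)
        (Finset.mem_univ k)
      linarith
    have h5 : ‖a - a'‖ * ‖η k‖ ≤ ε / 2 / (∑ k, ‖η k‖ + 1) * (∑ k, ‖η k‖ + 1) :=
      mul_le_mul h1.le h4 (norm_nonneg _) (by positivity)
    rw [div_mul_cancel₀ _ hS.ne'] at h5
    linarith
  exact ⟨m, p, q, hp, hq, fun k => ⟨key _ _ _ k hd.1 (hk k).1, key _ _ _ k hd.2 (hk k).2⟩⟩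

theorem KR_of_hasSum {κ : Type*} (p q : κ → H →L[ℂ] H) (hp : ∀ k, p k ∈ Q.ψ.N)
    (hq : ∀ k, q k ∈ Q.ψ.N) (ξ ξ₁ : H)
    (h : ∀ η, HasSum (fun k => Q.V (tmul (Q.ψ.Λ (p k)) (((q k)†) η))) (tmul ξ η))
    (h₁ : ∀ η, HasSum (fun k => Q.V (tmul (Q.ψ.Λ (q k)) (((p k)†) η))) (tmul ξ₁ η)) : Q.KR ξ ξ₁ := by
  classical
  intro ε hε n η
  have e1 : ∀ᶠ s in (atTop : Filter (Finset κ)), ∀ k : Fin n,
      ‖tmul ξ (η k) - ∑ j ∈ s, Q.V (tmul (Q.ψ.Λ (p j)) (((q j)†) (η k)))‖ < ε ∧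
        ‖tmul ξ₁ (η k) - ∑ j ∈ s, Q.V (tmul (Q.ψ.Λ (q j)) (((p j)†) (η k)))‖ < ε := by
    rw [eventually_all]
    intro k
    have h2 := Metric.tendsto_nhds.1 (h (η k)) ε hε
    have h3 := Metric.tendsto_nhds.1 (h₁ (η k)) ε hε
    filter_upwards [h2, h3] with s hs hs'
    rw [dist_comm, dist_eq_norm] at hs hs'
    exact ⟨hs, hs'⟩
  obtain ⟨s, hs⟩ := e1.exists
  obtain ⟨m, P, R, hP, hR, hPR⟩ := Q.kb_reindex (fun j : s => p j) (fun j : s => q j)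
    (fun j => hp j) (fun j => hq j)
  refine ⟨m, P, R, hP, hR, fun k => ⟨?_, ?_⟩⟩
  · rw [(hPR (η k)).1, map_sum,
      Finset.sum_coe_sort s fun j => Q.V (tmul (Q.ψ.Λ (p j)) (((q j)†) (η k)))]
    exact (hs k).1
  · rw [(hPR (η k)).2, map_sum,
      Finset.sum_coe_sort s fun j => Q.V (tmul (Q.ψ.Λ (q j)) (((p j)†) (η k)))]
    exact (hs k).2

end QG

end Pool.Agent.VNQ
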