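import Mathlib

/-!
# The Hilbert space tensor product

`HTen H K` is the Hilbert space tensor product of two complex Hilbert spaces (the completion of the
algebraic tensor product), `tmul ξ η` the elementary tensors, `rT η : ξ ↦ tmul ξ η`, `lT ξ : η ↦
tmul ξ η`,
`mapT A B = A ⊗ B`.
-/

set_option autoImplicit false
set_option linter.unusedSectionVars false

noncomputable section

open scoped TensorProduct InnerProductSpace InnerProduct

namespace Pool.Agent.VNQ

universe u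

section Defs

variable (H K : Type u) [NormedAddCommGroup H] [InnerProductSpace ℂ H]
  [NormedAddCommGroup K] [InnerProductSpace ℂ K]

/-- The Hilbert space tensor product of `H` and `K`. -/
def HTen : Type u := UniformSpace.Completion (H ⊗[ℂ] K)

instance : NormedAddCommGroup (HTen H K) :=
  inferInstanceAs (NormedAddCommGroup (UniformSpace.Completion (H ⊗[ℂ] K)))

instance : InnerProductSpace ℂ (HTen H K) :=
  inferInstanceAs (InnerProductSpace ℂ (UniformSpace.Completion (H ⊗[ℂ] K)))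

instance : CompleteSpace (HTen H K) :=
  inferInstanceAs (CompleteSpace (UniformSpace.Completion (H ⊗[ℂ] K)))

/-- The embedding of the algebraic tensor product. -/
def toHTen : H ⊗[ℂ] K →L[ℂ] HTen H K :=
  (UniformSpace.Completion.toComplL : H ⊗[ℂ] K →L[ℂ] UniformSpace.Completion (H ⊗[ℂ] K))

end Defs

variable {H K H' K' H'' K'' F : Type u} [NormedAddCommGroup H] [InnerProductSpace ℂ H]
  [NormedAddCommGroup K] [InnerProductSpace ℂ K]
  [NormedAddCommGroup H'] [InnerProductSpace ℂ H'] [NormedAddCommGroup K'] [InnerProductSpace ℂ K']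
  [NormedAddCommGroup H''] [InnerProductSpace ℂ H'']
  [NormedAddCommGroup K''] [InnerProductSpace ℂ K'']

/-- The elementary tensor `ξ ⊗ η`. -/
def tmul (ξ : H) (η : K) : HTen H K := toHTen H K (ξ ⊗ₜ[ℂ] η)

theorem inner_toHTen (x y : H ⊗[ℂ] K) : ⟪toHTen H K x, toHTen H K y⟫_ℂ = ⟪x, y⟫_ℂ :=
  UniformSpace.Completion.inner_coe x y

theorem denseRange_toHTen : DenseRange (toHTen H K) :=
  UniformSpace.Completion.denseRange_coe

theorem isUniformInducing_toHTen : IsUniformInducing (toHTen H K) :=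
  UniformSpace.Completion.isUniformInducing_coe _

theorem norm_toHTen (x : H ⊗[ℂ] K) : ‖toHTen H K x‖ = ‖x‖ :=
  UniformSpace.Completion.norm_coe x

@[simp]
theorem inner_tmul (ξ ξ' : H) (η η' : K) :
    ⟪tmul ξ η, tmul ξ' η'⟫_ℂ = ⟪ξ, ξ'⟫_ℂ * ⟪η, η'⟫_ℂ := by
  rw [tmul, tmul, inner_toHTen, TensorProduct.inner_tmul]

@[simp]
theorem norm_tmul (ξ : H) (η : K) : ‖tmul ξ η‖ = ‖ξ‖ * ‖η‖ := by
  rw [tmul, norm_toHTen, TensorProduct.norm_tmul]

/-- `ξ ↦ ξ ⊗ η` -/
def rT (η : K) : H →L[ℂ] HTen H K := toHTen H K ∘L (TensorProduct.mkL ℂ H K).flip η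

/-- `η ↦ ξ ⊗ η` -/
def lT (ξ : H) : K →L[ℂ] HTen H K := toHTen H K ∘L TensorProduct.mkL ℂ H K ξ

@[simp] theorem rT_apply (η : K) (ξ : H) : rT η ξ = tmul ξ η := rfl

@[simp] theorem lT_apply (ξ : H) (η : K) : lT ξ η = tmul ξ η := rfl

theorem add_tmul (ξ ξ' : H) (η : K) : tmul (ξ + ξ') η = tmul ξ η + tmul ξ' η := (rT η).map_add ξ ξ'

theorem tmul_add (ξ : H) (η η' : K) : tmul ξ (η + η') = tmul ξ η + tmul ξ η' := (lT ξ).map_add η η'

theorem sub_tmul (ξ ξ' : H) (η : K) : tmul (ξ - ξ') η = tmul ξ η - tmul ξ' η := (rT η).map_sub ξ ξ'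

theorem tmul_sub (ξ : H) (η η' : K) : tmul ξ (η - η') = tmul ξ η - tmul ξ η' := (lT ξ).map_sub η η'

theorem smul_tmul (c : ℂ) (ξ : H) (η : K) : tmul (c • ξ) η = c • (tmul ξ η) := (rT η).map_smul c ξ

theorem tmul_smul (c : ℂ) (ξ : H) (η : K) : tmul ξ (c • η) = c • (tmul ξ η) := (lT ξ).map_smul c η

@[simp] theorem zero_tmul (η : K) : tmul (0 : H) η = 0 := (rT η).map_zero

@[simp] theorem tmul_zero (ξ : H) : tmul ξ (0 : K) = 0 := (lT ξ).map_zero

theorem neg_tmul (ξ : H) (η : K) : tmul (-ξ) η = -(tmul ξ η) := (rT η).map_neg ξ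

theorem tmul_neg (ξ : H) (η : K) : tmul ξ (-η) = -(tmul ξ η) := (lT ξ).map_neg η

theorem sum_tmul {ι : Type*} (s : Finset ι) (f : ι → H) (η : K) :
    tmul (∑ i ∈ s, f i) η = ∑ i ∈ s, tmul (f i) η := map_sum (rT η) f s

theorem tmul_sum {ι : Type*} (s : Finset ι) (ξ : H) (f : ι → K) :
    tmul ξ (∑ i ∈ s, f i) = ∑ i ∈ s, tmul ξ (f i) := map_sum (lT ξ) f s

theorem continuous_tmul : Continuous fun p : H × K => tmul p.1 p.2 :=
  (toHTen H K).continuous.comp TensorProduct.continuous_tmul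

/-- Two bounded operators which agree on elementary tensors are equal. -/
theorem clm_ext {F : Type*} [NormedAddCommGroup F] [NormedSpace ℂ F] {A B : HTen H K →L[ℂ] F}
    (h : ∀ ξ η, A (tmul ξ η) = B (tmul ξ η)) : A = B := by
  ext θ
  refine DenseRange.induction_on (denseRange_toHTen (H := H) (K := K)) θ
    (isClosed_eq A.continuous B.continuous) fun x => ?_
  induction x using TensorProduct.induction_on with
  | zero => rw [map_zero, map_zero, map_zero]
  | tmul ξ η => exact h ξ η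
  | add x y hx hy => rw [map_add, map_add, map_add, hx, hy]

theorem ext_inner_left' {x y : HTen H K} (h : ∀ ξ η, ⟪tmul ξ η, x⟫_ℂ = ⟪tmul ξ η, y⟫_ℂ) : x = y := by
  have h1 : innerSL ℂ x = innerSL ℂ y := by
    refine clm_ext fun ξ η => ?_
    simp only [innerSL_apply_apply]
    rw [← inner_conj_symm, ← inner_conj_symm y, h]
  refine ext_inner_left ℂ fun z => ?_
  have h2 := congrArg (fun f : HTen H K →L[ℂ] ℂ => f z) h1
  simp only [innerSL_apply_apply] at h2
  rw [← inner_conj_symm, ← inner_conj_symm z y, h2]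

/-- The tensor product of two bounded operators. -/
def mapT (A : H →L[ℂ] H') (B : K →L[ℂ] K') : HTen H K →L[ℂ] HTen H' K' :=
  (toHTen H' K' ∘L TensorProduct.mapL A B).extend (toHTen H K)

@[simp]
theorem mapT_tmul (A : H →L[ℂ] H') (B : K →L[ℂ] K') (ξ : H) (η : K) :
    mapT A B (tmul ξ η) = tmul (A ξ) (B η) := by
  rw [mapT, tmul, ContinuousLinearMap.extend_eq _ denseRange_toHTen isUniformInducing_toHTen]
  rfl

theorem mapT_comp (A : H →L[ℂ] H') (B : K →L[ℂ] K') (A' : H' →L[ℂ] H'') (B' : K' →L[ℂ] K'') :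
    mapT A' B' ∘L mapT A B = mapT (A' ∘L A) (B' ∘L B) :=
  clm_ext fun ξ η => by simp

theorem mapT_comp_apply (A : H →L[ℂ] H') (B : K →L[ℂ] K') (A' : H' →L[ℂ] H'')
    (B' : K' →L[ℂ] K'') (θ : HTen H K) :
    mapT A' B' (mapT A B θ) = mapT (A' ∘L A) (B' ∘L B) θ := by
  rw [← mapT_comp]
  rfl

@[simp]
theorem mapT_id : mapT (ContinuousLinearMap.id ℂ H) (ContinuousLinearMap.id ℂ K) =
    ContinuousLinearMap.id ℂ (HTen H K) :=
  clm_ext fun ξ η => by simp

theorem mapT_add_left (A A' : H →L[ℂ] H') (B : K →L[ℂ] K') :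
    mapT (A + A') B = mapT A B + mapT A' B :=
  clm_ext fun ξ η => by simp [add_tmul]

theorem mapT_add_right (A : H →L[ℂ] H') (B B' : K →L[ℂ] K') :
    mapT A (B + B') = mapT A B + mapT A B' :=
  clm_ext fun ξ η => by simp [tmul_add]

theorem mapT_sub_left (A A' : H →L[ℂ] H') (B : K →L[ℂ] K') :
    mapT (A - A') B = mapT A B - mapT A' B :=
  clm_ext fun ξ η => by simp [sub_tmul]

theorem mapT_sub_right (A : H →L[ℂ] H') (B B' : K →L[ℂ] K') :
    mapT A (B - B') = mapT A B - mapT A B' :=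
  clm_ext fun ξ η => by simp [tmul_sub]

theorem norm_rT_le (η : K) : ‖(rT η : H →L[ℂ] HTen H K)‖ ≤ ‖η‖ :=
  ContinuousLinearMap.opNorm_le_bound _ (norm_nonneg _) fun ξ => by
    rw [rT_apply, norm_tmul, mul_comm]

theorem norm_lT_le (ξ : H) : ‖(lT ξ : K →L[ℂ] HTen H K)‖ ≤ ‖ξ‖ :=
  ContinuousLinearMap.opNorm_le_bound _ (norm_nonneg _) fun η => by
    rw [lT_apply, norm_tmul]

section Complete

variable [CompleteSpace H] [CompleteSpace K] [CompleteSpace H'] [CompleteSpace K']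

theorem inner_rT_adjoint (η : K) (ξ : H) (θ : HTen H K) :
    ⟪ξ, ((rT η)†) θ⟫_ℂ = ⟪tmul ξ η, θ⟫_ℂ := by
  rw [ContinuousLinearMap.adjoint_inner_right, rT_apply]

theorem inner_lT_adjoint (ξ : H) (η : K) (θ : HTen H K) :
    ⟪η, ((lT ξ)†) θ⟫_ℂ = ⟪tmul ξ η, θ⟫_ℂ := by
  rw [ContinuousLinearMap.adjoint_inner_right, lT_apply]

@[simp]
theorem rT_adjoint_tmul (η η' : K) (ξ : H) : ((rT η)†) (tmul ξ η') = ⟪η, η'⟫_ℂ • ξ := by
  refine ext_inner_left ℂ fun ζ => ?_
  rw [inner_rT_adjoint, inner_tmul, inner_smul_right, mul_comm]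

@[simp]
theorem lT_adjoint_tmul (ξ ξ' : H) (η : K) : ((lT ξ)†) (tmul ξ' η) = ⟪ξ, ξ'⟫_ℂ • η := by
  refine ext_inner_left ℂ fun ζ => ?_
  rw [inner_lT_adjoint, inner_tmul, inner_smul_right]

theorem adjoint_mapT (A : H →L[ℂ] H') (B : K →L[ℂ] K') : (mapT A B)† = mapT (A†) (B†) := by
  refine clm_ext fun ξ η => ?_
  refine ext_inner_left' fun ξ' η' => ?_
  rw [ContinuousLinearMap.adjoint_inner_right, mapT_tmul, mapT_tmul, inner_tmul, inner_tmul,
    ContinuousLinearMap.adjoint_inner_right, ContinuousLinearMap.adjoint_inner_right]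

theorem mapT_rT (A : H →L[ℂ] H') (B : K →L[ℂ] K') (η : K) :
    mapT A B ∘L rT η = rT (B η) ∘L A := by
  ext ξ
  simp

theorem mapT_lT (A : H →L[ℂ] H') (B : K →L[ℂ] K') (ξ : H) :
    mapT A B ∘L lT ξ = lT (A ξ) ∘L B := by
  ext η
  simp

theorem rT_adjoint_mapT (A : H →L[ℂ] H') (B : K →L[ℂ] K') (η : K') :
    (rT η)† ∘L mapT A B = A ∘L (rT ((B†) η))† := by
  refine clm_ext fun ξ η' => ?_
  simp [ContinuousLinearMap.adjoint_inner_left]

theorem lT_adjoint_mapT (A : H →L[ℂ] H') (B : K →L[ℂ] K') (ξ : H') :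
    (lT ξ)† ∘L mapT A B = B ∘L (lT ((A†) ξ))† := by
  refine clm_ext fun ξ' η => ?_
  simp [ContinuousLinearMap.adjoint_inner_left]

end Complete

end Pool.Agent.VNQ
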