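import Pool.Agent.VNQ.MD
import Pool.Agent.VNQ.Tens

/-!
# The commutation lemma, algebraic part

Let `d₁`, `d₂` be modular data on `E₁`, `E₂` and `Y` a bounded operator on `E₁ ⊗ E₂` with
(M*) `⟪tmul (C₁ u) (C₂ v), Y (tmul (A₁ x) (A₂ y))⟫ = ⟪tmul (C₁ x) (C₂ y), Y (tmul ((1 - A₁) u) ((1 -
A₂) v))⟫`
for all `x, u ∈ E₁`, `y, v ∈ E₂`. Then, with `𝔸 = A₁ ⊗ A₂`, `𝔸' = (1 - A₁) ⊗ (1 - A₂)`:
(M**) `𝔸' Y 𝔸 = 𝔸 Y 𝔸'`.

Proof. (a) Put `u = C₁ u'`, `v = C₂ v'` in (M*): `C₁ C₁ u' = A₁ (1 - A₁) u'` (`CC`) and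
`(1 - A₁) C₁ u' = C₁ A₁ u'` (`CA`). With `u'' = A₁ u'`, `v'' = A₂ v'` (note
`C₁ C₁ u' = (1 - A₁) u''`): `⟪tmul ((1 - A₁) u'') ((1 - A₂) v''), Y 𝔸 (tmul x y)⟫ =
⟪tmul (C₁ x) (C₂ y), Y (tmul (C₁ u'') (C₂ v''))⟫`. Both sides are continuous in `u''` and `v''`, and
`A₁`, `A₂`
have dense range (`dense_range_A`), so it holds for all `u'' ∈ E₁`, `v'' ∈ E₂`; and `𝔸'` is
self-adjoint: `⟪tmul u'' v'', 𝔸' Y 𝔸 (tmul x y)⟫ = ⟪tmul (C₁ x) (C₂ y), Y (tmul (C₁ u'') (C₂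
v''))⟫`.
(b) Put `x = C₁ x'`, `y = C₂ y'` in (M*): `A₁ C₁ x' = C₁ (1 - A₁) x'` (`C_one_sub`),
`C₁ C₁ x' = A₁ (1 - A₁) x'`. With `x'' = (1 - A₁) x'`, `y'' = (1 - A₂) y'`:
`⟪tmul (C₁ u) (C₂ v), Y (tmul (C₁ x'') (C₂ y''))⟫ = ⟪tmul (A₁ x'') (A₂ y''), Y 𝔸' (tmul u v)⟫
= ⟪tmul x'' y'', 𝔸 Y 𝔸' (tmul u v)⟫`, for all `x''`, `y''` by density (`dense_range_one_sub`).
(c) (a) for `(x, y, u'', v'')` and (b) for `u := x`, `v := y`, `x'' := u''`, `y'' := v''`: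
`⟪tmul u'' v'', 𝔸' Y 𝔸 (tmul x y)⟫ = ⟪tmul (C₁ x) (C₂ y), Y (tmul (C₁ u'') (C₂ v''))⟫ = ⟪tmul u''
v'', 𝔸 Y 𝔸' (tmul x y)⟫`.
Conclude with `ext_inner_left'` and `clm_ext`.
-/

set_option autoImplicit false

noncomputable section

open scoped InnerProductSpace InnerProduct

namespace Pool.Agent.VNQ

universe u

variable {E₁ E₂ : Type u} [NormedAddCommGroup E₁] [InnerProductSpace ℂ E₁] [CompleteSpace E₁]
  [NormedAddCommGroup E₂] [InnerProductSpace ℂ E₂] [CompleteSpace E₂]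

namespace MD

theorem lemMa_a (d₁ : MD E₁) (d₂ : MD E₂) (Y : HTen E₁ E₂ →L[ℂ] HTen E₁ E₂)
    (h : ∀ x u y v, ⟪tmul (d₁.C u) (d₂.C v), Y (tmul (d₁.A x) (d₂.A y))⟫_ℂ =
      ⟪tmul (d₁.C x) (d₂.C y), Y (tmul (u - d₁.A u) (v - d₂.A v))⟫_ℂ) (x : E₁) (y : E₂) (u : E₁) (v : E₂) :
    ⟪tmul (u - d₁.A u) (v - d₂.A v), Y (tmul (d₁.A x) (d₂.A y))⟫_ℂ =
      ⟪tmul (d₁.C x) (d₂.C y), Y (tmul (d₁.C u) (d₂.C v))⟫_ℂ := by
  have hd : DenseRange (Prod.map d₁.A d₂.A) := d₁.dense_range_A.prodMap d₂.dense_range_A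
  have hg : Continuous fun p : E₁ × E₂ =>
      ⟪tmul (p.1 - d₁.A p.1) (p.2 - d₂.A p.2), Y (tmul (d₁.A x) (d₂.A y))⟫_ℂ := by
    refine Continuous.inner ?_ continuous_const
    exact continuous_tmul.comp ((continuous_fst.sub (d₁.A.continuous.comp continuous_fst)).prodMk
      (continuous_snd.sub (d₂.A.continuous.comp continuous_snd)))
  have hh : Continuous fun p : E₁ × E₂ =>
      ⟪tmul (d₁.C x) (d₂.C y), Y (tmul (d₁.C p.1) (d₂.C p.2))⟫_ℂ := by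
    refine Continuous.inner continuous_const (Y.continuous.comp ?_)
    exact continuous_tmul.comp ((d₁.C.continuous.comp continuous_fst).prodMk
      (d₂.C.continuous.comp continuous_snd))
  have key := hd.equalizer hg hh (by
    funext p
    obtain ⟨u', v'⟩ := p
    have h1 := h x (d₁.C u') y (d₂.C v')
    rw [d₁.CC, d₂.CC, map_sub, map_sub, ← d₁.CA, ← d₂.CA] at h1
    exact h1)
  exact congrFun key (u, v)

theorem lemMa_b (d₁ : MD E₁) (d₂ : MD E₂) (Y : HTen E₁ E₂ →L[ℂ] HTen E₁ E₂)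
    (h : ∀ x u y v, ⟪tmul (d₁.C u) (d₂.C v), Y (tmul (d₁.A x) (d₂.A y))⟫_ℂ =
      ⟪tmul (d₁.C x) (d₂.C y), Y (tmul (u - d₁.A u) (v - d₂.A v))⟫_ℂ) (u : E₁) (v : E₂) (x : E₁) (y : E₂) :
    ⟪tmul (d₁.C u) (d₂.C v), Y (tmul (d₁.C x) (d₂.C y))⟫_ℂ =
      ⟪tmul (d₁.A x) (d₂.A y), Y (tmul (u - d₁.A u) (v - d₂.A v))⟫_ℂ := by
  have hd : DenseRange (Prod.map (fun x => x - d₁.A x) (fun x => x - d₂.A x)) :=
    d₁.dense_range_one_sub.prodMap d₂.dense_range_one_sub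
  have hg : Continuous fun p : E₁ × E₂ =>
      ⟪tmul (d₁.C u) (d₂.C v), Y (tmul (d₁.C p.1) (d₂.C p.2))⟫_ℂ := by
    refine Continuous.inner continuous_const (Y.continuous.comp ?_)
    exact continuous_tmul.comp ((d₁.C.continuous.comp continuous_fst).prodMk
      (d₂.C.continuous.comp continuous_snd))
  have hh : Continuous fun p : E₁ × E₂ =>
      ⟪tmul (d₁.A p.1) (d₂.A p.2), Y (tmul (u - d₁.A u) (v - d₂.A v))⟫_ℂ := by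
    refine Continuous.inner ?_ continuous_const
    exact continuous_tmul.comp ((d₁.A.continuous.comp continuous_fst).prodMk
      (d₂.A.continuous.comp continuous_snd))
  have key := hd.equalizer hg hh (by
    funext p
    obtain ⟨x', y'⟩ := p
    have h1 := h (d₁.C x') u (d₂.C y') v
    rw [← d₁.C_one_sub, ← d₂.C_one_sub, d₁.CC, d₂.CC] at h1
    exact h1)
  exact congrFun key (x, y)

theorem lemMa_adj (d₁ : MD E₁) (d₂ : MD E₂) (u : E₁) (v : E₂) (θ : HTen E₁ E₂) :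
    ⟪tmul u v, mapT d₁.A d₂.A θ⟫_ℂ = ⟪tmul (d₁.A u) (d₂.A v), θ⟫_ℂ := by
  rw [← ContinuousLinearMap.adjoint_inner_left, adjoint_mapT, mapT_tmul,
    d₁.isSelfAdjoint_A.adjoint_eq, d₂.isSelfAdjoint_A.adjoint_eq]

theorem lemMa_adj' (d₁ : MD E₁) (d₂ : MD E₂) (u : E₁) (v : E₂) (θ : HTen E₁ E₂) :
    ⟪tmul u v, mapT (ContinuousLinearMap.id ℂ E₁ - d₁.A) (ContinuousLinearMap.id ℂ E₂ - d₂.A) θ⟫_ℂ =
      ⟪tmul (u - d₁.A u) (v - d₂.A v), θ⟫_ℂ := by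
  have h := lemMa_adj d₁.dual d₂.dual u v θ
  rw [dual_A, dual_A] at h
  exact h

theorem lemM_alg (d₁ : MD E₁) (d₂ : MD E₂) (Y : HTen E₁ E₂ →L[ℂ] HTen E₁ E₂)
    (h : ∀ x u y v, ⟪tmul (d₁.C u) (d₂.C v), Y (tmul (d₁.A x) (d₂.A y))⟫_ℂ =
      ⟪tmul (d₁.C x) (d₂.C y), Y (tmul (u - d₁.A u) (v - d₂.A v))⟫_ℂ) :
    mapT (ContinuousLinearMap.id ℂ E₁ - d₁.A) (ContinuousLinearMap.id ℂ E₂ - d₂.A) ∘L Y ∘L
        mapT d₁.A d₂.A =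
      mapT d₁.A d₂.A ∘L Y ∘L
        mapT (ContinuousLinearMap.id ℂ E₁ - d₁.A) (ContinuousLinearMap.id ℂ E₂ - d₂.A) := by
  refine clm_ext fun x y => ?_
  refine ext_inner_left' fun u v => ?_
  simp only [ContinuousLinearMap.comp_apply]
  rw [lemMa_adj', lemMa_adj, mapT_tmul, mapT_tmul, lemMa_a d₁ d₂ Y h x y u v,
    lemMa_b d₁ d₂ Y h x y u v]
  rfl

end MD

end Pool.Agent.VNQ
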