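import Pool.Agent.VNQ.QGB

/-!
# Normality of the coproduct

* `QG.lemN`: if `A_k, B ∈ M` and `∑ ‖A_k ξ‖² = ‖B ξ‖²` for all `ξ ∈ H` then
  `∑ ‖Δ(A_k) β‖² = ‖Δ(B) β‖²` for all `β ∈ H ⊗ H`.
  Proof. `Q.normal β` gives `κ_n ∈ H` with `‖Δ(x) β‖² = ∑_n ‖x κ_n‖²` for all `x ∈ M`. So
  `∑_k ‖Δ(A_k) β‖² = ∑_k ∑_n ‖A_k κ_n‖² = ∑_n ∑_k ‖A_k κ_n‖² = ∑_n ‖B κ_n‖² = ‖Δ(B) β‖²`; the terms
  are nonnegative, so the order of summation can be exchanged (as `ENNReal`-valued sums,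
  `ENNReal.tsum_comm`, or `summable_prod_of_nonneg`).
* `QG.lemN_const`: the same with `∑ ‖A_k ξ‖² = C ‖ξ‖²`, `C ≥ 0` (take `B = √C • 1`; `Q.one`,
  `Q.smul`), conclusion `∑ ‖Δ(A_k) β‖² = C ‖β‖²`.
* `QG.Δ_tendsto`: let `T_k, S ∈ M`, `‖T_k‖ ≤ R`, `T_k ξ → S ξ` for all `ξ`. Then
  `Δ(T_k) θ → Δ(S) θ`. Proof. `D_k = T_k - S ∈ M`, `‖D_k‖ ≤ R + ‖S‖ =: R'`,
  `‖Δ(T_k) θ - Δ(S) θ‖² = ‖Δ(D_k) θ‖² = ∑_n ‖D_k κ_n‖²` (`Δ_sub`, `κ = Q.normal θ`), and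
  `‖D_k κ_n‖² ≤ R'² ‖κ_n‖²`, where `∑ ‖κ_n‖² = ‖θ‖² < ∞` (`x = 1`), and `D_k κ_n → 0` for each `n`:
  dominated convergence for series (`tendsto_tsum_of_dominated_convergence`). (If the filter is
  `⊥` everything is trivial; no need to distinguish.)
-/

set_option autoImplicit false

noncomputable section

open scoped TensorProduct InnerProductSpace InnerProduct ENNReal
open Filter

namespace Pool.Agent.VNQ

universe u

variable {H G : Type u} [NormedAddCommGroup H] [InnerProductSpace ℂ H] [CompleteSpace H]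
  [NormedAddCommGroup G] [InnerProductSpace ℂ G] [CompleteSpace G]

namespace QG

variable (Q : QG H G)

theorem lemN {κ : Type*} (A : κ → H →L[ℂ] H) (hA : ∀ k, A k ∈ Q.M) (B : H →L[ℂ] H)
    (hB : B ∈ Q.M) (h : ∀ ξ, HasSum (fun k => ‖A k ξ‖ ^ 2) (‖B ξ‖ ^ 2)) (β : HTen H H) :
    HasSum (fun k => ‖Q.Δ (A k) β‖ ^ 2) (‖Q.Δ B β‖ ^ 2) := by
  obtain ⟨v, hv⟩ := Q.normal β
  have h1 : ∀ n, HasSum (fun k => ‖A k (v n)‖ ^ 2) (‖B (v n)‖ ^ 2) := fun n => h (v n)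
  have hs : Summable fun p : ℕ × κ => ‖A p.2 (v p.1)‖ ^ 2 := by
    rw [summable_prod_of_nonneg fun p => sq_nonneg _]
    refine ⟨fun n => (h1 n).summable, ?_⟩
    have h2 : (fun n => ∑' k, ‖A k (v n)‖ ^ 2) = fun n => ‖B (v n)‖ ^ 2 :=
      funext fun n => (h1 n).tsum_eq
    show Summable fun n => ∑' k, ‖A k (v n)‖ ^ 2
    rw [h2]
    exact (hv B hB).summable
  have h3 : HasSum (fun p : ℕ × κ => ‖A p.2 (v p.1)‖ ^ 2) (‖Q.Δ B β‖ ^ 2) := by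
    have h4 := hs.hasSum.prod_fiberwise h1
    rw [← h4.unique (hv B hB)]
    exact hs.hasSum
  have h5 : HasSum (fun p : κ × ℕ => ‖A p.1 (v p.2)‖ ^ 2) (‖Q.Δ B β‖ ^ 2) :=
    (Equiv.prodComm κ ℕ).hasSum_iff.2 h3
  exact h5.prod_fiberwise fun k => hv (A k) (hA k)

theorem lemN_const {κ : Type*} (A : κ → H →L[ℂ] H) (hA : ∀ k, A k ∈ Q.M) (C : ℝ) (hC : 0 ≤ C)
    (h : ∀ ξ, HasSum (fun k => ‖A k ξ‖ ^ 2) (C * ‖ξ‖ ^ 2)) (β : HTen H H) :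
    HasSum (fun k => ‖Q.Δ (A k) β‖ ^ 2) (C * ‖β‖ ^ 2) := by
  have hn : ∀ {E : Type u} [NormedAddCommGroup E] [InnerProductSpace ℂ E] (x : E),
      ‖((Real.sqrt C : ℝ) : ℂ) • x‖ ^ 2 = C * ‖x‖ ^ 2 := by
    intro E _ _ x
    rw [norm_smul, mul_pow, Complex.norm_real, Real.norm_eq_abs, sq_abs, Real.sq_sqrt hC]
  have h1 := Q.lemN A hA (((Real.sqrt C : ℝ) : ℂ) • ContinuousLinearMap.id ℂ H)
    (smul_mem' _ id_mem) (fun ξ => by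
      have h2 : (((Real.sqrt C : ℝ) : ℂ) • ContinuousLinearMap.id ℂ H) ξ =
        ((Real.sqrt C : ℝ) : ℂ) • ξ := rfl
      rw [h2, hn]
      exact h ξ) β
  have h3 : Q.Δ (((Real.sqrt C : ℝ) : ℂ) • ContinuousLinearMap.id ℂ H) β =
      ((Real.sqrt C : ℝ) : ℂ) • β := by
    rw [Q.smul _ _ id_mem, Q.one]
    rfl
  rw [h3, hn] at h1
  exact h1

theorem Δ_tendsto {κ : Type*} {l : Filter κ} (T : κ → H →L[ℂ] H) (hT : ∀ k, T k ∈ Q.M)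
    (S : H →L[ℂ] H) (hS : S ∈ Q.M) (R : ℝ) (hR : ∀ k, ‖T k‖ ≤ R)
    (h : ∀ ξ, Tendsto (fun k => T k ξ) l (nhds (S ξ))) (θ : HTen H H) :
    Tendsto (fun k => Q.Δ (T k) θ) l (nhds (Q.Δ S θ)) := by
  obtain ⟨v, hv⟩ := Q.normal θ
  have h1 : ∀ k, ‖Q.Δ (T k) θ - Q.Δ S θ‖ ^ 2 = ∑' n, ‖(T k - S) (v n)‖ ^ 2 := by
    intro k
    have h2 := hv _ (sub_mem' (hT k) hS)
    rw [Q.Δ_sub (hT k) hS] at h2
    exact h2.tsum_eq.symm
  have hb : Summable fun n => (R + ‖S‖) ^ 2 * ‖v n‖ ^ 2 := by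
    have h2 := (hv _ (id_mem (M := Q.M))).summable
    exact h2.mul_left _
  have h3 : Tendsto (fun k => ∑' n, ‖(T k - S) (v n)‖ ^ 2) l (nhds (∑' _ : ℕ, (0 : ℝ))) := by
    refine tendsto_tsum_of_dominated_convergence hb (fun n => ?_)
      (Eventually.of_forall fun k n => ?_)
    · have h4 : Tendsto (fun k => ‖T k (v n) - S (v n)‖) l (nhds 0) :=
        tendsto_iff_norm_sub_tendsto_zero.1 (h (v n))
      have h5 := h4.pow 2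
      rw [zero_pow two_ne_zero] at h5
      exact h5
    · rw [Real.norm_eq_abs, abs_of_nonneg (sq_nonneg _), ← mul_pow]
      refine pow_le_pow_left₀ (norm_nonneg _) ?_ 2
      refine ((T k - S).le_opNorm _).trans (mul_le_mul_of_nonneg_right ?_ (norm_nonneg _))
      exact (norm_sub_le _ _).trans (add_le_add_left (hR k) _)
  rw [tsum_zero] at h3
  rw [tendsto_iff_norm_sub_tendsto_zero]
  have h6 : Tendsto (fun k => ‖Q.Δ (T k) θ - Q.Δ S θ‖ ^ 2) l (nhds 0) :=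
    h3.congr fun k => (h1 k).symm
  have h7 := (Real.continuous_sqrt.tendsto 0).comp h6
  rw [Real.sqrt_zero] at h7
  exact h7.congr fun k => Real.sqrt_sq (norm_nonneg _)

end QG

end Pool.Agent.VNQ
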