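import Mathlib

/-!
# Modular data of a conjugate-linear involution

`IsRel Γ`: `Γ ⊆ E × E` is the graph of a closed densely defined conjugate-linear involution.
`MD E`: a bounded self-adjoint operator `A`, `0 ≤ A ≤ 1`, and a bounded conjugate-linear operator
`C`
with `C² = A (1 - A)`, `C A = (1 - A) C`. The graph is `{(ξ, ξ₁) : (1 - A) ξ = C ξ₁}`. (For an
involution `T` with polar decomposition `T = J L^{1/2}` one has `A = (1 + L)⁻¹`,
`C = J (A (1 - A))^{1/2}`.)
-/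

set_option autoImplicit false

noncomputable section

open scoped InnerProductSpace InnerProduct

namespace Pool.Agent.VNQ

universe u

variable {E : Type u} [NormedAddCommGroup E] [InnerProductSpace ℂ E] [CompleteSpace E]

/-- `Γ` is the graph of a closed densely defined conjugate-linear involution. -/
structure IsRel (Γ : Set (E × E)) : Prop where
  closed : IsClosed Γ
  add : ∀ p ∈ Γ, ∀ q ∈ Γ, p + q ∈ Γ
  smul : ∀ c : ℂ, ∀ p ∈ Γ, (c • p.1, (starRingEnd ℂ) c • p.2) ∈ Γ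
  symm : ∀ p ∈ Γ, (p.2, p.1) ∈ Γ
  single : ∀ ξ₁, ((0 : E), ξ₁) ∈ Γ → ξ₁ = 0
  dense : Dense {ξ | ∃ ξ₁, (ξ, ξ₁) ∈ Γ}

/-- The modular data of a conjugate-linear involution. -/
structure MD (E : Type u) [NormedAddCommGroup E] [InnerProductSpace ℂ E] [CompleteSpace E] where
  A : E →L[ℂ] E
  C : E →L⋆[ℂ] E
  A_symm : ∀ x y, ⟪A x, y⟫_ℂ = ⟪x, A y⟫_ℂ
  C_symm : ∀ x y, ⟪C x, y⟫_ℂ = ⟪C y, x⟫_ℂ
  CC : ∀ x, C (C x) = A (x - A x)
  CA : ∀ x, C (A x) = C x - A (C x)
  A_nonneg : ∀ x, 0 ≤ (⟪x, A x⟫_ℂ).re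
  A_le : ∀ x, (⟪x, A x⟫_ℂ).re ≤ ‖x‖ ^ 2
  A_inj : ∀ x, A x = 0 → x = 0
  A_inj' : ∀ x, A x = x → x = 0

namespace MD

variable (md : MD E)

/-- The graph of the involution. -/
def rel : Set (E × E) := {p | p.1 - md.A p.1 = md.C p.2}

theorem mem_rel {ξ ξ₁ : E} : (ξ, ξ₁) ∈ md.rel ↔ ξ - md.A ξ = md.C ξ₁ := Iff.rfl

theorem C_one_sub (x : E) : md.C (x - md.A x) = md.A (md.C x) := by
  rw [map_sub, md.CA, sub_sub_cancel]

theorem rel_symm {ξ ξ₁ : E} (h : (ξ, ξ₁) ∈ md.rel) : (ξ₁, ξ) ∈ md.rel := by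
  rw [mem_rel] at h ⊢
  have h1 : md.A (md.C ξ) = md.A (ξ₁ - md.A ξ₁) := by
    rw [← md.C_one_sub, h, md.CC]
  have h2 : md.A (md.C ξ - (ξ₁ - md.A ξ₁)) = 0 := by
    rw [map_sub, h1, sub_self]
  exact (sub_eq_zero.1 (md.A_inj _ h2)).symm

/-- The typical elements of the graph. -/
theorem AC_mem_rel (x : E) : (md.A x, md.C x) ∈ md.rel := by
  rw [mem_rel, md.CC, map_sub]

theorem CA_mem_rel (x : E) : (md.C x, md.A x) ∈ md.rel := md.rel_symm (md.AC_mem_rel x)

/-- The pairing of the graph with the graph of the adjoint, `{(γ, γ₁) : C γ = A γ₁}`. -/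
theorem adj_pair {ξ ξ₁ γ γ₁ : E} (h : (ξ, ξ₁) ∈ md.rel) (h' : md.C γ = md.A γ₁) :
    ⟪γ, ξ₁⟫_ℂ = ⟪ξ, γ₁⟫_ℂ := by
  have h2 := md.rel_symm h
  rw [mem_rel] at h h2
  have h3 : md.A γ = md.C γ₁ := by
    have h4 : md.C (md.C γ) = md.C (md.A γ₁) := by rw [h']
    rw [md.CC, md.CA, map_sub] at h4
    -- `(1 - A) (A γ - C γ₁) = 0`
    have h5 : md.A (md.A γ - md.C γ₁) = md.A γ - md.C γ₁ := by
      rw [map_sub]
      have h6 : md.A γ - md.A (md.A γ) - (md.C γ₁ - md.A (md.C γ₁)) = 0 := by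
        rw [h4, sub_self]
      have h7 : md.A (md.A γ) - md.A (md.C γ₁) = md.A γ - md.C γ₁ -
          (md.A γ - md.A (md.A γ) - (md.C γ₁ - md.A (md.C γ₁))) := by abel
      rw [h7, h6, sub_zero]
    exact sub_eq_zero.1 (md.A_inj' _ h5)
  have e1 : ξ = md.A ξ + md.C ξ₁ := by rw [← h]; abel
  have e2 : ξ₁ = md.A ξ₁ + md.C ξ := by rw [← h2]; abel
  have e3 : ⟪γ, ξ₁⟫_ℂ = ⟪md.A γ, ξ₁⟫_ℂ + ⟪γ, md.C ξ⟫_ℂ := by
    conv_lhs => rw [e2]
    rw [inner_add_right, md.A_symm]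
  have e4 : ⟪ξ, γ₁⟫_ℂ = ⟪ξ, md.C γ⟫_ℂ + ⟪md.A γ, ξ₁⟫_ℂ := by
    conv_lhs => rw [e1]
    rw [inner_add_left, md.A_symm, ← h', md.C_symm, ← h3]
  have e5 : ⟪γ, md.C ξ⟫_ℂ = ⟪ξ, md.C γ⟫_ℂ := by
    rw [← inner_conj_symm, md.C_symm, inner_conj_symm]
  rw [e3, e4, e5]
  ring

/-- The typical elements of the graph of the adjoint. -/
theorem dual_pair (x : E) : md.C (x - md.A x) = md.A (md.C x) := md.C_one_sub x

/-- The modular data of the adjoint. -/
def dual : MD E where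
  A := ContinuousLinearMap.id ℂ E - md.A
  C := md.C
  A_symm x y := by
    rw [sub_apply, sub_apply, inner_sub_right,
      inner_sub_left, md.A_symm]
    rfl
  C_symm := md.C_symm
  CC x := by
    simp [md.CC, map_sub]
  CA x := by
    simp [md.CA]
  A_nonneg x := by
    have h := md.A_le x
    have h2 : (⟪x, x⟫_ℂ).re = ‖x‖ ^ 2 := by
      rw [inner_self_eq_norm_sq_to_K]
      norm_cast
    rw [sub_apply, inner_sub_right, Complex.sub_re,
      ContinuousLinearMap.id_apply, h2]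
    linarith
  A_le x := by
    have h := md.A_nonneg x
    have h2 : (⟪x, x⟫_ℂ).re = ‖x‖ ^ 2 := by
      rw [inner_self_eq_norm_sq_to_K]
      norm_cast
    rw [sub_apply, inner_sub_right, Complex.sub_re,
      ContinuousLinearMap.id_apply, h2]
    linarith
  A_inj x hx := by
    refine md.A_inj' x ?_
    have : x - md.A x = 0 := by simpa using hx
    exact (sub_eq_zero.1 this).symm
  A_inj' x hx := by
    refine md.A_inj x ?_
    have : x - md.A x = x := by simpa using hx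
    exact sub_eq_self.1 this

@[simp] theorem dual_A (x : E) : md.dual.A x = x - md.A x := by simp [dual]

@[simp] theorem dual_C : md.dual.C = md.C := rfl

theorem isSelfAdjoint_A : IsSelfAdjoint md.A := by
  rw [ContinuousLinearMap.isSelfAdjoint_iff_isSymmetric]
  exact md.A_symm

/-- The range of a self-adjoint injective operator is dense. -/
theorem dense_range_A : DenseRange md.A := by
  have h1 : (LinearMap.range (md.A : E →ₗ[ℂ] E)).topologicalClosure = ⊤ := by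
    rw [Submodule.topologicalClosure_eq_top_iff, eq_bot_iff]
    intro x hx
    rw [Submodule.mem_orthogonal] at hx
    have h2 : md.A x = 0 := by
      refine ext_inner_left ℂ fun y => ?_
      rw [inner_zero_right, ← md.A_symm]
      exact hx _ ⟨y, rfl⟩
    exact md.A_inj x h2
  have h3 := (Submodule.dense_iff_topologicalClosure_eq_top).2 h1
  exact h3

theorem dense_range_one_sub : DenseRange fun x => x - md.A x := by
  have h := md.dual.dense_range_A
  have h2 : (md.dual.A : E → E) = fun x => x - md.A x := by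
    funext x
    simp
  rwa [h2] at h

end MD

end Pool.Agent.VNQ
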