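import Pool.Agent.VNQ.RepQ
import Pool.Agent.VNQ.Ridx

/-!
# The transported coproduct is normal

`normal_K`: for `θ ∈ K ⊗ K` there is `α : ℕ → K` with `∑ ‖α_n‖² < ∞` and
`∑_n ⟪α_n, y α_n⟫ = ⟪θ, Δ(inv y)_K θ⟫` for all `y ∈ π(M)`.

Proof. Let `m = inv y ∈ M`, `y = π(m)`. For `k = (i, i')` let `Z_k = Z_i ⊗ Z_{i'}`. By `hasSum_ZZ` and
polarization (`hasSum_inner_of_norm`) and `tr_spec`:
`⟪θ, Δ(m)_K θ⟫ = ∑_k ⟪Z_k θ, Z_k Δ(m)_K θ⟫ = ∑_k ⟪Z_k θ, Δ(m) Z_k θ⟫`.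
By `Q.exists_normal (Z_k θ)`: `⟪Z_k θ, Δ(m) Z_k θ⟫ = ∑_n ⟪α_{k,n}, m α_{k,n}⟫` and
`∑_n ‖α_{k,n}‖² = ‖Z_k θ‖²`. With `S_j` as in `exists_S`:
`⟪z, m z⟫ = ∑_j ⟪S_j z, S_j m z⟫ = ∑_j ⟪S_j z, π(m) S_j z⟫` (`S_π`), `∑_j ‖S_j z‖² = ‖z‖²`.
The family `γ_{(k,n,j)} = S_j α_{k,n}` is square summable with `∑ ‖γ‖² = ‖θ‖²` (iterated sums with
nonnegative terms), and `∑_{(k,n,j)} ⟪γ, y γ⟫` converges absolutely (`‖⟪γ, y γ⟫‖ ≤ ‖y‖ ‖γ‖²`), so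
it can be computed as an iterated sum (`HasSum.prod_fiberwise`, `HasSum.unique`), with value
`⟪θ, Δ(m)_K θ⟫`. Finally re-index by `ℕ` with `exists_nat_family` (`F g = ⟪g, y g⟫`).
-/

set_option autoImplicit false

noncomputable section

open scoped TensorProduct InnerProductSpace InnerProduct ENNReal

namespace Pool.Agent.VNQ

universe u

variable {H K : Type u} [NormedAddCommGroup H] [InnerProductSpace ℂ H] [CompleteSpace H]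
  [NormedAddCommGroup K] [InnerProductSpace ℂ K] [CompleteSpace K]

/-- Iterated sums. -/
private theorem hasSum_iter {κ ν E : Type*} [NormedAddCommGroup E] [CompleteSpace E]
    {F : κ × ν → E} {t : κ → E} {T : E} (hF : Summable F)
    (h1 : ∀ k, HasSum (fun n => F (k, n)) (t k)) (h2 : HasSum t T) : HasSum F T := by
  have h3 := hF.hasSum.prod_fiberwise h1
  rw [← h3.unique h2]
  exact hF.hasSum

private theorem hasSum_iter_nonneg {κ ν : Type*} {F : κ × ν → ℝ} {t : κ → ℝ} {T : ℝ}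
    (hF : ∀ p, 0 ≤ F p) (h1 : ∀ k, HasSum (fun n => F (k, n)) (t k)) (h2 : HasSum t T) :
    HasSum F T := by
  refine hasSum_iter ?_ h1 h2
  rw [summable_prod_of_nonneg hF]
  refine ⟨fun k => (h1 k).summable, ?_⟩
  have h3 : (fun k => ∑' n, F (k, n)) = t := by
    funext k
    exact (h1 k).tsum_eq
  rw [h3]
  exact h2.summable

private theorem norm_inner_le {E : Type*} [NormedAddCommGroup E] [InnerProductSpace ℂ E]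
    (y : E →L[ℂ] E) (g : E) : ‖⟪g, y g⟫_ℂ‖ ≤ ‖y‖ * ‖g‖ ^ 2 := by
  refine (norm_inner_le_norm g (y g)).trans ?_
  have h := y.le_opNorm g
  calc ‖g‖ * ‖y g‖ ≤ ‖g‖ * (‖y‖ * ‖g‖) := by gcongr
    _ = ‖y‖ * ‖g‖ ^ 2 := by ring

namespace VNQGroup

variable (Q : VNQGroup H K) (R : Rep Q.M K)

theorem normal_K (θ : HTen K K) : ∃ α : ℕ → K, Summable (fun n => ‖α n‖ ^ 2) ∧
    ∀ y ∈ R.vn, HasSum (fun n => ⟪α n, y (α n)⟫_ℂ) ⟪θ, R.tr (Q.Δ (R.inv y)) θ⟫_ℂ := by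
  obtain ⟨ν, S, hS, hSn⟩ := R.exists_S
  choose α hα1 hα2 hα3 using fun k : R.ι × R.ι =>
    Q.exists_normal (mapT (R.Z k.1) (R.Z k.2) θ)
  have hsq : HasSum (fun q : (R.ι × R.ι) × ℕ => ‖α q.1 q.2‖ ^ 2) (‖θ‖ ^ 2) :=
    hasSum_iter_nonneg (fun q => sq_nonneg _) (fun k => hα1 k) (R.hasSum_ZZ θ)
  have hsγ : HasSum (fun p : ((R.ι × R.ι) × ℕ) × ν => ‖S p.2 (α p.1.1 p.1.2)‖ ^ 2)
      (‖θ‖ ^ 2) :=
    hasSum_iter_nonneg (fun q => sq_nonneg _) (fun q => hSn (α q.1 q.2)) hsq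
  obtain ⟨β, hβ, hC, -⟩ := exists_nat_family
    (fun p : ((R.ι × R.ι) × ℕ) × ν => S p.2 (α p.1.1 p.1.2)) hsγ.summable
  refine ⟨β, hβ, fun y hy => hC (fun g => ⟪g, y g⟫_ℂ) _ (by simp) ?_⟩
  have hm := R.inv_mem hy
  have hy' := R.π_inv hy
  obtain ⟨m, hmdef⟩ : ∃ m, m = R.inv y := ⟨_, rfl⟩
  rw [← hmdef] at hm hy' ⊢
  have hs1 : Summable fun p : ((R.ι × R.ι) × ℕ) × ν =>
      ⟪S p.2 (α p.1.1 p.1.2), y (S p.2 (α p.1.1 p.1.2))⟫_ℂ :=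
    Summable.of_norm_bounded (hsγ.summable.mul_left ‖y‖) fun p => norm_inner_le y _
  have hs2 : Summable fun q : (R.ι × R.ι) × ℕ => ⟪α q.1 q.2, m (α q.1 q.2)⟫_ℂ :=
    Summable.of_norm_bounded (hsq.summable.mul_left ‖m‖) fun p => norm_inner_le m _
  refine hasSum_iter hs1 (t := fun q : (R.ι × R.ι) × ℕ => ⟪α q.1 q.2, m (α q.1 q.2)⟫_ℂ)
    (fun q => ?_) ?_
  · have h1 := hasSum_inner_of_norm (fun j => ((S j : H →L[ℂ] K) : H →ₗ[ℂ] K))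
      (LinearMap.id : H →ₗ[ℂ] H) (fun z => hSn z) (α q.1 q.2) (m (α q.1 q.2))
    have h2 : (fun j => ⟪((S j : H →L[ℂ] K) : H →ₗ[ℂ] K) (α q.1 q.2),
        ((S j : H →L[ℂ] K) : H →ₗ[ℂ] K) (m (α q.1 q.2))⟫_ℂ) =
        fun j => ⟪S j (α q.1 q.2), y (S j (α q.1 q.2))⟫_ℂ := by
      funext j
      change ⟪S j (α q.1 q.2), S j (m (α q.1 q.2))⟫_ℂ = _
      rw [R.S_π (hS j) hm, hy']
    rw [h2] at h1
    exact h1
  · refine hasSum_iter hs2 (t := fun k : R.ι × R.ι => ⟪mapT (R.Z k.1) (R.Z k.2) θ,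
      Q.Δ m (mapT (R.Z k.1) (R.Z k.2) θ)⟫_ℂ) (fun k => hα3 k m hm) ?_
    have h1 := hasSum_inner_of_norm
      (fun k : R.ι × R.ι => ((mapT (R.Z k.1) (R.Z k.2) : HTen K K →L[ℂ] HTen H H) :
        HTen K K →ₗ[ℂ] HTen H H)) (LinearMap.id : HTen K K →ₗ[ℂ] HTen K K)
      (fun g => R.hasSum_ZZ g) θ (R.tr (Q.Δ m) θ)
    have h2 : (fun k : R.ι × R.ι => ⟪((mapT (R.Z k.1) (R.Z k.2) : HTen K K →L[ℂ] HTen H H) :
        HTen K K →ₗ[ℂ] HTen H H) θ, ((mapT (R.Z k.1) (R.Z k.2) : HTen K K →L[ℂ] HTen H H) :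
        HTen K K →ₗ[ℂ] HTen H H) (R.tr (Q.Δ m) θ)⟫_ℂ) =
        fun k => ⟪mapT (R.Z k.1) (R.Z k.2) θ, Q.Δ m (mapT (R.Z k.1) (R.Z k.2) θ)⟫_ℂ := by
      funext k
      change ⟪mapT (R.Z k.1) (R.Z k.2) θ, mapT (R.Z k.1) (R.Z k.2) (R.tr (Q.Δ m) θ)⟫_ℂ = _
      rw [R.tr_spec (Q.Δ_comm2 hm) (R.int_Z k.1) (R.int_Z k.2)]
    rw [h2] at h1
    exact h1

end VNQGroup

end Pool.Agent.VNQ
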