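import Pool.Agent.VNQ.QG
import Pool.Agent.VNQ.RedPsi

/-!
# The GNS construction of a normal semifinite faithful weight

* `exists_wt`: for `hw : IsNSF M w` there are a Hilbert space `G` and `wt : Wt M G` with
  `w x = ∑' i, ofReal (re ⟪z_i, x z_i⟫)` for all `0 ≤ x ∈ M` (`z_i = wt.z i`).

  Proof. `hw.normal` gives `ι` and `ζ` with this formula; put `wt.ι = ι`, `wt.z = ζ`. For `a ∈ M`:
  `star a * a ∈ M` is `≥ 0` (`star_mul_self_nonneg`), `re ⟪ζ_i, (star a * a) ζ_i⟫ = ‖a ζ_i‖²`, so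
  `w (star a * a) = ∑' i, ofReal (‖a ζ_i‖²)`, and `a ∈ NL M w ↔ a ∈ NS M ζ` (`mem_NS_iff` in the
  file
  `RedPsi`). Let `𝓗 = lp (fun _ : ι => H) 2` (a Hilbert space in `Type u`),
  `j : NS M ζ → 𝓗`, `j(a) = (a ζ_i)_i` (`memℓp_gen`; linear), `G` the closure of the range of `j`
  (`Submodule.topologicalClosure`, a complete subspace, with the instances
  `Submodule.innerProductSpace`, `IsClosed.completeSpace_coe`), `Λ a = j(a)` for `a ∈ NS M ζ` and
  `0`
  otherwise, `Z_i` the restriction of the `i`-th coordinate (`lp.evalCLM` or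
  `lp.single` adjoint; `‖g i‖ ≤ ‖g‖`, `lp.norm_apply_le_norm`), `act m` for `m ∈ M` the restriction
  of
  `(g_i) ↦ (m g_i)` to `G` (it maps `j(a)` to `j(m a)` hence `G` to `G`), `act m = 0` for `m ∉ M`.
  `faithful`: if `a ζ_i = 0` for all `i` then `w (star a * a) = 0` so `a = 0` by `hw.faithful`.
  `semifinite`: `hw.semifinite 1`. `Λ_add`, `Λ_smul`, `dense`, `Z_Λ`, `Z_act` are clear;
  `norm_Z`: `lp.hasSum_norm`-like: `‖g‖² = ∑ ‖g i‖²` (`lp.norm_sq_eq_of_L2` or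
  `lp.hasSum_norm` with `p = 2`).
  [Alternative to `lp`: any Hilbert sum in Mathlib.]
-/

set_option autoImplicit false

noncomputable section

open scoped TensorProduct InnerProductSpace InnerProduct ENNReal

namespace Pool.Agent.VNQ

universe u

variable {H : Type u} [NormedAddCommGroup H] [InnerProductSpace ℂ H] [CompleteSpace H]

section Aux

variable {ι : Type u}

omit [InnerProductSpace ℂ H] [CompleteSpace H] in
private theorem ml_iff {f : ι → H} : Memℓp f 2 ↔ Summable fun i => ‖f i‖ ^ 2 := by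
  rw [memℓp_gen_iff (by norm_num)]
  simp

private theorem ns_add {M : VonNeumannAlgebra H} {ζ : ι → H} {a b : H →L[ℂ] H}
    (ha : a ∈ NS M ζ) (hb : b ∈ NS M ζ) : a + b ∈ NS M ζ :=
  ⟨AddMemClass.add_mem ha.1 hb.1, ml_iff.1 ((ml_iff.2 ha.2).add (ml_iff.2 hb.2))⟩

private theorem ns_zero {M : VonNeumannAlgebra H} {ζ : ι → H} :
    (0 : H →L[ℂ] H) ∈ NS M ζ := by
  refine ⟨ZeroMemClass.zero_mem M, ?_⟩
  simp

private theorem ns_mul {M : VonNeumannAlgebra H} {ζ : ι → H} {m a : H →L[ℂ] H} (hm : m ∈ M)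
    (ha : a ∈ NS M ζ) : m ∘L a ∈ NS M ζ := by
  refine ⟨MulMemClass.mul_mem hm ha.1, ?_⟩
  refine Summable.of_nonneg_of_le (fun i => by positivity) (fun i => ?_)
    (ha.2.mul_left (‖m‖ ^ 2))
  have h := m.le_opNorm (a (ζ i))
  calc ‖(m ∘L a) (ζ i)‖ ^ 2 = ‖m (a (ζ i))‖ ^ 2 := rfl
    _ ≤ (‖m‖ * ‖a (ζ i)‖) ^ 2 := by gcongr
    _ = ‖m‖ ^ 2 * ‖a (ζ i)‖ ^ 2 := by ring

private theorem ns_smul {M : VonNeumannAlgebra H} {ζ : ι → H} (c : ℂ) {a : H →L[ℂ] H}
    (ha : a ∈ NS M ζ) : c • a ∈ NS M ζ := by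
  have h1 : c • a = (c • ContinuousLinearMap.id ℂ H) ∘L a := by
    ext x
    simp
  have h2 : c • ContinuousLinearMap.id ℂ H ∈ M := by
    have h3 : (c • ContinuousLinearMap.id ℂ H) = algebraMap ℂ (H →L[ℂ] H) c := by
      ext x
      simp [Algebra.algebraMap_eq_smul_one]
    rw [h3]
    exact M.toStarSubalgebra.algebraMap_mem c
  rw [h1]
  exact ns_mul h2 ha

/-- `NS M ζ` as a subspace. -/
private def nsb (M : VonNeumannAlgebra H) (ζ : ι → H) : Submodule ℂ (H →L[ℂ] H) where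
  carrier := NS M ζ
  add_mem' := ns_add
  zero_mem' := ns_zero
  smul_mem' c _ ha := ns_smul c ha

/-- The map `a ↦ (a ζ_i)_i`. -/
private def jl (M : VonNeumannAlgebra H) (ζ : ι → H) : nsb M ζ →ₗ[ℂ] lp (fun _ : ι => H) 2 where
  toFun a := ⟨fun i => a.1 (ζ i), ml_iff.2 a.2.2⟩
  map_add' a b := by
    ext i
    rfl
  map_smul' c a := by
    ext i
    rfl

/-- The GNS space. -/
private abbrev GG (M : VonNeumannAlgebra H) (ζ : ι → H) : Submodule ℂ (lp (fun _ : ι => H) 2) :=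
  (LinearMap.range (jl M ζ)).topologicalClosure

/-- The GNS map. -/
private def Ll (M : VonNeumannAlgebra H) (ζ : ι → H) : nsb M ζ →ₗ[ℂ] GG M ζ :=
  (jl M ζ).codRestrict (GG M ζ) fun a => subset_closure ⟨a, rfl⟩

private theorem dense_Ll (M : VonNeumannAlgebra H) (ζ : ι → H) : DenseRange (Ll M ζ) := by
  intro y
  rw [closure_subtype]
  have h1 : ((↑) : GG M ζ → lp (fun _ : ι => H) 2) '' Set.range (Ll M ζ) =
      Set.range (jl M ζ) := by
    rw [← Set.range_comp]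
    rfl
  rw [h1]
  exact y.2

private theorem norm_GG (M : VonNeumannAlgebra H) (ζ : ι → H) (g : GG M ζ) :
    HasSum (fun i => ‖(g : lp (fun _ : ι => H) 2) i‖ ^ 2) (‖g‖ ^ 2) := by
  have h := lp.hasSum_norm (p := 2) (by norm_num) (g : lp (fun _ : ι => H) 2)
  simpa using h

private theorem exists_act (M : VonNeumannAlgebra H) (ζ : ι → H) {m : H →L[ℂ] H} (hm : m ∈ M) :
    ∃ T : GG M ζ →L[ℂ] GG M ζ, ∀ i g, ((T g : GG M ζ) : lp (fun _ : ι => H) 2) i =
      m ((g : lp (fun _ : ι => H) 2) i) := by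
  have : CompleteSpace (GG M ζ) :=
    (LinearMap.range (jl M ζ)).isClosed_topologicalClosure.completeSpace_coe
  let f : nsb M ζ →ₗ[ℂ] GG M ζ :=
    { toFun := fun a => Ll M ζ ⟨m ∘L a.1, ns_mul hm a.2⟩
      map_add' := fun a b => by
        rw [← map_add]
        congr 1
        apply Subtype.ext
        ext x
        simp
      map_smul' := fun c a => by
        rw [← map_smul]
        congr 1
        apply Subtype.ext
        ext x
        simp }
  have hf : ∀ a, ‖f a‖ ≤ ‖m‖ * ‖Ll M ζ a‖ := by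
    intro a
    have h1 := norm_GG M ζ (f a)
    have h2 := (norm_GG M ζ (Ll M ζ a)).mul_left (‖m‖ ^ 2)
    have h3 : ‖f a‖ ^ 2 ≤ ‖m‖ ^ 2 * ‖Ll M ζ a‖ ^ 2 := by
      refine hasSum_le (fun i => ?_) h1 h2
      have h4 := m.le_opNorm (a.1 (ζ i))
      change ‖m (a.1 (ζ i))‖ ^ 2 ≤ ‖m‖ ^ 2 * ‖a.1 (ζ i)‖ ^ 2
      rw [← mul_pow]
      exact pow_le_pow_left₀ (norm_nonneg _) h4 2
    rw [← mul_pow] at h3
    exact (pow_le_pow_iff_left₀ (norm_nonneg _) (by positivity) two_ne_zero).1 h3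
  obtain ⟨T, hT, -⟩ := exists_clm (Ll M ζ) (dense_Ll M ζ) f ‖m‖ hf
  refine ⟨T, fun i g => ?_⟩
  let ev : GG M ζ →L[ℂ] H := (lp.evalCLM ℂ (fun _ : ι => H) 2 i) ∘L (GG M ζ).subtypeL
  have key : ev ∘L T = m ∘L ev := by
    ext g
    refine DenseRange.induction_on (dense_Ll M ζ) g
      (isClosed_eq (ev ∘L T).continuous (m ∘L ev).continuous) fun a => ?_
    change ev (T (Ll M ζ a)) = m (ev (Ll M ζ a))
    rw [hT]
    rfl
  exact congrArg (fun W : GG M ζ →L[ℂ] H => W g) key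

end Aux

theorem exists_wt {M : VonNeumannAlgebra H} {w : (H →L[ℂ] H) → ℝ≥0∞} (hw : IsNSF M w) :
    ∃ (G : Type u) (_ : NormedAddCommGroup G) (_ : InnerProductSpace ℂ G) (_ : CompleteSpace G)
      (wt : Wt M G), ∀ x ∈ M, 0 ≤ x →
        w x = ∑' i, ENNReal.ofReal (RCLike.re ⟪wt.z i, x (wt.z i)⟫_ℂ) := by
  classical
  obtain ⟨ι, ζ, hζ⟩ := hw.normal
  have hcs : CompleteSpace (GG M ζ) :=
    (LinearMap.range (jl M ζ)).isClosed_topologicalClosure.completeSpace_coe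
  let act : (H →L[ℂ] H) → GG M ζ →L[ℂ] GG M ζ := fun m =>
    if hm : m ∈ M then (exists_act M ζ hm).choose else 0
  have hact : ∀ m ∈ M, ∀ i g, ((act m g : GG M ζ) : lp (fun _ : ι => H) 2) i =
      m ((g : lp (fun _ : ι => H) 2) i) := by
    intro m hm
    simp only [act, dif_pos hm]
    exact (exists_act M ζ hm).choose_spec
  let Λ : (H →L[ℂ] H) → GG M ζ := fun a => if h : a ∈ NS M ζ then Ll M ζ ⟨a, h⟩ else 0
  have hΛ : ∀ a (h : a ∈ NS M ζ), Λ a = Ll M ζ ⟨a, h⟩ := fun a h => dif_pos h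
  refine ⟨GG M ζ, inferInstance, inferInstance, hcs,
    { ι := ι
      z := ζ
      Λ := Λ
      Z := fun i => (lp.evalCLM ℂ (fun _ : ι => H) 2 i) ∘L (GG M ζ).subtypeL
      act := act
      faithful := ?_
      semifinite := ?_
      Λ_add := ?_
      Λ_smul := ?_
      dense := ?_
      Z_Λ := ?_
      norm_Z := ?_
      Z_act := ?_ }, hζ⟩
  · intro a ha h0
    refine hw.faithful a ha ?_
    have h1 : a ∈ NS M ζ := by
      refine ⟨ha, ?_⟩
      simp [h0]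
    rw [← (mem_NS_iff hζ ha).2 h1]
    simp [h0]
  · intro n ξ ε hε
    obtain ⟨a, ha, hk⟩ := hw.semifinite 1 (OneMemClass.one_mem M) n ξ ε hε
    exact ⟨a, (mem_NS_iff hζ ha.1).1.2 ha, hk⟩
  · intro a ha b hb
    rw [hΛ a ha, hΛ b hb, hΛ _ (ns_add ha hb), ← map_add]
    rfl
  · intro c a ha
    rw [hΛ a ha, hΛ _ (ns_smul c ha), ← map_smul]
    rfl
  · have h1 : Λ '' NS M ζ = Set.range (Ll M ζ) := by
      ext g
      constructor
      · rintro ⟨a, ha, rfl⟩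
        exact ⟨⟨a, ha⟩, (hΛ a ha).symm⟩
      · rintro ⟨a, rfl⟩
        exact ⟨a.1, a.2, hΛ a.1 a.2⟩
    rw [h1]
    exact dense_Ll M ζ
  · intro a ha i
    rw [hΛ a ha]
    rfl
  · intro g
    exact norm_GG M ζ g
  · intro m hm i g
    exact hact m hm i g

end Pool.Agent.VNQ
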