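import Pool.Agent.VNQ.TrS
import Pool.Agent.VNQ.RedPhi
import Pool.Agent.VNQ.AU

/-!
# Transport of weights

`Rep.isNSF`: if `w` is a normal semifinite faithful weight on `M` then
`y ↦ w (inv y)` is a normal semifinite faithful weight on `π(M)`.

Proof. Normal: let `w x = ∑' i, ofReal (re ⟪ζ_i, x ζ_i⟫)` for `0 ≤ x ∈ M` and let `S_n` be as in
`exists_S`. For `0 ≤ y ∈ π(M)`, `m = inv y` (`0 ≤ m ∈ M`: `inv_mem`, `inv_nonneg`):
`⟪z, m z⟫ = ∑_n ⟪S_n z, S_n m z⟫ = ∑_n ⟪S_n z, y S_n z⟫` (`hasSum_inner_of_norm`, `S_π`), with terms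
`≥ 0`, so `w m = ∑' i, ∑' n, ofReal (re ⟪S_n ζ_i, y S_n ζ_i⟫)`
(`ENNReal.ofReal_tsum_of_nonneg`, `ENNReal.tsum_prod`); the family is `(S_n ζ_i)_{(i, n)}`.
Faithful: if `w (inv (star y * y)) = 0` then `inv (star y * y) = star (inv y) * inv y`
(`inv_comp`, `inv_adj`), so `inv y = 0` and `y = π(inv y) = 0` (`π_smul 0`, or `π_inv`).
Semifinite: let `y ∈ π(M)`, vectors `ξ_k` (`k < n`) and `ε > 0`. By `exists_wt` (for `w` on `M`) and
`Wt.exists_net` there is a net `e_l ∈ N_w` (`mem_NS_iff` translates `wt.N = NS M wt.z` to `NL M w`),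
self-adjoint, `‖e_l z‖ ≤ ‖z‖`, `e_l z → z` for all `z ∈ H`. Then `π(e_l) g → g` for all `g ∈ K`:
`‖π(e_l) g - g‖² = ∑_i ‖e_l Z_i g - Z_i g‖²`, dominated by `4 ‖Z_i g‖²`
(`tendsto_tsum_of_dominated_convergence`; the filter of `exists_net` is arbitrary but Mathlib's
statement holds for every filter; otherwise use a finite part and the tail of `∑ ‖Z_i g‖²`).
Then `a = y π(e_l) ∈ π(M)` for suitable `l`: `‖a ξ_k - y ξ_k‖ ≤ ‖y‖ ‖π(e_l) ξ_k - ξ_k‖ < ε`, and
`a ∈ NL`: `inv a = inv y ∘L e_l ∈ N_w` (left ideal: `Wt.mul_mem`), with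
`inv (star a * a) = star (inv a) * inv a`.

`Rep.mem_NL`: for `m ∈ M`: `π(m) ∈ NL R.vn (w ∘ inv) ↔ m ∈ NL M w`
(`inv (star (π m) * π m) = star m * m`).
-/

set_option autoImplicit false

noncomputable section

open scoped TensorProduct InnerProductSpace InnerProduct ENNReal

namespace Pool.Agent.VNQ

universe u

variable {H K : Type u} [NormedAddCommGroup H] [InnerProductSpace ℂ H] [CompleteSpace H]
  [NormedAddCommGroup K] [InnerProductSpace ℂ K] [CompleteSpace K]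

namespace Rep

variable {M : VonNeumannAlgebra H} (R : Rep M K)

private theorem inv_ss {y : K →L[ℂ] K} (hy : y ∈ R.vn) :
    R.inv (star y * y) = star (R.inv y) * R.inv y := by
  have h1 : star y * y = (y†) ∘L y := rfl
  rw [h1, R.inv_comp (adj_mem hy) hy, R.inv_adj hy]
  rfl

theorem mem_NL {w : (H →L[ℂ] H) → ℝ≥0∞} {m : H →L[ℂ] H} (hm : m ∈ M) :
    R.π m ∈ NL R.vn (fun y => w (R.inv y)) ↔ m ∈ NL M w := by
  have h1 : R.inv (star (R.π m) * R.π m) = star m * m := by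
    rw [R.inv_ss (R.π_mem hm), R.inv_π hm]
  constructor
  · intro h
    refine ⟨hm, ?_⟩
    have h2 : w (R.inv (star (R.π m) * R.π m)) < ∞ := h.2
    rwa [h1] at h2
  · intro h
    refine ⟨R.π_mem hm, ?_⟩
    change w (R.inv (star (R.π m) * R.π m)) < ∞
    rw [h1]
    exact h.2

private theorem tendsto_net {κ : Type*} {l : Filter κ} {e : κ → H →L[ℂ] H}
    (he : ∀ k, e k ∈ M) (hn : ∀ k x, ‖e k x‖ ≤ ‖x‖)
    (ht : ∀ ξ, Filter.Tendsto (fun k => e k ξ) l (nhds ξ)) (g : K) :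
    Filter.Tendsto (fun k => R.π (e k) g) l (nhds g) := by
  rw [tendsto_iff_norm_sub_tendsto_zero]
  have h1 : ∀ k, HasSum (fun i => ‖e k (R.Z i g) - R.Z i g‖ ^ 2) (‖R.π (e k) g - g‖ ^ 2) := by
    intro k
    have h := R.norm_Z (R.π (e k) g - g)
    simp only [map_sub, R.Z_π _ (he k)] at h
    exact h
  have h2 : Filter.Tendsto (fun k => ‖R.π (e k) g - g‖ ^ 2) l (nhds 0) := by
    have h3 : Filter.Tendsto (fun k => ∑' i, ‖e k (R.Z i g) - R.Z i g‖ ^ 2) l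
        (nhds (∑' _ : R.ι, (0 : ℝ))) := by
      refine tendsto_tsum_of_dominated_convergence (bound := fun i => 4 * ‖R.Z i g‖ ^ 2)
        ((R.norm_Z g).summable.mul_left 4) ?_ ?_
      · intro i
        have h4 := (((ht (R.Z i g)).sub_const (R.Z i g)).norm).pow 2
        rw [sub_self, norm_zero] at h4
        simpa using h4
      · refine Filter.Eventually.of_forall fun k i => ?_
        rw [Real.norm_of_nonneg (by positivity)]
        have h5 : ‖e k (R.Z i g) - R.Z i g‖ ≤ 2 * ‖R.Z i g‖ := by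
          have h6 := norm_sub_le (e k (R.Z i g)) (R.Z i g)
          have h7 := hn k (R.Z i g)
          linarith
        have h8 := norm_nonneg (e k (R.Z i g) - R.Z i g)
        nlinarith
    rw [tsum_zero] at h3
    have h4 : (fun k => ∑' i, ‖e k (R.Z i g) - R.Z i g‖ ^ 2) =
        fun k => ‖R.π (e k) g - g‖ ^ 2 := funext fun k => (h1 k).tsum_eq
    rwa [h4] at h3
  have h5 := h2.sqrt
  rw [Real.sqrt_zero] at h5
  have h6 : (fun k => √(‖R.π (e k) g - g‖ ^ 2)) = fun k => ‖R.π (e k) g - g‖ :=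
    funext fun k => Real.sqrt_sq (norm_nonneg _)
  rwa [h6] at h5

omit [CompleteSpace K] in
private theorem re_nn {y : K →L[ℂ] K} (hy : 0 ≤ y) (x : K) : 0 ≤ RCLike.re ⟪x, y x⟫_ℂ := by
  rw [ContinuousLinearMap.nonneg_iff_isPositive] at hy
  exact hy.re_inner_nonneg_right x

private theorem normal_K {w : (H →L[ℂ] H) → ℝ≥0∞} (hw : IsNSF M w) :
    ∃ (ι : Type u) (ζ : ι → K), ∀ y ∈ R.vn, 0 ≤ y →
      w (R.inv y) = ∑' i, ENNReal.ofReal (RCLike.re ⟪ζ i, y (ζ i)⟫_ℂ) := by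
  obtain ⟨ι, ζ, hζ⟩ := hw.normal
  obtain ⟨ν, S, hSi, hS⟩ := R.exists_S
  refine ⟨ι × ν, fun p => S p.2 (ζ p.1), fun y hy hy0 => ?_⟩
  have hm := R.inv_mem hy
  have hm0 := (R.inv_nonneg hy).2 hy0
  rw [hζ _ hm hm0, ENNReal.tsum_prod']
  refine tsum_congr fun i => ?_
  have h1 : HasSum (fun n => ⟪S n (ζ i), y (S n (ζ i))⟫_ℂ) ⟪ζ i, R.inv y (ζ i)⟫_ℂ := by
    have h2 := hasSum_inner_of_norm (fun n => (S n).toLinearMap) LinearMap.id hS (ζ i)
      (R.inv y (ζ i))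
    have h3 : (fun n => ⟪(S n).toLinearMap (ζ i), (S n).toLinearMap (R.inv y (ζ i))⟫_ℂ) =
        fun n => ⟪S n (ζ i), y (S n (ζ i))⟫_ℂ := by
      funext n
      have h4 := R.S_π (hSi n) hm (ζ i)
      rw [R.π_inv hy] at h4
      exact congrArg (fun v => ⟪S n (ζ i), v⟫_ℂ) h4
    rwa [h3] at h2
  have h5 : HasSum (fun n => RCLike.re ⟪S n (ζ i), y (S n (ζ i))⟫_ℂ)
      (RCLike.re ⟪ζ i, R.inv y (ζ i)⟫_ℂ) := Complex.reCLM.hasSum h1
  rw [← h5.tsum_eq, ENNReal.ofReal_tsum_of_nonneg (fun n => re_nn hy0 _) h5.summable]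

theorem isNSF {w : (H →L[ℂ] H) → ℝ≥0∞} (hw : IsNSF M w) :
    IsNSF R.vn (fun y => w (R.inv y)) where
  normal := R.normal_K hw
  faithful y hy h := by
    have h1 : w (R.inv (star y * y)) = 0 := h
    rw [R.inv_ss hy] at h1
    have h2 := hw.faithful _ (R.inv_mem hy) h1
    have h3 := R.π_smul 0 (R.inv_mem hy)
    rw [zero_smul, zero_smul, h2.symm, R.π_inv hy] at h3
    exact h3
  semifinite y hy n ξ ε hε := by
    obtain ⟨G, _, _, _, wt, hwt⟩ := exists_wt hw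
    obtain ⟨κ, l, _, e, he1, he2, he3, he4⟩ := wt.exists_net
    have h1 : ∀ k, ∀ᶠ j in l, ‖R.π (e j) (ξ k) - ξ k‖ < ε / (‖y‖ + 1) := by
      intro k
      have h2 := R.tendsto_net (fun j => (he1 j).1) he3 he4 (ξ k)
      rw [tendsto_iff_norm_sub_tendsto_zero] at h2
      exact (tendsto_order.1 h2).2 _ (by positivity)
    obtain ⟨j, hj⟩ := (Filter.eventually_all.2 h1).exists
    have h3 : R.inv y ∘L e j ∈ M := comp_mem (R.inv_mem hy) (he1 j).1
    have h4 : R.inv y ∘L e j ∈ NL M w :=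
      (mem_NS_iff hwt h3).1.1 (wt.mul_mem (R.inv_mem hy) (he1 j))
    refine ⟨R.π (R.inv y ∘L e j), (R.mem_NL h3).2 h4, fun k => ?_⟩
    rw [R.π_comp (R.inv_mem hy) (he1 j).1, R.π_inv hy, ContinuousLinearMap.comp_apply, ← map_sub]
    refine (y.le_opNorm _).trans_lt ?_
    have h5 := hj k
    have h6 := norm_nonneg y
    rw [lt_div_iff₀ (by positivity)] at h5
    have h7 := norm_nonneg (R.π (e j) (ξ k) - ξ k)
    nlinarith

end Rep

end Pool.Agent.VNQ
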