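import Pool.Agent.VNQ.TrT
import Pool.Agent.VNQ.WtK
import Pool.Agent.VNQ.InvK
import Pool.Agent.VNQ.NorK
import Pool.Agent.VNQ.CoaK

/-!
# The quantum group acting on the GNS space

`VNQGroup.exists_one`: the von Neumann algebra `π(M)` on `K` with the transported coproduct
`y ↦ Δ(inv y)_K`, weights `φ ∘ inv`, `ψ ∘ inv` and GNS map `Λ ∘ inv` is a `VNQG K`.

Proof. `map_mem`: `tr_mem`. `map_add`, `map_smul`, `map_mul`, `map_star`, `map_one`: `inv_add`, ...,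
`inv_id`; the properties of `Q.Δ`; `tr_add`, ..., `tr_id` (`Δ_comm2`); `*`, `star`, `1` are `∘L`, `†`,
`id` by definition. `map_normal`: `normal_K`. `coassoc`: `coassoc_K`. `φ_nsf`, `ψ_nsf`: `isNSF`.
`left_inv`, `right_inv`: `left_inv_K`, `right_inv_K`. `Λ_add`, `Λ_smul`: `inv_add`, `inv_smul`, and
`inv a ∈ NL Q.M Q.ψ` for `a ∈ NL R.vn (ψ ∘ inv)` (`mem_NL` with `a = π(inv a)`, `π_inv`).
`Λ_norm`: `inv (star a * a) = star (inv a) * inv a`. `Λ_mul`: `inv (x * a) = inv x * inv a`,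
`Λ (inv x * inv a) = Q.π (inv x) (Λ (inv a))` (`π_Λ`), `Q.π (inv x) = R.π (inv x) = x` (`hR`, `π_inv`).
`Λ_dense`: the image is the same set as for `Q` (`mem_NL`, `inv_π`).
-/

set_option autoImplicit false

noncomputable section

open scoped TensorProduct InnerProductSpace InnerProduct ENNReal

namespace Pool.Agent.VNQ

universe u

variable {H K : Type u} [NormedAddCommGroup H] [InnerProductSpace ℂ H] [CompleteSpace H]
  [NormedAddCommGroup K] [InnerProductSpace ℂ K] [CompleteSpace K]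

namespace VNQGroup

variable (Q : VNQGroup H K)

theorem exists_one (R : Rep Q.M K) (hR : R.π = Q.π) : ∃ Q₁ : VNQG K, Q₁.M = R.vn ∧
    (Q₁.Δ = fun y => R.tr (Q.Δ (R.inv y))) ∧ (Q₁.ψ = fun y => Q.ψ (R.inv y)) ∧
    Q₁.Λ = fun y => Q.Λ (R.inv y) := by
  have kM : ∀ {a : K →L[ℂ] K}, a ∈ NL R.vn (fun y => Q.ψ (R.inv y)) →
      R.inv a ∈ NL Q.M Q.ψ := by
    intro a ha
    refine (R.mem_NL (w := Q.ψ) (R.inv_mem ha.1)).1 ?_
    rw [R.π_inv ha.1]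
    exact ha
  have kmul : ∀ {x y : K →L[ℂ] K}, x ∈ R.vn → y ∈ R.vn →
      R.inv (x * y) = R.inv x * R.inv y := fun hx hy => R.inv_comp hx hy
  have kstar : ∀ {x : K →L[ℂ] K}, x ∈ R.vn → R.inv (star x) = star (R.inv x) :=
    fun hx => R.inv_adj hx
  have kone : R.inv (1 : K →L[ℂ] K) = 1 := R.inv_id
  refine ⟨{
    M := R.vn
    Δ := fun y => R.tr (Q.Δ (R.inv y))
    map_mem := fun x hx => R.tr_mem (Q.map_mem _ (R.inv_mem hx))
    map_add := fun x hx y hy => ?_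
    map_smul := fun c x hx => ?_
    map_mul := fun x hx y hy => ?_
    map_star := fun x hx => ?_
    map_one := ?_
    map_normal := fun θ => Q.normal_K R θ
    coassoc := fun x hx α' α β' β η' η => Q.coassoc_K R hx α' α β' β η' η
    φ := fun y => Q.φ (R.inv y)
    φ_nsf := R.isNSF Q.φ_nsf
    left_inv := fun x hx h0 hf ξ => Q.left_inv_K R hx h0 hf ξ
    ψ := fun y => Q.ψ (R.inv y)
    ψ_nsf := R.isNSF Q.ψ_nsf
    right_inv := fun x hx h0 hf η => Q.right_inv_K R hx h0 hf η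
    Λ := fun y => Q.Λ (R.inv y)
    Λ_add := fun a ha b hb => ?_
    Λ_smul := fun c a ha => ?_
    Λ_norm := fun a ha => ?_
    Λ_mul := fun x hx a ha => ?_
    Λ_dense := ?_ }, rfl, rfl, rfl, rfl⟩
  · show R.tr (Q.Δ (R.inv (x + y))) = R.tr (Q.Δ (R.inv x)) + R.tr (Q.Δ (R.inv y))
    rw [R.inv_add hx hy, Q.map_add _ (R.inv_mem hx) _ (R.inv_mem hy),
      R.tr_add (Q.Δ_comm2 (R.inv_mem hx)) (Q.Δ_comm2 (R.inv_mem hy))]
  · show R.tr (Q.Δ (R.inv (c • x))) = c • R.tr (Q.Δ (R.inv x))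
    rw [R.inv_smul c hx, Q.map_smul c _ (R.inv_mem hx), R.tr_smul c (Q.Δ_comm2 (R.inv_mem hx))]
  · show R.tr (Q.Δ (R.inv (x * y))) = R.tr (Q.Δ (R.inv x)) ∘L R.tr (Q.Δ (R.inv y))
    rw [kmul hx hy, Q.map_mul _ (R.inv_mem hx) _ (R.inv_mem hy)]
    exact R.tr_comp (Q.Δ_comm2 (R.inv_mem hx)) (Q.Δ_comm2 (R.inv_mem hy))
  · show R.tr (Q.Δ (R.inv (star x))) = (R.tr (Q.Δ (R.inv x)))†
    rw [kstar hx, Q.map_star _ (R.inv_mem hx)]
    exact R.tr_adj (Q.Δ_comm2 (R.inv_mem hx))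
  · show R.tr (Q.Δ (R.inv 1)) = 1
    rw [kone, Q.map_one]
    exact R.tr_id
  · show Q.Λ (R.inv (a + b)) = Q.Λ (R.inv a) + Q.Λ (R.inv b)
    rw [R.inv_add ha.1 hb.1, Q.Λ_add _ (kM ha) _ (kM hb)]
  · show Q.Λ (R.inv (c • a)) = c • Q.Λ (R.inv a)
    rw [R.inv_smul c ha.1, Q.Λ_smul c _ (kM ha)]
  · show ENNReal.ofReal (‖Q.Λ (R.inv a)‖ ^ 2) = Q.ψ (R.inv (star a * a))
    rw [kmul (star_mem ha.1) ha.1, kstar ha.1]
    exact Q.Λ_norm _ (kM ha)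
  · show Q.Λ (R.inv (x * a)) = x (Q.Λ (R.inv a))
    rw [kmul hx ha.1, ← Q.π_Λ _ (R.inv_mem hx) _ (kM ha), ← hR, R.π_inv hx]
  · refine Q.Λ_dense.mono ?_
    rintro _ ⟨a, ha, rfl⟩
    refine ⟨R.π a, (R.mem_NL (w := Q.ψ) ha.1).2 ha, ?_⟩
    show Q.Λ (R.inv (R.π a)) = Q.Λ a
    rw [R.inv_π ha.1]

end VNQGroup

end Pool.Agent.VNQ
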