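import Pool.Agent.VNQ.MainV
import Pool.Agent.VNQ.OneK
import Pool.Agent.VNQ.FinBG
import Pool.Agent.VNQ.CondV

/-!
# The main theorem for `M` acting on an arbitrary Hilbert space

Proof. Let `R` be as in `exists_rep` (`R.π = Q.π`), `Q₁` as in `exists_one`, and let `V` be as in
`Q₁.main`.
* `Q.Intertwines T ↔ R.Int T` (`hR`; `ContinuousLinearMap.ext_iff`).
* For `p ∈ M`: `p ∈ NL Q.M Q.ψ ↔ R.π p ∈ NL Q₁.M Q₁.ψ` (`mem_NL`), `Q₁.Λ (R.π p) = Q.Λ p` and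
  `Q₁.Δ (R.π p) = R.tr (Q.Δ p)` (`inv_π`), and every element of `Q₁.M = π(M)` is some `R.π p`.
* `Q.IsV V`: isometry from `Q₁.IsV V`; slice: `Q₁.slice` for `R.π a`, `η' = T† κ`, `η`, and
  `sliceR (T† κ) η (R.tr (Q.Δ a)) = R.π (sliceR κ (T η) (Q.Δ a))` (`sliceR_tr`, `comm2_sliceR`).
* Uniqueness: if `Q.IsV V'` then `R_{T†κ}† V' (Λ a ⊗ η) = R_{T†κ}† V (Λ a ⊗ η)` for all
  intertwiners `T` (in particular `T = Z_i`), `κ ∈ H`; the vectors `Z_i† κ` span a dense subspace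
  of `K` (`ext_Z`), so `V' (Λ a ⊗ η) = V (Λ a ⊗ η)` (test with `ξ' ⊗ η'`, `inner_rT_adjoint`), and
  `V' = V` by `Λ_dense` and `clm_ext` (see `MainV.lean`).
* `Q.KRel V ξ ξ₁ ↔ Q₁.KRel V ξ ξ₁` (translate the families with `π` and `inv`;
  `R.π (star q) = star (R.π q)`, `π_adj`). So `K` is single valued and densely defined, and
  `x ∈ Q.DS V ↔ x ∈ Q.M ∧ R.π x ∈ Q₁.DS V`.
* `Q.DS V ⊆ Q.D`: let `x ∈ Q.DS V` with `y ∈ M`. Let `Q'` be the internal form of `Q₁`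
  (`exists_QG`). `(π(x), π(y))` maps `Q₁.KRel V` into itself. `V = Q'.V`: both are `Q₁.IsV` (for
  `Q'.V` see the proof in `MainV.lean`) and by uniqueness; so `Q₁.KRel V ξ ξ₁ ↔ Q'.KR ξ ξ₁`, and
  `Q'.ds_rel` gives (DS) for `(π(x), π(y))`. By `finBG` `Q.DPair x y`.
* If `Q.VectorFunctionals` then `Q.D ⊆ Q.DS V`: for `Q.DPair x x₁` `condV` gives
  `Q₁.DPair (π x) (π x₁)`, so `π(x) ∈ Q₁.D = Q₁.DS V`.
-/

set_option autoImplicit false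

noncomputable section

open scoped TensorProduct InnerProductSpace InnerProduct ENNReal

namespace Pool.Agent.VNQ

universe u

variable {H K : Type u} [NormedAddCommGroup H] [InnerProductSpace ℂ H] [CompleteSpace H]
  [NormedAddCommGroup K] [InnerProductSpace ℂ K] [CompleteSpace K]

/-- Two operators which agree on the tensors `Λ(a) ⊗ η` are equal. -/
private theorem mg_ext (Q : VNQGroup H K) {A B : HTen K K →L[ℂ] HTen K K}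
    (h : ∀ a ∈ NL Q.M Q.ψ, ∀ η, A (tmul (Q.Λ a) η) = B (tmul (Q.Λ a) η)) : A = B := by
  refine clm_ext fun ξ η => ?_
  have hc : IsClosed {g : K | A (tmul g η) = B (tmul g η)} :=
    isClosed_eq (A.continuous.comp (rT η).continuous) (B.continuous.comp (rT η).continuous)
  have h1 : closure (Q.Λ '' NL Q.M Q.ψ) ⊆ {g : K | A (tmul g η) = B (tmul g η)} := by
    refine closure_minimal ?_ hc
    rintro _ ⟨a, ha, rfl⟩
    exact h a ha η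
  rw [Q.Λ_dense.closure_eq] at h1
  exact h1 (Set.mem_univ ξ)

private theorem mg_unique (Q : VNQGroup H K) (R : Rep Q.M K)
    (hI : ∀ i, Q.Intertwines (R.Z i)) {V₁ V₂ : HTen K K →L[ℂ] HTen K K} (h₁ : Q.IsV V₁)
    (h₂ : Q.IsV V₂) : V₁ = V₂ := by
  refine mg_ext Q fun a ha η => ?_
  refine ext_inner_left' fun ξ' η' => ?_
  rw [← inner_lT_adjoint, ← inner_lT_adjoint]
  congr 1
  refine R.ext_Z fun i => ?_
  refine ext_inner_left ℂ fun κ => ?_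
  rw [← ContinuousLinearMap.adjoint_inner_left (R.Z i),
    ← ContinuousLinearMap.adjoint_inner_left (R.Z i),
    inner_lT_adjoint, inner_lT_adjoint, ← inner_rT_adjoint, ← inner_rT_adjoint,
    (h₁.slice (R.Z i) (hI i) a ha κ η).2, (h₂.slice (R.Z i) (hI i) a ha κ η).2]

private theorem mg_isV {G : Type u} [NormedAddCommGroup G] [InnerProductSpace ℂ G]
    [CompleteSpace G] (Q₁ : VNQG K) (Q' : QG K G) (hΔ : Q'.Δ = Q₁.Δ) (hΛ : Q'.ψ.Λ = Q₁.Λ)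
    (hN : ∀ a, a ∈ Q'.ψ.N ↔ a ∈ NL Q₁.M Q₁.ψ) : Q₁.IsV Q'.V := by
  refine ⟨Q'.norm_V, fun a ha η' η => ?_⟩
  obtain ⟨h1, h2⟩ := Q'.V_slice ((hN a).2 ha) η' η
  have e : Q'.sr η' η a = sliceR η' η (Q₁.Δ a) := by
    unfold QG.sr
    rw [hΔ]
  rw [e] at h1 h2
  rw [hΛ] at h2
  exact ⟨(hN _).1 h1, h2⟩

private theorem mg_KR {G : Type u} [NormedAddCommGroup G] [InnerProductSpace ℂ G]
    [CompleteSpace G] (Q₁ : VNQG K) (Q' : QG K G) (hΛ : Q'.ψ.Λ = Q₁.Λ)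
    (hN : ∀ a, a ∈ Q'.ψ.N ↔ a ∈ NL Q₁.M Q₁.ψ) (ξ ξ₁ : K) :
    Q₁.KRel Q'.V ξ ξ₁ ↔ Q'.KR ξ ξ₁ := by
  unfold VNQG.KRel QG.KR
  simp only [hN, hΛ]
  exact Iff.rfl

theorem VNQGroup.main (Q : VNQGroup H K) :
    ∃ V : HTen K K →L[ℂ] HTen K K, Q.IsV V ∧ (∀ V', Q.IsV V' → V' = V) ∧
      (∀ ξ ξ₁ ξ₂, Q.KRel V ξ ξ₁ → Q.KRel V ξ ξ₂ → ξ₁ = ξ₂) ∧
      Dense {ξ | ∃ ξ₁, Q.KRel V ξ ξ₁} ∧ Q.DS V ⊆ Q.D ∧
      (Q.VectorFunctionals → Q.D = Q.DS V) := by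
  obtain ⟨R, ζ, hR, -, -⟩ := Q.exists_rep
  obtain ⟨Q₁, hM, hΔ, hψ, hΛ⟩ := Q.exists_one R hR
  obtain ⟨V, hV, hVu, hK1, hK2, hDS⟩ := Q₁.main
  have hNL : ∀ {a : H →L[ℂ] H}, a ∈ Q.M → (R.π a ∈ NL Q₁.M Q₁.ψ ↔ a ∈ NL Q.M Q.ψ) := by
    intro a ha
    rw [hM, hψ]
    exact R.mem_NL ha
  have hΛπ : ∀ {a : H →L[ℂ] H}, a ∈ Q.M → Q₁.Λ (R.π a) = Q.Λ a := by
    intro a ha
    rw [hΛ]
    show Q.Λ (R.inv (R.π a)) = Q.Λ a
    rw [R.inv_π ha]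
  have hΔπ : ∀ {a : H →L[ℂ] H}, a ∈ Q.M → Q₁.Δ (R.π a) = R.tr (Q.Δ a) := by
    intro a ha
    rw [hΔ]
    show R.tr (Q.Δ (R.inv (R.π a))) = R.tr (Q.Δ a)
    rw [R.inv_π ha]
  have hInt : ∀ T : K →L[ℂ] H, Q.Intertwines T ↔ R.Int T := by
    intro T
    constructor
    · intro h m hm g
      have h1 := congrArg (fun A : K →L[ℂ] H => A g) (h m hm)
      rw [hR]
      exact h1
    · intro h m hm
      ext g
      have h1 := h m hm g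
      rw [hR] at h1
      exact h1
  have hstar : ∀ {q : H →L[ℂ] H}, q ∈ Q.M → Q.π (star q) = star (R.π q) := by
    intro q hq
    rw [← hR]
    exact R.π_adj hq
  have hKR : ∀ ξ ξ₁, Q.KRel V ξ ξ₁ ↔ Q₁.KRel V ξ ξ₁ := by
    intro ξ ξ₁
    constructor
    · intro h ε hε n η
      obtain ⟨m, p, q, hp, hq, h1⟩ := h ε hε n η
      refine ⟨m, fun j => R.π (p j), fun j => R.π (q j), fun j => (hNL (hp j).1).2 (hp j),
        fun j => (hNL (hq j).1).2 (hq j), fun k => ?_⟩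
      have h2 := h1 k
      simp only [hstar (hp _).1, hstar (hq _).1] at h2
      simp only [hΛπ (hp _).1, hΛπ (hq _).1]
      exact h2
    · intro h ε hε n η
      obtain ⟨m, p, q, hp, hq, h1⟩ := h ε hε n η
      have hpv : ∀ j, p j ∈ R.vn := fun j => hM ▸ (hp j).1
      have hqv : ∀ j, q j ∈ R.vn := fun j => hM ▸ (hq j).1
      have hpm : ∀ j, R.inv (p j) ∈ Q.M := fun j => R.inv_mem (hpv j)
      have hqm : ∀ j, R.inv (q j) ∈ Q.M := fun j => R.inv_mem (hqv j)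
      refine ⟨m, fun j => R.inv (p j), fun j => R.inv (q j), fun j => ?_, fun j => ?_,
        fun k => ?_⟩
      · rw [← hNL (hpm j), R.π_inv (hpv j)]
        exact hp j
      · rw [← hNL (hqm j), R.π_inv (hqv j)]
        exact hq j
      · have h2 := h1 k
        simp only [hstar (hpm _), hstar (hqm _), R.π_inv (hpv _), R.π_inv (hqv _),
          ← hΛπ (hpm _), ← hΛπ (hqm _)]
        exact h2
  have hV' : Q.IsV V := by
    refine ⟨hV.isometry, fun T hT a ha κ η => ?_⟩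
    obtain ⟨h1, h2⟩ := hV.slice (R.π a) ((hNL ha.1).2 ha) ((T†) κ) η
    rw [hΔπ ha.1, R.sliceR_tr (Q.Δ_comm2 ha.1) ((hInt T).1 hT)] at h1 h2
    have hs : sliceR κ (T η) (Q.Δ a) ∈ Q.M := comm2_sliceR (Q.Δ_comm2 ha.1) _ _
    rw [hΛπ ha.1, hΛπ hs] at h2
    exact ⟨(hNL hs).1 h1, h2⟩
  have hsub : Q.DS V ⊆ Q.D := by
    rintro x ⟨hx, y, hy, h⟩
    refine ⟨hx, y, hy, ?_⟩
    obtain ⟨G, i1, i2, i3, Q', hM', hΔ', hΛ', hN'⟩ := Q₁.exists_QG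
    have hVV : Q'.V = V := hVu _ (mg_isV Q₁ Q' hΔ' hΛ' hN')
    have hk : ∀ ξ ξ₁, Q₁.KRel V ξ ξ₁ ↔ Q'.KR ξ ξ₁ := by
      intro ξ ξ₁
      rw [← hVV]
      exact mg_KR Q₁ Q' hΛ' hN' ξ ξ₁
    refine Q.finBG R Q' (hM'.trans hM) (fun m hm => ?_) hx hy (fun ξ γ => ?_)
    · rw [hΔ']
      exact hΔπ hm
    · refine Q'.ds_rel (fun ξ ξ₁ h' => ?_) ξ γ
      have h1 := h ξ ξ₁ ((hKR _ _).2 ((hk _ _).2 h'))
      rw [← hR] at h1
      exact (hk _ _).1 ((hKR _ _).1 h1)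
  refine ⟨V, hV', fun V' h => mg_unique Q R (fun i => (hInt _).2 (R.int_Z i)) h hV', ?_, ?_,
    hsub, ?_⟩
  · intro ξ ξ₁ ξ₂ h h'
    exact hK1 ξ ξ₁ ξ₂ ((hKR _ _).1 h) ((hKR _ _).1 h')
  · have e : {ξ : K | ∃ ξ₁, Q.KRel V ξ ξ₁} = {ξ : K | ∃ ξ₁, Q₁.KRel V ξ ξ₁} := by
      ext ξ
      exact exists_congr fun ξ₁ => hKR ξ ξ₁
    rw [e]
    exact hK2
  · intro hv
    refine Set.Subset.antisymm ?_ hsub
    rintro x ⟨hx, x₁, hx₁, h⟩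
    have h1 := Q.condV R hR Q₁ hM hΔ hv hx hx₁ h
    have hxm : R.π x ∈ Q₁.M := by
      rw [hM]
      exact R.π_mem hx
    have hx₁m : R.π x₁ ∈ Q₁.M := by
      rw [hM]
      exact R.π_mem hx₁
    have h2 : R.π x ∈ Q₁.D := ⟨hxm, R.π x₁, hx₁m, h1⟩
    rw [hDS] at h2
    obtain ⟨-, y, hy, h3⟩ := h2
    have hyv : y ∈ R.vn := hM ▸ hy
    refine ⟨hx, R.inv y, R.inv_mem hyv, fun ξ ξ₁ h4 => ?_⟩
    rw [← hR, R.π_inv hyv]
    exact (hKR _ _).2 (h3 _ _ ((hKR _ _).1 h4))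

end Pool.Agent.VNQ
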