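import Pool.Agent.VNQ.ToG
import Pool.Agent.VNQ.MainG

/-!
# The main theorem for `QuantumGroup`

Proof. `U : HTen H H ≃ₗᵢ T` for `Q.t` and `W : HTen K K ≃ₗᵢ S` for `s` from `exists_U`; `Q₀` from
`exists_group`; `V₀` from `Q₀.main` (`MainG.lean`). Let `V = W V₀ W⁻¹` (so `V₀ = pull W V`).
* For `V' : S →L[ℂ] S`: `Q.IsV s V' ↔ Q₀.IsV (pull W V')`. Isometry: `W` is isometric. Slice:
  `Q.Intertwines A ↔ Q₀.Intertwines A`; `SliceR Q.t κ (A g) (Q.Δ a) r ↔ r = sliceR κ (A g) (Q₀.Δ a)`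
  (`slice_iff_R`); `Nw Q.M Q.ψ = NL Q₀.M Q₀.ψ`; and, with `r := sliceR κ (A g) (Q₀.Δ a)`,
  `(∀ f, ⟪s f (A† κ), V' (s (Λ a) g)⟫ = ⟪f, Λ r⟫) ↔ ((rT (A† κ))†) (pull W V' (tmul (Λ a) g)) = Λ r`
  (`inner_rT_adjoint`, `inner_pull`, `ext_inner_left`).
  So `Q.IsV s V`, and `V` is unique (`pull W` is injective).
* `Q.KRel s V ξ ξ₁ ↔ Q₀.KRel V₀ ξ ξ₁`:
  `s ξ η - V (∑ s (Λ p_j) (π(q_j*) η)) = W (tmul ξ η - V₀ (∑ tmul (Λ p_j) (π(q_j*) η)))` and `W` is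
  isometric. `Q.DPair x x₁ ↔ Q₀.DPair x x₁`:
  `Q.t (x ξ) η - ∑ Q.Δ(p_j) (Q.t ξ (q_j* η)) = U (tmul (x ξ) η - ∑ Q₀.Δ(p_j) (tmul ξ (q_j* η)))`.
  So `Q.D = Q₀.D`, `Q.DS s V = Q₀.DS V₀`, and `Q.VectorFunctionals ↔ Q₀.VectorFunctionals`.
-/

set_option autoImplicit false
set_option linter.unusedSectionVars false

noncomputable section

open scoped TensorProduct InnerProductSpace InnerProduct ENNReal

namespace Pool.Agent.VNQ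

universe u

variable {H K T S : Type u} [NormedAddCommGroup H] [InnerProductSpace ℂ H] [CompleteSpace H]
  [NormedAddCommGroup K] [InnerProductSpace ℂ K] [CompleteSpace K]
  [NormedAddCommGroup T] [InnerProductSpace ℂ T] [CompleteSpace T]
  [NormedAddCommGroup S] [InnerProductSpace ℂ S] [CompleteSpace S]

private theorem mt_norm {s : K → K → S} (W : HTen K K ≃ₗᵢ[ℂ] S)
    (hW : ∀ ξ η, W (tmul ξ η) = s ξ η) (V : S →L[ℂ] S) (ξ η : K) {m : ℕ} (a b : Fin m → K) :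
    ‖s ξ η - V (∑ j, s (a j) (b j))‖ = ‖tmul ξ η - pull W V (∑ j, tmul (a j) (b j))‖ := by
  rw [← W.norm_map (tmul ξ η - pull W V (∑ j, tmul (a j) (b j))), map_sub, pull_apply,
    W.apply_symm_apply, map_sum W, hW]
  simp only [hW]

private theorem mt_norm' {t : H → H → T} (U : HTen H H ≃ₗᵢ[ℂ] T)
    (hU : ∀ ξ η, U (tmul ξ η) = t ξ η) (θ η : H) {m : ℕ} (P : Fin m → T →L[ℂ] T)
    (a b : Fin m → H) :
    ‖t θ η - ∑ j, P j (t (a j) (b j))‖ =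
      ‖tmul θ η - ∑ j, pull U (P j) (tmul (a j) (b j))‖ := by
  rw [← U.norm_map (tmul θ η - ∑ j, pull U (P j) (tmul (a j) (b j))), map_sub, map_sum, hU]
  simp only [pull_apply, U.apply_symm_apply, hU]

private theorem mt_int (Q : QuantumGroup H K T) (Q₀ : VNQGroup H K) (hM : Q₀.M = Q.M)
    (hπ : Q₀.π = Q.π) (A : K →L[ℂ] H) : Q.Intertwines A ↔ Q₀.Intertwines A := by
  unfold QuantumGroup.Intertwines VNQGroup.Intertwines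
  rw [hM, hπ]
  constructor
  · intro h m hm
    ext g
    exact h m hm g
  · intro h m hm g
    exact congrArg (fun B : K →L[ℂ] H => B g) (h m hm)

private theorem mt_isV (Q : QuantumGroup H K T) (Q₀ : VNQGroup H K) {s : K → K → S}
    (U : HTen H H ≃ₗᵢ[ℂ] T) (hU : ∀ ξ η, U (tmul ξ η) = Q.t ξ η)
    (W : HTen K K ≃ₗᵢ[ℂ] S) (hW : ∀ ξ η, W (tmul ξ η) = s ξ η)
    (hM : Q₀.M = Q.M) (hψ : Q₀.ψ = Q.ψ) (hΛ : Q₀.Λ = Q.Λ) (hπ : Q₀.π = Q.π)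
    (hΔ : Q₀.Δ = fun x => pull U (Q.Δ x)) (V : S →L[ℂ] S) :
    Q.IsV s V ↔ Q₀.IsV (pull W V) := by
  have hN : Nw Q.M Q.ψ = NL Q₀.M Q₀.ψ := by
    rw [hM, hψ]
    rfl
  have hinner : ∀ (f g : K) (θ : HTen K K),
      ⟪s f g, V (W θ)⟫_ℂ = ⟪f, ((rT g)†) (pull W V θ)⟫_ℂ := by
    intro f g θ
    rw [inner_rT_adjoint, inner_pull, hW]
  constructor
  · intro h
    refine ⟨fun θ => ?_, fun A hA a ha κ η => ?_⟩
    · rw [pull_apply, W.symm.norm_map, h.isometry, W.norm_map]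
    · have h1 := h.slice A ((mt_int Q Q₀ hM hπ A).2 hA) a (hN ▸ ha) κ η
        (sliceR κ (A η) (Q₀.Δ a)) (by
          rw [hΔ]
          exact (slice_iff_R U hU _ _ _ _).2 rfl)
      refine ⟨hN ▸ h1.1, ?_⟩
      refine ext_inner_left ℂ fun f => ?_
      rw [← hinner, hW, hΛ]
      exact h1.2 f
  · intro h
    refine ⟨fun θ => ?_, fun A hA a ha κ g r hr => ?_⟩
    · have h1 := h.isometry (W.symm θ)
      rw [pull_apply, W.symm.norm_map, W.apply_symm_apply, W.symm.norm_map] at h1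
      exact h1
    · have hr' : r = sliceR κ (A g) (Q₀.Δ a) := by
        rw [hΔ]
        exact (slice_iff_R U hU _ _ _ _).1 hr
      obtain ⟨h1, h2⟩ := h.slice A ((mt_int Q Q₀ hM hπ A).1 hA) a (hN ▸ ha) κ g
      rw [← hr'] at h1 h2
      refine ⟨hN ▸ h1, fun f => ?_⟩
      rw [← hW (Q.Λ a) g, hinner, ← hΛ, h2]

private theorem mt_KRel (Q : QuantumGroup H K T) (Q₀ : VNQGroup H K) {s : K → K → S}
    (W : HTen K K ≃ₗᵢ[ℂ] S) (hW : ∀ ξ η, W (tmul ξ η) = s ξ η)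
    (hM : Q₀.M = Q.M) (hψ : Q₀.ψ = Q.ψ) (hΛ : Q₀.Λ = Q.Λ) (hπ : Q₀.π = Q.π)
    (V : S →L[ℂ] S) (ξ ξ₁ : K) :
    Q.KRel s V ξ ξ₁ ↔ Q₀.KRel (pull W V) ξ ξ₁ := by
  have hN : NL Q₀.M Q₀.ψ = Nw Q.M Q.ψ := by
    rw [hM, hψ]
    rfl
  unfold QuantumGroup.KRel VNQGroup.KRel
  rw [hN, hΛ, hπ]
  simp only [mt_norm W hW]

private theorem mt_DPair (Q : QuantumGroup H K T) (Q₀ : VNQGroup H K)
    (U : HTen H H ≃ₗᵢ[ℂ] T) (hU : ∀ ξ η, U (tmul ξ η) = Q.t ξ η)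
    (hM : Q₀.M = Q.M) (hΔ : Q₀.Δ = fun x => pull U (Q.Δ x)) (x x₁ : H →L[ℂ] H) :
    Q.DPair x x₁ ↔ Q₀.DPair x x₁ := by
  unfold QuantumGroup.DPair VNQGroup.DPair
  rw [hM, hΔ]
  have key : ∀ (y : H →L[ℂ] H) (ξ η : H) (m : ℕ) (p q : Fin m → H →L[ℂ] H),
      ‖Q.t (y ξ) η - ∑ j, Q.Δ (p j) (Q.t ξ ((star (q j)) η))‖ =
        ‖tmul (y ξ) η - ∑ j, pull U (Q.Δ (p j)) (tmul ξ ((star (q j)) η))‖ :=
    fun y ξ η m p q => mt_norm' U hU (y ξ) η (fun j => Q.Δ (p j)) (fun _ => ξ)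
      (fun j => (star (q j)) η)
  simp only [key]

theorem QuantumGroup.main (Q : QuantumGroup H K T) {s : K → K → S} (hs : IsTensor s) :
    ∃ V : S →L[ℂ] S, Q.IsV s V ∧ (∀ V', Q.IsV s V' → V' = V) ∧
      (∀ ξ ξ₁ ξ₂, Q.KRel s V ξ ξ₁ → Q.KRel s V ξ ξ₂ → ξ₁ = ξ₂) ∧
      Dense {ξ | ∃ ξ₁, Q.KRel s V ξ ξ₁} ∧ Q.DS s V ⊆ Q.D ∧
      (Q.VectorFunctionals → Q.D = Q.DS s V) := by
  obtain ⟨U, hU⟩ := exists_U Q.isTensor
  obtain ⟨W, hW⟩ := exists_U hs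
  obtain ⟨Q₀, hM, hψ, hΛ, hπ, hΔ⟩ := Q.exists_group U hU
  obtain ⟨V₀, hV₀, hVu, hK1, hK2, hDS, hVF⟩ := Q₀.main
  obtain ⟨V, hV⟩ : ∃ V : S →L[ℂ] S, pull W V = V₀ := by
    refine ⟨(W.toContinuousLinearEquiv : HTen K K →L[ℂ] S) ∘L V₀ ∘L
      (W.symm.toContinuousLinearEquiv : S →L[ℂ] HTen K K), ?_⟩
    ext θ
    rw [pull_apply]
    change W.symm (W (V₀ (W.symm (W θ)))) = V₀ θ
    rw [W.symm_apply_apply, W.symm_apply_apply]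
  have hinj : ∀ V₁ V₂ : S →L[ℂ] S, pull W V₁ = pull W V₂ → V₁ = V₂ := by
    intro V₁ V₂ h
    ext θ
    have h1 := congrArg (fun A : HTen K K →L[ℂ] HTen K K => W (A (W.symm θ))) h
    simp only [pull_apply, W.apply_symm_apply] at h1
    exact h1
  have hIs := fun V' => mt_isV Q Q₀ U hU W hW hM hψ hΛ hπ hΔ V'
  have hKR := fun ξ ξ₁ => mt_KRel Q Q₀ W hW hM hψ hΛ hπ V ξ ξ₁
  rw [hV] at hKR
  have hD : Q.D = Q₀.D := by
    unfold QuantumGroup.D VNQGroup.D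
    rw [hM]
    simp only [mt_DPair Q Q₀ U hU hM hΔ]
  have hDSe : Q.DS s V = Q₀.DS V₀ := by
    unfold QuantumGroup.DS VNQGroup.DS
    rw [hM, hπ]
    simp only [hKR]
  have hVFe : Q.VectorFunctionals ↔ Q₀.VectorFunctionals := by
    unfold QuantumGroup.VectorFunctionals VNQGroup.VectorFunctionals
    rw [hM, hπ]
  refine ⟨V, (hIs V).2 (hV.symm ▸ hV₀), fun V' h => hinj _ _ ?_, fun ξ ξ₁ ξ₂ h h' => ?_, ?_, ?_,
    fun h => ?_⟩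
  · rw [hV]
    exact hVu _ ((hIs V').1 h)
  · exact hK1 ξ ξ₁ ξ₂ ((hKR _ _).1 h) ((hKR _ _).1 h')
  · simp only [hKR]
    exact hK2
  · rw [hDSe, hD]
    exact hDS
  · rw [hDSe, hD]
    exact hVF (hVFe.1 h)

end Pool.Agent.VNQ
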