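import Pool.Agent.VNQ.RedPhi
import Pool.Agent.VNQ.RedPsi

/-!
# From `VNQG` to the internal form `QG`

`VNQG.exists_QG`: for `Q : VNQG H` there are a Hilbert space `G` and `Q' : QG H G` with the same
`M`, `Δ`, `Λ`, and `Q'.ψ.N = NL Q.M Q.ψ`.

Proof. `φ := ` the `Wt` of `exists_wt Q.φ_nsf`, `ψ :=` the `Wt` of `exists_wt_of Q.ψ_nsf Q.Λ ...`,
`M := Q.M`, `Δ := Q.Δ`. `add`, `smul`, `mul`, `adj`, `one`, `coassoc`: the fields of `VNQG`
(`x * y = x ∘L y`, `star x = x†`, `1 = id` by `rfl`).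
`comm_l`: for `x ∈ M`, `Q.Δ x ∈ tensorVN M` commutes with everything in the centralizer of the
operators `mapT a b`, `a, b ∈ M` (`Set.mem_centralizer_iff`); `mapT m id` with `m ∈ M'` commutes
with
`mapT a b` (`mapT_comp`, `m a = a m`). `comm_r` is the same.
`normal`: from `map_normal θ`: `α_n` with `HasSum ⟪α_n, y α_n⟫ ⟪θ, Δ(y) θ⟫` for `y ∈ M`; for `x ∈ M`
take `y = star x * x`: `⟪α_n, x†x α_n⟫ = ‖x α_n‖²`, `⟪θ, Δ(x†x) θ⟫ = ⟪θ, Δ(x)†Δ(x) θ⟫ = ‖Δ(x) θ‖²`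
(`map_mul`, `map_star`; `HasSum` in `ℂ` of real numbers: `Complex.hasSum_ofReal`).
`ψ_act`: from `exists_wt_of`.
`left_inv`: let `a ∈ φ.N` (`mem_NS_iff`: `a ∈ NL M φ`), `ξ ∈ H`, `x = star a * a ≥ 0`, `x ∈ M`,
`φ x < ∞`. `y = sliceL ξ ξ (Δ x)`: `⟪η, y η'⟫ = ⟪Δ(a)(ξ ⊠ η), Δ(a)(ξ ⊠ η')⟫`, so `y ≥ 0`
(`ContinuousLinearMap.nonneg_iff_isPositive`) and `y ∈ M` (it commutes with `m ∈ M'` by `comm_r`;
use
the double commutant, `VonNeumannAlgebra.commutant_commutant`). So by `Q.left_inv` and the formula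
for
`φ`: `∑' j, ofReal (‖Δ(a)(ξ ⊠ z_j)‖²) = φ y = ofReal (‖ξ‖²) φ x = ofReal (‖ξ‖²) ofReal (∑' ‖a
z_j‖²)`
(`mem_NS_iff`), a finite number, and `∑' ‖a z_j‖² = ‖Λ_φ a‖²` (`Wt.hasSum_Λ`). Convert to `HasSum`
in `ℝ` (`ENNReal.ofReal_tsum_of_nonneg` after summability; `ENNReal.ofReal_mul`).
`right_inv`: the same with `sliceR η η`, `comm_l`, `Q.right_inv`.
-/

set_option autoImplicit false

noncomputable section

open scoped TensorProduct InnerProductSpace InnerProduct ENNReal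

namespace Pool.Agent.VNQ

universe u

variable {H : Type u} [NormedAddCommGroup H] [InnerProductSpace ℂ H] [CompleteSpace H]

private theorem rq_inner {E : Type u} [NormedAddCommGroup E] [InnerProductSpace ℂ E]
    [CompleteSpace E] (A : E →L[ℂ] E) (θ : E) :
    ⟪θ, (star A * A) θ⟫_ℂ = ((‖A θ‖ ^ 2 : ℝ) : ℂ) := by
  rw [ContinuousLinearMap.mul_apply, ContinuousLinearMap.star_eq_adjoint,
    ContinuousLinearMap.adjoint_inner_right, inner_self_eq_norm_sq_to_K]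
  push_cast
  rfl

private theorem rq_hasSum {ι : Type u} {f : ι → ℝ} (hf : ∀ i, 0 ≤ f i) {r : ℝ} (hr : 0 ≤ r)
    (h : ∑' i, ENNReal.ofReal (f i) = ENNReal.ofReal r) : HasSum f r := by
  have h1 : Summable fun i => (f i).toNNReal := by
    rw [← ENNReal.tsum_coe_ne_top_iff_summable]
    intro h2
    have h3 : ∑' i, ENNReal.ofReal (f i) = ⊤ := h2
    rw [h] at h3
    exact ENNReal.ofReal_ne_top h3
  have h2 : Summable f := by
    have h3 := NNReal.summable_coe.2 h1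
    refine h3.congr fun i => ?_
    rw [Real.coe_toNNReal _ (hf i)]
  have h3 := ENNReal.ofReal_tsum_of_nonneg hf h2
  rw [h] at h3
  have h4 : ∑' i, f i = r := (ENNReal.ofReal_eq_ofReal_iff (tsum_nonneg hf) hr).1 h3
  rw [← h4]
  exact h2.hasSum

/-- a slice `B† X B` of an element that commutes with the images of the commutant -/
private theorem rq_mem {M : VonNeumannAlgebra H} {T : Type u} [NormedAddCommGroup T]
    [InnerProductSpace ℂ T] [CompleteSpace T] (X : T →L[ℂ] T) (B : H →L[ℂ] T)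
    (j : (H →L[ℂ] H) → (T →L[ℂ] T)) (hX : ∀ m ∈ M.commutant, X ∘L j m = j m ∘L X)
    (hB : ∀ m, j m ∘L B = B ∘L m) (hB' : ∀ m, B† ∘L j m = m ∘L B†) :
    B† ∘L X ∘L B ∈ M := by
  have h1 : B† ∘L X ∘L B ∈ M.commutant.commutant := by
    rw [VonNeumannAlgebra.mem_commutant_iff]
    intro m hm
    show m ∘L (B† ∘L X ∘L B) = (B† ∘L X ∘L B) ∘L m
    calc m ∘L (B† ∘L X ∘L B) = (m ∘L B†) ∘L X ∘L B := rfl
      _ = (B† ∘L j m) ∘L X ∘L B := by rw [hB']
      _ = B† ∘L (j m ∘L X) ∘L B := rfl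
      _ = B† ∘L (X ∘L j m) ∘L B := by rw [hX m hm]
      _ = B† ∘L X ∘L (j m ∘L B) := rfl
      _ = B† ∘L X ∘L (B ∘L m) := by rw [hB]
      _ = (B† ∘L X ∘L B) ∘L m := rfl
  rwa [VonNeumannAlgebra.commutant_commutant] at h1

/-- the invariance of a weight for one element -/
private theorem rq_inv {M : VonNeumannAlgebra H} {w : (H →L[ℂ] H) → ℝ≥0∞} {G : Type u}
    [NormedAddCommGroup G] [InnerProductSpace ℂ G] [CompleteSpace G] (wt : Wt M G)
    (hw : ∀ x ∈ M, 0 ≤ x → w x = ∑' i, ENNReal.ofReal (RCLike.re ⟪wt.z i, x (wt.z i)⟫_ℂ))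
    {T : Type u} [NormedAddCommGroup T] [InnerProductSpace ℂ T] [CompleteSpace T]
    {a : H →L[ℂ] H} (ha : a ∈ wt.N) (D : T →L[ℂ] T) (B : H →L[ℂ] T)
    (hm : B† ∘L (star D * D) ∘L B ∈ M) {t : ℝ} (ht : 0 ≤ t)
    (h : w (B† ∘L (star D * D) ∘L B) = ENNReal.ofReal t * w (star a * a)) :
    HasSum (fun i => ‖D (B (wt.z i))‖ ^ 2) (t * ‖wt.Λ a‖ ^ 2) := by
  have h0 : 0 ≤ B† ∘L (star D * D) ∘L B := by
    rw [ContinuousLinearMap.nonneg_iff_isPositive]
    have h1 := ContinuousLinearMap.isPositive_adjoint_comp_self (D ∘L B)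
    rw [ContinuousLinearMap.adjoint_comp] at h1
    exact h1
  have h1 := hw _ hm h0
  have h2 : ∀ i, RCLike.re ⟪wt.z i, (B† ∘L (star D * D) ∘L B) (wt.z i)⟫_ℂ =
      ‖D (B (wt.z i))‖ ^ 2 := by
    intro i
    have h3 : ⟪wt.z i, (B† ∘L (star D * D) ∘L B) (wt.z i)⟫_ℂ =
        ⟪B (wt.z i), (star D * D) (B (wt.z i))⟫_ℂ := by
      rw [ContinuousLinearMap.comp_apply, ContinuousLinearMap.adjoint_inner_right]
      rfl
    rw [h3, rq_inner]
    exact Complex.ofReal_re _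
  simp only [h2] at h1
  have h4 := (mem_NS_iff hw ha.1).2 ha
  have h5 := (wt.hasSum_Λ ha).tsum_eq
  rw [h5] at h4
  apply rq_hasSum (fun i => by positivity) (by positivity)
  rw [← h1, h, ← h4, ENNReal.ofReal_mul ht]

private theorem rq_star_mem {M : VonNeumannAlgebra H} {a : H →L[ℂ] H} (ha : a ∈ M) :
    star a * a ∈ M := MulMemClass.mul_mem (star_mem ha) ha

theorem VNQG.exists_QG (Q : VNQG H) :
    ∃ (G : Type u) (_ : NormedAddCommGroup G) (_ : InnerProductSpace ℂ G) (_ : CompleteSpace G)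
      (Q' : QG H G), Q'.M = Q.M ∧ Q'.Δ = Q.Δ ∧ Q'.ψ.Λ = Q.Λ ∧
        ∀ a, a ∈ Q'.ψ.N ↔ a ∈ NL Q.M Q.ψ := by
  obtain ⟨G, i1, i2, i3, φ', hφ⟩ := exists_wt Q.φ_nsf
  obtain ⟨ψ', hψΛ, hψact, hψ⟩ := exists_wt_of Q.ψ_nsf Q.Λ Q.Λ_add Q.Λ_smul Q.Λ_norm Q.Λ_mul
    Q.Λ_dense
  have hid : (ContinuousLinearMap.id ℂ H)† = ContinuousLinearMap.id ℂ H := by
    have h := star_one (H →L[ℂ] H)
    rw [ContinuousLinearMap.star_eq_adjoint] at h
    exact h
  have hcl : ∀ x ∈ Q.M, ∀ m ∈ Q.M.commutant,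
      Q.Δ x ∘L mapT m (ContinuousLinearMap.id ℂ H) =
        mapT m (ContinuousLinearMap.id ℂ H) ∘L Q.Δ x := by
    intro x hx m hm
    have h1 := Q.map_mem x hx
    unfold tensorVN at h1
    rw [Set.mem_centralizer_iff] at h1
    refine (h1 (mapT m (ContinuousLinearMap.id ℂ H)) ?_).symm
    rw [Set.mem_centralizer_iff]
    rintro T ⟨a, ha, b, hb, rfl⟩
    show mapT a b ∘L mapT m (ContinuousLinearMap.id ℂ H) =
      mapT m (ContinuousLinearMap.id ℂ H) ∘L mapT a b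
    rw [mapT_comp, mapT_comp, ContinuousLinearMap.comp_id, ContinuousLinearMap.id_comp]
    have h2 : a ∘L m = m ∘L a := VonNeumannAlgebra.mem_commutant_iff.1 hm a ha
    rw [h2]
  have hcr : ∀ x ∈ Q.M, ∀ m ∈ Q.M.commutant,
      Q.Δ x ∘L mapT (ContinuousLinearMap.id ℂ H) m =
        mapT (ContinuousLinearMap.id ℂ H) m ∘L Q.Δ x := by
    intro x hx m hm
    have h1 := Q.map_mem x hx
    unfold tensorVN at h1
    rw [Set.mem_centralizer_iff] at h1
    refine (h1 (mapT (ContinuousLinearMap.id ℂ H) m) ?_).symm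
    rw [Set.mem_centralizer_iff]
    rintro T ⟨a, ha, b, hb, rfl⟩
    show mapT a b ∘L mapT (ContinuousLinearMap.id ℂ H) m =
      mapT (ContinuousLinearMap.id ℂ H) m ∘L mapT a b
    rw [mapT_comp, mapT_comp, ContinuousLinearMap.comp_id, ContinuousLinearMap.id_comp]
    have h2 : b ∘L m = m ∘L b := VonNeumannAlgebra.mem_commutant_iff.1 hm b hb
    rw [h2]
  have hstar : ∀ x ∈ Q.M, Q.Δ (star x * x) = star (Q.Δ x) * Q.Δ x := by
    intro x hx
    rw [Q.map_mul _ (star_mem hx) _ hx, Q.map_star x hx]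
  refine ⟨G, i1, i2, i3,
    { M := Q.M
      Δ := Q.Δ
      add := Q.map_add
      smul := Q.map_smul
      mul := Q.map_mul
      adj := Q.map_star
      one := Q.map_one
      comm_l := hcl
      comm_r := hcr
      normal := ?_
      coassoc := Q.coassoc
      ψ := ψ'
      ψ_act := hψact
      φ := φ'
      left_inv := ?_
      right_inv := ?_ }, rfl, rfl, hψΛ, ?_⟩
  · intro θ
    obtain ⟨α, -, hα⟩ := Q.map_normal θ
    refine ⟨α, fun x hx => ?_⟩
    have h1 := hα (star x * x) (rq_star_mem hx)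
    rw [hstar x hx, rq_inner] at h1
    simp only [rq_inner] at h1
    exact Complex.hasSum_ofReal.1 h1
  · intro a ha ξ
    have haM : a ∈ Q.M := ha.1
    have hfin : Q.φ (star a * a) < ⊤ := ((mem_NS_iff hφ haM).1.1 ha).2
    have h1 := Q.left_inv (star a * a) (rq_star_mem haM) (star_mul_self_nonneg a) hfin ξ
    rw [hstar a haM] at h1
    refine rq_inv φ' hφ ha (Q.Δ a) (lT ξ) ?_ (by positivity) h1
    refine rq_mem _ (lT ξ) (fun m => mapT (ContinuousLinearMap.id ℂ H) m) (fun m hm => ?_)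
      (fun m => ?_) (fun m => ?_)
    · rw [← hstar a haM]
      exact hcr _ (rq_star_mem haM) m hm
    · rw [mapT_lT, ContinuousLinearMap.id_apply]
    · rw [lT_adjoint_mapT, hid, ContinuousLinearMap.id_apply]
  · intro a ha η
    have haM : a ∈ Q.M := ha.1
    have hfin : Q.ψ (star a * a) < ⊤ := ((mem_NS_iff hψ haM).1.1 ha).2
    have h1 := Q.right_inv (star a * a) (rq_star_mem haM) (star_mul_self_nonneg a) hfin η
    rw [hstar a haM] at h1
    rw [mul_comm (‖ψ'.Λ a‖ ^ 2)]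
    refine rq_inv ψ' hψ ha (Q.Δ a) (rT η) ?_ (by positivity) h1
    refine rq_mem _ (rT η) (fun m => mapT m (ContinuousLinearMap.id ℂ H)) (fun m hm => ?_)
      (fun m => ?_) (fun m => ?_)
    · rw [← hstar a haM]
      exact hcl _ (rq_star_mem haM) m hm
    · rw [mapT_rT, ContinuousLinearMap.id_apply]
    · rw [rT_adjoint_mapT, hid, ContinuousLinearMap.id_apply]
  · intro a
    constructor
    · intro ha
      exact (mem_NS_iff hψ ha.1).1.1 ha
    · intro ha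
      exact (mem_NS_iff hψ ha.1).1.2 ha

end Pool.Agent.VNQ
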