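import Pool.Agent.VNQ.FinB
import Pool.Agent.VNQ.RedQ

/-!
# The main theorem

For every von Neumann algebraic quantum group `𝒟 = 𝒟(S)`.

Proof. Let `Q'` be as in `exists_QG` and `V = Q'.V`.
* `IsV V`: `norm_V` and `V_slice`, with `Q'.sr η' η a = sliceR η' η (Q.Δ a)` (by definition and
  `Q'.Δ = Q.Δ`).
* Uniqueness: if `IsV V'` then for `a ∈ N_ψ`, `η, η' ∈ H`: `R_{η'}† V' (Λ a ⊠ η) = R_{η'}† V (Λ a ⊠
η)`, so
  `V' (Λ a ⊠ η) = V (Λ a ⊠ η)` (test with `ξ' ⊠ η'`, `inner_rT_adjoint`, `ext_inner_left'`), and `V'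
  = V`
  by density of the `Λ a` (continuity) and `clm_ext`.
* `Q.DPair x x₁ ↔ Q'.DP x x₁` and `Q.KRel V ξ ξ₁ ↔ Q'.KR ξ ξ₁`: unfold and rewrite with the four
  equalities of `exists_QG` (`star = †` by `rfl`).
* `K` single valued: if `KR ξ ξ₁` and `KR ξ ξ₂` then `KR 0 (ξ₁ - ξ₂)` (`KR_add`, `KR_smul` with
  `c = -1`), so `ξ₁ = ξ₂` (`KR_zero`). Dense domain: `KR_dense`.
* `𝒟 ⊆ 𝒟(S)`: `DP_KR`. `𝒟(S) ⊆ 𝒟`: `ds_rel` and `finB`.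
-/

set_option autoImplicit false

noncomputable section

open scoped TensorProduct InnerProductSpace InnerProduct ENNReal

namespace Pool.Agent.VNQ

universe u

variable {H : Type u} [NormedAddCommGroup H] [InnerProductSpace ℂ H] [CompleteSpace H]

private theorem ext_Λ' {G : Type u} [NormedAddCommGroup G] [InnerProductSpace ℂ G]
    [CompleteSpace G] (Q : QG H G) {A B : HTen H H →L[ℂ] HTen H H}
    (h : ∀ a ∈ Q.ψ.N, ∀ η, A (tmul (Q.ψ.Λ a) η) = B (tmul (Q.ψ.Λ a) η)) : A = B := by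
  refine clm_ext fun ξ η => ?_
  have hc : IsClosed {g : H | A (tmul g η) = B (tmul g η)} :=
    isClosed_eq (A.continuous.comp (rT η).continuous) (B.continuous.comp (rT η).continuous)
  exact Q.ψ.induction_Λ (p := fun g => A (tmul g η) = B (tmul g η)) ξ hc fun a ha => h a ha η

theorem VNQG.main (Q : VNQG H) :
    ∃ V : HTen H H →L[ℂ] HTen H H, Q.IsV V ∧ (∀ V', Q.IsV V' → V' = V) ∧
      (∀ ξ ξ₁ ξ₂, Q.KRel V ξ ξ₁ → Q.KRel V ξ ξ₂ → ξ₁ = ξ₂) ∧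
      Dense {ξ | ∃ ξ₁, Q.KRel V ξ ξ₁} ∧ Q.D = Q.DS V := by
  obtain ⟨G, i1, i2, i3, Q', hM, hΔ, hΛ, hN⟩ := Q.exists_QG
  have hDP : ∀ x x₁, Q.DPair x x₁ ↔ Q'.DP x x₁ := by
    intro x x₁
    unfold VNQG.DPair QG.DP
    rw [hM, hΔ]
    exact Iff.rfl
  have hKR : ∀ ξ ξ₁, Q.KRel Q'.V ξ ξ₁ ↔ Q'.KR ξ ξ₁ := by
    intro ξ ξ₁
    unfold VNQG.KRel QG.KR
    simp only [hN, hΛ]
    exact Iff.rfl
  have hV : Q.IsV Q'.V := by
    refine ⟨Q'.norm_V, fun a ha η' η => ?_⟩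
    obtain ⟨h1, h2⟩ := Q'.V_slice ((hN a).2 ha) η' η
    have e : Q'.sr η' η a = sliceR η' η (Q.Δ a) := by
      unfold QG.sr
      rw [hΔ]
    rw [e] at h1 h2
    rw [hΛ] at h2
    exact ⟨(hN _).1 h1, h2⟩
  refine ⟨Q'.V, hV, ?_, ?_, ?_, ?_⟩
  · intro V' hV'
    refine ext_Λ' Q' fun a ha η => ?_
    rw [hΛ]
    refine ext_inner_left' fun ξ' η' => ?_
    rw [← inner_rT_adjoint, ← inner_rT_adjoint, (hV'.slice a ((hN a).1 ha) η' η).2,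
      (hV.slice a ((hN a).1 ha) η' η).2]
  · intro ξ ξ₁ ξ₂ h h'
    have h1 := Q'.KR_smul ((hKR _ _).1 h') (-1)
    have h2 := Q'.KR_add ((hKR _ _).1 h) h1
    have e1 : ξ + (-1 : ℂ) • ξ = 0 := by
      rw [neg_one_smul, add_neg_cancel]
    have e2 : ξ₁ + (starRingEnd ℂ) (-1 : ℂ) • ξ₂ = ξ₁ - ξ₂ := by
      rw [map_neg, _root_.map_one, neg_one_smul, sub_eq_add_neg]
    rw [e1, e2] at h2
    exact sub_eq_zero.1 (Q'.KR_zero h2)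
  · have h1 := Q'.KR_dense
    have e : {ξ : H | ∃ ξ₁, Q.KRel Q'.V ξ ξ₁} = {ξ : H | ∃ ξ₁, Q'.KR ξ ξ₁} := by
      ext ξ
      exact exists_congr fun ξ₁ => hKR ξ ξ₁
    rw [e]
    exact h1
  · ext x
    constructor
    · rintro ⟨hx, x₁, hx₁, hD⟩
      exact ⟨hx, x₁, hx₁, fun ξ ξ₁ h =>
        (hKR _ _).2 (Q'.DP_KR ((hDP _ _).1 hD) ((hKR _ _).1 h))⟩
    · rintro ⟨hx, y, hy, h⟩
      refine ⟨hx, y, hy, (hDP _ _).2 (Q'.finB ?_ ?_)⟩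
      · rw [hM]
        exact hx
      · exact Q'.ds_rel fun ξ ξ₁ h' => (hKR _ _).1 (h _ _ ((hKR _ _).2 h'))

end Pool.Agent.VNQ
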