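import Mathlib

/-!
# Normal functionals

`IsAmp π`: `π : B(H) → B(L)` is a representation which is a multiple of the identity
representation, in the sense that the ranges of the intertwiners `T : H → L`, `π(X) T = T X`, span a
dense subspace. `IsNrm θ`: `θ(X) = ⟪α, π(X) β⟫` for such a representation.
-/

set_option autoImplicit false

noncomputable section

open scoped InnerProductSpace InnerProduct

namespace Pool.Agent.VNQ

universe u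

variable {H : Type u} [NormedAddCommGroup H] [InnerProductSpace ℂ H] [CompleteSpace H]

/-- `π` is an amplification of the identity representation of `B(H)`. -/
structure IsAmp {L : Type u} [NormedAddCommGroup L] [InnerProductSpace ℂ L] [CompleteSpace L]
    (π : (H →L[ℂ] H) → (L →L[ℂ] L)) : Prop where
  add : ∀ X Y, π (X + Y) = π X + π Y
  smul : ∀ (c : ℂ) X, π (c • X) = c • π X
  mul : ∀ X Y, π (X ∘L Y) = π X ∘L π Y
  adj : ∀ X, π (X†) = (π X)†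
  norm_le : ∀ X, ‖π X‖ ≤ ‖X‖
  total : Dense (Submodule.span ℂ {y : L | ∃ T : H →L[ℂ] L, (∀ X, π X ∘L T = T ∘L X) ∧
    ∃ x, y = T x} : Set L)

/-- Normal functionals. -/
def IsNrm (θ : (H →L[ℂ] H) → ℂ) : Prop :=
  ∃ (L : Type u) (_ : NormedAddCommGroup L) (_ : InnerProductSpace ℂ L) (_ : CompleteSpace L)
    (π : (H →L[ℂ] H) → (L →L[ℂ] L)) (α β : L), IsAmp π ∧ ∀ X, θ X = ⟪α, π X β⟫_ℂ

theorem isAmp_id : IsAmp (fun X : H →L[ℂ] H => X) where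
  add _ _ := rfl
  smul _ _ := rfl
  mul _ _ := rfl
  adj _ := rfl
  norm_le _ := le_rfl
  total := by
    have h : {y : H | ∃ T : H →L[ℂ] H, (∀ X : H →L[ℂ] H, X ∘L T = T ∘L X) ∧ ∃ x, y = T x} =
        Set.univ := by
      ext y
      simp only [Set.mem_ofPred_eq, Set.mem_univ, iff_true]
      exact ⟨ContinuousLinearMap.id ℂ H, fun X => rfl, y, rfl⟩
    rw [h, Submodule.span_univ]
    exact dense_univ

/-- Vector functionals are normal. -/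
theorem nrm_vec (α β : H) : IsNrm fun X : H →L[ℂ] H => ⟪α, X β⟫_ℂ :=
  ⟨H, inferInstance, inferInstance, inferInstance, fun X => X, α, β, isAmp_id, fun _ => rfl⟩

theorem IsNrm.comp_left {θ : (H →L[ℂ] H) → ℂ} (h : IsNrm θ) (Y : H →L[ℂ] H) :
    IsNrm fun X => θ (Y ∘L X) := by
  obtain ⟨L, i1, i2, i3, π, α, β, hπ, hθ⟩ := h
  refine ⟨L, i1, i2, i3, π, ((π Y)†) α, β, hπ, fun X => ?_⟩
  show θ (Y ∘L X) = _
  rw [hθ, hπ.mul, ContinuousLinearMap.adjoint_inner_left]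
  rfl

theorem IsNrm.comp_right {θ : (H →L[ℂ] H) → ℂ} (h : IsNrm θ) (Y : H →L[ℂ] H) :
    IsNrm fun X => θ (X ∘L Y) := by
  obtain ⟨L, i1, i2, i3, π, α, β, hπ, hθ⟩ := h
  refine ⟨L, i1, i2, i3, π, α, π Y β, hπ, fun X => ?_⟩
  show θ (X ∘L Y) = _
  rw [hθ, hπ.mul]
  rfl

theorem IsNrm.smul {θ : (H →L[ℂ] H) → ℂ} (h : IsNrm θ) (c : ℂ) : IsNrm fun X => c * θ X := by
  obtain ⟨L, i1, i2, i3, π, α, β, hπ, hθ⟩ := h
  refine ⟨L, i1, i2, i3, π, α, c • β, hπ, fun X => ?_⟩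
  show c * θ X = _
  rw [hθ, map_smul, inner_smul_right]

theorem IsNrm.map_add {θ : (H →L[ℂ] H) → ℂ} (h : IsNrm θ) (X Y : H →L[ℂ] H) :
    θ (X + Y) = θ X + θ Y := by
  obtain ⟨L, i1, i2, i3, π, α, β, hπ, hθ⟩ := h
  rw [hθ, hθ, hθ, hπ.add, ← inner_add_right]
  rfl

theorem IsNrm.map_smul {θ : (H →L[ℂ] H) → ℂ} (h : IsNrm θ) (c : ℂ) (X : H →L[ℂ] H) :
    θ (c • X) = c * θ X := by
  obtain ⟨L, i1, i2, i3, π, α, β, hπ, hθ⟩ := h
  rw [hθ, hθ, hπ.smul, ← inner_smul_right]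
  rfl

theorem IsNrm.map_zero {θ : (H →L[ℂ] H) → ℂ} (h : IsNrm θ) : θ 0 = 0 := by
  have := h.map_smul 0 0
  rwa [zero_smul, zero_mul] at this

theorem IsNrm.map_sub {θ : (H →L[ℂ] H) → ℂ} (h : IsNrm θ) (X Y : H →L[ℂ] H) :
    θ (X - Y) = θ X - θ Y := by
  have h1 := h.map_add X ((-1 : ℂ) • Y)
  rw [h.map_smul] at h1
  rw [sub_eq_add_neg X Y, ← neg_one_smul ℂ Y, h1]
  ring

theorem IsNrm.map_sum {θ : (H →L[ℂ] H) → ℂ} (h : IsNrm θ) {ι : Type*} (s : Finset ι)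
    (X : ι → H →L[ℂ] H) : θ (∑ i ∈ s, X i) = ∑ i ∈ s, θ (X i) := by
  classical
  induction s using Finset.induction_on with
  | empty => simp [h.map_zero]
  | insert a s ha ih => rw [Finset.sum_insert ha, Finset.sum_insert ha, h.map_add, ih]

theorem IsNrm.bound {θ : (H →L[ℂ] H) → ℂ} (h : IsNrm θ) : ∃ C : ℝ, ∀ X, ‖θ X‖ ≤ C * ‖X‖ := by
  obtain ⟨L, i1, i2, i3, π, α, β, hπ, hθ⟩ := h
  refine ⟨‖α‖ * ‖β‖, fun X => ?_⟩
  rw [hθ]
  calc ‖⟪α, π X β⟫_ℂ‖ ≤ ‖α‖ * ‖π X β‖ := norm_inner_le_norm _ _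
    _ ≤ ‖α‖ * (‖X‖ * ‖β‖) := by
        gcongr
        exact ((π X).le_opNorm β).trans (by gcongr; exact hπ.norm_le X)
    _ = ‖α‖ * ‖β‖ * ‖X‖ := by ring

end Pool.Agent.VNQ
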