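import Pool.Agent.VNQ.Nrm

/-!
# Normal functionals: bounded strong convergence and the double commutant theorem

* `IsNrm.tendsto`: Let `‖T k‖ ≤ R` and `T k ξ → S ξ` for all `ξ`. Then `θ (T k) → θ S`.
  Proof. If the filter is `⊥` the claim is trivial, otherwise `‖S ξ‖ = lim ‖T k ξ‖ ≤ R ‖ξ‖`.
  It is enough that `π(T k) y → π(S) y` for all `y ∈ L`. The set of all `y` with this
  property is a subspace; it is closed since `‖π(T k)‖ ≤ R`, `‖π(S)‖ ≤ R`; it contains `T' x` for an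
  intertwiner `T'`: `π(T k) T' x = T' (T k x) → T' (S x)`. So it is everything by `total`.
* `IsNrm.eq_zero_of_comm`: Let `𝒜 ⊆ B(H)` be a set closed under `+`, scalar multiples, products and
  adjoints, `1 ∈ 𝒜`, `θ` normal, `θ = 0` on `𝒜`, and let `x ∈ B(H)` commute with all
  operators which commute with all elements of `𝒜`. Then `θ(x) = 0`.
  Proof. Let `θ(X) = ⟪α, π(X) β⟫`, and let `p` be the orthogonal projection of `L` onto the closure
  `L₀` of the subspace `{π(a) β : a ∈ 𝒜}` (it is a subspace by `add`, `smul`). (i) `p` commutes with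
  `π(a)`, `a ∈ 𝒜`: `π(a) L₀ ⊆ L₀` (products), `π(a)† L₀ = π(a†) L₀ ⊆ L₀`, hence
  `π(a) L₀^⊥ ⊆ L₀^⊥`. (ii) `p` commutes with `π(x)`: for intertwiners `T, T' : H → L` the operator
  `T'† p T` commutes with all `a ∈ 𝒜`:
  `T'† p T a = T'† p π(a) T = T'† π(a) p T = (π(a†) T')† p T = (T' a†)† p T = a T'† p T`. So
  `x T'† p T = T'† p T x` (the intertwiners intertwine all `X ∈ B(H)`), and
  `⟪T' η', π(x) p T η⟫ = ⟪π(x†) T' η', p T η⟫ = ⟪T' x† η', p T η⟫ = ⟪η', x T'† p T η⟫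
  = ⟪η', T'† p T x η⟫ = ⟪T' η', p T x η⟫ = ⟪T' η', p π(x) T η⟫`. Since the vectors `T η` and
  `T' η'` span dense subspaces, `π(x) p = p π(x)`. (iii) `π(1) = 1`: `π(1) T = T` for all
  intertwiners, so `π(1)` is the identity on a dense subspace. So `β = π(1) β ∈ L₀`,
  `π(x) β = π(x) p β = p π(x) β ∈ L₀`, and `α ⊥ L₀` since `⟪α, π(a) β⟫ = θ(a) = 0`. So
  `θ(x) = 0`.
-/

set_option autoImplicit false

noncomputable section

open scoped InnerProductSpace InnerProduct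
open Filter

namespace Pool.Agent.VNQ

universe u

variable {H : Type u} [NormedAddCommGroup H] [InnerProductSpace ℂ H] [CompleteSpace H]

section Aux

variable {L : Type u} [NormedAddCommGroup L] [InnerProductSpace ℂ L] [CompleteSpace L]
  {π : (H →L[ℂ] H) → (L →L[ℂ] L)}

private theorem amp_ext (hπ : IsAmp π) {D D' : L →L[ℂ] L}
    (h : ∀ T : H →L[ℂ] L, (∀ X, π X ∘L T = T ∘L X) → ∀ ξ, D (T ξ) = D' (T ξ)) : D = D' := by
  refine ContinuousLinearMap.ext_on hπ.total ?_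
  rintro y ⟨T, hT, ξ, rfl⟩
  exact h T hT ξ

private theorem amp_zero (hπ : IsAmp π) {v : L}
    (h : ∀ T : H →L[ℂ] L, (∀ X, π X ∘L T = T ∘L X) → ∀ ξ, ⟪T ξ, v⟫_ℂ = 0) : v = 0 := by
  refine Dense.eq_zero_of_inner_right (𝕜 := ℂ) hπ.total (fun y hy => ?_)
  have hle : Submodule.span ℂ {y : L | ∃ T : H →L[ℂ] L, (∀ X, π X ∘L T = T ∘L X) ∧
    ∃ x, y = T x} ≤ (ℂ ∙ v)ᗮ := by
    rw [Submodule.span_le]
    rintro y ⟨T, hT, ξ, rfl⟩
    exact Submodule.mem_orthogonal_singleton_iff_inner_left.2 (h T hT ξ)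
  exact Submodule.mem_orthogonal_singleton_iff_inner_left.1 (hle hy)

private theorem amp_tendsto (hπ : IsAmp π) {κ : Type*} {l : Filter κ}
    (T : κ → H →L[ℂ] H) (S : H →L[ℂ] H) (R : ℝ) (hR : ∀ k, ‖T k‖ ≤ R) (hS : ‖S‖ ≤ R)
    (hT : ∀ ξ, Tendsto (fun k => T k ξ) l (nhds (S ξ))) (y : L) :
    Tendsto (fun k => π (T k) y) l (nhds (π S y)) := by
  have hR0 : 0 ≤ R := (norm_nonneg _).trans hS
  let M : Submodule ℂ L :=
    { carrier := {y | Tendsto (fun k => π (T k) y) l (nhds (π S y))}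
      add_mem' := by
        intro a b ha hb
        have := Filter.Tendsto.add (M := L) ha hb
        simpa using this
      zero_mem' := by
        simp only [Set.mem_ofPred_eq, map_zero]
        exact tendsto_const_nhds
      smul_mem' := by
        intro c a ha
        have : Tendsto (fun k => c • π (T k) a) l (nhds (c • π S a)) :=
          Filter.Tendsto.const_smul ha c
        simpa using this }
  have hcl : IsClosed (M : Set L) := by
    refine isClosed_of_closure_subset (fun z hz => ?_)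
    change Tendsto (fun k => π (T k) z) l (nhds (π S z))
    rw [Metric.tendsto_nhds]
    intro ε hε
    obtain ⟨w, hw, hd⟩ := Metric.mem_closure_iff.1 hz (ε / (4 * (R + 1))) (by positivity)
    have hw' : Tendsto (fun k => π (T k) w) l (nhds (π S w)) := hw
    have hev := (Metric.tendsto_nhds.1 hw') (ε / 2) (by positivity)
    filter_upwards [hev] with k hk
    rw [dist_eq_norm] at hk hd ⊢
    have e : π (T k) z - π S z = π (T k) (z - w) + (π (T k) w - π S w) + π S (w - z) := by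
      rw [map_sub, map_sub]; abel
    rw [e]
    have h1 : ‖π (T k) (z - w)‖ ≤ R * ‖z - w‖ :=
      ((π (T k)).le_opNorm _).trans
        (mul_le_mul_of_nonneg_right ((hπ.norm_le _).trans (hR k)) (norm_nonneg _))
    have h2 : ‖π S (w - z)‖ ≤ R * ‖z - w‖ := by
      rw [norm_sub_rev z w]
      exact ((π S).le_opNorm _).trans
        (mul_le_mul_of_nonneg_right ((hπ.norm_le _).trans hS) (norm_nonneg _))
    have h3 := norm_add₃_le (a := π (T k) (z - w)) (b := π (T k) w - π S w) (c := π S (w - z))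
    have h4 : (R + 1) * ‖z - w‖ < ε / 4 := by
      have h5 : (R + 1) * ‖z - w‖ < (R + 1) * (ε / (4 * (R + 1))) :=
        mul_lt_mul_of_pos_left hd (by positivity)
      have h6 : (R + 1) * (ε / (4 * (R + 1))) = ε / 4 := by field_simp
      rwa [h6] at h5
    have h7 := norm_nonneg (z - w)
    nlinarith
  have hle : Submodule.span ℂ {y : L | ∃ T : H →L[ℂ] L, (∀ X, π X ∘L T = T ∘L X) ∧
    ∃ x, y = T x} ≤ M := by
    rw [Submodule.span_le]
    rintro _ ⟨T', hT', ξ, rfl⟩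
    change Tendsto (fun k => π (T k) (T' ξ)) l (nhds (π S (T' ξ)))
    have e : ∀ X, π X (T' ξ) = T' (X ξ) := fun X => by
      have := congrArg (fun W : H →L[ℂ] L => W ξ) (hT' X)
      simpa using this
    simp only [e]
    exact (T'.continuous.tendsto _).comp (hT ξ)
  have hmem : y ∈ closure (M : Set L) :=
    closure_mono (show (Submodule.span ℂ {y : L | ∃ T : H →L[ℂ] L, (∀ X, π X ∘L T = T ∘L X) ∧
      ∃ x, y = T x} : Set L) ⊆ (M : Set L) from hle) (hπ.total y)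
  rw [hcl.closure_eq] at hmem
  exact hmem

end Aux

theorem IsNrm.tendsto {θ : (H →L[ℂ] H) → ℂ} (h : IsNrm θ) {κ : Type*} {l : Filter κ}
    (T : κ → H →L[ℂ] H) (S : H →L[ℂ] H) (R : ℝ) (hR : ∀ k, ‖T k‖ ≤ R)
    (hT : ∀ ξ, Tendsto (fun k => T k ξ) l (nhds (S ξ))) :
    Tendsto (fun k => θ (T k)) l (nhds (θ S)) := by
  rcases l.eq_or_neBot with rfl | hne
  · exact tendsto_bot
  obtain ⟨k0⟩ := l.nonempty_of_neBot
  have hR0 : 0 ≤ R := (norm_nonneg _).trans (hR k0)
  have hS : ‖S‖ ≤ R := by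
    refine ContinuousLinearMap.opNorm_le_bound _ hR0 (fun ξ => ?_)
    refine le_of_tendsto (hT ξ).norm (Eventually.of_forall (fun k => ?_))
    exact ((T k).le_opNorm ξ).trans (mul_le_mul_of_nonneg_right (hR k) (norm_nonneg _))
  obtain ⟨L, i1, i2, i3, π, α, β, hπ, hθ⟩ := h
  simp only [hθ]
  exact tendsto_const_nhds.inner (amp_tendsto hπ T S R hR hS hT β)

theorem IsNrm.eq_zero_of_comm {θ : (H →L[ℂ] H) → ℂ} (h : IsNrm θ) (𝒜 : Set (H →L[ℂ] H))
    (h_one : ContinuousLinearMap.id ℂ H ∈ 𝒜)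
    (h_add : ∀ a ∈ 𝒜, ∀ b ∈ 𝒜, a + b ∈ 𝒜) (h_smul : ∀ c : ℂ, ∀ a ∈ 𝒜, c • a ∈ 𝒜)
    (h_mul : ∀ a ∈ 𝒜, ∀ b ∈ 𝒜, a ∘L b ∈ 𝒜) (h_adj : ∀ a ∈ 𝒜, a† ∈ 𝒜)
    (h0 : ∀ a ∈ 𝒜, θ a = 0) (x : H →L[ℂ] H)
    (hx : ∀ y : H →L[ℂ] H, (∀ a ∈ 𝒜, y ∘L a = a ∘L y) → x ∘L y = y ∘L x) : θ x = 0 := by
  obtain ⟨L, i1, i2, i3, π, α, β, hπ, hθ⟩ := h
  let N : Submodule ℂ L :=
    { carrier := {y | ∃ a ∈ 𝒜, y = π a β}
      add_mem' := by
        rintro _ _ ⟨a, ha, rfl⟩ ⟨b, hb, rfl⟩
        exact ⟨a + b, h_add a ha b hb, by rw [hπ.add]; rfl⟩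
      zero_mem' := ⟨(0 : ℂ) • ContinuousLinearMap.id ℂ H, h_smul 0 _ h_one, by
        rw [hπ.smul, zero_smul]; rfl⟩
      smul_mem' := by
        rintro c _ ⟨a, ha, rfl⟩
        exact ⟨c • a, h_smul c a ha, by rw [hπ.smul]; rfl⟩ }
  let K : Submodule ℂ L := N.topologicalClosure
  have hKc : IsClosed (K : Set L) := N.isClosed_topologicalClosure
  haveI : CompleteSpace K := hKc.completeSpace_coe
  -- `π a` maps `K` to `K` and the orthogonal complement of `K` to itself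
  have hK1 : ∀ a ∈ 𝒜, ∀ k ∈ K, π a k ∈ K := by
    intro a ha k hk
    refine map_mem_closure (π a).continuous hk (fun z hz => ?_)
    obtain ⟨b, hb, rfl⟩ := hz
    exact ⟨a ∘L b, h_mul a ha b hb, by rw [hπ.mul]; rfl⟩
  have hK2 : ∀ a ∈ 𝒜, ∀ z ∈ Kᗮ, π a z ∈ Kᗮ := by
    intro a ha z hz
    rw [Submodule.mem_orthogonal] at hz ⊢
    intro k hk
    have h1 : ⟪k, π a z⟫_ℂ = ⟪π (a†) k, z⟫_ℂ := by
      rw [hπ.adj, ContinuousLinearMap.adjoint_inner_left]
    rw [h1]
    exact hz _ (hK1 _ (h_adj a ha) k hk)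
  have hcomm : ∀ a ∈ 𝒜, ∀ y : L, K.starProjection (π a y) = π a (K.starProjection y) := by
    intro a ha y
    refine Submodule.eq_starProjection_of_mem_orthogonal
      (hK1 a ha _ (K.starProjection_apply_mem y)) ?_
    rw [← _root_.map_sub]
    exact hK2 a ha _ (K.sub_starProjection_mem_orthogonal y)
  have hint : ∀ (T : H →L[ℂ] L), (∀ X, π X ∘L T = T ∘L X) → ∀ X ξ, π X (T ξ) = T (X ξ) := by
    intro T hT X ξ
    have := congrArg (fun W : H →L[ℂ] L => W ξ) (hT X)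
    simpa using this
  have hmain : ∀ (T : H →L[ℂ] L), (∀ X, π X ∘L T = T ∘L X) →
      ∀ (T' : H →L[ℂ] L), (∀ X, π X ∘L T' = T' ∘L X) → ∀ η η' : H,
      ⟪T' η', π x (K.starProjection (T η))⟫_ℂ = ⟪T' η', K.starProjection (π x (T η))⟫_ℂ := by
    intro T hT T' hT' η η'
    let y : H →L[ℂ] H := (T'†) ∘L (K.starProjection ∘L T)
    have hy1 : ∀ ζ ξ, ⟪ζ, y ξ⟫_ℂ = ⟪T' ζ, K.starProjection (T ξ)⟫_ℂ := by
      intro ζ ξ
      change ⟪ζ, (T'†) (K.starProjection (T ξ))⟫_ℂ = _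
      rw [ContinuousLinearMap.adjoint_inner_right]
    have hy : ∀ a ∈ 𝒜, y ∘L a = a ∘L y := by
      intro a ha
      ext ξ
      refine ext_inner_left ℂ (fun ζ => ?_)
      change ⟪ζ, y (a ξ)⟫_ℂ = ⟪ζ, a (y ξ)⟫_ℂ
      rw [← ContinuousLinearMap.adjoint_inner_left a, hy1, hy1, ← hint T hT, hcomm a ha,
        ← ContinuousLinearMap.adjoint_inner_left (π a), ← hπ.adj, hint T' hT']
    have hxy := hx y hy
    have hxy' : x (y η) = y (x η) := by
      have := congrArg (fun W : H →L[ℂ] H => W η) hxy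
      simpa using this
    rw [← ContinuousLinearMap.adjoint_inner_left (π x), ← hπ.adj, hint T' hT', ← hy1,
      ContinuousLinearMap.adjoint_inner_left x, hxy', hy1, hint T hT]
  have hcx : π x ∘L K.starProjection = K.starProjection ∘L π x := by
    refine amp_ext hπ (fun T hT η => ?_)
    change π x (K.starProjection (T η)) = K.starProjection (π x (T η))
    rw [← sub_eq_zero]
    refine amp_zero hπ (fun T' hT' η' => ?_)
    rw [inner_sub_right, hmain T hT T' hT' η η', sub_self]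
  have hone : π (ContinuousLinearMap.id ℂ H) = ContinuousLinearMap.id ℂ L := by
    refine amp_ext hπ (fun T hT η => ?_)
    rw [hint T hT]; rfl
  have hβ : β ∈ K := by
    refine N.le_topologicalClosure ?_
    exact ⟨ContinuousLinearMap.id ℂ H, h_one, by rw [hone]; rfl⟩
  have hxβ : π x β ∈ K := by
    have h1 : K.starProjection β = β := Submodule.starProjection_eq_self_iff.2 hβ
    have h2 : π x (K.starProjection β) = K.starProjection (π x β) :=
      congrArg (fun W : L →L[ℂ] L => W β) hcx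
    rw [h1] at h2
    rw [h2]
    exact K.starProjection_apply_mem _
  have hαK : K ≤ (ℂ ∙ α)ᗮ := by
    refine Submodule.topologicalClosure_minimal N ?_ (Submodule.isClosed_orthogonal _)
    rintro _ ⟨a, ha, rfl⟩
    refine Submodule.mem_orthogonal_singleton_iff_inner_right.2 ?_
    rw [← hθ]; exact h0 a ha
  rw [hθ]
  exact Submodule.mem_orthogonal_singleton_iff_inner_right.1 (hαK hxβ)

end Pool.Agent.VNQ
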