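import Pool.Agent.VNQ.Pairs

/-!
# The pentagon identity in coordinates

`QG.pOne`: for all `v, g, η', η, β', β ∈ H`:
`⟪tmul β' η', Δ(w_{v,g}) (tmul β η)⟫ = ⟪tmul v β', V (tmul (R_{η'}† V (tmul g η)) β)⟫`.

Proof. (i) Let `v = Z_i† v'`, `g = Λ a`, `a ∈ N_ψ`. By `sl_z` `w_{v,g} = Q.sl v' ζ_i a`. By
coassociativity (`Q.coassoc a ha.1` with `α' = v'`, `α = ζ_i`) the left side is
`⟪tmul β' η', Δ(Q.sl v' ζ_i a)(tmul β η)⟫ = ⟪tmul v' β', Δ(Q.sr η' η a)(tmul ζ_i β)⟫`. Let `s = Q.sr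
η' η a ∈
N_ψ`;
`R_{η'}† V (tmul (Λ a) η) = Λ s` (`V_slice`), so the right side is
`⟪tmul (Z_i† v') β', V (tmul (Λ s) β)⟫ = ⟪tmul v' β', (Z_i ⊗ 1) V (tmul (Λ s) β)⟫ = ⟪tmul v' β',
Δ(s)(tmul ζ_i β)⟫`
(`adjoint_mapT`, `V_spec`).
(ii) Both sides are continuous in `g` (`w_{v,g}` is linear in `g` with `‖w_{v,g}‖ ≤ ‖v‖ ‖g‖`, `Δ` is
linear and contractive on `M`: `Q.add`, `Q.smul`, `Δ_sub`, `norm_Δ_apply_le`, `w_mem`), so by
`induction_Λ` the identity holds for `v = Z_i† v'` and all `g`. (iii) Both sides are additive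
and continuous in `v` (conjugate linear), and the vectors `Z_i† v'` span a dense subspace of `H` (if
`h ⊥ Z_i† v'` for all `i, v'` then `Z_i h = 0` for all `i`, `h = 0` by `ext_Z`), so it holds for all
`v`.
-/

set_option autoImplicit false

noncomputable section

open scoped TensorProduct InnerProductSpace InnerProduct ENNReal
open Filter

namespace Pool.Agent.VNQ

universe u

variable {H G : Type u} [NormedAddCommGroup H] [InnerProductSpace ℂ H] [CompleteSpace H]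
  [NormedAddCommGroup G] [InnerProductSpace ℂ G] [CompleteSpace G]

namespace QG

variable (Q : QG H G)

private theorem w_sub_right (v g g' : H) : Q.w v (g - g') = Q.w v g - Q.w v g' := by
  ext η
  refine ext_inner_left ℂ fun η' => ?_
  rw [_root_.sub_apply, inner_sub_right, Q.inner_w, Q.inner_w, Q.inner_w, sub_tmul,
    map_sub, inner_sub_right]

private theorem w_add_left (v v' g : H) : Q.w (v + v') g = Q.w v g + Q.w v' g := by
  ext η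
  refine ext_inner_left ℂ fun η' => ?_
  rw [_root_.add_apply, inner_add_right, Q.inner_w, Q.inner_w, Q.inner_w, add_tmul,
    inner_add_left]

private theorem w_smul_left (c : ℂ) (v g : H) :
    Q.w (c • v) g = (starRingEnd ℂ) c • Q.w v g := by
  ext η
  refine ext_inner_left ℂ fun η' => ?_
  rw [_root_.smul_apply, inner_smul_right, Q.inner_w, Q.inner_w, smul_tmul,
    inner_smul_left]

private theorem cont_w (v : H) (θ θ' : HTen H H) :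
    Continuous fun g => ⟪θ', Q.Δ (Q.w v g) θ⟫_ℂ := by
  have h : Continuous fun g => Q.Δ (Q.w v g) θ := by
    refine (LipschitzWith.of_dist_le_mul (K := (‖v‖ * ‖θ‖).toNNReal) fun g g' => ?_).continuous
    rw [dist_eq_norm, dist_eq_norm, Real.coe_toNNReal _ (by positivity)]
    have h1 : Q.Δ (Q.w v g) θ - Q.Δ (Q.w v g') θ = Q.Δ (Q.w v (g - g')) θ := by
      rw [w_sub_right, Q.Δ_sub (Q.w_mem v g) (Q.w_mem v g'), _root_.sub_apply]
    rw [h1]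
    calc ‖Q.Δ (Q.w v (g - g')) θ‖ ≤ ‖Q.w v (g - g')‖ * ‖θ‖ :=
          Q.norm_Δ_apply_le (Q.w_mem v (g - g')) θ
      _ ≤ (‖v‖ * ‖g - g'‖) * ‖θ‖ := by
          gcongr
          exact Q.norm_w_le v (g - g')
      _ = ‖v‖ * ‖θ‖ * ‖g - g'‖ := by ring
  exact continuous_const.inner h

/-- The identity for `v = Z_i† v'` and `g = Λ a`. -/
private theorem pOne_aux {a : H →L[ℂ] H} (ha : a ∈ Q.ψ.N) (i : Q.ψ.ι) (v' η' η β' β : H) :
    ⟪tmul β' η', Q.Δ (Q.w (((Q.ψ.Z i)†) v') (Q.ψ.Λ a)) (tmul β η)⟫_ℂ =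
      ⟪tmul (((Q.ψ.Z i)†) v') β', Q.V (tmul (((rT η')†) (Q.V (tmul (Q.ψ.Λ a) η))) β)⟫_ℂ := by
  obtain ⟨hs, hV⟩ := Q.V_slice ha η' η
  rw [hV, ← Q.inner_w, ← Q.sl_z hs, Q.inner_sl, ← Q.sl_z ha]
  exact (Q.coassoc a ha.1 v' (Q.ψ.z i) β' β η' η).symm

private theorem pOne_g (i : Q.ψ.ι) (v' g η' η β' β : H) :
    ⟪tmul β' η', Q.Δ (Q.w (((Q.ψ.Z i)†) v') g) (tmul β η)⟫_ℂ =
      ⟪tmul (((Q.ψ.Z i)†) v') β', Q.V (tmul (((rT η')†) (Q.V (tmul g η))) β)⟫_ℂ := by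
  have hc : IsClosed {g : H | ⟪tmul β' η', Q.Δ (Q.w (((Q.ψ.Z i)†) v') g) (tmul β η)⟫_ℂ =
      ⟪tmul (((Q.ψ.Z i)†) v') β', Q.V (tmul (((rT η')†) (Q.V (tmul g η))) β)⟫_ℂ} := by
    refine isClosed_eq (Q.cont_w _ _ _) (continuous_const.inner ?_)
    exact (Q.V ∘L rT β ∘L ((rT η')†) ∘L Q.V ∘L rT η).continuous
  exact Q.ψ.induction_Λ (p := fun g => ⟪tmul β' η', Q.Δ (Q.w (((Q.ψ.Z i)†) v') g) (tmul β η)⟫_ℂ =
      ⟪tmul (((Q.ψ.Z i)†) v') β', Q.V (tmul (((rT η')†) (Q.V (tmul g η))) β)⟫_ℂ) g hc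
    fun a ha => Q.pOne_aux ha i v' η' η β' β

/-- The left side as a functional of `v`. -/
private theorem exists_riesz (g : H) (θ' θ : HTen H H) :
    ∃ Y : H, ∀ v, ⟪θ', Q.Δ (Q.w v g) θ⟫_ℂ = ⟪v, Y⟫_ℂ := by
  let L : H →ₗ[ℂ] ℂ :=
    { toFun := fun v => ⟪Q.Δ (Q.w v g) θ, θ'⟫_ℂ
      map_add' := fun v v' => by
        rw [w_add_left, Q.add _ (Q.w_mem v g) _ (Q.w_mem v' g), _root_.add_apply,
          inner_add_left]
      map_smul' := fun c v => by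
        rw [w_smul_left, Q.smul _ _ (Q.w_mem v g), _root_.smul_apply,
          inner_smul_left, Complex.conj_conj, RingHom.id_apply, smul_eq_mul] }
  let L' : H →L[ℂ] ℂ := L.mkContinuous (‖g‖ * ‖θ‖ * ‖θ'‖) fun v => by
    have h1 : ‖L v‖ ≤ ‖Q.Δ (Q.w v g) θ‖ * ‖θ'‖ := by
      show ‖⟪Q.Δ (Q.w v g) θ, θ'⟫_ℂ‖ ≤ _
      exact norm_inner_le_norm _ _
    calc ‖L v‖ ≤ ‖Q.Δ (Q.w v g) θ‖ * ‖θ'‖ := h1
      _ ≤ (‖Q.w v g‖ * ‖θ‖) * ‖θ'‖ := by
          gcongr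
          exact Q.norm_Δ_apply_le (Q.w_mem v g) θ
      _ ≤ ((‖v‖ * ‖g‖) * ‖θ‖) * ‖θ'‖ := by
          gcongr
          exact Q.norm_w_le v g
      _ = ‖g‖ * ‖θ‖ * ‖θ'‖ * ‖v‖ := by ring
  refine ⟨(InnerProductSpace.toDual ℂ H).symm L', fun v => ?_⟩
  have h2 : ⟪(InnerProductSpace.toDual ℂ H).symm L', v⟫_ℂ = L' v :=
    InnerProductSpace.toDual_symm_apply
  rw [← inner_conj_symm v, h2, ← inner_conj_symm θ']
  rfl

theorem pOne (v g η' η β' β : H) : ⟪tmul β' η', Q.Δ (Q.w v g) (tmul β η)⟫_ℂ =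
    ⟪tmul v β', Q.V (tmul (((rT η')†) (Q.V (tmul g η))) β)⟫_ℂ := by
  obtain ⟨Y, hY⟩ := Q.exists_riesz g (tmul β' η') (tmul β η)
  have h : Y = ((rT β')†) (Q.V (tmul (((rT η')†) (Q.V (tmul g η))) β)) := by
    refine Q.ψ.ext_Z fun i => ?_
    refine ext_inner_left ℂ fun v' => ?_
    rw [← ContinuousLinearMap.adjoint_inner_left, ← ContinuousLinearMap.adjoint_inner_left, ← hY,
      Q.pOne_g, inner_rT_adjoint]
  rw [hY, h, inner_rT_adjoint]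

end QG

end Pool.Agent.VNQ
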