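import Pool.Agent.VNQ.VEx

/-!
# Properties of `V` and the operators `w_{v,u} = L_v† V L_u`

* `V_inner`: `⟪V θ, V θ'⟫ = ⟪θ, θ'⟫`; `V_adj_V`: `V† V θ = θ`.
* `V_slice`: for `a ∈ N_ψ`: `s = Q.sr η' η a ∈ N_ψ` and `R_{η'}† V (tmul (Λ a) η) = Λ(s)`.
  Proof. Let `g = R_{η'}† V (tmul (Λ a) η)`. For all `i`:
  `Z_i g = R_{η'}† (Z_i ⊗ 1) V (tmul (Λ a) η) = R_{η'}† Δ(a) (tmul ζ_i η) = s ζ_i`
  (`rT_adjoint_mapT`,
  `V_spec`). So `∑_i ‖s ζ_i‖² = ∑_i ‖Z_i g‖² = ‖g‖² < ∞`, hence `s ∈ N_ψ` (`sr_mem`), and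
  `Z_i (Λ s) = s ζ_i = Z_i g` for all `i`, so `g = Λ s` (`ext_Z`).
* `V_comm`: for `m ∈ M'`: `V (1 ⊗ m) = (1 ⊗ m) V`: on `tmul (Λ a) η` apply `Z_i ⊗ 1` to both sides
  (`ext_mapT_left`): `Δ(a) (tmul ζ_i (m η)) = (1 ⊗ m) Δ(a) (tmul ζ_i η)` (`Δ_comm_r`,
  `mapT_comp_apply`);
  density of the `Λ a` (`induction_Λ`) and `clm_ext`.
* `Δ_V`: for `x ∈ M`: `Δ(x) V = V (x ⊗ 1)`: on `tmul (Λ a) η`: `(Z_i ⊗ 1) Δ(x) V (tmul (Λ a) η) =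
  Δ(x) (Z_i ⊗ 1) V (tmul (Λ a) η) = Δ(x) Δ(a) (tmul ζ_i η) = Δ(x a) (tmul ζ_i η)
  = (Z_i ⊗ 1) V (Λtmul (x a) η) = (Z_i ⊗ 1) V (tmul (x Λ a) η)` (`Z_i ∈ M'`: `Z_mem`, `Δ_comm_l`;
  `Q.mul`;
  `ψ_act_Λ`, `Wt.mul_mem`).
* `w_mem`: `w_{v,u}` commutes with `m ∈ M'`: `L_u m = (1 ⊗ m) L_u`, `V (1 ⊗ m) = (1 ⊗ m) V`,
  `L_v† (1 ⊗ m) = m L_v†`; `mem_of_comm`.
* `inner_w`: `⟪η', w_{v,u} η⟫ = ⟪tmul v η', V (tmul u η)⟫`; `norm_w_le`.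
* `sl_z`: for `a ∈ N_ψ`: `Q.sl v' ζ_i a = w_{Z_i† v', Λ a}`:
  `⟪η', w_{Z_i† v', Λ a} η⟫ = ⟪tmul (Z_i† v') η', V (tmul (Λ a) η)⟫ = ⟪tmul v' η', (Z_i ⊗ 1) V (tmul
  (Λ a) η)⟫
  = ⟪tmul v' η', Δ(a) (tmul ζ_i η)⟫` (`adjoint_mapT`, `inner_sl`).
-/

set_option autoImplicit false

noncomputable section

open scoped TensorProduct InnerProductSpace InnerProduct ENNReal
open Filter

namespace Pool.Agent.VNQ

universe u

variable {H G : Type u} [NormedAddCommGroup H] [InnerProductSpace ℂ H] [CompleteSpace H]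
  [NormedAddCommGroup G] [InnerProductSpace ℂ G] [CompleteSpace G]

namespace QG

variable (Q : QG H G)

theorem V_inner (θ θ' : HTen H H) : ⟪Q.V θ, Q.V θ'⟫_ℂ = ⟪θ, θ'⟫_ℂ := by
  let L : HTen H H →ₗᵢ[ℂ] HTen H H := ⟨(Q.V : HTen H H →ₗ[ℂ] HTen H H), Q.norm_V⟩
  exact L.inner_map_map θ θ'

theorem V_adj_V (θ : HTen H H) : ((Q.V)†) (Q.V θ) = θ := by
  refine ext_inner_left ℂ fun θ' => ?_
  rw [ContinuousLinearMap.adjoint_inner_right, Q.V_inner]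

theorem V_slice {a : H →L[ℂ] H} (ha : a ∈ Q.ψ.N) (η' η : H) :
    Q.sr η' η a ∈ Q.ψ.N ∧ ((rT η')†) (Q.V (tmul (Q.ψ.Λ a) η)) = Q.ψ.Λ (Q.sr η' η a) := by
  have h1 : ∀ i, Q.ψ.Z i (((rT η')†) (Q.V (tmul (Q.ψ.Λ a) η))) = Q.sr η' η a (Q.ψ.z i) := by
    intro i
    rw [← rT_adj_mapT_left, Q.V_spec ha, Q.sr_apply]
  have h2 : Q.sr η' η a ∈ Q.ψ.N := by
    refine ⟨Q.sr_mem η' η ha.1, ?_⟩
    have h := (Q.ψ.norm_Z (((rT η')†) (Q.V (tmul (Q.ψ.Λ a) η)))).summable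
    simpa only [h1] using h
  refine ⟨h2, Q.ψ.ext_Z fun i => ?_⟩
  rw [h1, Q.ψ.Z_Λ _ h2]

private theorem ext_Λ {A B : HTen H H →L[ℂ] HTen H H}
    (h : ∀ a ∈ Q.ψ.N, ∀ η, A (tmul (Q.ψ.Λ a) η) = B (tmul (Q.ψ.Λ a) η)) : A = B := by
  refine clm_ext fun ξ η => ?_
  have hc : IsClosed {g : H | A (tmul g η) = B (tmul g η)} :=
    isClosed_eq (A.continuous.comp (rT η).continuous) (B.continuous.comp (rT η).continuous)
  exact Q.ψ.induction_Λ (p := fun g => A (tmul g η) = B (tmul g η)) ξ hc fun a ha => h a ha η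

private theorem map_swap (A B : H →L[ℂ] H) (θ : HTen H H) :
    mapT A (ContinuousLinearMap.id ℂ H) (mapT (ContinuousLinearMap.id ℂ H) B θ) =
      mapT (ContinuousLinearMap.id ℂ H) B (mapT A (ContinuousLinearMap.id ℂ H) θ) := by
  rw [mapT_comp_apply, mapT_comp_apply]
  rfl

theorem V_comm {m : H →L[ℂ] H} (hm : m ∈ Q.M.commutant) (θ : HTen H H) :
    Q.V (mapT (ContinuousLinearMap.id ℂ H) m θ) =
      mapT (ContinuousLinearMap.id ℂ H) m (Q.V θ) := by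
  have h : Q.V ∘L mapT (ContinuousLinearMap.id ℂ H) m =
      mapT (ContinuousLinearMap.id ℂ H) m ∘L Q.V := by
    refine Q.ext_Λ fun a ha η => ?_
    show Q.V (mapT (ContinuousLinearMap.id ℂ H) m (tmul (Q.ψ.Λ a) η)) =
      mapT (ContinuousLinearMap.id ℂ H) m (Q.V (tmul (Q.ψ.Λ a) η))
    refine ext_mapT_left Q.ψ.Z Q.ψ.norm_Z fun i => ?_
    rw [map_swap, Q.V_spec ha, mapT_tmul, ContinuousLinearMap.id_apply, Q.V_spec ha,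
      ← Q.Δ_comm_r ha.1 hm, mapT_tmul, ContinuousLinearMap.id_apply]
  exact congrArg (fun f : HTen H H →L[ℂ] HTen H H => f θ) h

theorem V_adj_comm {m : H →L[ℂ] H} (hm : m ∈ Q.M.commutant) (θ : HTen H H) :
    ((Q.V)†) (mapT (ContinuousLinearMap.id ℂ H) m θ) =
      mapT (ContinuousLinearMap.id ℂ H) m (((Q.V)†) θ) := by
  have e : mapT (ContinuousLinearMap.id ℂ H) m =
      (mapT (ContinuousLinearMap.id ℂ H) (m†))† := by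
    rw [adjoint_mapT, ContinuousLinearMap.adjoint_adjoint, ContinuousLinearMap.adjoint_id]
  refine ext_inner_left ℂ fun θ' => ?_
  rw [ContinuousLinearMap.adjoint_inner_right, e, ContinuousLinearMap.adjoint_inner_right,
    ContinuousLinearMap.adjoint_inner_right, ContinuousLinearMap.adjoint_inner_right,
    Q.V_comm (adj_mem hm)]

theorem Δ_V {x : H →L[ℂ] H} (hx : x ∈ Q.M) (θ : HTen H H) :
    Q.Δ x (Q.V θ) = Q.V (mapT x (ContinuousLinearMap.id ℂ H) θ) := by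
  have h : Q.Δ x ∘L Q.V = Q.V ∘L mapT x (ContinuousLinearMap.id ℂ H) := by
    refine Q.ext_Λ fun a ha η => ?_
    show Q.Δ x (Q.V (tmul (Q.ψ.Λ a) η)) =
      Q.V (mapT x (ContinuousLinearMap.id ℂ H) (tmul (Q.ψ.Λ a) η))
    refine ext_mapT_left Q.ψ.Z Q.ψ.norm_Z fun i => ?_
    rw [← Q.Δ_comm_l hx (Q.Z_mem i), Q.V_spec ha, mapT_tmul, ContinuousLinearMap.id_apply,
      ← Q.ψ_act_Λ hx ha, Q.V_spec (Q.ψ.mul_mem hx ha), Q.mul x hx a ha.1]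
    rfl
  exact congrArg (fun f : HTen H H →L[ℂ] HTen H H => f θ) h

/-- The operators `w_{v,u} = L_v† V L_u`. -/
def w (v u : H) : H →L[ℂ] H := (lT v)† ∘L Q.V ∘L lT u

theorem inner_w (v u η' η : H) : ⟪η', Q.w v u η⟫_ℂ = ⟪tmul v η', Q.V (tmul u η)⟫_ℂ := by
  show ⟪η', ((lT v)†) (Q.V (lT u η))⟫_ℂ = _
  rw [inner_lT_adjoint, lT_apply]

theorem w_mem (v u : H) : Q.w v u ∈ Q.M := by
  refine mem_of_comm fun m hm ξ => ?_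
  show m (((lT v)†) (Q.V (tmul u ξ))) = ((lT v)†) (Q.V (tmul u (m ξ)))
  rw [← lT_adj_mapT_right, ← Q.V_comm hm, mapT_tmul, ContinuousLinearMap.id_apply]

theorem norm_w_le (v u : H) : ‖Q.w v u‖ ≤ ‖v‖ * ‖u‖ := by
  refine ContinuousLinearMap.opNorm_le_bound _ (by positivity) fun η => ?_
  have h1 : ‖((lT v : H →L[ℂ] HTen H H)†)‖ ≤ ‖v‖ := by
    rw [LinearIsometryEquiv.norm_map]
    exact norm_lT_le v
  calc ‖Q.w v u η‖ = ‖((lT v)†) (Q.V (tmul u η))‖ := rfl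
    _ ≤ ‖((lT v : H →L[ℂ] HTen H H)†)‖ * ‖Q.V (tmul u η)‖ := ContinuousLinearMap.le_opNorm _ _
    _ ≤ ‖v‖ * (‖u‖ * ‖η‖) := by
        rw [Q.norm_V, norm_tmul]
        gcongr
    _ = ‖v‖ * ‖u‖ * ‖η‖ := by ring

theorem sl_z {a : H →L[ℂ] H} (ha : a ∈ Q.ψ.N) (v' : H) (i : Q.ψ.ι) :
    Q.sl v' (Q.ψ.z i) a = Q.w (((Q.ψ.Z i)†) v') (Q.ψ.Λ a) := by
  ext η
  refine ext_inner_left ℂ fun η' => ?_
  have e : tmul (((Q.ψ.Z i)†) v') η' =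
      ((mapT (Q.ψ.Z i) (ContinuousLinearMap.id ℂ H))†) (tmul v' η') := by
    rw [adjoint_mapT, mapT_tmul, ContinuousLinearMap.adjoint_id, ContinuousLinearMap.id_apply]
  rw [Q.inner_sl, Q.inner_w, e, ContinuousLinearMap.adjoint_inner_left, Q.V_spec ha]

end QG

end Pool.Agent.VNQ
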