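import Pool.Agent.VNQ.YProp
import Pool.Agent.VNQ.VProp

/-!
# The two approximation relations (internal form)
-/

set_option autoImplicit false

noncomputable section

open scoped TensorProduct InnerProductSpace InnerProduct ENNReal
open Filter

namespace Pool.Agent.VNQ

universe u

variable {H G : Type u} [NormedAddCommGroup H] [InnerProductSpace ℂ H] [CompleteSpace H]
  [NormedAddCommGroup G] [InnerProductSpace ℂ G] [CompleteSpace G]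

namespace QG

variable (Q : QG H G)

/-- The condition on the pair `(x, x₁)` in the definition of `𝒟`. -/
def DP (x x₁ : H →L[ℂ] H) : Prop :=
  ∀ ε > 0, ∀ (n : ℕ) (ξ η : Fin n → H), ∃ (m : ℕ) (p q : Fin m → H →L[ℂ] H),
    (∀ j, p j ∈ Q.M) ∧ (∀ j, q j ∈ Q.M) ∧ ∀ k,
      ‖tmul (x (ξ k)) (η k) - ∑ j, Q.Δ (p j) (tmul (ξ k) (((q j)†) (η k)))‖ < ε ∧
      ‖tmul (x₁ (ξ k)) (η k) - ∑ j, Q.Δ (q j) (tmul (ξ k) (((p j)†) (η k)))‖ < ε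

/-- The condition on the pair `(ξ, ξ₁)` in the definition of `K`. -/
def KR (ξ ξ₁ : H) : Prop :=
  ∀ ε > 0, ∀ (n : ℕ) (η : Fin n → H), ∃ (m : ℕ) (p q : Fin m → H →L[ℂ] H),
    (∀ j, p j ∈ Q.ψ.N) ∧ (∀ j, q j ∈ Q.ψ.N) ∧ ∀ k,
      ‖tmul ξ (η k) - Q.V (∑ j, tmul (Q.ψ.Λ (p j)) (((q j)†) (η k)))‖ < ε ∧
      ‖tmul ξ₁ (η k) - Q.V (∑ j, tmul (Q.ψ.Λ (q j)) (((p j)†) (η k)))‖ < ε

theorem DP_symm {x x₁ : H →L[ℂ] H} (h : Q.DP x x₁) : Q.DP x₁ x := by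
  intro ε hε n ξ η
  obtain ⟨m, p, q, hp, hq, hk⟩ := h ε hε n ξ η
  exact ⟨m, q, p, hq, hp, fun k => ⟨(hk k).2, (hk k).1⟩⟩

theorem KR_symm {ξ ξ₁ : H} (h : Q.KR ξ ξ₁) : Q.KR ξ₁ ξ := by
  intro ε hε n η
  obtain ⟨m, p, q, hp, hq, hk⟩ := h ε hε n η
  exact ⟨m, q, p, hq, hp, fun k => ⟨(hk k).2, (hk k).1⟩⟩

end QG

end Pool.Agent.VNQ
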