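import Mathlib

/-!
# Polarization for square summable families
-/

set_option autoImplicit false

noncomputable section

open scoped InnerProductSpace

namespace Pool.Agent.VNQ

/-- Polarization: if `∑ ‖T i g‖² = ‖W g‖²` for all `g` then `∑ ⟨T i g, T i g'⟩ = ⟨W g, W g'⟩`. -/
theorem hasSum_inner_of_norm {ι E F F' : Type*} [AddCommGroup E] [Module ℂ E]
    [NormedAddCommGroup F] [InnerProductSpace ℂ F] [NormedAddCommGroup F'] [InnerProductSpace ℂ F']
    (T : ι → E →ₗ[ℂ] F) (W : E →ₗ[ℂ] F') (h : ∀ g, HasSum (fun i => ‖T i g‖ ^ 2) (‖W g‖ ^ 2))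
    (g g' : E) : HasSum (fun i => ⟪T i g, T i g'⟫_ℂ) ⟪W g, W g'⟫_ℂ := by
  have h1 : ∀ g, HasSum (fun i => ((‖T i g‖ : ℂ) ^ 2)) ((‖W g‖ : ℂ) ^ 2) := by
    intro g
    have h2 := (Complex.hasSum_ofReal).2 (h g)
    simpa using h2
  have e1 := (h1 (g + g')).sub (h1 (g - g'))
  have e2 := ((h1 (g - Complex.I • g')).sub (h1 (g + Complex.I • g'))).mul_right Complex.I
  have e3 := (e1.add e2).div_const 4
  simp only [map_add, map_sub, map_smul] at e3
  simp only [inner_eq_sum_norm_sq_div_four]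
  exact e3

end Pool.Agent.VNQ
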