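import Pool.Agent.VNQ.Tens
import Pool.Agent.VNQ.Polar

/-!
# Parseval identities in the tensor product

Let `f` be a Hilbert basis of `K` (respectively `H`). For `θ ∈ H ⊗ K`:
`θ = ∑ tmul (R_{f_l}† θ) f_l` and `‖θ‖² = ∑ ‖R_{f_l}† θ‖²` (`R_η = rT η`), and similarly on the left
with
`L_ξ = lT ξ`.

Proof of `hasSum_sq_right`. Let `T_l = R_{f_l}†`. (i) For an elementary tensor `tmul ξ η`:
`T_l (tmul ξ η) = ⟪f_l, η⟫ ξ`.
(ii) Bound: for every finite set `t` of indices and every `θ`: `∑_{l ∈ t} ‖T_l θ‖² ≤ ‖θ‖²`: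
the operator `P_t = ∑_{l∈t} R_{f_l} R_{f_l}† = ∑_{l ∈ t} (R_{f_l} T_l)` satisfies
`P_t (tmul ξ η) = tmul ξ (p_t η)` with `p_t η = ∑_{l∈t} ⟪f_l, η⟫ f_l`, so (by `clm_ext`) `P_t = mapT
1 p_t`;
`p_t† = p_t`, `p_t² = p_t` so `P_t² = P_t`, `P_t† = P_t`, and
`∑_{l∈t} ‖T_l θ‖² = ⟪θ, P_t θ⟫ = ‖P_t θ‖² ≤ ‖θ‖ ‖P_t θ‖`, so `‖P_t θ‖ ≤ ‖θ‖`.
(iii) `P_t θ → θ` along the finite sets `t` : this holds for `θ = tmul ξ η`
(`HilbertBasis.hasSum_repr`, continuity of `lT ξ`), hence for finite sums of elementary tensors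
(the algebraic tensor product, `TensorProduct.induction_on`), and by (ii) (`‖P_t‖ ≤ 1`) and density
(`denseRange_toHTen`) for all `θ`. This is `hasSum_right`. Then
`∑_{l∈t} ‖T_l θ‖² = re ⟪θ, P_t θ⟫ → ‖θ‖²`: `hasSum_sq_right`.
The left versions are proved in the same way. `hasSum_inner_right`: polarization
(`hasSum_inner_of_norm` from the file `Polar` with `T_l` and `W = id`).
-/

set_option autoImplicit false

noncomputable section

open scoped TensorProduct InnerProductSpace InnerProduct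

namespace Pool.Agent.VNQ

universe u

variable {H K : Type u} [NormedAddCommGroup H] [InnerProductSpace ℂ H] [CompleteSpace H]
  [NormedAddCommGroup K] [InnerProductSpace ℂ K] [CompleteSpace K]

section Aux

open Filter

variable {G E ι : Type*} [DecidableEq ι] [NormedAddCommGroup G] [InnerProductSpace ℂ G] [CompleteSpace G]
  [NormedAddCommGroup E] [InnerProductSpace ℂ E] [CompleteSpace E]

private theorem aux_isom {R : ι → G →L[ℂ] E}
    (h1 : ∀ k l x, ((R k)†) (R l x) = if k = l then x else 0) (k : ι) (x : G) :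
    ‖R k x‖ = ‖x‖ := by
  have h2 : ⟪R k x, R k x⟫_ℂ = ⟪x, x⟫_ℂ := by
    rw [← ContinuousLinearMap.adjoint_inner_right, h1, if_pos rfl]
  have h3 := congrArg Complex.re h2
  have h4 : ‖R k x‖ ^ 2 = ‖x‖ ^ 2 := by
    rw [@norm_sq_eq_re_inner ℂ, @norm_sq_eq_re_inner ℂ]
    exact h3
  exact (pow_left_inj₀ (norm_nonneg _) (norm_nonneg _) two_ne_zero).1 h4

private theorem aux_sum {R : ι → G →L[ℂ] E}
    (h1 : ∀ k l x, ((R k)†) (R l x) = if k = l then x else 0)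
    (h2 : ∀ θ, (∀ k, ((R k)†) θ = 0) → θ = 0) (θ : E) :
    HasSum (fun k => R k (((R k)†) θ)) θ := by
  let V : ι → G →ₗᵢ[ℂ] E := fun k => ⟨(R k).toLinearMap, aux_isom h1 k⟩
  have hV : OrthogonalFamily ℂ (fun _ : ι => G) V := by
    intro k l hkl x y
    change ⟪R k x, R l y⟫_ℂ = 0
    rw [← ContinuousLinearMap.adjoint_inner_right, h1, if_neg hkl, inner_zero_right]
  have hB : ∀ t : Finset ι, ∑ k ∈ t, ‖((R k)†) θ‖ ^ 2 ≤ ‖θ‖ ^ 2 := by
    intro t
    have e1 : ‖∑ k ∈ t, V k (((R k)†) θ)‖ ^ 2 = ∑ k ∈ t, ‖((R k)†) θ‖ ^ 2 :=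
      hV.norm_sum (fun k => ((R k)†) θ) t
    have e2 : ⟪θ, ∑ k ∈ t, V k (((R k)†) θ)⟫_ℂ = ((∑ k ∈ t, ‖((R k)†) θ‖ ^ 2 : ℝ) : ℂ) := by
      rw [inner_sum, Complex.ofReal_sum]
      refine Finset.sum_congr rfl fun k _ => ?_
      change ⟪θ, R k (((R k)†) θ)⟫_ℂ = _
      rw [← ContinuousLinearMap.adjoint_inner_left, inner_self_eq_norm_sq_to_K]
      norm_cast
    have e3 := norm_inner_le_norm (𝕜 := ℂ) θ (∑ k ∈ t, V k (((R k)†) θ))
    rw [e2, Complex.norm_real, Real.norm_of_nonneg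
      (Finset.sum_nonneg fun _ _ => by positivity)] at e3
    rw [← e1] at e3 ⊢
    have e4 : 0 ≤ ‖∑ k ∈ t, V k (((R k)†) θ)‖ := norm_nonneg _
    have e5 : ‖∑ k ∈ t, V k (((R k)†) θ)‖ ≤ ‖θ‖ := by
      by_contra hc
      rw [not_le] at hc
      nlinarith [norm_nonneg θ]
    exact pow_le_pow_left₀ e4 e5 2
  have hS1 : Summable fun k => ‖((R k)†) θ‖ ^ 2 :=
    summable_of_sum_le (fun _ => by positivity) hB
  have hS2 : Summable fun k => V k (((R k)†) θ) :=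
    (hV.summable_iff_norm_sq_summable _).2 hS1
  have hS3 : HasSum (fun k => R k (((R k)†) θ)) (∑' k, V k (((R k)†) θ)) := hS2.hasSum
  have hS4 : θ - ∑' k, V k (((R k)†) θ) = 0 := by
    refine h2 _ fun j => ?_
    have g1 := hS3.mapL ((R j)†)
    have g2 : (fun k => ((R j)†) (R k (((R k)†) θ))) =
        fun k => if k = j then ((R j)†) θ else 0 := by
      funext k
      rw [h1]
      by_cases hk : j = k
      · subst hk
        simp
      · rw [if_neg hk, if_neg (Ne.symm hk)]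
    rw [g2] at g1
    have g3 := hasSum_ite_eq j (((R j)†) θ)
    rw [map_sub, sub_eq_zero]
    exact g3.unique g1
  rw [sub_eq_zero] at hS4
  rw [← hS4] at hS3
  exact hS3

private theorem aux_inner {R : ι → G →L[ℂ] E}
    (h1 : ∀ k l x, ((R k)†) (R l x) = if k = l then x else 0)
    (h2 : ∀ θ, (∀ k, ((R k)†) θ = 0) → θ = 0) (θ θ' : E) :
    HasSum (fun k => ⟪((R k)†) θ, ((R k)†) θ'⟫_ℂ) ⟪θ, θ'⟫_ℂ := by
  have h3 := (aux_sum h1 h2 θ').mapL (innerSL ℂ θ)
  simp only [innerSL_apply_apply] at h3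
  have h4 : (fun k => ⟪((R k)†) θ, ((R k)†) θ'⟫_ℂ) =
      fun k => ⟪θ, R k (((R k)†) θ')⟫_ℂ := by
    funext k
    rw [ContinuousLinearMap.adjoint_inner_left]
  rw [h4]
  exact h3

private theorem aux_sq {R : ι → G →L[ℂ] E}
    (h1 : ∀ k l x, ((R k)†) (R l x) = if k = l then x else 0)
    (h2 : ∀ θ, (∀ k, ((R k)†) θ = 0) → θ = 0) (θ : E) :
    HasSum (fun k => ‖((R k)†) θ‖ ^ 2) (‖θ‖ ^ 2) := by
  have h3 := (aux_inner h1 h2 θ θ).mapL Complex.reCLM
  have h4 : (fun k => Complex.reCLM ⟪((R k)†) θ, ((R k)†) θ⟫_ℂ) =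
      fun k => ‖((R k)†) θ‖ ^ 2 := by
    funext k
    rw [@norm_sq_eq_re_inner ℂ]
    rfl
  rw [h4] at h3
  rw [@norm_sq_eq_re_inner ℂ]
  exact h3

end Aux

private theorem eq_zero_of_basis {l X : Type*} [NormedAddCommGroup X] [InnerProductSpace ℂ X]
    (f : HilbertBasis l ℂ X) {v : X} (h : ∀ k, ⟪f k, v⟫_ℂ = 0) : v = 0 := by
  have h1 : f.repr v = 0 := by
    ext k
    rw [f.repr_apply_apply, h k]
    rfl
  exact (map_eq_zero_iff f.repr f.repr.injective).1 h1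

private theorem r1 {l : Type*} (f : HilbertBasis l ℂ K) (i j : l) (x : H) [DecidableEq l] :
    ((rT (f i) : H →L[ℂ] HTen H K)†) (rT (f j) x) = if i = j then x else 0 := by
  classical
  rw [rT_apply, rT_adjoint_tmul, orthonormal_iff_ite.1 f.orthonormal]
  split_ifs <;> simp

private theorem r2 {l : Type*} (f : HilbertBasis l ℂ K) (θ : HTen H K)
    (h : ∀ k, ((rT (f k) : H →L[ℂ] HTen H K)†) θ = 0) : θ = 0 := by
  refine ext_inner_left' fun ξ η => ?_
  have h1 : ((lT ξ : K →L[ℂ] HTen H K)†) θ = 0 := by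
    refine eq_zero_of_basis f fun k => ?_
    rw [inner_lT_adjoint, ← inner_rT_adjoint, h, inner_zero_right]
  rw [← inner_lT_adjoint, h1, inner_zero_right, inner_zero_right]

private theorem l1 {l : Type*} (f : HilbertBasis l ℂ H) (i j : l) (x : K) [DecidableEq l] :
    ((lT (f i) : K →L[ℂ] HTen H K)†) (lT (f j) x) = if i = j then x else 0 := by
  classical
  rw [lT_apply, lT_adjoint_tmul, orthonormal_iff_ite.1 f.orthonormal]
  split_ifs <;> simp

private theorem l2 {l : Type*} (f : HilbertBasis l ℂ H) (θ : HTen H K)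
    (h : ∀ k, ((lT (f k) : K →L[ℂ] HTen H K)†) θ = 0) : θ = 0 := by
  refine ext_inner_left' fun ξ η => ?_
  have h1 : ((rT η : H →L[ℂ] HTen H K)†) θ = 0 := by
    refine eq_zero_of_basis f fun k => ?_
    rw [inner_rT_adjoint, ← inner_lT_adjoint, h, inner_zero_right]
  rw [← inner_rT_adjoint, h1, inner_zero_right, inner_zero_right]

theorem hasSum_right {l : Type*} (f : HilbertBasis l ℂ K) (θ : HTen H K) :
    HasSum (fun k => tmul (((rT (f k))†) θ) (f k)) θ := by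
  classical
  exact aux_sum (R := fun k => (rT (f k) : H →L[ℂ] HTen H K)) (fun i j x => r1 f i j x)
    (r2 f) θ

theorem hasSum_sq_right {l : Type*} (f : HilbertBasis l ℂ K) (θ : HTen H K) :
    HasSum (fun k => ‖((rT (f k) : H →L[ℂ] HTen H K)†) θ‖ ^ 2) (‖θ‖ ^ 2) := by
  classical
  exact aux_sq (R := fun k => (rT (f k) : H →L[ℂ] HTen H K)) (fun i j x => r1 f i j x)
    (r2 f) θ

theorem hasSum_inner_right {l : Type*} (f : HilbertBasis l ℂ K) (θ θ' : HTen H K) :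
    HasSum (fun k => ⟪((rT (f k) : H →L[ℂ] HTen H K)†) θ, ((rT (f k))†) θ'⟫_ℂ) ⟪θ, θ'⟫_ℂ := by
  classical
  exact aux_inner (R := fun k => (rT (f k) : H →L[ℂ] HTen H K)) (fun i j x => r1 f i j x)
    (r2 f) θ θ'

theorem hasSum_left {l : Type*} (f : HilbertBasis l ℂ H) (θ : HTen H K) :
    HasSum (fun k => tmul (f k) (((lT (f k))†) θ)) θ := by
  classical
  exact aux_sum (R := fun k => (lT (f k) : K →L[ℂ] HTen H K)) (fun i j x => l1 f i j x)
    (l2 f) θ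

theorem hasSum_sq_left {l : Type*} (f : HilbertBasis l ℂ H) (θ : HTen H K) :
    HasSum (fun k => ‖((lT (f k) : K →L[ℂ] HTen H K)†) θ‖ ^ 2) (‖θ‖ ^ 2) := by
  classical
  exact aux_sq (R := fun k => (lT (f k) : K →L[ℂ] HTen H K)) (fun i j x => l1 f i j x)
    (l2 f) θ

theorem hasSum_inner_left {l : Type*} (f : HilbertBasis l ℂ H) (θ θ' : HTen H K) :
    HasSum (fun k => ⟪((lT (f k) : K →L[ℂ] HTen H K)†) θ, ((lT (f k))†) θ'⟫_ℂ) ⟪θ, θ'⟫_ℂ := by
  classical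
  exact aux_inner (R := fun k => (lT (f k) : K →L[ℂ] HTen H K)) (fun i j x => l1 f i j x)
    (l2 f) θ θ'

end Pool.Agent.VNQ
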