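import Pool.Agent.VNQ.Spec

/-!
# Quantum groups with the GNS constructions of both weights (internal form)
-/

set_option autoImplicit false
set_option linter.unusedSectionVars false

noncomputable section

open scoped TensorProduct InnerProductSpace InnerProduct ENNReal

namespace Pool.Agent.VNQ

universe u

variable {H G : Type u} [NormedAddCommGroup H] [InnerProductSpace ℂ H] [CompleteSpace H]
  [NormedAddCommGroup G] [InnerProductSpace ℂ G] [CompleteSpace G]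

/-- `N` for the weight `∑ i, ⟨z i, · (z i)⟩`: all `a ∈ M` with `∑ ‖a (z i)‖² < ∞`. -/
def NS (M : VonNeumannAlgebra H) {ι : Type u} (z : ι → H) : Set (H →L[ℂ] H) :=
  {a | a ∈ M ∧ Summable fun i => ‖a (z i)‖ ^ 2}

/-- A normal semifinite faithful weight `∑ i, ⟨z i, · (z i)⟩` on `M` together with its GNS
construction on `G`: `Λ : N → G` with dense range, the operators `Z i : G → H`,
`Z i (Λ a) = a (z i)`, and the action `act` of `M` on `G`. -/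
structure Wt (M : VonNeumannAlgebra H) (G : Type u) [NormedAddCommGroup G]
    [InnerProductSpace ℂ G] [CompleteSpace G] where
  ι : Type u
  z : ι → H
  Λ : (H →L[ℂ] H) → G
  Z : ι → G →L[ℂ] H
  act : (H →L[ℂ] H) → G →L[ℂ] G
  faithful : ∀ a ∈ M, (∀ i, a (z i) = 0) → a = 0
  semifinite : ∀ (n : ℕ) (ξ : Fin n → H), ∀ ε > 0, ∃ a ∈ NS M z, ∀ k, ‖a (ξ k) - ξ k‖ < ε
  Λ_add : ∀ a ∈ NS M z, ∀ b ∈ NS M z, Λ (a + b) = Λ a + Λ b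
  Λ_smul : ∀ c : ℂ, ∀ a ∈ NS M z, Λ (c • a) = c • Λ a
  dense : Dense (Λ '' NS M z)
  Z_Λ : ∀ a ∈ NS M z, ∀ i, Z i (Λ a) = a (z i)
  norm_Z : ∀ g, HasSum (fun i => ‖Z i g‖ ^ 2) (‖g‖ ^ 2)
  Z_act : ∀ m ∈ M, ∀ i g, Z i (act m g) = m (Z i g)

namespace Wt

variable {M : VonNeumannAlgebra H} (w : Wt M G)

/-- the left ideal `N` of the weight -/
def N : Set (H →L[ℂ] H) := NS M w.z

theorem mem_N {a : H →L[ℂ] H} : a ∈ w.N ↔ a ∈ M ∧ Summable fun i => ‖a (w.z i)‖ ^ 2 := Iff.rfl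

theorem ext_Z {g g' : G} (h : ∀ i, w.Z i g = w.Z i g') : g = g' := by
  have h1 := w.norm_Z (g - g')
  have h2 : (fun i => ‖w.Z i (g - g')‖ ^ 2) = fun _ => (0 : ℝ) := by
    funext i
    rw [map_sub, h i, sub_self, norm_zero]
    norm_num
  rw [h2] at h1
  have h3 := h1.unique hasSum_zero
  have h4 : ‖g - g'‖ = 0 := by
    have := sq_eq_zero_iff.1 h3
    exact this
  exact sub_eq_zero.1 (norm_eq_zero.1 h4)

theorem hasSum_Λ {a : H →L[ℂ] H} (ha : a ∈ w.N) :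
    HasSum (fun i => ‖a (w.z i)‖ ^ 2) (‖w.Λ a‖ ^ 2) := by
  have h := w.norm_Z (w.Λ a)
  have h2 : (fun i => ‖w.Z i (w.Λ a)‖ ^ 2) = fun i => ‖a (w.z i)‖ ^ 2 := by
    funext i
    rw [w.Z_Λ a ha]
  rwa [h2] at h

theorem mul_mem {m a : H →L[ℂ] H} (hm : m ∈ M) (ha : a ∈ w.N) : m ∘L a ∈ w.N := by
  refine ⟨MulMemClass.mul_mem hm ha.1, ?_⟩
  refine Summable.of_nonneg_of_le (fun i => by positivity) (fun i => ?_)
    (ha.2.mul_left (‖m‖ ^ 2))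
  have h := m.le_opNorm (a (w.z i))
  calc ‖(m ∘L a) (w.z i)‖ ^ 2 = ‖m (a (w.z i))‖ ^ 2 := rfl
    _ ≤ (‖m‖ * ‖a (w.z i)‖) ^ 2 := by gcongr
    _ = ‖m‖ ^ 2 * ‖a (w.z i)‖ ^ 2 := by ring

theorem act_Λ {m a : H →L[ℂ] H} (hm : m ∈ M) (ha : a ∈ w.N) :
    w.act m (w.Λ a) = w.Λ (m ∘L a) :=
  w.ext_Z fun i => by
    rw [w.Z_act m hm, w.Z_Λ a ha, w.Z_Λ _ (w.mul_mem hm ha)]
    rfl

end Wt

/-- The internal form of a von Neumann algebraic quantum group: `H` is the GNS space of the right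
invariant weight `ψ`, `G` is the GNS space of the left invariant weight `φ`. -/
structure QG (H G : Type u) [NormedAddCommGroup H] [InnerProductSpace ℂ H] [CompleteSpace H]
    [NormedAddCommGroup G] [InnerProductSpace ℂ G] [CompleteSpace G] where
  M : VonNeumannAlgebra H
  Δ : (H →L[ℂ] H) → (HTen H H →L[ℂ] HTen H H)
  add : ∀ x ∈ M, ∀ y ∈ M, Δ (x + y) = Δ x + Δ y
  smul : ∀ c : ℂ, ∀ x ∈ M, Δ (c • x) = c • Δ x
  mul : ∀ x ∈ M, ∀ y ∈ M, Δ (x ∘L y) = Δ x ∘L Δ y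
  adj : ∀ x ∈ M, Δ (x†) = (Δ x)†
  one : Δ (ContinuousLinearMap.id ℂ H) = ContinuousLinearMap.id ℂ _
  comm_l : ∀ x ∈ M, ∀ m ∈ M.commutant,
    Δ x ∘L mapT m (ContinuousLinearMap.id ℂ H) = mapT m (ContinuousLinearMap.id ℂ H) ∘L Δ x
  comm_r : ∀ x ∈ M, ∀ m ∈ M.commutant,
    Δ x ∘L mapT (ContinuousLinearMap.id ℂ H) m = mapT (ContinuousLinearMap.id ℂ H) m ∘L Δ x
  normal : ∀ θ : HTen H H, ∃ κ : ℕ → H, ∀ x ∈ M,
    HasSum (fun n => ‖x (κ n)‖ ^ 2) (‖Δ x θ‖ ^ 2)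
  coassoc : ∀ x ∈ M, ∀ α' α β' β η' η : H,
    ⟪tmul α' β', Δ (sliceR η' η (Δ x)) (tmul α β)⟫_ℂ = ⟪tmul β' η', Δ (sliceL α' α (Δ x)) (tmul β η)⟫_ℂ
  ψ : Wt M H
  ψ_act : ∀ m ∈ M, ψ.act m = m
  φ : Wt M G
  left_inv : ∀ a ∈ φ.N, ∀ ξ : H,
    HasSum (fun j => ‖Δ a (tmul ξ (φ.z j))‖ ^ 2) (‖ξ‖ ^ 2 * ‖φ.Λ a‖ ^ 2)
  right_inv : ∀ a ∈ ψ.N, ∀ η : H,
    HasSum (fun i => ‖Δ a (tmul (ψ.z i) η)‖ ^ 2) (‖ψ.Λ a‖ ^ 2 * ‖η‖ ^ 2)

end Pool.Agent.VNQ
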