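import Pool.Agent.VNQ.WtLin

/-!
# Basic facts on quantum groups (internal form)
-/

set_option autoImplicit false
set_option linter.unusedSectionVars false

noncomputable section

open scoped TensorProduct InnerProductSpace InnerProduct ENNReal

namespace Pool.Agent.VNQ

universe u

variable {H G : Type u} [NormedAddCommGroup H] [InnerProductSpace ℂ H] [CompleteSpace H]
  [NormedAddCommGroup G] [InnerProductSpace ℂ G] [CompleteSpace G]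

theorem mem_comm_iff {M : VonNeumannAlgebra H} {m : H →L[ℂ] H} :
    m ∈ M.commutant ↔ ∀ x ∈ M, ∀ ξ, x (m ξ) = m (x ξ) := by
  rw [VonNeumannAlgebra.mem_commutant_iff]
  constructor
  · intro h x hx ξ
    exact congrArg (fun f : H →L[ℂ] H => f ξ) (h x hx)
  · intro h x hx
    ext ξ
    exact h x hx ξ

theorem mem_of_comm {M : VonNeumannAlgebra H} {x : H →L[ℂ] H}
    (h : ∀ m ∈ M.commutant, ∀ ξ, m (x ξ) = x (m ξ)) : x ∈ M := by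
  rw [← M.commutant_commutant, mem_comm_iff]
  exact h

theorem adj_mem {M : VonNeumannAlgebra H} {x : H →L[ℂ] H} (h : x ∈ M) : x† ∈ M :=
  StarMemClass.star_mem h

theorem comp_mem {M : VonNeumannAlgebra H} {x y : H →L[ℂ] H} (h : x ∈ M) (h' : y ∈ M) :
    x ∘L y ∈ M := MulMemClass.mul_mem h h'

theorem id_mem {M : VonNeumannAlgebra H} : ContinuousLinearMap.id ℂ H ∈ M := OneMemClass.one_mem M

theorem smul_mem' {M : VonNeumannAlgebra H} (c : ℂ) {x : H →L[ℂ] H} (h : x ∈ M) : c • x ∈ M := by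
  refine mem_of_comm fun m hm ξ => ?_
  have := (mem_comm_iff.1 hm) x h ξ
  simp [this]

theorem add_mem' {M : VonNeumannAlgebra H} {x y : H →L[ℂ] H} (h : x ∈ M) (h' : y ∈ M) :
    x + y ∈ M := AddMemClass.add_mem h h'

theorem sub_mem' {M : VonNeumannAlgebra H} {x y : H →L[ℂ] H} (h : x ∈ M) (h' : y ∈ M) :
    x - y ∈ M := by
  have h1 := add_mem' h (smul_mem' (-1 : ℂ) h')
  have h2 : x + (-1 : ℂ) • y = x - y := by
    rw [neg_one_smul, sub_eq_add_neg]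
  rwa [h2] at h1

theorem sum_mem' {M : VonNeumannAlgebra H} {κ : Type*} (s : Finset κ) (f : κ → H →L[ℂ] H)
    (h : ∀ k ∈ s, f k ∈ M) : ∑ k ∈ s, f k ∈ M := by
  classical
  induction s using Finset.induction_on with
  | empty => simp
  | insert a s ha ih =>
    rw [Finset.sum_insert ha]
    exact add_mem' (h a (Finset.mem_insert_self a s))
      (ih fun k hk => h k (Finset.mem_insert_of_mem hk))

theorem inner_sliceR (η' η ξ' ξ : H) (X : HTen H H →L[ℂ] HTen H H) :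
    ⟪ξ', sliceR η' η X ξ⟫_ℂ = ⟪tmul ξ' η', X (tmul ξ η)⟫_ℂ := by
  show ⟪ξ', ((rT η')†) (X (rT η ξ))⟫_ℂ = _
  rw [inner_rT_adjoint, rT_apply]

theorem inner_sliceL (ξ' ξ η' η : H) (X : HTen H H →L[ℂ] HTen H H) :
    ⟪η', sliceL ξ' ξ X η⟫_ℂ = ⟪tmul ξ' η', X (tmul ξ η)⟫_ℂ := by
  show ⟪η', ((lT ξ')†) (X (lT ξ η))⟫_ℂ = _
  rw [inner_lT_adjoint, lT_apply]

theorem adjoint_sliceR (η' η : H) (X : HTen H H →L[ℂ] HTen H H) :
    (sliceR η' η X)† = sliceR η η' (X†) := by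
  ext ξ
  refine ext_inner_left ℂ fun ξ' => ?_
  rw [ContinuousLinearMap.adjoint_inner_right, inner_sliceR, ← inner_conj_symm, inner_sliceR,
    ContinuousLinearMap.adjoint_inner_right, inner_conj_symm]

theorem adjoint_sliceL (ξ' ξ : H) (X : HTen H H →L[ℂ] HTen H H) :
    (sliceL ξ' ξ X)† = sliceL ξ ξ' (X†) := by
  ext η
  refine ext_inner_left ℂ fun η' => ?_
  rw [ContinuousLinearMap.adjoint_inner_right, inner_sliceL, ← inner_conj_symm, inner_sliceL,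
    ContinuousLinearMap.adjoint_inner_right, inner_conj_symm]

theorem norm_sliceR_le (η' η : H) (X : HTen H H →L[ℂ] HTen H H) :
    ‖sliceR η' η X‖ ≤ ‖η'‖ * ‖X‖ * ‖η‖ := by
  refine (ContinuousLinearMap.opNorm_comp_le _ _).trans ?_
  have h1 : ‖((rT η' : H →L[ℂ] HTen H H)†)‖ ≤ ‖η'‖ := by
    rw [LinearIsometryEquiv.norm_map]
    exact norm_rT_le η'
  have h2 : ‖X ∘L (rT η : H →L[ℂ] HTen H H)‖ ≤ ‖X‖ * ‖η‖ :=
    (ContinuousLinearMap.opNorm_comp_le _ _).trans (by gcongr; exact norm_rT_le η)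
  calc ‖((rT η' : H →L[ℂ] HTen H H)†)‖ * ‖X ∘L (rT η : H →L[ℂ] HTen H H)‖
      ≤ ‖η'‖ * (‖X‖ * ‖η‖) := by gcongr
    _ = ‖η'‖ * ‖X‖ * ‖η‖ := by ring

theorem norm_sliceL_le (ξ' ξ : H) (X : HTen H H →L[ℂ] HTen H H) :
    ‖sliceL ξ' ξ X‖ ≤ ‖ξ'‖ * ‖X‖ * ‖ξ‖ := by
  refine (ContinuousLinearMap.opNorm_comp_le _ _).trans ?_
  have h1 : ‖((lT ξ' : H →L[ℂ] HTen H H)†)‖ ≤ ‖ξ'‖ := by
    rw [LinearIsometryEquiv.norm_map]
    exact norm_lT_le ξ'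
  have h2 : ‖X ∘L (lT ξ : H →L[ℂ] HTen H H)‖ ≤ ‖X‖ * ‖ξ‖ :=
    (ContinuousLinearMap.opNorm_comp_le _ _).trans (by gcongr; exact norm_lT_le ξ)
  calc ‖((lT ξ' : H →L[ℂ] HTen H H)†)‖ * ‖X ∘L (lT ξ : H →L[ℂ] HTen H H)‖
      ≤ ‖ξ'‖ * (‖X‖ * ‖ξ‖) := by gcongr
    _ = ‖ξ'‖ * ‖X‖ * ‖ξ‖ := by ring

namespace QG

variable (Q : QG H G)

/-- the right slice `(ι ⊗ ⟨η', · η⟩)(Δ(x))` -/
def sr (η' η : H) (x : H →L[ℂ] H) : H →L[ℂ] H := sliceR η' η (Q.Δ x)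

/-- the left slice `(⟨ξ', · ξ⟩ ⊗ ι)(Δ(x))` -/
def sl (ξ' ξ : H) (x : H →L[ℂ] H) : H →L[ℂ] H := sliceL ξ' ξ (Q.Δ x)

theorem inner_sr (η' η ξ' ξ : H) (x : H →L[ℂ] H) :
    ⟪ξ', Q.sr η' η x ξ⟫_ℂ = ⟪tmul ξ' η', Q.Δ x (tmul ξ η)⟫_ℂ := inner_sliceR η' η ξ' ξ (Q.Δ x)

theorem inner_sl (ξ' ξ η' η : H) (x : H →L[ℂ] H) :
    ⟪η', Q.sl ξ' ξ x η⟫_ℂ = ⟪tmul ξ' η', Q.Δ x (tmul ξ η)⟫_ℂ := inner_sliceL ξ' ξ η' η (Q.Δ x)

theorem sr_apply (η' η : H) (x : H →L[ℂ] H) (ξ : H) :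
    Q.sr η' η x ξ = ((rT η')†) (Q.Δ x (tmul ξ η)) := rfl

theorem sl_apply (ξ' ξ : H) (x : H →L[ℂ] H) (η : H) :
    Q.sl ξ' ξ x η = ((lT ξ')†) (Q.Δ x (tmul ξ η)) := rfl

theorem Δ_sub {x y : H →L[ℂ] H} (hx : x ∈ Q.M) (hy : y ∈ Q.M) :
    Q.Δ (x - y) = Q.Δ x - Q.Δ y := by
  have h := Q.add x hx _ (smul_mem' (-1 : ℂ) hy)
  rw [Q.smul _ _ hy] at h
  rwa [neg_one_smul, neg_one_smul, ← sub_eq_add_neg, ← sub_eq_add_neg] at h

theorem Δ_sum {κ : Type*} (s : Finset κ) (f : κ → H →L[ℂ] H) (h : ∀ k ∈ s, f k ∈ Q.M) :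
    Q.Δ (∑ k ∈ s, f k) = ∑ k ∈ s, Q.Δ (f k) := by
  classical
  induction s using Finset.induction_on with
  | empty =>
    have h0 := Q.smul 0 0 (ZeroMemClass.zero_mem Q.M)
    rw [zero_smul, zero_smul] at h0
    simpa using h0
  | insert a s ha ih =>
    rw [Finset.sum_insert ha, Finset.sum_insert ha, Q.add _ (h a (Finset.mem_insert_self a s)) _
      (sum_mem' s f fun k hk => h k (Finset.mem_insert_of_mem hk)),
      ih fun k hk => h k (Finset.mem_insert_of_mem hk)]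

/-- The coproduct is contractive. -/
theorem norm_Δ_apply_le {x : H →L[ℂ] H} (hx : x ∈ Q.M) (θ : HTen H H) :
    ‖Q.Δ x θ‖ ≤ ‖x‖ * ‖θ‖ := by
  obtain ⟨κ, hκ⟩ := Q.normal θ
  have h1 := hκ x hx
  have h2 := hκ _ (id_mem (M := Q.M))
  rw [Q.one] at h2
  have h3 : ‖Q.Δ x θ‖ ^ 2 ≤ ‖x‖ ^ 2 * ‖θ‖ ^ 2 := by
    refine hasSum_le (fun n => ?_) h1 (h2.mul_left (‖x‖ ^ 2))
    rw [← mul_pow]
    exact pow_le_pow_left₀ (norm_nonneg _) (x.le_opNorm _) 2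
  rw [← mul_pow] at h3
  exact (pow_le_pow_iff_left₀ (norm_nonneg _) (by positivity) two_ne_zero).1 h3

theorem norm_Δ_le {x : H →L[ℂ] H} (hx : x ∈ Q.M) : ‖Q.Δ x‖ ≤ ‖x‖ :=
  ContinuousLinearMap.opNorm_le_bound _ (norm_nonneg _) (Q.norm_Δ_apply_le hx)

theorem Δ_comm_l {x m : H →L[ℂ] H} (hx : x ∈ Q.M) (hm : m ∈ Q.M.commutant) (θ : HTen H H) :
    Q.Δ x (mapT m (ContinuousLinearMap.id ℂ H) θ) =
      mapT m (ContinuousLinearMap.id ℂ H) (Q.Δ x θ) :=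
  congrArg (fun f : HTen H H →L[ℂ] HTen H H => f θ) (Q.comm_l x hx m hm)

theorem Δ_comm_r {x m : H →L[ℂ] H} (hx : x ∈ Q.M) (hm : m ∈ Q.M.commutant) (θ : HTen H H) :
    Q.Δ x (mapT (ContinuousLinearMap.id ℂ H) m θ) =
      mapT (ContinuousLinearMap.id ℂ H) m (Q.Δ x θ) :=
  congrArg (fun f : HTen H H →L[ℂ] HTen H H => f θ) (Q.comm_r x hx m hm)

/-- `R_{η'}† (m ⊗ 1) = m R_{η'}†` -/
theorem rT_adj_mapT_left (m : H →L[ℂ] H) (η' : H) (θ : HTen H H) :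
    ((rT η')†) (mapT m (ContinuousLinearMap.id ℂ H) θ) = m (((rT η')†) θ) := by
  have h := congrArg (fun f : HTen H H →L[ℂ] H => f θ)
    (rT_adjoint_mapT m (ContinuousLinearMap.id ℂ H) η')
  have h2 : ((ContinuousLinearMap.id ℂ H)†) η' = η' := by
    have : (ContinuousLinearMap.id ℂ H)† = ContinuousLinearMap.id ℂ H :=
      ContinuousLinearMap.adjoint_id
    rw [this]
    rfl
  rw [h2] at h
  exact h

theorem lT_adj_mapT_right (m : H →L[ℂ] H) (ξ' : H) (θ : HTen H H) :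
    ((lT ξ')†) (mapT (ContinuousLinearMap.id ℂ H) m θ) = m (((lT ξ')†) θ) := by
  have h := congrArg (fun f : HTen H H →L[ℂ] H => f θ)
    (lT_adjoint_mapT (ContinuousLinearMap.id ℂ H) m ξ')
  have h2 : ((ContinuousLinearMap.id ℂ H)†) ξ' = ξ' := by
    have : (ContinuousLinearMap.id ℂ H)† = ContinuousLinearMap.id ℂ H :=
      ContinuousLinearMap.adjoint_id
    rw [this]
    rfl
  rw [h2] at h
  exact h

theorem sr_mem (η' η : H) {x : H →L[ℂ] H} (hx : x ∈ Q.M) : Q.sr η' η x ∈ Q.M := by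
  refine mem_of_comm fun m hm ξ => ?_
  rw [Q.sr_apply, Q.sr_apply, ← rT_adj_mapT_left, ← Q.Δ_comm_l hx hm]
  simp

theorem sl_mem (ξ' ξ : H) {x : H →L[ℂ] H} (hx : x ∈ Q.M) : Q.sl ξ' ξ x ∈ Q.M := by
  refine mem_of_comm fun m hm η => ?_
  rw [Q.sl_apply, Q.sl_apply, ← lT_adj_mapT_right, ← Q.Δ_comm_r hx hm]
  simp

theorem adjoint_sr (η' η : H) {x : H →L[ℂ] H} (hx : x ∈ Q.M) :
    (Q.sr η' η x)† = Q.sr η η' (x†) := by
  rw [sr, adjoint_sliceR, ← Q.adj x hx]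
  rfl

theorem adjoint_sl (ξ' ξ : H) {x : H →L[ℂ] H} (hx : x ∈ Q.M) :
    (Q.sl ξ' ξ x)† = Q.sl ξ ξ' (x†) := by
  rw [sl, adjoint_sliceL, ← Q.adj x hx]
  rfl

/-- The commutant trick: `m' ∈ M'` moves from one side of the slice to the other. -/
theorem sr_comm (η' η : H) {x m : H →L[ℂ] H} (hx : x ∈ Q.M) (hm : m ∈ Q.M.commutant) :
    Q.sr (m η') η x = Q.sr η' ((m†) η) x := by
  have hm' : m† ∈ Q.M.commutant := adj_mem hm
  ext ξ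
  refine ext_inner_left ℂ fun ξ' => ?_
  rw [Q.inner_sr, Q.inner_sr]
  have h1 : tmul ξ ((m†) η) = mapT (ContinuousLinearMap.id ℂ H) (m†) (tmul ξ η) := by simp
  have h2 : tmul ξ' (m η') = mapT (ContinuousLinearMap.id ℂ H) m (tmul ξ' η') := by simp
  rw [h1, h2, Q.Δ_comm_r hx hm', ← ContinuousLinearMap.adjoint_inner_right, adjoint_mapT]
  have h3 : (ContinuousLinearMap.id ℂ H)† = ContinuousLinearMap.id ℂ H :=
    ContinuousLinearMap.adjoint_id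
  rw [h3]

/-- `Z_i` commutes with `M`. -/
theorem Z_comm {m : H →L[ℂ] H} (hm : m ∈ Q.M) (i : Q.ψ.ι) (g : H) :
    Q.ψ.Z i (m g) = m (Q.ψ.Z i g) := by
  have h := Q.ψ.Z_act m hm i g
  rwa [Q.ψ_act m hm] at h

theorem Z_mem (i : Q.ψ.ι) : Q.ψ.Z i ∈ Q.M.commutant :=
  mem_comm_iff.2 fun _ hx ξ => (Q.Z_comm hx i ξ).symm

theorem ψ_act_Λ {m a : H →L[ℂ] H} (hm : m ∈ Q.M) (ha : a ∈ Q.ψ.N) :
    Q.ψ.Λ (m ∘L a) = m (Q.ψ.Λ a) := by
  rw [← Q.ψ.act_Λ hm ha, Q.ψ_act m hm]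

end QG

end Pool.Agent.VNQ
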