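import Mathlib

/-!
# Sums `∑ A_k† v_k`

* `summable_adjoint`: if `∑ ‖A_k β‖² ≤ C ‖β‖²` for all `β` and `∑ ‖v_k‖² < ∞` then `∑ A_k† v_k`
  converges to some `s` and `⟪β, s⟫ = ∑ ⟪A_k β, v_k⟫`.

  Proof. For a finite set `t` of indices and `S_t = ∑_{k ∈ t} A_k† v_k`:
  `|⟪β, S_t⟫| = |∑_{k∈t} ⟪A_k β, v_k⟫| ≤ (∑_{k∈t} ‖A_k β‖²)^{1/2} (∑_{k∈t} ‖v_k‖²)^{1/2}
  ≤ (C ‖β‖² ∑_{k∈t} ‖v_k‖²)^{1/2}` (Cauchy-Schwarz for finite sums,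
  `Finset.inner_mul_le_norm_mul_norm`
  or `Finset.sum_mul_sq_le_sq_mul_sq`); with `β = S_t` this gives
  `‖S_t‖² ≤ C ∑_{k∈t} ‖v_k‖²`. So the net `S_t` is Cauchy (`summable_iff_vanishing_norm`, with
  `hv` and the same criterion) and has a limit `s`. The second claim is
  continuity of `⟪β, ·⟫` (`HasSum.mapL` for `innerSL ℂ β`) and
  `⟪β, A_k† v_k⟫ = ⟪A_k β, v_k⟫` (`ContinuousLinearMap.adjoint_inner_right`).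

* `hasSum_inner_of_sq`: if `∑ ‖u_k‖² < ∞` and `∑ ‖v_k‖² < ∞` then `∑ ⟪u_k, v_k⟫` is absolutely
  convergent and `‖∑ ⟪u_k, v_k⟫‖ ≤ (∑ ‖u_k‖²)^{1/2} (∑ ‖v_k‖²)^{1/2}`.
  Proof. `‖⟪u_k, v_k⟫‖ ≤ ‖u_k‖ ‖v_k‖`, `Real.inner_le_Lp_mul_Lq_tsum_of_nonneg` or
  `summable_mul_of_Lp_Lq` with `p = q = 2`, or Cauchy-Schwarz for finite sums.
-/

set_option autoImplicit false

noncomputable section

open scoped InnerProductSpace InnerProduct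

namespace Pool.Agent.VNQ

private theorem sumA_aux {κ F : Type*} [NormedAddCommGroup F] [InnerProductSpace ℂ F]
    (u v : κ → F) (t : Finset κ) :
    ‖∑ k ∈ t, ⟪u k, v k⟫_ℂ‖ ^ 2 ≤ (∑ k ∈ t, ‖u k‖ ^ 2) * ∑ k ∈ t, ‖v k‖ ^ 2 := by
  have h1 : ‖∑ k ∈ t, ⟪u k, v k⟫_ℂ‖ ≤ ∑ k ∈ t, ‖u k‖ * ‖v k‖ := by
    refine (norm_sum_le _ _).trans (Finset.sum_le_sum fun k _ => ?_)
    exact norm_inner_le_norm _ _
  calc ‖∑ k ∈ t, ⟪u k, v k⟫_ℂ‖ ^ 2 ≤ (∑ k ∈ t, ‖u k‖ * ‖v k‖) ^ 2 :=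
        pow_le_pow_left₀ (norm_nonneg _) h1 2
    _ ≤ _ := Finset.sum_mul_sq_le_sq_mul_sq _ _ _

private theorem sumA_fin {κ E F : Type*} [NormedAddCommGroup E] [InnerProductSpace ℂ E]
    [CompleteSpace E] [NormedAddCommGroup F] [InnerProductSpace ℂ F] [CompleteSpace F]
    (A : κ → E →L[ℂ] F) (C : ℝ) (hC : 0 ≤ C)
    (hA : ∀ β, ∀ t : Finset κ, ∑ k ∈ t, ‖A k β‖ ^ 2 ≤ C * ‖β‖ ^ 2)
    (v : κ → F) (t : Finset κ) :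
    ‖∑ k ∈ t, ((A k)†) (v k)‖ ^ 2 ≤ C * ∑ k ∈ t, ‖v k‖ ^ 2 := by
  set S : E := ∑ k ∈ t, ((A k)†) (v k) with hS
  have hv0 : 0 ≤ ∑ k ∈ t, ‖v k‖ ^ 2 := Finset.sum_nonneg fun _ _ => sq_nonneg _
  have h1 : ⟪S, S⟫_ℂ = ∑ k ∈ t, ⟪A k S, v k⟫_ℂ := by
    conv_lhs => rw [hS, inner_sum]
    refine Finset.sum_congr rfl fun k _ => ?_
    rw [ContinuousLinearMap.adjoint_inner_right]
  have h2 : (‖S‖ ^ 2) ^ 2 ≤ (C * ‖S‖ ^ 2) * ∑ k ∈ t, ‖v k‖ ^ 2 := by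
    have h3 : ‖⟪S, S⟫_ℂ‖ = ‖S‖ ^ 2 := by
      rw [inner_self_eq_norm_sq_to_K]
      simp
    have h4 : (‖S‖ ^ 2) ^ 2 = ‖∑ k ∈ t, ⟪A k S, v k⟫_ℂ‖ ^ 2 := by
      rw [← h1, h3]
    rw [h4]
    refine (sumA_aux (fun k => A k S) v t).trans ?_
    exact mul_le_mul_of_nonneg_right (hA S t) hv0
  rcases eq_or_lt_of_le (sq_nonneg ‖S‖) with h0 | h0
  · rw [← h0]
    exact mul_nonneg hC hv0
  · have h4 : ‖S‖ ^ 2 * ‖S‖ ^ 2 ≤ (C * ∑ k ∈ t, ‖v k‖ ^ 2) * ‖S‖ ^ 2 := by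
      nlinarith
    exact le_of_mul_le_mul_right h4 h0

/-- `∑ A_k† v_k` converges if `∑ ‖A_k β‖² ≤ C ‖β‖²` and `∑ ‖v_k‖² < ∞`. -/
theorem summable_adjoint {κ E F : Type*} [NormedAddCommGroup E] [InnerProductSpace ℂ E]
    [CompleteSpace E] [NormedAddCommGroup F] [InnerProductSpace ℂ F] [CompleteSpace F]
    (A : κ → E →L[ℂ] F) (C : ℝ) (hC : 0 ≤ C)
    (hA : ∀ β, ∀ t : Finset κ, ∑ k ∈ t, ‖A k β‖ ^ 2 ≤ C * ‖β‖ ^ 2)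
    (v : κ → F) (hv : Summable fun k => ‖v k‖ ^ 2) :
    ∃ s : E, HasSum (fun k => ((A k)†) (v k)) s ∧
      (∀ β, HasSum (fun k => ⟪A k β, v k⟫_ℂ) ⟪β, s⟫_ℂ) ∧
      ‖s‖ ^ 2 ≤ C * ∑' k, ‖v k‖ ^ 2 := by
  have hfin := sumA_fin A C hC hA v
  have hsum : Summable fun k => ((A k)†) (v k) := by
    rw [summable_iff_vanishing_norm]
    intro ε hε
    have hC1 : 0 < C + 1 := by linarith
    have hδ : 0 < ε ^ 2 / (C + 1) := by positivity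
    obtain ⟨s, hs⟩ := summable_iff_vanishing_norm.1 hv _ hδ
    refine ⟨s, fun t ht => ?_⟩
    have h1 := hs t ht
    have h2 : ∑ k ∈ t, ‖v k‖ ^ 2 < ε ^ 2 / (C + 1) := lt_of_le_of_lt (le_abs_self _) h1
    have h3 : C * ∑ k ∈ t, ‖v k‖ ^ 2 ≤ C * (ε ^ 2 / (C + 1)) :=
      mul_le_mul_of_nonneg_left h2.le hC
    have h4 : C * (ε ^ 2 / (C + 1)) < ε ^ 2 := by
      rw [mul_div_assoc', div_lt_iff₀ hC1]
      nlinarith [sq_pos_of_pos hε]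
    have h5 : ‖∑ k ∈ t, ((A k)†) (v k)‖ ^ 2 < ε ^ 2 := lt_of_le_of_lt (hfin t) (h3.trans_lt h4)
    exact lt_of_pow_lt_pow_left₀ 2 hε.le h5
  obtain ⟨s, hs⟩ := hsum
  refine ⟨s, hs, fun β => ?_, ?_⟩
  · have h1 := (innerSL ℂ β).hasSum hs
    have h2 : (fun k => ⟪A k β, v k⟫_ℂ) = fun k => (innerSL ℂ β) (((A k)†) (v k)) := by
      funext k
      rw [innerSL_apply_apply, ContinuousLinearMap.adjoint_inner_right]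
    rw [h2]
    exact h1
  · have h1 : Filter.Tendsto (fun t : Finset κ => ‖∑ k ∈ t, ((A k)†) (v k)‖ ^ 2) Filter.atTop
        (nhds (‖s‖ ^ 2)) := (Filter.Tendsto.norm hs).pow 2
    refine le_of_tendsto' h1 fun t => (hfin t).trans ?_
    exact mul_le_mul_of_nonneg_left (hv.sum_le_tsum t fun _ _ => sq_nonneg _) hC

/-- The finite partial sums are bounded. -/
theorem norm_sum_adjoint_le {κ E F : Type*} [NormedAddCommGroup E] [InnerProductSpace ℂ E]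
    [CompleteSpace E] [NormedAddCommGroup F] [InnerProductSpace ℂ F] [CompleteSpace F]
    (A : κ → E →L[ℂ] F) (C : ℝ) (hC : 0 ≤ C)
    (hA : ∀ β, ∀ t : Finset κ, ∑ k ∈ t, ‖A k β‖ ^ 2 ≤ C * ‖β‖ ^ 2)
    (v : κ → F) (t : Finset κ) :
    ‖∑ k ∈ t, ((A k)†) (v k)‖ ^ 2 ≤ C * ∑ k ∈ t, ‖v k‖ ^ 2 :=
  sumA_fin A C hC hA v t

/-- `∑ ⟪u_k, v_k⟫` for square summable families. -/
theorem summable_inner_of_sq {κ F : Type*} [NormedAddCommGroup F] [InnerProductSpace ℂ F]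
    (u v : κ → F) (hu : Summable fun k => ‖u k‖ ^ 2) (hv : Summable fun k => ‖v k‖ ^ 2) :
    Summable (fun k => ⟪u k, v k⟫_ℂ) ∧
      ‖∑' k, ⟪u k, v k⟫_ℂ‖ ^ 2 ≤ (∑' k, ‖u k‖ ^ 2) * ∑' k, ‖v k‖ ^ 2 := by
  have hs : Summable (fun k => ⟪u k, v k⟫_ℂ) := by
    refine Summable.of_norm_bounded (g := fun k => ‖u k‖ ^ 2 + ‖v k‖ ^ 2) (hu.add hv) fun k => ?_
    refine (norm_inner_le_norm _ _).trans ?_
    nlinarith [sq_nonneg (‖u k‖ - ‖v k‖), sq_nonneg ‖u k‖, sq_nonneg ‖v k‖]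
  refine ⟨hs, ?_⟩
  have h1 : Filter.Tendsto (fun t : Finset κ => ‖∑ k ∈ t, ⟪u k, v k⟫_ℂ‖ ^ 2) Filter.atTop
      (nhds (‖∑' k, ⟪u k, v k⟫_ℂ‖ ^ 2)) := (Filter.Tendsto.norm hs.hasSum).pow 2
  refine le_of_tendsto' h1 fun t => (sumA_aux u v t).trans ?_
  refine mul_le_mul (hu.sum_le_tsum t fun _ _ => sq_nonneg _)
    (hv.sum_le_tsum t fun _ _ => sq_nonneg _) (Finset.sum_nonneg fun _ _ => sq_nonneg _)
    (tsum_nonneg fun _ => sq_nonneg _)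

end Pool.Agent.VNQ
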