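import Pool.Agent.VNQ.XTwo
import Pool.Agent.VNQ.Tot
import Pool.Agent.VNQ.AUb

/-!
# `V` is unitary

Let `G₀ ⊆ H` be the closure of the span of all `A(v) = Λ(x_{Λ_φ(c₁† c₂), v})`
(`c₁ ∈ N_ψ`, `c₂ ∈ N_φ`, `v ∈ G`), `P` the orthogonal projection onto `G₀`, `ℙ = P ⊗ 1`
(`mapT P id`). Note `ℙ θ = θ` iff `R_κ† θ ∈ G₀` for all `κ` (`R_κ† ℙ = P R_κ†`, `rT_adjoint_mapT`,
and
`θ = θ'` iff `R_κ† θ = R_κ† θ'` for all `κ`, `ext_inner_left'`).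

(1) For `g = A(Λ_φ b)`, `b ∈ N_φ`: by `XTwo` (with any Hilbert basis, `exists_hilbertBasis`)
`tmul g η = V θ'` with `θ' = (A ⊗ 1) θ`, and `ℙ θ' = θ'` (`R_κ† (A ⊗ 1) θ = A (R_κ† θ) ∈ G₀`;
or `P A = A` and `mapT_comp`). So `V† (tmul g η) = θ'` (`V_adj_V`), `ℙ V† (tmul g η) = V† (tmul g
η)` and
`V V† (tmul g η) = tmul g η`. By continuity this holds for all `g = A(v)`, `v ∈ G`, and then for all
`g ∈ G₀` (linear and closed conditions).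
(2) So for all `θ`: `V V† ℙ θ = ℙ θ` and `ℙ V† ℙ θ = V† ℙ θ` (both sides are bounded operators,
`clm_ext`, `ℙ (tmul ξ η) = tmul (P ξ) η`).
(3) `ℙ V = V`: by `clm_ext` and density it is enough to consider `c₂† Λtmul (c₁) η` with `c₁ ∈ N_ψ`,
`c₂ ∈ N_φ` (these `c₂† Λ(c₁) = Λ(c₂† c₁)` are total in `H`: take `c₂ = e_k` from
`Q.φ.exists_net`, `e_k Λ(c₁) → Λ(c₁)`, and the `Λ(c₁)` are dense). Let `y = c₂† c₁ ∈ N_ψ`. By
`V_slice` `R_{z_j}† V (tmul (Λ y) η) = Λ(Q.sr z_j η y)` (`z_j = Q.φ.z j`), and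
`Q.sr z_j η y = (Q.sr η z_j (c₁† c₂))†` (`adjoint_sr`, `y† = c₁† c₂`)
`= x_{Λ_φ(c₁† c₂), Z'_j† η}` (`sr_z`). So
`R_{z_j}† V (tmul (Λ y) η) = A(Z'_j† η) ∈ G₀` for all `j` and `η`. For `m ∈ M'`:
`R_{m z_j}† V (tmul (Λ y) η) = R_{z_j}† (1 ⊗ m†) V (tmul (Λ y) η) = R_{z_j}† V (tmul (Λ y) (m† η)) ∈
G₀` (`V_comm`;
test
against `ξ ∈ H` with `inner_rT_adjoint`). The vectors `m z_j` span a dense subspace of `H`
(`Q.φ.total_H`), `κ ↦ R_κ† θ` is conjugate linear and continuous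
(`‖R_κ† θ‖ ≤ ‖κ‖ ‖θ‖`), `G₀` is closed, so `R_κ† V (tmul (Λ y) η) ∈ G₀` for all `κ`, i.e.
`ℙ V (tmul (Λ y) η) = V (tmul (Λ y) η)`.
(4) For every `θ`: `θ = V† V θ = V† ℙ V θ = ℙ V† ℙ V θ = ℙ θ` by (3), (2). So `ℙ = 1`, and (2) gives
`V V† θ = θ`: `VV_adj`. Also `tmul (P ξ) ξ = tmul ξ ξ` gives `‖P ξ - ξ‖ ‖ξ‖ = 0`, so `P = 1` and
`G₀ = H`: `total_A`.
-/

set_option autoImplicit false

noncomputable section

open scoped TensorProduct InnerProductSpace InnerProduct ENNReal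
open Filter

namespace Pool.Agent.VNQ

universe u

variable {H G : Type u} [NormedAddCommGroup H] [InnerProductSpace ℂ H] [CompleteSpace H]
  [NormedAddCommGroup G] [InnerProductSpace ℂ G] [CompleteSpace G]

namespace QG

variable (Q : QG H G)

/-- The closed span of the vectors `A v`. -/
private def G0 : Submodule ℂ H := (Submodule.span ℂ {g : H | ∃ c₁ ∈ Q.ψ.N, ∃ c₂ ∈ Q.φ.N, ∃ v,
      g = Q.ψ.Λ (Q.x (Q.φ.Λ ((c₁†) ∘L c₂)) v)}).topologicalClosure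

private theorem G0_closed : IsClosed (Q.G0 : Set H) := Submodule.isClosed_topologicalClosure _

private instance : CompleteSpace Q.G0 := Q.G0_closed.completeSpace_coe

private theorem gen_mem {c₁ c₂ : H →L[ℂ] H} (h₁ : c₁ ∈ Q.ψ.N) (h₂ : c₂ ∈ Q.φ.N) (v : G) :
    Q.ψ.Λ (Q.x (Q.φ.Λ ((c₁†) ∘L c₂)) v) ∈ Q.G0 :=
  Submodule.le_topologicalClosure _ (Submodule.subset_span ⟨c₁, h₁, c₂, h₂, v, rfl⟩)

private def PP : H →L[ℂ] H := Q.G0.starProjection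

private theorem PP_mem (ξ : H) : Q.PP ξ ∈ Q.G0 := Submodule.starProjection_apply_mem _ ξ

private theorem PP_eq {ξ : H} (h : ξ ∈ Q.G0) : Q.PP ξ = ξ :=
  Submodule.starProjection_eq_self_iff.2 h

/-- `ℙ θ = θ` if `R_κ† θ ∈ G₀` for all `κ`. -/
private theorem PPT_eq {θ : HTen H H} (h : ∀ κ : H, ((rT κ)†) θ ∈ Q.G0) :
    mapT Q.PP (ContinuousLinearMap.id ℂ H) θ = θ := by
  refine ext_inner_left' fun ξ η => ?_
  rw [← inner_rT_adjoint, rT_adj_mapT_left, Q.PP_eq (h η), inner_rT_adjoint]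

private theorem rT_adj_mapT' (A : G →L[ℂ] H) (κ : H) (θ : HTen G H) :
    ((rT κ)†) (mapT A (ContinuousLinearMap.id ℂ H) θ) = A (((rT κ)†) θ) := by
  have h := congrArg (fun f : HTen G H →L[ℂ] H => f θ)
    (rT_adjoint_mapT A (ContinuousLinearMap.id ℂ H) κ)
  rw [ContinuousLinearMap.adjoint_id] at h
  exact h

/-- (1) -/
private theorem step1 (η : H) {g : H} (hg : g ∈ Q.G0) :
    mapT Q.PP (ContinuousLinearMap.id ℂ H) (((Q.V)†) (tmul g η)) = ((Q.V)†) (tmul g η) ∧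
      Q.V (((Q.V)†) (tmul g η)) = tmul g η := by
  obtain ⟨w, f, -⟩ := exists_hilbertBasis ℂ H
  have h0 : ∀ c₁ ∈ Q.ψ.N, ∀ c₂ ∈ Q.φ.N, ∀ b ∈ Q.φ.N,
      mapT Q.PP (ContinuousLinearMap.id ℂ H)
        (((Q.V)†) (tmul (Q.ψ.Λ (Q.x (Q.φ.Λ ((c₁†) ∘L c₂)) (Q.φ.Λ b))) η)) =
        ((Q.V)†) (tmul (Q.ψ.Λ (Q.x (Q.φ.Λ ((c₁†) ∘L c₂)) (Q.φ.Λ b))) η) ∧
      Q.V (((Q.V)†) (tmul (Q.ψ.Λ (Q.x (Q.φ.Λ ((c₁†) ∘L c₂)) (Q.φ.Λ b))) η)) =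
        tmul (Q.ψ.Λ (Q.x (Q.φ.Λ ((c₁†) ∘L c₂)) (Q.φ.Λ b))) η := by
    intro c₁ h₁ c₂ h₂ b hb
    obtain ⟨A, hA⟩ := Q.exists_A h₁ h₂
    obtain ⟨θ, -, hθ⟩ := Q.XTwo f h₁ h₂ A hA hb η
    rw [hA] at hθ
    rw [← hθ, Q.V_adj_V]
    refine ⟨Q.PPT_eq fun κ => ?_, rfl⟩
    rw [rT_adj_mapT', hA]
    exact Q.gen_mem h₁ h₂ _
  have h1 : ∀ c₁ ∈ Q.ψ.N, ∀ c₂ ∈ Q.φ.N, ∀ v,
      mapT Q.PP (ContinuousLinearMap.id ℂ H)
        (((Q.V)†) (tmul (Q.ψ.Λ (Q.x (Q.φ.Λ ((c₁†) ∘L c₂)) v)) η)) =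
        ((Q.V)†) (tmul (Q.ψ.Λ (Q.x (Q.φ.Λ ((c₁†) ∘L c₂)) v)) η) ∧
      Q.V (((Q.V)†) (tmul (Q.ψ.Λ (Q.x (Q.φ.Λ ((c₁†) ∘L c₂)) v)) η)) =
        tmul (Q.ψ.Λ (Q.x (Q.φ.Λ ((c₁†) ∘L c₂)) v)) η := by
    intro c₁ h₁ c₂ h₂ v
    obtain ⟨A, hA⟩ := Q.exists_A h₁ h₂
    have hA' : ∀ v, Q.ψ.Λ (Q.x (Q.φ.Λ ((c₁†) ∘L c₂)) v) = A v := fun v => (hA v).symm
    have h00 := h0 c₁ h₁ c₂ h₂
    simp only [hA'] at h00 ⊢
    have hc : IsClosed {v : G | mapT Q.PP (ContinuousLinearMap.id ℂ H)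
        (((Q.V)†) (tmul (A v) η)) = ((Q.V)†) (tmul (A v) η) ∧ Q.V (((Q.V)†) (tmul (A v) η)) = tmul (A v) η} := by
      have e1 : Continuous fun v : G => tmul (A v) η := (rT η).continuous.comp A.continuous
      have e2 : Continuous fun v : G => ((Q.V)†) (tmul (A v) η) := ((Q.V)†).continuous.comp e1
      refine IsClosed.inter (isClosed_eq ((mapT Q.PP (ContinuousLinearMap.id ℂ H)).continuous.comp
        e2) e2) (isClosed_eq (Q.V.continuous.comp e2) e1)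
    exact Q.φ.induction_Λ v hc h00
  have h2 : Set.EqOn ((mapT Q.PP (ContinuousLinearMap.id ℂ H) ∘L (Q.V)†) ∘L rT η)
      ((Q.V)† ∘L rT η) (closure (Submodule.span ℂ {g : H | ∃ c₁ ∈ Q.ψ.N, ∃ c₂ ∈ Q.φ.N, ∃ v,
      g = Q.ψ.Λ (Q.x (Q.φ.Λ ((c₁†) ∘L c₂)) v)} : Set H)) := by
    refine ContinuousLinearMap.eqOn_closure_span ?_
    rintro _ ⟨c₁, h₁, c₂, h₂, v, rfl⟩
    exact (h1 c₁ h₁ c₂ h₂ v).1
  have h3 : Set.EqOn ((Q.V ∘L (Q.V)†) ∘L rT η)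
      (rT η : H →L[ℂ] HTen H H)
      (closure (Submodule.span ℂ {g : H | ∃ c₁ ∈ Q.ψ.N, ∃ c₂ ∈ Q.φ.N, ∃ v,
      g = Q.ψ.Λ (Q.x (Q.φ.Λ ((c₁†) ∘L c₂)) v)} : Set H)) := by
    refine ContinuousLinearMap.eqOn_closure_span ?_
    rintro _ ⟨c₁, h₁, c₂, h₂, v, rfl⟩
    exact (h1 c₁ h₁ c₂ h₂ v).2
  exact ⟨h2 hg, h3 hg⟩

/-- (2) -/
private theorem step2 (θ : HTen H H) :
    mapT Q.PP (ContinuousLinearMap.id ℂ H) (((Q.V)†)
      (mapT Q.PP (ContinuousLinearMap.id ℂ H) θ)) =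
      ((Q.V)†) (mapT Q.PP (ContinuousLinearMap.id ℂ H) θ) ∧
      Q.V (((Q.V)†) (mapT Q.PP (ContinuousLinearMap.id ℂ H) θ)) =
        mapT Q.PP (ContinuousLinearMap.id ℂ H) θ := by
  have h1 : mapT Q.PP (ContinuousLinearMap.id ℂ H) ∘L ((Q.V)† ∘L
      mapT Q.PP (ContinuousLinearMap.id ℂ H)) =
      (Q.V)† ∘L mapT Q.PP (ContinuousLinearMap.id ℂ H) := by
    refine clm_ext fun ξ η => ?_
    simp only [ContinuousLinearMap.comp_apply, mapT_tmul, ContinuousLinearMap.id_apply]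
    exact (Q.step1 η (Q.PP_mem ξ)).1
  have h2 : Q.V ∘L ((Q.V)† ∘L mapT Q.PP (ContinuousLinearMap.id ℂ H)) =
      mapT Q.PP (ContinuousLinearMap.id ℂ H) := by
    refine clm_ext fun ξ η => ?_
    simp only [ContinuousLinearMap.comp_apply, mapT_tmul, ContinuousLinearMap.id_apply]
    exact (Q.step1 η (Q.PP_mem ξ)).2
  exact ⟨congrArg (fun f : HTen H H →L[ℂ] HTen H H => f θ) h1,
    congrArg (fun f : HTen H H →L[ℂ] HTen H H => f θ) h2⟩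

private theorem step3a {c₁ c₂ : H →L[ℂ] H} (h₁ : c₁ ∈ Q.ψ.N) (h₂ : c₂ ∈ Q.φ.N) (η : H)
    (κ : H) : ((rT κ)†) (Q.V (tmul (Q.ψ.Λ ((c₂†) ∘L c₁)) η)) ∈ Q.G0 := by
  have hy : (c₂†) ∘L c₁ ∈ Q.ψ.N := Q.ψ.mul_mem (adj_mem h₂.1) h₁
  have hy' : ((c₂†) ∘L c₁)† = (c₁†) ∘L c₂ := by
    rw [ContinuousLinearMap.adjoint_comp, ContinuousLinearMap.adjoint_adjoint]
  have hy'' : ((c₁†) ∘L c₂)† = (c₂†) ∘L c₁ := by
    rw [← hy', ContinuousLinearMap.adjoint_adjoint]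
  have ha : (c₁†) ∘L c₂ ∈ Q.φ.N := Q.φ.mul_mem (adj_mem h₁.1) h₂
  have hj : ∀ (j : Q.φ.ι) (η : H),
      ((rT (Q.φ.z j))†) (Q.V (tmul (Q.ψ.Λ ((c₂†) ∘L c₁)) η)) ∈ Q.G0 := by
    intro j η
    rw [(Q.V_slice hy _ _).2]
    have e : Q.sr (Q.φ.z j) η ((c₂†) ∘L c₁) = Q.x (Q.φ.Λ ((c₁†) ∘L c₂)) (((Q.φ.Z j)†) η) := by
      rw [← Q.sr_z ha, Q.adjoint_sr _ _ ha.1, hy'']
    rw [e]
    exact Q.gen_mem h₁ h₂ _
  have hm : ∀ m ∈ Q.M.commutant, ∀ j : Q.φ.ι,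
      ((rT (m (Q.φ.z j)))†) (Q.V (tmul (Q.ψ.Λ ((c₂†) ∘L c₁)) η)) ∈ Q.G0 := by
    intro m hm j
    have e := congrArg (fun f : HTen H H →L[ℂ] H => f (Q.V (tmul (Q.ψ.Λ ((c₂†) ∘L c₁)) η)))
      (rT_adjoint_mapT (ContinuousLinearMap.id ℂ H) (m†) (Q.φ.z j))
    simp only [ContinuousLinearMap.comp_apply, ContinuousLinearMap.adjoint_adjoint,
      ContinuousLinearMap.id_apply] at e
    rw [← e, ← Q.V_comm (adj_mem hm), mapT_tmul, ContinuousLinearMap.id_apply]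
    exact hj j _
  have ho : ∀ u ∈ Q.G0ᗮ, ((lT u)†) (Q.V (tmul (Q.ψ.Λ ((c₂†) ∘L c₁)) η)) = 0 := by
    intro u hu
    refine Dense.eq_zero_of_inner_right (𝕜 := ℂ) Q.φ.total_H ?_
    intro v hv
    induction hv using Submodule.span_induction with
    | mem x hx =>
      obtain ⟨m, hm', j, rfl⟩ := hx
      rw [inner_lT_adjoint, ← inner_rT_adjoint]
      exact (Submodule.mem_orthogonal' _ _).1 hu _ (hm m hm' j)
    | zero => exact inner_zero_left _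
    | add x y _ _ hx hy => rw [inner_add_left, hx, hy, add_zero]
    | smul c x _ hx => rw [inner_smul_left, hx, mul_zero]
  rw [← Submodule.orthogonal_orthogonal Q.G0, Submodule.mem_orthogonal]
  intro u hu
  rw [inner_rT_adjoint, ← inner_lT_adjoint, ho u hu, inner_zero_right]

/-- (3) -/
private theorem step3 (θ : HTen H H) :
    mapT Q.PP (ContinuousLinearMap.id ℂ H) (Q.V θ) = Q.V θ := by
  have h : mapT Q.PP (ContinuousLinearMap.id ℂ H) ∘L Q.V = Q.V := by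
    refine clm_ext fun ξ η => ?_
    simp only [ContinuousLinearMap.comp_apply]
    have e1 : Continuous fun ξ : H => Q.V (tmul ξ η) := Q.V.continuous.comp (rT η).continuous
    have e2 : Continuous fun ξ : H => mapT Q.PP (ContinuousLinearMap.id ℂ H) (Q.V (tmul ξ η)) :=
      (mapT Q.PP (ContinuousLinearMap.id ℂ H)).continuous.comp e1
    have hc : IsClosed {ξ : H | mapT Q.PP (ContinuousLinearMap.id ℂ H) (Q.V (tmul ξ η)) =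
        Q.V (tmul ξ η)} := isClosed_eq e2 e1
    refine Q.ψ.induction_Λ (p := fun ξ => mapT Q.PP (ContinuousLinearMap.id ℂ H) (Q.V (tmul ξ η)) =
        Q.V (tmul ξ η)) ξ hc fun c₁ h₁ => ?_
    obtain ⟨κ, l, hl, e, heN, hes, hec, het⟩ := Q.φ.exists_net
    have h2 : Tendsto (fun k => e k (Q.ψ.Λ c₁)) l (nhds (Q.ψ.Λ c₁)) := het _
    refine hc.mem_of_tendsto h2 (Filter.Eventually.of_forall fun k => ?_)
    have hek : (e k)† = e k := by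
      symm
      rw [ContinuousLinearMap.eq_adjoint_iff]
      exact hes k
    have h3 : e k (Q.ψ.Λ c₁) = Q.ψ.Λ (((e k)†) ∘L c₁) := by
      rw [hek, Q.ψ_act_Λ (heN k).1 h₁]
    show mapT Q.PP (ContinuousLinearMap.id ℂ H) (Q.V (tmul (e k (Q.ψ.Λ c₁)) η)) =
        Q.V (tmul (e k (Q.ψ.Λ c₁)) η)
    rw [h3]
    exact Q.PPT_eq fun κ => Q.step3a h₁ (heN k) η κ
  exact congrArg (fun f : HTen H H →L[ℂ] HTen H H => f θ) h

private theorem step4 (θ : HTen H H) : mapT Q.PP (ContinuousLinearMap.id ℂ H) θ = θ := by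
  have h1 := (Q.step2 (Q.V θ)).1
  rw [Q.step3, Q.V_adj_V] at h1
  exact h1

theorem unitary_aux : (∀ θ, Q.V (((Q.V)†) θ) = θ) ∧
    Dense (Submodule.span ℂ {g : H | ∃ c₁ ∈ Q.ψ.N, ∃ c₂ ∈ Q.φ.N, ∃ v,
      g = Q.ψ.Λ (Q.x (Q.φ.Λ ((c₁†) ∘L c₂)) v)} : Set H) := by
  have h1 : ∀ θ, Q.V (((Q.V)†) θ) = θ := by
    intro θ
    have h2 := (Q.step2 θ).2
    rwa [Q.step4] at h2
  refine ⟨h1, ?_⟩
  intro ξ
  have h2 := Q.step4 (tmul ξ ξ)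
  rw [mapT_tmul, ContinuousLinearMap.id_apply] at h2
  have h3 : tmul (Q.PP ξ - ξ) ξ = 0 := by
    rw [sub_tmul, h2, sub_self]
  have h4 := congrArg norm h3
  rw [norm_tmul, norm_zero, mul_eq_zero, norm_eq_zero, norm_eq_zero] at h4
  have h5 : Q.PP ξ = ξ := by
    rcases h4 with h4 | h4
    · exact sub_eq_zero.1 h4
    · rw [h4, map_zero]
  have h6 := Q.PP_mem ξ
  rw [h5] at h6
  exact h6

theorem VV_adj (θ : HTen H H) : Q.V (((Q.V)†) θ) = θ := Q.unitary_aux.1 θ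

theorem total_A : Dense (Submodule.span ℂ {g : H | ∃ c₁ ∈ Q.ψ.N, ∃ c₂ ∈ Q.φ.N, ∃ v,
    g = Q.ψ.Λ (Q.x (Q.φ.Λ ((c₁†) ∘L c₂)) v)} : Set H) := Q.unitary_aux.2

end QG

end Pool.Agent.VNQ
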