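import Pool.Agent.VNQ.POne
import Pool.Agent.VNQ.XThree
import Pool.Agent.VNQ.DPB
import Pool.Agent.VNQ.LemN
import Pool.Agent.VNQ.SumA

/-!
# The pairs `(w_{v,u}, w_{u,v})`

`QG.DP_w`: `DP (w_{v,u}) (w_{u,v})` for all `u, v ∈ H`.

Proof. Choose a Hilbert basis `e` of `H` and put `p_k = w_{v,e_k}`, `q_k = w_{u,e_k}` (in `M`,
`w_mem`). We use `DP_of_hasSum`; by symmetry (exchange `u` and `v`) it is enough to show
`∑_k Δ(p_k)(tmul ξ (q_k† η)) = w_tmul ({v,u} ξ) η`. Note `q_k† η = L_{e_k}† V† (tmul u η)`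
(`w_{u,e_k} = L_u† V L_{e_k}`).
Convergence: `summable_adjoint` with `A_k = Δ(p_k†)` (`A_k† = Δ(p_k)`, `Q.adj`, `adj_mem`):
`∑_k ‖p_k† ξ‖² = ∑_k ‖L_{e_k}† V† (tmul v ξ)‖² = ‖V† (tmul v ξ)‖² = ‖v‖² ‖ξ‖²` (`hasSum_sq_left`;
`V†` is
isometric by `VV_adj`: `‖V† θ‖ = ‖V V† θ‖ = ‖θ‖`), so `∑_k ‖Δ(p_k†) β‖² = ‖v‖² ‖β‖²` (`lemN_const`);
and
`v_k = tmul ξ (q_k† η)`, `∑ ‖v_k‖² = ‖ξ‖² ‖V†(tmul u η)‖² < ∞`. Value: for `ξ', η'`:
`⟪tmul ξ' η', Δ(w_{v,e_k})(tmul ξ (q_k† η))⟫ = ⟪tmul v ξ', V (tmul (R_{η'}† V (tmul e_k (q_k† η)))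
ξ)⟫` (`pOne`). The
sum
over `k`: `∑tmul (_k e_k) (q_k† η) = ∑tmul (_k e_k) L_{e_k}† V† (tmul u η) = V† (tmul u η)`
(`hasSum_left`), apply the
continuous linear maps `V`, `R_{η'}†`, `rT ξ`, `V`: the sum of the right sides is
`⟪tmul v ξ', V (tmul (R_{η'}† V V† (tmul u η)) ξ)⟫ = ⟪tmul v ξ', V (tmul (R_{η'}† (tmul u η)) ξ)⟫
= ⟪η', η⟫ ⟪tmul v ξ', V (tmul u ξ)⟫ = ⟪η', η⟫ ⟪ξ', w_{v,u} ξ⟫ = ⟪tmul ξ' η', w_tmul ({v,u} ξ) η⟫`
(`VV_adj`,
`rT_adjoint_tmul`, `inner_w`). Conclude with `ext_inner_left'`.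
-/

set_option autoImplicit false

noncomputable section

open scoped TensorProduct InnerProductSpace InnerProduct ENNReal
open Filter

namespace Pool.Agent.VNQ

universe u

variable {H G : Type u} [NormedAddCommGroup H] [InnerProductSpace ℂ H] [CompleteSpace H]
  [NormedAddCommGroup G] [InnerProductSpace ℂ G] [CompleteSpace G]

namespace QG

variable (Q : QG H G)

private theorem adj_w (v e η : H) : ((Q.w v e)†) η = ((lT e)†) (((Q.V)†) (tmul v η)) := by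
  unfold w
  rw [ContinuousLinearMap.adjoint_comp, ContinuousLinearMap.adjoint_comp,
    ContinuousLinearMap.adjoint_adjoint]
  rfl

private theorem norm_V_adj (θ : HTen H H) : ‖((Q.V)†) θ‖ = ‖θ‖ := by
  rw [← Q.norm_V (((Q.V)†) θ), Q.VV_adj]

private theorem hasSum_adj_w {l : Type*} (f : HilbertBasis l ℂ H) (v ξ : H) :
    HasSum (fun k => ‖((Q.w v (f k))†) ξ‖ ^ 2) (‖v‖ ^ 2 * ‖ξ‖ ^ 2) := by
  have h := hasSum_sq_left f (((Q.V)†) (tmul v ξ))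
  rw [Q.norm_V_adj, norm_tmul, mul_pow] at h
  simpa only [Q.adj_w] using h

private theorem one_side_w {l : Type*} (f : HilbertBasis l ℂ H) (v u ξ η : H) :
    HasSum (fun k => Q.Δ (Q.w v (f k)) (tmul ξ (((Q.w u (f k))†) η))) (tmul (Q.w v u ξ) η) := by
  have hA : ∀ k, (Q.Δ ((Q.w v (f k))†))† = Q.Δ (Q.w v (f k)) := fun k => by
    rw [Q.adj _ (Q.w_mem v (f k)), ContinuousLinearMap.adjoint_adjoint]
  have hbd := fun β : HTen H H => Q.lemN_const (fun k => (Q.w v (f k))†)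
    (fun k => adj_mem (Q.w_mem v (f k))) (‖v‖ ^ 2) (sq_nonneg _)
    (fun ξ => Q.hasSum_adj_w f v ξ) β
  have hv : Summable fun k => ‖tmul ξ (((Q.w u (f k))†) η)‖ ^ 2 := by
    have h := (Q.hasSum_adj_w f u η).mul_left (‖ξ‖ ^ 2)
    simpa only [norm_tmul, mul_pow] using h.summable
  obtain ⟨s, hs, hs2, -⟩ := summable_adjoint (fun k => Q.Δ ((Q.w v (f k))†)) (‖v‖ ^ 2)
    (sq_nonneg _) (fun β t => sum_le_hasSum t (fun _ _ => sq_nonneg _) (hbd β))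
    (fun k => tmul ξ (((Q.w u (f k))†) η)) hv
  simp only [hA] at hs
  have hsv : s = tmul (Q.w v u ξ) η := by
    refine ext_inner_left' fun ξ' η' => ?_
    have h1 := hs2 (tmul ξ' η')
    let T : HTen H H →L[ℂ] ℂ := innerSL ℂ (tmul v ξ') ∘L Q.V ∘L rT ξ ∘L (rT η')† ∘L Q.V
    have h2 := T.hasSum (hasSum_left f (((Q.V)†) (tmul u η)))
    have h3 : (fun k => ⟪Q.Δ ((Q.w v (f k))†) (tmul ξ' η'), tmul ξ (((Q.w u (f k))†) η)⟫_ℂ) =
        fun k => T (tmul (f k) (((lT (f k))†) (((Q.V)†) (tmul u η)))) := by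
      funext k
      rw [← ContinuousLinearMap.adjoint_inner_right, hA, Q.pOne, Q.adj_w]
      rfl
    have h4 : T (((Q.V)†) (tmul u η)) = ⟪tmul ξ' η', tmul (Q.w v u ξ) η⟫_ℂ := by
      show ⟪tmul v ξ', Q.V (tmul (((rT η')†) (Q.V (((Q.V)†) (tmul u η)))) ξ)⟫_ℂ = _
      rw [Q.VV_adj, rT_adjoint_tmul, smul_tmul, map_smul, inner_smul_right, inner_tmul,
        Q.inner_w, mul_comm]
    rw [h3] at h1
    rw [h4] at h2
    exact h1.unique h2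
  rw [← hsv]
  exact hs

theorem DP_w (v u : H) : Q.DP (Q.w v u) (Q.w u v) := by
  obtain ⟨l, f, -⟩ := exists_hilbertBasis ℂ H
  exact Q.DP_of_hasSum (fun k => Q.w v (f k)) (fun k => Q.w u (f k)) (fun k => Q.w_mem v (f k))
    (fun k => Q.w_mem u (f k)) (Q.w v u) (Q.w u v) (fun ξ η => Q.one_side_w f v u ξ η)
    (fun ξ η => Q.one_side_w f u v ξ η)

end QG

end Pool.Agent.VNQ
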