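import Pool.Agent.VNQ.SInt
import Pool.Agent.VNQ.StepCr
import Pool.Agent.VNQ.KDP
import Pool.Agent.VNQ.GamK
import Pool.Agent.VNQ.LemMb

/-!
# `V` commutes with the modular groups

`k = Q.mdK`, `d = Q.ψ.md`. `QG.V_U`: `V (U^d_t ⊗ U^k_{-t}) = (U^d_t ⊗ U^k_{-t}) V`.

Proof. Use `MD.lemM` with `d₁ = d` and `d₂ = k.dual` (`A₂ = 1 - A_k`, `C₂ = C_k`), and `dual_U`
(`U₂(t) = U^k_{-t}`, as functions, `ContinuousLinearMap.ext`). We have to check (M*): for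
`x₀, u, y, v ∈ H`:
`⟪C u ⊠ C_k v, V (A x₀ ⊠ (y - A_k y))⟫ = ⟪C x₀ ⊠ C_k y, V ((u - A u) ⊠ (v - (v - A_k v)))⟫`
(`dual_A`, `dual_C`; `v - (v - A_k v) = A_k v`). Let `δ = u - A u`, `α₁ = C x₀`. By `sint_V`
(`η := y - A_k y`, `η' := C_k v`) the left side is `⟪w_{δ,α₁} (C_k v), y - A_k y⟫`. By `DP_w`
(`DP w_{δ,α₁} w_{α₁,δ}`), `DP_KR` and `(C_k v, A_k v) ∈ k.rel` (`CA_mem_rel`, `mem_mdK_rel`):
`(w_{δ,α₁} C_k v, w_{α₁,δ} A_k v) ∈ k.rel`, and by symmetry (`rel_symm`)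
`(w_{α₁,δ} A_k v, w_{δ,α₁} C_k v) ∈ k.rel`. By `adj_pair` with `γ = y - A_k y`, `γ₁ = C_k y`
(`dual_pair`): `⟪y - A_k y, w_{δ,α₁} C_k v⟫ = ⟪w_{α₁,δ} A_k v, C_k y⟫`; conjugate: the left side of
(M*)
is `⟪C_k y, w_{α₁,δ} A_k v⟫ = ⟪α₁ ⊠ C_k y, V (δ ⊠ A_k v)⟫` (`inner_w`), the right side.

`QG.V_U_slice`: `U^d_t (R_{η'}† V (ξ ⊠ η)) = R_{U^k_{-t} η'}† V (U^d_t ξ ⊠ U^k_{-t} η)`:
`R_{U^k_{-t} η'}† (U^d_t ⊗ U^k_{-t}) = U^d_t R_{η'}†` (`rT_adjoint_mapT`;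
`(U^k_{-t})† (U^k_{-t} η') = η'` by `U_adj`, `U_add`, `U_zero`), applied to `V (ξ ⊠ η)`.
-/

set_option autoImplicit false

noncomputable section

open scoped TensorProduct InnerProductSpace InnerProduct ENNReal
open Filter

namespace Pool.Agent.VNQ

universe u

variable {H G : Type u} [NormedAddCommGroup H] [InnerProductSpace ℂ H] [CompleteSpace H]
  [NormedAddCommGroup G] [InnerProductSpace ℂ G] [CompleteSpace G]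

namespace QG

variable (Q : QG H G)

theorem V_U (t : ℝ) : Q.V ∘L mapT (Q.ψ.md.U t) (Q.mdK.U (-t)) =
    mapT (Q.ψ.md.U t) (Q.mdK.U (-t)) ∘L Q.V := by
  have e : Q.mdK.dual.U t = Q.mdK.U (-t) := ContinuousLinearMap.ext (Q.mdK.dual_U t)
  have h := MD.lemM Q.ψ.md Q.mdK.dual Q.V (fun x u y v => ?_) t
  · rw [e] at h
    exact h
  · rw [MD.dual_C, MD.dual_A, MD.dual_A, sub_sub_cancel, Q.sint_V]
    have h1 : Q.KR (Q.mdK.C v) (Q.mdK.A v) := Q.mem_mdK_rel.1 (Q.mdK.CA_mem_rel v)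
    have h2 := Q.DP_KR (Q.DP_w (u - Q.ψ.md.A u) (Q.ψ.md.C x)) h1
    have h3 := Q.mdK.rel_symm (Q.mem_mdK_rel.2 h2)
    have h4 := Q.mdK.adj_pair h3 (Q.mdK.dual_pair y)
    rw [← inner_conj_symm, h4, inner_conj_symm, Q.inner_w]

theorem V_U_slice (t : ℝ) (η' ξ η : H) : Q.ψ.md.U t (((rT η')†) (Q.V (tmul ξ η))) =
    ((rT (Q.mdK.U (-t) η'))†) (Q.V (tmul (Q.ψ.md.U t ξ) (Q.mdK.U (-t) η))) := by
  have h1 : ((Q.mdK.U (-t))†) (Q.mdK.U (-t) η') = η' := by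
    refine ext_inner_left ℂ fun x => ?_
    rw [ContinuousLinearMap.adjoint_inner_right, Q.mdK.U_adj, neg_neg, ← Q.mdK.U_add,
      add_neg_cancel, Q.mdK.U_zero]
  have h2 := congrArg (fun T => T (tmul ξ η)) (Q.V_U t)
  simp only [ContinuousLinearMap.comp_apply, mapT_tmul] at h2
  have h3 := congrArg (fun T => T (Q.V (tmul ξ η)))
    (rT_adjoint_mapT (Q.ψ.md.U t) (Q.mdK.U (-t)) (Q.mdK.U (-t) η'))
  simp only [ContinuousLinearMap.comp_apply] at h3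
  rw [h1] at h3
  rw [h2, h3]

end QG

end Pool.Agent.VNQ
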