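import Pool.Agent.VNQ.QGB
import Pool.Agent.VNQ.Iso

/-!
# Normal faithful representations

`Rep M K`: a representation `π` of the von Neumann algebra `M ⊆ B(H)` on `K` given by intertwiners
`Z_i : K → H`, `Z_i π(m) = m Z_i`, `∑ ‖Z_i g‖² = ‖g‖²`.
-/

set_option autoImplicit false
set_option linter.unusedSectionVars false

noncomputable section

open scoped TensorProduct InnerProductSpace InnerProduct ENNReal

namespace Pool.Agent.VNQ

universe u

variable {H K : Type u} [NormedAddCommGroup H] [InnerProductSpace ℂ H] [CompleteSpace H]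
  [NormedAddCommGroup K] [InnerProductSpace ℂ K] [CompleteSpace K]

/-- A normal faithful representation of `M` on `K`. -/
structure Rep (M : VonNeumannAlgebra H) (K : Type u) [NormedAddCommGroup K]
    [InnerProductSpace ℂ K] [CompleteSpace K] where
  π : (H →L[ℂ] H) → (K →L[ℂ] K)
  ι : Type u
  Z : ι → K →L[ℂ] H
  Z_π : ∀ m ∈ M, ∀ i g, Z i (π m g) = m (Z i g)
  norm_Z : ∀ g, HasSum (fun i => ‖Z i g‖ ^ 2) (‖g‖ ^ 2)
  faithful : ∀ m ∈ M, π m = 0 → m = 0

namespace Rep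

variable {M : VonNeumannAlgebra H} (R : Rep M K)

/-- intertwiners -/
def Int (T : K →L[ℂ] H) : Prop := ∀ m ∈ M, ∀ g, T (R.π m g) = m (T g)

theorem int_Z (i : R.ι) : R.Int (R.Z i) := fun m hm g => R.Z_π m hm i g

theorem ext_Z {g g' : K} (h : ∀ i, R.Z i g = R.Z i g') : g = g' := by
  have h1 := R.norm_Z (g - g')
  have h2 : (fun i => ‖R.Z i (g - g')‖ ^ 2) = fun _ => (0 : ℝ) := by
    funext i
    rw [map_sub, h i, sub_self, norm_zero]
    norm_num
  rw [h2] at h1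
  exact sub_eq_zero.1 (norm_eq_zero.1 (sq_eq_zero_iff.1 (h1.unique hasSum_zero)))

theorem π_add {m m' : H →L[ℂ] H} (hm : m ∈ M) (hm' : m' ∈ M) :
    R.π (m + m') = R.π m + R.π m' := by
  ext g
  refine R.ext_Z fun i => ?_
  rw [R.Z_π _ (add_mem' hm hm')]
  simp [R.Z_π m hm, R.Z_π m' hm']

theorem π_sub {m m' : H →L[ℂ] H} (hm : m ∈ M) (hm' : m' ∈ M) :
    R.π (m - m') = R.π m - R.π m' := by
  ext g
  refine R.ext_Z fun i => ?_
  rw [R.Z_π _ (sub_mem' hm hm')]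
  simp [R.Z_π m hm, R.Z_π m' hm']

theorem π_smul (c : ℂ) {m : H →L[ℂ] H} (hm : m ∈ M) : R.π (c • m) = c • R.π m := by
  ext g
  refine R.ext_Z fun i => ?_
  rw [R.Z_π _ (smul_mem' c hm)]
  simp [R.Z_π m hm]

theorem π_comp {m m' : H →L[ℂ] H} (hm : m ∈ M) (hm' : m' ∈ M) :
    R.π (m ∘L m') = R.π m ∘L R.π m' := by
  ext g
  refine R.ext_Z fun i => ?_
  rw [R.Z_π _ (comp_mem hm hm')]
  simp [R.Z_π m hm, R.Z_π m' hm']

theorem π_id : R.π (ContinuousLinearMap.id ℂ H) = ContinuousLinearMap.id ℂ K := by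
  ext g
  refine R.ext_Z fun i => ?_
  rw [R.Z_π _ id_mem]
  simp

theorem π_inj {m m' : H →L[ℂ] H} (hm : m ∈ M) (hm' : m' ∈ M) (h : R.π m = R.π m') : m = m' := by
  have h1 := R.faithful _ (sub_mem' hm hm') (by rw [R.π_sub hm hm', h, sub_self])
  exact sub_eq_zero.1 h1

theorem inner_Z (g g' : K) : HasSum (fun i => ⟪R.Z i g, R.Z i g'⟫_ℂ) ⟪g, g'⟫_ℂ :=
  hasSum_inner_of_norm (fun i => (R.Z i).toLinearMap) LinearMap.id R.norm_Z g g'

theorem π_adj {m : H →L[ℂ] H} (hm : m ∈ M) : R.π (m†) = (R.π m)† := by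
  ext g
  refine ext_inner_left ℂ fun g' => ?_
  rw [ContinuousLinearMap.adjoint_inner_right]
  refine (R.inner_Z g' _).unique ?_
  have h := R.inner_Z (R.π m g') g
  have h2 : (fun i => ⟪R.Z i (R.π m g'), R.Z i g⟫_ℂ) =
      fun i => ⟪R.Z i g', R.Z i (R.π (m†) g)⟫_ℂ := by
    funext i
    rw [R.Z_π m hm, R.Z_π _ (adj_mem hm), ContinuousLinearMap.adjoint_inner_right]
  rwa [h2] at h

theorem int_comm {T : K →L[ℂ] H} (hT : R.Int T) {m : H →L[ℂ] H} (hm : m ∈ M.commutant) :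
    R.Int (m ∘L T) := by
  intro a ha g
  show m (T (R.π a g)) = a (m (T g))
  rw [hT a ha, (mem_comm_iff.1 hm) a ha]

theorem int_adj {T : K →L[ℂ] H} (hT : R.Int T) {m : H →L[ℂ] H} (hm : m ∈ M) (z : H) :
    (T†) (m z) = R.π m ((T†) z) := by
  refine ext_inner_left ℂ fun g => ?_
  rw [ContinuousLinearMap.adjoint_inner_right, ← ContinuousLinearMap.adjoint_inner_left,
    ← hT _ (adj_mem hm), R.π_adj hm, ← ContinuousLinearMap.adjoint_inner_right,
    ContinuousLinearMap.adjoint_inner_left]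

/-- `T T'†` is in the commutant of `M`. -/
theorem int_mul_adj {T T' : K →L[ℂ] H} (hT : R.Int T) (hT' : R.Int T') :
    T ∘L (T'†) ∈ M.commutant := by
  refine mem_comm_iff.2 fun a ha z => ?_
  show a (T ((T'†) z)) = T ((T'†) (a z))
  rw [R.int_adj hT' ha, hT a ha]

/-- `T† T'` commutes with `π(M)`. -/
theorem adj_mul_int {T T' : K →L[ℂ] H} (hT : R.Int T) (hT' : R.Int T') {m : H →L[ℂ] H}
    (hm : m ∈ M) (g : K) : (T†) (T' (R.π m g)) = R.π m ((T†) (T' g)) := by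
  rw [hT' m hm, R.int_adj hT hm]

end Rep

end Pool.Agent.VNQ
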