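import Pool.Agent.VNQ.RepS
import Pool.Agent.VNQ.SumA

/-!
# The image of a normal faithful representation is a von Neumann algebra

`Rep.exists_vn`: there is a von Neumann algebra `N` on `K` with `y ∈ N ↔ ∃ m ∈ M, y = π(m)`.

Proof. The carrier is `{y | ∃ m ∈ M, y = π(m)}`. It is a `StarSubalgebra`
(`π_add`, `π_comp`, `π_adj`, `π_id`, `π_smul`; `algebraMap ℂ _ c = c • 1`). It remains to show that it
equals its double centralizer (`VonNeumannAlgebra.centralizer_centralizer'`). Let `y` be in the double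
centralizer: `y` commutes with every `c ∈ B(K)` which commutes with all `π(m)`, `m ∈ M`.
Let `S_n : H → K` be as in `exists_S`. For `z ∈ H` put `X z = ∑_n S_n† y S_n z`
(`summable_adjoint` with `A_n = S_n`, `C = 1`, `v_n = y S_n z`, `∑ ‖v_n‖² ≤ ‖y‖² ‖z‖²`); `X` is linear
and `‖X z‖ ≤ ‖y‖ ‖z‖`. For an intertwiner `T : K → H`: `S_n T = (S_n†)† T` commutes with `π(M)`
(`adj_mul_int`), so `y S_n T = S_n T y` and `X T g = ∑ S_n† y S_n T g = ∑ S_n† S_n T y g = T y g`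
(`hasSum_adj_self`). So `X T = T y` for all intertwiners `T`. `X ∈ M`: for `m' ∈ M'`:
`X m' T g = (m' T) y g = m' X T g` (`m' T` is an intertwiner), and the ranges of the `T` are total
(`Rep.dense`), so `X m' = m' X` (`mem_of_comm`). Finally `Z_i π(X) g = X Z_i g = Z_i y g`, so
`y = π(X)` (`ext_Z`).

`Rep.inv`: the inverse of `π`. `inv_π`: `R.inv (R.π m) = m` for `m ∈ M` (`π_inj`).
`norm_inv_le`: `‖R.inv (R.π m) z‖ ≤ ‖R.π m‖ ‖z‖`: `‖m z‖² = ∑ ‖S_n m z‖² = ∑ ‖π(m) S_n z‖²`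
(`int_adj` for `T = S_n†`) `≤ ‖π(m)‖² ‖z‖²`. `norm_π_le`: `‖π(m) g‖ ≤ ‖m‖ ‖g‖` (`norm_Z`).
`π_nonneg`: for `m ∈ M`: `0 ≤ m ↔ 0 ≤ π(m)`: `⟪g, π(m) g⟫ = ∑ ⟪Z_i g, m Z_i g⟫` and
`⟪z, m z⟫ = ∑ ⟪S_n z, π(m) S_n z⟫`; self-adjointness by `π_adj`, `π_inj`
(`ContinuousLinearMap.nonneg_iff_isPositive`).
-/

set_option autoImplicit false

noncomputable section

open scoped TensorProduct InnerProductSpace InnerProduct ENNReal

namespace Pool.Agent.VNQ

universe u

variable {H K : Type u} [NormedAddCommGroup H] [InnerProductSpace ℂ H] [CompleteSpace H]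
  [NormedAddCommGroup K] [InnerProductSpace ℂ K] [CompleteSpace K]

namespace Rep

variable {M : VonNeumannAlgebra H} (R : Rep M K)

private theorem hs_congr {κ E : Type*} [NormedAddCommGroup E] {f g : κ → E} {s : E}
    (h : HasSum f s) (hfg : ∀ n, f n = g n) : HasSum g s := by
  have h1 : f = g := funext hfg
  rw [← h1]
  exact h

/-- The image of the representation as a star subalgebra. -/
private def imgA : StarSubalgebra ℂ (K →L[ℂ] K) where
  carrier := {y | ∃ m ∈ M, y = R.π m}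
  mul_mem' := by
    rintro _ _ ⟨m, hm, rfl⟩ ⟨m', hm', rfl⟩
    exact ⟨m ∘L m', comp_mem hm hm', (R.π_comp hm hm').symm⟩
  add_mem' := by
    rintro _ _ ⟨m, hm, rfl⟩ ⟨m', hm', rfl⟩
    exact ⟨m + m', VNQ.add_mem' hm hm', (R.π_add hm hm').symm⟩
  algebraMap_mem' := by
    intro c
    refine ⟨c • ContinuousLinearMap.id ℂ H, smul_mem' c id_mem, ?_⟩
    rw [R.π_smul c id_mem, R.π_id]
    exact Algebra.algebraMap_eq_smul_one c
  star_mem' := by
    rintro _ ⟨m, hm, rfl⟩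
    exact ⟨m†, adj_mem hm, (R.π_adj hm).symm⟩

private theorem img_dc (y : K →L[ℂ] K)
    (hy : ∀ c : K →L[ℂ] K, (∀ m ∈ M, ∀ g, c (R.π m g) = R.π m (c g)) → ∀ g, y (c g) = c (y g)) :
    ∃ m ∈ M, y = R.π m := by
  obtain ⟨ν, S, hSi, hS⟩ := R.exists_S
  have hA : ∀ β, ∀ t : Finset ν, ∑ k ∈ t, ‖S k β‖ ^ 2 ≤ 1 * ‖β‖ ^ 2 := by
    intro β t
    rw [one_mul]
    exact sum_le_hasSum t (fun k _ => sq_nonneg _) (hS β)
  have hX : ∀ z, ∃ s : H, HasSum (fun n => ((S n)†) (y (S n z))) s ∧ ‖s‖ ≤ ‖y‖ * ‖z‖ := by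
    intro z
    have h1 : HasSum (fun n => ‖y‖ ^ 2 * ‖S n z‖ ^ 2) (‖y‖ ^ 2 * ‖z‖ ^ 2) :=
      (hS z).mul_left _
    have h2 : ∀ n, ‖y (S n z)‖ ^ 2 ≤ ‖y‖ ^ 2 * ‖S n z‖ ^ 2 := by
      intro n
      rw [← mul_pow]
      exact pow_le_pow_left₀ (norm_nonneg _) (y.le_opNorm _) 2
    have h3 : Summable fun n => ‖y (S n z)‖ ^ 2 :=
      Summable.of_nonneg_of_le (fun n => sq_nonneg _) h2 h1.summable
    obtain ⟨s, hs, -, hn⟩ := summable_adjoint S 1 zero_le_one hA (fun n => y (S n z)) h3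
    refine ⟨s, hs, ?_⟩
    have h4 : ∑' n, ‖y (S n z)‖ ^ 2 ≤ ‖y‖ ^ 2 * ‖z‖ ^ 2 := hasSum_le h2 h3.hasSum h1
    have h5 : ‖s‖ ^ 2 ≤ (‖y‖ * ‖z‖) ^ 2 := by
      rw [mul_pow]
      rw [one_mul] at hn
      exact hn.trans h4
    exact (pow_le_pow_iff_left₀ (norm_nonneg _) (by positivity) two_ne_zero).1 h5
  choose F hF hFn using hX
  let X : H →L[ℂ] H := LinearMap.mkContinuous
    { toFun := F
      map_add' := fun z z' => by
        refine (hF (z + z')).unique ?_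
        have h1 := (hF z).add (hF z')
        exact hs_congr h1 fun n => by simp only [map_add]
      map_smul' := fun c z => by
        refine (hF (c • z)).unique ?_
        have h1 := (hF z).const_smul c
        exact hs_congr h1 fun n => by simp only [map_smul] } ‖y‖ hFn
  have hXF : ∀ z, X z = F z := fun z => rfl
  have hXT : ∀ T, R.Int T → ∀ g, X (T g) = T (y g) := by
    intro T hT g
    have h1 : ∀ n, y (S n (T g)) = S n (T (y g)) := by
      intro n
      have h2 := hy ((((S n)†)†) ∘L T) (fun m hm g' => R.adj_mul_int (hSi n) hT hm g') g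
      rw [ContinuousLinearMap.adjoint_adjoint] at h2
      exact h2
    have h3 := hF (T g)
    have h4 := hasSum_adj_self S hS (T (y g))
    have h5 : HasSum (fun n => ((S n)†) (y (S n (T g)))) (T (y g)) := by
      refine hs_congr h4 fun n => ?_
      rw [h1 n]
    rw [hXF]
    exact h3.unique h5
  have hXM : X ∈ M := by
    apply mem_of_comm
    intro m hm ξ
    have h1 : m ∘L X = X ∘L m := by
      refine ContinuousLinearMap.ext_on R.dense ?_
      rintro _ ⟨T, hT, g, rfl⟩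
      have h2 := hXT _ (R.int_comm hT hm) g
      rw [ContinuousLinearMap.comp_apply, ContinuousLinearMap.comp_apply, hXT T hT g]
      exact h2.symm
    exact DFunLike.congr_fun h1 ξ
  refine ⟨X, hXM, ?_⟩
  ext g
  apply R.ext_Z
  intro i
  rw [R.Z_π X hXM i g, hXT _ (R.int_Z i) g]

theorem exists_vn : ∃ N : VonNeumannAlgebra K, ∀ y, y ∈ N ↔ ∃ m ∈ M, y = R.π m := by
  refine ⟨⟨R.imgA, ?_⟩, fun y => Iff.rfl⟩
  apply Set.Subset.antisymm
  · intro y hy
    refine R.img_dc y fun c hc g => ?_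
    have h1 : c ∈ Set.centralizer (R.imgA.carrier) := by
      rintro _ ⟨m, hm, rfl⟩
      ext g'
      exact (hc m hm g').symm
    have h2 := hy c h1
    exact (DFunLike.congr_fun h2 g).symm
  · exact Set.subset_centralizer_centralizer

open Classical in
/-- the inverse of `π` -/
def inv (y : K →L[ℂ] K) : H →L[ℂ] H :=
  if h : ∃ m ∈ M, y = R.π m then Classical.choose h else 0

theorem inv_π {m : H →L[ℂ] H} (hm : m ∈ M) : R.inv (R.π m) = m := by
  have h : ∃ m' ∈ M, R.π m = R.π m' := ⟨m, hm, rfl⟩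
  rw [inv, dif_pos h]
  have h2 := Classical.choose_spec h
  exact (R.π_inj hm h2.1 h2.2).symm

theorem norm_le_norm_π {m : H →L[ℂ] H} (hm : m ∈ M) (z : H) : ‖m z‖ ≤ ‖R.π m‖ * ‖z‖ := by
  obtain ⟨ν, S, hSi, hS⟩ := R.exists_S
  have h1 : ∀ n, ‖S n (m z)‖ ^ 2 ≤ ‖R.π m‖ ^ 2 * ‖S n z‖ ^ 2 := by
    intro n
    have h2 := R.int_adj (hSi n) hm z
    rw [ContinuousLinearMap.adjoint_adjoint] at h2
    rw [h2, ← mul_pow]
    exact pow_le_pow_left₀ (norm_nonneg _) ((R.π m).le_opNorm _) 2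
  have h3 := hasSum_le h1 (hS (m z)) ((hS z).mul_left _)
  rw [← mul_pow] at h3
  exact (pow_le_pow_iff_left₀ (norm_nonneg _) (by positivity) two_ne_zero).1 h3

theorem norm_π_le {m : H →L[ℂ] H} (hm : m ∈ M) (g : K) : ‖R.π m g‖ ≤ ‖m‖ * ‖g‖ := by
  have h1 : ∀ i, ‖R.Z i (R.π m g)‖ ^ 2 ≤ ‖m‖ ^ 2 * ‖R.Z i g‖ ^ 2 := by
    intro i
    rw [R.Z_π m hm i g, ← mul_pow]
    exact pow_le_pow_left₀ (norm_nonneg _) (m.le_opNorm _) 2
  have h3 := hasSum_le h1 (R.norm_Z (R.π m g)) ((R.norm_Z g).mul_left _)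
  rw [← mul_pow] at h3
  exact (pow_le_pow_iff_left₀ (norm_nonneg _) (by positivity) two_ne_zero).1 h3

private theorem nn_sum {κ : Type*} {a : κ → ℂ} {s : ℂ} (h : HasSum a s)
    (ha : ∀ k, (((a k).re : ℝ) : ℂ) = a k ∧ 0 ≤ (a k).re) :
    ((s.re : ℝ) : ℂ) = s ∧ 0 ≤ s.re := by
  have h1 : HasSum (fun k => (a k).re) s.re := Complex.reCLM.hasSum h
  have h2 : HasSum (fun k => (a k).im) s.im := Complex.imCLM.hasSum h
  have h3 : ∀ k, (a k).im = 0 := fun k => by
    rw [← (ha k).1]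
    exact Complex.ofReal_im _
  constructor
  · apply Complex.ext
    · exact Complex.ofReal_re _
    · rw [Complex.ofReal_im]
      have h4 : HasSum (fun k => (a k).im) 0 := by
        rw [funext h3]
        exact hasSum_zero
      exact h4.unique h2
  · exact h1.nonneg fun k => (ha k).2

theorem π_nonneg {m : H →L[ℂ] H} (hm : m ∈ M) : 0 ≤ R.π m ↔ 0 ≤ m := by
  rw [ContinuousLinearMap.nonneg_iff_isPositive, ContinuousLinearMap.nonneg_iff_isPositive,
    ContinuousLinearMap.isPositive_iff_complex, ContinuousLinearMap.isPositive_iff_complex]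
  constructor
  · intro h z
    obtain ⟨ν, S, hSi, hS⟩ := R.exists_S
    have h1 : HasSum (fun n => ⟪R.π m (S n z), S n z⟫_ℂ) ⟪m z, z⟫_ℂ := by
      have h2 := (innerSL ℂ (m z)).hasSum (hasSum_adj_self S hS z)
      refine hs_congr h2 fun n => ?_
      have h3 := R.int_adj (hSi n) hm z
      rw [ContinuousLinearMap.adjoint_adjoint] at h3
      rw [← h3, innerSL_apply_apply, ContinuousLinearMap.adjoint_inner_right]
    exact nn_sum h1 fun n => h (S n z)
  · intro h g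
    have h1 : HasSum (fun i => ⟪m (R.Z i g), R.Z i g⟫_ℂ) ⟪R.π m g, g⟫_ℂ := by
      refine hs_congr (R.inner_Z (R.π m g) g) fun i => ?_
      rw [R.Z_π m hm i g]
    exact nn_sum h1 fun i => h (R.Z i g)

/-- If `m z = ∑ ...` is tested with the `S_n`: `S π(m) = ...`. -/
theorem S_π {S : H →L[ℂ] K} (hS : R.Int (S†)) {m : H →L[ℂ] H} (hm : m ∈ M) (z : H) :
    S (m z) = R.π m (S z) := by
  have h := R.int_adj hS hm z
  rwa [ContinuousLinearMap.adjoint_adjoint] at h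

end Rep

end Pool.Agent.VNQ
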