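import Pool.Agent.VNQ.RepT
import Pool.Agent.VNQ.SumA

/-!
# The inverse representation is normal

`Rep.exists_S`: there is a family of operators `S_n : H → K` whose adjoints are intertwiners, with
`∑ ‖S_n z‖² = ‖z‖²` for all `z ∈ H`.

Proof (Zorn). Let `𝒯 = {S : H →L K | R.Int (S†)}` and consider the subsets `F ⊆ 𝒯` with
`∑_{S ∈ s} ‖S z‖² ≤ ‖z‖²` for all finite `s ⊆ F` and all `z ∈ H`. The union of a chain of such sets is
such a set, so there is a maximal `F` (`zorn_subset`). Define `W : H → lp (fun _ : F => K) 2`,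
`W z = (S z)_{S ∈ F}`, `‖W z‖ ≤ ‖z‖`, and `P = 1 - W† W : H → H`, `⟪z, P z⟫ = ‖z‖² - ∑_{S∈F} ‖S z‖²`.
[Without `lp`: `∑_{S∈F} S† S z` converges by `summable_adjoint` (file `SumA`), with
`A_S = S`, `v_S = S z`, `C = 1`.] `P ≥ 0`, and `P ∈ M'`: `P = 1 - ∑ S† S` (weakly) and
`S† S = (S†)(S†)† ∈ M'` (`int_mul_adj`). Let `r = P^{1/2}` (`cfc Real.sqrt P` or `CFC.sqrt P`):
self-adjoint, `r² = P`, and `r` commutes with everything that commutes with `P`, so `r ∈ M'`.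
Claim `P = 0`. Otherwise `r ≠ 0`, `r z₀ ≠ 0` for some `z₀`, and by `Rep.total` there is an
intertwiner `T` with `T† r z₀ ≠ 0`; so `A = T† r ≠ 0`, and for `c > 0`: `(c A)† = c r T` is an
intertwiner (`int_comm`, scalars), so `c A ∈ 𝒯`, and `‖c A z‖² ≤ c² ‖T‖² ‖r z‖² = c² ‖T‖² ⟪z, P z⟫
≤ ⟪z, P z⟫` for `0 < c ≤ c₀ = 1/‖T‖`. If `c A ∉ F` for one such `c` then `F ∪ {c A}` contradicts
maximality (for finite `s ⊆ F`: `∑_s ‖S z‖² + ‖c A z‖² ≤ ∑_{F} ‖S z‖² + ⟪z, P z⟫ = ‖z‖²`). But not all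
`c A`, `c ∈ [c₀/2, c₀]`, are in `F`: they are infinitely many different operators, with
`‖c A z₀‖ ≥ (c₀/2) ‖A z₀‖ > 0`, so finite sums of `‖c A z₀‖²` would be unbounded.
So `P = 0`, `∑_{S∈F} ‖S z‖² = ‖z‖²`; take `ν = F` (a type in `Type u`), `S` the inclusion.

`S_adj_S`: `∑ S_n† S_n z = z` (`summable_adjoint` for convergence; `⟪z', ∑ S_n† S_n z⟫ = ∑ ⟪S_n z', S_n z⟫
= ⟪z', z⟫` by polarization, `hasSum_inner_of_norm`).
-/

set_option autoImplicit false

noncomputable section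

open scoped TensorProduct InnerProductSpace InnerProduct ENNReal

namespace Pool.Agent.VNQ

universe u

variable {H K : Type u} [NormedAddCommGroup H] [InnerProductSpace ℂ H] [CompleteSpace H]
  [NormedAddCommGroup K] [InnerProductSpace ℂ K] [CompleteSpace K]

/-- For a family with `∑ ‖S_n z‖² = ‖z‖²` one has `∑ S_n† S_n z = z`. -/
private theorem repS_adj_self {ν : Type*} {H K : Type u} [NormedAddCommGroup H]
    [InnerProductSpace ℂ H] [CompleteSpace H] [NormedAddCommGroup K] [InnerProductSpace ℂ K]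
    [CompleteSpace K]
    (S : ν → H →L[ℂ] K) (hS : ∀ z, HasSum (fun n => ‖S n z‖ ^ 2) (‖z‖ ^ 2)) (z : H) :
    HasSum (fun n => ((S n)†) (S n z)) z := by
  obtain ⟨s, hs, hs', -⟩ := summable_adjoint S 1 zero_le_one
    (fun β t => by
      rw [one_mul]
      exact sum_le_hasSum t (fun _ _ => sq_nonneg _) (hS β)) (fun n => S n z) (hS z).summable
  have e : s = z := by
    refine ext_inner_left ℂ fun β => ?_
    exact (hs' β).unique
      (hasSum_inner_of_norm (fun n => (S n).toLinearMap) LinearMap.id hS β z)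
  rw [← e]
  rw [e] at hs
  rw [e]
  exact hs

private theorem repS_sqrt (P : H →L[ℂ] H) (hP : P.IsPositive) :
    ∃ r : H →L[ℂ] H, r† = r ∧ (∀ z, r (r z) = P z) ∧
      ∀ a : H →L[ℂ] H, (∀ z, a (P z) = P (a z)) → ∀ z, a (r z) = r (a z) := by
  have h0 : 0 ≤ P := (ContinuousLinearMap.nonneg_iff_isPositive P).2 hP
  refine ⟨CFC.sqrt P, ?_, ?_, ?_⟩
  · have h1 : 0 ≤ CFC.sqrt P := CFC.sqrt_nonneg P
    exact (IsSelfAdjoint.of_nonneg h1).star_eq
  · intro z
    have h1 := CFC.sqrt_mul_sqrt_self P h0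
    exact congrArg (fun f : H →L[ℂ] H => f z) h1
  · intro a ha z
    have h1 : Commute P a := by
      show P * a = a * P
      ext z
      exact (ha z).symm
    have h2 : Commute (CFC.sqrt P) a := h1.cfcₙ_nnreal NNReal.sqrt
    exact (congrArg (fun f : H →L[ℂ] H => f z) h2.eq).symm

/-- the complement of a family: `⟪z, P z⟫ = ‖z‖² - ∑ ‖A_k z‖²`, `P = 1 - ∑ A_k† A_k` -/
private theorem repS_compl {κ : Type*} (A : κ → H →L[ℂ] K)
    (hA : ∀ z, ∀ t : Finset κ, ∑ k ∈ t, ‖A k z‖ ^ 2 ≤ ‖z‖ ^ 2) :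
    ∃ P : H →L[ℂ] H, P.IsPositive ∧
      (∀ z, HasSum (fun k => ‖A k z‖ ^ 2) (‖z‖ ^ 2 - (⟪z, P z⟫_ℂ).re)) ∧
      ∀ a : H →L[ℂ] H, (∀ k z, ((A k)†) (A k (a z)) = a (((A k)†) (A k z))) →
        ∀ z, a (P z) = P (a z) := by
  have hsm : ∀ z, Summable fun k => ‖A k z‖ ^ 2 := fun z =>
    summable_of_sum_le (fun _ => sq_nonneg _) (hA z)
  have hex := fun z => summable_adjoint A 1 zero_le_one
    (fun β t => by rw [one_mul]; exact hA β t) (fun k => A k z) (hsm z)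
  choose q hq hq' hq'' using hex
  let Q : H →L[ℂ] H := LinearMap.mkContinuous
    { toFun := q
      map_add' := fun x y => by
        refine (hq (x + y)).unique ?_
        have h1 := (hq x).add (hq y)
        simpa using h1
      map_smul' := fun c x => by
        refine (hq (c • x)).unique ?_
        have h1 := (hq x).const_smul c
        simpa using h1 } 1 (fun z => by
      rw [one_mul]
      have h1 := hq'' z
      rw [one_mul] at h1
      have h2 : ∑' k, ‖A k z‖ ^ 2 ≤ ‖z‖ ^ 2 := (hsm z).tsum_le_of_sum_le (hA z)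
      exact le_of_sq_le_sq (h1.trans h2) (norm_nonneg _))
  have hQ : ∀ z, Q z = q z := fun z => rfl
  have hin : ∀ β z, HasSum (fun k => ⟪A k β, A k z⟫_ℂ) ⟪β, Q z⟫_ℂ := fun β z => hq' z β
  have hre : ∀ z, HasSum (fun k => ‖A k z‖ ^ 2) (⟪z, Q z⟫_ℂ).re := by
    intro z
    have h1 := Complex.hasSum_re (hin z z)
    have h2 : (fun k => (⟪A k z, A k z⟫_ℂ).re) = fun k => ‖A k z‖ ^ 2 := by
      funext k
      rw [inner_self_eq_norm_sq_to_K]
      norm_cast
    rw [h2] at h1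
    exact h1
  have hsa : IsSelfAdjoint Q := by
    rw [ContinuousLinearMap.isSelfAdjoint_iff']
    ext z
    refine ext_inner_left ℂ fun β => ?_
    rw [ContinuousLinearMap.adjoint_inner_right]
    have h1 := (hin z β).star
    refine ((hin β z).unique ?_).symm
    have h2 : (fun k => ⟪A k β, A k z⟫_ℂ) = fun k => star ⟪A k z, A k β⟫_ℂ := by
      funext k
      exact (inner_conj_symm _ _).symm
    rw [h2]
    have h3 : ⟪Q β, z⟫_ℂ = star ⟪z, Q β⟫_ℂ := (inner_conj_symm _ _).symm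
    rw [h3]
    exact h1
  refine ⟨1 - Q, ?_, ?_, ?_⟩
  · rw [ContinuousLinearMap.isPositive_def']
    refine ⟨(IsSelfAdjoint.one _).sub hsa, fun z => ?_⟩
    rw [ContinuousLinearMap.reApplyInnerSelf_apply]
    have h1 := (hre z).tsum_eq
    have h2 : ∑' k, ‖A k z‖ ^ 2 ≤ ‖z‖ ^ 2 := (hsm z).tsum_le_of_sum_le (hA z)
    have h3 : (⟪(1 - Q) z, z⟫_ℂ).re = ‖z‖ ^ 2 - (⟪z, Q z⟫_ℂ).re := by
      rw [sub_apply, inner_sub_left, Complex.sub_re]
      congr 1
      · rw [one_apply_eq_self, inner_self_eq_norm_sq_to_K]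
        norm_cast
      · rw [← inner_conj_symm, Complex.conj_re]
    show 0 ≤ (⟪(1 - Q) z, z⟫_ℂ).re
    rw [h3]
    linarith
  · intro z
    have h3 : (⟪z, (1 - Q) z⟫_ℂ).re = ‖z‖ ^ 2 - (⟪z, Q z⟫_ℂ).re := by
      rw [sub_apply, inner_sub_right, Complex.sub_re]
      congr 1
      rw [one_apply_eq_self, inner_self_eq_norm_sq_to_K]
      norm_cast
    rw [h3, sub_sub_cancel]
    exact hre z
  · intro a ha z
    rw [sub_apply, sub_apply, map_sub,
      one_apply_eq_self, one_apply_eq_self]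
    congr 1
    refine ((hq (a z)).unique ?_).symm
    have h1 := a.hasSum (hq z)
    have h2 : (fun k => ((A k)†) (A k (a z))) = fun k => a (((A k)†) (A k z)) := by
      funext k
      exact ha k z
    rw [h2]
    exact h1

namespace Rep

variable {M : VonNeumannAlgebra H} (R : Rep M K)

private theorem repS_smul {T : K →L[ℂ] H} (hT : R.Int T) (c : ℂ) : R.Int (c • T) := by
  intro m hm g
  rw [smul_apply, smul_apply, hT m hm, map_smul]

/-- a new member -/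
private theorem repS_new (F : Set (H →L[ℂ] K)) (hF : ∀ S ∈ F, R.Int (S†))
    (hs : ∀ s : Finset (H →L[ℂ] K), (s : Set (H →L[ℂ] K)) ⊆ F → ∀ z,
      ∑ S ∈ s, ‖S z‖ ^ 2 ≤ ‖z‖ ^ 2)
    (hmax : ∀ S, R.Int (S†) → (∀ s : Finset (H →L[ℂ] K), (s : Set (H →L[ℂ] K)) ⊆ F → ∀ z,
      ‖S z‖ ^ 2 + ∑ S' ∈ s, ‖S' z‖ ^ 2 ≤ ‖z‖ ^ 2) → S ∈ F) (z : H) :
    HasSum (fun n : F => ‖(n : H →L[ℂ] K) z‖ ^ 2) (‖z‖ ^ 2) := by
  classical
  have hA : ∀ z, ∀ t : Finset F, ∑ k ∈ t, ‖(k : H →L[ℂ] K) z‖ ^ 2 ≤ ‖z‖ ^ 2 := by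
    intro z t
    have h1 := hs (t.map (Function.Embedding.subtype _)) (by
      intro S hS
      rw [Finset.mem_coe, Finset.mem_map] at hS
      obtain ⟨k, -, rfl⟩ := hS
      exact k.2) z
    rw [Finset.sum_map] at h1
    exact h1
  obtain ⟨P, hP, hsum, hcomm⟩ := repS_compl (fun k : F => (k : H →L[ℂ] K)) hA
  obtain ⟨r, hr, hrr, hrc⟩ := repS_sqrt P hP
  have hrn : ∀ z, ‖r z‖ ^ 2 = (⟪z, P z⟫_ℂ).re := by
    intro z
    rw [← hrr z]
    have h1 : ⟪z, r (r z)⟫_ℂ = ⟪r z, r z⟫_ℂ := by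
      rw [← ContinuousLinearMap.adjoint_inner_right, hr]
    rw [h1, inner_self_eq_norm_sq_to_K]
    norm_cast
  have hrM : r ∈ M.commutant := by
    refine mem_comm_iff.2 fun a ha z => ?_
    refine hrc a (hcomm a fun k z => ?_) z
    have h1 := R.int_adj (hF k.1 k.2) ha z
    rw [ContinuousLinearMap.adjoint_adjoint] at h1
    rw [h1, hF k.1 k.2 a ha]
  have hfin : ∀ z, ∀ s : Finset (H →L[ℂ] K), (s : Set (H →L[ℂ] K)) ⊆ F →
      ‖r z‖ ^ 2 + ∑ S ∈ s, ‖S z‖ ^ 2 ≤ ‖z‖ ^ 2 := by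
    intro z s hsF
    have h1 : ∑ S ∈ s, ‖S z‖ ^ 2 ≤ ‖z‖ ^ 2 - (⟪z, P z⟫_ℂ).re := by
      have h2 := sum_le_hasSum (s.subtype (· ∈ F)) (fun _ _ => sq_nonneg _) (hsum z)
      have h3 : ∑ k ∈ s.subtype (· ∈ F), ‖(k : H →L[ℂ] K) z‖ ^ 2 = ∑ S ∈ s, ‖S z‖ ^ 2 :=
        Finset.sum_subtype_of_mem (fun S : H →L[ℂ] K => ‖S z‖ ^ 2) hsF
      rw [← h3]
      exact h2
    rw [hrn z]
    linarith
  have hr0 : ∀ z, r z = 0 := by
    by_contra hcon
    push Not at hcon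
    obtain ⟨z₀, hz₀⟩ := hcon
    obtain ⟨T, hT, hTz⟩ : ∃ T, R.Int T ∧ (T†) (r z₀) ≠ 0 := by
      by_contra h
      push Not at h
      exact hz₀ (R.total _ h)
    have hTn : 0 < ‖T†‖ := by
      rw [norm_pos_iff]
      intro h
      rw [h] at hTz
      exact hTz rfl
    have hin : ∀ c : ℝ, 0 ≤ c → c * ‖T†‖ ≤ 1 → ((c : ℂ) • ((T†) ∘L r)) ∈ F := by
      intro c hc hc1
      refine hmax _ ?_ ?_
      · have h1 : (((c : ℂ) • ((T†) ∘L r)) : H →L[ℂ] K)† = (c : ℂ) • (r ∘L T) := by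
          rw [map_smulₛₗ, ContinuousLinearMap.adjoint_comp, ContinuousLinearMap.adjoint_adjoint,
            hr, Complex.conj_ofReal]
        rw [h1]
        exact repS_smul R (R.int_comm hT hrM) _
      · intro s hsF z
        refine le_trans (add_le_add_left ?_ _) (hfin z s hsF)
        have h1 : ‖((c : ℂ) • ((T†) ∘L r)) z‖ = c * ‖(T†) (r z)‖ := by
          rw [smul_apply, norm_smul, Complex.norm_real, Real.norm_of_nonneg hc]
          rfl
        rw [h1]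
        have h2 : c * ‖(T†) (r z)‖ ≤ ‖r z‖ := by
          calc c * ‖(T†) (r z)‖ ≤ c * (‖T†‖ * ‖r z‖) :=
                mul_le_mul_of_nonneg_left ((T†).le_opNorm _) hc
            _ = (c * ‖T†‖) * ‖r z‖ := by ring
            _ ≤ 1 * ‖r z‖ := mul_le_mul_of_nonneg_right hc1 (norm_nonneg _)
            _ = ‖r z‖ := one_mul _
        exact pow_le_pow_left₀ (by positivity) h2 2
    obtain ⟨d, hd⟩ : ∃ d : ℝ, d = ‖(T†) (r z₀)‖ := ⟨_, rfl⟩
    have hd0 : 0 < d := by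
      rw [hd]
      exact norm_pos_iff.2 hTz
    obtain ⟨e, he⟩ : ∃ e : ℝ, e = (1 / ‖T†‖) := ⟨_, rfl⟩
    have he0 : 0 < e := by
      rw [he]
      positivity
    obtain ⟨N, hN⟩ := exists_nat_gt (‖z₀‖ ^ 2 / ((e / 2) * d) ^ 2)
    let f : ℕ → H →L[ℂ] K := fun i => (((e - e / (i + 2) : ℝ) : ℂ)) • ((T†) ∘L r)
    have hfz : ∀ i : ℕ, 0 ≤ e - e / (i + 2) ∧ ‖f i z₀‖ = (e - e / (i + 2)) * d := by
      intro i
      have h0 : e / ((i : ℝ) + 2) ≤ e / 2 := by
        refine div_le_div_of_nonneg_left he0.le (by norm_num) ?_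
        have : (0 : ℝ) ≤ i := Nat.cast_nonneg i
        linarith
      have h1 : 0 ≤ e - e / ((i : ℝ) + 2) := by linarith
      refine ⟨h1, ?_⟩
      show ‖((((e - e / (i + 2) : ℝ) : ℂ)) • ((T†) ∘L r)) z₀‖ = _
      rw [smul_apply, norm_smul, Complex.norm_real, Real.norm_of_nonneg h1, hd]
      rfl
    have hfi : Function.Injective f := by
      intro i j hij
      have h1 := (hfz i).2
      have h2 := (hfz j).2
      rw [hij, h2] at h1
      have h3 := mul_right_cancel₀ hd0.ne' h1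
      have h4 : e / ((i : ℝ) + 2) = e / ((j : ℝ) + 2) := by linarith
      have hi : (0 : ℝ) < (i : ℝ) + 2 := by positivity
      have hj : (0 : ℝ) < (j : ℝ) + 2 := by positivity
      rw [div_eq_div_iff hi.ne' hj.ne'] at h4
      have h5 := mul_left_cancel₀ he0.ne' h4
      have h6 : (i : ℝ) = j := by linarith
      exact_mod_cast h6
    have hfF : ∀ i, f i ∈ F := by
      intro i
      refine hin _ (hfz i).1 ?_
      have h1 : 0 ≤ e / ((i : ℝ) + 2) := by positivity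
      calc (e - e / ((i : ℝ) + 2)) * ‖T†‖ ≤ e * ‖T†‖ :=
            mul_le_mul_of_nonneg_right (by linarith) hTn.le
        _ = 1 := by rw [he, one_div, inv_mul_cancel₀ hTn.ne']
    have h1 := hs ((Finset.range N).map ⟨f, hfi⟩) (by
      intro S hS
      rw [Finset.mem_coe, Finset.mem_map] at hS
      obtain ⟨i, -, rfl⟩ := hS
      exact hfF i) z₀
    rw [Finset.sum_map] at h1
    have h2 : ∀ i ∈ Finset.range N, ((e / 2) * d) ^ 2 ≤ ‖f i z₀‖ ^ 2 := by
      intro i _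
      rw [(hfz i).2]
      have h0 : e / ((i : ℝ) + 2) ≤ e / 2 := by
        refine div_le_div_of_nonneg_left he0.le (by norm_num) ?_
        have : (0 : ℝ) ≤ i := Nat.cast_nonneg i
        linarith
      refine pow_le_pow_left₀ (by positivity) ?_ 2
      exact mul_le_mul_of_nonneg_right (by linarith) hd0.le
    have h3 := Finset.sum_le_sum h2
    rw [Finset.sum_const, Finset.card_range, nsmul_eq_mul] at h3
    have h4 : (N : ℝ) * ((e / 2) * d) ^ 2 ≤ ‖z₀‖ ^ 2 := h3.trans h1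
    have h5 : 0 < ((e / 2) * d) ^ 2 := by positivity
    rw [div_lt_iff₀ h5] at hN
    linarith
  have h1 := hsum z
  rw [← hrn z, hr0 z, norm_zero] at h1
  simpa using h1

theorem exists_S : ∃ (ν : Type u) (S : ν → H →L[ℂ] K), (∀ n, R.Int ((S n)†)) ∧
    ∀ z, HasSum (fun n => ‖S n z‖ ^ 2) (‖z‖ ^ 2) := by
  classical
  obtain ⟨F, hF⟩ := zorn_subset {F : Set (H →L[ℂ] K) | (∀ S ∈ F, R.Int (S†)) ∧
      ∀ s : Finset (H →L[ℂ] K), (s : Set (H →L[ℂ] K)) ⊆ F → ∀ z,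
        ∑ S ∈ s, ‖S z‖ ^ 2 ≤ ‖z‖ ^ 2} (by
    intro c hc hch
    rcases c.eq_empty_or_nonempty with rfl | hne
    · refine ⟨∅, ⟨fun S hS => absurd hS (Set.notMem_empty S), fun s hs z => ?_⟩,
        fun s hs => absurd hs (Set.notMem_empty s)⟩
      have h1 : s = ∅ := Finset.eq_empty_of_forall_notMem fun x hx => hs hx
      rw [h1, Finset.sum_empty]
      positivity
    · refine ⟨⋃₀ c, ⟨?_, ?_⟩, fun s hs => Set.subset_sUnion_of_mem hs⟩
      · rintro S ⟨F, hFc, hSF⟩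
        exact (hc hFc).1 S hSF
      · intro s hs z
        obtain ⟨F, hFc, hsF⟩ := hch.directedOn.exists_mem_subset_of_finite_of_subset_sUnion hne
          s.finite_toSet hs
        exact (hc hFc).2 s hsF z)
  refine ⟨F, fun n => (n : H →L[ℂ] K), fun n => hF.1.1 n.1 n.2, fun z => ?_⟩
  refine repS_new R F hF.1.1 hF.1.2 (fun S hS hS' => ?_) z
  by_contra hSF
  have h1 : insert S F ∈ {F : Set (H →L[ℂ] K) | (∀ S ∈ F, R.Int (S†)) ∧
      ∀ s : Finset (H →L[ℂ] K), (s : Set (H →L[ℂ] K)) ⊆ F → ∀ z,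
        ∑ S ∈ s, ‖S z‖ ^ 2 ≤ ‖z‖ ^ 2} := by
    refine ⟨?_, fun s hs z => ?_⟩
    · rintro S' (rfl | hS'')
      · exact hS
      · exact hF.1.1 S' hS''
    · by_cases hSs : S ∈ s
      · rw [← Finset.insert_erase hSs, Finset.sum_insert (Finset.notMem_erase S s)]
        refine hS' _ ?_ z
        intro S' hS''
        rw [Finset.mem_coe, Finset.mem_erase] at hS''
        exact (hs hS''.2).resolve_left hS''.1
      · refine hF.1.2 s ?_ z
        intro S' hS''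
        exact (hs hS'').resolve_left fun e => hSs (e ▸ hS'')
  exact hSF (hF.2 h1 (Set.subset_insert S F) (Set.mem_insert S F))

end Rep

/-- For a family with `∑ ‖S_n z‖² = ‖z‖²` one has `∑ S_n† S_n z = z`. -/
theorem hasSum_adj_self {ν : Type*} {H K : Type u} [NormedAddCommGroup H] [InnerProductSpace ℂ H]
    [CompleteSpace H] [NormedAddCommGroup K] [InnerProductSpace ℂ K] [CompleteSpace K]
    (S : ν → H →L[ℂ] K) (hS : ∀ z, HasSum (fun n => ‖S n z‖ ^ 2) (‖z‖ ^ 2)) (z : H) :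
    HasSum (fun n => ((S n)†) (S n z)) z := repS_adj_self S hS z

end Pool.Agent.VNQ
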