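import Pool.Agent.VNQ.Rep

/-!
# The intertwiners are total

`Rep.total`: if `T† z = 0` for all intertwiners `T : K → H` then `z = 0`.

Proof. Let `L ⊆ H` be the closure of the span of the ranges of all intertwiners, `p` the
orthogonal projection onto `L`. `L` is invariant under `M` (`m T g = T π(m) g`) and under `M'`
(`m' T` is an intertwiner, `int_comm`); both are closed under adjoints, so `p` commutes with `M` and
with `M'`. In particular `p ∈ M` (`mem_of_comm`), `q = 1 - p ∈ M` (`sub_mem'`, `id_mem`), and
`Z_i π(q) g = q Z_i g = 0` (`Z_i g ∈ L`), so `π(q) = 0` (`ext_Z`) and `q = 0` by `faithful`. So `L = H`.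
If `T† z = 0` for all `T` then `z ⊥ L`, so `z = 0`.

`Rep.ext_adj`: if `T† z = T† z'` for all intertwiners then `z = z'`.
`Rep.dense`: the span of the ranges of the intertwiners is dense.
-/

set_option autoImplicit false

noncomputable section

open scoped TensorProduct InnerProductSpace InnerProduct ENNReal

namespace Pool.Agent.VNQ

universe u

variable {H K : Type u} [NormedAddCommGroup H] [InnerProductSpace ℂ H] [CompleteSpace H]
  [NormedAddCommGroup K] [InnerProductSpace ℂ K] [CompleteSpace K]

namespace Rep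

variable {M : VonNeumannAlgebra H} (R : Rep M K)

/-- the span of the ranges of the intertwiners -/
private def rtS : Submodule ℂ H := Submodule.span ℂ {z : H | ∃ T, R.Int T ∧ ∃ g, z = T g}

private theorem rt_mem {z : H} : z ∈ (rtS R)ᗮ ↔ ∀ T, R.Int T → (T†) z = 0 := by
  constructor
  · intro h T hT
    refine ext_inner_left ℂ fun g => ?_
    rw [ContinuousLinearMap.adjoint_inner_right, inner_zero_right]
    exact (Submodule.mem_orthogonal _ _).1 h (T g) (Submodule.subset_span ⟨T, hT, g, rfl⟩)
  · intro h
    rw [Submodule.mem_orthogonal]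
    intro u hu
    unfold rtS at hu
    induction hu using Submodule.span_induction with
    | mem u hu =>
      obtain ⟨T, hT, g, rfl⟩ := hu
      rw [← ContinuousLinearMap.adjoint_inner_right, h T hT, inner_zero_right]
    | zero => exact inner_zero_left z
    | add u v _ _ hu hv => rw [inner_add_left, hu, hv, add_zero]
    | smul c u _ hu => rw [inner_smul_left, hu, mul_zero]

private theorem rt_M {m : H →L[ℂ] H} (hm : m ∈ M) {z : H} (hz : z ∈ (rtS R)ᗮ) :
    m z ∈ (rtS R)ᗮ := by
  rw [rt_mem] at hz ⊢
  intro T hT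
  rw [R.int_adj hT hm, hz T hT, map_zero]

private theorem rt_M' {m : H →L[ℂ] H} (hm : m ∈ M.commutant) {z : H} (hz : z ∈ (rtS R)ᗮ) :
    m z ∈ (rtS R)ᗮ := by
  rw [rt_mem] at hz ⊢
  intro T hT
  have h1 := hz _ (R.int_comm hT (adj_mem hm))
  rw [ContinuousLinearMap.adjoint_comp, ContinuousLinearMap.adjoint_adjoint] at h1
  exact h1

private theorem rt_comm (W : Submodule ℂ H) [W.HasOrthogonalProjection] {m : H →L[ℂ] H}
    (h : ∀ z ∈ W, m z ∈ W) (h' : ∀ z ∈ W, (m†) z ∈ W) (x : H) :
    m (W.starProjection x) = W.starProjection (m x) := by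
  refine (Submodule.eq_starProjection_of_mem_of_inner_eq_zero
    (h _ (W.starProjection_apply_mem x)) fun w hw => ?_).symm
  rw [← map_sub, ← ContinuousLinearMap.adjoint_inner_right]
  exact Submodule.starProjection_inner_eq_zero x _ (h' w hw)

theorem total (z : H) (h : ∀ T, R.Int T → (T†) z = 0) : z = 0 := by
  have hz : z ∈ (rtS R)ᗮ := (rt_mem R).2 h
  have hq : (rtS R)ᗮ.starProjection ∈ M := mem_of_comm fun m hm x =>
    rt_comm _ (fun w hw => rt_M' R hm hw) (fun w hw => rt_M' R (adj_mem hm) hw) x
  have hπ : R.π (rtS R)ᗮ.starProjection = 0 := by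
    ext g
    refine R.ext_Z fun i => ?_
    rw [R.Z_π _ hq, ContinuousLinearMap.zero_apply, map_zero,
      Submodule.starProjection_apply_eq_zero_iff, Submodule.mem_orthogonal]
    intro u hu
    rw [← ContinuousLinearMap.adjoint_inner_left, (rt_mem R).1 hu _ (R.int_Z i),
      inner_zero_left]
  have h0 := R.faithful _ hq hπ
  have h1 := Submodule.starProjection_eq_self_iff.2 hz
  rw [h0] at h1
  exact h1.symm

theorem dense : Dense (Submodule.span ℂ {z : H | ∃ T, R.Int T ∧ ∃ g, z = T g} : Set H) := by
  rw [Submodule.dense_iff_topologicalClosure_eq_top, Submodule.topologicalClosure_eq_top_iff,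
    Submodule.eq_bot_iff]
  intro z hz
  exact R.total z ((rt_mem R).1 hz)

end Rep

end Pool.Agent.VNQ
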