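import Pool.Agent.VNQ.Pairs
import Pool.Agent.VNQ.GamW

/-!
# The involutions of the weights and the isometries

(`ξ ⊠ η` in comments is `tmul ξ η`, `R_η = rT η`, `L_ξ = lT ξ`.)

* `sint_Y`: with `d = Q.φ.md`, for all `v, y ∈ G`, `ξ, ξ' ∈ H`:
  `⟪ξ' ⊠ C v, Y (ξ ⊠ A y)⟫ = ⟪ξ', x_{C y, v - A v} ξ⟫`.
  Proof. Put `δ = v - A v`, `δ₁ = C v`. Then `C δ = A δ₁` (`dual_pair`), so by `adj_pair`
  (conjugated) (F): `⟪β₁, δ⟫ = ⟪δ₁, β⟫` for all `(β, β₁) ∈ d.rel = Q.φ.Gam` (`md_rel`). Claim: for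
  all
  `(β, β₁) ∈ Q.φ.Gam`: `⟪ξ' ⊠ δ₁, Y (ξ ⊠ β)⟫ = ⟪Y (ξ' ⊠ β₁), ξ ⊠ δ⟫`. Both sides are continuous in
  `(β, β₁)`, so we may take `β = Λ_φ b`, `β₁ = Λ_φ b†`, `b, b† ∈ N_φ` (closure,
  `closure_induction`-like: the set of `(β, β₁)` where the claim holds is closed). Let
  `s = Q.sl ξ' ξ b`; `s† = Q.sl ξ ξ' b†` (`adjoint_sl`), both in `N_φ` (`Y_slice`), and
  `⟪ξ' ⊠ δ₁, Y (ξ ⊠ Λ_φ b)⟫ = ⟪δ₁, L_{ξ'}† Y (ξ ⊠ Λ_φ b)⟫ = ⟪δ₁, Λ_φ s⟫ = ⟪Λ_φ(s†), δ⟫` ((F) for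
  `(Λ_φ s, Λ_φ s†)`, `mem_md_rel`) `= ⟪L_ξ† Y (ξ' ⊠ Λ_φ b†), δ⟫ = ⟪Y (ξ' ⊠ β₁), ξ ⊠ δ⟫`. Now take
  `β = A y`, `β₁ = C y` (`AC_mem_rel`) and use `inner_x`.
* `sint_V`: with `d = Q.ψ.md`, for all `u, x₀ ∈ H`, `η, η' ∈ H`:
  `⟪C u ⊠ η', V (A x₀ ⊠ η)⟫ = ⟪w_{u - A u, C x₀} η', η⟫`.
  Proof. `δ = u - A u`, `δ₁ = C u`, (F) as before for `Q.ψ.Gam`. Claim: for `(α, α₁) ∈ Q.ψ.Gam`:
  `⟪δ₁ ⊠ η', V (α ⊠ η)⟫ = ⟪V (α₁ ⊠ η'), δ ⊠ η⟫`. For `α = Λ a`, `α₁ = Λ a†`, with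
  `s = Q.sr η' η a`, `s† = Q.sr η η' a†` (`adjoint_sr`, `V_slice`):
  `⟪δ₁ ⊠ η', V (Λ a ⊠ η)⟫ = ⟪δ₁, R_{η'}† V (Λ a ⊠ η)⟫ = ⟪δ₁, Λ s⟫ = ⟪Λ(s†), δ⟫
  = ⟪R_η† V (Λ a† ⊠ η'), δ⟫ = ⟪V (α₁ ⊠ η'), δ ⊠ η⟫`. Continuity, `α = A x₀`, `α₁ = C x₀`, and
  `⟪V (α₁ ⊠ η'), δ ⊠ η⟫ = ⟪w_{δ,α₁} η', η⟫` (`inner_w`, conjugated).
-/

set_option autoImplicit false

noncomputable section

open scoped TensorProduct InnerProductSpace InnerProduct ENNReal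
open Filter

namespace Pool.Agent.VNQ

universe u

variable {H G : Type u} [NormedAddCommGroup H] [InnerProductSpace ℂ H] [CompleteSpace H]
  [NormedAddCommGroup G] [InnerProductSpace ℂ G] [CompleteSpace G]

namespace QG

variable (Q : QG H G)

private theorem claim_Y (v : G) (ξ ξ' : H) {p : G × G} (hp : p ∈ Q.φ.Gam) :
    ⟪tmul ξ' (Q.φ.md.C v), Q.Y (tmul ξ p.1)⟫_ℂ =
      ⟪Q.Y (tmul ξ' p.2), tmul ξ (v - Q.φ.md.A v)⟫_ℂ := by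
  have hF : ∀ β β₁ : G, (β, β₁) ∈ Q.φ.md.rel →
      ⟪Q.φ.md.C v, β⟫_ℂ = ⟪β₁, v - Q.φ.md.A v⟫_ℂ := by
    intro β β₁ h
    rw [← inner_conj_symm, ← Q.φ.md.adj_pair h (Q.φ.md.dual_pair v), inner_conj_symm]
  have hc1 : Continuous fun p : G × G =>
      ⟪tmul ξ' (Q.φ.md.C v), Q.Y (tmul ξ p.1)⟫_ℂ := by
    have h : Continuous fun p : G × G => Q.Y (lT ξ p.1) :=
      Q.Y.continuous.comp ((lT ξ).continuous.comp continuous_fst)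
    exact continuous_const.inner h
  have hc2 : Continuous fun p : G × G =>
      ⟪Q.Y (tmul ξ' p.2), tmul ξ (v - Q.φ.md.A v)⟫_ℂ := by
    have h : Continuous fun p : G × G => Q.Y (lT ξ' p.2) :=
      Q.Y.continuous.comp ((lT ξ').continuous.comp continuous_snd)
    exact h.inner continuous_const
  have hsub : closure {p : G × G | ∃ b ∈ Q.φ.N, b† ∈ Q.φ.N ∧ p = (Q.φ.Λ b, Q.φ.Λ (b†))} ⊆
      {p : G × G | ⟪tmul ξ' (Q.φ.md.C v), Q.Y (tmul ξ p.1)⟫_ℂ =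
        ⟪Q.Y (tmul ξ' p.2), tmul ξ (v - Q.φ.md.A v)⟫_ℂ} := by
    refine closure_minimal ?_ (isClosed_eq hc1 hc2)
    rintro _ ⟨b, hb, hb', rfl⟩
    obtain ⟨h1, h2⟩ := Q.Y_slice hb ξ' ξ
    obtain ⟨h3, h4⟩ := Q.Y_slice hb' ξ ξ'
    have h5 := Q.adjoint_sl ξ' ξ hb.1
    rw [← h5] at h3 h4
    have h6 := hF _ _ (Q.φ.mem_md_rel h1 h3)
    change ⟪tmul ξ' (Q.φ.md.C v), Q.Y (tmul ξ (Q.φ.Λ b))⟫_ℂ =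
      ⟪Q.Y (tmul ξ' (Q.φ.Λ (b†))), tmul ξ (v - Q.φ.md.A v)⟫_ℂ
    rw [← inner_lT_adjoint, h2, h6, ← h4, ← inner_conj_symm, inner_lT_adjoint, inner_conj_symm]
  exact hsub hp

theorem sint_Y (v y : G) (ξ ξ' : H) :
    ⟪tmul ξ' (Q.φ.md.C v), Q.Y (tmul ξ (Q.φ.md.A y))⟫_ℂ =
      ⟪ξ', Q.x (Q.φ.md.C y) (v - Q.φ.md.A v) ξ⟫_ℂ := by
  have h1 : (Q.φ.md.A y, Q.φ.md.C y) ∈ Q.φ.Gam := by
    rw [← Q.φ.md_rel]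
    exact Q.φ.md.AC_mem_rel y
  have h2 := Q.claim_Y v ξ ξ' h1
  have h3 := Q.inner_x (Q.φ.md.C y) (v - Q.φ.md.A v) ξ' ξ
  dsimp only at h2
  exact h2.trans h3.symm

private theorem claim_V (u : H) (η η' : H) {p : H × H} (hp : p ∈ Q.ψ.Gam) :
    ⟪tmul (Q.ψ.md.C u) η', Q.V (tmul p.1 η)⟫_ℂ =
      ⟪Q.V (tmul p.2 η'), tmul (u - Q.ψ.md.A u) η⟫_ℂ := by
  have hF : ∀ β β₁ : H, (β, β₁) ∈ Q.ψ.md.rel →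
      ⟪Q.ψ.md.C u, β⟫_ℂ = ⟪β₁, u - Q.ψ.md.A u⟫_ℂ := by
    intro β β₁ h
    rw [← inner_conj_symm, ← Q.ψ.md.adj_pair h (Q.ψ.md.dual_pair u), inner_conj_symm]
  have hc1 : Continuous fun p : H × H =>
      ⟪tmul (Q.ψ.md.C u) η', Q.V (tmul p.1 η)⟫_ℂ := by
    have h : Continuous fun p : H × H => Q.V (rT η p.1) :=
      Q.V.continuous.comp ((rT η).continuous.comp continuous_fst)
    exact continuous_const.inner h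
  have hc2 : Continuous fun p : H × H =>
      ⟪Q.V (tmul p.2 η'), tmul (u - Q.ψ.md.A u) η⟫_ℂ := by
    have h : Continuous fun p : H × H => Q.V (rT η' p.2) :=
      Q.V.continuous.comp ((rT η').continuous.comp continuous_snd)
    exact h.inner continuous_const
  have hsub : closure {p : H × H | ∃ b ∈ Q.ψ.N, b† ∈ Q.ψ.N ∧ p = (Q.ψ.Λ b, Q.ψ.Λ (b†))} ⊆
      {p : H × H | ⟪tmul (Q.ψ.md.C u) η', Q.V (tmul p.1 η)⟫_ℂ =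
        ⟪Q.V (tmul p.2 η'), tmul (u - Q.ψ.md.A u) η⟫_ℂ} := by
    refine closure_minimal ?_ (isClosed_eq hc1 hc2)
    rintro _ ⟨b, hb, hb', rfl⟩
    obtain ⟨h1, h2⟩ := Q.V_slice hb η' η
    obtain ⟨h3, h4⟩ := Q.V_slice hb' η η'
    have h5 := Q.adjoint_sr η' η hb.1
    rw [← h5] at h3 h4
    have h6 := hF _ _ (Q.ψ.mem_md_rel h1 h3)
    change ⟪tmul (Q.ψ.md.C u) η', Q.V (tmul (Q.ψ.Λ b) η)⟫_ℂ =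
      ⟪Q.V (tmul (Q.ψ.Λ (b†)) η'), tmul (u - Q.ψ.md.A u) η⟫_ℂ
    rw [← inner_rT_adjoint, h2, h6, ← h4, ← inner_conj_symm, inner_rT_adjoint, inner_conj_symm]
  exact hsub hp

theorem sint_V (u x₀ : H) (η η' : H) :
    ⟪tmul (Q.ψ.md.C u) η', Q.V (tmul (Q.ψ.md.A x₀) η)⟫_ℂ =
      ⟪Q.w (u - Q.ψ.md.A u) (Q.ψ.md.C x₀) η', η⟫_ℂ := by
  have h1 : (Q.ψ.md.A x₀, Q.ψ.md.C x₀) ∈ Q.ψ.Gam := by
    rw [← Q.ψ.md_rel]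
    exact Q.ψ.md.AC_mem_rel x₀
  have h2 := Q.claim_V u η η' h1
  have h3 := Q.inner_w (u - Q.ψ.md.A u) (Q.ψ.md.C x₀) η η'
  have h4 := congrArg (starRingEnd ℂ) h3
  rw [inner_conj_symm, inner_conj_symm] at h4
  dsimp only at h2
  exact h2.trans h4.symm

end QG

end Pool.Agent.VNQ
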