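import Pool.Agent.VNQ.Pairs
import Pool.Agent.VNQ.Tot
import Pool.Agent.VNQ.AUb
import Pool.Agent.VNQ.LemN
import Pool.Agent.VNQ.NrmBC

/-!
# Normal functionals which vanish on the `x_{u,v}` vanish on all right slices

* `sr_tendsto`: if `T_k, S ∈ M`, `‖T_k‖ ≤ R`, `T_k ξ → S ξ` for all `ξ`, then for a normal `θ`:
  `θ(Q.sr κ η T_k) → θ(Q.sr κ η S)`. Proof. `Q.sr κ η T_k ξ = R_κ† Δ(T_k)(ξ ⊠ η) → Q.sr κ η S ξ`
  (`Δ_tendsto`), `‖Q.sr κ η T_k‖ ≤ ‖κ‖ R ‖η‖` (`norm_sliceR_le`, `norm_Δ_le`), `IsNrm.tendsto`.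
* `sna`: let `θ` be normal with `θ(x_{u,v}) = 0` for all `u, v ∈ G`. Then `θ(Q.sr κ η x) = 0` for
all
  `x ∈ M`, `κ, η ∈ H`.
  Proof. (i) `a ∈ N_φ`: `Q.sr z_j η (a†) = (Q.sr η z_j a)† = x_{Λ_φ a, Z'_j† η}` (`adjoint_sr`,
  `sr_z`),
  so `θ(Q.sr z_j η a†) = 0`. (ii) For `m ∈ M'`: `Q.sr (m z_j) η (a†) = Q.sr z_j (m† η) (a†)`
  (`sr_comm`), so `θ(Q.sr (m z_j) η (a†)) = 0`. (iii) `κ ↦ θ(Q.sr κ η (a†))` is additive, conjugate
  homogeneous and continuous (`Q.sr κ η y` is conjugate linear in `κ`: test with `inner_sr`;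
  `norm_sliceR_le`; `IsNrm.map_add`, `map_smul`, `bound`), and the `m z_j` span a dense subspace
  (`Q.φ.total_H`), so `θ(Q.sr κ η (a†)) = 0` for all `κ, η ∈ H`. (iv) For `x ∈ M` let `e_k` be as in
  `Q.φ.exists_net` and `a_k = x† e_k ∈ N_φ` (`mul_mem`), `a_k† = e_k x`: `‖a_k†‖ ≤ ‖x‖`,
  `a_k† ξ → x ξ`. By `sr_tendsto` `θ(Q.sr κ η x) = lim θ(Q.sr κ η (a_k†)) = 0`.
-/

set_option autoImplicit false

noncomputable section

open scoped TensorProduct InnerProductSpace InnerProduct ENNReal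
open Filter

namespace Pool.Agent.VNQ

universe u

variable {H G : Type u} [NormedAddCommGroup H] [InnerProductSpace ℂ H] [CompleteSpace H]
  [NormedAddCommGroup G] [InnerProductSpace ℂ G] [CompleteSpace G]

namespace QG

variable (Q : QG H G)

theorem sr_tendsto {θ : (H →L[ℂ] H) → ℂ} (hθ : IsNrm θ) {κ' : Type*} {l : Filter κ'}
    (T : κ' → H →L[ℂ] H) (hT : ∀ k, T k ∈ Q.M) (S : H →L[ℂ] H) (hS : S ∈ Q.M) (R : ℝ)
    (hR : ∀ k, ‖T k‖ ≤ R) (h : ∀ ξ, Tendsto (fun k => T k ξ) l (nhds (S ξ))) (κ η : H) :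
    Tendsto (fun k => θ (Q.sr κ η (T k))) l (nhds (θ (Q.sr κ η S))) := by
  refine hθ.tendsto (fun k => Q.sr κ η (T k)) (Q.sr κ η S) (‖κ‖ * R * ‖η‖) (fun k => ?_)
    (fun ξ => ?_)
  · refine (norm_sliceR_le κ η (Q.Δ (T k))).trans ?_
    have h1 : ‖Q.Δ (T k)‖ ≤ R := (Q.norm_Δ_le (hT k)).trans (hR k)
    gcongr
  · simp only [sr_apply]
    exact (((rT κ : H →L[ℂ] HTen H H)†).continuous.tendsto _).comp
      (Q.Δ_tendsto T hT S hS R hR h (tmul ξ η))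

private theorem sr_add_left (κ κ' η : H) (x : H →L[ℂ] H) :
    Q.sr (κ + κ') η x = Q.sr κ η x + Q.sr κ' η x := by
  ext ξ
  refine ext_inner_left ℂ fun ξ' => ?_
  rw [add_apply, inner_add_right, Q.inner_sr, Q.inner_sr, Q.inner_sr, tmul_add, inner_add_left]

private theorem sr_smul_left (c : ℂ) (κ η : H) (x : H →L[ℂ] H) :
    Q.sr (c • κ) η x = (starRingEnd ℂ c) • Q.sr κ η x := by
  ext ξ
  refine ext_inner_left ℂ fun ξ' => ?_
  rw [smul_apply, inner_smul_right, Q.inner_sr, Q.inner_sr, tmul_smul, inner_smul_left]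

/-- The closed subspace of all `κ` with `θ(Q.sr κ η x) = 0`. -/
private theorem sr_zero_of_total {θ : (H →L[ℂ] H) → ℂ} (hθ : IsNrm θ) (η : H) (x : H →L[ℂ] H)
    (S : Set H) (hS : Dense (Submodule.span ℂ S : Set H)) (h : ∀ κ ∈ S, θ (Q.sr κ η x) = 0) :
    ∀ κ, θ (Q.sr κ η x) = 0 := by
  obtain ⟨C, hC⟩ := hθ.bound
  let K : Submodule ℂ H :=
    { carrier := {κ | θ (Q.sr κ η x) = 0}
      add_mem' := by
        intro a b ha hb
        simp only [Set.mem_setOf_eq] at ha hb ⊢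
        rw [sr_add_left, hθ.map_add, ha, hb, add_zero]
      zero_mem' := by
        simp only [Set.mem_setOf_eq]
        have h1 : Q.sr 0 η x = 0 := by
          have := Q.sr_smul_left 0 0 η x
          rwa [map_zero, zero_smul, zero_smul] at this
        rw [h1, hθ.map_zero]
      smul_mem' := by
        intro c a ha
        simp only [Set.mem_setOf_eq] at ha ⊢
        rw [sr_smul_left, hθ.map_smul, ha, mul_zero] }
  have hsub : ∀ κ κ', θ (Q.sr κ η x) - θ (Q.sr κ' η x) = θ (Q.sr (κ - κ') η x) := by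
    intro κ κ'
    have h1 := Q.sr_add_left (κ - κ') κ' η x
    rw [sub_add_cancel] at h1
    rw [h1, hθ.map_add, add_sub_cancel_right]
  have hcont : Continuous fun κ => θ (Q.sr κ η x) := by
    rw [continuous_iff_continuousAt]
    intro κ'
    rw [ContinuousAt, tendsto_iff_norm_sub_tendsto_zero]
    have h1 : Tendsto (fun κ => |C| * (‖κ - κ'‖ * ‖Q.Δ x‖ * ‖η‖)) (nhds κ') (nhds 0) := by
      have h2 : Continuous fun κ : H => |C| * (‖κ - κ'‖ * ‖Q.Δ x‖ * ‖η‖) := by fun_prop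
      have h3 := h2.tendsto κ'
      simpa using h3
    refine squeeze_zero (fun _ => norm_nonneg _) (fun κ => ?_) h1
    rw [hsub]
    refine (hC _).trans ?_
    have h4 : C * ‖Q.sr (κ - κ') η x‖ ≤ |C| * ‖Q.sr (κ - κ') η x‖ := by
      gcongr
      exact le_abs_self C
    refine h4.trans ?_
    have h5 : ‖Q.sr (κ - κ') η x‖ ≤ ‖κ - κ'‖ * ‖Q.Δ x‖ * ‖η‖ :=
      norm_sliceR_le (κ - κ') η (Q.Δ x)
    gcongr
  have hclosed : IsClosed (K : Set H) := isClosed_eq hcont continuous_const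
  have hle : Submodule.span ℂ S ≤ K := Submodule.span_le.2 h
  intro κ
  have h1 : κ ∈ closure (Submodule.span ℂ S : Set H) := hS κ
  exact closure_minimal (fun y hy => hle hy) hclosed h1

theorem sna {θ : (H →L[ℂ] H) → ℂ} (hθ : IsNrm θ) (h : ∀ u v, θ (Q.x u v) = 0) :
    ∀ x ∈ Q.M, ∀ κ η, θ (Q.sr κ η x) = 0 := by
  have h1 : ∀ a ∈ Q.φ.N, ∀ j η, θ (Q.sr (Q.φ.z j) η (a†)) = 0 := by
    intro a ha j η
    rw [← Q.adjoint_sr η (Q.φ.z j) ha.1, Q.sr_z ha]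
    exact h _ _
  have h2 : ∀ a ∈ Q.φ.N, ∀ η κ, θ (Q.sr κ η (a†)) = 0 := by
    intro a ha η
    refine Q.sr_zero_of_total hθ η (a†) _ Q.φ.total_H ?_
    rintro κ ⟨m, hm, j, rfl⟩
    rw [Q.sr_comm (Q.φ.z j) η (adj_mem ha.1) hm]
    exact h1 a ha j _
  intro x hx κ η
  obtain ⟨κ', l, hl, e, heN, hes, hec, het⟩ := Q.φ.exists_net
  have hadj : ∀ k, (e k)† = e k := by
    intro k
    symm
    rw [ContinuousLinearMap.eq_adjoint_iff]
    exact hes k
  have ha : ∀ k, x† ∘L e k ∈ Q.φ.N := fun k => Q.φ.mul_mem (adj_mem hx) (heN k)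
  have haa : ∀ k, (x† ∘L e k)† = e k ∘L x := by
    intro k
    rw [ContinuousLinearMap.adjoint_comp, hadj k, ContinuousLinearMap.adjoint_adjoint]
  have ht := Q.sr_tendsto hθ (fun k => (x† ∘L e k)†) (fun k => adj_mem (ha k).1) x hx ‖x‖
    (fun k => by
      rw [haa k]
      refine ContinuousLinearMap.opNorm_le_bound _ (norm_nonneg _) fun ξ => ?_
      exact (hec k (x ξ)).trans (x.le_opNorm ξ))
    (fun ξ => by
      simp only [haa]
      exact het (x ξ)) κ η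
  have hz : ∀ k, θ (Q.sr κ η ((x† ∘L e k)†)) = 0 := fun k => h2 _ (ha k) η κ
  simp only [hz] at ht
  exact (tendsto_nhds_unique ht tendsto_const_nhds).trans rfl

end QG

end Pool.Agent.VNQ
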