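import Pool.Agent.VNQ.StepCa
import Pool.Agent.VNQ.NrmBC

/-!
# Multiplication of slices by `x_{u,v}†`

`QG.snb`: let `θ` be normal with `θ(Q.sr κ η x) = 0` for all `x ∈ M`, `κ, η ∈ H`. Then
`θ(x_{u,v}† ∘ Q.sr κ η y) = 0` for all `u, v ∈ G`, `y ∈ M`, `κ, η ∈ H`.

Proof. (i) Let `u = Λ_φ a`, `v = Λ_φ b`, `a, b ∈ N_φ`, `f` a Hilbert basis of `H`, and for
`k = (l, j)`: `s_k = s_k(a) = Q.sr (f l) z_j a`, `r_k = s_k(b)`. For a finite set `F` of indices put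
`S_F = ∑_{k∈F} (1 ⊗ r_k†) Δ(s_k)` (a bounded operator on `H ⊗ H`).
* `‖S_F‖ ≤ ‖Λ_φ b‖ ‖Λ_φ a‖`: `norm_sum_adjoint_le` with `A_k = 1 ⊗ r_k` (`adjoint_mapT`),
  `C = ‖Λ_φ b‖²` (`hasSum_s_tmul`), `v_k = Δ(s_k) θ₁`: `‖S_F θ₁‖² ≤ ‖Λ_φ b‖² ∑_F ‖Δ(s_k) θ₁‖²
  ≤ ‖Λ_φ b‖² ‖Λ_φ a‖² ‖θ₁‖²` (`hasSum_Δs`).
* `S_F θ₁ → (x_{u,v}† ⊗ 1) θ₁`: `summable_adjoint` (same data) gives convergence to some `σ` with
  `⟪β, σ⟫ = ∑_k ⟪(1 ⊗ r_k) β, Δ(s_k) θ₁⟫`. For `β = ξ ⊠ η`: `⟪(1 ⊗ r_k)(ξ ⊠ η), Δ(s_k) θ₁⟫ =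
  ⟪Δ(s_k†)(ξ ⊠ r_k η), θ₁⟫` (`Q.adj`), with sum `⟪x_{u,v} ξ ⊠ η, θ₁⟫` (`stepC`)
  `= ⟪(x_{u,v} ⊗ 1)(ξ ⊠ η), θ₁⟫ = ⟪ξ ⊠ η, (x_{u,v}† ⊗ 1) θ₁⟫`. So `σ = (x_{u,v}† ⊗ 1) θ₁`
  (`ext_inner_left'`).
* Let `T_F = R_κ† S_F Δ(y) R_η`. Then `‖T_F‖ ≤ ‖κ‖ ‖S_F‖ ‖y‖ ‖η‖` is bounded, and
  `T_F ξ → R_κ† (x_{u,v}† ⊗ 1) Δ(y)(ξ ⊠ η) = x_{u,v}† (Q.sr κ η y ξ)` (`rT_adjoint_mapT` or
  `rT_adj_mapT_left`). By `IsNrm.tendsto` (filter `atTop` on finite sets) `θ(T_F) → θ(x_{u,v}† ∘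
  Q.sr κ η y)`.
* `T_F = ∑_{k∈F} Q.sr (r_k κ) η (s_k y)`: `R_κ† (1 ⊗ r_k†) = R_{r_k κ}†` (`rT_adjoint_mapT`) and
  `Δ(s_k) Δ(y) = Δ(s_k y)` (`Q.mul`, `sr_mem`, `comp_mem`). So `θ(T_F) = 0` (`IsNrm.map_sum`).
Hence `θ(x_{u,v}† ∘ Q.sr κ η y) = 0`.
(ii) General `u, v`: both `u ↦` and `v ↦ θ(x_{u,v}† ∘ Q.sr κ η y)` are continuous (`norm_x_le`,
`x_sub_left`, `x_sub_right`, `IsNrm.bound`, `IsNrm.map_sub`), so use `induction_Λ` twice.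
-/

set_option autoImplicit false

noncomputable section

open scoped TensorProduct InnerProductSpace InnerProduct ENNReal
open Filter

namespace Pool.Agent.VNQ

universe u

variable {H G : Type u} [NormedAddCommGroup H] [InnerProductSpace ℂ H] [CompleteSpace H]
  [NormedAddCommGroup G] [InnerProductSpace ℂ G] [CompleteSpace G]

namespace QG

variable (Q : QG H G)

private theorem snb_lim {l : Type*} (f : HilbertBasis l ℂ H) {a b : H →L[ℂ] H} (ha : a ∈ Q.φ.N)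
    (hb : b ∈ Q.φ.N) (θ₁ : HTen H H) :
    HasSum (fun k : l × Q.φ.ι =>
        ((mapT (ContinuousLinearMap.id ℂ H) (Q.sr (f k.1) (Q.φ.z k.2) b))†)
          (Q.Δ (Q.sr (f k.1) (Q.φ.z k.2) a) θ₁))
      (mapT ((Q.x (Q.φ.Λ a) (Q.φ.Λ b))†) (ContinuousLinearMap.id ℂ H) θ₁) := by
  have hA : ∀ β : HTen H H, ∀ t : Finset (l × Q.φ.ι),
      ∑ k ∈ t, ‖mapT (ContinuousLinearMap.id ℂ H) (Q.sr (f k.1) (Q.φ.z k.2) b) β‖ ^ 2 ≤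
        ‖Q.φ.Λ b‖ ^ 2 * ‖β‖ ^ 2 :=
    fun β t => sum_le_hasSum t (fun _ _ => sq_nonneg _) (Q.hasSum_s_tmul f hb β)
  obtain ⟨σ, hσ, hin, -⟩ := summable_adjoint
    (fun k : l × Q.φ.ι => mapT (ContinuousLinearMap.id ℂ H) (Q.sr (f k.1) (Q.φ.z k.2) b))
    (‖Q.φ.Λ b‖ ^ 2) (sq_nonneg _) hA
    (fun k : l × Q.φ.ι => Q.Δ (Q.sr (f k.1) (Q.φ.z k.2) a) θ₁) (Q.hasSum_Δs f ha θ₁).summable
  suffices hs : σ = mapT ((Q.x (Q.φ.Λ a) (Q.φ.Λ b))†) (ContinuousLinearMap.id ℂ H) θ₁ by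
    rw [← hs]
    exact hσ
  refine ext_inner_left' fun ξ η => ?_
  have h1 := hin (tmul ξ η)
  have h2 := (innerSLFlip ℂ θ₁).hasSum (Q.stepC f ha hb ξ η)
  simp only [innerSLFlip_apply_apply] at h2
  have h3 : ∀ k : l × Q.φ.ι,
      ⟪mapT (ContinuousLinearMap.id ℂ H) (Q.sr (f k.1) (Q.φ.z k.2) b) (tmul ξ η),
        Q.Δ (Q.sr (f k.1) (Q.φ.z k.2) a) θ₁⟫_ℂ =
      ⟪Q.Δ ((Q.sr (f k.1) (Q.φ.z k.2) a)†) (tmul ξ (Q.sr (f k.1) (Q.φ.z k.2) b η)), θ₁⟫_ℂ := by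
    intro k
    rw [mapT_tmul, Q.adj _ (Q.sr_mem _ _ ha.1), ContinuousLinearMap.adjoint_inner_left]
    rfl
  simp only [h3] at h1
  rw [h1.unique h2, ← ContinuousLinearMap.adjoint_inner_left, adjoint_mapT,
    ContinuousLinearMap.adjoint_adjoint, mapT_tmul]
  have h4 : (ContinuousLinearMap.id ℂ H)† = ContinuousLinearMap.id ℂ H :=
    ContinuousLinearMap.adjoint_id
  rw [h4]
  rfl

private theorem snb_bd {l : Type*} (f : HilbertBasis l ℂ H) {a b : H →L[ℂ] H} (ha : a ∈ Q.φ.N)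
    (hb : b ∈ Q.φ.N) (F : Finset (l × Q.φ.ι)) :
    ‖∑ k ∈ F, ((mapT (ContinuousLinearMap.id ℂ H) (Q.sr (f k.1) (Q.φ.z k.2) b))†) ∘L
        Q.Δ (Q.sr (f k.1) (Q.φ.z k.2) a)‖ ≤ ‖Q.φ.Λ b‖ * ‖Q.φ.Λ a‖ := by
  have hA : ∀ β : HTen H H, ∀ t : Finset (l × Q.φ.ι),
      ∑ k ∈ t, ‖mapT (ContinuousLinearMap.id ℂ H) (Q.sr (f k.1) (Q.φ.z k.2) b) β‖ ^ 2 ≤
        ‖Q.φ.Λ b‖ ^ 2 * ‖β‖ ^ 2 :=
    fun β t => sum_le_hasSum t (fun _ _ => sq_nonneg _) (Q.hasSum_s_tmul f hb β)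
  refine ContinuousLinearMap.opNorm_le_bound _ (by positivity) fun θ₁ => ?_
  have h1 := norm_sum_adjoint_le
    (fun k : l × Q.φ.ι => mapT (ContinuousLinearMap.id ℂ H) (Q.sr (f k.1) (Q.φ.z k.2) b))
    (‖Q.φ.Λ b‖ ^ 2) (sq_nonneg _) hA
    (fun k : l × Q.φ.ι => Q.Δ (Q.sr (f k.1) (Q.φ.z k.2) a) θ₁) F
  have h2 : ∑ k ∈ F, ‖Q.Δ (Q.sr (f k.1) (Q.φ.z k.2) a) θ₁‖ ^ 2 ≤ ‖Q.φ.Λ a‖ ^ 2 * ‖θ₁‖ ^ 2 :=
    sum_le_hasSum F (fun _ _ => sq_nonneg _) (Q.hasSum_Δs f ha θ₁)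
  have h3 := h1.trans (mul_le_mul_of_nonneg_left h2 (sq_nonneg ‖Q.φ.Λ b‖))
  rw [_root_.sum_apply]
  refine (pow_le_pow_iff_left₀ (norm_nonneg _) (by positivity) two_ne_zero).1 ?_
  calc _ ≤ ‖Q.φ.Λ b‖ ^ 2 * (‖Q.φ.Λ a‖ ^ 2 * ‖θ₁‖ ^ 2) := h3
    _ = (‖Q.φ.Λ b‖ * ‖Q.φ.Λ a‖ * ‖θ₁‖) ^ 2 := by ring

private theorem snb_term {p q y : H →L[ℂ] H} (hp : p ∈ Q.M) (hy : y ∈ Q.M) (κ η : H) :
    (rT κ : H →L[ℂ] HTen H H)† ∘L ((((mapT (ContinuousLinearMap.id ℂ H) q)†) ∘L Q.Δ p) ∘L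
      (Q.Δ y ∘L (rT η : H →L[ℂ] HTen H H))) = Q.sr (q κ) η (p ∘L y) := by
  have h1 : (rT κ : H →L[ℂ] HTen H H)† ∘L ((mapT (ContinuousLinearMap.id ℂ H) q)†) =
      (rT (q κ) : H →L[ℂ] HTen H H)† := by
    have h4 : (ContinuousLinearMap.id ℂ H)† = ContinuousLinearMap.id ℂ H :=
      ContinuousLinearMap.adjoint_id
    rw [adjoint_mapT, h4, rT_adjoint_mapT, ContinuousLinearMap.adjoint_adjoint]
    rfl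
  ext ξ
  have h2 := congrArg (fun g : HTen H H →L[ℂ] H => g (Q.Δ p (Q.Δ y (tmul ξ η)))) h1
  rw [Q.sr_apply, Q.mul p hp y hy]
  exact h2

private theorem snb_Λ {θ : (H →L[ℂ] H) → ℂ} (hθ : IsNrm θ)
    (h : ∀ x ∈ Q.M, ∀ κ η, θ (Q.sr κ η x) = 0) {a b : H →L[ℂ] H} (ha : a ∈ Q.φ.N)
    (hb : b ∈ Q.φ.N) {y : H →L[ℂ] H} (hy : y ∈ Q.M) (κ η : H) :
    θ ((Q.x (Q.φ.Λ a) (Q.φ.Λ b))† ∘L Q.sr κ η y) = 0 := by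
  obtain ⟨l, f, -⟩ := exists_hilbertBasis ℂ H
  let S : Finset (l × Q.φ.ι) → (HTen H H →L[ℂ] HTen H H) := fun F =>
    ∑ k ∈ F, ((mapT (ContinuousLinearMap.id ℂ H) (Q.sr (f k.1) (Q.φ.z k.2) b))†) ∘L
        Q.Δ (Q.sr (f k.1) (Q.φ.z k.2) a)
  let T : Finset (l × Q.φ.ι) → (H →L[ℂ] H) := fun F =>
    (rT κ : H →L[ℂ] HTen H H)† ∘L (S F ∘L (Q.Δ y ∘L (rT η : H →L[ℂ] HTen H H)))
  have hT0 : ∀ F, θ (T F) = 0 := by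
    intro F
    have h1 : T F = ∑ k ∈ F, Q.sr (Q.sr (f k.1) (Q.φ.z k.2) b κ) η
        (Q.sr (f k.1) (Q.φ.z k.2) a ∘L y) := by
      have h2 : T F = ∑ k ∈ F, (rT κ : H →L[ℂ] HTen H H)† ∘L
          ((((mapT (ContinuousLinearMap.id ℂ H) (Q.sr (f k.1) (Q.φ.z k.2) b))†) ∘L
            Q.Δ (Q.sr (f k.1) (Q.φ.z k.2) a)) ∘L
            (Q.Δ y ∘L (rT η : H →L[ℂ] HTen H H))) := by
        ext ξ
        simp only [T, S, ContinuousLinearMap.comp_apply, _root_.sum_apply, map_sum]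
      rw [h2]
      exact Finset.sum_congr rfl fun k _ => Q.snb_term (Q.sr_mem _ _ ha.1) hy κ η
    rw [h1, hθ.map_sum]
    exact Finset.sum_eq_zero fun k _ => h _ (comp_mem (Q.sr_mem _ _ ha.1) hy) _ _
  have hlim : Tendsto (fun F => θ (T F)) atTop
      (nhds (θ ((Q.x (Q.φ.Λ a) (Q.φ.Λ b))† ∘L Q.sr κ η y))) := by
    refine hθ.tendsto T _ (‖(rT κ : H →L[ℂ] HTen H H)†‖ * (‖Q.φ.Λ b‖ * ‖Q.φ.Λ a‖ *
      ‖Q.Δ y ∘L (rT η : H →L[ℂ] HTen H H)‖)) (fun F => ?_) (fun ξ => ?_)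
    · refine (ContinuousLinearMap.opNorm_comp_le _ _).trans ?_
      refine mul_le_mul_of_nonneg_left ?_ (norm_nonneg _)
      refine (ContinuousLinearMap.opNorm_comp_le _ _).trans ?_
      exact mul_le_mul_of_nonneg_right (Q.snb_bd f ha hb F) (norm_nonneg _)
    · have h1 : Tendsto (fun F => S F (Q.Δ y (tmul ξ η))) atTop
          (nhds (mapT ((Q.x (Q.φ.Λ a) (Q.φ.Λ b))†) (ContinuousLinearMap.id ℂ H)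
            (Q.Δ y (tmul ξ η)))) := by
        have h2 := Q.snb_lim f ha hb (Q.Δ y (tmul ξ η))
        refine Tendsto.congr (fun F => ?_) h2
        simp only [S, ContinuousLinearMap.comp_apply, _root_.sum_apply]
      have h3 := (((rT κ : H →L[ℂ] HTen H H)†).continuous.tendsto _).comp h1
      rw [rT_adj_mapT_left] at h3
      exact h3
  have h0 : Tendsto (fun F => θ (T F)) atTop (nhds 0) := by
    simp only [hT0]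
    exact tendsto_const_nhds
  exact tendsto_nhds_unique hlim h0

theorem snb {θ : (H →L[ℂ] H) → ℂ} (hθ : IsNrm θ) (h : ∀ x ∈ Q.M, ∀ κ η, θ (Q.sr κ η x) = 0)
    (u v : G) {y : H →L[ℂ] H} (hy : y ∈ Q.M) (κ η : H) :
    θ ((Q.x u v)† ∘L Q.sr κ η y) = 0 := by
  obtain ⟨C, hC⟩ := hθ.bound
  have hC' : ∀ X, ‖θ X‖ ≤ |C| * ‖X‖ := fun X =>
    (hC X).trans (mul_le_mul_of_nonneg_right (le_abs_self C) (norm_nonneg _))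
  have hbd : ∀ X : H →L[ℂ] H, ‖θ (X† ∘L Q.sr κ η y)‖ ≤ |C| * ‖Q.sr κ η y‖ * ‖X‖ := by
    intro X
    refine (hC' _).trans ?_
    have h1 : ‖X† ∘L Q.sr κ η y‖ ≤ ‖X‖ * ‖Q.sr κ η y‖ := by
      refine (ContinuousLinearMap.opNorm_comp_le _ _).trans (le_of_eq ?_)
      rw [LinearIsometryEquiv.norm_map]
    calc |C| * ‖X† ∘L Q.sr κ η y‖ ≤ |C| * (‖X‖ * ‖Q.sr κ η y‖) :=
          mul_le_mul_of_nonneg_left h1 (abs_nonneg _)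
      _ = |C| * ‖Q.sr κ η y‖ * ‖X‖ := by ring
  have hsub : ∀ X Y : H →L[ℂ] H, θ (X† ∘L Q.sr κ η y) - θ (Y† ∘L Q.sr κ η y) =
      θ ((X - Y)† ∘L Q.sr κ η y) := by
    intro X Y
    rw [← hθ.map_sub]
    congr 1
    rw [map_sub]
    ext ξ
    rfl
  have hcu : ∀ v : G, Continuous fun u : G => θ ((Q.x u v)† ∘L Q.sr κ η y) := by
    intro v
    refine (LipschitzWith.of_dist_le' (K := |C| * ‖Q.sr κ η y‖ * ‖v‖) fun u u' => ?_).continuous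
    rw [dist_eq_norm, hsub, ← Q.x_sub_left, dist_eq_norm]
    refine (hbd _).trans ?_
    calc |C| * ‖Q.sr κ η y‖ * ‖Q.x (u - u') v‖ ≤ |C| * ‖Q.sr κ η y‖ * (‖u - u'‖ * ‖v‖) :=
          mul_le_mul_of_nonneg_left (Q.norm_x_le _ _) (by positivity)
      _ = |C| * ‖Q.sr κ η y‖ * ‖v‖ * ‖u - u'‖ := by ring
  have hcv : ∀ u : G, Continuous fun v : G => θ ((Q.x u v)† ∘L Q.sr κ η y) := by
    intro u
    refine (LipschitzWith.of_dist_le' (K := |C| * ‖Q.sr κ η y‖ * ‖u‖) fun v v' => ?_).continuous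
    rw [dist_eq_norm, hsub, ← Q.x_sub_right, dist_eq_norm]
    refine (hbd _).trans ?_
    calc |C| * ‖Q.sr κ η y‖ * ‖Q.x u (v - v')‖ ≤ |C| * ‖Q.sr κ η y‖ * (‖u‖ * ‖v - v'‖) :=
          mul_le_mul_of_nonneg_left (Q.norm_x_le _ _) (by positivity)
      _ = |C| * ‖Q.sr κ η y‖ * ‖u‖ * ‖v - v'‖ := by ring
  refine Q.φ.induction_Λ (p := fun u => θ ((Q.x u v)† ∘L Q.sr κ η y) = 0) u
    (isClosed_eq (hcu v) continuous_const) fun a ha => ?_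
  exact Q.φ.induction_Λ (p := fun v => θ ((Q.x (Q.φ.Λ a) v)† ∘L Q.sr κ η y) = 0) v
    (isClosed_eq (hcv _) continuous_const) fun b hb => Q.snb_Λ hθ h ha hb hy κ η

end QG

end Pool.Agent.VNQ
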