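import Pool.Agent.VNQ.SNa
import Pool.Agent.VNQ.SNb

/-!
# Multiplication of slices

`QG.snc`: let `θ` be normal with `θ(Q.sr κ η x) = 0` for all `x ∈ M`, `κ, η ∈ H`. Then
`θ(Q.sr κ' η' x ∘ Q.sr κ η y) = 0` for all `x, y ∈ M`, `κ, η, κ', η' ∈ H`.

Proof. Fix `s = Q.sr κ η y` and let `θ' = θ(· ∘ s)`, normal (`IsNrm.comp_right`). (i) For `a ∈ N_φ`:
`x_{Λ_φ a, Z'_j† κ'}† = Q.sr κ' z_j a` (`sr_z`, take adjoints), so by `snb`
`θ'(Q.sr κ' z_j a) = 0` for all `κ'`, `j`. (ii) For `m ∈ M'`: `Q.sr κ' (m z_j) a = Q.sr (m† κ') z_j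
a`
(`sr_comm` for `m†`, `m†† = m`), so `θ'(Q.sr κ' (m z_j) a) = 0`. (iii) `η' ↦ θ'(Q.sr κ' η' a)` is
linear
and continuous (`norm_sliceR_le`, `IsNrm.bound`), the `m z_j` span a dense subspace
(`Q.φ.total_H`), so `θ'(Q.sr κ' η' a) = 0` for all `κ', η'`. (iv) For `x ∈ M` let `e_k` be as in
`Q.φ.exists_net`, `a_k = x e_k ∈ N_φ`, `‖a_k‖ ≤ ‖x‖`, `a_k ξ → x ξ`; by `sr_tendsto`
`θ'(Q.sr κ' η' x) = lim θ'(Q.sr κ' η' a_k) = 0`.
-/

set_option autoImplicit false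

noncomputable section

open scoped TensorProduct InnerProductSpace InnerProduct ENNReal
open Filter

namespace Pool.Agent.VNQ

universe u

variable {H G : Type u} [NormedAddCommGroup H] [InnerProductSpace ℂ H] [CompleteSpace H]
  [NormedAddCommGroup G] [InnerProductSpace ℂ G] [CompleteSpace G]

namespace QG

variable (Q : QG H G)

theorem snc {θ : (H →L[ℂ] H) → ℂ} (hθ : IsNrm θ) (h : ∀ x ∈ Q.M, ∀ κ η, θ (Q.sr κ η x) = 0)
    {x y : H →L[ℂ] H} (hx : x ∈ Q.M) (hy : y ∈ Q.M) (κ' η' κ η : H) :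
    θ (Q.sr κ' η' x ∘L Q.sr κ η y) = 0 := by
  have hθ' : IsNrm fun X => θ (X ∘L Q.sr κ η y) := hθ.comp_right _
  have h1 : ∀ a ∈ Q.φ.N, ∀ (κ' : H) (j : Q.φ.ι),
      θ (Q.sr κ' (Q.φ.z j) a ∘L Q.sr κ η y) = 0 := by
    intro a ha κ' j
    have e1 : Q.sr κ' (Q.φ.z j) a = (Q.x (Q.φ.Λ a) (((Q.φ.Z j)†) κ'))† := by
      rw [← Q.sr_z ha κ' j, ContinuousLinearMap.adjoint_adjoint]
    rw [e1]
    exact Q.snb hθ h _ _ hy κ η
  have h2 : ∀ a ∈ Q.φ.N, ∀ (κ' : H) (j : Q.φ.ι), ∀ m ∈ Q.M.commutant,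
      θ (Q.sr κ' (m (Q.φ.z j)) a ∘L Q.sr κ η y) = 0 := by
    intro a ha κ' j m hm
    have e1 := Q.sr_comm κ' (Q.φ.z j) ha.1 (adj_mem hm)
    rw [ContinuousLinearMap.adjoint_adjoint] at e1
    rw [← e1]
    exact h1 a ha _ j
  have h3 : ∀ a ∈ Q.φ.N, ∀ κ' η' : H, θ (Q.sr κ' η' a ∘L Q.sr κ η y) = 0 := by
    intro a ha κ' η'
    obtain ⟨C, hC⟩ := hθ'.bound
    have hadd : ∀ η₁ η₂ : H, Q.sr κ' (η₁ + η₂) a = Q.sr κ' η₁ a + Q.sr κ' η₂ a := by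
      intro η₁ η₂
      refine ContinuousLinearMap.ext fun ξ => ?_
      rw [ContinuousLinearMap.add_apply, sr_apply, sr_apply, sr_apply, tmul_add, map_add, map_add]
    have hsmul : ∀ (c : ℂ) (η₁ : H), Q.sr κ' (c • η₁) a = c • Q.sr κ' η₁ a := by
      intro c η₁
      refine ContinuousLinearMap.ext fun ξ => ?_
      rw [ContinuousLinearMap.smul_apply, sr_apply, sr_apply, tmul_smul, map_smul, map_smul]
    let f : H →ₗ[ℂ] ℂ :=
      { toFun := fun η₁ => θ (Q.sr κ' η₁ a ∘L Q.sr κ η y)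
        map_add' := by
          intro η₁ η₂
          rw [hadd]
          exact hθ'.map_add _ _
        map_smul' := by
          intro c η₁
          rw [hsmul]
          exact hθ'.map_smul c _ }
    let F : H →L[ℂ] ℂ := f.mkContinuous (|C| * (‖κ'‖ * ‖Q.Δ a‖)) (by
      intro η₁
      have e1 := hC (Q.sr κ' η₁ a)
      have e2 : ‖Q.sr κ' η₁ a‖ ≤ ‖κ'‖ * ‖Q.Δ a‖ * ‖η₁‖ := norm_sliceR_le κ' η₁ (Q.Δ a)
      calc ‖θ (Q.sr κ' η₁ a ∘L Q.sr κ η y)‖ ≤ C * ‖Q.sr κ' η₁ a‖ := e1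
        _ ≤ |C| * ‖Q.sr κ' η₁ a‖ := by
          exact mul_le_mul_of_nonneg_right (le_abs_self C) (norm_nonneg _)
        _ ≤ |C| * (‖κ'‖ * ‖Q.Δ a‖ * ‖η₁‖) := by
          exact mul_le_mul_of_nonneg_left e2 (abs_nonneg C)
        _ = |C| * (‖κ'‖ * ‖Q.Δ a‖) * ‖η₁‖ := by ring)
    have hF : F = 0 := by
      refine ContinuousLinearMap.ext_on Q.φ.total_H ?_
      rintro _ ⟨m, hm, i, rfl⟩
      exact h2 a ha κ' i m hm
    have e3 : F η' = 0 := by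
      rw [hF, ContinuousLinearMap.zero_apply]
    exact e3
  obtain ⟨K, l, hl, e, he, -, he', het⟩ := Q.φ.exists_net
  have h4 := Q.sr_tendsto hθ' (l := l) (fun k => x ∘L e k)
    (fun k => (Q.φ.mul_mem hx (he k)).1) x hx ‖x‖
    (fun k => ContinuousLinearMap.opNorm_le_bound _ (norm_nonneg x) fun v =>
      (x.le_opNorm _).trans (mul_le_mul_of_nonneg_left (he' k v) (norm_nonneg x)))
    (fun ξ => (x.continuous.tendsto ξ).comp (het ξ)) κ' η'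
  have h5 : (fun k => θ (Q.sr κ' η' (x ∘L e k) ∘L Q.sr κ η y)) = fun _ => 0 := by
    funext k
    exact h3 _ (Q.φ.mul_mem hx (he k)) κ' η'
  rw [h5] at h4
  exact tendsto_nhds_unique h4 tendsto_const_nhds

end QG

end Pool.Agent.VNQ
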