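import Pool.Agent.VNQ.Tens

/-!
# Von Neumann algebraic quantum groups and the two domains of the antipode

`VNQG H`: a von Neumann algebra `M` on `H` with a coproduct and left and right invariant normal
semifinite faithful weights `φ`, `ψ`, acting on the GNS space `H` of `ψ`. `D`, `KRel`, `DS` are the
sets and the relation of the problem.
-/

set_option autoImplicit false
set_option linter.unusedSectionVars false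

noncomputable section

open scoped TensorProduct InnerProductSpace InnerProduct ENNReal

namespace Pool.Agent.VNQ

universe u

variable {H : Type u} [NormedAddCommGroup H] [InnerProductSpace ℂ H] [CompleteSpace H]

/-- The von Neumann algebra tensor product of `M` with itself: the double commutant of the
operators `x ⊗ y` on the Hilbert space tensor product, `x, y ∈ M`. -/
def tensorVN (M : VonNeumannAlgebra H) : Set (HTen H H →L[ℂ] HTen H H) :=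
  Set.centralizer (Set.centralizer {T | ∃ x ∈ M, ∃ y ∈ M, T = mapT x y})

/-- The slice `(ω ⊗ ι)(X)`, `ω = ⟨ξ', · ξ⟩`: the operator with
`⟨η', (ω ⊗ ι)(X) η⟩ = ⟨ξ' ⊗ η', X (ξ ⊗ η)⟩`. -/
def sliceL (ξ' ξ : H) (X : HTen H H →L[ℂ] HTen H H) : H →L[ℂ] H := (lT ξ')† ∘L X ∘L lT ξ

/-- The slice `(ι ⊗ ω)(X)`, `ω = ⟨η', · η⟩`: the operator with
`⟨ξ', (ι ⊗ ω)(X) ξ⟩ = ⟨ξ' ⊗ η', X (ξ ⊗ η)⟩`. -/
def sliceR (η' η : H) (X : HTen H H →L[ℂ] HTen H H) : H →L[ℂ] H := (rT η')† ∘L X ∘L rT η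

/-- `N_w`, the set of all `a ∈ M` with `w (a* a) < ∞`, for a weight `w` on `M`. (A weight is given
by its values on the positive elements of `M`; the other values are irrelevant.) -/
def NL (M : VonNeumannAlgebra H) (w : (H →L[ℂ] H) → ℝ≥0∞) : Set (H →L[ℂ] H) :=
  {a | a ∈ M ∧ w (star a * a) < ∞}

/-- `w` is a normal semifinite faithful weight on `M`: normal = a sum of positive vector
functionals, faithful: `w (x* x) = 0` only for `x = 0`, semifinite: `N_w` is dense in `M` in the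
strong operator topology. -/
structure IsNSF (M : VonNeumannAlgebra H) (w : (H →L[ℂ] H) → ℝ≥0∞) : Prop where
  normal : ∃ (ι : Type u) (ζ : ι → H), ∀ x ∈ M, 0 ≤ x →
    w x = ∑' i, ENNReal.ofReal (RCLike.re ⟪ζ i, x (ζ i)⟫_ℂ)
  faithful : ∀ x ∈ M, w (star x * x) = 0 → x = 0
  semifinite : ∀ x ∈ M, ∀ (n : ℕ) (ξ : Fin n → H), ∀ ε > 0, ∃ a ∈ NL M w,
    ∀ k, ‖a (ξ k) - x (ξ k)‖ < ε

/-- A von Neumann algebraic quantum group `(M, Δ)`, acting on the GNS space `(H, Λ)` of its right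
invariant weight `ψ`. (Only the values of `Δ` on `M` and the values of `Λ` on `N_ψ` are used.) -/
structure VNQG (H : Type u) [NormedAddCommGroup H] [InnerProductSpace ℂ H] [CompleteSpace H] where
  /-- the von Neumann algebra -/
  M : VonNeumannAlgebra H
  /-- the coproduct, a unital normal coassociative `*`-homomorphism from `M` to `M ⊗ M` -/
  Δ : (H →L[ℂ] H) → (HTen H H →L[ℂ] HTen H H)
  map_mem : ∀ x ∈ M, Δ x ∈ tensorVN M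
  map_add : ∀ x ∈ M, ∀ y ∈ M, Δ (x + y) = Δ x + Δ y
  map_smul : ∀ c : ℂ, ∀ x ∈ M, Δ (c • x) = c • Δ x
  map_mul : ∀ x ∈ M, ∀ y ∈ M, Δ (x * y) = Δ x * Δ y
  map_star : ∀ x ∈ M, Δ (star x) = star (Δ x)
  map_one : Δ 1 = 1
  /-- `Δ` is normal: `x ↦ ⟨θ, Δ(x) θ⟩` is a normal functional for all `θ ∈ H ⊗ H` -/
  map_normal : ∀ θ : HTen H H, ∃ α : ℕ → H, Summable (fun n => ‖α n‖ ^ 2) ∧
    ∀ x ∈ M, HasSum (fun n => ⟪α n, x (α n)⟫_ℂ) ⟪θ, Δ x θ⟫_ℂ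
  /-- coassociativity, `(Δ ⊗ ι)(Δ(x)) = (ι ⊗ Δ)(Δ(x))`, as the equality of the values of
  `⟨α', · α⟩ ⊗ ⟨β', · β⟩ ⊗ ⟨η', · η⟩` on both sides -/
  coassoc : ∀ x ∈ M, ∀ α' α β' β η' η : H,
    ⟪tmul α' β', Δ (sliceR η' η (Δ x)) (tmul α β)⟫_ℂ = ⟪tmul β' η', Δ (sliceL α' α (Δ x)) (tmul β η)⟫_ℂ
  /-- the left invariant weight -/
  φ : (H →L[ℂ] H) → ℝ≥0∞
  φ_nsf : IsNSF M φ
  /-- `φ ((ω ⊗ ι)(Δ(x))) = ω(1) φ(x)` for `ω = ⟨ξ, · ξ⟩` -/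
  left_inv : ∀ x ∈ M, 0 ≤ x → φ x < ∞ → ∀ ξ : H,
    φ (sliceL ξ ξ (Δ x)) = ENNReal.ofReal (‖ξ‖ ^ 2) * φ x
  /-- the right invariant weight -/
  ψ : (H →L[ℂ] H) → ℝ≥0∞
  ψ_nsf : IsNSF M ψ
  /-- `ψ ((ι ⊗ ω)(Δ(x))) = ω(1) ψ(x)` for `ω = ⟨η, · η⟩` -/
  right_inv : ∀ x ∈ M, 0 ≤ x → ψ x < ∞ → ∀ η : H,
    ψ (sliceR η η (Δ x)) = ENNReal.ofReal (‖η‖ ^ 2) * ψ x
  /-- the GNS map of `ψ` -/
  Λ : (H →L[ℂ] H) → H
  Λ_add : ∀ a ∈ NL M ψ, ∀ b ∈ NL M ψ, Λ (a + b) = Λ a + Λ b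
  Λ_smul : ∀ c : ℂ, ∀ a ∈ NL M ψ, Λ (c • a) = c • Λ a
  Λ_norm : ∀ a ∈ NL M ψ, ENNReal.ofReal (‖Λ a‖ ^ 2) = ψ (star a * a)
  Λ_mul : ∀ x ∈ M, ∀ a ∈ NL M ψ, Λ (x * a) = x (Λ a)
  Λ_dense : Dense (Λ '' NL M ψ)

namespace VNQG

variable (Q : VNQG H)

/-- The pair `(x, x₁)` satisfies the condition in the definition of the set `𝒟`. -/
def DPair (x x₁ : H →L[ℂ] H) : Prop :=
  ∀ ε > 0, ∀ (n : ℕ) (ξ η : Fin n → H), ∃ (m : ℕ) (p q : Fin m → H →L[ℂ] H),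
    (∀ j, p j ∈ Q.M) ∧ (∀ j, q j ∈ Q.M) ∧ ∀ k,
      ‖tmul (x (ξ k)) (η k) - ∑ j, Q.Δ (p j) (tmul (ξ k) ((star (q j)) (η k)))‖ < ε ∧
      ‖tmul (x₁ (ξ k)) (η k) - ∑ j, Q.Δ (q j) (tmul (ξ k) ((star (p j)) (η k)))‖ < ε

/-- The set `𝒟`. -/
def D : Set (H →L[ℂ] H) := {x | x ∈ Q.M ∧ ∃ x₁ ∈ Q.M, Q.DPair x x₁}

/-- `V` is the isometry with `V (Λ(a) ⊗ Λ(b)) = (Λ ⊗ Λ)(Δ(a)(1 ⊗ b))`: for `a ∈ N_ψ` and
`η, η' ∈ H` one has `(ι ⊗ ⟨η', ·⟩) V (Λ(a) ⊗ η) = Λ((ι ⊗ ⟨η', · η⟩)(Δ(a)))`. -/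
structure IsV (V : HTen H H →L[ℂ] HTen H H) : Prop where
  isometry : ∀ θ, ‖V θ‖ = ‖θ‖
  slice : ∀ a ∈ NL Q.M Q.ψ, ∀ η' η : H,
    sliceR η' η (Q.Δ a) ∈ NL Q.M Q.ψ ∧
      ((rT η')†) (V (tmul (Q.Λ a) η)) = Q.Λ (sliceR η' η (Q.Δ a))

/-- `ξ ∈ 𝒟(K)` and `K ξ = ξ₁`. -/
def KRel (V : HTen H H →L[ℂ] HTen H H) (ξ ξ₁ : H) : Prop :=
  ∀ ε > 0, ∀ (n : ℕ) (η : Fin n → H), ∃ (m : ℕ) (p q : Fin m → H →L[ℂ] H),
    (∀ j, p j ∈ NL Q.M Q.ψ) ∧ (∀ j, q j ∈ NL Q.M Q.ψ) ∧ ∀ k,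
      ‖tmul ξ (η k) - V (∑ j, tmul (Q.Λ (p j)) ((star (q j)) (η k)))‖ < ε ∧
      ‖tmul ξ₁ (η k) - V (∑ j, tmul (Q.Λ (q j)) ((star (p j)) (η k)))‖ < ε

/-- The set `𝒟(S)`: all `x ∈ M` for which there is `y ∈ M` (written `S(x)*`) such that
`x ξ ∈ 𝒟(K)` and `K (x ξ) = y K ξ` for all `ξ ∈ 𝒟(K)`. -/
def DS (V : HTen H H →L[ℂ] HTen H H) : Set (H →L[ℂ] H) :=
  {x | x ∈ Q.M ∧ ∃ y ∈ Q.M, ∀ ξ ξ₁, Q.KRel V ξ ξ₁ → Q.KRel V (x ξ) (y ξ₁)}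

end VNQG

end Pool.Agent.VNQ
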