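import Pool.Agent.VNQ.Spec

/-!
# Von Neumann algebraic quantum groups on an arbitrary Hilbert space

`VNQGroup H K`: a von Neumann algebra `M` on `H` with a coproduct, left and right invariant normal
semifinite faithful weights `φ`, `ψ`, and the GNS construction `(K, Λ, π)` of `ψ`. `D` (vectors of
`H`), `KRel`, `DS` (vectors of `K`) are the sets and the relation of the problem.
`sliceL`, `sliceR`, `tensorVN`, `NL`, `IsNSF` are in the file `Spec`.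
-/

set_option autoImplicit false
set_option linter.unusedSectionVars false

noncomputable section

open scoped TensorProduct InnerProductSpace InnerProduct ENNReal

namespace Pool.Agent.VNQ

universe u

/-- A von Neumann algebraic quantum group `(M, Δ)`, `M` acting on the Hilbert space `H`, with the GNS
construction `(K, Λ, π)` of its right invariant weight `ψ`. (Only the values of `Δ` and `π` on `M` and
the values of `Λ` on `N_ψ` are used.) -/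
structure VNQGroup (H K : Type u) [NormedAddCommGroup H] [InnerProductSpace ℂ H] [CompleteSpace H]
    [NormedAddCommGroup K] [InnerProductSpace ℂ K] [CompleteSpace K] where
  /-- the von Neumann algebra -/
  M : VonNeumannAlgebra H
  /-- the coproduct, a unital normal coassociative `*`-homomorphism from `M` to `M ⊗ M` -/
  Δ : (H →L[ℂ] H) → (HTen H H →L[ℂ] HTen H H)
  map_mem : ∀ x ∈ M, Δ x ∈ tensorVN M
  map_add : ∀ x ∈ M, ∀ y ∈ M, Δ (x + y) = Δ x + Δ y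
  map_smul : ∀ c : ℂ, ∀ x ∈ M, Δ (c • x) = c • Δ x
  map_mul : ∀ x ∈ M, ∀ y ∈ M, Δ (x * y) = Δ x * Δ y
  map_star : ∀ x ∈ M, Δ (star x) = star (Δ x)
  map_one : Δ 1 = 1
  /-- `Δ` is normal: `x ↦ ⟨θ, Δ(x) θ⟩` is a normal functional for all `θ ∈ H ⊗ H` -/
  map_normal : ∀ θ : HTen H H, ∃ α : ℕ → H, Summable (fun n => ‖α n‖ ^ 2) ∧
    ∀ x ∈ M, HasSum (fun n => ⟪α n, x (α n)⟫_ℂ) ⟪θ, Δ x θ⟫_ℂ
  /-- coassociativity, `(Δ ⊗ ι)(Δ(x)) = (ι ⊗ Δ)(Δ(x))`, as the equality of the values of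
  `⟨α', · α⟩ ⊗ ⟨β', · β⟩ ⊗ ⟨η', · η⟩` on both sides -/
  coassoc : ∀ x ∈ M, ∀ α' α β' β η' η : H,
    ⟪tmul α' β', Δ (sliceR η' η (Δ x)) (tmul α β)⟫_ℂ =
      ⟪tmul β' η', Δ (sliceL α' α (Δ x)) (tmul β η)⟫_ℂ
  /-- the left invariant weight -/
  φ : (H →L[ℂ] H) → ℝ≥0∞
  φ_nsf : IsNSF M φ
  /-- `φ ((ω ⊗ ι)(Δ(x))) = ω(1) φ(x)` for `ω = ⟨ξ, · ξ⟩` -/
  left_inv : ∀ x ∈ M, 0 ≤ x → φ x < ∞ → ∀ ξ : H,
    φ (sliceL ξ ξ (Δ x)) = ENNReal.ofReal (‖ξ‖ ^ 2) * φ x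
  /-- the right invariant weight -/
  ψ : (H →L[ℂ] H) → ℝ≥0∞
  ψ_nsf : IsNSF M ψ
  /-- `ψ ((ι ⊗ ω)(Δ(x))) = ω(1) ψ(x)` for `ω = ⟨η, · η⟩` -/
  right_inv : ∀ x ∈ M, 0 ≤ x → ψ x < ∞ → ∀ η : H,
    ψ (sliceR η η (Δ x)) = ENNReal.ofReal (‖η‖ ^ 2) * ψ x
  /-- the GNS map of `ψ` -/
  Λ : (H →L[ℂ] H) → K
  Λ_add : ∀ a ∈ NL M ψ, ∀ b ∈ NL M ψ, Λ (a + b) = Λ a + Λ b
  Λ_smul : ∀ c : ℂ, ∀ a ∈ NL M ψ, Λ (c • a) = c • Λ a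
  Λ_norm : ∀ a ∈ NL M ψ, ENNReal.ofReal (‖Λ a‖ ^ 2) = ψ (star a * a)
  Λ_dense : Dense (Λ '' NL M ψ)
  /-- the GNS representation of `ψ` -/
  π : (H →L[ℂ] H) → (K →L[ℂ] K)
  π_Λ : ∀ x ∈ M, ∀ a ∈ NL M ψ, π x (Λ a) = Λ (x * a)

namespace VNQGroup

variable {H K : Type u} [NormedAddCommGroup H] [InnerProductSpace ℂ H] [CompleteSpace H]
  [NormedAddCommGroup K] [InnerProductSpace ℂ K] [CompleteSpace K] (Q : VNQGroup H K)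

/-- The pair `(x, x₁)` satisfies the condition in the definition of the set `𝒟`. -/
def DPair (x x₁ : H →L[ℂ] H) : Prop :=
  ∀ ε > 0, ∀ (n : ℕ) (ξ η : Fin n → H), ∃ (m : ℕ) (p q : Fin m → H →L[ℂ] H),
    (∀ j, p j ∈ Q.M) ∧ (∀ j, q j ∈ Q.M) ∧ ∀ k,
      ‖tmul (x (ξ k)) (η k) - ∑ j, Q.Δ (p j) (tmul (ξ k) ((star (q j)) (η k)))‖ < ε ∧
      ‖tmul (x₁ (ξ k)) (η k) - ∑ j, Q.Δ (q j) (tmul (ξ k) ((star (p j)) (η k)))‖ < ε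

/-- The set `𝒟`. -/
def D : Set (H →L[ℂ] H) := {x | x ∈ Q.M ∧ ∃ x₁ ∈ Q.M, Q.DPair x x₁}

/-- `T` intertwines the GNS representation and the given action of `M` on `H`. -/
def Intertwines (T : K →L[ℂ] H) : Prop := ∀ m ∈ Q.M, T ∘L Q.π m = m ∘L T

/-- `V` is the isometry with `V (Λ(a) ⊗ Λ(b)) = (Λ ⊗ Λ)(Δ(a)(1 ⊗ b))`: for `a ∈ N_ψ`, `η ∈ K` and
`η' = T* κ`, where `T` is an intertwiner and `κ ∈ H`, one has
`(ι ⊗ ⟨η', ·⟩) V (Λ(a) ⊗ η) = Λ((ι ⊗ ω)(Δ(a)))` for `ω(m) = ⟨η', π(m) η⟩ = ⟨κ, m T η⟩`. -/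
structure IsV (V : HTen K K →L[ℂ] HTen K K) : Prop where
  isometry : ∀ θ, ‖V θ‖ = ‖θ‖
  slice : ∀ T : K →L[ℂ] H, Q.Intertwines T → ∀ a ∈ NL Q.M Q.ψ, ∀ (κ : H) (η : K),
    sliceR κ (T η) (Q.Δ a) ∈ NL Q.M Q.ψ ∧
      ((rT ((T†) κ))†) (V (tmul (Q.Λ a) η)) = Q.Λ (sliceR κ (T η) (Q.Δ a))

/-- `ξ ∈ 𝒟(K)` and `K ξ = ξ₁`. -/
def KRel (V : HTen K K →L[ℂ] HTen K K) (ξ ξ₁ : K) : Prop :=
  ∀ ε > 0, ∀ (n : ℕ) (η : Fin n → K), ∃ (m : ℕ) (p q : Fin m → H →L[ℂ] H),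
    (∀ j, p j ∈ NL Q.M Q.ψ) ∧ (∀ j, q j ∈ NL Q.M Q.ψ) ∧ ∀ k,
      ‖tmul ξ (η k) - V (∑ j, tmul (Q.Λ (p j)) (Q.π (star (q j)) (η k)))‖ < ε ∧
      ‖tmul ξ₁ (η k) - V (∑ j, tmul (Q.Λ (q j)) (Q.π (star (p j)) (η k)))‖ < ε

/-- The set `𝒟(S)`: all `x ∈ M` for which there is `y ∈ M` (written `S(x)*`) such that
`x ξ ∈ 𝒟(K)` and `K (x ξ) = y K ξ` for all `ξ ∈ 𝒟(K)`, `M` acting on `K` by `π`. -/
def DS (V : HTen K K →L[ℂ] HTen K K) : Set (H →L[ℂ] H) :=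
  {x | x ∈ Q.M ∧ ∃ y ∈ Q.M, ∀ ξ ξ₁, Q.KRel V ξ ξ₁ → Q.KRel V (Q.π x ξ) (Q.π y ξ₁)}

/-- Every vector functional of the GNS representation is dominated by a finite sum of vector
functionals of the given action of `M` on `H` (trivially true if `H` is the GNS space of `ψ`). -/
def VectorFunctionals : Prop := ∀ ξ : K, ∃ (n : ℕ) (κ : Fin n → H),
  ∀ m ∈ Q.M, ‖Q.π m ξ‖ ^ 2 ≤ ∑ k, ‖m (κ k)‖ ^ 2

end VNQGroup

end Pool.Agent.VNQ
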