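import Mathlib

/-!
# Von Neumann algebraic quantum groups

`QuantumGroup H K T`: a von Neumann algebra `M` on `H` with a coproduct, left and right invariant
normal semifinite faithful weights `φ`, `ψ`, and the GNS construction `(K, Λ, π)` of `ψ`; the
Hilbert space `T` is `H ⊗ H`. `D` (operators on `H`), `KRel` and `DS` are the sets and the relation
of the problem; the Hilbert space `S` is `K ⊗ K`.
-/

set_option autoImplicit false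
set_option linter.unusedSectionVars false

noncomputable section

open scoped InnerProductSpace InnerProduct ENNReal

namespace Pool.Agent.VNQ

universe u

section

variable {H T : Type u} [NormedAddCommGroup H] [InnerProductSpace ℂ H] [CompleteSpace H]
  [NormedAddCommGroup T] [InnerProductSpace ℂ T] [CompleteSpace T]

/-- `T`, with the elementary tensors `t ξ η`, is the Hilbert space tensor product of `H` with
itself. -/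
structure IsTensor (t : H → H → T) : Prop where
  inner_tensor : ∀ ξ η ξ' η' : H, ⟪t ξ η, t ξ' η'⟫_ℂ = ⟪ξ, ξ'⟫_ℂ * ⟪η, η'⟫_ℂ
  dense_span : Dense (Submodule.span ℂ {θ : T | ∃ ξ η, θ = t ξ η} : Set T)

/-- The von Neumann algebra tensor product of `M` with itself: the double commutant of the
operators `x ⊗ y`, `x, y ∈ M`. -/
def TensorVN (t : H → H → T) (M : VonNeumannAlgebra H) : Set (T →L[ℂ] T) :=
  Set.centralizer (Set.centralizer {X | ∃ x ∈ M, ∃ y ∈ M, ∀ ξ η, X (t ξ η) = t (x ξ) (y η)})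

/-- `s = (ω ⊗ ι)(X)` for the functional `ω = ⟨ξ', · ξ⟩`. -/
def SliceL (t : H → H → T) (ξ' ξ : H) (X : T →L[ℂ] T) (s : H →L[ℂ] H) : Prop :=
  ∀ η' η, ⟪η', s η⟫_ℂ = ⟪t ξ' η', X (t ξ η)⟫_ℂ

/-- `s = (ι ⊗ ω)(X)` for the functional `ω = ⟨η', · η⟩`. -/
def SliceR (t : H → H → T) (η' η : H) (X : T →L[ℂ] T) (s : H →L[ℂ] H) : Prop :=
  ∀ ξ' ξ, ⟪ξ', s ξ⟫_ℂ = ⟪t ξ' η', X (t ξ η)⟫_ℂ

/-- `N_w`, the set of all `a ∈ M` with `w (a* a) < ∞`, for a weight `w` on `M`. (A weight is given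
by its values on the positive elements of `M`; the other values are irrelevant.) -/
def Nw (M : VonNeumannAlgebra H) (w : (H →L[ℂ] H) → ℝ≥0∞) : Set (H →L[ℂ] H) :=
  {a | a ∈ M ∧ w (star a * a) < ∞}

/-- `w` is a normal semifinite faithful weight on `M`: normal = a sum of positive vector
functionals, faithful: `w (x* x) = 0` only for `x = 0`, semifinite: `N_w` is dense in `M` in the
strong operator topology. -/
structure IsNsfWeight (M : VonNeumannAlgebra H) (w : (H →L[ℂ] H) → ℝ≥0∞) : Prop where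
  normal : ∃ (ι : Type u) (ζ : ι → H), ∀ x ∈ M, 0 ≤ x →
    w x = ∑' i, ENNReal.ofReal (RCLike.re ⟪ζ i, x (ζ i)⟫_ℂ)
  faithful : ∀ x ∈ M, w (star x * x) = 0 → x = 0
  semifinite : ∀ x ∈ M, ∀ (n : ℕ) (ξ : Fin n → H), ∀ ε > 0, ∃ a ∈ Nw M w,
    ∀ k, ‖a (ξ k) - x (ξ k)‖ < ε

/-- `Δ` is a unital normal coassociative `*`-homomorphism from `M` to `M ⊗ M`. -/
structure IsCoproduct (t : H → H → T) (M : VonNeumannAlgebra H)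
    (Δ : (H →L[ℂ] H) → (T →L[ℂ] T)) : Prop where
  map_mem : ∀ x ∈ M, Δ x ∈ TensorVN t M
  map_add : ∀ x ∈ M, ∀ y ∈ M, Δ (x + y) = Δ x + Δ y
  map_smul : ∀ c : ℂ, ∀ x ∈ M, Δ (c • x) = c • Δ x
  map_mul : ∀ x ∈ M, ∀ y ∈ M, Δ (x * y) = Δ x * Δ y
  map_star : ∀ x ∈ M, Δ (star x) = star (Δ x)
  map_one : Δ 1 = 1
  /-- `Δ` is normal: `x ↦ ⟨θ, Δ(x) θ⟩` is a normal functional for all `θ ∈ H ⊗ H` -/
  map_normal : ∀ θ : T, ∃ α : ℕ → H, Summable (fun n => ‖α n‖ ^ 2) ∧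
    ∀ x ∈ M, HasSum (fun n => ⟪α n, x (α n)⟫_ℂ) ⟪θ, Δ x θ⟫_ℂ
  /-- coassociativity, `(Δ ⊗ ι)(Δ(x)) = (ι ⊗ Δ)(Δ(x))`, as the equality of the values of
  `⟨α', · α⟩ ⊗ ⟨β', · β⟩ ⊗ ⟨η', · η⟩` on both sides -/
  coassoc : ∀ x ∈ M, ∀ (α' α β' β η' η : H) (r l : H →L[ℂ] H), SliceR t η' η (Δ x) r →
    SliceL t α' α (Δ x) l → ⟪t α' β', Δ r (t α β)⟫_ℂ = ⟪t β' η', Δ l (t β η)⟫_ℂ

/-- `φ ((ω ⊗ ι)(Δ(x))) = ω(1) φ(x)` for `0 ≤ x ∈ M`, `φ(x) < ∞`, `ω = ⟨ξ, · ξ⟩`. -/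
def LeftInvariant (t : H → H → T) (M : VonNeumannAlgebra H) (Δ : (H →L[ℂ] H) → (T →L[ℂ] T))
    (φ : (H →L[ℂ] H) → ℝ≥0∞) : Prop :=
  ∀ x ∈ M, 0 ≤ x → φ x < ∞ → ∀ (ξ : H) (s : H →L[ℂ] H), SliceL t ξ ξ (Δ x) s →
    φ s = ENNReal.ofReal (‖ξ‖ ^ 2) * φ x

/-- `ψ ((ι ⊗ ω)(Δ(x))) = ω(1) ψ(x)` for `0 ≤ x ∈ M`, `ψ(x) < ∞`, `ω = ⟨η, · η⟩`. -/
def RightInvariant (t : H → H → T) (M : VonNeumannAlgebra H) (Δ : (H →L[ℂ] H) → (T →L[ℂ] T))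
    (ψ : (H →L[ℂ] H) → ℝ≥0∞) : Prop :=
  ∀ x ∈ M, 0 ≤ x → ψ x < ∞ → ∀ (η : H) (s : H →L[ℂ] H), SliceR t η η (Δ x) s →
    ψ s = ENNReal.ofReal (‖η‖ ^ 2) * ψ x

end

variable {H K T S : Type u} [NormedAddCommGroup H] [InnerProductSpace ℂ H] [CompleteSpace H]
  [NormedAddCommGroup K] [InnerProductSpace ℂ K] [CompleteSpace K]
  [NormedAddCommGroup T] [InnerProductSpace ℂ T] [CompleteSpace T]
  [NormedAddCommGroup S] [InnerProductSpace ℂ S] [CompleteSpace S]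

/-- `(K, Λ, π)` is the GNS construction of the weight `ψ` on `M`. -/
structure IsGNS (M : VonNeumannAlgebra H) (ψ : (H →L[ℂ] H) → ℝ≥0∞) (Λ : (H →L[ℂ] H) → K)
    (π : (H →L[ℂ] H) → (K →L[ℂ] K)) : Prop where
  Λ_add : ∀ a ∈ Nw M ψ, ∀ b ∈ Nw M ψ, Λ (a + b) = Λ a + Λ b
  Λ_smul : ∀ c : ℂ, ∀ a ∈ Nw M ψ, Λ (c • a) = c • Λ a
  Λ_norm : ∀ a ∈ Nw M ψ, ENNReal.ofReal (‖Λ a‖ ^ 2) = ψ (star a * a)
  Λ_dense : Dense (Λ '' Nw M ψ)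
  π_Λ : ∀ x ∈ M, ∀ a ∈ Nw M ψ, π x (Λ a) = Λ (x * a)

/-- A von Neumann algebraic quantum group `(M, Δ)`, `M` acting on the Hilbert space `H`, `T = H ⊗ H`,
with the GNS construction `(K, Λ, π)` of its right invariant weight `ψ`. -/
structure QuantumGroup (H K T : Type u) [NormedAddCommGroup H] [InnerProductSpace ℂ H]
    [CompleteSpace H] [NormedAddCommGroup K] [InnerProductSpace ℂ K] [CompleteSpace K]
    [NormedAddCommGroup T] [InnerProductSpace ℂ T] [CompleteSpace T] where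
  /-- the elementary tensors in `T = H ⊗ H` -/
  t : H → H → T
  isTensor : IsTensor t
  /-- the von Neumann algebra -/
  M : VonNeumannAlgebra H
  /-- the coproduct -/
  Δ : (H →L[ℂ] H) → (T →L[ℂ] T)
  isCoproduct : IsCoproduct t M Δ
  /-- the left invariant weight -/
  φ : (H →L[ℂ] H) → ℝ≥0∞
  φ_nsf : IsNsfWeight M φ
  left_inv : LeftInvariant t M Δ φ
  /-- the right invariant weight -/
  ψ : (H →L[ℂ] H) → ℝ≥0∞
  ψ_nsf : IsNsfWeight M ψ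
  right_inv : RightInvariant t M Δ ψ
  /-- the GNS map of `ψ` -/
  Λ : (H →L[ℂ] H) → K
  /-- the GNS representation of `ψ` -/
  π : (H →L[ℂ] H) → (K →L[ℂ] K)
  isGNS : IsGNS M ψ Λ π

namespace QuantumGroup

variable (Q : QuantumGroup H K T)

/-- The pair `(x, x₁)` satisfies the condition in the definition of the set `𝒟`. -/
def DPair (x x₁ : H →L[ℂ] H) : Prop :=
  ∀ ε > 0, ∀ (n : ℕ) (ξ η : Fin n → H), ∃ (m : ℕ) (p q : Fin m → H →L[ℂ] H),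
    (∀ j, p j ∈ Q.M) ∧ (∀ j, q j ∈ Q.M) ∧ ∀ k,
      ‖Q.t (x (ξ k)) (η k) - ∑ j, Q.Δ (p j) (Q.t (ξ k) ((star (q j)) (η k)))‖ < ε ∧
      ‖Q.t (x₁ (ξ k)) (η k) - ∑ j, Q.Δ (q j) (Q.t (ξ k) ((star (p j)) (η k)))‖ < ε

/-- The set `𝒟`. -/
def D : Set (H →L[ℂ] H) := {x | x ∈ Q.M ∧ ∃ x₁ ∈ Q.M, Q.DPair x x₁}

/-- `A` intertwines the GNS representation and the given action of `M` on `H`. -/
def Intertwines (A : K →L[ℂ] H) : Prop := ∀ m ∈ Q.M, ∀ g, A (Q.π m g) = m (A g)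

/-- `V` is the isometry of `S = K ⊗ K` (elementary tensors `s g g'`) with
`V (Λ(a) ⊗ Λ(b)) = (Λ ⊗ Λ)(Δ(a)(1 ⊗ b))`: for `a ∈ N_ψ`, `g ∈ K` and `g' = A* κ`, where `A` is an
intertwiner and `κ ∈ H`, one has `(ι ⊗ ⟨g', ·⟩) V (Λ(a) ⊗ g) = Λ((ι ⊗ ω)(Δ(a)))` for the functional
`ω(m) = ⟨g', π(m) g⟩ = ⟨κ, m A g⟩` on `M`. -/
structure IsV (s : K → K → S) (V : S →L[ℂ] S) : Prop where
  isometry : ∀ θ, ‖V θ‖ = ‖θ‖
  slice : ∀ A : K →L[ℂ] H, Q.Intertwines A → ∀ a ∈ Nw Q.M Q.ψ, ∀ (κ : H) (g : K)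
    (r : H →L[ℂ] H), SliceR Q.t κ (A g) (Q.Δ a) r → r ∈ Nw Q.M Q.ψ ∧
      ∀ f : K, ⟪s f ((A†) κ), V (s (Q.Λ a) g)⟫_ℂ = ⟪f, Q.Λ r⟫_ℂ

/-- `ξ ∈ 𝒟(K)` and `K ξ = ξ₁`. -/
def KRel (s : K → K → S) (V : S →L[ℂ] S) (ξ ξ₁ : K) : Prop :=
  ∀ ε > 0, ∀ (n : ℕ) (η : Fin n → K), ∃ (m : ℕ) (p q : Fin m → H →L[ℂ] H),
    (∀ j, p j ∈ Nw Q.M Q.ψ) ∧ (∀ j, q j ∈ Nw Q.M Q.ψ) ∧ ∀ k,
      ‖s ξ (η k) - V (∑ j, s (Q.Λ (p j)) (Q.π (star (q j)) (η k)))‖ < ε ∧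
      ‖s ξ₁ (η k) - V (∑ j, s (Q.Λ (q j)) (Q.π (star (p j)) (η k)))‖ < ε

/-- The set `𝒟(S)`: all `x ∈ M` for which there is `y ∈ M` (written `S(x)*`) such that
`x ξ ∈ 𝒟(K)` and `K (x ξ) = y K ξ` for all `ξ ∈ 𝒟(K)`, `M` acting on `K` by `π`. -/
def DS (s : K → K → S) (V : S →L[ℂ] S) : Set (H →L[ℂ] H) :=
  {x | x ∈ Q.M ∧ ∃ y ∈ Q.M, ∀ ξ ξ₁, Q.KRel s V ξ ξ₁ → Q.KRel s V (Q.π x ξ) (Q.π y ξ₁)}

/-- Every vector functional of the GNS representation is dominated by a finite sum of vector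
functionals of the given action of `M` on `H` (trivially true if `H` is the GNS space of `ψ`). -/
def VectorFunctionals : Prop := ∀ ξ : K, ∃ (n : ℕ) (κ : Fin n → H),
  ∀ m ∈ Q.M, ‖Q.π m ξ‖ ^ 2 ≤ ∑ k, ‖m (κ k)‖ ^ 2

end QuantumGroup

end Pool.Agent.VNQ
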