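import Pool.Agent.VNQ.Inv

/-!
# The relation (DS) on the ranges of the cut-off operators

Let `x, y ∈ B(E)` with (DS): `⟪y (C ξ), γ - A γ⟫ = ⟪C γ, x (A ξ)⟫` for all `ξ, γ`. Then for all `m`
and all `γ, γ'` (`B = md.B m`, `X = md.X m`):
`⟪y (X γ'), X γ⟫ = ⟪exp(B/2) X J γ, x (exp(-B/2) X J γ')⟫`.

Proof. Put `r(s) = chi m s / √(s (1 - s))`, `c(s) = chi m s / (1 - s)` (continuous:
`continuous_chi_div_sqrt`, `continuous_chi_div_one_sub`; on `[0,1]`), `R = md.R`. Use (DS) with
`ξ := J (r(A) γ')` and `γ := c(A) γ`: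
* `C ξ = R (J ξ) = R (r(A) γ') = X γ'` (`R_J`, i.e. `R (J x) = C x`, with `x = ξ`, `J_J`; `F_mul`,
  `F_congr`: `√(s(1-s)) r(s) = chi m s` on `[0,1]`; where `s (1-s) = 0`, `chi m s = 0`).
* `c(A) γ - A c(A) γ = X γ` (`F_one_sub`, `F_mul`, `F_congr`).
* `C (c(A) γ) = J (R (c(A) γ)) = J (exp(-B/2) X γ)` (`J_R`; `√(s(1-s)) chi/(1-s) = chi exp(-ell/2)`,
  since `exp(-(log(1-s) - log s)/2) = √(s/(1-s))` where `chi ≠ 0`, `ell_of_chi_ne_zero`,
  `chi_ne_zero`; `F_exp`, `F_smul`) `= exp(B/2) X J γ` (`exp_semi`, `J B = - B J`,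
  `J X = X J` by `J_F`, `ell_symm`, `chi_symm`).
* `A ξ = A J (r(A) γ') = J ((1 - A) r(A) γ')` (`J_A`) `= J (exp(B/2) X γ') = exp(-B/2) X J γ'`
  (`(1-s) chi/√(s(1-s)) = chi √((1-s)/s) = chi exp(ell/2)`).
-/

set_option autoImplicit false

noncomputable section

open scoped InnerProductSpace InnerProduct
open Filter

namespace Pool.Agent.VNQ

universe u

variable {E : Type u} [NormedAddCommGroup E] [InnerProductSpace ℂ E] [CompleteSpace E]

namespace MD

variable (md : MD E)

private theorem sq_facts {s : ℝ} (h0 : 0 < s) (h1 : 0 < 1 - s) :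
    ∃ a b : ℝ, 0 < a ∧ 0 < b ∧ s = a ^ 2 ∧ 1 - s = b ^ 2 :=
  ⟨√s, √(1 - s), Real.sqrt_pos.2 h0, Real.sqrt_pos.2 h1, (Real.sq_sqrt h0.le).symm,
    (Real.sq_sqrt h1.le).symm⟩

private theorem exp_half_ell {m : ℕ} {s : ℝ} (h : chi m s ≠ 0) {a b : ℝ} (ha : 0 < a)
    (hb : 0 < b) (hsa : s = a ^ 2) (hsb : 1 - s = b ^ 2) :
    Real.exp ((1 / 2) * ell m s) = b / a ∧ Real.exp ((-1 / 2) * ell m s) = a / b := by
  have e1 : ell m s = 2 * (Real.log b - Real.log a) := by
    rw [ell_of_chi_ne_zero le_rfl h, hsb, hsa, Real.log_pow, Real.log_pow]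
    push_cast
    ring
  constructor
  · rw [e1, show (1 / 2 : ℝ) * (2 * (Real.log b - Real.log a)) = Real.log b - Real.log a by ring,
      Real.exp_sub, Real.exp_log hb, Real.exp_log ha]
  · rw [e1, show (-1 / 2 : ℝ) * (2 * (Real.log b - Real.log a)) = Real.log a - Real.log b by ring,
      Real.exp_sub, Real.exp_log hb, Real.exp_log ha]

private theorem pos_of_chi {m : ℕ} {s : ℝ} (h : chi m s ≠ 0) : 0 < s ∧ 0 < 1 - s := by
  have h1 := chi_ne_zero h
  have h2 : (0 : ℝ) < 1 / ((m : ℝ) + 2) := by positivity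
  exact ⟨h2.trans h1.1, h2.trans h1.2⟩

private theorem scal1 (m : ℕ) (s : ℝ) :
    √(s * (1 - s)) * (chi m s / √(s * (1 - s))) = chi m s := by
  by_cases h : chi m s = 0
  · rw [h]
    simp
  · have h1 := pos_of_chi h
    have h2 : √(s * (1 - s)) ≠ 0 := (Real.sqrt_pos.2 (mul_pos h1.1 h1.2)).ne'
    field_simp

private theorem scal2 (m : ℕ) (s : ℝ) : (1 - s) * (chi m s / (1 - s)) = chi m s := by
  by_cases h : chi m s = 0
  · rw [h]
    simp
  · have h1 := pos_of_chi h
    have h2 : 1 - s ≠ 0 := h1.2.ne'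
    field_simp

private theorem scal3 (m : ℕ) (s : ℝ) :
    √((1 - s) * (1 - (1 - s))) * (chi m (1 - s) / (1 - (1 - s))) =
      Real.exp ((1 / 2) * ell m s) * chi m s := by
  rw [chi_symm, sub_sub_cancel]
  by_cases h : chi m s = 0
  · rw [h]
    simp
  · have h1 := pos_of_chi h
    obtain ⟨a, b, ha, hb, hsa, hsb⟩ := sq_facts h1.1 h1.2
    rw [(exp_half_ell h ha hb hsa hsb).1, hsb, hsa]
    have e : √(b ^ 2 * a ^ 2) = b * a := by
      rw [← mul_pow, Real.sqrt_sq (mul_pos hb ha).le]
    rw [e]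
    field_simp

private theorem scal4 (m : ℕ) (s : ℝ) :
    s * (chi m (1 - s) / √((1 - s) * (1 - (1 - s)))) =
      Real.exp ((-1 / 2) * ell m s) * chi m s := by
  rw [chi_symm, sub_sub_cancel]
  by_cases h : chi m s = 0
  · rw [h]
    simp
  · have h1 := pos_of_chi h
    obtain ⟨a, b, ha, hb, hsa, hsb⟩ := sq_facts h1.1 h1.2
    rw [(exp_half_ell h ha hb hsa hsb).2, hsb, hsa]
    have e : √(b ^ 2 * a ^ 2) = b * a := by
      rw [← mul_pow, Real.sqrt_sq (mul_pos hb ha).le]
    rw [e]
    field_simp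

private theorem flip_cont {f : ℝ → ℝ} (hf : Continuous f) : Continuous fun s => f (1 - s) :=
  hf.comp (continuous_const.sub continuous_id)

private theorem F_exp_X (m : ℕ) (c : ℝ) (x : E) :
    md.F (fun s => Real.exp (c * ell m s) * chi m s) x =
      NormedSpace.exp ((c : ℂ) • md.B m) (md.X m x) := by
  have hc : Continuous fun s => c * ell m s := continuous_const.mul (continuous_ell m)
  rw [md.F_mul (f := fun s => Real.exp (c * ell m s)) (g := chi m)
    (Real.continuous_exp.comp hc).continuousOn (continuous_chi m).continuousOn,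
    md.F_exp (f := fun s => c * ell m s) hc.continuousOn,
    md.F_smul (continuous_ell m).continuousOn c]
  rfl

theorem J_B (m : ℕ) (x : E) : md.J (md.B m x) = -md.B m (md.J x) := by
  have h := md.J_F (continuous_ell m).continuousOn md.J md.J_A x
  have h2 : (fun s => ell m (1 - s)) = fun s => (-1 : ℝ) * ell m s := by
    funext s
    rw [ell_symm]
    ring
  rw [h2, md.F_smul (continuous_ell m).continuousOn (-1)] at h
  rw [B, h]
  simp

theorem J_X (m : ℕ) (x : E) : md.J (md.X m x) = md.X m (md.J x) := by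
  have h := md.J_F (continuous_chi m).continuousOn md.J md.J_A x
  have h2 : (fun s => chi m (1 - s)) = chi m := by
    funext s
    exact chi_symm m s
  rw [h2] at h
  exact h

theorem starA (x y : E →L[ℂ] E)
    (h : ∀ ξ γ, ⟪y (md.C ξ), γ - md.A γ⟫_ℂ = ⟪md.C γ, x (md.A ξ)⟫_ℂ) (m : ℕ) (γ γ' : E) :
    ⟪y (md.X m γ'), md.X m γ⟫_ℂ =
      ⟪NormedSpace.exp ((1 / 2 : ℂ) • md.B m) (md.X m (md.J γ)),
        x (NormedSpace.exp ((-1 / 2 : ℂ) • md.B m) (md.X m (md.J γ')))⟫_ℂ := by
  have hs : Continuous fun s : ℝ => √(s * (1 - s)) :=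
    Real.continuous_sqrt.comp (continuous_id.mul (continuous_const.sub continuous_id))
  have hr := continuous_chi_div_sqrt m
  have hc := continuous_chi_div_one_sub m
  -- the elements
  have e1 : md.C (md.J (md.F (fun s => chi m s / √(s * (1 - s))) γ')) = md.X m γ' := by
    rw [← md.R_J, md.J_J, R]
    have h1 := md.F_mul (f := fun s => √(s * (1 - s)))
      (g := fun s => chi m s / √(s * (1 - s))) hs.continuousOn hr.continuousOn
    have h2 : (fun s => √(s * (1 - s)) * (chi m s / √(s * (1 - s)))) = chi m := by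
      funext s
      exact scal1 m s
    rw [h2] at h1
    rw [X, h1]
    rfl
  have e2 : md.F (fun s => chi m s / (1 - s)) γ -
      md.A (md.F (fun s => chi m s / (1 - s)) γ) = md.X m γ := by
    have h1 := md.F_mul (f := fun s => 1 - s) (g := fun s => chi m s / (1 - s))
      (continuous_const.sub continuous_id).continuousOn hc.continuousOn
    have h2 : (fun s => (1 - s) * (chi m s / (1 - s))) = chi m := by
      funext s
      exact scal2 m s
    rw [h2, md.F_one_sub] at h1
    rw [X, h1]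
    simp
  have e3 : md.C (md.F (fun s => chi m s / (1 - s)) γ) =
      NormedSpace.exp ((1 / 2 : ℂ) • md.B m) (md.X m (md.J γ)) := by
    have h1 := md.F_mul (f := fun s => √(s * (1 - s))) (g := fun s => chi m s / (1 - s))
      hs.continuousOn hc.continuousOn
    have h3 := md.J_F (f := fun s => √(s * (1 - s)) * (chi m s / (1 - s)))
      (hs.mul hc).continuousOn md.J md.J_A γ
    have h4 : (fun s : ℝ => (fun s => √(s * (1 - s)) * (chi m s / (1 - s))) (1 - s)) =
        fun s => Real.exp ((1 / 2) * ell m s) * chi m s := by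
      funext s
      exact scal3 m s
    rw [h4, F_exp_X, h1] at h3
    rw [← md.J_R, R]
    have h5 : (((1 / 2 : ℝ) : ℂ)) = (1 / 2 : ℂ) := by
      push_cast
      ring
    rw [h5] at h3
    exact h3
  have e4 : md.A (md.J (md.F (fun s => chi m s / √(s * (1 - s))) γ')) =
      NormedSpace.exp ((-1 / 2 : ℂ) • md.B m) (md.X m (md.J γ')) := by
    have h0 : md.A (md.J (md.F (fun s => chi m s / √(s * (1 - s))) γ')) =
        md.J (md.F (fun s => chi m s / √(s * (1 - s))) γ' -
          md.A (md.F (fun s => chi m s / √(s * (1 - s))) γ')) := by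
      rw [map_sub, md.J_A]
      abel
    have h1 := md.F_mul (f := fun s => 1 - s) (g := fun s => chi m s / √(s * (1 - s)))
      (continuous_const.sub continuous_id).continuousOn hr.continuousOn
    have hcc : Continuous fun s : ℝ => (1 - s) * (chi m s / √(s * (1 - s))) :=
      (continuous_const.sub continuous_id).mul hr
    have h3 := md.J_F (f := fun s => (1 - s) * (chi m s / √(s * (1 - s))))
      hcc.continuousOn md.J md.J_A γ'
    have h4 : (fun s : ℝ => (fun s => (1 - s) * (chi m s / √(s * (1 - s)))) (1 - s)) =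
        fun s => Real.exp ((-1 / 2) * ell m s) * chi m s := by
      funext s
      have h6 := scal4 m s
      simpa using h6
    rw [h4, F_exp_X, h1, md.F_one_sub] at h3
    have h5 : (((-1 / 2 : ℝ) : ℂ)) = (-1 / 2 : ℂ) := by
      push_cast
      ring
    rw [h5] at h3
    rw [h0, ← h3]
    simp
  have h7 := h (md.J (md.F (fun s => chi m s / √(s * (1 - s))) γ'))
    (md.F (fun s => chi m s / (1 - s)) γ)
  rw [e1, e2, e3, e4] at h7
  exact h7

end MD

end Pool.Agent.VNQ
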