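import Pool.Agent.VNQ.LemN
import Pool.Agent.VNQ.Pars

/-!
# The square sums of the slices `s_{lj}(a) = R_{f_l}† Δ(a) R_{z_j}`

Let `f` be a Hilbert basis of `H`, `a ∈ N_φ`, `s_k(a) = Q.sr (f l) (z_j) a` for `k = (l, j)`.

* `hasSum_s`: `∑_k ‖s_k(a) ξ‖² = ‖Λ_φ a‖² ‖ξ‖²`: `s_k(a) ξ = R_{f_l}† Δ(a)(tmul ξ z_j)`, so
  `∑_l ‖s_{lj}(a) ξ‖² = ‖Δ(a)(tmul ξ z_j)‖²` (`hasSum_sq_right`), and
  `∑_j ‖Δ(a)(tmul ξ z_j)‖² = ‖ξ‖² ‖Λ_φ a‖²` (`left_inv`). Nonnegative terms: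
  `summable_prod_of_nonneg`, `HasSum.prod_fiberwise`, `HasSum` over `l × Q.φ.ι` (swap the order with
  `(Equiv.prodComm _ _).hasSum_iff`, or through `ENNReal`/`NNReal`).
* `hasSum_Δs`: `∑_k ‖Δ(s_k(a)) β‖² = ‖Λ_φ a‖² ‖β‖²` for `β ∈ H ⊗ H`: `lemN_const`
  (`sr_mem`, `ha.1 : a ∈ Q.M`).
* `hasSum_s_tmul`: `∑_k ‖(1 ⊗ s_k(a)) θ‖² = ‖Λ_φ a‖² ‖θ‖²` for `θ ∈ H ⊗ H`: for a Hilbert basis `e`
of `H`:
  `‖(1 ⊗ s_k) θ‖² = ∑_i ‖L_{e_i}† (1 ⊗ s_k) θ‖² = ∑_i ‖s_k (L_{e_i}† θ)‖²` (`lT_adjoint_mapT`,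
  `hasSum_sq_left`); exchange the sums.
* the finite-sum forms `sum_s_le`, `sum_Δs_le`, `sum_s_tmul_le` (`sum_le_hasSum`).
-/

set_option autoImplicit false

noncomputable section

open scoped TensorProduct InnerProductSpace InnerProduct ENNReal
open Filter

namespace Pool.Agent.VNQ

universe u

variable {H G : Type u} [NormedAddCommGroup H] [InnerProductSpace ℂ H] [CompleteSpace H]
  [NormedAddCommGroup G] [InnerProductSpace ℂ G] [CompleteSpace G]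

namespace QG

variable (Q : QG H G)

private theorem hasSum_prod_nn {α β : Type*} {F : α × β → ℝ} (hF : ∀ x, 0 ≤ F x)
    {g : α → ℝ} {c : ℝ} (h1 : ∀ a, HasSum (fun b => F (a, b)) (g a)) (h2 : HasSum g c) :
    HasSum F c := by
  have h3 : (fun a => ∑' b, F (a, b)) = g := funext fun a => (h1 a).tsum_eq
  have hs : Summable F := by
    rw [summable_prod_of_nonneg hF]
    refine ⟨fun a => (h1 a).summable, ?_⟩
    rw [h3]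
    exact h2.summable
  have h4 := hs.hasSum.prod_fiberwise h1
  rw [← h4.unique h2]
  exact hs.hasSum

private theorem hasSum_swap_nn {α β : Type*} {F : α → β → ℝ} (hF : ∀ a b, 0 ≤ F a b)
    {g : α → ℝ} {g' : β → ℝ} {c : ℝ} (h1 : ∀ a, HasSum (F a) (g a)) (h2 : HasSum g c)
    (h3 : ∀ b, HasSum (fun a => F a b) (g' b)) : HasSum g' c := by
  have h4 : HasSum (fun x : α × β => F x.1 x.2) c :=
    hasSum_prod_nn (fun x => hF x.1 x.2) h1 h2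
  have h5 : HasSum (fun x : β × α => F x.2 x.1) c :=
    (Equiv.prodComm β α).hasSum_iff.2 h4
  exact h5.prod_fiberwise h3

theorem hasSum_s {l : Type*} (f : HilbertBasis l ℂ H) {a : H →L[ℂ] H} (ha : a ∈ Q.φ.N) (ξ : H) :
    HasSum (fun k : l × Q.φ.ι => ‖Q.sr (f k.1) (Q.φ.z k.2) a ξ‖ ^ 2)
      (‖Q.φ.Λ a‖ ^ 2 * ‖ξ‖ ^ 2) := by
  have h1 : HasSum (fun k : Q.φ.ι × l => ‖Q.sr (f k.2) (Q.φ.z k.1) a ξ‖ ^ 2)
      (‖Q.φ.Λ a‖ ^ 2 * ‖ξ‖ ^ 2) := by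
    refine hasSum_prod_nn (fun k => by positivity)
      (g := fun j => ‖Q.Δ a (tmul ξ (Q.φ.z j))‖ ^ 2) (fun j => ?_) ?_
    · simp only [Q.sr_apply]
      exact hasSum_sq_right f (Q.Δ a (tmul ξ (Q.φ.z j)))
    · rw [mul_comm]
      exact Q.left_inv a ha ξ
  exact (Equiv.prodComm l Q.φ.ι).hasSum_iff.2 h1

theorem hasSum_Δs {l : Type*} (f : HilbertBasis l ℂ H) {a : H →L[ℂ] H} (ha : a ∈ Q.φ.N)
    (β : HTen H H) :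
    HasSum (fun k : l × Q.φ.ι => ‖Q.Δ (Q.sr (f k.1) (Q.φ.z k.2) a) β‖ ^ 2)
      (‖Q.φ.Λ a‖ ^ 2 * ‖β‖ ^ 2) :=
  Q.lemN_const (fun k : l × Q.φ.ι => Q.sr (f k.1) (Q.φ.z k.2) a)
    (fun k => Q.sr_mem _ _ ha.1) _ (by positivity) (fun ξ => Q.hasSum_s f ha ξ) β

theorem hasSum_s_tmul {l : Type*} (f : HilbertBasis l ℂ H) {a : H →L[ℂ] H} (ha : a ∈ Q.φ.N)
    (θ : HTen H H) :
    HasSum (fun k : l × Q.φ.ι =>
        ‖mapT (ContinuousLinearMap.id ℂ H) (Q.sr (f k.1) (Q.φ.z k.2) a) θ‖ ^ 2)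
      (‖Q.φ.Λ a‖ ^ 2 * ‖θ‖ ^ 2) := by
  obtain ⟨w, e, -⟩ := exists_hilbertBasis ℂ H
  refine hasSum_swap_nn (F := fun (i : w) (k : l × Q.φ.ι) =>
      ‖Q.sr (f k.1) (Q.φ.z k.2) a (((lT (e i) : H →L[ℂ] HTen H H)†) θ)‖ ^ 2)
    (g := fun i => ‖Q.φ.Λ a‖ ^ 2 * ‖((lT (e i) : H →L[ℂ] HTen H H)†) θ‖ ^ 2)
    (fun i k => by positivity) (fun i => Q.hasSum_s f ha _)
    ((hasSum_sq_left e θ).mul_left _) (fun k => ?_)
  have h1 := hasSum_sq_left e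
    (mapT (ContinuousLinearMap.id ℂ H) (Q.sr (f k.1) (Q.φ.z k.2) a) θ)
  simpa only [lT_adj_mapT_right] using h1

end QG

end Pool.Agent.VNQ
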