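import Pool.Agent.VNQ.Pairs
import Pool.Agent.VNQ.SumS
import Pool.Agent.VNQ.SumA
import Pool.Agent.VNQ.Iso

/-!
# The sum representation of `x_{Λ a, Λ b} ⊗ 1`

Let `f` be a Hilbert basis of `H`, `a, b ∈ N_φ`, `u = Λ_φ a`, `v = Λ_φ b`, and for `k = (l, j)`:
`s_k(a) = R_{f_l}† Δ(a) R_{z_j} = Q.sr (f l) (z_j) a`. Then for all `ξ, η ∈ H`:
`∑_k Δ(s_k(a)†) (tmul ξ s_k(b) η) = x_tmul ({u,v} ξ) η`.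

Proof. Convergence: `summable_adjoint` with `A_k = Δ(s_k(a))` (`A_k† = Δ(s_k(a)†)` by `Q.adj`),
`C = ‖Λ_φ a‖²` (`hasSum_Δs`), `v_k = tmul ξ s_k(b) η`, `∑ ‖v_k‖² = ‖ξ‖² ‖Λ_φ b‖² ‖η‖²` (`hasSum_s`,
`norm_tmul`). It gives the sum `σ` and
`⟪β, σ⟫ = ∑_k ⟪Δ(s_k(a)) β, tmul ξ s_k(b) η⟫` for all `β`. It remains to show
`⟪tmul ξ' η', σ⟫ = ⟪tmul ξ' η', x_tmul ({u,v} ξ) η⟫ = ⟪ξ', x_{u,v} ξ⟫ ⟪η', η⟫` (`ext_inner_left'`).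

Let `t = L_ξ† Δ(a) L_{ξ'} = Q.sl ξ ξ' a`; by `Y_slice` `t ∈ N_φ` and `Λ_φ t = L_ξ† Y (tmul ξ' (Λ_φ
a))`.
By coassociativity (`Q.coassoc a ha.1` with `α' = ξ`, `β' = κ`, `α = ξ'`, `β = η'`, and
`(η', η) := (f_l, z_j)`), for all `κ ∈ H`:
`⟪tmul ξ κ, Δ(s_{lj}(a)) (tmul ξ' η')⟫ = ⟪tmul κ f_l, Δ(t) (tmul η' z_j)⟫`. With `κ = s_{lj}(b) η`
and
conjugation:
`⟪Δ(s_k(a)) (tmul ξ' η'), tmul ξ s_k(b) η⟫ = ⟪Δ(t) (tmul η' z_j), s_{lj}tmul ((b) η) f_l⟫`.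
Sum over `l` for fixed `j`: `∑_l s_{lj}tmul ((b) η) f_l = ∑tmul (_l (R_{f_l}† Δ(b)(tmul η z_j))) f_l
=
Δ(b) (tmul η z_j)` (`hasSum_right`, then `HasSum.mapL` with `innerSL`), so the sum over `l` is
`⟪Δ(t) (tmul η' z_j), Δ(b) (tmul η z_j)⟫ = ⟪(1 ⊗ Z'_j) Y (tmul η' (Λ_φ t)), (1 ⊗ Z'_j) Y (tmul η
(Λ_φ b))⟫`
(`Y_spec`), and the sum over `j` is `⟪Y (tmul η' (Λ_φ t)), Y (tmul η (Λ_φ b))⟫`
(`hasSum_inner_mapT_right`)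
`= ⟪η', η⟫ ⟪Λ_φ t, Λ_φ b⟫` (`Y_inner`) `= ⟪η', η⟫ ⟪L_ξ† Y (tmul ξ' u), v⟫ = ⟪η', η⟫ ⟪Y (tmul ξ' u),
tmul ξ v⟫
= ⟪η', η⟫ ⟪ξ', x_{u,v} ξ⟫` (`inner_x`). [The sum over `k = (l, j)` is unconditionally convergent
by `summable_adjoint`, so it can be computed as the iterated sum: `HasSum.prod_fiberwise` after
exchanging the two factors with `Equiv.prodComm`, and uniqueness of sums.]
-/

set_option autoImplicit false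

noncomputable section

open scoped TensorProduct InnerProductSpace InnerProduct ENNReal
open Filter

namespace Pool.Agent.VNQ

universe u

variable {H G : Type u} [NormedAddCommGroup H] [InnerProductSpace ℂ H] [CompleteSpace H]
  [NormedAddCommGroup G] [InnerProductSpace ℂ G] [CompleteSpace G]

namespace QG

variable (Q : QG H G)

theorem stepC {l : Type*} (f : HilbertBasis l ℂ H) {a b : H →L[ℂ] H} (ha : a ∈ Q.φ.N)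
    (hb : b ∈ Q.φ.N) (ξ η : H) :
    HasSum (fun k : l × Q.φ.ι => Q.Δ ((Q.sr (f k.1) (Q.φ.z k.2) a)†)
        (tmul ξ (Q.sr (f k.1) (Q.φ.z k.2) b η)))
      (tmul (Q.x (Q.φ.Λ a) (Q.φ.Λ b) ξ) η) := by
  have hA : ∀ β, ∀ t : Finset (l × Q.φ.ι),
      ∑ k ∈ t, ‖Q.Δ (Q.sr (f k.1) (Q.φ.z k.2) a) β‖ ^ 2 ≤ ‖Q.φ.Λ a‖ ^ 2 * ‖β‖ ^ 2 :=
    fun β t => sum_le_hasSum t (fun _ _ => sq_nonneg _) (Q.hasSum_Δs f ha β)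
  have hv : Summable fun k : l × Q.φ.ι => ‖tmul ξ (Q.sr (f k.1) (Q.φ.z k.2) b η)‖ ^ 2 := by
    have h := (Q.hasSum_s f hb η).summable.mul_left (‖ξ‖ ^ 2)
    refine h.congr fun k => ?_
    rw [norm_tmul, mul_pow]
  obtain ⟨σ, hσ, hin, -⟩ := summable_adjoint
    (fun k : l × Q.φ.ι => Q.Δ (Q.sr (f k.1) (Q.φ.z k.2) a)) (‖Q.φ.Λ a‖ ^ 2) (sq_nonneg _) hA
    (fun k : l × Q.φ.ι => tmul ξ (Q.sr (f k.1) (Q.φ.z k.2) b η)) hv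
  have hadj : ∀ k : l × Q.φ.ι, (Q.Δ (Q.sr (f k.1) (Q.φ.z k.2) a))† =
      Q.Δ ((Q.sr (f k.1) (Q.φ.z k.2) a)†) := fun k => (Q.adj _ (Q.sr_mem _ _ ha.1)).symm
  simp only [hadj] at hσ
  suffices hs : σ = tmul (Q.x (Q.φ.Λ a) (Q.φ.Λ b) ξ) η by
    rw [← hs]
    exact hσ
  refine ext_inner_left' fun ξ' η' => ?_
  obtain ⟨ht, hY⟩ := Q.Y_slice ha ξ ξ'
  -- the terms
  have hterm : ∀ k : l × Q.φ.ι, ⟪Q.Δ (Q.sr (f k.1) (Q.φ.z k.2) a) (tmul ξ' η'),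
      tmul ξ (Q.sr (f k.1) (Q.φ.z k.2) b η)⟫_ℂ = ⟪Q.Δ (Q.sl ξ ξ' a) (tmul η' (Q.φ.z k.2)),
        tmul (Q.sr (f k.1) (Q.φ.z k.2) b η) (f k.1)⟫_ℂ := by
    intro k
    have h := Q.coassoc a ha.1 ξ ξ' (Q.sr (f k.1) (Q.φ.z k.2) b η) η' (f k.1) (Q.φ.z k.2)
    rw [← inner_conj_symm, ← inner_conj_symm (Q.Δ (Q.sl ξ ξ' a) (tmul η' (Q.φ.z k.2)))]
    exact congrArg _ h
  have h1 := hin (tmul ξ' η')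
  simp only [hterm] at h1
  -- the inner sums
  have h2 : ∀ j : Q.φ.ι, HasSum (fun i : l => ⟪Q.Δ (Q.sl ξ ξ' a) (tmul η' (Q.φ.z j)),
      tmul (Q.sr (f i) (Q.φ.z j) b η) (f i)⟫_ℂ)
      ⟪Q.Δ (Q.sl ξ ξ' a) (tmul η' (Q.φ.z j)), Q.Δ b (tmul η (Q.φ.z j))⟫_ℂ := by
    intro j
    have h := (innerSL ℂ (Q.Δ (Q.sl ξ ξ' a) (tmul η' (Q.φ.z j)))).hasSum
      (hasSum_right f (Q.Δ b (tmul η (Q.φ.z j))))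
    simp only [innerSL_apply_apply] at h
    exact h
  have h3 : HasSum (fun j : Q.φ.ι => ⟪Q.Δ (Q.sl ξ ξ' a) (tmul η' (Q.φ.z j)),
      Q.Δ b (tmul η (Q.φ.z j))⟫_ℂ) ⟪tmul ξ' η', σ⟫_ℂ := by
    have h4 := (Equiv.prodComm Q.φ.ι l).hasSum_iff.2 h1
    exact h4.prod_fiberwise h2
  have h5 := hasSum_inner_mapT_right Q.φ.Z Q.φ.norm_Z
    (Q.Y (tmul η' (Q.φ.Λ (Q.sl ξ ξ' a)))) (Q.Y (tmul η (Q.φ.Λ b)))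
  simp only [Q.Y_spec ht, Q.Y_spec hb] at h5
  rw [h3.unique h5, Q.Y_inner, inner_tmul, inner_tmul, Q.inner_x, ← hY,
    ContinuousLinearMap.adjoint_inner_left, lT_apply]
  ring

end QG

end Pool.Agent.VNQ
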