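import Pool.Agent.VNQ.SpecT
import Pool.Agent.VNQ.SpecG
import Pool.Agent.VNQ.Ext

/-!
# Comparison of the two forms of the tensor product

`exists_U`: if `t` is a Hilbert space tensor product (`IsTensor t`, file `SpecT`) then there is a
unitary `U : HTen H H ≃ₗᵢ[ℂ] T` with `U (tmul ξ η) = t ξ η`.

Proof. `t` is bilinear: by the inner product formula
`‖t (ξ + ξ') η - t ξ η - t ξ' η‖² = 0` (expand), similarly for scalars and for the second variable. So `t` is
given by `f : H →ₗ[ℂ] H →ₗ[ℂ] T` (`LinearMap.mk₂`). By `exists_isometry_left` (file `Ext`; `E = G = H`,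
`Λ = LinearMap.id`) there is `U₀ : HTen H H →L[ℂ] T` with `U₀ (tmul ξ η) = t ξ η`, `‖U₀ θ‖ = ‖θ‖`. Its range is
closed (isometry of a complete space) and contains all `t ξ η`, so it is everything (`dense_span`).
`LinearIsometryEquiv.ofSurjective`.

`slice_iff_R`: for `X : T →L[ℂ] T` and `X₀ θ = U⁻¹ (X (U θ))`: `SliceR t η' η X s ↔ s = sliceR η' η X₀`
(`inner_rT_adjoint`, `ext_inner_left`), and the same for `SliceL`.
`mem_tensorVN`: `X ∈ TensorVN t M ↔ X₀ ∈ tensorVN M`: conjugation with `U` is an isomorphism of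
`B(T)` and `B(HTen H H)` and maps `{X | X (t ξ η) = t (x ξ) (y η)}` to `{mapT x y}` (`clm_ext`,
`mapT_tmul`), hence centralizers to centralizers. (`Set.centralizer`, `Set.mem_centralizer_iff`.)
-/

set_option autoImplicit false
set_option linter.unusedSectionVars false

noncomputable section

open scoped TensorProduct InnerProductSpace InnerProduct ENNReal

namespace Pool.Agent.VNQ

universe u

variable {H T : Type u} [NormedAddCommGroup H] [InnerProductSpace ℂ H] [CompleteSpace H]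
  [NormedAddCommGroup T] [InnerProductSpace ℂ T] [CompleteSpace T]

private theorem eq_of_inner {F : Type*} [NormedAddCommGroup F] [InnerProductSpace ℂ F] {S : Set F}
    (hS : Dense (Submodule.span ℂ S : Set F)) {x y : F} (h : ∀ z ∈ S, ⟪z, x⟫_ℂ = ⟪z, y⟫_ℂ) :
    x = y := by
  refine hS.eq_of_inner_left ℂ fun v hv => ?_
  induction hv using Submodule.span_induction with
  | mem z hz => rw [← inner_conj_symm, h z hz, inner_conj_symm]
  | zero => rw [inner_zero_right, inner_zero_right]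
  | add a b _ _ ha hb => rw [inner_add_right, inner_add_right, ha, hb]
  | smul c a _ ha => rw [inner_smul_right, inner_smul_right, ha]

theorem exists_U {t : H → H → T} (ht : IsTensor t) :
    ∃ U : HTen H H ≃ₗᵢ[ℂ] T, ∀ ξ η, U (tmul ξ η) = t ξ η := by
  have hx : ∀ {x y : T}, (∀ ξ η, ⟪t ξ η, x⟫_ℂ = ⟪t ξ η, y⟫_ℂ) → x = y := fun {x y} h =>
    eq_of_inner ht.dense_span fun z hz => by
      obtain ⟨ξ, η, rfl⟩ := hz
      exact h ξ η
  have h1 : ∀ ξ ξ' η, t (ξ + ξ') η = t ξ η + t ξ' η := fun ξ ξ' η => hx fun a b => by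
    rw [inner_add_right, ht.inner_tensor, ht.inner_tensor, ht.inner_tensor, inner_add_right,
      add_mul]
  have h2 : ∀ (c : ℂ) ξ η, t (c • ξ) η = c • t ξ η := fun c ξ η => hx fun a b => by
    rw [inner_smul_right, ht.inner_tensor, ht.inner_tensor, inner_smul_right, mul_assoc]
  have h3 : ∀ ξ η η', t ξ (η + η') = t ξ η + t ξ η' := fun ξ η η' => hx fun a b => by
    rw [inner_add_right, ht.inner_tensor, ht.inner_tensor, ht.inner_tensor, inner_add_right,
      mul_add]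
  have h4 : ∀ (c : ℂ) ξ η, t ξ (c • η) = c • t ξ η := fun c ξ η => hx fun a b => by
    rw [inner_smul_right, ht.inner_tensor, ht.inner_tensor, inner_smul_right]
    ring
  obtain ⟨U₀, hU, hn⟩ := exists_isometry_left (LinearMap.id : H →ₗ[ℂ] H)
    (by exact Function.surjective_id.denseRange) (LinearMap.mk₂ ℂ t h1 h2 h3 h4) fun a a' η η' => by
      rw [LinearMap.mk₂_apply, LinearMap.mk₂_apply, ht.inner_tensor]
      rfl
  have hU' : ∀ ξ η, U₀ (tmul ξ η) = t ξ η := fun ξ η => by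
    have h := hU ξ η
    rwa [LinearMap.mk₂_apply] at h
  let U₁ : HTen H H →ₗᵢ[ℂ] T := ⟨U₀.toLinearMap, hn⟩
  have hs : Function.Surjective U₁ := by
    have hc : IsClosed (Set.range U₁) := U₁.isometry.isClosedEmbedding.isClosed_range
    have hle : Submodule.span ℂ {θ : T | ∃ ξ η, θ = t ξ η} ≤ LinearMap.range U₁.toLinearMap := by
      refine Submodule.span_le.2 ?_
      rintro θ ⟨ξ, η, rfl⟩
      exact ⟨tmul ξ η, hU' ξ η⟩
    intro y
    have hy : y ∈ closure (Set.range U₁) :=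
      closure_mono (fun z hz => hle hz) (ht.dense_span y)
    rwa [hc.closure_eq] at hy
  exact ⟨LinearIsometryEquiv.ofSurjective U₁ hs, fun ξ η => hU' ξ η⟩

/-- The operator `U⁻¹ X U`. -/
def pull (U : HTen H H ≃ₗᵢ[ℂ] T) (X : T →L[ℂ] T) : HTen H H →L[ℂ] HTen H H :=
  (U.symm.toContinuousLinearEquiv : T →L[ℂ] HTen H H) ∘L X ∘L
    (U.toContinuousLinearEquiv : HTen H H →L[ℂ] T)

theorem pull_apply (U : HTen H H ≃ₗᵢ[ℂ] T) (X : T →L[ℂ] T) (θ : HTen H H) :
    pull U X θ = U.symm (X (U θ)) := rfl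

theorem pull_add (U : HTen H H ≃ₗᵢ[ℂ] T) (X Y : T →L[ℂ] T) :
    pull U (X + Y) = pull U X + pull U Y := by
  ext θ
  exact map_add U.symm _ _

theorem pull_smul (U : HTen H H ≃ₗᵢ[ℂ] T) (c : ℂ) (X : T →L[ℂ] T) :
    pull U (c • X) = c • pull U X := by
  ext θ
  exact map_smul U.symm c _

theorem pull_mul (U : HTen H H ≃ₗᵢ[ℂ] T) (X Y : T →L[ℂ] T) :
    pull U (X * Y) = pull U X * pull U Y := by
  ext θ
  change U.symm (X (Y (U θ))) = U.symm (X (U (U.symm (Y (U θ)))))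
  rw [U.apply_symm_apply]

theorem pull_star (U : HTen H H ≃ₗᵢ[ℂ] T) (X : T →L[ℂ] T) :
    pull U (star X) = star (pull U X) := by
  ext θ
  refine ext_inner_left ℂ fun θ' => ?_
  rw [ContinuousLinearMap.star_eq_adjoint, ContinuousLinearMap.star_eq_adjoint,
    ContinuousLinearMap.adjoint_inner_right, pull_apply, pull_apply, ← U.inner_map_map,
    U.apply_symm_apply, ContinuousLinearMap.adjoint_inner_right, ← U.inner_map_map _ θ,
    U.apply_symm_apply]

theorem pull_one (U : HTen H H ≃ₗᵢ[ℂ] T) : pull U 1 = 1 := by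
  ext θ
  exact U.symm_apply_apply θ

theorem inner_pull (U : HTen H H ≃ₗᵢ[ℂ] T) (X : T →L[ℂ] T) (θ θ' : HTen H H) :
    ⟪θ', pull U X θ⟫_ℂ = ⟪U θ', X (U θ)⟫_ℂ := by
  rw [pull_apply, ← U.inner_map_map, U.apply_symm_apply]

theorem slice_iff_R {t : H → H → T} (U : HTen H H ≃ₗᵢ[ℂ] T) (hU : ∀ ξ η, U (tmul ξ η) = t ξ η)
    (X : T →L[ℂ] T) (η' η : H) (s : H →L[ℂ] H) :
    SliceR t η' η X s ↔ s = sliceR η' η (pull U X) := by
  have h : ∀ ξ' ξ, ⟪ξ', sliceR η' η (pull U X) ξ⟫_ℂ = ⟪t ξ' η', X (t ξ η)⟫_ℂ := fun ξ' ξ => by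
    rw [← hU, ← hU, ← inner_pull, ← inner_rT_adjoint]
    rfl
  constructor
  · intro hs
    ext ξ
    exact ext_inner_left ℂ fun ξ' => by rw [hs, h]
  · rintro rfl ξ' ξ
    exact h ξ' ξ

theorem slice_iff_L {t : H → H → T} (U : HTen H H ≃ₗᵢ[ℂ] T) (hU : ∀ ξ η, U (tmul ξ η) = t ξ η)
    (X : T →L[ℂ] T) (ξ' ξ : H) (s : H →L[ℂ] H) :
    SliceL t ξ' ξ X s ↔ s = sliceL ξ' ξ (pull U X) := by
  have h : ∀ η' η, ⟪η', sliceL ξ' ξ (pull U X) η⟫_ℂ = ⟪t ξ' η', X (t ξ η)⟫_ℂ := fun η' η => by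
    rw [← hU, ← hU, ← inner_pull, ← inner_lT_adjoint]
    rfl
  constructor
  · intro hs
    ext η
    exact ext_inner_left ℂ fun η' => by rw [hs, h]
  · rintro rfl η' η
    exact h η' η

/-- The operator `U X U⁻¹`. -/
private def push (U : HTen H H ≃ₗᵢ[ℂ] T) (X : HTen H H →L[ℂ] HTen H H) : T →L[ℂ] T :=
  (U.toContinuousLinearEquiv : HTen H H →L[ℂ] T) ∘L X ∘L
    (U.symm.toContinuousLinearEquiv : T →L[ℂ] HTen H H)

private theorem pull_push (U : HTen H H ≃ₗᵢ[ℂ] T) (X : HTen H H →L[ℂ] HTen H H) :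
    pull U (push U X) = X := by
  ext θ
  change U.symm (U (X (U.symm (U θ)))) = X θ
  rw [U.symm_apply_apply, U.symm_apply_apply]

private theorem pull_inj (U : HTen H H ≃ₗᵢ[ℂ] T) : Function.Injective (pull U) := by
  intro X Y h
  ext θ
  have h1 := congrArg (fun A : HTen H H →L[ℂ] HTen H H => A (U.symm θ)) h
  simp only [pull_apply, U.apply_symm_apply] at h1
  exact U.symm.injective h1

theorem mem_tensorVN {t : H → H → T} (U : HTen H H ≃ₗᵢ[ℂ] T)
    (hU : ∀ ξ η, U (tmul ξ η) = t ξ η) {M : VonNeumannAlgebra H} {X : T →L[ℂ] T}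
    (hX : X ∈ TensorVN t M) : pull U X ∈ tensorVN M := by
  have key : ∀ (Z : T →L[ℂ] T) (Y : HTen H H →L[ℂ] HTen H H),
      pull U Z * Y = Y * pull U Z ↔ Z * push U Y = push U Y * Z := fun Z Y => by
    conv_lhs => rw [← pull_push U Y, ← pull_mul, ← pull_mul]
    exact (pull_inj U).eq_iff
  rw [tensorVN, Set.mem_centralizer_iff]
  intro Y hY
  rw [Set.mem_centralizer_iff] at hY
  refine Eq.symm ((key X Y).2 (Eq.symm ?_))
  rw [TensorVN, Set.mem_centralizer_iff] at hX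
  refine hX _ ?_
  rw [Set.mem_centralizer_iff]
  rintro Z ⟨x, hx, y, hy, hZ⟩
  refine (key Z Y).1 ?_
  have hZ' : pull U Z = mapT x y := clm_ext fun ξ η => by
    rw [pull_apply, hU, hZ, ← hU, U.symm_apply_apply, mapT_tmul]
  rw [hZ']
  exact hY _ ⟨x, hx, y, hy, rfl⟩

end Pool.Agent.VNQ
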