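import Pool.Agent.VNQ.TenU

/-!
# From `QuantumGroup` to `VNQGroup`

`exists_group`: a `QuantumGroup H K T` (file `SpecT`) gives a `VNQGroup H K` (file `SpecG`) with the
same `M`, `φ`, `ψ`, `Λ`, `π` and the coproduct `x ↦ U⁻¹ Δ(x) U`, where `U` is as in `exists_U`.

Proof. `map_mem`: `mem_tensorVN`. `map_add`, ..., `map_one`: `pull_add`, ..., `pull_one`.
`map_normal θ`: `Q.isCoproduct.map_normal (U θ)` and `inner_pull`. `coassoc`: `slice_iff_R`,
`slice_iff_L` (with `s := sliceR η' η (pull U (Q.Δ x))`, `Iff.mpr _ rfl`), `inner_pull`, `hU`.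
`φ_nsf`, `ψ_nsf`: `IsNSF M w` and `IsNsfWeight M w` have the same fields (`Nw` and `NL` are equal by
`rfl`). `left_inv`, `right_inv`: `slice_iff_L`, `slice_iff_R`. GNS: the fields of `Q.isGNS`.
-/

set_option autoImplicit false
set_option linter.unusedSectionVars false

noncomputable section

open scoped TensorProduct InnerProductSpace InnerProduct ENNReal

namespace Pool.Agent.VNQ

universe u

variable {H K T : Type u} [NormedAddCommGroup H] [InnerProductSpace ℂ H] [CompleteSpace H]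
  [NormedAddCommGroup K] [InnerProductSpace ℂ K] [CompleteSpace K]
  [NormedAddCommGroup T] [InnerProductSpace ℂ T] [CompleteSpace T]

theorem QuantumGroup.exists_group (Q : QuantumGroup H K T) (U : HTen H H ≃ₗᵢ[ℂ] T)
    (hU : ∀ ξ η, U (tmul ξ η) = Q.t ξ η) : ∃ Q₀ : VNQGroup H K, Q₀.M = Q.M ∧ Q₀.ψ = Q.ψ ∧
      Q₀.Λ = Q.Λ ∧ Q₀.π = Q.π ∧ Q₀.Δ = fun x => pull U (Q.Δ x) := by
  have hC := Q.isCoproduct
  refine ⟨{
    M := Q.M
    Δ := fun x => pull U (Q.Δ x)
    map_mem := fun x hx => mem_tensorVN U hU (hC.map_mem x hx)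
    map_add := fun x hx y hy => by rw [hC.map_add x hx y hy, pull_add]
    map_smul := fun c x hx => by rw [hC.map_smul c x hx, pull_smul]
    map_mul := fun x hx y hy => by rw [hC.map_mul x hx y hy, pull_mul]
    map_star := fun x hx => by rw [hC.map_star x hx, pull_star]
    map_one := by rw [hC.map_one, pull_one]
    map_normal := fun θ => by
      obtain ⟨α, hα, h⟩ := hC.map_normal (U θ)
      refine ⟨α, hα, fun x hx => ?_⟩
      rw [inner_pull]
      exact h x hx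
    coassoc := fun x hx α' α β' β η' η => by
      have h := hC.coassoc x hx α' α β' β η' η _ _
        ((slice_iff_R U hU (Q.Δ x) η' η _).2 rfl) ((slice_iff_L U hU (Q.Δ x) α' α _).2 rfl)
      rw [inner_pull, inner_pull, hU, hU, hU, hU]
      exact h
    φ := Q.φ
    φ_nsf := ⟨Q.φ_nsf.normal, Q.φ_nsf.faithful, Q.φ_nsf.semifinite⟩
    left_inv := fun x hx h0 hf ξ =>
      Q.left_inv x hx h0 hf ξ _ ((slice_iff_L U hU (Q.Δ x) ξ ξ _).2 rfl)
    ψ := Q.ψ
    ψ_nsf := ⟨Q.ψ_nsf.normal, Q.ψ_nsf.faithful, Q.ψ_nsf.semifinite⟩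
    right_inv := fun x hx h0 hf η =>
      Q.right_inv x hx h0 hf η _ ((slice_iff_R U hU (Q.Δ x) η η _).2 rfl)
    Λ := Q.Λ
    Λ_add := Q.isGNS.Λ_add
    Λ_smul := Q.isGNS.Λ_smul
    Λ_norm := Q.isGNS.Λ_norm
    Λ_dense := Q.isGNS.Λ_dense
    π := Q.π
    π_Λ := Q.isGNS.π_Λ }, rfl, rfl, rfl, rfl, rfl⟩

end Pool.Agent.VNQ
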