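import Pool.Agent.VNQ.TrS

/-!
# Transport of the von Neumann algebra tensor product

`Rep.tr_mem`: `X ∈ M ⊗ M` implies `X_K ∈ π(M) ⊗ π(M)`.

Proof. Let `C ∈ B(K ⊗ K)` commute with all `π(a) ⊗ π(b)`, `a, b ∈ M` (by `mem_vn` this is the
centralizer of the set in the definition of `tensorVN R.vn`). We show that `C` commutes with `X_K`.
For `k = (i, i')`, `l = (j, j')` let `Z_k = Z_i ⊗ Z_{i'}` and `D = Z_k C Z_l† ∈ B(H ⊗ H)`.
For `a, b ∈ M`: `(a ⊗ b) Z_k = Z_k (π(a) ⊗ π(b))` (`Z_π`, `mapT_comp`) and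
`Z_l† (a ⊗ b) = (π(a) ⊗ π(b)) Z_l†` (`int_adj`, `adjoint_mapT`), so
`(a ⊗ b) D = Z_k (π(a) ⊗ π(b)) C Z_l† = Z_k C (π(a) ⊗ π(b)) Z_l† = D (a ⊗ b)`, and `D` is in the
centralizer of the set in the definition of `tensorVN M`. So `X D = D X` and
`Z_k C X_K Z_l† = Z_k C Z_l† X` (`tr_adj_comm`) `= X Z_k C Z_l† = Z_k X_K C Z_l†` (`tr_spec`). By
`ext_ZZ`: `C X_K Z_l† θ = X_K C Z_l† θ` for all `θ ∈ H ⊗ H` and `l`. Take adjoints (or use that the
ranges of the `Z_l†` are total: `Z_l E† = 0` for all `l` implies `E† = 0` by `ext_ZZ`, with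
`E = C X_K - X_K C`, `E Z_l† = 0`). So `E = 0`.
-/

set_option autoImplicit false

noncomputable section

open scoped TensorProduct InnerProductSpace InnerProduct ENNReal

namespace Pool.Agent.VNQ

universe u

variable {H K : Type u} [NormedAddCommGroup H] [InnerProductSpace ℂ H] [CompleteSpace H]
  [NormedAddCommGroup K] [InnerProductSpace ℂ K] [CompleteSpace K]

namespace Rep

variable {M : VonNeumannAlgebra H} (R : Rep M K)

theorem tr_mem {X : HTen H H →L[ℂ] HTen H H} (hX : X ∈ tensorVN M) :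
    R.tr X ∈ tensorVN R.vn := by
  have hX2 := comm2_of_tensorVN hX
  unfold tensorVN
  rw [Set.mem_centralizer_iff]
  intro C hC
  rw [Set.mem_centralizer_iff] at hC
  have hC' : ∀ a ∈ M, ∀ b ∈ M, ∀ θ : HTen K K,
      mapT (R.π a) (R.π b) (C θ) = C (mapT (R.π a) (R.π b) θ) := by
    intro a ha b hb θ
    have h := hC (mapT (R.π a) (R.π b)) ⟨R.π a, R.π_mem ha, R.π b, R.π_mem hb, rfl⟩
    exact congrArg (fun f : HTen K K →L[ℂ] HTen K K => f θ) h
  have hZ : ∀ (c : H →L[ℂ] H) (k : R.ι), c ∈ M → c ∘L R.Z k = R.Z k ∘L R.π c := by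
    intro c k hc
    ext g
    exact (R.Z_π c hc k g).symm
  have hZ' : ∀ (c : H →L[ℂ] H) (k : R.ι), c ∈ M → ((R.Z k)†) ∘L c = R.π c ∘L ((R.Z k)†) := by
    intro c k hc
    ext z
    exact R.int_adj (R.int_Z k) hc z
  have hD : ∀ (i i' j j' : R.ι) (θ : HTen H H),
      X (mapT (R.Z i) (R.Z i') (C (mapT ((R.Z j)†) ((R.Z j')†) θ))) =
        mapT (R.Z i) (R.Z i') (C (mapT ((R.Z j)†) ((R.Z j')†) (X θ))) := by
    intro i i' j j' θ
    have hmem : mapT (R.Z i) (R.Z i') ∘L C ∘L mapT ((R.Z j)†) ((R.Z j')†) ∈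
        Set.centralizer {T : HTen H H →L[ℂ] HTen H H | ∃ x ∈ M, ∃ y ∈ M, T = mapT x y} := by
      rw [Set.mem_centralizer_iff]
      rintro T ⟨a, ha, b, hb, rfl⟩
      refine ContinuousLinearMap.ext fun ζ => ?_
      change mapT a b (mapT (R.Z i) (R.Z i') (C (mapT ((R.Z j)†) ((R.Z j')†) ζ))) =
        mapT (R.Z i) (R.Z i') (C (mapT ((R.Z j)†) ((R.Z j')†) (mapT a b ζ)))
      have hl : ∀ η : HTen K K, mapT a b (mapT (R.Z i) (R.Z i') η) =
          mapT (R.Z i) (R.Z i') (mapT (R.π a) (R.π b) η) := by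
        intro η
        rw [mapT_comp_apply, mapT_comp_apply, hZ a i ha, hZ b i' hb]
      have hr : ∀ η : HTen H H, mapT ((R.Z j)†) ((R.Z j')†) (mapT a b η) =
          mapT (R.π a) (R.π b) (mapT ((R.Z j)†) ((R.Z j')†) η) := by
        intro η
        rw [mapT_comp_apply, mapT_comp_apply, hZ' a j ha, hZ' b j' hb]
      rw [hl, hr, hC' a ha b hb]
    unfold tensorVN at hX
    rw [Set.mem_centralizer_iff] at hX
    have h := hX _ hmem
    exact (congrArg (fun f : HTen H H →L[ℂ] HTen H H => f θ) h).symm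
  refine ContinuousLinearMap.ext fun θ => ?_
  change C (R.tr X θ) = R.tr X (C θ)
  have hs := hasSum_adj_self (fun k : R.ι × R.ι => mapT (R.Z k.1) (R.Z k.2)) R.hasSum_ZZ θ
  have h1 := (C ∘L R.tr X).hasSum hs
  have h2 := (R.tr X ∘L C).hasSum hs
  have h3 : (fun k : R.ι × R.ι => (C ∘L R.tr X) (((mapT (R.Z k.1) (R.Z k.2))†)
      (mapT (R.Z k.1) (R.Z k.2) θ))) = fun k => (R.tr X ∘L C) (((mapT (R.Z k.1) (R.Z k.2))†)
        (mapT (R.Z k.1) (R.Z k.2) θ)) := by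
    funext k
    rw [adjoint_mapT]
    change C (R.tr X (mapT ((R.Z k.1)†) ((R.Z k.2)†) (mapT (R.Z k.1) (R.Z k.2) θ))) =
      R.tr X (C (mapT ((R.Z k.1)†) ((R.Z k.2)†) (mapT (R.Z k.1) (R.Z k.2) θ)))
    refine R.ext_ZZ fun i i' => ?_
    rw [R.tr_adj_comm hX2 (R.int_Z k.1) (R.int_Z k.2), R.tr_spec hX2 (R.int_Z i) (R.int_Z i')]
    exact (hD i i' k.1 k.2 _).symm
  rw [h3] at h1
  exact h1.unique h2

end Rep

end Pool.Agent.VNQ
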