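import Pool.Agent.VNQ.RepN

/-!
# Transport of operators on `H ⊗ H` to `K ⊗ K`

`Comm2 M X`: `X ∈ B(H ⊗ H)` commutes with `m ⊗ 1` and `1 ⊗ m` for all `m ∈ M'`.

`Rep.exists_tr`: for such `X` there is `X_K ∈ B(K ⊗ K)` with `(T ⊗ T') X_K = X (T ⊗ T')` for all
intertwiners `T, T' : K → H`, and `‖X_K θ‖ ≤ ‖X‖ ‖θ‖`.

Proof. For `k = (i, i')` let `Z_k = Z_i ⊗ Z_{i'} : K ⊗ K → H ⊗ H`. `∑_k ‖Z_k θ‖² = ‖θ‖²`: `Z_i ⊗
Z_{i'} = (1 ⊗ Z_{i'}) (Z_i ⊗ 1)`, use `hasSum_mapT_left` and `hasSum_mapT_right` (nonnegative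
terms). For `θ ∈ K ⊗ K` let `X_K θ = ∑_k Z_k† X Z_k θ` (`summable_adjoint` with `A_k = Z_k`, `C =
1`, `v_k = X Z_k θ`, `∑ ‖v_k‖² ≤ ‖X‖² ‖θ‖²`); linear, `‖X_K θ‖ ≤ ‖X‖ ‖θ‖`. For intertwiners `T, T'`:
`(T ⊗ T') Z_k† = T Z_i† ⊗ T' Z_{i'}†` (`adjoint_mapT`, `mapT_comp`), and `T Z_i†, T' Z_{i'}† ∈ M'`
(`int_mul_adj`), so this operator commutes with `X` (it is the product of `T Z_i† ⊗ 1` and `1 ⊗ T'
Z_{i'}†`). So `(T ⊗ T') X_K θ = ∑_k X (T Z_i† ⊗ T' Z_{i'}†) Z_k θ = X (T ⊗ T') ∑_k Z_k† Z_k θ = X (T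
⊗ T') θ` (`hasSum_adj_self`).

`tr_unique`: if `(Z_i ⊗ Z_{i'}) Y = X (Z_i ⊗ Z_{i'})` for all `i, i'` then `Y = X_K` (joint
injectivity: `∑_k ‖Z_k θ‖² = ‖θ‖²`). `tr_adj_comm`: `X_K (T ⊗ T')† = (T ⊗ T')† X`: apply `Z_k`: `Z_k
X_K (T ⊗ T')† = X Z_k (T ⊗ T')† = X (Z_i T† ⊗ Z_{i'} T'†) = (Z_i T† ⊗ Z_{i'} T'†) X = Z_k (T ⊗ T')†
X`. `tr_add`, `tr_sub`, `tr_smul`, `tr_comp`, `tr_id`: by `tr_unique`. `tr_adj`: `(X†)_K = (X_K)†`:
adjoint of `tr_adj_comm`: `(Z_i ⊗ Z_{i'}) (X_K)† = X† (Z_i ⊗ Z_{i'})`. `tr_mapT`: `(a ⊗ b)_K = π(a)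
⊗ π(b)` for `a, b ∈ M`. `Comm2` is preserved by the operations (`comm2_add` etc.).
-/

set_option autoImplicit false

noncomputable section

open scoped TensorProduct InnerProductSpace InnerProduct ENNReal

namespace Pool.Agent.VNQ

universe u

variable {H K : Type u} [NormedAddCommGroup H] [InnerProductSpace ℂ H] [CompleteSpace H]
  [NormedAddCommGroup K] [InnerProductSpace ℂ K] [CompleteSpace K]

/-- `X` commutes with `m ⊗ 1` and `1 ⊗ m` for `m ∈ M'`. -/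
def Comm2 (M : VonNeumannAlgebra H) (X : HTen H H →L[ℂ] HTen H H) : Prop :=
  ∀ m ∈ M.commutant, X ∘L mapT m (ContinuousLinearMap.id ℂ H) =
      mapT m (ContinuousLinearMap.id ℂ H) ∘L X ∧
    X ∘L mapT (ContinuousLinearMap.id ℂ H) m = mapT (ContinuousLinearMap.id ℂ H) m ∘L X

theorem comm2_add {M : VonNeumannAlgebra H} {X Y : HTen H H →L[ℂ] HTen H H} (hX : Comm2 M X)
    (hY : Comm2 M Y) : Comm2 M (X + Y) := by
  intro m hm
  constructor
  · rw [ContinuousLinearMap.add_comp, ContinuousLinearMap.comp_add, (hX m hm).1, (hY m hm).1]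
  · rw [ContinuousLinearMap.add_comp, ContinuousLinearMap.comp_add, (hX m hm).2, (hY m hm).2]

theorem comm2_smul {M : VonNeumannAlgebra H} {X : HTen H H →L[ℂ] HTen H H} (hX : Comm2 M X)
    (c : ℂ) : Comm2 M (c • X) := by
  intro m hm
  constructor
  · rw [ContinuousLinearMap.smul_comp, ContinuousLinearMap.comp_smul, (hX m hm).1]
  · rw [ContinuousLinearMap.smul_comp, ContinuousLinearMap.comp_smul, (hX m hm).2]

theorem comm2_comp {M : VonNeumannAlgebra H} {X Y : HTen H H →L[ℂ] HTen H H} (hX : Comm2 M X)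
    (hY : Comm2 M Y) : Comm2 M (X ∘L Y) := by
  intro m hm
  constructor
  · rw [ContinuousLinearMap.comp_assoc, (hY m hm).1, ← ContinuousLinearMap.comp_assoc,
      (hX m hm).1, ContinuousLinearMap.comp_assoc]
  · rw [ContinuousLinearMap.comp_assoc, (hY m hm).2, ← ContinuousLinearMap.comp_assoc,
      (hX m hm).2, ContinuousLinearMap.comp_assoc]

private theorem trn_id_adj : (ContinuousLinearMap.id ℂ H)† = ContinuousLinearMap.id ℂ H :=
  ContinuousLinearMap.adjoint_id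

theorem comm2_adj {M : VonNeumannAlgebra H} {X : HTen H H →L[ℂ] HTen H H} (hX : Comm2 M X) :
    Comm2 M (X†) := by
  intro m hm
  have hm' : m† ∈ M.commutant := adj_mem hm
  obtain ⟨h1, h2⟩ := hX _ hm'
  constructor
  · have h3 := congrArg (fun f => f†) h1
    simp only [ContinuousLinearMap.adjoint_comp, adjoint_mapT,
      ContinuousLinearMap.adjoint_adjoint, trn_id_adj] at h3
    exact h3.symm
  · have h3 := congrArg (fun f => f†) h2
    simp only [ContinuousLinearMap.adjoint_comp, adjoint_mapT,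
      ContinuousLinearMap.adjoint_adjoint, trn_id_adj] at h3
    exact h3.symm

theorem comm2_mapT {M : VonNeumannAlgebra H} {a b : H →L[ℂ] H} (ha : a ∈ M) (hb : b ∈ M) :
    Comm2 M (mapT a b) := by
  intro m hm
  constructor
  · rw [mapT_comp, mapT_comp, ContinuousLinearMap.comp_id, ContinuousLinearMap.id_comp]
    have h2 : a ∘L m = m ∘L a := VonNeumannAlgebra.mem_commutant_iff.1 hm a ha
    rw [h2]
  · rw [mapT_comp, mapT_comp, ContinuousLinearMap.comp_id, ContinuousLinearMap.id_comp]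
    have h2 : b ∘L m = m ∘L b := VonNeumannAlgebra.mem_commutant_iff.1 hm b hb
    rw [h2]

theorem comm2_of_tensorVN {M : VonNeumannAlgebra H} {X : HTen H H →L[ℂ] HTen H H}
    (hX : X ∈ tensorVN M) : Comm2 M X := by
  intro m hm
  unfold tensorVN at hX
  rw [Set.mem_centralizer_iff] at hX
  constructor
  · refine (hX (mapT m (ContinuousLinearMap.id ℂ H)) ?_).symm
    rw [Set.mem_centralizer_iff]
    rintro T ⟨a, ha, b, hb, rfl⟩
    exact (comm2_mapT ha hb m hm).1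
  · refine (hX (mapT (ContinuousLinearMap.id ℂ H) m) ?_).symm
    rw [Set.mem_centralizer_iff]
    rintro T ⟨a, ha, b, hb, rfl⟩
    exact (comm2_mapT ha hb m hm).2

/-- `X` commutes with `m ⊗ m'` for `m, m' ∈ M'`. -/
private theorem trn_comm2 {M : VonNeumannAlgebra H} {X : HTen H H →L[ℂ] HTen H H}
    (hX : Comm2 M X) {m m' : H →L[ℂ] H} (hm : m ∈ M.commutant) (hm' : m' ∈ M.commutant)
    (θ : HTen H H) : X (mapT m m' θ) = mapT m m' (X θ) := by
  have h1 : ∀ ζ : HTen H H, mapT m m' ζ =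
      mapT m (ContinuousLinearMap.id ℂ H) (mapT (ContinuousLinearMap.id ℂ H) m' ζ) := by
    intro ζ
    rw [mapT_comp_apply, ContinuousLinearMap.comp_id, ContinuousLinearMap.id_comp]
  have h2 := fun ζ => congrArg (fun f : HTen H H →L[ℂ] HTen H H => f ζ) (hX m hm).1
  have h3 := fun ζ => congrArg (fun f : HTen H H →L[ℂ] HTen H H => f ζ) (hX m' hm').2
  simp only [ContinuousLinearMap.comp_apply] at h2 h3
  rw [h1, h1, h2, h3]

private theorem trn_prod_nn {α β : Type*} {F : α × β → ℝ} (hF : ∀ x, 0 ≤ F x)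
    {g : α → ℝ} {c : ℝ} (h1 : ∀ a, HasSum (fun b => F (a, b)) (g a)) (h2 : HasSum g c) :
    HasSum F c := by
  have h3 : (fun a => ∑' b, F (a, b)) = g := funext fun a => (h1 a).tsum_eq
  have hs : Summable F := by
    rw [summable_prod_of_nonneg hF]
    refine ⟨fun a => (h1 a).summable, ?_⟩
    rw [h3]
    exact h2.summable
  have h4 := hs.hasSum.prod_fiberwise h1
  rw [← h4.unique h2]
  exact hs.hasSum

namespace Rep

variable {M : VonNeumannAlgebra H} (R : Rep M K)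

private theorem trn_ZZ (θ : HTen K K) :
    HasSum (fun k : R.ι × R.ι => ‖mapT (R.Z k.1) (R.Z k.2) θ‖ ^ 2) (‖θ‖ ^ 2) := by
  refine trn_prod_nn (fun k => by positivity)
    (g := fun i => ‖mapT (R.Z i) (ContinuousLinearMap.id ℂ K) θ‖ ^ 2) (fun i => ?_)
    (hasSum_mapT_left R.Z R.norm_Z θ)
  have h1 := hasSum_mapT_right R.Z R.norm_Z (mapT (R.Z i) (ContinuousLinearMap.id ℂ K) θ)
  simp only [mapT_comp_apply, ContinuousLinearMap.comp_id, ContinuousLinearMap.id_comp] at h1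
  exact h1

theorem exists_tr (X : HTen H H →L[ℂ] HTen H H) (hX : Comm2 M X) :
    ∃ X' : HTen K K →L[ℂ] HTen K K, (∀ T T' : K →L[ℂ] H, R.Int T → R.Int T' →
      mapT T T' ∘L X' = X ∘L mapT T T') ∧ ∀ θ, ‖X' θ‖ ≤ ‖X‖ * ‖θ‖ := by
  have hA : ∀ (β : HTen K K) (t : Finset (R.ι × R.ι)),
      ∑ k ∈ t, ‖mapT (R.Z k.1) (R.Z k.2) β‖ ^ 2 ≤ 1 * ‖β‖ ^ 2 := by
    intro β t
    rw [one_mul]
    exact sum_le_hasSum t (fun k _ => by positivity) (R.trn_ZZ β)
  have key : ∀ θ : HTen K K, ∃ s : HTen K K,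
      HasSum (fun k : R.ι × R.ι => ((mapT (R.Z k.1) (R.Z k.2))†)
        (X (mapT (R.Z k.1) (R.Z k.2) θ))) s ∧ ‖s‖ ≤ ‖X‖ * ‖θ‖ := by
    intro θ
    have hle : ∀ k : R.ι × R.ι, ‖X (mapT (R.Z k.1) (R.Z k.2) θ)‖ ^ 2 ≤
        ‖X‖ ^ 2 * ‖mapT (R.Z k.1) (R.Z k.2) θ‖ ^ 2 := by
      intro k
      rw [← mul_pow]
      exact pow_le_pow_left₀ (norm_nonneg _) (X.le_opNorm _) 2
    have hs2 := (R.trn_ZZ θ).mul_left (‖X‖ ^ 2)
    have hv : Summable fun k : R.ι × R.ι => ‖X (mapT (R.Z k.1) (R.Z k.2) θ)‖ ^ 2 :=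
      Summable.of_nonneg_of_le (fun k => by positivity) hle hs2.summable
    obtain ⟨s, h1, -, h3⟩ := summable_adjoint (fun k : R.ι × R.ι => mapT (R.Z k.1) (R.Z k.2)) 1
      zero_le_one hA (fun k => X (mapT (R.Z k.1) (R.Z k.2) θ)) hv
    refine ⟨s, h1, ?_⟩
    have h4 : ∑' k : R.ι × R.ι, ‖X (mapT (R.Z k.1) (R.Z k.2) θ)‖ ^ 2 ≤ ‖X‖ ^ 2 * ‖θ‖ ^ 2 :=
      hasSum_le hle hv.hasSum hs2
    have h5 : ‖s‖ ^ 2 ≤ (‖X‖ * ‖θ‖) ^ 2 := by
      rw [mul_pow]
      linarith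
    exact (pow_le_pow_iff_left₀ (norm_nonneg _) (by positivity) two_ne_zero).1 h5
  choose f hf hfn using key
  let L : HTen K K →ₗ[ℂ] HTen K K :=
    { toFun := f
      map_add' := fun θ θ' => by
        refine (hf (θ + θ')).unique ?_
        have h1 := (hf θ).add (hf θ')
        simpa only [map_add] using h1
      map_smul' := fun c θ => by
        refine (hf (c • θ)).unique ?_
        have h1 := (hf θ).const_smul c
        simpa only [map_smul, RingHom.id_apply] using h1 }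
  refine ⟨L.mkContinuous ‖X‖ hfn, fun T T' hT hT' => ?_, hfn⟩
  ext θ
  show mapT T T' (f θ) = X (mapT T T' θ)
  have h1 := (mapT T T').hasSum (hf θ)
  have h2 := (X ∘L mapT T T').hasSum
    (hasSum_adj_self (fun k : R.ι × R.ι => mapT (R.Z k.1) (R.Z k.2)) R.trn_ZZ θ)
  have h3 : (fun k : R.ι × R.ι => (X ∘L mapT T T') (((mapT (R.Z k.1) (R.Z k.2))†)
      (mapT (R.Z k.1) (R.Z k.2) θ))) = fun k => mapT T T' (((mapT (R.Z k.1) (R.Z k.2))†)
        (X (mapT (R.Z k.1) (R.Z k.2) θ))) := by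
    funext k
    have h4 : ∀ y : HTen H H, mapT T T' (mapT ((R.Z k.1)†) ((R.Z k.2)†) y) =
        mapT (T ∘L ((R.Z k.1)†)) (T' ∘L ((R.Z k.2)†)) y := fun y => by rw [mapT_comp_apply]
    rw [adjoint_mapT, ContinuousLinearMap.comp_apply, h4, h4]
    exact trn_comm2 hX (R.int_mul_adj hT (R.int_Z k.1)) (R.int_mul_adj hT' (R.int_Z k.2)) _
  rw [h3] at h2
  exact h1.unique h2

open Classical in
/-- The operator `X_K` on `K ⊗ K`. -/
def tr (X : HTen H H →L[ℂ] HTen H H) : HTen K K →L[ℂ] HTen K K :=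
  if h : Comm2 M X then Classical.choose (R.exists_tr X h) else 0

theorem tr_spec {X : HTen H H →L[ℂ] HTen H H} (hX : Comm2 M X) {T T' : K →L[ℂ] H}
    (hT : R.Int T) (hT' : R.Int T') (θ : HTen K K) :
    mapT T T' (R.tr X θ) = X (mapT T T' θ) := by
  rw [tr, dif_pos hX]
  exact congrArg (fun f : HTen K K →L[ℂ] HTen H H => f θ)
    ((Classical.choose_spec (R.exists_tr X hX)).1 T T' hT hT')

theorem hasSum_ZZ (θ : HTen K K) :
    HasSum (fun k : R.ι × R.ι => ‖mapT (R.Z k.1) (R.Z k.2) θ‖ ^ 2) (‖θ‖ ^ 2) :=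
  R.trn_ZZ θ

theorem ext_ZZ {θ θ' : HTen K K} (h : ∀ i j, mapT (R.Z i) (R.Z j) θ = mapT (R.Z i) (R.Z j) θ') :
    θ = θ' := by
  have h1 := R.trn_ZZ (θ - θ')
  have h2 : (fun k : R.ι × R.ι => ‖mapT (R.Z k.1) (R.Z k.2) (θ - θ')‖ ^ 2) = fun _ => (0 : ℝ) := by
    funext k
    rw [map_sub, h k.1 k.2, sub_self, norm_zero]
    norm_num
  rw [h2] at h1
  exact sub_eq_zero.1 (norm_eq_zero.1 (sq_eq_zero_iff.1 (h1.unique hasSum_zero)))

theorem tr_unique {X : HTen H H →L[ℂ] HTen H H} (hX : Comm2 M X) {Y : HTen K K →L[ℂ] HTen K K}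
    (h : ∀ i j θ, mapT (R.Z i) (R.Z j) (Y θ) = X (mapT (R.Z i) (R.Z j) θ)) : Y = R.tr X := by
  ext θ
  refine R.ext_ZZ fun i j => ?_
  rw [h, R.tr_spec hX (R.int_Z i) (R.int_Z j)]

theorem tr_adj_comm {X : HTen H H →L[ℂ] HTen H H} (hX : Comm2 M X) {T T' : K →L[ℂ] H}
    (hT : R.Int T) (hT' : R.Int T') (θ : HTen H H) :
    R.tr X (mapT (T†) (T'†) θ) = mapT (T†) (T'†) (X θ) := by
  refine R.ext_ZZ fun i j => ?_
  rw [R.tr_spec hX (R.int_Z i) (R.int_Z j), mapT_comp_apply, mapT_comp_apply]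
  exact trn_comm2 hX (R.int_mul_adj (R.int_Z i) hT) (R.int_mul_adj (R.int_Z j) hT') θ

theorem tr_add {X Y : HTen H H →L[ℂ] HTen H H} (hX : Comm2 M X) (hY : Comm2 M Y) :
    R.tr (X + Y) = R.tr X + R.tr Y := by
  refine (R.tr_unique (comm2_add hX hY) fun i j θ => ?_).symm
  rw [_root_.add_apply, _root_.add_apply, map_add,
    R.tr_spec hX (R.int_Z i) (R.int_Z j), R.tr_spec hY (R.int_Z i) (R.int_Z j)]

theorem tr_smul (c : ℂ) {X : HTen H H →L[ℂ] HTen H H} (hX : Comm2 M X) :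
    R.tr (c • X) = c • R.tr X := by
  refine (R.tr_unique (comm2_smul hX c) fun i j θ => ?_).symm
  rw [_root_.smul_apply, _root_.smul_apply, map_smul,
    R.tr_spec hX (R.int_Z i) (R.int_Z j)]

theorem tr_comp {X Y : HTen H H →L[ℂ] HTen H H} (hX : Comm2 M X) (hY : Comm2 M Y) :
    R.tr (X ∘L Y) = R.tr X ∘L R.tr Y := by
  refine (R.tr_unique (comm2_comp hX hY) fun i j θ => ?_).symm
  rw [ContinuousLinearMap.comp_apply, ContinuousLinearMap.comp_apply,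
    R.tr_spec hX (R.int_Z i) (R.int_Z j), R.tr_spec hY (R.int_Z i) (R.int_Z j)]

theorem tr_adj {X : HTen H H →L[ℂ] HTen H H} (hX : Comm2 M X) : R.tr (X†) = (R.tr X)† := by
  refine (R.tr_unique (comm2_adj hX) fun i j θ => ?_).symm
  refine ext_inner_left ℂ fun ζ => ?_
  have h1 := R.tr_adj_comm hX (R.int_Z i) (R.int_Z j) ζ
  rw [← adjoint_mapT] at h1
  rw [ContinuousLinearMap.adjoint_inner_right, ← ContinuousLinearMap.adjoint_inner_left,
    ContinuousLinearMap.adjoint_inner_right, h1, ContinuousLinearMap.adjoint_inner_left]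

theorem tr_id : R.tr (ContinuousLinearMap.id ℂ _) = ContinuousLinearMap.id ℂ _ := by
  have h0 : Comm2 M (ContinuousLinearMap.id ℂ (HTen H H)) := by
    have h := comm2_mapT (id_mem (M := M)) (id_mem (M := M))
    rwa [mapT_id] at h
  exact (R.tr_unique h0 fun i j θ => rfl).symm

theorem tr_mapT {a b : H →L[ℂ] H} (ha : a ∈ M) (hb : b ∈ M) :
    R.tr (mapT a b) = mapT (R.π a) (R.π b) := by
  refine (R.tr_unique (comm2_mapT ha hb) fun i j θ => ?_).symm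
  have h1 : ∀ (c : H →L[ℂ] H) (k : R.ι), c ∈ M → R.Z k ∘L R.π c = c ∘L R.Z k := by
    intro c k hc
    ext g
    exact R.Z_π c hc k g
  rw [mapT_comp_apply, mapT_comp_apply, h1 a i ha, h1 b j hb]

theorem norm_tr_le {X : HTen H H →L[ℂ] HTen H H} (hX : Comm2 M X) (θ : HTen K K) :
    ‖R.tr X θ‖ ≤ ‖X‖ * ‖θ‖ := by
  rw [tr, dif_pos hX]
  exact (Classical.choose_spec (R.exists_tr X hX)).2 θ

end Rep

end Pool.Agent.VNQ
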