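import Pool.Agent.VNQ.Cut
import Pool.Agent.VNQ.ExpB

/-!
# The modular group

`md.U t = lim_m exp(i t B_m)` strongly. `MD.exists_U`: there is a family of isometries `U t` with
`U t (X_m x) = exp(i t B_m) (X_m x)` for all `m`.

Proof. Fix `t`, `V_m = exp(i t B_m)`, `‖V_m x‖ = ‖x‖` (`norm_exp_I`, `B_symm`). For `y = X_m x'` and
`k ≥ m`: `V_k y = V_m y` (`exp_X_eq`). So for every `x` the sequence `V_k x` is Cauchy:
`‖V_k x - V_l x‖ ≤ ‖V_k (x - y)‖ + ‖V_l (x - y)‖ + ‖V_k y - V_l y‖ = 2 ‖x - y‖` for `k, l ≥ m`,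
`y = X_m x`, and `X_m x → x` (`X_tendsto`). Let `U t x` be the limit. It is linear in `x`
(uniqueness of limits), and isometric, hence a continuous linear map (`LinearMap.mkContinuous` or
`LinearIsometry.toContinuousLinearMap`), and for `x = X_m x'` the sequence is eventually
constant.
-/

set_option autoImplicit false

noncomputable section

open scoped InnerProductSpace InnerProduct
open Filter

namespace Pool.Agent.VNQ

universe u

variable {E : Type u} [NormedAddCommGroup E] [InnerProductSpace ℂ E] [CompleteSpace E]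

namespace MD

variable (md : MD E)

private theorem uex_norm (t : ℝ) (k : ℕ) (x : E) :
    ‖NormedSpace.exp (((t : ℂ) * Complex.I) • md.B k) x‖ = ‖x‖ :=
  norm_exp_I (md.B k) (md.B_symm k) t x

private theorem uex_cauchy (t : ℝ) (x : E) :
    CauchySeq fun k => NormedSpace.exp (((t : ℂ) * Complex.I) • md.B k) x := by
  rw [Metric.cauchySeq_iff']
  intro ε hε
  obtain ⟨m, hm⟩ := ((Metric.tendsto_atTop.1 (md.X_tendsto x)) (ε / 2) (by positivity))
  have h1 : ‖md.X m x - x‖ < ε / 2 := by
    rw [← dist_eq_norm]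
    exact hm m le_rfl
  refine ⟨m, fun k hk => ?_⟩
  have h2 := md.exp_X_eq hk ((t : ℂ) * Complex.I) x
  have h3 : NormedSpace.exp (((t : ℂ) * Complex.I) • md.B k) x -
      NormedSpace.exp (((t : ℂ) * Complex.I) • md.B m) x =
      NormedSpace.exp (((t : ℂ) * Complex.I) • md.B m) (md.X m x - x) -
        NormedSpace.exp (((t : ℂ) * Complex.I) • md.B k) (md.X m x - x) := by
    rw [map_sub, map_sub, h2]
    abel
  rw [dist_eq_norm, h3]
  refine lt_of_le_of_lt (norm_sub_le _ _) ?_
  rw [md.uex_norm, md.uex_norm]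
  linarith

theorem exists_U : ∃ U : ℝ → E →L[ℂ] E,
    (∀ t m x, U t (md.X m x) = NormedSpace.exp (((t : ℂ) * Complex.I) • md.B m) (md.X m x)) ∧
      ∀ t x, ‖U t x‖ = ‖x‖ := by
  choose f hf using fun (t : ℝ) (x : E) => cauchySeq_tendsto_of_complete (md.uex_cauchy t x)
  have hadd : ∀ t x y, f t (x + y) = f t x + f t y := by
    intro t x y
    refine tendsto_nhds_unique (hf t (x + y)) ?_
    have h1 := (hf t x).add (hf t y)
    refine h1.congr fun k => ?_
    rw [map_add]
  have hsmul : ∀ t (c : ℂ) x, f t (c • x) = c • f t x := by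
    intro t c x
    refine tendsto_nhds_unique (hf t (c • x)) ?_
    have h1 := (hf t x).const_smul c
    refine h1.congr fun k => ?_
    rw [map_smul]
  have hnorm : ∀ t x, ‖f t x‖ = ‖x‖ := by
    intro t x
    refine tendsto_nhds_unique (hf t x).norm ?_
    refine tendsto_const_nhds.congr fun k => ?_
    rw [md.uex_norm]
  refine ⟨fun t => (LinearIsometry.toContinuousLinearMap
    { toFun := f t
      map_add' := hadd t
      map_smul' := hsmul t
      norm_map' := hnorm t }), ?_, fun t x => hnorm t x⟩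
  intro t m x
  change f t (md.X m x) = _
  refine tendsto_nhds_unique (hf t (md.X m x)) ?_
  refine tendsto_const_nhds.congr' ?_
  filter_upwards [eventually_ge_atTop m] with k hk
  exact (md.exp_X_eq hk ((t : ℂ) * Complex.I) x).symm

/-- The modular group `L^{it}`, `L = (1 - A) / A`. -/
def U (t : ℝ) : E →L[ℂ] E := Classical.choose md.exists_U t

theorem U_X (t : ℝ) (m : ℕ) (x : E) :
    md.U t (md.X m x) = NormedSpace.exp (((t : ℂ) * Complex.I) • md.B m) (md.X m x) :=
  (Classical.choose_spec md.exists_U).1 t m x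

theorem norm_U (t : ℝ) (x : E) : ‖md.U t x‖ = ‖x‖ := (Classical.choose_spec md.exists_U).2 t x

end MD

end Pool.Agent.VNQ
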