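import Pool.Agent.VNQ.QGB
import Pool.Agent.VNQ.Ext
import Pool.Agent.VNQ.Iso

/-!
# The isometry `V`

`QG.exists_V`: there is an isometry `V` of `H ⊗ H` with
`(Z_i ⊗ 1) V (tmul (Λ a) η) = Δ(a) (tmul ζ_i η)` for all `a ∈ N_ψ`, `η ∈ H` and all `i`
(`Z_i = Q.ψ.Z i : H → H`, `ζ_i = Q.ψ.z i`).

Proof. Choose a Hilbert basis `f` of `H` (`exists_hilbertBasis`). For `a ∈ N_ψ`, `η ∈ H` put
`s_l = R_{f_l}† Δ(a) R_η = Q.sr (f l) η a ∈ M` (`sr_mem`). Then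
`∑_l ∑_i ‖s_l ζ_i‖² = ∑_i ∑_l ‖R_{f_l}† Δ(a) (tmul ζ_i η)‖² = ∑_i ‖Δ(a) (tmul ζ_i η)‖² = ‖Λ a‖²
‖η‖²`
(`hasSum_sq_right`, `Q.right_inv`; nonnegative terms, exchange of summation). In particular
`s_l ∈ N_ψ`, `‖Λ s_l‖² = ∑_i ‖s_l ζ_i‖²` (`hasSum_Λ`), and `∑_l ‖Λ s_l‖² = ‖Λ a‖² ‖η‖² < ∞`.
So `v(a, η) := ∑_l Λtmul (s_l) f_l` converges (`summable_adjoint` in `SumA`, or orthogonality;
`A_l = R_{f_l}†`, `A_l† v = tmul v f_l`, `hasSum_sq_right`).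
`(Z_i ⊗ 1) v(a, η) = ∑tmul (_l s_l ζ_i) f_l = ∑_l R_tmul ({f_l}† (Δ(a) (tmul ζ_i η))) f_l = Δ(a)
(tmul ζ_i η)`
(`Z_Λ`, `hasSum_right`). So `v` is determined by `(Z_i ⊗ 1) v(a, η) = Δ(a)(tmul ζ_i η)` for all `i`
(`ext_mapT_left` with `T = Z`, `norm_Z`), and it is therefore linear in `a ∈ N_ψ` and in `η`
(`Q.add`, `Q.smul`): a linear map `Nsub →ₗ H →ₗ HTen H H` (`LinearMap.mk₂`).
Inner products: `⟪v(a,η), v(a',η')⟫ = ∑_i ⟪Δ(a)(tmul ζ_i η), Δ(a')(tmul ζ_i η')⟫`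
(`hasSum_inner_mapT_left`) and this equals `⟪Λ a, Λ a'⟫ ⟪η, η'⟫`:
polarization of `right_inv` in two steps. (1) For fixed `η`: `∑_i ‖Δ(a)(tmul ζ_i η)‖² = ‖Λ a‖² ‖η‖²`
gives
`∑_i ⟪Δ(a)(tmul ζ_i η), Δ(a')(tmul ζ_i η)⟫ = ‖η‖² ⟪Λ a, Λ a'⟫` (`hasSum_inner_of_norm` with
`T_i : Nsub →ₗ HTen H H`, `a ↦ Δ(a)(tmul ζ_i η)` and `W a = ‖η‖ • Λ a`). (2) For fixed `a`, `a'`,
both
sides are the values at `(η, η)` of sesquilinear forms in `(η, η')`, so by the complex polarization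
identity the forms agree. (The sesquilinear form
`F(η, η') = ⟪v(a,η), v(a',η')⟫ - ⟪η, η'⟫ ⟪Λ a, Λ a'⟫` vanishes for `η = η'`; expand
`F(η + η', η + η') = 0` and `F(η + i η', η + i η') = 0`.)
Apply `exists_isometry_left` with `Λ = Q.ψ.Λl` (dense range: `denseRange_Λl`).
-/

set_option autoImplicit false

noncomputable section

open scoped TensorProduct InnerProductSpace InnerProduct ENNReal
open Filter

namespace Pool.Agent.VNQ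

universe u

variable {H G : Type u} [NormedAddCommGroup H] [InnerProductSpace ℂ H] [CompleteSpace H]
  [NormedAddCommGroup G] [InnerProductSpace ℂ G] [CompleteSpace G]

private theorem polarV {E : Type*} [AddCommGroup E] [Module ℂ E] {F : Type*}
    [NormedAddCommGroup F] [InnerProductSpace ℂ F] (f : H →ₗ[ℂ] E →ₗ[ℂ] F) (L : E →ₗ[ℂ] H)
    (h : ∀ ξ a, ‖f ξ a‖ ^ 2 = ‖ξ‖ ^ 2 * ‖L a‖ ^ 2) (ξ ξ' : H) (a a' : E) :
    ⟪f ξ a, f ξ' a'⟫_ℂ = ⟪ξ, ξ'⟫_ℂ * ⟪L a, L a'⟫_ℂ := by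
  have h1 : ∀ ξ : H, ⟪f ξ a, f ξ a'⟫_ℂ = ⟪ξ, ξ⟫_ℂ * ⟪L a, L a'⟫_ℂ := by
    intro ξ
    have h2 := hasSum_inner_of_norm (fun _ : Unit => f ξ) (((‖ξ‖ : ℝ) : ℂ) • L)
      (fun g => by
        have h3 : ‖f ξ g‖ ^ 2 = ‖(((‖ξ‖ : ℝ) : ℂ) • L) g‖ ^ 2 := by
          rw [h, LinearMap.smul_apply, norm_smul, mul_pow]
          simp
        rw [← h3]
        exact hasSum_unique (fun _ : Unit => ‖f ξ g‖ ^ 2)) a a'
    have h4 := h2.unique (hasSum_unique (fun _ : Unit => ⟪f ξ a, f ξ a'⟫_ℂ))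
    rw [← h4, LinearMap.smul_apply, LinearMap.smul_apply, inner_smul_left, inner_smul_right,
      inner_self_eq_norm_sq_to_K, Complex.conj_ofReal, ← mul_assoc, ← pow_two]
    rfl
  set c := ⟪L a, L a'⟫_ℂ with hc
  have e1 := h1 (ξ + ξ')
  have e2 := h1 (ξ + Complex.I • ξ')
  have e3 := h1 ξ
  have e4 := h1 ξ'
  simp only [map_add, map_smul, LinearMap.add_apply, LinearMap.smul_apply, inner_add_left,
    inner_add_right, inner_smul_left, inner_smul_right, Complex.conj_I] at e1 e2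
  have hI : Complex.I * Complex.I = -1 := Complex.I_mul_I
  have k1 : ⟪f ξ a, f ξ' a'⟫_ℂ + ⟪f ξ' a, f ξ a'⟫_ℂ = (⟪ξ, ξ'⟫_ℂ + ⟪ξ', ξ⟫_ℂ) * c := by
    linear_combination e1 - e3 - e4
  have k2 : ⟪f ξ a, f ξ' a'⟫_ℂ - ⟪f ξ' a, f ξ a'⟫_ℂ = (⟪ξ, ξ'⟫_ℂ - ⟪ξ', ξ⟫_ℂ) * c := by
    have k3 : Complex.I * (⟪f ξ a, f ξ' a'⟫_ℂ - ⟪f ξ' a, f ξ a'⟫_ℂ) =
        Complex.I * ((⟪ξ, ξ'⟫_ℂ - ⟪ξ', ξ⟫_ℂ) * c) := by
      linear_combination e2 - e3 + Complex.I ^ 2 * e4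
    exact mul_left_cancel₀ Complex.I_ne_zero k3
  linear_combination (k1 + k2) / 2

private theorem swapV {κ ι : Type*} {F : κ → ι → ℝ} (hF : ∀ k i, 0 ≤ F k i) {a : κ → ℝ}
    {A : ℝ} (h1 : ∀ k, HasSum (F k) (a k)) (h2 : HasSum a A) :
    (∀ i, Summable fun k => F k i) ∧
      ∀ b : ι → ℝ, (∀ i, HasSum (fun k => F k i) (b i)) → HasSum b A := by
  have hs : Summable (fun p : κ × ι => F p.1 p.2) := by
    refine (summable_prod_of_nonneg (fun p => hF p.1 p.2)).mpr ⟨fun k => (h1 k).summable, ?_⟩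
    have : (fun k => ∑' i, F k i) = a := funext fun k => (h1 k).tsum_eq
    rw [show (fun x => ∑' y, F (x, y).1 (x, y).2) = a from this]
    exact h2.summable
  obtain ⟨S, hS⟩ := hs
  have h4 := hS.prod_fiberwise (g := a) fun k => h1 k
  have h5 : S = A := h4.unique h2
  rw [h5] at hS
  have h6 : HasSum (fun p : ι × κ => F p.2 p.1) A :=
    (Equiv.prodComm ι κ).hasSum_iff.mpr hS
  exact ⟨fun i => h6.summable.prod_factor i, fun b h3 => h6.prod_fiberwise (g := b) h3⟩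

private theorem exists_vecV (Q : QG H G) {l : Type*} (f : HilbertBasis l ℂ H) {a : H →L[ℂ] H}
    (ha : a ∈ Q.ψ.N) (η : H) : ∃ y : HTen H H, ∀ i,
      mapT (Q.ψ.Z i) (ContinuousLinearMap.id ℂ H) y = Q.Δ a (tmul (Q.ψ.z i) η) := by
  classical
  have hsM : ∀ k, Q.sr (f k) η a ∈ Q.M := fun k => Q.sr_mem _ _ ha.1
  have hsum := swapV (F := fun i k => ‖Q.sr (f k) η a (Q.ψ.z i)‖ ^ 2)
    (fun i k => by positivity)
    (a := fun i => ‖Q.Δ a (tmul (Q.ψ.z i) η)‖ ^ 2)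
    (fun i => hasSum_sq_right f (Q.Δ a (tmul (Q.ψ.z i) η))) (Q.right_inv a ha η)
  have hsN : ∀ k, Q.sr (f k) η a ∈ Q.ψ.N := fun k => ⟨hsM k, hsum.1 k⟩
  have hsq : Summable fun k => ‖Q.ψ.Λ (Q.sr (f k) η a)‖ ^ 2 :=
    (hsum.2 _ fun k => Q.ψ.hasSum_Λ (hsN k)).summable
  have hnf : ∀ k, ‖f k‖ = 1 := fun k => f.orthonormal.1 k
  let V : l → H →ₗᵢ[ℂ] HTen H H := fun k => ⟨(rT (f k) : H →L[ℂ] HTen H H).toLinearMap,
    fun g => by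
      change ‖tmul g (f k)‖ = ‖g‖
      rw [norm_tmul, hnf, mul_one]⟩
  have hV : OrthogonalFamily ℂ (fun _ : l => H) V := by
    intro k k' hkl x y
    change ⟪tmul x (f k), tmul y (f k')⟫_ℂ = 0
    rw [inner_tmul, f.orthonormal.2 hkl, mul_zero]
  have hS : Summable fun k => V k (Q.ψ.Λ (Q.sr (f k) η a)) :=
    (hV.summable_iff_norm_sq_summable _).2 hsq
  refine ⟨∑' k, V k (Q.ψ.Λ (Q.sr (f k) η a)), fun i => ?_⟩
  have h1 := hS.hasSum.mapL (mapT (Q.ψ.Z i) (ContinuousLinearMap.id ℂ H))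
  have h2 := hasSum_right f (Q.Δ a (tmul (Q.ψ.z i) η))
  refine h1.unique ?_
  convert h2 using 2 with k
  change mapT (Q.ψ.Z i) (ContinuousLinearMap.id ℂ H) (tmul (Q.ψ.Λ (Q.sr (f k) η a)) (f k)) = _
  rw [mapT_tmul, Q.ψ.Z_Λ _ (hsN k)]
  rfl

namespace QG

variable (Q : QG H G)

theorem exists_V : ∃ V : HTen H H →L[ℂ] HTen H H, (∀ θ, ‖V θ‖ = ‖θ‖) ∧
    ∀ a ∈ Q.ψ.N, ∀ η i, mapT (Q.ψ.Z i) (ContinuousLinearMap.id ℂ H) (V (tmul (Q.ψ.Λ a) η)) =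
      Q.Δ a (tmul (Q.ψ.z i) η) := by
  classical
  obtain ⟨w0, f, -⟩ := exists_hilbertBasis ℂ H
  have hex : ∀ (a : Q.ψ.Nsub) (η : H), ∃ y : HTen H H, ∀ i,
      mapT (Q.ψ.Z i) (ContinuousLinearMap.id ℂ H) y = Q.Δ a (tmul (Q.ψ.z i) η) :=
    fun a η => exists_vecV Q f a.2 η
  choose y hy using hex
  have huniq : ∀ {θ θ' : HTen H H}, (∀ i, mapT (Q.ψ.Z i) (ContinuousLinearMap.id ℂ H) θ =
      mapT (Q.ψ.Z i) (ContinuousLinearMap.id ℂ H) θ') → θ = θ' :=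
    fun h => ext_mapT_left Q.ψ.Z Q.ψ.norm_Z h
  let F : Q.ψ.Nsub →ₗ[ℂ] H →ₗ[ℂ] HTen H H := LinearMap.mk₂ ℂ y
    (fun a a' η => huniq fun i => by
      rw [map_add, hy, hy, hy, Submodule.coe_add, Q.add _ a.2.1 _ a'.2.1]
      rfl)
    (fun c a η => huniq fun i => by
      rw [map_smul, hy, hy, Submodule.coe_smul, Q.smul c _ a.2.1]
      rfl)
    (fun a η η' => huniq fun i => by
      rw [map_add, hy, hy, hy, tmul_add, map_add])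
    (fun c a η => huniq fun i => by
      rw [map_smul, hy, hy, tmul_smul, map_smul])
  have hF : ∀ a η, F a η = y a η := fun a η => rfl
  have hn : ∀ η a, ‖F.flip η a‖ ^ 2 = ‖η‖ ^ 2 * ‖Q.ψ.Λl a‖ ^ 2 := by
    intro η a
    have h1 := hasSum_mapT_left Q.ψ.Z Q.ψ.norm_Z (F a η)
    have h2 := Q.right_inv a a.2 η
    simp only [hF, hy] at h1
    have h3 := h1.unique h2
    rw [LinearMap.flip_apply, hF, h3, mul_comm]
    rfl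
  have hf : ∀ a a' η η', ⟪F a η, F a' η'⟫_ℂ = ⟪Q.ψ.Λl a, Q.ψ.Λl a'⟫_ℂ * ⟪η, η'⟫_ℂ := by
    intro a a' η η'
    have h1 := polarV F.flip Q.ψ.Λl hn η η' a a'
    rw [LinearMap.flip_apply, LinearMap.flip_apply] at h1
    rw [h1, mul_comm]
  obtain ⟨T, hT, hT'⟩ := exists_isometry_left Q.ψ.Λl Q.ψ.denseRange_Λl F hf
  refine ⟨T, hT', fun a ha η i => ?_⟩
  have h1 := hT ⟨a, ha⟩ η
  have h2 : Q.ψ.Λl ⟨a, ha⟩ = Q.ψ.Λ a := rfl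
  rw [h2] at h1
  rw [h1, hF, hy]

/-- The isometry `V`, `(Z_i ⊗ 1) V (tmul (Λ a) η) = Δ(a) (tmul ζ_i η)`. -/
def V : HTen H H →L[ℂ] HTen H H := Classical.choose Q.exists_V

theorem norm_V (θ : HTen H H) : ‖Q.V θ‖ = ‖θ‖ := (Classical.choose_spec Q.exists_V).1 θ

theorem V_spec {a : H →L[ℂ] H} (ha : a ∈ Q.ψ.N) (η : H) (i : Q.ψ.ι) :
    mapT (Q.ψ.Z i) (ContinuousLinearMap.id ℂ H) (Q.V (tmul (Q.ψ.Λ a) η)) = Q.Δ a (tmul (Q.ψ.z i) η) :=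
  (Classical.choose_spec Q.exists_V).2 a ha η i

end QG

end Pool.Agent.VNQ
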