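import Pool.Agent.VNQ.TrS
import Pool.Agent.VNQ.Ext

/-!
# Dominated vector functionals

`Rep.exists_sum`: if `‖π(m) ξ‖² ≤ ∑_k ‖m κ_k‖²` for all `m ∈ M` (`κ_k ∈ H`, `k < n`) then
`ξ = ∑_k S_k κ_k` for operators `S_k : H → K` whose adjoints are intertwiners.

Proof. Let `E = PiLp 2 (fun _ : Fin n => H)`, and for an operator `a` on `H` let `ã` be the operator
`(v_k) ↦ (a v_k)` on `E`; `(ã)† = (a†)~`. Let `𝓛` be the closure of `{m̃ κ : m ∈ M}` (a complete
subspace of `E`; `κ = (κ_k) ∈ E`). `𝓛` is invariant under all `ã`, `a ∈ M`, hence so is `𝓛ᗮ`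
(`M` is closed under adjoints), and the orthogonal projection `P` of `E` onto `𝓛` commutes with
`ã`. By `exists_clm` (with the submodule `M` of `B(H)` as `E`, `Λ m = m̃ κ ∈ 𝓛`, dense range,
`f m = π(m) ξ`, `C = 1`) there is `T : 𝓛 →L[ℂ] K` with `T (m̃ κ) = π(m) ξ`; `T (ã w) = π(a) T w` for
`w ∈ 𝓛`, `a ∈ M` (for `w = m̃ κ`: `π(a m) ξ = π(a) π(m) ξ`; density). Put `S̃ = T P : E → K`, so
`S̃ (ã v) = π(a) S̃ v`, and `S_k z = S̃ (z e_k)` (`z` in the `k`-th component, `0` elsewhere). Then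
`S_k (a z) = π(a) S_k z` for all `a ∈ M`, i.e. (`a := a†`, adjoints) `S_k†` is an intertwiner, and
`∑_k S_k κ_k = S̃ κ = T (1̃ κ) = π(1) ξ = ξ` (`κ = 1̃ κ ∈ 𝓛`).
-/

set_option autoImplicit false

noncomputable section

open scoped TensorProduct InnerProductSpace InnerProduct ENNReal

namespace Pool.Agent.VNQ

universe u

variable {H K : Type u} [NormedAddCommGroup H] [InnerProductSpace ℂ H] [CompleteSpace H]
  [NormedAddCommGroup K] [InnerProductSpace ℂ K] [CompleteSpace K]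

/-- The space of `n`-tuples. -/
private abbrev EE (H : Type u) [NormedAddCommGroup H] [InnerProductSpace ℂ H] (n : ℕ) : Type u :=
  PiLp 2 (fun _ : Fin n => H)

/-- The diagonal operator. -/
private def AA (n : ℕ) (a : H →L[ℂ] H) : EE H n →L[ℂ] EE H n :=
  ((PiLp.continuousLinearEquiv 2 ℂ (fun _ : Fin n => H)).symm : (Fin n → H) →L[ℂ] EE H n) ∘L
    (ContinuousLinearMap.pi fun k => a ∘L ContinuousLinearMap.proj k) ∘L
      ((PiLp.continuousLinearEquiv 2 ℂ (fun _ : Fin n => H)) : EE H n →L[ℂ] (Fin n → H))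

omit [CompleteSpace H] in
private theorem AA_apply {n : ℕ} (a : H →L[ℂ] H) (v : EE H n) (k : Fin n) :
    AA n a v k = a (v k) := rfl

/-- The inclusion of a component. -/
private def sg (n : ℕ) (k : Fin n) : H →L[ℂ] EE H n :=
  ((PiLp.continuousLinearEquiv 2 ℂ (fun _ : Fin n => H)).symm : (Fin n → H) →L[ℂ] EE H n) ∘L
    ContinuousLinearMap.single ℂ (fun _ : Fin n => H) k

omit [CompleteSpace H] in
private theorem sg_apply {n : ℕ} (k j : Fin n) (z : H) :
    sg n k z j = Pi.single (M := fun _ : Fin n => H) k z j := rfl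

omit [CompleteSpace H] in
private theorem AA_sg {n : ℕ} (a : H →L[ℂ] H) (k : Fin n) (z : H) :
    AA n a (sg n k z) = sg n k (a z) := by
  ext j
  rw [AA_apply, sg_apply, sg_apply]
  by_cases h : j = k
  · subst h
    rw [Pi.single_eq_same, Pi.single_eq_same]
  · rw [Pi.single_eq_of_ne h, Pi.single_eq_of_ne h, map_zero]

omit [CompleteSpace H] in
private theorem sum_sg {n : ℕ} (v : EE H n) : ∑ k, sg n k (v k) = v := by
  ext j
  have h1 : (∑ k, sg n k (v k)) j = ∑ k, sg n k (v k) j := by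
    simp
  rw [h1, Finset.sum_eq_single j]
  · rw [sg_apply, Pi.single_eq_same]
  · intro k _ hk
    rw [sg_apply, Pi.single_eq_of_ne (Ne.symm hk)]
  · intro h
    exact absurd (Finset.mem_univ j) h

private theorem AA_inner {n : ℕ} (a : H →L[ℂ] H) (v w : EE H n) :
    ⟪v, AA n a w⟫_ℂ = ⟪AA n (a†) v, w⟫_ℂ := by
  rw [PiLp.inner_apply, PiLp.inner_apply]
  refine Finset.sum_congr rfl fun k _ => ?_
  rw [AA_apply, AA_apply, ContinuousLinearMap.adjoint_inner_left]

omit [CompleteSpace H] in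
private theorem AA_comp {n : ℕ} (a b : H →L[ℂ] H) (v : EE H n) :
    AA n (a ∘L b) v = AA n a (AA n b v) := rfl

omit [CompleteSpace H] in
private theorem AA_norm {n : ℕ} (a : H →L[ℂ] H) (v : EE H n) :
    ‖AA n a v‖ ^ 2 = ∑ k, ‖a (v k)‖ ^ 2 := by
  rw [PiLp.norm_sq_eq_of_L2]
  rfl

/-- `M` as a subspace. -/
private def ms (M : VonNeumannAlgebra H) : Submodule ℂ (H →L[ℂ] H) where
  carrier := {m | m ∈ M}
  add_mem' := fun ha hb => VNQ.add_mem' ha hb
  zero_mem' := ZeroMemClass.zero_mem M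
  smul_mem' c _ ha := smul_mem' c ha

/-- The map `m ↦ (m κ_k)_k`. -/
private def jk (M : VonNeumannAlgebra H) {n : ℕ} (κ : EE H n) : ms M →ₗ[ℂ] EE H n where
  toFun m := AA n m.1 κ
  map_add' a b := by
    ext k
    rfl
  map_smul' c a := by
    ext k
    rfl

/-- The closure of the range. -/
private abbrev LL (M : VonNeumannAlgebra H) {n : ℕ} (κ : EE H n) : Submodule ℂ (EE H n) :=
  (LinearMap.range (jk M κ)).topologicalClosure

private theorem LL_inv {M : VonNeumannAlgebra H} {n : ℕ} {κ : EE H n} {a : H →L[ℂ] H}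
    (ha : a ∈ M) {v : EE H n} (hv : v ∈ LL M κ) : AA n a v ∈ LL M κ := by
  have h1 : LL M κ ≤ (LL M κ).comap (AA n a).toLinearMap := by
    refine Submodule.topologicalClosure_minimal _ ?_ ?_
    · rintro _ ⟨m, rfl⟩
      exact Submodule.le_topologicalClosure _ ⟨⟨a ∘L m.1, comp_mem ha m.2⟩, rfl⟩
    · exact (Submodule.isClosed_topologicalClosure _).preimage (AA n a).continuous
  exact h1 hv

private theorem proj_comm {M : VonNeumannAlgebra H} {n : ℕ} {κ : EE H n}
    [(LL M κ).HasOrthogonalProjection] {a : H →L[ℂ] H} (ha : a ∈ M) (v : EE H n) :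
    ((LL M κ).orthogonalProjectionOnto (AA n a v) : EE H n) =
      AA n a ((LL M κ).orthogonalProjectionOnto v) := by
  refine (Submodule.eq_starProjection_of_mem_of_inner_eq_zero
    (LL_inv ha ((LL M κ).orthogonalProjectionOnto v).2) fun w hw => ?_)
  rw [← map_sub]
  have h2 : AA n (a†) w ∈ LL M κ := LL_inv (adj_mem ha) hw
  have h3 := AA_inner a w (v - ((LL M κ).orthogonalProjectionOnto v : EE H n))
  have h4 : ⟪AA n (a†) w, v - ((LL M κ).orthogonalProjectionOnto v : EE H n)⟫_ℂ = 0 := by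
    exact (LL M κ).sub_starProjection_mem_orthogonal v _ h2
  rw [h4] at h3
  rw [← inner_conj_symm, h3, map_zero]

private theorem dense_jk (M : VonNeumannAlgebra H) {n : ℕ} (κ : EE H n) :
    DenseRange ((jk M κ).codRestrict (LL M κ) fun m => subset_closure ⟨m, rfl⟩) := by
  intro y
  rw [closure_subtype]
  have h1 : ((↑) : LL M κ → EE H n) '' Set.range
      ((jk M κ).codRestrict (LL M κ) fun m => subset_closure ⟨m, rfl⟩) =
      Set.range (jk M κ) := by
    rw [← Set.range_comp]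
    rfl
  rw [h1]
  exact y.2

namespace Rep

variable {M : VonNeumannAlgebra H} (R : Rep M K)

theorem exists_sum (ξ : K) {n : ℕ} (κ : Fin n → H)
    (h : ∀ m ∈ M, ‖R.π m ξ‖ ^ 2 ≤ ∑ k, ‖m (κ k)‖ ^ 2) :
    ∃ S : Fin n → H →L[ℂ] K, (∀ k, R.Int ((S k)†)) ∧ ∑ k, S k (κ k) = ξ := by
  obtain ⟨κ', hκ'⟩ : ∃ κ' : EE H n, ∀ k, κ' k = κ k := ⟨WithLp.toLp 2 κ, fun k => rfl⟩
  let Λ : ms M →ₗ[ℂ] LL M κ' := (jk M κ').codRestrict (LL M κ') fun m => subset_closure ⟨m, rfl⟩
  have hΛ : ∀ m : ms M, (Λ m : EE H n) = AA n m.1 κ' := fun m => rfl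
  let f : ms M →ₗ[ℂ] K :=
    { toFun := fun m => R.π m.1 ξ
      map_add' := fun a b => by
        change R.π (a.1 + b.1) ξ = _
        rw [R.π_add a.2 b.2]
        rfl
      map_smul' := fun c a => by
        change R.π (c • a.1) ξ = _
        rw [R.π_smul c a.2]
        rfl }
  have hf : ∀ m, ‖f m‖ ≤ 1 * ‖Λ m‖ := by
    intro m
    rw [one_mul]
    refine (pow_le_pow_iff_left₀ (norm_nonneg _) (norm_nonneg _) two_ne_zero).1 ?_
    have h1 : ‖Λ m‖ = ‖AA n m.1 κ'‖ := rfl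
    rw [h1, AA_norm]
    simp only [hκ']
    exact h m.1 m.2
  obtain ⟨T, hT, -⟩ := exists_clm Λ (dense_jk M κ') f 1 hf
  have hcs : CompleteSpace (LL M κ') :=
    (LinearMap.range (jk M κ')).isClosed_topologicalClosure.completeSpace_coe
  have hTa : ∀ a (ha : a ∈ M) (w : LL M κ'), T ⟨AA n a w, LL_inv ha w.2⟩ = R.π a (T w) := by
    intro a ha w
    have hc : Continuous fun w : LL M κ' => (⟨AA n a w, LL_inv ha w.2⟩ : LL M κ') :=
      Continuous.subtype_mk ((AA n a).continuous.comp continuous_subtype_val) _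
    refine DenseRange.induction_on (dense_jk M κ') w
      (isClosed_eq (T.continuous.comp hc) ((R.π a).continuous.comp T.continuous)) fun m => ?_
    have h1 : (⟨AA n a (Λ m), LL_inv ha (Λ m).2⟩ : LL M κ') = Λ ⟨a ∘L m.1, comp_mem ha m.2⟩ := rfl
    change T ⟨AA n a (Λ m), LL_inv ha (Λ m).2⟩ = R.π a (T (Λ m))
    rw [h1, hT, hT]
    change R.π (a ∘L m.1) ξ = R.π a (R.π m.1 ξ)
    rw [R.π_comp ha m.2]
    rfl
  let S' : EE H n →L[ℂ] K := T ∘L (LL M κ').orthogonalProjectionOnto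
  have hS' : ∀ a ∈ M, ∀ v, S' (AA n a v) = R.π a (S' v) := by
    intro a ha v
    have h1 : (LL M κ').orthogonalProjectionOnto (AA n a v) =
        ⟨AA n a ((LL M κ').orthogonalProjectionOnto v), LL_inv ha (Subtype.prop _)⟩ :=
      Subtype.ext (proj_comm ha v)
    change T ((LL M κ').orthogonalProjectionOnto (AA n a v)) = _
    rw [h1, hTa a ha]
    rfl
  refine ⟨fun k => S' ∘L sg n k, fun k => ?_, ?_⟩
  · intro m hm g
    refine ext_inner_left ℂ fun z => ?_
    rw [ContinuousLinearMap.adjoint_inner_right, ← ContinuousLinearMap.adjoint_inner_left m,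
      ContinuousLinearMap.adjoint_inner_right, ← ContinuousLinearMap.adjoint_inner_left,
      ← R.π_adj hm]
    have h1 : (S' ∘L sg n k) ((m†) z) = R.π (m†) ((S' ∘L sg n k) z) := by
      change S' (sg n k ((m†) z)) = R.π (m†) (S' (sg n k z))
      rw [← AA_sg, hS' _ (adj_mem hm)]
    rw [h1]
  · have h1 : ∑ k, (S' ∘L sg n k) (κ k) = S' (∑ k, sg n k (κ' k)) := by
      rw [map_sum]
      refine Finset.sum_congr rfl fun k _ => ?_
      rw [hκ']
      rfl
    rw [h1, sum_sg]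
    change T ((LL M κ').orthogonalProjectionOnto κ') = ξ
    have h3 : (LL M κ').orthogonalProjectionOnto κ' = Λ ⟨ContinuousLinearMap.id ℂ H, id_mem⟩ :=
      Submodule.orthogonalProjectionOnto_mem_subspace_eq_self
        (Λ ⟨ContinuousLinearMap.id ℂ H, id_mem⟩)
    rw [h3, hT]
    change R.π (ContinuousLinearMap.id ℂ H) ξ = ξ
    rw [R.π_id]
    rfl

end Rep

end Pool.Agent.VNQ
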