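import Pool.Agent.VNQ.QG
import Pool.Agent.VNQ.Polar

/-!
# The left ideal of a weight as a subspace, the GNS map as a linear map
-/

set_option autoImplicit false
set_option linter.unusedSectionVars false

noncomputable section

open scoped TensorProduct InnerProductSpace InnerProduct ENNReal

namespace Pool.Agent.VNQ

universe u

variable {H G : Type u} [NormedAddCommGroup H] [InnerProductSpace ℂ H] [CompleteSpace H]
  [NormedAddCommGroup G] [InnerProductSpace ℂ G] [CompleteSpace G]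

namespace Wt

variable {M : VonNeumannAlgebra H} (w : Wt M G)

theorem add_mem {a b : H →L[ℂ] H} (ha : a ∈ w.N) (hb : b ∈ w.N) : a + b ∈ w.N := by
  refine ⟨AddMemClass.add_mem ha.1 hb.1, ?_⟩
  refine Summable.of_nonneg_of_le (fun i => by positivity) (fun i => ?_)
    ((ha.2.mul_left 2).add (hb.2.mul_left 2))
  have h := norm_add_le (a (w.z i)) (b (w.z i))
  calc ‖(a + b) (w.z i)‖ ^ 2 = ‖a (w.z i) + b (w.z i)‖ ^ 2 := rfl
    _ ≤ (‖a (w.z i)‖ + ‖b (w.z i)‖) ^ 2 := by gcongr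
    _ ≤ 2 * ‖a (w.z i)‖ ^ 2 + 2 * ‖b (w.z i)‖ ^ 2 := by
        nlinarith [sq_nonneg (‖a (w.z i)‖ - ‖b (w.z i)‖)]

theorem smul_mem (c : ℂ) {a : H →L[ℂ] H} (ha : a ∈ w.N) : c • a ∈ w.N := by
  have h1 : c • a = (c • ContinuousLinearMap.id ℂ H) ∘L a := by
    ext x
    simp
  have h2 : c • ContinuousLinearMap.id ℂ H ∈ M := by
    have h3 : (c • ContinuousLinearMap.id ℂ H) = algebraMap ℂ (H →L[ℂ] H) c := by
      ext x
      simp [Algebra.algebraMap_eq_smul_one]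
    rw [h3]
    exact M.toStarSubalgebra.algebraMap_mem c
  rw [h1]
  exact w.mul_mem h2 ha

theorem zero_mem : (0 : H →L[ℂ] H) ∈ w.N := by
  refine ⟨ZeroMemClass.zero_mem M, ?_⟩
  simp

/-- `N` as a subspace. -/
def Nsub : Submodule ℂ (H →L[ℂ] H) where
  carrier := w.N
  add_mem' := w.add_mem
  zero_mem' := w.zero_mem
  smul_mem' c _ ha := w.smul_mem c ha

@[simp] theorem mem_Nsub {a : H →L[ℂ] H} : a ∈ w.Nsub ↔ a ∈ w.N := Iff.rfl

/-- The GNS map as a linear map. -/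
def Λl : w.Nsub →ₗ[ℂ] G where
  toFun a := w.Λ a
  map_add' a b := w.Λ_add a a.2 b b.2
  map_smul' c a := w.Λ_smul c a a.2

@[simp] theorem Λl_apply (a : w.Nsub) : w.Λl a = w.Λ a := rfl

theorem denseRange_Λl : DenseRange w.Λl := by
  have h : Set.range w.Λl = w.Λ '' NS M w.z := by
    ext g
    constructor
    · rintro ⟨a, rfl⟩
      exact ⟨a, a.2, rfl⟩
    · rintro ⟨a, ha, rfl⟩
      exact ⟨⟨a, ha⟩, rfl⟩
  show Dense (Set.range w.Λl)
  rw [h]
  exact w.dense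

/-- To check a closed condition on `G`, it is enough to check it on the vectors `Λ a`. -/
theorem induction_Λ {p : G → Prop} (g : G) (hp : IsClosed {g | p g})
    (h : ∀ a ∈ w.N, p (w.Λ a)) : p g :=
  w.denseRange_Λl.induction_on g hp fun a => h a a.2

theorem Λ_sub {a b : H →L[ℂ] H} (ha : a ∈ w.N) (hb : b ∈ w.N) :
    w.Λ (a - b) = w.Λ a - w.Λ b :=
  map_sub w.Λl ⟨a, ha⟩ ⟨b, hb⟩

theorem Λ_sum {κ : Type*} (s : Finset κ) (f : κ → H →L[ℂ] H) (hf : ∀ k ∈ s, f k ∈ w.N) :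
    w.Λ (∑ k ∈ s, f k) = ∑ k ∈ s, w.Λ (f k) := by
  classical
  have h1 : ∀ k ∈ s, w.Λ (f k) = w.Λl (if h : f k ∈ w.N then ⟨f k, h⟩ else 0) := by
    intro k hk
    rw [dif_pos (hf k hk)]
    rfl
  rw [Finset.sum_congr rfl h1, ← map_sum]
  have h2 : (∑ k ∈ s, f k) = ((∑ k ∈ s, (if h : f k ∈ w.N then (⟨f k, h⟩ : w.Nsub) else 0) :
      w.Nsub) : H →L[ℂ] H) := by
    rw [Submodule.coe_sum]
    refine Finset.sum_congr rfl fun k hk => ?_
    rw [dif_pos (hf k hk)]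
  rw [h2]
  rfl

theorem inner_Z (g g' : G) : HasSum (fun i => ⟪w.Z i g, w.Z i g'⟫_ℂ) ⟪g, g'⟫_ℂ :=
  hasSum_inner_of_norm (fun i => (w.Z i).toLinearMap) LinearMap.id w.norm_Z g g'

end Wt

end Pool.Agent.VNQ
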