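import Pool.Agent.VNQ.Pairs
import Pool.Agent.VNQ.Iso
import Pool.Agent.VNQ.SumA

/-!
# `x_{Λ_φ(c₁† c₂), v}` is in `N_ψ`

Let `c₁ ∈ N_ψ`, `c₂ ∈ N_φ`, `a = c₁† c₂ ∈ N_φ` (`Wt.mul_mem`, `adj_mem`), `v ∈ G`,
`x = x_{Λ_φ a, v}`. Then `x ∈ N_ψ` and `‖Λ x‖ ≤ ‖Λ c₁‖ ‖Λ_φ c₂‖ ‖v‖`.

Proof. `x ∈ M` (`x_mem`). Put `S_i = ∑_j ‖Δ(c₁)(tmul ζ_i (Z'_j v))‖²` (`ζ_i = Q.ψ.z i`, `Z'_j =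
Q.φ.Z
j`).
`∑_i S_i = ∑_j ∑_i ‖Δ(c₁)(tmul ζ_i (Z'_j v))‖² = ∑_j ‖Λ c₁‖² ‖Z'_j v‖² = ‖Λ c₁‖² ‖v‖²` (`right_inv`,
`norm_Z`; nonnegative terms, in particular all `S_i < ∞`). For `ξ' ∈ H`:
`⟪ξ', x ζ_i⟫ = ⟪Y(tmul ξ' (Λ_φ a)), tmul ζ_i v⟫ = ∑_j ⟪(1 ⊗ Z'_j) Y(tmul ξ' (Λ_φ a)), tmul ζ_i (Z'_j
v)⟫`
(`inner_x`, `hasSum_inner_mapT_right`) `= ∑_j ⟪Δ(a)(tmul ξ' z_j), tmul ζ_i (Z'_j v)⟫` (`Y_spec`)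
`= ∑_j ⟪Δ(c₂)(tmul ξ' z_j), Δ(c₁)(tmul ζ_i (Z'_j v))⟫` (`Q.mul`, `Q.adj`), so by Cauchy-Schwarz
(`summable_inner_of_sq`) `|⟪ξ', x ζ_i⟫|² ≤ (∑_j ‖Δ(c₂)(tmul ξ' z_j)‖²) S_i = ‖ξ'‖² ‖Λ_φ c₂‖² S_i`
(`left_inv`). With `ξ' = x ζ_i`: `‖x ζ_i‖² ≤ ‖Λ_φ c₂‖² S_i`. So
`∑_i ‖x ζ_i‖² ≤ ‖Λ_φ c₂‖² ‖Λ c₁‖² ‖v‖² < ∞`, and `‖Λ x‖² = ∑_i ‖x ζ_i‖²` (`hasSum_Λ`).

`exists_A`: `v ↦ Λ(x_{Λ_φ a, v})` is linear (`x_add_right`, `x_smul_right`, `Λ_add`, `Λ_smul`) and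
bounded (`LinearMap.mkContinuous`).
-/

set_option autoImplicit false

noncomputable section

open scoped TensorProduct InnerProductSpace InnerProduct ENNReal
open Filter

namespace Pool.Agent.VNQ

universe u

variable {H G : Type u} [NormedAddCommGroup H] [InnerProductSpace ℂ H] [CompleteSpace H]
  [NormedAddCommGroup G] [InnerProductSpace ℂ G] [CompleteSpace G]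

private theorem swap_sum {κ ι : Type*} {F : κ → ι → ℝ} (hF : ∀ k i, 0 ≤ F k i) {a : κ → ℝ}
    {A : ℝ} (h1 : ∀ k, HasSum (F k) (a k)) (h2 : HasSum a A) :
    (∀ i, Summable fun k => F k i) ∧ HasSum (fun i => ∑' k, F k i) A := by
  have hs : Summable (fun p : κ × ι => F p.1 p.2) := by
    refine (summable_prod_of_nonneg (fun p => hF p.1 p.2)).mpr ⟨fun k => (h1 k).summable, ?_⟩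
    have : (fun k => ∑' i, F k i) = a := funext fun k => (h1 k).tsum_eq
    rw [show (fun x => ∑' y, F (x, y).1 (x, y).2) = a from this]
    exact h2.summable
  obtain ⟨S, hS⟩ := hs
  have h4 := hS.prod_fiberwise (g := a) fun k => h1 k
  have h5 : S = A := h4.unique h2
  rw [h5] at hS
  have h6 : HasSum (fun p : ι × κ => F p.2 p.1) A :=
    (Equiv.prodComm ι κ).hasSum_iff.mpr hS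
  have h7 : ∀ i, Summable fun k => F k i := fun i => h6.summable.prod_factor i
  exact ⟨h7, h6.prod_fiberwise fun i => (h7 i).hasSum⟩

namespace QG

variable (Q : QG H G)

/-- The Cauchy-Schwarz estimate at one vector. -/
private theorem x_bound {c₁ c₂ : H →L[ℂ] H} (h₁ : c₁ ∈ Q.M) (h₂ : c₂ ∈ Q.φ.N) (v : G) (ζ : H)
    {S : ℝ} (hS : HasSum (fun j => ‖Q.Δ c₁ (tmul ζ (Q.φ.Z j v))‖ ^ 2) S) :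
    ‖Q.x (Q.φ.Λ ((c₁†) ∘L c₂)) v ζ‖ ^ 2 ≤ ‖Q.φ.Λ c₂‖ ^ 2 * S := by
  have ha : (c₁†) ∘L c₂ ∈ Q.φ.N := Q.φ.mul_mem (adj_mem h₁) h₂
  obtain ⟨ξ, hξ⟩ : ∃ ξ, ξ = Q.x (Q.φ.Λ ((c₁†) ∘L c₂)) v ζ := ⟨_, rfl⟩
  have hS0 : 0 ≤ S := hS.nonneg fun j => by positivity
  have h3 := Q.inner_x (Q.φ.Λ ((c₁†) ∘L c₂)) v ξ ζ
  have h4 := hasSum_inner_mapT_right Q.φ.Z Q.φ.norm_Z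
    (Q.Y (tmul ξ (Q.φ.Λ ((c₁†) ∘L c₂)))) (tmul ζ v)
  have h5 : (fun j => ⟪mapT (ContinuousLinearMap.id ℂ H) (Q.φ.Z j)
      (Q.Y (tmul ξ (Q.φ.Λ ((c₁†) ∘L c₂)))),
      mapT (ContinuousLinearMap.id ℂ H) (Q.φ.Z j) (tmul ζ v)⟫_ℂ) =
      fun j => ⟪Q.Δ c₂ (tmul ξ (Q.φ.z j)), Q.Δ c₁ (tmul ζ (Q.φ.Z j v))⟫_ℂ := by
    funext j
    rw [Q.Y_spec ha, mapT_tmul, Q.mul _ (adj_mem h₁) _ h₂.1, Q.adj _ h₁]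
    show ⟪((Q.Δ c₁)†) (Q.Δ c₂ (tmul ξ (Q.φ.z j))), tmul ζ (Q.φ.Z j v)⟫_ℂ = _
    rw [ContinuousLinearMap.adjoint_inner_left]
  rw [h5, ← h3] at h4
  have h6 := Q.left_inv c₂ h₂ ξ
  obtain ⟨-, h7⟩ := summable_inner_of_sq (fun j => Q.Δ c₂ (tmul ξ (Q.φ.z j)))
    (fun j => Q.Δ c₁ (tmul ζ (Q.φ.Z j v))) h6.summable hS.summable
  rw [h4.tsum_eq, h6.tsum_eq, hS.tsum_eq, ← hξ] at h7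
  have h8 : ‖⟪ξ, ξ⟫_ℂ‖ = ‖ξ‖ ^ 2 := by
    rw [inner_self_eq_norm_sq_to_K]
    simp
  rw [h8] at h7
  rw [← hξ]
  rcases eq_or_lt_of_le (sq_nonneg ‖ξ‖) with h0 | h0
  · rw [← h0]
    positivity
  · refine le_of_mul_le_mul_left (a := ‖ξ‖ ^ 2) ?_ h0
    calc ‖ξ‖ ^ 2 * ‖ξ‖ ^ 2 = (‖ξ‖ ^ 2) ^ 2 := by ring
      _ ≤ ‖ξ‖ ^ 2 * ‖Q.φ.Λ c₂‖ ^ 2 * S := h7
      _ = ‖ξ‖ ^ 2 * (‖Q.φ.Λ c₂‖ ^ 2 * S) := by ring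

theorem x_memN {c₁ c₂ : H →L[ℂ] H} (h₁ : c₁ ∈ Q.ψ.N) (h₂ : c₂ ∈ Q.φ.N) (v : G) :
    Q.x (Q.φ.Λ ((c₁†) ∘L c₂)) v ∈ Q.ψ.N ∧
      ‖Q.ψ.Λ (Q.x (Q.φ.Λ ((c₁†) ∘L c₂)) v)‖ ≤ ‖Q.ψ.Λ c₁‖ * ‖Q.φ.Λ c₂‖ * ‖v‖ := by
  obtain ⟨h3, h4⟩ := swap_sum (F := fun (j : Q.φ.ι) (i : Q.ψ.ι) =>
      ‖Q.Δ c₁ (tmul (Q.ψ.z i) (Q.φ.Z j v))‖ ^ 2) (fun j i => by positivity)
    (fun j => Q.right_inv c₁ h₁ (Q.φ.Z j v)) ((Q.φ.norm_Z v).mul_left (‖Q.ψ.Λ c₁‖ ^ 2))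
  have h5 : ∀ i, ‖Q.x (Q.φ.Λ ((c₁†) ∘L c₂)) v (Q.ψ.z i)‖ ^ 2 ≤
      ‖Q.φ.Λ c₂‖ ^ 2 * ∑' j, ‖Q.Δ c₁ (tmul (Q.ψ.z i) (Q.φ.Z j v))‖ ^ 2 := fun i =>
    Q.x_bound h₁.1 h₂ v (Q.ψ.z i) (h3 i).hasSum
  have h6 : Q.x (Q.φ.Λ ((c₁†) ∘L c₂)) v ∈ Q.ψ.N :=
    ⟨Q.x_mem _ _, Summable.of_nonneg_of_le (fun i => by positivity) h5
      (h4.summable.mul_left (‖Q.φ.Λ c₂‖ ^ 2))⟩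
  refine ⟨h6, ?_⟩
  have h7 : ‖Q.ψ.Λ (Q.x (Q.φ.Λ ((c₁†) ∘L c₂)) v)‖ ^ 2 ≤
      ‖Q.φ.Λ c₂‖ ^ 2 * (‖Q.ψ.Λ c₁‖ ^ 2 * ‖v‖ ^ 2) :=
    hasSum_le h5 (Q.ψ.hasSum_Λ h6) (h4.mul_left (‖Q.φ.Λ c₂‖ ^ 2))
  have h8 : ‖Q.φ.Λ c₂‖ ^ 2 * (‖Q.ψ.Λ c₁‖ ^ 2 * ‖v‖ ^ 2) =
      (‖Q.ψ.Λ c₁‖ * ‖Q.φ.Λ c₂‖ * ‖v‖) ^ 2 := by ring
  rw [h8] at h7
  exact (pow_le_pow_iff_left₀ (norm_nonneg _) (by positivity) two_ne_zero).1 h7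

theorem exists_A {c₁ c₂ : H →L[ℂ] H} (h₁ : c₁ ∈ Q.ψ.N) (h₂ : c₂ ∈ Q.φ.N) :
    ∃ A : G →L[ℂ] H, ∀ v, A v = Q.ψ.Λ (Q.x (Q.φ.Λ ((c₁†) ∘L c₂)) v) := by
  let L : G →ₗ[ℂ] H :=
    { toFun := fun v => Q.ψ.Λ (Q.x (Q.φ.Λ ((c₁†) ∘L c₂)) v)
      map_add' := fun v v' => by
        rw [Q.x_add_right]
        exact Q.ψ.Λ_add _ (Q.x_memN h₁ h₂ v).1 _ (Q.x_memN h₁ h₂ v').1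
      map_smul' := fun c v => by
        rw [Q.x_smul_right, RingHom.id_apply]
        exact Q.ψ.Λ_smul c _ (Q.x_memN h₁ h₂ v).1 }
  exact ⟨L.mkContinuous (‖Q.ψ.Λ c₁‖ * ‖Q.φ.Λ c₂‖) fun v => (Q.x_memN h₁ h₂ v).2,
    fun v => rfl⟩

end QG

end Pool.Agent.VNQ
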