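import Pool.Agent.VNQ.XOne
import Pool.Agent.VNQ.StepCa
import Pool.Agent.VNQ.KB

/-!
# Elements of the graph of `K`

Let `f` be a Hilbert basis of `H`, `c₁ ∈ N_ψ`, `c₂ ∈ N_φ`, `a = c₁† c₂`, `A v = Λ(x_{Λ_φ a, v})`
(`exists_A`), `b ∈ N_φ`, `s_k(b) = Q.sr (f l) (z_j) b` for `k = (l, j)`.

* `XTwo`: for `η ∈ H`: `θ = ∑tmul (_k Z'_j† f_l) s_k(b) η` converges in `G ⊗ H`, and
  `V ((A ⊗ 1) θ) = tmul (A (Λ_φ b)) η`.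
  Proof. Convergence: `summable_adjoint` with `A_k = L_{Z'_j† f_l}† : G ⊗ H → H`
  (`A_k† κ = tmul (Z'_j† f_l) κ`): `∑_k ‖L_{Z'_j† f_l}† θ'‖² = ∑_j ∑_l ‖L_{f_l}† (Z'_j ⊗ 1) θ'‖² =
  ∑_j ‖(Z'_j ⊗ 1) θ'‖² = ‖θ'‖²` (`lT_adjoint_mapT`, `hasSum_sq_left`, `hasSum_mapT_left`), and
  `v_k = s_k(b) η`, `∑ ‖v_k‖² = ‖Λ_φ b‖² ‖η‖²` (`hasSum_s`). Value: let
  `p_k = s_k(a)† = x_{Λ_φ a, Z'_j† f_l}` (`sr_z`), so `p_k ∈ N_ψ` (`x_memN`) and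
  `A (Z'_j† f_l) = Λ(p_k)`. Then `(Z_i ⊗ 1) V ((A ⊗ 1) θ) = ∑_k (Z_i ⊗ 1) V (Λtmul (p_k) s_k(b) η)
  = ∑_k Δ(p_k)(tmul ζ_i s_k(b) η)` (`V_spec`) `= x_tmul ({Λ_φ a, Λ_φ b} ζ_i) η` (`stepC`)
  `= (Z_i ⊗ 1)(Λtmul (x_{Λ_φ a, Λ_φ b}) η) = (Z_i ⊗ 1)(Atmul (Λ_φ b) η)` (`Z_Λ`), for all `i`;
  conclude
  with
  `ext_mapT_left` (`norm_Z`).
* `KR_x`: for `c₁, d₁ ∈ N_ψ`, `c₂, d₂ ∈ N_φ`, `a = c₁† c₂`, `b = d₁† d₂`: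
  `KR (Λ x_{Λ_φ a, Λ_φ b}) (Λ x_{Λ_φ b, Λ_φ a})`: `KR_of_hasSum` with `p_k = s_k(a)†`, `q_k =
  s_k(b)†`
  (both in `N_ψ`); by `XTwo` (apply the continuous linear maps `A ⊗ 1` and `V` to the sum)
  `∑_k V (Λtmul (p_k) (q_k† η)) = Atmul (Λ_φ b) η = Λtmul (x_{Λ_φ a, Λ_φ b}) η`, and the other sum
  is the
  same with `a`, `b` exchanged.
-/

set_option autoImplicit false

noncomputable section

open scoped TensorProduct InnerProductSpace InnerProduct ENNReal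
open Filter

namespace Pool.Agent.VNQ

universe u

variable {H G : Type u} [NormedAddCommGroup H] [InnerProductSpace ℂ H] [CompleteSpace H]
  [NormedAddCommGroup G] [InnerProductSpace ℂ G] [CompleteSpace G]

namespace QG

variable (Q : QG H G)

private theorem hasSum_prod_nn2 {α β : Type*} {F : α × β → ℝ} (hF : ∀ x, 0 ≤ F x)
    {g : α → ℝ} {c : ℝ} (h1 : ∀ a, HasSum (fun b => F (a, b)) (g a)) (h2 : HasSum g c) :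
    HasSum F c := by
  have h3 : (fun a => ∑' b, F (a, b)) = g := funext fun a => (h1 a).tsum_eq
  have hs : Summable F := by
    rw [summable_prod_of_nonneg hF]
    refine ⟨fun a => (h1 a).summable, ?_⟩
    rw [h3]
    exact h2.summable
  have h4 := hs.hasSum.prod_fiberwise h1
  rw [← h4.unique h2]
  exact hs.hasSum

private theorem hasSum_Zf {l : Type*} (f : HilbertBasis l ℂ H) (β : HTen G H) :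
    HasSum (fun k : l × Q.φ.ι => ‖((lT (((Q.φ.Z k.2)†) (f k.1)) : H →L[ℂ] HTen G H)†) β‖ ^ 2)
      (‖β‖ ^ 2) := by
  have h1 : HasSum (fun k : Q.φ.ι × l =>
      ‖((lT (((Q.φ.Z k.1)†) (f k.2)) : H →L[ℂ] HTen G H)†) β‖ ^ 2) (‖β‖ ^ 2) := by
    refine hasSum_prod_nn2 (fun k => by positivity)
      (g := fun j => ‖mapT (Q.φ.Z j) (ContinuousLinearMap.id ℂ H) β‖ ^ 2) (fun j => ?_)
      (hasSum_mapT_left Q.φ.Z Q.φ.norm_Z β)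
    have h2 := hasSum_sq_left f (mapT (Q.φ.Z j) (ContinuousLinearMap.id ℂ H) β)
    refine h2.congr_fun fun k => ?_
    have h3 := congrArg (fun T : HTen G H →L[ℂ] H => T β)
      (lT_adjoint_mapT (Q.φ.Z j) (ContinuousLinearMap.id ℂ H) (f k))
    simp only [ContinuousLinearMap.comp_apply, ContinuousLinearMap.id_apply] at h3
    rw [h3]
  exact (Equiv.prodComm l Q.φ.ι).hasSum_iff.2 h1

theorem XTwo {l : Type*} (f : HilbertBasis l ℂ H) {c₁ c₂ : H →L[ℂ] H} (h₁ : c₁ ∈ Q.ψ.N)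
    (h₂ : c₂ ∈ Q.φ.N) (A : G →L[ℂ] H) (hA : ∀ v, A v = Q.ψ.Λ (Q.x (Q.φ.Λ ((c₁†) ∘L c₂)) v))
    {b : H →L[ℂ] H} (hb : b ∈ Q.φ.N) (η : H) :
    ∃ θ : HTen G H,
      HasSum (fun k : l × Q.φ.ι => tmul (((Q.φ.Z k.2)†) (f k.1)) (Q.sr (f k.1) (Q.φ.z k.2) b η)) θ ∧
        Q.V (mapT A (ContinuousLinearMap.id ℂ H) θ) = tmul (A (Q.φ.Λ b)) η := by
  have ha : (c₁†) ∘L c₂ ∈ Q.φ.N := Q.φ.mul_mem (adj_mem h₁.1) h₂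
  obtain ⟨θ, hθ, -, -⟩ := summable_adjoint
    (fun k : l × Q.φ.ι => (lT (((Q.φ.Z k.2)†) (f k.1)) : H →L[ℂ] HTen G H)†) 1 zero_le_one
    (fun β t => by
      rw [one_mul]
      exact sum_le_hasSum t (fun _ _ => sq_nonneg _) (Q.hasSum_Zf f β))
    (fun k : l × Q.φ.ι => Q.sr (f k.1) (Q.φ.z k.2) b η) (Q.hasSum_s f hb η).summable
  simp only [ContinuousLinearMap.adjoint_adjoint, lT_apply] at hθ
  refine ⟨θ, hθ, ext_mapT_left Q.ψ.Z Q.ψ.norm_Z fun i => ?_⟩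
  have h3 := (mapT (Q.ψ.Z i) (ContinuousLinearMap.id ℂ H) ∘L Q.V ∘L
    mapT A (ContinuousLinearMap.id ℂ H)).hasSum hθ
  have h4 : ∀ k : l × Q.φ.ι, (mapT (Q.ψ.Z i) (ContinuousLinearMap.id ℂ H) ∘L Q.V ∘L
      mapT A (ContinuousLinearMap.id ℂ H))
        (tmul (((Q.φ.Z k.2)†) (f k.1)) (Q.sr (f k.1) (Q.φ.z k.2) b η)) =
      Q.Δ ((Q.sr (f k.1) (Q.φ.z k.2) ((c₁†) ∘L c₂))†)
        (tmul (Q.ψ.z i) (Q.sr (f k.1) (Q.φ.z k.2) b η)) := by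
    intro k
    rw [ContinuousLinearMap.comp_apply, ContinuousLinearMap.comp_apply, mapT_tmul,
      ContinuousLinearMap.id_apply, hA, Q.V_spec (Q.x_memN h₁ h₂ _).1, Q.sr_z ha]
  simp only [h4] at h3
  have h5 := h3.unique (Q.stepC f ha hb (Q.ψ.z i) η)
  rw [ContinuousLinearMap.comp_apply, ContinuousLinearMap.comp_apply] at h5
  rw [h5, mapT_tmul, ContinuousLinearMap.id_apply, hA, Q.ψ.Z_Λ _ (Q.x_memN h₁ h₂ _).1]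

private theorem hasSum_KR {l : Type*} (f : HilbertBasis l ℂ H) {c₁ c₂ : H →L[ℂ] H}
    (h₁ : c₁ ∈ Q.ψ.N) (h₂ : c₂ ∈ Q.φ.N) {b : H →L[ℂ] H} (hb : b ∈ Q.φ.N) (η : H) :
    HasSum (fun k : l × Q.φ.ι => Q.V (tmul (Q.ψ.Λ ((Q.sr (f k.1) (Q.φ.z k.2) ((c₁†) ∘L c₂))†)) ((((Q.sr (f k.1) (Q.φ.z k.2) b)†)†) η)))
      (tmul (Q.ψ.Λ (Q.x (Q.φ.Λ ((c₁†) ∘L c₂)) (Q.φ.Λ b))) η) := by
  have ha : (c₁†) ∘L c₂ ∈ Q.φ.N := Q.φ.mul_mem (adj_mem h₁.1) h₂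
  obtain ⟨A, hA⟩ := Q.exists_A h₁ h₂
  obtain ⟨θ, hθ, hV⟩ := Q.XTwo f h₁ h₂ A hA hb η
  have h3 := (Q.V ∘L mapT A (ContinuousLinearMap.id ℂ H)).hasSum hθ
  rw [ContinuousLinearMap.comp_apply, hV, hA] at h3
  refine h3.congr_fun fun k => ?_
  rw [ContinuousLinearMap.comp_apply, mapT_tmul, ContinuousLinearMap.id_apply, hA,
    ContinuousLinearMap.adjoint_adjoint, Q.sr_z ha]

theorem KR_x {c₁ c₂ d₁ d₂ : H →L[ℂ] H} (h₁ : c₁ ∈ Q.ψ.N) (h₂ : c₂ ∈ Q.φ.N) (h₃ : d₁ ∈ Q.ψ.N)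
    (h₄ : d₂ ∈ Q.φ.N) :
    Q.KR (Q.ψ.Λ (Q.x (Q.φ.Λ ((c₁†) ∘L c₂)) (Q.φ.Λ ((d₁†) ∘L d₂))))
      (Q.ψ.Λ (Q.x (Q.φ.Λ ((d₁†) ∘L d₂)) (Q.φ.Λ ((c₁†) ∘L c₂)))) := by
  have ha : (c₁†) ∘L c₂ ∈ Q.φ.N := Q.φ.mul_mem (adj_mem h₁.1) h₂
  have hb : (d₁†) ∘L d₂ ∈ Q.φ.N := Q.φ.mul_mem (adj_mem h₃.1) h₄
  obtain ⟨w, f, -⟩ := exists_hilbertBasis ℂ H
  refine Q.KR_of_hasSum
    (fun k : w × Q.φ.ι => (Q.sr (f k.1) (Q.φ.z k.2) ((c₁†) ∘L c₂))†)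
    (fun k : w × Q.φ.ι => (Q.sr (f k.1) (Q.φ.z k.2) ((d₁†) ∘L d₂))†)
    (fun k => ?_) (fun k => ?_) _ _ (fun η => Q.hasSum_KR f h₁ h₂ hb η)
    (fun η => Q.hasSum_KR f h₃ h₄ ha η)
  · rw [Q.sr_z ha]
    exact (Q.x_memN h₁ h₂ _).1
  · rw [Q.sr_z hb]
    exact (Q.x_memN h₃ h₄ _).1

end QG

end Pool.Agent.VNQ
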