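import Pool.Agent.VNQ.QGB
import Pool.Agent.VNQ.Ext
import Pool.Agent.VNQ.Iso

/-!
# The isometry `Y`

`QG.exists_Y`: there is an isometry `Y` of `H ⊗ G` with
`(1 ⊗ Z'_j) Y (tmul ξ (Λ_φ a)) = Δ(a) (tmul ξ z_j)` for all `a ∈ N_φ`, `ξ ∈ H` and all `j`
(`Z'_j = Q.φ.Z j : G → H`, `z_j = Q.φ.z j`).

Proof. Choose a Hilbert basis `f` of `H` (`exists_hilbertBasis`). For `a ∈ N_φ`, `ξ ∈ H` put
`s_l = L_{f_l}† Δ(a) L_ξ = Q.sl (f l) ξ a ∈ M` (`sl_mem`). Then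
`∑_l ∑_j ‖s_l z_j‖² = ∑_j ∑_l ‖L_{f_l}† Δ(a) (tmul ξ z_j)‖² = ∑_j ‖Δ(a) (tmul ξ z_j)‖² = ‖ξ‖² ‖Λ_φ
a‖²`
(`hasSum_sq_left`, `Q.left_inv`; nonnegative terms, exchange of summation). In particular
`s_l ∈ N_φ`, `‖Λ_φ s_l‖² = ∑_j ‖s_l z_j‖²` (`hasSum_Λ`), and `∑_l ‖Λ_φ s_l‖² = ‖ξ‖² ‖Λ_φ a‖² < ∞`.
So `y(ξ, a) := ∑tmul (_l f_l) Λ_φ(s_l)` converges (the summands are pairwise orthogonal
with square summable norms: `OrthogonalFamily.summable_of_...`/`summable_adjoint` with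
`A_l = L_{f_l}†`, `A_l† v = tmul f_l v`, `hasSum_sq_left`).
`(1 ⊗ Z'_j) y(ξ, a) = ∑tmul (_l f_l) (s_l z_j) = ∑tmul (_l f_l) L_{f_l}† Δ(a) (tmul ξ z_j) = Δ(a)
(tmul ξ z_j)`
(`Z_Λ`, `hasSum_left`). So `y` is determined by `(1 ⊗ Z'_j) y(ξ, a) = Δ(a)(tmul ξ z_j)` for all `j`
(`ext_mapT_right` with `T = Z'`, `norm_Z`), and it is therefore linear in `ξ` and in
`a ∈ N_φ` (`Q.add`, `Q.smul`): a linear map `H →ₗ Nsub →ₗ HTen H G` (`LinearMap.mk₂`).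
Inner products: `⟪y(ξ,a), y(ξ',a')⟫ = ∑_j ⟪Δ(a)(tmul ξ z_j), Δ(a')(tmul ξ' z_j)⟫`
(`hasSum_inner_mapT_right`) and this equals `⟪ξ, ξ'⟫ ⟪Λ_φ a, Λ_φ a'⟫`:
polarization of `left_inv` in two steps. (1) For fixed `ξ`: `∑_j ‖Δ(a)(tmul ξ z_j)‖² = ‖ξ‖² ‖Λ_φ
a‖²`
gives
`∑_j ⟪Δ(a)(tmul ξ z_j), Δ(a')(tmul ξ z_j)⟫ = ‖ξ‖² ⟪Λ_φ a, Λ_φ a'⟫` (`hasSum_inner_of_norm` with
`T_j : Nsub →ₗ HTen H H`, `a ↦ Δ(a)(tmul ξ z_j)` and `W a = ‖ξ‖ • Λ_φ a`). (2) For fixed `a`, `a'`,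
both
sides are the values at `(ξ, ξ)` of sesquilinear forms in `(ξ, ξ')`, so by the complex polarization
identity the forms agree. (For (2): the sesquilinear form
`F(ξ, ξ') = ⟪y(ξ,a), y(ξ',a')⟫ - ⟪ξ, ξ'⟫ ⟪Λ_φ a, Λ_φ a'⟫` vanishes for `ξ = ξ'`; expand
`F(ξ + ξ', ξ + ξ') = 0` and `F(ξ + i ξ', ξ + i ξ') = 0`.)
Apply `exists_isometry_right` with `Λ = Q.φ.Λl` (dense range: `denseRange_Λl`).
-/

set_option autoImplicit false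

noncomputable section

open scoped TensorProduct InnerProductSpace InnerProduct ENNReal
open Filter

namespace Pool.Agent.VNQ

universe u

variable {H G : Type u} [NormedAddCommGroup H] [InnerProductSpace ℂ H] [CompleteSpace H]
  [NormedAddCommGroup G] [InnerProductSpace ℂ G] [CompleteSpace G]

private theorem polar2 {E : Type*} [AddCommGroup E] [Module ℂ E] {F : Type*}
    [NormedAddCommGroup F] [InnerProductSpace ℂ F] (f : H →ₗ[ℂ] E →ₗ[ℂ] F) (L : E →ₗ[ℂ] G)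
    (h : ∀ ξ a, ‖f ξ a‖ ^ 2 = ‖ξ‖ ^ 2 * ‖L a‖ ^ 2) (ξ ξ' : H) (a a' : E) :
    ⟪f ξ a, f ξ' a'⟫_ℂ = ⟪ξ, ξ'⟫_ℂ * ⟪L a, L a'⟫_ℂ := by
  have h1 : ∀ ξ : H, ⟪f ξ a, f ξ a'⟫_ℂ = ⟪ξ, ξ⟫_ℂ * ⟪L a, L a'⟫_ℂ := by
    intro ξ
    have h2 := hasSum_inner_of_norm (fun _ : Unit => f ξ) (((‖ξ‖ : ℝ) : ℂ) • L)
      (fun g => by
        have h3 : ‖f ξ g‖ ^ 2 = ‖(((‖ξ‖ : ℝ) : ℂ) • L) g‖ ^ 2 := by
          rw [h, LinearMap.smul_apply, norm_smul, mul_pow]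
          simp
        rw [← h3]
        exact hasSum_unique (fun _ : Unit => ‖f ξ g‖ ^ 2)) a a'
    have h4 := h2.unique (hasSum_unique (fun _ : Unit => ⟪f ξ a, f ξ a'⟫_ℂ))
    rw [← h4, LinearMap.smul_apply, LinearMap.smul_apply, inner_smul_left, inner_smul_right,
      inner_self_eq_norm_sq_to_K, Complex.conj_ofReal, ← mul_assoc, ← pow_two]
    rfl
  set c := ⟪L a, L a'⟫_ℂ with hc
  have e1 := h1 (ξ + ξ')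
  have e2 := h1 (ξ + Complex.I • ξ')
  have e3 := h1 ξ
  have e4 := h1 ξ'
  simp only [map_add, map_smul, LinearMap.add_apply, LinearMap.smul_apply, inner_add_left,
    inner_add_right, inner_smul_left, inner_smul_right, Complex.conj_I] at e1 e2
  have hI : Complex.I * Complex.I = -1 := Complex.I_mul_I
  have k1 : ⟪f ξ a, f ξ' a'⟫_ℂ + ⟪f ξ' a, f ξ a'⟫_ℂ = (⟪ξ, ξ'⟫_ℂ + ⟪ξ', ξ⟫_ℂ) * c := by
    linear_combination e1 - e3 - e4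
  have k2 : ⟪f ξ a, f ξ' a'⟫_ℂ - ⟪f ξ' a, f ξ a'⟫_ℂ = (⟪ξ, ξ'⟫_ℂ - ⟪ξ', ξ⟫_ℂ) * c := by
    have k3 : Complex.I * (⟪f ξ a, f ξ' a'⟫_ℂ - ⟪f ξ' a, f ξ a'⟫_ℂ) =
        Complex.I * ((⟪ξ, ξ'⟫_ℂ - ⟪ξ', ξ⟫_ℂ) * c) := by
      linear_combination e2 - e3 + Complex.I ^ 2 * e4
    exact mul_left_cancel₀ Complex.I_ne_zero k3
  linear_combination (k1 + k2) / 2

private theorem swap_sum {κ ι : Type*} {F : κ → ι → ℝ} (hF : ∀ k i, 0 ≤ F k i) {a : κ → ℝ}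
    {A : ℝ} (h1 : ∀ k, HasSum (F k) (a k)) (h2 : HasSum a A) :
    (∀ i, Summable fun k => F k i) ∧
      ∀ b : ι → ℝ, (∀ i, HasSum (fun k => F k i) (b i)) → HasSum b A := by
  have hs : Summable (fun p : κ × ι => F p.1 p.2) := by
    refine (summable_prod_of_nonneg (fun p => hF p.1 p.2)).mpr ⟨fun k => (h1 k).summable, ?_⟩
    have : (fun k => ∑' i, F k i) = a := funext fun k => (h1 k).tsum_eq
    rw [show (fun x => ∑' y, F (x, y).1 (x, y).2) = a from this]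
    exact h2.summable
  obtain ⟨S, hS⟩ := hs
  have h4 := hS.prod_fiberwise (g := a) fun k => h1 k
  have h5 : S = A := h4.unique h2
  rw [h5] at hS
  have h6 : HasSum (fun p : ι × κ => F p.2 p.1) A :=
    (Equiv.prodComm ι κ).hasSum_iff.mpr hS
  exact ⟨fun i => h6.summable.prod_factor i, fun b h3 => h6.prod_fiberwise (g := b) h3⟩

private theorem exists_vec (Q : QG H G) {l : Type*} (f : HilbertBasis l ℂ H) {a : H →L[ℂ] H}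
    (ha : a ∈ Q.φ.N) (ξ : H) : ∃ y : HTen H G, ∀ j,
      mapT (ContinuousLinearMap.id ℂ H) (Q.φ.Z j) y = Q.Δ a (tmul ξ (Q.φ.z j)) := by
  classical
  have hsM : ∀ k, Q.sl (f k) ξ a ∈ Q.M := fun k => Q.sl_mem _ _ ha.1
  have hsum := swap_sum (F := fun j k => ‖Q.sl (f k) ξ a (Q.φ.z j)‖ ^ 2)
    (fun j k => by positivity)
    (a := fun j => ‖Q.Δ a (tmul ξ (Q.φ.z j))‖ ^ 2)
    (fun j => hasSum_sq_left f (Q.Δ a (tmul ξ (Q.φ.z j)))) (Q.left_inv a ha ξ)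
  have hsN : ∀ k, Q.sl (f k) ξ a ∈ Q.φ.N := fun k => ⟨hsM k, hsum.1 k⟩
  have hsq : Summable fun k => ‖Q.φ.Λ (Q.sl (f k) ξ a)‖ ^ 2 :=
    (hsum.2 _ fun k => Q.φ.hasSum_Λ (hsN k)).summable
  have hnf : ∀ k, ‖f k‖ = 1 := fun k => f.orthonormal.1 k
  let V : l → G →ₗᵢ[ℂ] HTen H G := fun k => ⟨(lT (f k) : G →L[ℂ] HTen H G).toLinearMap,
    fun g => by
      change ‖tmul (f k) g‖ = ‖g‖
      rw [norm_tmul, hnf, one_mul]⟩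
  have hV : OrthogonalFamily ℂ (fun _ : l => G) V := by
    intro k k' hkl x y
    change ⟪tmul (f k) x, tmul (f k') y⟫_ℂ = 0
    rw [inner_tmul, f.orthonormal.2 hkl, zero_mul]
  have hS : Summable fun k => V k (Q.φ.Λ (Q.sl (f k) ξ a)) :=
    (hV.summable_iff_norm_sq_summable _).2 hsq
  refine ⟨∑' k, V k (Q.φ.Λ (Q.sl (f k) ξ a)), fun j => ?_⟩
  have h1 := hS.hasSum.mapL (mapT (ContinuousLinearMap.id ℂ H) (Q.φ.Z j))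
  have h2 := hasSum_left f (Q.Δ a (tmul ξ (Q.φ.z j)))
  refine h1.unique ?_
  convert h2 using 2 with k
  change mapT (ContinuousLinearMap.id ℂ H) (Q.φ.Z j) (tmul (f k) (Q.φ.Λ (Q.sl (f k) ξ a))) = _
  rw [mapT_tmul, Q.φ.Z_Λ _ (hsN k)]
  rfl

namespace QG

variable (Q : QG H G)

theorem exists_Y : ∃ Y : HTen H G →L[ℂ] HTen H G, (∀ θ, ‖Y θ‖ = ‖θ‖) ∧
    ∀ a ∈ Q.φ.N, ∀ ξ j, mapT (ContinuousLinearMap.id ℂ H) (Q.φ.Z j) (Y (tmul ξ (Q.φ.Λ a))) =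
      Q.Δ a (tmul ξ (Q.φ.z j)) := by
  classical
  obtain ⟨w0, f, -⟩ := exists_hilbertBasis ℂ H
  have hex : ∀ (ξ : H) (a : Q.φ.Nsub), ∃ y : HTen H G, ∀ j,
      mapT (ContinuousLinearMap.id ℂ H) (Q.φ.Z j) y = Q.Δ a (tmul ξ (Q.φ.z j)) :=
    fun ξ a => exists_vec Q f a.2 ξ
  choose y hy using hex
  have huniq : ∀ {θ θ' : HTen H G}, (∀ j, mapT (ContinuousLinearMap.id ℂ H) (Q.φ.Z j) θ =
      mapT (ContinuousLinearMap.id ℂ H) (Q.φ.Z j) θ') → θ = θ' :=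
    fun h => ext_mapT_right Q.φ.Z Q.φ.norm_Z h
  let F : H →ₗ[ℂ] Q.φ.Nsub →ₗ[ℂ] HTen H G := LinearMap.mk₂ ℂ y
    (fun ξ ξ' a => huniq fun j => by
      rw [map_add, hy, hy, hy, add_tmul, map_add])
    (fun c ξ a => huniq fun j => by
      rw [map_smul, hy, hy, smul_tmul, map_smul])
    (fun ξ a a' => huniq fun j => by
      rw [map_add, hy, hy, hy, Submodule.coe_add, Q.add _ a.2.1 _ a'.2.1]
      rfl)
    (fun c ξ a => huniq fun j => by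
      rw [map_smul, hy, hy, Submodule.coe_smul, Q.smul c _ a.2.1]
      rfl)
  have hF : ∀ ξ a, F ξ a = y ξ a := fun ξ a => rfl
  have hn : ∀ ξ a, ‖F ξ a‖ ^ 2 = ‖ξ‖ ^ 2 * ‖Q.φ.Λl a‖ ^ 2 := by
    intro ξ a
    have h1 := hasSum_mapT_right Q.φ.Z Q.φ.norm_Z (F ξ a)
    have h2 := Q.left_inv a a.2 ξ
    simp only [hF, hy] at h1
    exact h1.unique h2
  have hf : ∀ ξ ξ' a a', ⟪F ξ a, F ξ' a'⟫_ℂ = ⟪ξ, ξ'⟫_ℂ * ⟪Q.φ.Λl a, Q.φ.Λl a'⟫_ℂ :=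
    polar2 F Q.φ.Λl hn
  obtain ⟨T, hT, hT'⟩ := exists_isometry_right Q.φ.Λl Q.φ.denseRange_Λl F hf
  refine ⟨T, hT', fun a ha ξ j => ?_⟩
  have h1 := hT ξ ⟨a, ha⟩
  have h2 : Q.φ.Λl ⟨a, ha⟩ = Q.φ.Λ a := rfl
  rw [h2] at h1
  rw [h1, hF, hy]

/-- The isometry `Y`, `(1 ⊗ Z'_j) Y (tmul ξ (Λ_φ a)) = Δ(a) (tmul ξ z_j)`. -/
def Y : HTen H G →L[ℂ] HTen H G := Classical.choose Q.exists_Y

theorem norm_Y (θ : HTen H G) : ‖Q.Y θ‖ = ‖θ‖ := (Classical.choose_spec Q.exists_Y).1 θ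

theorem Y_spec {a : H →L[ℂ] H} (ha : a ∈ Q.φ.N) (ξ : H) (j : Q.φ.ι) :
    mapT (ContinuousLinearMap.id ℂ H) (Q.φ.Z j) (Q.Y (tmul ξ (Q.φ.Λ a))) = Q.Δ a (tmul ξ (Q.φ.z j)) :=
  (Classical.choose_spec Q.exists_Y).2 a ha ξ j

end QG

end Pool.Agent.VNQ
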