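import Pool.Agent.VNQ.YEx

/-!
# Properties of `Y` and the operators `x_{u,v} = R_u† Y† R_v`

* `Y_inner`: `⟪Y θ, Y θ'⟫ = ⟪θ, θ'⟫` (polarization of `norm_Y`; e.g. `Y† Y = 1` by
  `ContinuousLinearMap.inner_map_map_iff_adjoint_comp_self` or `LinearIsometry.inner_map_map`).
* `Y_slice`: for `a ∈ N_φ`: `s = Q.sl ξ' ξ a ∈ N_φ` and `L_{ξ'}† Y (tmul ξ (Λ_φ a)) = Λ_φ(s)`.
  Proof. Let `g = L_{ξ'}† Y (tmul ξ (Λ_φ a)) ∈ G`. For all `j`: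
  `Z'_j g = L_{ξ'}† (1 ⊗ Z'_j) Y (tmul ξ (Λ_φ a)) = L_{ξ'}† Δ(a) (tmul ξ z_j) = s z_j`
  (`lT_adjoint_mapT`,
  `Y_spec`). So `∑_j ‖s z_j‖² = ∑_j ‖Z'_j g‖² = ‖g‖² < ∞`, hence `s ∈ N_φ` (`sl_mem`), and
  `Z'_j (Λ_φ s) = s z_j = Z'_j g` for all `j`, so `g = Λ_φ s` (`ext_Z`).
* `Y_comm`: for `m ∈ M'`: `Y (m ⊗ 1) = (m ⊗ 1) Y`: on `tmul ξ (Λ_φ a)` apply `1 ⊗ Z'_j` to both
sides
  (`ext_mapT_right`): `Δ(a) (tmul (m ξ) z_j) = (m ⊗ 1) Δ(a) (tmul ξ z_j)` (`Δ_comm_l`,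
  `mapT_comp_apply`);
  density of the `Λ_φ a` (`induction_Λ`) and `clm_ext`.
* `x_mem`: `x_{u,v}` commutes with `m ∈ M'`: `R_v m = (m ⊗ 1) R_v`, `Y† (m ⊗ 1) = (m ⊗ 1) Y†`
(adjoint of
  `Y_comm` for `m†`), `R_u† (m ⊗ 1) = m R_u†` (`rT_adjoint_mapT`); `mem_of_comm`.
* `inner_x`: `⟪ξ', x_{u,v} ξ⟫ = ⟪Y (tmul ξ' u), tmul ξ v⟫`.
* `norm_x_le`: `‖x_{u,v}‖ ≤ ‖u‖ ‖v‖` (from `inner_x` and `norm_Y`).
* `x_add_right` etc.: linear in `v`, conjugate linear in `u` (from `inner_x`).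
* `sr_z`: for `a ∈ N_φ`: `(Q.sr η (z_j) a)† = x_{Λ_φ a, Z'_j† η}`:
  `⟪ξ', x_{Λ_φ a, Z'_j† η} ξ⟫ = ⟪Y (tmul ξ' (Λ_φ a)), tmul ξ (Z'_j† η)⟫ = ⟪(1 ⊗ Z'_j) Y (tmul ξ'
  (Λ_φ a)), tmul ξ η⟫
  = ⟪Δ(a) (tmul ξ' z_j), tmul ξ η⟫ = ⟪Q.sr η (z_j) a ξ', ξ⟫` (`adjoint_mapT`, `inner_sr`).
-/

set_option autoImplicit false

noncomputable section

open scoped TensorProduct InnerProductSpace InnerProduct ENNReal
open Filter

namespace Pool.Agent.VNQ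

universe u

variable {H G : Type u} [NormedAddCommGroup H] [InnerProductSpace ℂ H] [CompleteSpace H]
  [NormedAddCommGroup G] [InnerProductSpace ℂ G] [CompleteSpace G]

private theorem lT_adj_mapT {K K' : Type u} [NormedAddCommGroup K] [InnerProductSpace ℂ K]
    [CompleteSpace K] [NormedAddCommGroup K'] [InnerProductSpace ℂ K'] [CompleteSpace K']
    (T : K →L[ℂ] K') (ξ : H) (θ : HTen H K) :
    ((lT ξ : K' →L[ℂ] HTen H K')†) (mapT (ContinuousLinearMap.id ℂ H) T θ) =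
      T (((lT ξ : K →L[ℂ] HTen H K)†) θ) := by
  have h := congrArg (fun f : HTen H K →L[ℂ] K' => f θ)
    (lT_adjoint_mapT (ContinuousLinearMap.id ℂ H) T ξ)
  have h2 : ((ContinuousLinearMap.id ℂ H)†) ξ = ξ := by
    have : (ContinuousLinearMap.id ℂ H)† = ContinuousLinearMap.id ℂ H :=
      ContinuousLinearMap.adjoint_id
    rw [this]
    rfl
  rw [h2] at h
  exact h

namespace QG

variable (Q : QG H G)

theorem Y_inner (θ θ' : HTen H G) : ⟪Q.Y θ, Q.Y θ'⟫_ℂ = ⟪θ, θ'⟫_ℂ := by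
  let L : HTen H G →ₗᵢ[ℂ] HTen H G := ⟨(Q.Y : HTen H G →ₗ[ℂ] HTen H G), fun θ => Q.norm_Y θ⟩
  exact L.inner_map_map θ θ'

theorem Y_slice {a : H →L[ℂ] H} (ha : a ∈ Q.φ.N) (ξ' ξ : H) :
    Q.sl ξ' ξ a ∈ Q.φ.N ∧ ((lT ξ')†) (Q.Y (tmul ξ (Q.φ.Λ a))) = Q.φ.Λ (Q.sl ξ' ξ a) := by
  set g : G := ((lT ξ')†) (Q.Y (tmul ξ (Q.φ.Λ a))) with hg
  have hZ : ∀ j, Q.φ.Z j g = Q.sl ξ' ξ a (Q.φ.z j) := by
    intro j
    rw [hg, ← lT_adj_mapT, Q.Y_spec ha]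
    rfl
  have hmem : Q.sl ξ' ξ a ∈ Q.φ.N := by
    refine ⟨Q.sl_mem ξ' ξ ha.1, ?_⟩
    have h := (Q.φ.norm_Z g).summable
    simpa only [hZ] using h
  refine ⟨hmem, Q.φ.ext_Z fun j => ?_⟩
  rw [hZ, Q.φ.Z_Λ _ hmem]

theorem Y_comm {m : H →L[ℂ] H} (hm : m ∈ Q.M.commutant) (θ : HTen H G) :
    Q.Y (mapT m (ContinuousLinearMap.id ℂ G) θ) =
      mapT m (ContinuousLinearMap.id ℂ G) (Q.Y θ) := by
  have h : Q.Y ∘L mapT m (ContinuousLinearMap.id ℂ G) =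
      mapT m (ContinuousLinearMap.id ℂ G) ∘L Q.Y := by
    refine clm_ext fun ξ g => ?_
    have hcl : IsClosed {g : G | (Q.Y ∘L mapT m (ContinuousLinearMap.id ℂ G)) (tmul ξ g) =
        (mapT m (ContinuousLinearMap.id ℂ G) ∘L Q.Y) (tmul ξ g)} :=
      isClosed_eq ((Q.Y ∘L mapT m (ContinuousLinearMap.id ℂ G)) ∘L lT ξ).continuous
        ((mapT m (ContinuousLinearMap.id ℂ G) ∘L Q.Y) ∘L lT ξ).continuous
    refine Q.φ.induction_Λ g hcl fun a ha => ?_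
    show Q.Y (mapT m (ContinuousLinearMap.id ℂ G) (tmul ξ (Q.φ.Λ a))) =
      mapT m (ContinuousLinearMap.id ℂ G) (Q.Y (tmul ξ (Q.φ.Λ a)))
    refine ext_mapT_right Q.φ.Z Q.φ.norm_Z fun j => ?_
    have h1 : mapT (ContinuousLinearMap.id ℂ H) (Q.φ.Z j)
        (mapT m (ContinuousLinearMap.id ℂ G) (Q.Y (tmul ξ (Q.φ.Λ a)))) =
        mapT m (ContinuousLinearMap.id ℂ H)
          (mapT (ContinuousLinearMap.id ℂ H) (Q.φ.Z j) (Q.Y (tmul ξ (Q.φ.Λ a)))) := by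
      rw [mapT_comp_apply, mapT_comp_apply]
      rfl
    have h2 : mapT m (ContinuousLinearMap.id ℂ G) (tmul ξ (Q.φ.Λ a)) = tmul (m ξ) (Q.φ.Λ a) := by
      rw [mapT_tmul]
      rfl
    have h3 : mapT m (ContinuousLinearMap.id ℂ H) (tmul ξ (Q.φ.z j)) = tmul (m ξ) (Q.φ.z j) := by
      rw [mapT_tmul]
      rfl
    rw [h1, h2, Q.Y_spec ha, Q.Y_spec ha, ← Q.Δ_comm_l ha.1 hm, h3]
  exact congrArg (fun f : HTen H G →L[ℂ] HTen H G => f θ) h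

/-- The operators `x_{u,v} = R_u† Y† R_v`. -/
def x (u v : G) : H →L[ℂ] H := (rT u)† ∘L (Q.Y)† ∘L rT v

theorem inner_x (u v : G) (ξ' ξ : H) : ⟪ξ', Q.x u v ξ⟫_ℂ = ⟪Q.Y (tmul ξ' u), tmul ξ v⟫_ℂ := by
  show ⟪ξ', ((rT u)†) (((Q.Y)†) (rT v ξ))⟫_ℂ = _
  rw [inner_rT_adjoint, ContinuousLinearMap.adjoint_inner_right, rT_apply]

theorem x_mem (u v : G) : Q.x u v ∈ Q.M := by
  refine mem_of_comm fun m hm ξ => ?_
  have hm' : m† ∈ Q.M.commutant := adj_mem hm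
  refine ext_inner_left ℂ fun ξ' => ?_
  have h1 : tmul ((m†) ξ') u = mapT (m†) (ContinuousLinearMap.id ℂ G) (tmul ξ' u) := by
    rw [mapT_tmul]
    rfl
  have h2 : tmul (m ξ) v = mapT m (ContinuousLinearMap.id ℂ G) (tmul ξ v) := by
    rw [mapT_tmul]
    rfl
  have h3 : mapT (m†) (ContinuousLinearMap.id ℂ G) =
      (mapT m (ContinuousLinearMap.id ℂ G))† := by
    rw [adjoint_mapT]
    congr 1
    exact ContinuousLinearMap.adjoint_id.symm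
  rw [← ContinuousLinearMap.adjoint_inner_left, Q.inner_x, h1, Q.Y_comm hm', h3,
    ContinuousLinearMap.adjoint_inner_left, ← h2, Q.inner_x]

theorem norm_x_le (u v : G) : ‖Q.x u v‖ ≤ ‖u‖ * ‖v‖ := by
  refine ContinuousLinearMap.opNorm_le_bound _ (by positivity) fun ξ => ?_
  by_cases h0 : ‖Q.x u v ξ‖ = 0
  · rw [h0]
    positivity
  have hpos : 0 < ‖Q.x u v ξ‖ := lt_of_le_of_ne (norm_nonneg _) (Ne.symm h0)
  have h1 := Q.inner_x u v (Q.x u v ξ) ξ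
  have h2 : ‖⟪Q.x u v ξ, Q.x u v ξ⟫_ℂ‖ = ‖Q.x u v ξ‖ * ‖Q.x u v ξ‖ := by
    rw [inner_self_eq_norm_sq_to_K]
    simp [sq]
  have h3 : ‖⟪Q.Y (tmul (Q.x u v ξ) u), tmul ξ v⟫_ℂ‖ ≤ ‖Q.Y (tmul (Q.x u v ξ) u)‖ * ‖tmul ξ v‖ :=
    norm_inner_le_norm _ _
  rw [← h1, h2, Q.norm_Y, norm_tmul, norm_tmul] at h3
  have h4 : ‖Q.x u v ξ‖ * ‖Q.x u v ξ‖ ≤ ‖Q.x u v ξ‖ * (‖u‖ * ‖v‖ * ‖ξ‖) := by
    refine h3.trans (le_of_eq ?_)
    ring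
  exact le_of_mul_le_mul_left h4 hpos

theorem x_add_right (u v v' : G) : Q.x u (v + v') = Q.x u v + Q.x u v' := by
  ext ξ
  refine ext_inner_left ℂ fun ξ' => ?_
  rw [add_apply, inner_add_right, Q.inner_x, Q.inner_x, Q.inner_x, tmul_add,
    inner_add_right]

theorem x_smul_right (u v : G) (c : ℂ) : Q.x u (c • v) = c • Q.x u v := by
  ext ξ
  refine ext_inner_left ℂ fun ξ' => ?_
  rw [smul_apply, inner_smul_right, Q.inner_x, Q.inner_x, tmul_smul,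
    inner_smul_right]

theorem x_sub_left (u u' v : G) : Q.x (u - u') v = Q.x u v - Q.x u' v := by
  ext ξ
  refine ext_inner_left ℂ fun ξ' => ?_
  rw [sub_apply, inner_sub_right, Q.inner_x, Q.inner_x, Q.inner_x, tmul_sub,
    map_sub, inner_sub_left]

theorem x_sub_right (u v v' : G) : Q.x u (v - v') = Q.x u v - Q.x u v' := by
  ext ξ
  refine ext_inner_left ℂ fun ξ' => ?_
  rw [sub_apply, inner_sub_right, Q.inner_x, Q.inner_x, Q.inner_x, tmul_sub,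
    inner_sub_right]

theorem sr_z {a : H →L[ℂ] H} (ha : a ∈ Q.φ.N) (η : H) (j : Q.φ.ι) :
    (Q.sr η (Q.φ.z j) a)† = Q.x (Q.φ.Λ a) (((Q.φ.Z j)†) η) := by
  ext ξ
  refine ext_inner_left ℂ fun ξ' => ?_
  have h1 : tmul ξ (((Q.φ.Z j)†) η) =
      ((mapT (ContinuousLinearMap.id ℂ H) (Q.φ.Z j))†) (tmul ξ η) := by
    rw [adjoint_mapT, mapT_tmul]
    have h2 : ((ContinuousLinearMap.id ℂ H)†) ξ = ξ := by
      have : (ContinuousLinearMap.id ℂ H)† = ContinuousLinearMap.id ℂ H :=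
        ContinuousLinearMap.adjoint_id
      rw [this]
      rfl
    rw [h2]
  rw [ContinuousLinearMap.adjoint_inner_right, Q.inner_x, h1,
    ContinuousLinearMap.adjoint_inner_right, Q.Y_spec ha, ← inner_conj_symm, Q.inner_sr,
    inner_conj_symm]

end QG

end Pool.Agent.VNQ
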